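import Mathlib

set_option autoImplicit false

open Filter Topology

namespace Pool.Agent.H27.AlmostAdd

abbrev XX : Type := ℕ → Bool

def sh (x : XX) : XX := fun i => x (i + 1)

/-- sign of the length of the current run of `false` before position `j` -/
def sg (x : XX) : ℕ → ℝ
  | 0 => 1
  | j + 1 => if x j then 1 else - sg x j

def ff (n : ℕ) (x : XX) : ℝ := ∑ j ∈ Finset.range n, if x j then sg x j else 0

lemma sh_iter (n : ℕ) (x : XX) : sh^[n] x = fun i => x (n + i) := by
  induction n generalizing x with
  | zero => simp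
  | succ n ih =>
    rw [Function.iterate_succ_apply, ih]
    funext i
    simp only [sh]
    congr 1
    omega

lemma abs_sg (x : XX) (j : ℕ) : |sg x j| = 1 := by
  induction j with
  | zero => simp [sg]
  | succ j ih => simp only [sg]; split_ifs <;> simp [ih]

lemma cont_ite (j : ℕ) (a b : XX → ℝ) (ha : Continuous a) (hb : Continuous b) :
    Continuous fun x : XX => if x j then a x else b x := by
  have h1 : Continuous fun x : XX => (if x j then (1:ℝ) else 0) :=
    (continuous_of_discreteTopology (f := fun t : Bool => if t then (1:ℝ) else 0)).comp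
      (continuous_apply j)
  have : (fun x : XX => if x j then a x else b x) =
      fun x : XX => (if x j then (1:ℝ) else 0) * a x + (1 - (if x j then (1:ℝ) else 0)) * b x := by
    funext x; split_ifs <;> simp
  rw [this]
  exact (h1.mul ha).add ((continuous_const.sub h1).mul hb)

lemma cont_sg (j : ℕ) : Continuous fun x : XX => sg x j := by
  induction j with
  | zero => simpa [sg] using continuous_const
  | succ j ih => simp only [sg]; exact cont_ite j _ _ continuous_const ih.neg

lemma cont_ff (n : ℕ) : Continuous (ff n) := by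
  unfold ff
  exact continuous_finsetSum _ fun j _ => cont_ite j _ _ (cont_sg j) continuous_const

lemma cont_sh : Continuous sh := continuous_pi fun i => continuous_apply (i + 1)

lemma sg_congr (x y : XX) (j : ℕ) (h : ∀ i < j, x i = y i) : sg x j = sg y j := by
  induction j with
  | zero => simp [sg]
  | succ j ih =>
    simp only [sg]
    rw [h j (by omega), ih fun i hi => h i (by omega)]

lemma ff_congr (x y : XX) (n : ℕ) (h : ∀ i < n, x i = y i) : ff n x = ff n y := by
  unfold ff
  refine Finset.sum_congr rfl fun j hj => ?_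
  have hj' := Finset.mem_range.1 hj
  rw [h j hj', sg_congr x y j fun i hi => h i (by omega)]

lemma ff_succ (n : ℕ) (x : XX) : ff (n + 1) x = ff n x + if x n then sg x n else 0 := by
  unfold ff; rw [Finset.sum_range_succ]

lemma almost (n m : ℕ) (x : XX) :
    ff (n + m) x - ff n x - ff m (sh^[n] x) = 0 ∨
      (sg x (n + m) = sg (sh^[n] x) m ∧ |ff (n + m) x - ff n x - ff m (sh^[n] x)| ≤ 2) := by
  induction m with
  | zero => left; simp [ff]
  | succ m ih =>
    rw [← add_assoc, ff_succ, ff_succ]
    have hy : (sh^[n] x) m = x (n + m) := by rw [sh_iter]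
    simp only [sg, hy]
    by_cases hx : x (n + m) = true
    · simp only [hx, if_true, true_and]
      right
      rcases ih with h | ⟨h1, h2⟩
      · have e : ff (n + m) x + sg x (n + m) - ff n x - (ff m (sh^[n] x) + sg (sh^[n] x) m)
            = sg x (n + m) - sg (sh^[n] x) m := by linarith
        rw [e]
        have := abs_sub (sg x (n + m)) (sg (sh^[n] x) m)
        rw [abs_sg, abs_sg] at this
        linarith
      · have e : ff (n + m) x + sg x (n + m) - ff n x - (ff m (sh^[n] x) + sg (sh^[n] x) m)
            = ff (n + m) x - ff n x - ff m (sh^[n] x) := by linarith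
        rw [e]; exact h2
    · simp only [hx, Bool.false_eq_true, if_false, add_zero]
      rcases ih with h | ⟨h1, h2⟩
      · left; exact h
      · right; exact ⟨by rw [h1], h2⟩

def zz : XX := fun _ => false

def ee (k : ℕ) : XX := fun i => decide (i = k)

/-- add a `true` at position `p` -/
def put (x : XX) (p : ℕ) : XX := fun i => x i || decide (i = p)

lemma tendsto_put (x : XX) (n : ℕ) : Tendsto (fun k => put x (n + k)) atTop (𝓝 x) := by
  rw [tendsto_pi_nhds]
  intro i
  refine tendsto_const_nhds.congr' ?_
  filter_upwards [eventually_gt_atTop i] with k hk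
  have : i ≠ n + k := by omega
  simp [put, this]

lemma sg_run (x : XX) (n : ℕ) (hn : sg x n = 1) (k : ℕ) (h : ∀ i, n ≤ i → i < n + k → x i = false) :
    sg x (n + k) = (-1) ^ k ∧ ff (n + k) x = ff n x := by
  induction k with
  | zero => simp [hn]
  | succ k ih =>
    have h1 := ih fun i h1 h2 => h i h1 (by omega)
    have h2 : x (n + k) = false := h _ (by omega) (by omega)
    rw [← add_assoc, ff_succ]
    simp only [sg, h2, h1.1, h1.2]
    simp [pow_succ]

section main
variable (g : XX → ℝ)

def SS (n : ℕ) (x : XX) : ℝ := ∑ k ∈ Finset.range n, g (sh^[k] x)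

def tau (k : ℕ) : ℝ := SS g (k + 1) (ee k)

lemma SS_add (n m : ℕ) (x : XX) : SS g (n + m) x = SS g n x + SS g m (sh^[n] x) := by
  unfold SS
  rw [Finset.sum_range_add]
  congr 1
  refine Finset.sum_congr rfl fun j _ => ?_
  rw [add_comm, Function.iterate_add_apply]

lemma tau_succ (k : ℕ) : tau g (k + 1) = tau g k + g (ee (k + 1)) := by
  unfold tau
  rw [show k + 1 + 1 = 1 + (k + 1) by omega, SS_add]
  have : sh^[1] (ee (k + 1)) = ee k := by
    funext i; simp [sh, ee]
  rw [this]
  simp [SS, add_comm]

lemma cont_SS (hg : Continuous g) (n : ℕ) : Continuous (SS g n) := by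
  unfold SS
  exact continuous_finsetSum _ fun k _ => hg.comp (cont_sh.iterate k)

lemma step (hg : Continuous g) (σ : ℝ)
    (hσ : ∃ᶠ k in atTop, 1 / 2 ≤ σ * ((-1) ^ k - tau g k)) (N : ℕ) :
    ∃ n x, N ≤ n ∧ (∀ i, n ≤ i → x i = false) ∧ sg x n = 1 ∧
      (N : ℝ) / 4 ≤ σ * (ff n x - SS g n x) := by
  induction N with
  | zero => exact ⟨0, zz, le_rfl, fun _ _ => rfl, by simp [sg], by simp [ff, SS]⟩
  | succ N ih =>
    obtain ⟨n, x, hn, hx, hs, hN⟩ := ih
    have ht : Tendsto (fun k => σ * SS g n (put x (n + k))) atTop (𝓝 (σ * SS g n x)) :=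
      (((cont_SS g hg n).tendsto x).comp (tendsto_put x n)).const_mul σ
    have hev : ∀ᶠ k in atTop, σ * SS g n (put x (n + k)) < σ * SS g n x + 1 / 4 :=
      ht.eventually (gt_mem_nhds (by linarith))
    obtain ⟨k, hk1, hk2⟩ := (hσ.and_eventually hev).exists
    set y := put x (n + k) with hy
    have hlt : ∀ i < n, y i = x i := by
      intro i hi
      have : i ≠ n + k := by omega
      simp [hy, put, this]
    have hsy : sg y n = 1 := by rw [sg_congr y x n hlt, hs]
    have hrun := sg_run y n hsy k (by
      intro i h1 h2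
      have : i ≠ n + k := by omega
      simp [hy, put, this, hx i h1])
    have hyk : y (n + k) = true := by simp [hy, put]
    refine ⟨n + k + 1, y, by omega, ?_, ?_, ?_⟩
    · intro i hi
      have : i ≠ n + k := by omega
      simp [hy, put, this, hx i (by omega)]
    · simp [sg, hyk]
    · rw [ff_succ, hyk, hrun.1, hrun.2, ff_congr y x n hlt, add_assoc n k 1, SS_add]
      have : sh^[n] y = ee k := by
        rw [sh_iter]; funext i
        simp [hy, put, ee, hx (n + i) (by omega)]
      rw [this]
      simp only [if_true]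
      have e : SS g (k + 1) (ee k) = tau g k := rfl
      rw [e]
      push_cast
      nlinarith

theorem no_approx (hg : Continuous g) (B : ℝ)
    (hB : ∀ n, 1 ≤ n → ∀ x, |ff n x - SS g n x| ≤ B) : False := by
  have hz : g zz = 0 := by
    by_contra hne
    have hpos : 0 < |g zz| := abs_pos.2 hne
    obtain ⟨n, hn⟩ := exists_nat_gt (B / |g zz|)
    have h1 := hB (n + 1) (by omega) zz
    have h2 : ff (n + 1) zz = 0 := by simp [ff, zz]
    have h3 : SS g (n + 1) zz = (n + 1) * g zz := by
      unfold SS
      have : ∀ k, sh^[k] zz = zz := fun k => by rw [sh_iter]; rfl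
      simp [this]
    rw [h2, h3, zero_sub, abs_neg, abs_mul, abs_of_pos (by positivity)] at h1
    rw [div_lt_iff₀ hpos] at hn
    nlinarith
  have he : Tendsto (fun k => g (ee (k + 1))) atTop (𝓝 0) := by
    rw [← hz]
    refine (hg.tendsto zz).comp ?_
    have := (tendsto_put zz 1)
    refine this.congr fun k => ?_
    funext i; simp [put, zz, ee, add_comm]
  have key : ∃ σ : ℝ, |σ| = 1 ∧ ∃ᶠ k in atTop, 1 / 2 ≤ σ * ((-1) ^ k - tau g k) := by
    by_contra hcon
    push Not at hcon
    have h1 := hcon 1 (by simp)
    have h2 := hcon (-1) (by simp)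
    have h3 : ∀ᶠ k in atTop, |g (ee (k + 1))| < 1 := by
      have := he.abs
      rw [abs_zero] at this
      exact this.eventually (gt_mem_nhds one_pos)
    rw [eventually_atTop] at h1 h2 h3
    obtain ⟨a, ha⟩ := h1
    obtain ⟨b, hb⟩ := h2
    obtain ⟨c, hc⟩ := h3
    set k := a + b + c with hk
    have a1 := ha k (by omega)
    have a2 := ha (k + 1) (by omega)
    have b1 := hb k (by omega)
    have b2 := hb (k + 1) (by omega)
    have c1 := abs_lt.1 (hc k (by omega))
    rw [tau_succ, pow_succ] at a2 b2
    rcases neg_one_pow_eq_or ℝ k with h | h <;> rw [h] at a1 a2 b1 b2 <;> linarith [c1.1, c1.2]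
  obtain ⟨σ, hσ1, hσ⟩ := key
  obtain ⟨N, hN⟩ := exists_nat_gt (4 * B)
  obtain ⟨n, x, hn, -, -, h⟩ := step g hg σ hσ (N + 1)
  have h1 := hB n (by omega) x
  have h2 : σ * (ff n x - SS g n x) ≤ |σ * (ff n x - SS g n x)| := le_abs_self _
  rw [abs_mul, hσ1, one_mul] at h2
  push_cast at h
  linarith

end main

end Pool.Agent.H27.AlmostAdd
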