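import Mathlib

set_option autoImplicit false

namespace Pool.Agent.H27.Gap

open Matrix Finset

lemma elim : ∀ (k : ℕ) (M : Fin k → Fin k → ℚ) (b : Fin k → ℚ),
    ∃ y : Fin k → ℚ, ∀ i, (∑ j, M i j * y j + b i) ^ 2 = y i ^ 2
  | 0, _, _ => ⟨0, fun i => i.elim0⟩
  | k + 1, M, b => by
    obtain ⟨e, he, h0⟩ : ∃ e : ℚ, e ^ 2 = 1 ∧ e - M 0 0 ≠ 0 := by
      by_cases h : M 0 0 = 1
      · exact ⟨-1, by norm_num, by rw [h]; norm_num⟩
      · exact ⟨1, by norm_num, sub_ne_zero.2 (Ne.symm h)⟩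
    obtain ⟨y, hy⟩ := elim k
      (fun i j => M i.succ j.succ + M i.succ 0 * (M 0 j.succ / (e - M 0 0)))
      fun i => b i.succ + M i.succ 0 * (b 0 / (e - M 0 0))
    refine ⟨Fin.cons ((∑ j, M 0 j.succ * y j + b 0) / (e - M 0 0)) y, fun i => ?_⟩
    refine Fin.cases ?_ (fun i => ?_) i
    · simp only [Fin.sum_univ_succ, Fin.cons_zero, Fin.cons_succ]
      generalize ∑ j, M 0 j.succ * y j = s
      have : M 0 0 * ((s + b 0) / (e - M 0 0)) + s + b 0 = e * ((s + b 0) / (e - M 0 0)) := by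
        field_simp; ring
      rw [this, mul_pow, he, one_mul]
    · simp only [Fin.sum_univ_succ, Fin.cons_zero, Fin.cons_succ]
      rw [← hy i]
      congr 1
      simp only [add_mul, sum_add_distrib, add_div, sum_div, mul_add, mul_sum]
      rw [sum_congr rfl fun j _ => show M i.succ 0 * (M 0 j.succ / (e - M 0 0)) * y j =
        M i.succ 0 * (M 0 j.succ * y j / (e - M 0 0)) by ring]
      ring

lemma six (a w : ℚ) : 6 * a ^ 2 ≠ 1 + w ^ 2 := by
  intro h
  have h1 : (6 * (a.num * w.den) ^ 2 : ℚ) = (a.den * w.den) ^ 2 + (a.den * w.num) ^ 2 := by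
    rw [← Rat.mul_den_eq_num a, ← Rat.mul_den_eq_num w]
    linear_combination (a.den * w.den : ℚ) ^ 2 * h
  have h2 : 6 * (a.num * w.den) ^ 2 = (a.den * w.den : ℤ) ^ 2 + (a.den * w.num) ^ 2 := by
    exact_mod_cast h1
  have h3 : 6 * (a.num * w.den).natAbs ^ 2 =
      (a.den * w.den : ℤ).natAbs ^ 2 + (a.den * w.num).natAbs ^ 2 := by
    zify; simpa only [sq_abs] using h2
  have h4 : (a.num * w.den).natAbs ≠ 0 := by
    intro h0
    have : a = 0 := by simpa [w.den_ne_zero] using h0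
    rw [this] at h
    nlinarith [sq_nonneg w]
  generalize (a.num * w.den).natAbs = A at *
  have h5 := Nat.eq_sq_add_sq_iff.1 ⟨_, _, h3⟩ (q := 3)
    (by simp [h4, Nat.prime_three, Dvd.dvd.mul_right]) rfl
  haveI : Fact (Nat.Prime 3) := ⟨Nat.prime_three⟩
  rw [padicValNat.mul (by norm_num) (by positivity), padicValNat.pow,
    show padicValNat 3 6 = 1 by decide +kernel] at h5
  exact Nat.not_even_iff_odd.2 ⟨padicValNat 3 A, by ring⟩ h5

def H0 : ℕ → ℕ → ℤ
  | 0, 0 => 2 | 0, 1 => 1 | 0, 2 => 1 | 1, 0 => -1 | 1, 1 => 2 | 1, 3 => 1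
  | 2, 0 => -1 | 2, 2 => 2 | 2, 3 => -1 | 3, 1 => -1 | 3, 2 => 1 | 3, 3 => 2
  | _, _ => 0

def H : Matrix (Fin 44) (Fin 44) ℤ := fun i j => if i.1 / 4 = j.1 / 4 then H0 (i.1 % 4) (j.1 % 4) else 0

lemma H_mul : Hᵀ * H = 6 := by decide +kernel

lemma br_fin (N : Matrix (Fin 43) (Fin 43) ℚ) (h : N * Nᵀ = 6 + of fun _ _ => 1) : False := by
  set K : Matrix (Fin 44) (Fin 44) ℚ := H.map (Int.castRingHom ℚ) with hK
  have hK2 : Kᵀ * K = 6 := by
    rw [hK, ← transpose_map, ← Matrix.map_mul, H_mul]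
    exact map_ofNat (Int.castRingHom ℚ).mapMatrix 6
  obtain ⟨y, hy⟩ := elim 43 (fun i j => ∑ p, N p i * K p.succ j.succ / 6)
    fun i => ∑ p, N p i * K p.succ 0 / 6
  set x : Fin 44 → ℚ := (1 / 6 : ℚ) • K *ᵥ Fin.cons 1 y with hx
  have h1 : 6 * (x ⬝ᵥ x) = 1 + y ⬝ᵥ y := by
    rw [hx, dotProduct_smul, smul_dotProduct, dotProduct_mulVec, vecMul_mulVec, hK2,
      ← mulVec_transpose, transpose_ofNat, ofNat_mulVec, smul_dotProduct]
    simp [dotProduct, Fin.sum_univ_succ (n := 43)]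
  have h2 : ∀ i, (Nᵀ *ᵥ fun p => x p.succ) i ^ 2 = y i ^ 2 := fun i => by
    rw [← hy i]
    congr 1
    simp only [hx, mulVec, dotProduct, transpose_apply, Pi.smul_apply, smul_eq_mul,
      Fin.sum_univ_succ (n := 43), Fin.cons_zero, Fin.cons_succ, mul_add, sum_add_distrib, mul_sum,
      sum_mul]
    rw [add_comm, sum_comm]
    congr 1
    · exact sum_congr rfl fun _ _ => sum_congr rfl fun _ _ => by ring
    · exact sum_congr rfl fun _ _ => by ring
  have h3 : (Nᵀ *ᵥ fun p => x p.succ) ⬝ᵥ (Nᵀ *ᵥ fun p => x p.succ) = y ⬝ᵥ y := by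
    simp only [dotProduct, ← sq, h2]
  rw [dotProduct_mulVec, vecMul_mulVec, transpose_transpose, h, vecMul_add, add_dotProduct,
    ← mulVec_transpose, transpose_ofNat, ofNat_mulVec, smul_dotProduct] at h3
  refine six (x 0) (∑ p : Fin 43, x p.succ) ?_
  simp only [dotProduct, Fin.sum_univ_succ (n := 43), vecMul, of_apply, mul_one, ← mul_sum,
    smul_eq_mul] at h1 h3
  simp only [sq]
  linarith

theorem br {P B : Type*} [Fintype P] [Fintype B] [DecidableEq P] (hP : Fintype.card P = 43)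
    (hB : Fintype.card B = 43) (N : Matrix P B ℚ) (h : N * Nᵀ = 6 + of fun _ _ => 1) : False := by
  have e := (Fintype.equivFinOfCardEq hP).symm
  have f := (Fintype.equivFinOfCardEq hB).symm
  refine br_fin (N.submatrix e f) ?_
  rw [transpose_submatrix, submatrix_mul_equiv, h]
  ext i j
  simp [ofNat_apply]

theorem nobiplane {P B : Type*} [Fintype P] [Fintype B] [DecidableEq P] (hP : Fintype.card P = 22)
    (hB : Fintype.card B = 22) (N : Matrix P B ℚ) (h : N * Nᵀ = 5 + of fun _ _ => 2) : False := by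
  have f := Fintype.equivOfCardEq (hP.trans hB.symm)
  have h1 : N.submatrix id f * (N.submatrix id f)ᵀ = (5 : ℚ) •
      (1 + replicateCol Unit (fun _ => (2 / 5 : ℚ)) * replicateRow Unit fun _ => (1 : ℚ)) := by
    rw [transpose_submatrix, submatrix_mul_equiv, h]
    ext i j
    by_cases hij : i = j <;> simp [ofNat_apply, mul_apply, one_apply, hij] <;> norm_num
  have h2 := congrArg det h1
  rw [det_mul, det_transpose, det_smul, det_one_add_replicateCol_mul_replicateRow, hP] at h2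
  simp only [dotProduct, sum_const, card_univ, hP] at h2
  have h3 : IsSquare ((5 : ℕ) : ℚ) :=
    ⟨(N.submatrix id f).det / (5 ^ 10 * 7), by rw [div_mul_div_comm, h2]; norm_num⟩
  rw [Rat.isSquare_natCast_iff] at h3
  exact Nat.prime_five.prime.not_isSquare h3

open Configuration in
theorem no_plane (P L : Type) [Fintype P] [Fintype L] [Membership P L] [ProjectivePlane P L] :
    ProjectivePlane.order P L ≠ 6 := by
  classical
  intro h
  refine br (by rw [ProjectivePlane.card_points P L, h]; rfl)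
    (by rw [ProjectivePlane.card_lines P L, h]; rfl)
    (of fun (p : P) (l : L) => if p ∈ l then 1 else 0) ?_
  ext p q
  simp only [mul_apply, of_apply, transpose_apply, Matrix.add_apply, ofNat_apply, ite_zero_mul_ite_zero,
    mul_one, sum_boole]
  split_ifs with hpq
  · subst hpq
    have := ProjectivePlane.lineCount_eq L p
    rw [h, lineCount, Nat.card_eq_fintype_card, Fintype.card_subtype] at this
    simp only [and_self, this]
    norm_num
  · obtain ⟨l, hl, hu⟩ := HasLines.existsUnique_line P L p q hpq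
    rw [card_eq_one.2 ⟨l, eq_singleton_iff_unique_mem.2 ⟨by simpa using hl, by simpa using hu⟩⟩]
    simp

end Pool.Agent.H27.Gap
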