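import Mathlib

set_option autoImplicit false

namespace Pool.Agent.H27.BaireExt

open Set Topology

variable {X Y : Type*} [TopologicalSpace X] [TopologicalSpace Y]

lemma refine_family [RegularSpace X] (f : X → Y) (hf : Continuous f) (ho : IsOpenMap f)
    (O : Set X) (hO : IsOpen O) (hd : Dense O) (𝒰 : Set (Set X)) (h𝒰 : ∀ U ∈ 𝒰, IsOpen U) :
    ∃ 𝒱 : Set (Set X), (∀ V ∈ 𝒱, IsOpen V ∧ ∃ U ∈ 𝒰, closure V ⊆ U ∩ O) ∧
      (∀ V ∈ 𝒱, ∀ V' ∈ 𝒱, ∀ y, y ∈ f '' V → y ∈ f '' V' → V = V') ∧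
      (⋃ U ∈ 𝒰, f '' U) ⊆ closure (⋃ V ∈ 𝒱, f '' V) := by
  obtain ⟨𝒱, h𝒱⟩ := zorn_subset {𝒱 : Set (Set X) |
      (∀ V ∈ 𝒱, IsOpen V ∧ ∃ U ∈ 𝒰, closure V ⊆ U ∩ O) ∧
      (∀ V ∈ 𝒱, ∀ V' ∈ 𝒱, ∀ y, y ∈ f '' V → y ∈ f '' V' → V = V')} (by
    intro c hc hch
    refine ⟨⋃₀ c, ⟨?_, ?_⟩, fun s hs => subset_sUnion_of_mem hs⟩
    · rintro V ⟨t, ht, hV⟩
      exact (hc ht).1 V hV
    · rintro V ⟨t, ht, hV⟩ V' ⟨t', ht', hV'⟩
      rcases hch.total ht ht' with h | h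
      · exact (hc ht').2 V (h hV) V' hV'
      · exact (hc ht).2 V hV V' (h hV'))
  refine ⟨𝒱, h𝒱.prop.1, h𝒱.prop.2, ?_⟩
  intro y hy
  by_contra hn
  simp only [mem_iUnion, exists_prop] at hy
  obtain ⟨U, hU, x, hx, rfl⟩ := hy
  have hW : IsOpen (U ∩ f ⁻¹' (closure (⋃ V ∈ 𝒱, f '' V))ᶜ) :=
    (h𝒰 U hU).inter (isClosed_closure.isOpen_compl.preimage hf)
  obtain ⟨z, hz1, hz2⟩ := hd.inter_open_nonempty _ hW ⟨x, hx, hn⟩
  obtain ⟨C, hC1, hC2, hC3⟩ := exists_mem_nhds_isClosed_subset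
    ((hW.inter hO).mem_nhds ⟨hz1, hz2⟩)
  have hcl : closure (interior C) ⊆ C := closure_minimal interior_subset hC2
  have hzi : z ∈ interior C := mem_interior_iff_mem_nhds.mpr hC1
  have hout : ∀ V ∈ 𝒱, ∀ y, y ∈ f '' interior C → y ∉ f '' V := by
    rintro V hV _ ⟨w, hw, rfl⟩ h
    exact (hC3 (interior_subset hw)).1.2 (subset_closure (mem_biUnion hV h))
  have hmem : insert (interior C) 𝒱 ⊆ 𝒱 := by
    refine h𝒱.le_of_ge ⟨?_, ?_⟩ (subset_insert _ _)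
    · rintro V (rfl | hV)
      · exact ⟨isOpen_interior, U, hU, fun w hw => ⟨(hC3 (hcl hw)).1.1, (hC3 (hcl hw)).2⟩⟩
      · exact h𝒱.prop.1 V hV
    · rintro V (rfl | hV) V' (rfl | hV') y h1 h2
      · rfl
      · exact absurd h2 (hout V' hV' y h1)
      · exact absurd h1 (hout V hV y h2)
      · exact h𝒱.prop.2 V hV V' hV' y h1 h2
  exact hout _ (hmem (mem_insert _ _)) (f z) ⟨z, hzi, rfl⟩ ⟨z, hzi, rfl⟩

theorem baire_of_open [RegularSpace X] [BaireSpace Y] (f : X → Y) (hf : Continuous f)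
    (ho : IsOpenMap f) (hK : ∀ y, IsCompact (f ⁻¹' {y})) : BaireSpace X := by
  refine ⟨fun O hO hd => ?_⟩
  rw [dense_iff_inter_open]
  intro U0 hU0 hne
  choose R hR using fun (n : ℕ) (𝒰 : {𝒰 : Set (Set X) // ∀ U ∈ 𝒰, IsOpen U}) =>
    refine_family f hf ho (O n) (hO n) (hd n) 𝒰.1 𝒰.2
  let F : ℕ → {𝒰 : Set (Set X) // ∀ U ∈ 𝒰, IsOpen U} := fun n =>
    Nat.rec ⟨{U0}, by simpa using hU0⟩ (fun n 𝒰 => ⟨R n 𝒰, fun V hV => ((hR n 𝒰).1 V hV).1⟩) n
  have hF0 : (F 0).1 = {U0} := rfl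
  have hFs : ∀ n, (F (n + 1)).1 = R n (F n) := fun n => rfl
  have hsub : ∀ n, f '' U0 ⊆ closure (⋃ V ∈ (F n).1, f '' V) := by
    intro n
    induction n with
    | zero => rw [hF0, biUnion_singleton]; exact subset_closure
    | succ n ih =>
      rw [hFs]
      exact ih.trans (closure_minimal (hR n (F n)).2.2 isClosed_closure)
  have hopen : ∀ n, IsOpen ((⋃ V ∈ (F n).1, f '' V) ∪ (closure (f '' U0))ᶜ) := fun n =>
    (isOpen_biUnion (fun V hV => ho V ((F n).2 V hV))).union isClosed_closure.isOpen_compl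
  have hdense : ∀ n, Dense ((⋃ V ∈ (F n).1, f '' V) ∪ (closure (f '' U0))ᶜ) := by
    intro n y
    by_cases h : y ∈ closure (f '' U0)
    · exact closure_mono subset_union_left (closure_minimal (hsub n) isClosed_closure h)
    · exact subset_closure (Or.inr h)
  obtain ⟨y, hy1, hy2⟩ := (dense_iInter_of_isOpen_nat hopen hdense).inter_open_nonempty _
    (ho U0 hU0) (hne.image f)
  have hV : ∀ n, ∃ V ∈ (F n).1, y ∈ f '' V := by
    intro n
    rcases mem_iInter.mp hy2 n with h | h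
    · simpa using h
    · exact absurd (subset_closure hy1) h
  choose V hV1 hV2 using hV
  have hch : ∀ n, closure (V (n + 1)) ⊆ V n ∩ O n := by
    intro n
    obtain ⟨U, hU, h⟩ := ((hR n (F n)).1 _ (hV1 (n + 1))).2
    have hyU : y ∈ f '' U := image_mono (fun w hw => (h (subset_closure hw)).1) (hV2 (n + 1))
    have : U = V n := by
      cases n with
      | zero => exact (show U = U0 from hU).trans (show V 0 = U0 from hV1 0).symm
      | succ n => exact (hR n (F n)).2.1 U hU _ (hV1 (n + 1)) y hyU (hV2 (n + 1))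
    rwa [this] at h
  obtain ⟨x, hx⟩ := IsCompact.nonempty_iInter_of_sequence_nonempty_isCompact_isClosed
    (fun n => (Subtype.val ⁻¹' closure (V n) : Set (f ⁻¹' {y})))
    (fun n w hw => subset_closure (hch n hw).1)
    (fun n => by
      obtain ⟨w, hw, h⟩ := hV2 n
      exact ⟨⟨w, h⟩, subset_closure hw⟩)
    (by
      haveI := isCompact_iff_compactSpace.mp (hK y)
      exact (isClosed_closure.preimage continuous_subtype_val).isCompact)
    (fun n => isClosed_closure.preimage continuous_subtype_val)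
  rw [mem_iInter] at hx
  refine ⟨x.1, ?_, mem_iInter.mpr (fun n => (hch n (hx (n + 1))).2)⟩
  have := (hch 0 (hx 1)).1
  rwa [show V 0 = U0 from hV1 0] at this

end Pool.Agent.H27.BaireExt
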