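import Mathlib
set_option autoImplicit false
open Finset

namespace Pool.Agent.H27.Bal

/-- the vertex `a` as a point of `ℝ^n` -/
def emb {n : ℕ} (a : Fin n → Bool) : Fin n → ℝ := fun i => if a i then 1 else 0

lemma ham_eq {n : ℕ} (a b : Fin n → Bool) :
    (hammingDist a b : ℝ) = ∑ i, (emb a i + emb b i - 2 * emb a i * emb b i) := by
  unfold hammingDist
  rw [Finset.card_filter]
  push_cast
  refine Finset.sum_congr rfl fun i _ => ?_
  unfold emb
  cases a i <;> cases b i <;> norm_num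

def sg {n : ℕ} (a : Fin n → Bool) : ℝ := ∏ i, (if a i then (-1:ℝ) else 1)

lemma sg_mul {n : ℕ} (a b : Fin n → Bool) : sg a * sg b = (-1) ^ hammingDist a b := by
  unfold sg hammingDist
  rw [← Finset.prod_mul_distrib, Finset.card_filter, ← Finset.prod_pow_eq_pow_sum]
  refine Finset.prod_congr rfl fun i _ => ?_
  cases a i <;> cases b i <;> norm_num

lemma avg {n : ℕ} (σ : Finset (Fin n → Bool)) (w : (Fin n → Bool) → ℝ)
    (h1 : ∑ a ∈ σ, w a = 1) (hc : ∀ i, ∑ a ∈ σ, w a * emb a i = 1 / 2) :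
    ∑ a ∈ σ, ∑ b ∈ σ, w a * w b * (hammingDist a b : ℝ) = n / 2 := by
  have : ∀ i : Fin n, ∑ a ∈ σ, ∑ b ∈ σ, w a * w b * (emb a i + emb b i - 2 * emb a i * emb b i)
      = 1 / 2 := by
    intro i
    have e : ∑ a ∈ σ, ∑ b ∈ σ, w a * w b * (emb a i + emb b i - 2 * emb a i * emb b i)
        = (∑ a ∈ σ, w a * emb a i) * (∑ b ∈ σ, w b) + (∑ a ∈ σ, w a) * (∑ b ∈ σ, w b * emb b i)
          - 2 * ((∑ a ∈ σ, w a * emb a i) * (∑ b ∈ σ, w b * emb b i)) := by
      rw [Finset.sum_mul_sum, Finset.sum_mul_sum, Finset.sum_mul_sum, Finset.mul_sum,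
        ← Finset.sum_add_distrib, ← Finset.sum_sub_distrib]
      refine Finset.sum_congr rfl fun a _ => ?_
      rw [Finset.mul_sum, ← Finset.sum_add_distrib, ← Finset.sum_sub_distrib]
      refine Finset.sum_congr rfl fun b _ => ?_
      ring
    rw [e, h1, hc]; norm_num
  simp_rw [ham_eq, Finset.mul_sum]
  rw [show (n:ℝ) / 2 = ∑ _i : Fin n, (1/2 : ℝ) by simp; ring]
  rw [← Finset.sum_congr rfl fun i _ => this i]
  rw [Finset.sum_comm' (s := univ) (t := fun _ => σ) (t' := σ) (s' := fun _ => univ) (by simp)]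
  refine Finset.sum_congr rfl fun a _ => ?_
  rw [Finset.sum_comm]

lemma lower {n : ℕ} (σ : Finset (Fin n → Bool)) (w : (Fin n → Bool) → ℝ)
    (h0 : ∀ a ∈ σ, 0 ≤ w a)
    (h1 : ∑ a ∈ σ, w a = 1) (hc : ∀ i, ∑ a ∈ σ, w a * emb a i = 1 / 2) (α β : ℝ)
    (hα : 0 < α) (hβ : 0 ≤ β)
    (hd : ∀ a ∈ σ, ∀ b ∈ σ, (hammingDist a b : ℝ) ≤ α + β * (1 - sg a * sg b)) :
    (n : ℝ) / 2 < α + β := by
  rw [← avg σ w h1 hc]
  have hex : ∃ a ∈ σ, 0 < w a := by
    by_contra h
    push Not at h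
    have : ∑ a ∈ σ, w a ≤ 0 := Finset.sum_nonpos h
    linarith
  obtain ⟨a0, ha0, hw⟩ := hex
  have lt : ∑ a ∈ σ, ∑ b ∈ σ, w a * w b * (hammingDist a b : ℝ)
      < ∑ a ∈ σ, ∑ b ∈ σ, w a * w b * (α + β * (1 - sg a * sg b)) := by
    refine Finset.sum_lt_sum (fun a ha => Finset.sum_le_sum fun b hb => ?_) ⟨a0, ha0, ?_⟩
    · exact mul_le_mul_of_nonneg_left (hd a ha b hb) (mul_nonneg (h0 a ha) (h0 b hb))
    · refine Finset.sum_lt_sum (fun b hb => ?_) ⟨a0, ha0, ?_⟩
      · exact mul_le_mul_of_nonneg_left (hd a0 ha0 b hb) (mul_nonneg (h0 a0 ha0) (h0 b hb))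
      · apply mul_lt_mul_of_pos_left _ (mul_pos hw hw)
        rw [sg_mul]; simpa using hα
  have e : ∑ a ∈ σ, ∑ b ∈ σ, w a * w b * (α + β * (1 - sg a * sg b))
      = (α + β) * ((∑ a ∈ σ, w a) * (∑ b ∈ σ, w b))
        - β * ((∑ a ∈ σ, w a * sg a) * (∑ b ∈ σ, w b * sg b)) := by
    rw [Finset.sum_mul_sum, Finset.sum_mul_sum, Finset.mul_sum, Finset.mul_sum,
      ← Finset.sum_sub_distrib]
    refine Finset.sum_congr rfl fun a _ => ?_
    rw [Finset.mul_sum, Finset.mul_sum, ← Finset.sum_sub_distrib]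
    refine Finset.sum_congr rfl fun b _ => ?_
    ring
  rw [e, h1] at lt
  have := mul_nonneg hβ (mul_self_nonneg (∑ a ∈ σ, w a * sg a))
  linarith

lemma lowerN {n ρ : ℕ} (hn : 1 ≤ n) (σ : Finset (Fin n → Bool))
    (hd : ∀ a ∈ σ, ∀ b ∈ σ, hammingDist a b ≤ ρ)
    (hc : (fun _ => (1/2 : ℝ)) ∈ convexHull ℝ (emb '' (σ : Set (Fin n → Bool)))) :
    n < 2 * ρ ∧ (ρ % 2 = 1 → 1 < ρ → n + 1 < 2 * ρ) := by
  have inj : Function.Injective (emb (n := n)) := by
    intro a b h; funext i; have := congrFun h i; unfold emb at this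
    revert this; cases a i <;> cases b i <;> norm_num
  rw [← Finset.coe_image, Finset.mem_convexHull'] at hc
  obtain ⟨w, h0, h1, hc⟩ := hc
  rw [Finset.sum_image (fun a _ b _ h => inj h)] at h1 hc
  have h0' : ∀ a ∈ σ, 0 ≤ w (emb a) := fun a ha => h0 _ (Finset.mem_image_of_mem _ ha)
  have hc' : ∀ i, ∑ a ∈ σ, w (emb a) * emb a i = 1 / 2 := by
    intro i; have := congrFun hc i; simpa [Finset.sum_apply] using this
  constructor
  · rcases Nat.eq_zero_or_pos ρ with h | h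
    · exfalso
      subst h
      have := lower σ (fun a => w (emb a)) h0' h1 hc' (1/2) 0 (by norm_num) le_rfl
        (fun a ha b hb => by
          have := hd a ha b hb
          have : (hammingDist a b : ℝ) ≤ 0 := by exact_mod_cast this
          linarith)
      have : (1:ℝ) ≤ n := by exact_mod_cast hn
      linarith
    · have := lower σ (fun a => w (emb a)) h0' h1 hc' ρ 0 (by exact_mod_cast h) le_rfl
        (fun a ha b hb => by
          have : (hammingDist a b : ℝ) ≤ ρ := by exact_mod_cast hd a ha b hb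
          linarith)
      have : (n:ℝ) < 2 * ρ := by linarith
      exact_mod_cast this
  · intro hodd h
    have h' : (1:ℝ) < ρ := by exact_mod_cast h
    have := lower σ (fun a => w (emb a)) h0' h1 hc' (ρ - 1) (1/2) (by linarith) (by norm_num)
        (fun a ha b hb => by
          rw [sg_mul]
          have hle := hd a ha b hb
          rcases Nat.even_or_odd (hammingDist a b) with he | ho
          · rw [he.neg_one_pow]
            have : hammingDist a b + 1 ≤ ρ := by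
              obtain ⟨t, ht⟩ := he; omega
            have : (hammingDist a b : ℝ) + 1 ≤ ρ := by exact_mod_cast this
            linarith
          · rw [ho.neg_one_pow]
            have : (hammingDist a b : ℝ) ≤ ρ := by exact_mod_cast hle
            linarith)
    have : (n:ℝ) + 1 < 2 * ρ := by linarith
    exact_mod_cast this

def IsHadamardOrder (m : ℕ) : Prop :=
  ∃ H : Matrix (Fin m) (Fin m) ℝ, (∀ i j, H i j = 1 ∨ H i j = -1) ∧
    H * H.transpose = (m : ℝ) • (1 : Matrix (Fin m) (Fin m) ℝ)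

def Balanced {n : ℕ} (B : Finset (Fin n → Bool)) : Prop :=
  B.Nonempty ∧ (B.card : ℝ)⁻¹ • ∑ b ∈ B, emb b = fun _ => (1/2 : ℝ)

lemma bal_of {n : ℕ} {ι : Type} [Fintype ι] [Nonempty ι] (φ : ι → Fin n → Bool)
    (inj : Function.Injective φ) (h : ∀ j, ∑ i, (2 * emb (φ i) j - 1) = 0) :
    Balanced (univ.image φ) := by
  refine ⟨by simp, ?_⟩
  funext j
  rw [Finset.sum_image (fun a _ b _ h => inj h), Finset.card_image_of_injective _ inj]
  have hj := h j
  rw [Finset.sum_sub_distrib, ← Finset.mul_sum] at hj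
  have hp : (0:ℝ) < Fintype.card ι := by exact_mod_cast Fintype.card_pos
  simp only [Pi.smul_apply, Finset.sum_apply, smul_eq_mul, Finset.card_univ]
  simp only [Finset.sum_const, Finset.card_univ, nsmul_eq_mul, mul_one] at hj
  field_simp
  linarith

/-- normalised Boolean rows -/
lemma rows {m : ℕ} (h : IsHadamardOrder (m + 1)) :
    ∃ ψ : Fin (m + 1) → Fin m → Bool, (∀ i i', i ≠ i' → 2 * hammingDist (ψ i) (ψ i') = m + 1) ∧
      ∀ j, ∑ i, (2 * emb (ψ i) j - 1) = 0 := by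
  obtain ⟨H, hH, hm⟩ := h
  have hp : ((m + 1 : ℕ) : ℝ) ≠ 0 := by positivity
  have h2 : H.transpose * H = ((m + 1 : ℕ) : ℝ) • (1 : Matrix _ _ ℝ) := by
    have a : (((m + 1 : ℕ) : ℝ)⁻¹ • H) * H.transpose = 1 := by
      rw [Matrix.smul_mul, hm, smul_smul, inv_mul_cancel₀ hp, one_smul]
    have b := mul_eq_one_comm.mp a
    rw [Matrix.mul_smul] at b
    rw [← b, smul_smul, mul_inv_cancel₀ hp, one_smul]
  classical
  let ψ : Fin (m + 1) → Fin m → Bool := fun i j => decide (H i 0 * H i j.succ = 1)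
  have key : ∀ i j, 2 * emb (ψ i) j - 1 = H i 0 * H i j.succ := by
    intro i j
    rcases hH i 0 with a | a <;> rcases hH i j.succ with b | b <;> simp [emb, ψ, a, b] <;> norm_num
  refine ⟨ψ, fun i i' hne => ?_, fun j => ?_⟩
  · have e := congrFun (congrFun hm i) i'
    rw [Matrix.mul_apply, Fin.sum_univ_succ] at e
    simp only [Matrix.transpose_apply, Matrix.smul_apply, Matrix.one_apply_ne hne, smul_zero] at e
    have hd := ham_eq (ψ i) (ψ i')
    have : ∀ j, emb (ψ i) j + emb (ψ i') j - 2 * emb (ψ i) j * emb (ψ i') j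
        = 1 / 2 - (H i 0 * H i' 0 / 2) * (H i j.succ * H i' j.succ) := by
      intro j
      have a := key i j
      have b := key i' j
      have : (2 * emb (ψ i) j - 1) * (2 * emb (ψ i') j - 1)
        = H i 0 * H i j.succ * (H i' 0 * H i' j.succ) := by rw [a, b]
      linarith
    simp_rw [this] at hd
    rw [Finset.sum_sub_distrib, ← Finset.mul_sum] at hd
    have e' : ∑ j : Fin m, H i j.succ * H i' j.succ = - (H i 0 * H i' 0) := by linarith
    rw [e'] at hd
    simp only [Finset.sum_const, Finset.card_univ, Fintype.card_fin, nsmul_eq_mul] at hd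
    have : (2 * hammingDist (ψ i) (ψ i') : ℝ) = m + 1 := by
      rw [hd]
      rcases hH i 0 with a | a <;> rcases hH i' 0 with b | b <;> rw [a, b] <;> ring
    exact_mod_cast this
  · simp_rw [key]
    have e := congrFun (congrFun h2 0) j.succ
    rw [Matrix.mul_apply] at e
    simpa [Matrix.one_apply_ne (Fin.succ_ne_zero j).symm] using e

lemma ham_succ {n : ℕ} (a b : Fin (n + 1) → Bool) :
    hammingDist a b = (if a 0 = b 0 then 0 else 1)
      + hammingDist (fun j : Fin n => a j.succ) (fun j => b j.succ) := by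
  unfold hammingDist
  rw [Finset.card_filter, Finset.card_filter, Fin.sum_univ_succ]
  congr 1
  by_cases h : a 0 = b 0 <;> simp [h]

/-- a family indexed by `ι`, column-balanced, with distances between `lo` and `hi` -/
def Fam (ι : Type) [Fintype ι] (n lo hi : ℕ) : Prop :=
  ∃ ψ : ι → Fin n → Bool, (∀ i i', i ≠ i' → lo ≤ hammingDist (ψ i) (ψ i') ∧
      hammingDist (ψ i) (ψ i') ≤ hi) ∧ ∀ j, ∑ i, (2 * emb (ψ i) j - 1) = 0

lemma Fam.drop {ι : Type} [Fintype ι] {n lo hi : ℕ} (h : Fam ι (n + 1) lo hi) :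
    Fam ι n (lo - 1) hi := by
  obtain ⟨ψ, h1, h2⟩ := h
  refine ⟨fun i j => ψ i j.succ, fun i i' hne => ?_, fun j => h2 j.succ⟩
  have := h1 i i' hne
  rw [ham_succ] at this
  beta_reduce
  split_ifs at this <;> omega

lemma Fam.add {ι : Type} [Fintype ι] {n lo hi : ℕ} (h : Fam ι n (lo + 1) hi) :
    Fam (ι × Bool) (n + 1) 1 (hi + 1) := by
  obtain ⟨ψ, h1, h2⟩ := h
  refine ⟨fun p => Fin.cons p.2 (ψ p.1), fun p p' hne => ?_, fun j => ?_⟩
  · rw [ham_succ]
    simp only [Fin.cons_zero, Fin.cons_succ]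
    by_cases e : p.1 = p'.1
    · have : p.2 ≠ p'.2 := fun e' => hne (Prod.ext e e')
      simp [e, this]
    · have := h1 _ _ e
      change 1 ≤ _ + hammingDist (ψ p.1) (ψ p'.1) ∧ _ + hammingDist (ψ p.1) (ψ p'.1) ≤ _
      split_ifs <;> omega
  · rw [Fintype.sum_prod_type]
    refine Fin.cases ?_ (fun j => ?_) j
    · simp [emb]
    · have := h2 j
      simp only [emb, Fin.cons_succ, Fintype.sum_bool] at this ⊢
      rw [Finset.sum_add_distrib, this]; simp

lemma Fam.bal {ι : Type} [Fintype ι] [Nonempty ι] {n lo hi : ℕ} (h : Fam ι n lo hi) (hl : 1 ≤ lo) :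
    ∃ B : Finset (Fin n → Bool), Balanced B ∧ ∀ a ∈ B, ∀ b ∈ B, hammingDist a b ≤ hi := by
  obtain ⟨ψ, h1, h2⟩ := h
  have inj : Function.Injective ψ := by
    intro i i' e
    by_contra hne
    have := (h1 i i' hne).1
    rw [e, hammingDist_self] at this
    omega
  refine ⟨_, bal_of ψ inj h2, fun a ha b hb => ?_⟩
  obtain ⟨i, -, rfl⟩ := Finset.mem_image.mp ha
  obtain ⟨i', -, rfl⟩ := Finset.mem_image.mp hb
  by_cases e : i = i'
  · simp [e]
  · exact (h1 i i' e).2

lemma fam_had {k : ℕ} (h : IsHadamardOrder (4 * k + 3 + 1)) :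
    Fam (Fin (4 * k + 3 + 1)) (4 * k + 3) (2 * k + 2) (2 * k + 2) := by
  obtain ⟨ψ, h1, h2⟩ := rows h
  exact ⟨ψ, fun i i' hne => by have := h1 i i' hne; omega, h2⟩

lemma mainN {k n ρ : ℕ} (h : IsHadamardOrder (4 * k + 3 + 1)) (h1 : 4 * k + 1 ≤ n)
    (h2 : n ≤ 4 * k + 4) (hl : n < 2 * ρ ∧ (ρ % 2 = 1 → 1 < ρ → n + 1 < 2 * ρ)) :
    ∃ B : Finset (Fin n → Bool), Balanced B ∧ ∀ a ∈ B, ∀ b ∈ B, hammingDist a b ≤ ρ := by
  have F := fam_had h
  have up : ∀ {n hi : ℕ}, hi ≤ ρ → (∃ B : Finset (Fin n → Bool), Balanced B ∧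
      ∀ a ∈ B, ∀ b ∈ B, hammingDist a b ≤ hi) → (∃ B : Finset (Fin n → Bool), Balanced B ∧
      ∀ a ∈ B, ∀ b ∈ B, hammingDist a b ≤ ρ) :=
    fun hh ⟨B, hB, hd⟩ => ⟨B, hB, fun a ha b hb => (hd a ha b hb).trans hh⟩
  obtain rfl | rfl | rfl | rfl : n = 4 * k + 1 ∨ n = 4 * k + 2 ∨ n = 4 * k + 3 ∨ n = 4 * k + 3 + 1 := by
    omega
  · rcases Nat.eq_zero_or_pos k with rfl | hk
    · have F0 : Fam Unit 0 (0 + 1) 0 := ⟨fun _ => Fin.elim0, fun i i' h => absurd rfl h, fun j => j.elim0⟩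
      exact up (by omega) (F0.add.bal le_rfl)
    · exact up (by omega) (F.drop.drop.bal (by omega))
  · exact up (by omega) (F.drop.bal (by omega))
  · exact up (by omega) (F.bal (by omega))
  · exact up (by omega) ((Fam.add (lo := 2 * k + 1) F).bal le_rfl)

lemma had_of (ι : Type) [Fintype ι] [DecidableEq ι] (H : Matrix ι ι ℝ)
    (h1 : ∀ i j, H i j = 1 ∨ H i j = -1)
    (h2 : H * H.transpose = (Fintype.card ι : ℝ) • (1 : Matrix ι ι ℝ)) :
    IsHadamardOrder (Fintype.card ι) := by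
  let e := (Fintype.equivFin ι).symm
  refine ⟨H.submatrix e e, fun i j => h1 _ _, ?_⟩
  rw [Matrix.transpose_submatrix, Matrix.submatrix_mul_equiv, h2]
  ext i j
  simp [Matrix.one_apply]

lemma had_double {m : ℕ} (h : IsHadamardOrder m) : IsHadamardOrder (2 * m) := by
  obtain ⟨H, h1, h2⟩ := h
  have := had_of (Fin m ⊕ Fin m) (Matrix.fromBlocks H H H (-H)) (by
    rintro (i | i) (j | j)
    · exact h1 i j
    · exact h1 i j
    · exact h1 i j
    · rcases h1 i j with a | a <;> simp [a]) (by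
    rw [Matrix.fromBlocks_transpose, Matrix.fromBlocks_multiply, Matrix.transpose_neg,
      Matrix.neg_mul, Matrix.neg_mul, Matrix.mul_neg, h2, ← Matrix.fromBlocks_one,
      Matrix.fromBlocks_smul]
    simp [add_smul])
  simpa [two_mul] using this

lemma had_pow {m : ℕ} (h : IsHadamardOrder m) (t : ℕ) : IsHadamardOrder (2 ^ t * m) := by
  induction t with
  | zero => simpa using h
  | succ t ih => rw [pow_succ', mul_assoc]; exact had_double ih

lemma paley (F : Type) [Field F] [Fintype F] (hq : Fintype.card F % 4 = 3) :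
    IsHadamardOrder (Fintype.card F + 1) := by
  classical
  have hc : ringChar F ≠ 2 := by
    intro h
    have := FiniteField.even_card_iff_char_two.mp h
    omega
  set χ := quadraticChar F with hχ
  have hm1 : χ (-1) = -1 := by
    rw [hχ, quadraticChar_neg_one hc, ZMod.χ₄_nat_three_mod_four hq]
  have hnt : χ ≠ 1 := quadraticChar_ne_one hc
  have hsum : ∑ x, χ x = 0 := quadraticChar_sum_zero hc
  have hinv : χ⁻¹ = χ := (quadraticChar_isQuadratic F).inv
  have hJ : ∑ y, χ y * χ (1 - y) = 1 := by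
    have := jacobiSum_nontrivial_inv hnt
    rw [hinv, hm1] at this
    simpa [jacobiSum] using this
  have hJ' : ∀ a b : F, a ≠ b → ∑ x, χ (x - a) * χ (x - b) = -1 := by
    intro a b hab
    have hba : b - a ≠ 0 := sub_ne_zero.mpr hab.symm
    rw [← Equiv.sum_comp ((Equiv.mulLeft₀ (b - a) hba).trans (Equiv.addRight a))]
    have : ∀ y : F, χ (((Equiv.mulLeft₀ (b - a) hba).trans (Equiv.addRight a)) y - a) *
        χ (((Equiv.mulLeft₀ (b - a) hba).trans (Equiv.addRight a)) y - b)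
        = - (χ y * χ (1 - y)) := by
      intro y
      have e1 : ((Equiv.mulLeft₀ (b - a) hba).trans (Equiv.addRight a)) y - a = (b - a) * y := by
        simp
      have e2 : ((Equiv.mulLeft₀ (b - a) hba).trans (Equiv.addRight a)) y - b
          = (b - a) * ((-1) * (1 - y)) := by
        simp; ring
      have sq : χ (b - a) ^ 2 = 1 := quadraticChar_sq_one hba
      rw [e1, e2, map_mul, map_mul, map_mul, hm1]
      linear_combination (-(χ y * χ (1 - y))) * sq
    simp_rw [this]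
    rw [Finset.sum_neg_distrib, hJ]
  have h0 : χ 0 = 0 := by rw [hχ]; exact quadraticChar_zero
  let s : F → ℤ := fun x => χ x + if x = 0 then 1 else 0
  have hs : ∀ x, s x = 1 ∨ s x = -1 := by
    intro x
    by_cases h : x = 0
    · left; simp [s, h, h0]
    · have : χ x = 1 ∨ χ x = -1 := quadraticChar_dichotomy h
      simpa [s, h] using this
  have hs1 : ∀ a : F, ∑ x, s (x - a) = 1 := by
    intro a
    rw [← Equiv.sum_comp (Equiv.addRight a)]
    simp [s, Finset.sum_add_distrib, hsum]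
  have hs2 : ∀ a b : F, a ≠ b → ∑ x, s (x - a) * s (x - b) = -1 := by
    intro a b hab
    have : ∀ x, s (x - a) * s (x - b) = χ (x - a) * χ (x - b)
        + (if x = b then χ (b - a) else 0) + (if x = a then χ (a - b) else 0) := by
      intro x
      by_cases h1 : x = a
      · subst h1; simp [s, hab, sub_eq_zero, h0]
      · by_cases h2 : x = b
        · subst h2; simp [s, h1, sub_eq_zero, h0]
        · simp [s, h1, h2, sub_eq_zero]
    simp_rw [this]
    rw [Finset.sum_add_distrib, Finset.sum_add_distrib, hJ' a b hab]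
    have e : χ (a - b) = - χ (b - a) := by
      rw [show a - b = (-1) * (b - a) by ring, map_mul, hm1]; ring
    simp [e]
  let H : Matrix (Option F) (Option F) ℝ := fun i j =>
    match i, j with
    | _, none => 1
    | none, some _ => -1
    | some a, some x => (s (x - a) : ℝ)
  have H0 : ∀ i, H i none = 1 := by rintro (_ | _) <;> rfl
  have H1 : ∀ x, H none (some x) = -1 := fun _ => rfl
  have H2 : ∀ a x, H (some a) (some x) = (s (x - a) : ℝ) := fun _ _ => rfl
  clear_value H s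
  have := had_of (Option F) H (by
    rintro (_ | a) (_ | x)
    · left; exact H0 _
    · right; exact H1 _
    · left; exact H0 _
    · rcases hs (x - a) with h | h <;> simp [H2, h]) (by
    ext i j
    rw [Matrix.mul_apply, Fintype.sum_option]
    simp only [Matrix.transpose_apply]
    rcases i with _ | a <;> rcases j with _ | b
    · simp [H0, H1]; ring
    · have : ∑ x, (s (x - b) : ℝ) = 1 := by exact_mod_cast hs1 b
      simp [H0, H1, H2, this]
    · have : ∑ x, (s (x - a) : ℝ) = 1 := by exact_mod_cast hs1 a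
      simp [H0, H1, H2, this]
    · by_cases hab : a = b
      · subst hab
        have : ∀ x, (s (x - a) : ℝ) * (s (x - a) : ℝ) = 1 := by
          intro x; rcases hs (x - a) with h | h <;> simp [h]
        simp [H0, H2, this]; ring
      · have : ∑ x, (s (x - a) : ℝ) * (s (x - b) : ℝ) = -1 := by exact_mod_cast hs2 a b hab
        simp [H0, H2, this, hab])
  simpa using this

/-- Q1 for the pair `(n, r)`: if the centre `c` of the cube lies in the convex hull of a nonempty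
set of vertices of Hamming diameter `≤ r`, some balanced set has Hamming diameter `≤ r`. -/
def Q1Pair (n : ℕ) (r : ℝ) : Prop :=
  (∃ σ : Finset (Fin n → Bool), σ.Nonempty ∧ (∀ a ∈ σ, ∀ b ∈ σ, (hammingDist a b : ℝ) ≤ r) ∧
      (fun _ => (1/2 : ℝ)) ∈ convexHull ℝ (emb '' (σ : Set (Fin n → Bool)))) →
    ∃ B : Finset (Fin n → Bool), Balanced B ∧ ∀ a ∈ B, ∀ b ∈ B, (hammingDist a b : ℝ) ≤ r

/-- Q1 in dimension `n`, for all real `r ≥ 0`. -/
def Q1At (n : ℕ) : Prop := ∀ r : ℝ, 0 ≤ r → Q1Pair n r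

lemma cond (k n : ℕ) (h : IsHadamardOrder (4 * k)) (hn : 1 ≤ n) (h1 : 4 * k ≤ n + 3)
    (h2 : n ≤ 4 * k) : Q1At n := by
  rintro r hr ⟨σ, -, hd, hc⟩
  obtain ⟨k, rfl⟩ : ∃ k', k = k' + 1 := ⟨k - 1, by omega⟩
  have hl := lowerN (ρ := ⌊r⌋₊) hn σ (fun a ha b hb => Nat.le_floor (hd a ha b hb)) hc
  obtain ⟨B, hB, hd⟩ := mainN (k := k) h (by omega) (by omega) hl
  exact ⟨B, hB, fun a ha b hb => (Nat.le_floor_iff hr).mp (hd a ha b hb)⟩

lemma emb_inj {n : ℕ} : Function.Injective (emb (n := n)) := by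
  intro a b h; funext i; have := congrFun h i; unfold emb at this
  revert this; cases a i <;> cases b i <;> norm_num

/-- the tight case `2ρ = n + 1`: a Carathéodory subset is itself balanced -/
lemma tight {n ρ : ℕ} (hρ : 2 * ρ = n + 1) (σ : Finset (Fin n → Bool))
    (hd : ∀ a ∈ σ, ∀ b ∈ σ, hammingDist a b ≤ ρ)
    (hc : (fun _ => (1/2 : ℝ)) ∈ convexHull ℝ (emb '' (σ : Set (Fin n → Bool)))) :
    ∃ B : Finset (Fin n → Bool), Balanced B ∧ ∀ a ∈ B, ∀ b ∈ B, hammingDist a b ≤ ρ := by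
  classical
  rw [convexHull_eq_union] at hc
  simp only [Set.mem_iUnion] at hc
  obtain ⟨t, hts, hai, hc⟩ := hc
  obtain ⟨τ, hτ, rfl⟩ := Finset.subset_set_image_iff.mp hts
  have hcard : τ.card ≤ n + 1 := by
    have h1 := hai.card_le_finrank_succ
    have h3 := h1.trans (Nat.add_le_add_right (Submodule.finrank_le _) 1)
    rw [Module.finrank_fin_fun, Fintype.card_coe, Finset.card_image_of_injective _ emb_inj] at h3
    exact h3
  have hd' : ∀ a ∈ τ, ∀ b ∈ τ, hammingDist a b ≤ ρ := fun a ha b hb => hd a (hτ ha) b (hτ hb)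
  rw [Finset.mem_convexHull'] at hc
  obtain ⟨w, h0, h1, hc⟩ := hc
  rw [Finset.sum_image (fun a _ b _ h => emb_inj h)] at h1 hc
  have h0' : ∀ a ∈ τ, 0 ≤ w (emb a) := fun a ha => h0 _ (Finset.mem_image_of_mem _ ha)
  have hc' : ∀ i, ∑ a ∈ τ, w (emb a) * emb a i = 1 / 2 := by
    intro i; have := congrFun hc i; simpa [Finset.sum_apply] using this
  set u : (Fin n → Bool) → ℝ := fun a => w (emb a) with hu
  have hav := avg τ u h1 hc'
  have le : ∑ a ∈ τ, ∑ b ∈ τ, u a * u b * (hammingDist a b : ℝ)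
      ≤ ∑ a ∈ τ, (ρ * u a - ρ * u a ^ 2) := by
    refine Finset.sum_le_sum fun a ha => ?_
    have : ∑ b ∈ τ, u a * u b * (hammingDist a b : ℝ)
        ≤ ∑ b ∈ τ, (ρ * u a * u b - if b = a then ρ * u a ^ 2 else 0) := by
      refine Finset.sum_le_sum fun b hb => ?_
      by_cases e : b = a
      · subst e; simp; nlinarith
      · have : (hammingDist a b : ℝ) ≤ ρ := by exact_mod_cast hd' a ha b hb
        have := mul_le_mul_of_nonneg_left this (mul_nonneg (h0' a ha) (h0' b hb))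
        simp only [e, if_false]
        linarith
    rw [Finset.sum_sub_distrib, ← Finset.mul_sum, Finset.sum_ite_eq', if_pos ha] at this
    have h1' : ∑ b ∈ τ, u b = 1 := h1
    rw [h1', mul_one] at this
    exact this
  have h1' : ∑ b ∈ τ, u b = 1 := h1
  rw [hav, Finset.sum_sub_distrib, ← Finset.mul_sum, ← Finset.mul_sum, h1'] at le
  have hρ' : (2 * ρ : ℝ) = n + 1 := by exact_mod_cast hρ
  have hcard' : (τ.card : ℝ) ≤ n + 1 := by exact_mod_cast hcard
  have hn : (0:ℝ) ≤ n := by positivity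
  have sq : ∑ a ∈ τ, ((n + 1) * u a - 1) ^ 2 ≤ 0 := by
    have : ∑ a ∈ τ, ((n + 1) * u a - 1) ^ 2
        = (n + 1) ^ 2 * ∑ a ∈ τ, u a ^ 2 - 2 * (n + 1) * ∑ a ∈ τ, u a + ∑ _a ∈ τ, (1:ℝ) := by
      rw [Finset.mul_sum, Finset.mul_sum, ← Finset.sum_sub_distrib, ← Finset.sum_add_distrib]
      exact Finset.sum_congr rfl fun a _ => by ring
    rw [this, h1']
    simp only [Finset.sum_const, nsmul_eq_mul, mul_one]
    have : (n + 1) * ∑ a ∈ τ, u a ^ 2 ≤ 1 := by rw [← hρ']; linarith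
    nlinarith
  have hz : ∀ a ∈ τ, (n + 1) * u a = 1 := by
    intro a ha
    have := (Finset.sum_eq_zero_iff_of_nonneg (fun a _ => sq_nonneg ((n + 1) * u a - 1))).mp
      (le_antisymm sq (Finset.sum_nonneg fun a _ => sq_nonneg _)) a ha
    have := pow_eq_zero_iff (two_ne_zero) |>.mp this
    linarith
  have hcard2 : (τ.card : ℝ) = n + 1 := by
    have : ∑ a ∈ τ, (n + 1) * u a = ∑ _a ∈ τ, (1:ℝ) := Finset.sum_congr rfl hz
    rw [← Finset.mul_sum, h1'] at this
    simpa using this.symm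
  refine ⟨τ, ⟨?_, ?_⟩, hd'⟩
  · rw [← Finset.card_pos]
    have : (0:ℝ) < τ.card := by linarith
    exact_mod_cast this
  · funext i
    have : ∑ a ∈ τ, emb a i = ∑ a ∈ τ, (n + 1) * (u a * emb a i) :=
      Finset.sum_congr rfl fun a ha => by rw [← mul_assoc, hz a ha, one_mul]
    rw [← Finset.mul_sum] at this
    have hc2 : ∑ a ∈ τ, u a * emb a i = 1 / 2 := hc' i
    rw [hc2] at this
    simp only [Pi.smul_apply, Finset.sum_apply, smul_eq_mul]
    rw [this, hcard2]
    field_simp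

lemma ham_append {n m : ℕ} (a b : Fin n → Bool) (c d : Fin m → Bool) :
    hammingDist (Fin.append a c) (Fin.append b d) = hammingDist a b + hammingDist c d := by
  unfold hammingDist
  rw [Finset.card_filter, Finset.card_filter, Finset.card_filter, Fin.sum_univ_add]
  simp only [Fin.append_left, Fin.append_right]

lemma Fam.prod {ι κ : Type} [Fintype ι] [Fintype κ] {n m lo hi hi' : ℕ} (h : Fam ι n lo hi)
    (h' : Fam κ m lo hi') : Fam (ι × κ) (n + m) lo (hi + hi') := by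
  obtain ⟨ψ, h1, h2⟩ := h
  obtain ⟨φ, h1', h2'⟩ := h'
  refine ⟨fun p => Fin.append (ψ p.1) (φ p.2), fun p p' hne => ?_, fun j => ?_⟩
  · beta_reduce
    rw [ham_append]
    by_cases e : p.1 = p'.1
    · have e' : p.2 ≠ p'.2 := fun e' => hne (Prod.ext e e')
      have := h1' _ _ e'
      rw [e, hammingDist_self]; omega
    · have := h1 _ _ e
      by_cases e' : p.2 = p'.2
      · rw [e', hammingDist_self]; omega
      · have := h1' _ _ e'
        omega
  · refine Fin.addCases (fun j => ?_) (fun j => ?_) j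
    · rw [Fintype.sum_prod_type_right]
      have := h2 j
      simp only [emb, Fin.append_left] at this ⊢
      rw [Finset.sum_congr rfl fun _ _ => this]; simp
    · rw [Fintype.sum_prod_type]
      have := h2' j
      simp only [emb, Fin.append_right] at this ⊢
      rw [Finset.sum_congr rfl fun _ _ => this]; simp

lemma Fam.mono {ι : Type} [Fintype ι] {n lo hi lo' hi' : ℕ} (h : Fam ι n lo hi) (a : lo' ≤ lo)
    (b : hi ≤ hi') : Fam ι n lo' hi' := by
  obtain ⟨ψ, h1, h2⟩ := h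
  exact ⟨ψ, fun i i' e => by have := h1 i i' e; omega, h2⟩

lemma cond2 (a b n : ℕ) (ha0 : 1 ≤ a) (hb0 : 1 ≤ b) (ha : IsHadamardOrder (4 * a))
    (hb : IsHadamardOrder (4 * b)) (h1 : 4 * a + 4 * b ≤ n + 3)
    (h2 : n + 1 ≤ 4 * a + 4 * b) : Q1At n := by
  rintro r hr ⟨σ, -, hd, hc⟩
  obtain ⟨a, rfl⟩ : ∃ k', a = k' + 1 := ⟨a - 1, by omega⟩
  obtain ⟨b, rfl⟩ : ∃ k', b = k' + 1 := ⟨b - 1, by omega⟩
  have hd' : ∀ a ∈ σ, ∀ b ∈ σ, hammingDist a b ≤ ⌊r⌋₊ :=
    fun a ha b hb => Nat.le_floor (hd a ha b hb)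
  have hl := lowerN (ρ := ⌊r⌋₊) (by omega) σ hd' hc
  suffices H : ∃ B : Finset (Fin n → Bool), Balanced B ∧
      ∀ a ∈ B, ∀ b ∈ B, hammingDist a b ≤ ⌊r⌋₊ by
    obtain ⟨B, hB, hd⟩ := H
    exact ⟨B, hB, fun a ha b hb => (Nat.le_floor_iff hr).mp (hd a ha b hb)⟩
  have F : Fam (Fin (4 * a + 3 + 1) × Fin (4 * b + 3 + 1)) (4 * a + 4 * b + 5 + 1) 2 (2 * a + 2 * b + 4) := by
    have := ((fam_had (k := a) ha).mono (lo' := 2) (by omega) le_rfl).prod
      ((fam_had (k := b) hb).mono (lo' := 2) (by omega) le_rfl)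
    rw [show 4 * a + 3 + (4 * b + 3) = 4 * a + 4 * b + 5 + 1 by ring] at this
    exact this.mono le_rfl (by omega)
  obtain rfl | rfl | rfl : n = 4 * a + 4 * b + 5 ∨ n = 4 * a + 4 * b + 5 + 1 ∨
      n = 4 * a + 4 * b + 5 + 1 + 1 := by omega
  · exact (F.drop.mono le_rfl (by omega)).bal (by omega)
  · exact (F.mono le_rfl (by omega)).bal (by omega)
  · by_cases e : 2 * ⌊r⌋₊ = 4 * a + 4 * b + 5 + 1 + 1 + 1
    · exact tight e σ hd' hc
    · exact ((Fam.add (lo := 1) F).mono le_rfl (by omega)).bal le_rfl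

lemma cond3 (a b c n : ℕ) (ha0 : 1 ≤ a) (hb0 : 1 ≤ b) (hc0 : 1 ≤ c) (ha : IsHadamardOrder (4 * a))
    (hb : IsHadamardOrder (4 * b)) (hc' : IsHadamardOrder (4 * c))
    (h1 : n + 3 = 4 * a + 4 * b + 4 * c) : Q1At n := by
  rintro r hr ⟨σ, -, hd, hc⟩
  obtain ⟨a, rfl⟩ : ∃ k', a = k' + 1 := ⟨a - 1, by omega⟩
  obtain ⟨b, rfl⟩ : ∃ k', b = k' + 1 := ⟨b - 1, by omega⟩
  obtain ⟨c, rfl⟩ : ∃ k', c = k' + 1 := ⟨c - 1, by omega⟩
  have hd' : ∀ a ∈ σ, ∀ b ∈ σ, hammingDist a b ≤ ⌊r⌋₊ :=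
    fun a ha b hb => Nat.le_floor (hd a ha b hb)
  have hl := lowerN (ρ := ⌊r⌋₊) (by omega) σ hd' hc
  obtain rfl : n = 4 * a + 3 + (4 * b + 3) + (4 * c + 3) := by omega
  have F := (((fam_had (k := a) ha).mono (lo' := 1) (by omega) le_rfl).prod
      ((fam_had (k := b) hb).mono (lo' := 1) (by omega) le_rfl)).prod
      ((fam_had (k := c) hc').mono (lo' := 1) (by omega) le_rfl)
  obtain ⟨B, hB, hd⟩ := (F.mono (hi' := ⌊r⌋₊) le_rfl (by omega)).bal le_rfl
  exact ⟨B, hB, fun a ha b hb => (Nat.le_floor_iff hr).mp (hd a ha b hb)⟩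

lemma fam_pow (t m : ℕ) (h : m + 1 = 2 ^ t) : ∃ hi, Fam (Fin (m + 1)) m 1 hi ∧ 2 * hi ≤ m + 1 := by
  have h1 : IsHadamardOrder 1 := ⟨1, fun i j => by left; rw [Subsingleton.elim i j]; exact Matrix.one_apply_eq j, by simp⟩
  have h2 := had_pow h1 t
  rw [mul_one, ← h] at h2
  obtain ⟨ψ, h3, h4⟩ := rows h2
  exact ⟨(m + 1) / 2, ⟨ψ, fun i i' e => by have := h3 i i' e; omega, h4⟩, by omega⟩

lemma fam_log (t : ℕ) : ∀ n, n + 1 ≤ 2 ^ t → ∃ (ι : Type) (_ : Fintype ι) (_ : Nonempty ι) (hi : ℕ),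
    Fam ι n 1 hi ∧ 2 * hi ≤ n + t := by
  induction t with
  | zero =>
    intro n hn
    obtain rfl : n = 0 := by omega
    exact ⟨Unit, inferInstance, inferInstance, 0,
      ⟨fun _ => Fin.elim0, fun i i' h => absurd rfl h, fun j => j.elim0⟩, le_rfl⟩
  | succ t ih =>
    intro n hn
    by_cases e : n + 1 = 2 ^ (t + 1)
    · obtain ⟨hi, F, h⟩ := fam_pow _ n e
      exact ⟨_, inferInstance, inferInstance, hi, F, by omega⟩
    · by_cases e' : n + 1 ≤ 2 ^ t
      · obtain ⟨ι, i1, i2, hi, F, h⟩ := ih n e'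
        exact ⟨ι, i1, i2, hi, F, by omega⟩
      · have hp : 0 < 2 ^ t := by positivity
        rw [pow_succ] at hn e
        obtain ⟨m, hm⟩ : ∃ m, m + 1 = 2 ^ t := ⟨2 ^ t - 1, by omega⟩
        obtain ⟨n', rfl⟩ : ∃ n', n = m + n' := ⟨n - m, by omega⟩
        obtain ⟨hi, F, h⟩ := fam_pow _ m hm
        obtain ⟨ι, i1, i2, hi', F', h'⟩ := ih n' (by omega)
        exact ⟨Fin (m + 1) × ι, inferInstance, inferInstance, hi + hi', F.prod F', by omega⟩

lemma window (n : ℕ) (r : ℝ) (hn : 1 ≤ n) (hr : 0 ≤ r)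
    (h : 2 * r < n + 2 ∨ (n : ℝ) + (Nat.log 2 n : ℝ) + 1 ≤ 2 * r) : Q1Pair n r := by
  rintro ⟨σ, -, hd, hc⟩
  rcases h with h | h
  · have hd' : ∀ a ∈ σ, ∀ b ∈ σ, hammingDist a b ≤ ⌊r⌋₊ :=
      fun a ha b hb => Nat.le_floor (hd a ha b hb)
    have hl := lowerN (ρ := ⌊r⌋₊) hn σ hd' hc
    have h1 : (2 * ⌊r⌋₊ : ℝ) < n + 2 := by have := Nat.floor_le hr; linarith
    have h2 : 2 * ⌊r⌋₊ < n + 2 := by exact_mod_cast h1
    obtain ⟨B, hB, hd⟩ := tight (by omega) σ hd' hc
    exact ⟨B, hB, fun a ha b hb => (Nat.le_floor_iff hr).mp (hd a ha b hb)⟩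
  · obtain ⟨ι, _, _, hi, F, h'⟩ := fam_log (Nat.log 2 n + 1) n
      (Nat.lt_pow_succ_log_self (by norm_num) n)
    obtain ⟨B, hB, hd⟩ := F.bal le_rfl
    refine ⟨B, hB, fun a ha b hb => ?_⟩
    have h1 : (hammingDist a b : ℝ) ≤ hi := by exact_mod_cast hd a ha b hb
    have h2 : (2 * hi : ℝ) ≤ n + (Nat.log 2 n + 1) := by exact_mod_cast h'
    linarith

/-- Paley-Sylvester orders `2^t (q+1)`, `q ≡ 3 mod 4` the size of a finite field -/
def PSOrder (m : ℕ) : Prop :=
  ∃ (F : Type) (_ : Field F) (_ : Fintype F) (t : ℕ),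
    Fintype.card F % 4 = 3 ∧ m = 2 ^ t * (Fintype.card F + 1)

lemma ps {m : ℕ} (h : PSOrder m) : ∃ k, 1 ≤ k ∧ m = 4 * k ∧ IsHadamardOrder (4 * k) := by
  obtain ⟨F, _, _, t, hq, rfl⟩ := h
  have h := had_pow (paley F hq) t
  obtain ⟨c, hc⟩ : ∃ c, Fintype.card F + 1 = 4 * c := ⟨(Fintype.card F + 1) / 4, by omega⟩
  have e : 2 ^ t * (Fintype.card F + 1) = 4 * (2 ^ t * c) := by rw [hc]; ring
  rw [e] at h ⊢
  exact ⟨_, Nat.mul_pos (by positivity) (by omega), rfl, h⟩

/-- `m` is a positive multiple of 4 that is the order of a Hadamard matrix, or `m` is a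
Paley-Sylvester order (those are proved to be Hadamard orders, so no hypothesis is left). -/
def GoodOrder (m : ℕ) : Prop := (0 < m ∧ 4 ∣ m ∧ IsHadamardOrder m) ∨ PSOrder m

lemma good {m : ℕ} (h : GoodOrder m) : ∃ k, 1 ≤ k ∧ m = 4 * k ∧ IsHadamardOrder (4 * k) := by
  rcases h with ⟨h0, ⟨k, rfl⟩, h⟩ | h
  · exact ⟨k, by omega, rfl, h⟩
  · exact ps h

theorem sums (n : ℕ) (L : List ℕ) (hL : ∀ m ∈ L, GoodOrder m) (hn : 1 ≤ n)
    (h1 : n + L.length.choose 2 ≤ L.sum) (h2 : L.sum ≤ n + 3) : Q1At n := by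
  match L, hL, h1, h2 with
  | [], _, h1, _ => simp at h1; omega
  | [a], hL, h1, h2 =>
    obtain ⟨k, hk, rfl, g⟩ := good (hL a (by simp))
    simp at h1 h2
    exact cond k n g hn h2 h1
  | [a, b], hL, h1, h2 =>
    obtain ⟨k, hk, rfl, g⟩ := good (hL a (by simp))
    obtain ⟨k', hk', rfl, g'⟩ := good (hL b (by simp))
    simp at h1 h2
    exact cond2 k k' n hk hk' g g' h2 h1
  | [a, b, c], hL, h1, h2 =>
    obtain ⟨k, hk, rfl, g⟩ := good (hL a (by simp))
    obtain ⟨k', hk', rfl, g'⟩ := good (hL b (by simp))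
    obtain ⟨k'', hk'', rfl, g''⟩ := good (hL c (by simp))
    simp at h1 h2
    exact cond3 k k' k'' n hk hk' hk'' g g' g'' (by omega)
  | a :: b :: c :: d :: L, _, h1, h2 =>
    exfalso
    have : Nat.choose 4 2 ≤ (a :: b :: c :: d :: L).length.choose 2 :=
      Nat.choose_le_choose 2 (by simp)
    have e : Nat.choose 4 2 = 6 := by decide
    omega

end Pool.Agent.H27.Bal
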