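import Mathlib

set_option autoImplicit false

namespace Pool.Agent.H27.BasicExt

open Filter Topology

variable {𝕂 : Type} [RCLike 𝕂] {X : Type} [NormedAddCommGroup X] [NormedSpace 𝕂 X]

/-- partial sums -/
noncomputable def ps (f : ℕ → X) (a : ℕ → 𝕂) (N : ℕ) : X := ∑ i ∈ Finset.range N, a i • f i

lemma ps_sub (f : ℕ → X) (a b : ℕ → 𝕂) (N : ℕ) : ps f (a - b) N = ps f a N - ps f b N := by
  simp [ps, sub_smul, Finset.sum_sub_distrib]

lemma grunblum (f : ℕ → X) (hf : ∀ n, f n ≠ 0)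
    (hK : ∀ (a : ℕ → 𝕂) (n m : ℕ), n ≤ m → ‖ps f a n‖ ≤ 2 * ‖ps f a m‖) :
    ∀ y ∈ (Submodule.span 𝕂 (Set.range f)).topologicalClosure,
      ∃! a : ℕ → 𝕂, Tendsto (fun N => ∑ i ∈ Finset.range N, a i • f i) atTop (𝓝 y) := by
  have lim : ∀ (a : ℕ → 𝕂) (y : X), Tendsto (ps f a) atTop (𝓝 y) → ∀ n, ‖ps f a n‖ ≤ 2 * ‖y‖ := by
    intro a y h n
    refine ge_of_tendsto (h.norm.const_mul 2) ?_
    filter_upwards [eventually_ge_atTop n] with m hm using hK a n m hm
  have lim2 : ∀ (a b : ℕ → 𝕂) (y z : X), Tendsto (ps f a) atTop (𝓝 y) →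
      Tendsto (ps f b) atTop (𝓝 z) → ∀ n, ‖ps f a n - ps f b n‖ ≤ 2 * ‖y - z‖ := by
    intro a b y z h1 h2 n
    rw [← ps_sub]
    refine lim _ _ ((h1.sub h2).congr (fun N => (ps_sub f a b N).symm)) n
  have coef : ∀ (a b : ℕ → 𝕂) (y z : X), Tendsto (ps f a) atTop (𝓝 y) →
      Tendsto (ps f b) atTop (𝓝 z) → ∀ n, ‖a n - b n‖ ≤ 4 / ‖f n‖ * ‖y - z‖ := by
    intro a b y z h1 h2 n
    have e : (a n - b n) • f n = (ps f a (n + 1) - ps f b (n + 1)) - (ps f a n - ps f b n) := by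
      simp only [ps, Finset.sum_range_succ, sub_smul]
      abel
    have h3 := norm_sub_le (ps f a (n + 1) - ps f b (n + 1)) (ps f a n - ps f b n)
    rw [← e, norm_smul] at h3
    have h4 := lim2 a b y z h1 h2 (n + 1)
    have h5 := lim2 a b y z h1 h2 n
    have h6 : 0 < ‖f n‖ := norm_pos_iff.mpr (hf n)
    rw [div_mul_eq_mul_div, le_div_iff₀ h6]
    linarith
  let V : Submodule 𝕂 X :=
    { carrier := {y | ∃ a : ℕ → 𝕂, Tendsto (ps f a) atTop (𝓝 y)}
      add_mem' := by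
        rintro y z ⟨a, ha⟩ ⟨b, hb⟩
        refine ⟨a + b, (ha.add hb).congr (fun N => ?_)⟩
        simp [ps, add_smul, Finset.sum_add_distrib]
      zero_mem' := ⟨0, tendsto_const_nhds.congr (fun N => by simp [ps])⟩
      smul_mem' := by
        rintro c y ⟨a, ha⟩
        refine ⟨c • a, (ha.const_smul c).congr (fun N => ?_)⟩
        simp [ps, Finset.smul_sum, smul_smul] }
  have hV1 : Submodule.span 𝕂 (Set.range f) ≤ V := by
    rw [Submodule.span_le]
    rintro _ ⟨n, rfl⟩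
    refine ⟨Pi.single n 1, tendsto_const_nhds.congr' ?_⟩
    filter_upwards [eventually_gt_atTop n] with N hN
    simp [ps, Pi.single_apply, hN]
  have hV2 : IsClosed (V : Set X) := by
    apply IsSeqClosed.isClosed
    intro u y hu hy
    choose a ha using hu
    have hc : ∀ n, CauchySeq (fun k => a k n) := by
      intro n
      rw [Metric.cauchySeq_iff]
      intro ε hε
      have h6 : 0 < 4 / ‖f n‖ := div_pos (by norm_num) (norm_pos_iff.mpr (hf n))
      obtain ⟨N, hN⟩ := Metric.cauchySeq_iff.mp hy.cauchySeq (ε / (4 / ‖f n‖)) (div_pos hε h6)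
      refine ⟨N, fun k hk l hl => ?_⟩
      have h1 := hN k hk l hl
      rw [dist_eq_norm] at h1 ⊢
      refine lt_of_le_of_lt (coef _ _ _ _ (ha k) (ha l) n) ?_
      rwa [lt_div_iff₀' h6] at h1
    choose b hb using fun n => cauchySeq_tendsto_of_complete (hc n)
    refine ⟨b, ?_⟩
    have h1 : ∀ k n, ‖ps f (a k) n - ps f b n‖ ≤ 2 * ‖u k - y‖ := by
      intro k n
      have t1 : Tendsto (fun l => ps f (a l) n) atTop (𝓝 (ps f b n)) :=
        tendsto_finsetSum _ (fun i _ => (hb i).smul_const (f i))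
      exact le_of_tendsto_of_tendsto' (tendsto_const_nhds.sub t1).norm
        ((tendsto_const_nhds.sub hy).norm.const_mul 2) (fun l => lim2 _ _ _ _ (ha k) (ha l) n)
    rw [Metric.tendsto_atTop]
    intro ε hε
    obtain ⟨k, hk⟩ := Metric.tendsto_atTop.mp hy (ε / 4) (by linarith)
    have hk1 := hk k le_rfl
    obtain ⟨N, hN⟩ := Metric.tendsto_atTop.mp (ha k) (ε / 4) (by linarith)
    refine ⟨N, fun n hn => ?_⟩
    have h2 := hN n hn
    have h3 := h1 k n
    rw [← dist_eq_norm, ← dist_eq_norm, dist_comm] at h3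
    have h4 := dist_triangle4 (ps f b n) (ps f (a k) n) (u k) y
    linarith
  intro y hy
  obtain ⟨a, ha⟩ : y ∈ V := (Submodule.topologicalClosure_minimal _ hV1 hV2) hy
  refine ⟨a, ha, fun b hb => funext fun n => ?_⟩
  have := coef b a y y hb ha n
  rw [sub_self y, norm_zero, mul_zero] at this
  exact sub_eq_zero.mp (norm_le_zero_iff.mp this)

lemma mazur (F N : Submodule 𝕂 X) [FiniteDimensional 𝕂 F] (hN : ¬ FiniteDimensional 𝕂 N)
    {δ : ℝ} (hδ : 0 < δ) :
    ∃ z ∈ N, ‖z‖ = 1 ∧ ∀ x ∈ F, ∀ t : 𝕂, (1 - δ) * ‖x‖ ≤ ‖x + t • z‖ := by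
  classical
  have : ProperSpace F := FiniteDimensional.proper_rclike 𝕂 F
  obtain ⟨T, hT1, hT2, hT3⟩ := (isCompact_sphere (0 : F) 1).finite_cover_balls hδ
  choose φ hφ1 hφ2 using fun x : X => exists_dual_vector'' 𝕂 x
  have : Finite T := hT2
  let L : N →ₗ[𝕂] (T → 𝕂) := LinearMap.pi (fun x : T => (φ (x.1 : X)).toLinearMap.comp N.subtype)
  have hL : ¬ Function.Injective L := fun h => hN (FiniteDimensional.of_injective L h)
  rw [← LinearMap.ker_eq_bot, Submodule.eq_bot_iff] at hL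
  push Not at hL
  obtain ⟨w, hw, hw0⟩ := hL
  have hw1 : (w : X) ≠ 0 := fun h => hw0 (Subtype.ext h)
  set z : X := (‖(w : X)‖⁻¹ : 𝕂) • (w : X) with hz
  have hz1 : ‖z‖ = 1 := norm_smul_inv_norm hw1
  have hz2 : ∀ x : T, φ (x.1 : X) z = 0 := by
    intro x
    have := congrFun (LinearMap.mem_ker.mp hw) x
    simp only [L, LinearMap.pi_apply, LinearMap.comp_apply, Submodule.subtype_apply,
      ContinuousLinearMap.coe_coe, Pi.zero_apply] at this
    rw [hz, map_smul, this, smul_zero]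
  refine ⟨z, N.smul_mem _ w.2, hz1, ?_⟩
  have unit : ∀ x : F, ‖x‖ = 1 → ∀ t : 𝕂, 1 - δ ≤ ‖(x : X) + t • z‖ := by
    intro x hx t
    have := hT3 (mem_sphere_zero_iff_norm.mpr hx)
    simp only [Set.mem_iUnion] at this
    obtain ⟨y, hy, hxy⟩ := this
    have hy1 : ‖(y : X)‖ = 1 := mem_sphere_zero_iff_norm.mp (hT1 hy)
    have a1 : ‖φ y ((y : X) + t • z)‖ ≤ ‖(y : X) + t • z‖ := by
      refine le_trans ((φ y).le_opNorm _) ?_
      exact mul_le_of_le_one_left (norm_nonneg _) (hφ1 y)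
    rw [map_add, map_smul, hz2 ⟨y, hy⟩, smul_zero, add_zero, hφ2, hy1] at a1
    simp only [RCLike.ofReal_one, norm_one] at a1
    have a2 : ‖(x : X) - y‖ < δ := by
      rw [Metric.mem_ball, dist_eq_norm] at hxy
      exact hxy
    have a3 := norm_sub_le ((x : X) + t • z) ((x : X) - y)
    rw [show (x : X) + t • z - ((x : X) - y) = y + t • z by abel] at a3
    linarith
  intro x hx t
  by_cases h0 : x = 0
  · simp [h0]
  have hn : 0 < ‖x‖ := norm_pos_iff.mpr h0
  have := unit ⟨(‖x‖⁻¹ : 𝕂) • x, F.smul_mem _ hx⟩ (norm_smul_inv_norm h0) ((‖x‖⁻¹ : 𝕂) * t)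
  simp only at this
  rw [mul_smul, ← smul_add, norm_smul, norm_inv, RCLike.norm_ofReal, abs_norm,
    le_inv_mul_iff₀ hn] at this
  linarith

lemma step (F N : Submodule 𝕂 X) [FiniteDimensional 𝕂 F] (hN : ¬ FiniteDimensional 𝕂 N)
    (g : X) {r : ℝ} (hr : 1 < r) :
    ∃ h ∈ N, ∀ x ∈ F, ∀ t : 𝕂, ‖x‖ ≤ r * ‖x + t • (g + h)‖ := by
  -- choose δ with (1 - δ)^2 r ≥ 1
  obtain ⟨δ, hδ0, hδ1, hδ2⟩ : ∃ δ : ℝ, 0 < δ ∧ δ ≤ 1 / 2 ∧ 1 ≤ r * (1 - δ) ^ 2 := by
    refine ⟨(r - 1) / (2 * r), div_pos (by linarith) (by linarith), ?_, ?_⟩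
    · rw [div_le_iff₀ (by linarith)]; linarith
    · have : 1 - (r - 1) / (2 * r) = (r + 1) / (2 * r) := by field_simp; ring
      rw [this, div_pow, ← mul_div_assoc, le_div_iff₀ (by positivity)]
      nlinarith [mul_pos (show 0 < r by linarith) (sq_pos_of_pos (show 0 < r - 1 by linarith))]
  obtain ⟨z, hz, hz1, hm⟩ := mazur F N hN hδ0
  set M : ℝ := 3 * ‖g‖ / δ + 1 with hM
  have hM0 : 0 < M := by positivity
  refine ⟨(M : 𝕂) • z, N.smul_mem _ hz, fun x hx t => ?_⟩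
  have a1 := hm x hx (t * M)
  set w := x + (t * (M : 𝕂)) • z with hw
  have a2 : ‖t‖ * M ≤ ‖w‖ + ‖x‖ := by
    have := norm_sub_le w x
    rw [show w - x = (t * (M : 𝕂)) • z by rw [hw]; abel, norm_smul, hz1, norm_mul,
      RCLike.norm_ofReal, abs_of_pos hM0, mul_one] at this
    exact this
  have a3 : ‖x‖ ≤ 2 * ‖w‖ := by nlinarith [norm_nonneg x]
  have a4 : ‖t‖ * ‖g‖ ≤ δ * ‖w‖ := by
    have b1 : 3 * ‖g‖ ≤ δ * M := by
      rw [hM, mul_add, mul_div_cancel₀ _ hδ0.ne']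
      linarith
    have b2 : ‖t‖ * (3 * ‖g‖) ≤ ‖t‖ * (δ * M) := mul_le_mul_of_nonneg_left b1 (norm_nonneg _)
    have b3 : δ * (‖t‖ * M) ≤ δ * (3 * ‖w‖) := mul_le_mul_of_nonneg_left (by linarith) hδ0.le
    nlinarith
  have a5 : x + t • (g + (M : 𝕂) • z) = w + t • g := by
    rw [hw, smul_add, smul_smul]; abel
  have a6 := norm_sub_le (w + t • g) (t • g)
  rw [add_sub_cancel_right, norm_smul] at a6
  rw [a5]
  have a7 : (1 - δ) * ‖w‖ ≤ ‖w + t • g‖ := by linarith
  have a8 : (1 - δ) * ((1 - δ) * ‖x‖) ≤ (1 - δ) * ‖w‖ :=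
    mul_le_mul_of_nonneg_left a1 (by linarith)
  have a9 : r * ((1 - δ) * ((1 - δ) * ‖x‖)) ≤ r * ‖w + t • g‖ :=
    mul_le_mul_of_nonneg_left (by linarith) (by linarith)
  nlinarith [norm_nonneg x]

lemma exists_seq (N : Submodule 𝕂 X) (hN : ¬ FiniteDimensional 𝕂 N) (g : ℕ → X) :
    ∃ f : ℕ → X, (∀ n, f n - g n ∈ N) ∧
      ∀ (a : ℕ → 𝕂) (n m : ℕ), n ≤ m → ‖ps f a n‖ ≤ 2 * ‖ps f a m‖ := by
  classical
  let c : ℕ → ℝ := fun n => 2 - 1 / ((n : ℝ) + 1)
  have hc1 : ∀ n, 1 ≤ c n := by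
    intro n
    have : 1 / ((n : ℝ) + 1) ≤ 1 := by
      rw [div_le_one (by positivity)]; linarith [Nat.cast_nonneg (α := ℝ) n]
    simp only [c]; linarith
  have hc2 : ∀ n, c n ≤ 2 := by
    intro n
    have : 0 ≤ 1 / ((n : ℝ) + 1) := by positivity
    simp only [c]; linarith
  have hc3 : ∀ n, 1 < c (n + 1) / c n := by
    intro n
    rw [one_lt_div (by linarith [hc1 n])]
    have : 1 / (((n + 1 : ℕ) : ℝ) + 1) < 1 / ((n : ℝ) + 1) := by
      apply one_div_lt_one_div_of_lt (by positivity)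
      push_cast; linarith
    simp only [c]; linarith
  have hex : ∀ (s : Finset X) (n : ℕ), ∃ h ∈ N, ∀ x ∈ Submodule.span 𝕂 (s : Set X), ∀ t : 𝕂,
      ‖x‖ ≤ c (n + 1) / c n * ‖x + t • (g n + h)‖ := fun s n => step _ N hN (g n) (hc3 n)
  choose h hh1 hh2 using hex
  let S : ℕ → Finset X := fun n => Nat.rec ∅ (fun k s => insert (g k + h s k) s) n
  let f : ℕ → X := fun n => g n + h (S n) n
  have hS : ∀ n i, i < n → f i ∈ S n := by
    intro n
    induction n with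
    | zero => intro i hi; omega
    | succ n ih =>
      intro i hi
      change f i ∈ insert (f n) (S n)
      rcases Nat.lt_succ_iff_lt_or_eq.mp hi with h1 | rfl
      · exact Finset.mem_insert_of_mem (ih i h1)
      · exact Finset.mem_insert_self _ _
  refine ⟨f, fun n => by simpa [f] using hh1 (S n) n, fun a n m hnm => ?_⟩
  have mono : ∀ n, c n * ‖ps f a n‖ ≤ c (n + 1) * ‖ps f a (n + 1)‖ := by
    intro n
    have h1 : ps f a n ∈ Submodule.span 𝕂 (SetLike.coe (S n)) := by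
      refine Submodule.sum_mem _ (fun i hi => Submodule.smul_mem _ _ ?_)
      exact Submodule.subset_span (Finset.mem_coe.mpr (hS n i (Finset.mem_range.mp hi)))
    have h2 := hh2 (S n) n _ h1 (a n)
    have h3 : ps f a (n + 1) = ps f a n + a n • (g n + h (S n) n) := Finset.sum_range_succ _ _
    rw [← h3, div_mul_eq_mul_div, le_div_iff₀ (by linarith [hc1 n])] at h2
    linarith
  have h4 : c n * ‖ps f a n‖ ≤ c m * ‖ps f a m‖ :=
    monotone_nat_of_le_succ (f := fun n => c n * ‖ps f a n‖) mono hnm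
  have h5 := mul_le_mul_of_nonneg_right (hc1 n) (norm_nonneg (ps f a n))
  have h6 := mul_le_mul_of_nonneg_right (hc2 m) (norm_nonneg (ps f a m))
  linarith

theorem lift {Y : Type} [NormedAddCommGroup Y] [NormedSpace 𝕂 Y] [CompleteSpace X]
    [CompleteSpace Y] (Q : X →L[𝕂] Y) (hQ : Function.Surjective Q) (φ : ℕ → Y)
    (h0 : ∀ n, φ n ≠ 0)
    (hφ : ∀ y ∈ (Submodule.span 𝕂 (Set.range φ)).topologicalClosure,
      ∃! a : ℕ → 𝕂, Tendsto (fun N => ∑ i ∈ Finset.range N, a i • φ i) atTop (𝓝 y)) :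
    ∃ f : ℕ → X, (∀ n, Q (f n) = φ n) ∧ (∀ n, f n ≠ 0) ∧
      ∀ y ∈ (Submodule.span 𝕂 (Set.range f)).topologicalClosure,
        ∃! a : ℕ → 𝕂, Tendsto (fun N => ∑ i ∈ Finset.range N, a i • f i) atTop (𝓝 y) := by
  have ne : ∀ f : ℕ → X, (∀ n, Q (f n) = φ n) → ∀ n, f n ≠ 0 := by
    intro f hf n h
    apply h0 n
    rw [← hf n, h, map_zero]
  by_cases hN : FiniteDimensional 𝕂 Q.ker
  · obtain ⟨P, hP⟩ := Submodule.ClosedComplemented.of_finiteDimensional Q.ker
    have : CompleteSpace Q.ker := FiniteDimensional.complete 𝕂 _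
    let T := ContinuousLinearEquiv.ofBijective (Q.prod P) (by
      rw [Submodule.eq_bot_iff]
      intro x hx
      have hx' : Q x = 0 ∧ P x = 0 := by simpa using hx
      exact (congrArg Subtype.val (hx'.2.symm.trans (hP ⟨x, hx'.1⟩))).symm) (by
      rw [LinearMap.range_eq_top]
      rintro ⟨y, w⟩
      obtain ⟨x, rfl⟩ := hQ y
      refine ⟨x + (w - P x : Q.ker), ?_⟩
      have h1 : Q (w - P x : Q.ker) = 0 := (w - P x).2
      change (Q _, P _) = _
      rw [map_add, map_add, h1, hP]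
      simp)
    let R : Y →L[𝕂] X := (T.symm : Y × Q.ker →L[𝕂] X).comp (ContinuousLinearMap.inl 𝕂 Y Q.ker)
    have hR : ∀ y, Q (R y) = y := fun y => congrArg Prod.fst (T.apply_symm_apply (y, 0))
    refine ⟨fun n => R (φ n), fun n => hR _, ne _ (fun n => hR _), fun y hy => ?_⟩
    have h1 : R (Q y) = y := by
      have : (Submodule.span 𝕂 (Set.range fun n => R (φ n))).topologicalClosure ≤
          (R.comp Q - ContinuousLinearMap.id 𝕂 X).ker := by
        apply Submodule.topologicalClosure_minimal _ _ (ContinuousLinearMap.isClosed_ker _)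
        rw [Submodule.span_le]
        rintro _ ⟨n, rfl⟩
        simp [hR]
      have := this hy
      simpa [sub_eq_zero] using this
    have h2 : Q y ∈ (Submodule.span 𝕂 (Set.range φ)).topologicalClosure := by
      have : (Submodule.span 𝕂 (Set.range fun n => R (φ n))).topologicalClosure ≤
          (Submodule.span 𝕂 (Set.range φ)).topologicalClosure.comap Q.toLinearMap := by
        apply Submodule.topologicalClosure_minimal
        · rw [Submodule.span_le]
          rintro _ ⟨n, rfl⟩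
          apply Submodule.le_topologicalClosure
          change Q (R (φ n)) ∈ _
          rw [hR]
          exact Submodule.subset_span ⟨n, rfl⟩
        · exact (Submodule.isClosed_topologicalClosure _).preimage Q.continuous
      exact this hy
    obtain ⟨a, ha, hu⟩ := hφ _ h2
    refine ⟨a, ?_, fun b hb => hu b ?_⟩
    · have := (R.continuous.tendsto _).comp ha
      rw [h1] at this
      refine this.congr (fun N => ?_)
      simp
    · refine ((Q.continuous.tendsto _).comp hb).congr (fun N => ?_)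
      simp [hR]
  · choose g hg using fun n => hQ (φ n)
    obtain ⟨f, hf1, hf2⟩ := exists_seq Q.ker hN g
    have hf : ∀ n, Q (f n) = φ n := by
      intro n
      have : Q (f n - g n) = 0 := hf1 n
      rw [map_sub, sub_eq_zero] at this
      rw [this, hg]
    exact ⟨f, hf, ne f hf, grunblum f (ne f hf) hf2⟩

theorem main (𝕂 : Type) [RCLike 𝕂] (E : Type) [NormedAddCommGroup E] [NormedSpace 𝕂 E]
    (G : Submodule 𝕂 E) (φ : ℕ → (G →L[𝕂] 𝕂))
    (h : (∀ n, φ n ≠ 0) ∧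
      ∀ y ∈ (Submodule.span 𝕂 (Set.range φ)).topologicalClosure,
        ∃! a : ℕ → 𝕂, Tendsto (fun N => ∑ i ∈ Finset.range N, a i • φ i) atTop (𝓝 y)) :
    ∃ f : ℕ → (E →L[𝕂] 𝕂),
      (∀ n, (f n).comp G.subtypeL = φ n) ∧ (∀ n, f n ≠ 0) ∧
      ∀ y ∈ (Submodule.span 𝕂 (Set.range f)).topologicalClosure,
        ∃! a : ℕ → 𝕂, Tendsto (fun N => ∑ i ∈ Finset.range N, a i • f i) atTop (𝓝 y) := by
  refine lift ((ContinuousLinearMap.compL 𝕂 G E 𝕂).flip G.subtypeL) ?_ φ h.1 h.2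
  intro ψ
  obtain ⟨g, hg, _⟩ := exists_extension_norm_eq G ψ
  exact ⟨g, ContinuousLinearMap.ext hg⟩

end Pool.Agent.H27.BasicExt
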