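import Mathlib

set_option autoImplicit false

namespace Pool.Agent.H27.Basis3

open Polynomial

/-- a vector space with a bilinear product -/
def Alg {K V : Type} [Field K] [AddCommGroup V] [Module K V] (_μ : V →ₗ[K] V →ₗ[K] V) : Type := V

section
variable {K V : Type} [Field K] [AddCommGroup V] [Module K V] (μ : V →ₗ[K] V →ₗ[K] V)

instance : NonUnitalNonAssocRing (Alg μ) :=
  { (inferInstance : AddCommGroup V) with
    mul := fun a b => μ a b
    left_distrib := fun a b c => (μ a).map_add b c
    right_distrib := fun a b c => μ.map_add₂ a b c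
    zero_mul := fun a => μ.map_zero₂ a
    mul_zero := fun a => (μ a).map_zero }

instance : Module K (Alg μ) := (inferInstance : Module K V)

instance : IsScalarTower K (Alg μ) (Alg μ) := ⟨fun k a b => μ.map_smul₂ k a b⟩

instance : SMulCommClass K (Alg μ) (Alg μ) := ⟨fun k a b => ((μ a).map_smul k b).symm⟩

/-- value of a monomial -/
def val {A : Type} (f : A → A → A) (r : ℕ → A) : FreeMagma ℕ → A
  | .of x => r x
  | .mul a b => f (val f r a) (val f r b)

lemma lift_eq (r : ℕ → V) (f : FreeNonUnitalNonAssocAlgebra K ℕ) :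
    FreeNonUnitalNonAssocAlgebra.lift K (A := Alg μ) r f =
      (f.coeff.sum fun m c => c • val (fun a b => μ a b) r m : V) := by
  have : ∀ m, FreeMagma.lift (β := Alg μ) r m = val (fun a b => μ a b) r m := by
    intro m
    induction m with
    | ih1 x => rfl
    | ih2 a b ha hb => rw [map_mul, ha, hb]; rfl
  simp only [FreeNonUnitalNonAssocAlgebra.lift, Equiv.trans_apply,
    MonoidAlgebra.liftMagma_apply_apply, ← this]
  rfl

end

/-- the product `v e = v + p`, `p v = p` in coordinates `(e, v, p)` -/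
def m3 {C : Type} [CommRing C] (a b : C × C × C) : C × C × C :=
  (0, a.2.1 * b.1, a.2.1 * b.1 + a.2.2 * b.2.1)

variable {K : Type} [Field K]

/-- `c` is an identity of the three-dimensional algebra over `C` -/
def Kills (c : FreeMagma ℕ →₀ K) (C : Type) [CommRing C] [Algebra K C] : Prop :=
  ∀ r : ℕ → C × C × C, (c.sum fun m a => a • val m3 r m) = 0

lemma val_eval {C : Type} [CommRing C] (x : C) (r : ℕ → C[X] × C[X] × C[X]) (m : FreeMagma ℕ) :
    val m3 (fun i => ((r i).1.eval x, (r i).2.1.eval x, (r i).2.2.eval x)) m =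
      ((val m3 r m).1.eval x, (val m3 r m).2.1.eval x, (val m3 r m).2.2.eval x) := by
  induction m using FreeMagma.rec with
  | of x => rfl
  | mul a b ha hb => simp [val, ha, hb, m3]

/-- `c` annihilates the function `φ` of a monomial -/
def Ann (c : FreeMagma ℕ →₀ K) {W : Type} [AddCommGroup W] [Module K W] (φ : FreeMagma ℕ → W) :
    Prop := (c.sum fun m a => a • φ m) = 0

lemma Ann.map {c : FreeMagma ℕ →₀ K} {W W' : Type} [AddCommGroup W] [Module K W]
    [AddCommGroup W'] [Module K W'] {φ : FreeMagma ℕ → W} (h : Ann c φ) (E : W →ₗ[K] W')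
    {ψ : FreeMagma ℕ → W'} (e : ∀ m ∈ c.support, ψ m = E (φ m)) : Ann c ψ := by
  have := congrArg E h
  rw [map_finsuppSum, map_zero] at this
  rw [Ann, ← this]
  exact Finsupp.sum_congr fun m hm => by rw [map_smul, e m hm]

lemma Ann.prod {c : FreeMagma ℕ →₀ K} {W W' : Type} [AddCommGroup W] [Module K W]
    [AddCommGroup W'] [Module K W'] {φ : FreeMagma ℕ → W} {ψ : FreeMagma ℕ → W'} (h : Ann c φ)
    (h' : Ann c ψ) : Ann c fun m => (φ m, ψ m) := by
  unfold Ann Finsupp.sum at *
  ext
  · simpa [Prod.fst_sum] using h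
  · simpa [Prod.snd_sum] using h'

lemma Kills.poly {c : FreeMagma ℕ →₀ K} {C : Type} [CommRing C] [Algebra K C] [IsDomain C]
    [Infinite C] (h : Kills c C) : Kills c C[X] := by
  intro r
  have key : ∀ φ : FreeMagma ℕ → C[X], (∀ x, Ann c fun m => (φ m).eval x) → Ann c φ := by
    intro φ hφ
    refine Polynomial.funext fun x => ?_
    have := hφ x
    simp only [Ann, Finsupp.sum, eval_finset_sum, eval_smul, eval_zero] at this ⊢
    exact this
  have h0 := fun x => h fun i => ((r i).1.eval x, (r i).2.1.eval x, (r i).2.2.eval x)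
  refine Ann.prod (key _ fun x => ?_) (Ann.prod (key _ fun x => ?_) (key _ fun x => ?_))
  · exact Ann.map (h0 x) (LinearMap.fst K _ _) fun m _ => by simp [val_eval]
  · exact Ann.map (h0 x) (LinearMap.fst K _ _ ∘ₗ LinearMap.snd K _ _) fun m _ => by simp [val_eval]
  · exact Ann.map (h0 x) (LinearMap.snd K _ _ ∘ₗ LinearMap.snd K _ _) fun m _ => by simp [val_eval]

/-- the test space, coordinates `x, y, a, q, p` -/
abbrev TB (K : Type) [Field K] : Type := K × K × K × K × K[X]

/-- the test product -/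
noncomputable def mB (n : ℕ) (a b : TB K) : TB K :=
  (0, 0, 0, a.2.2.1 * b.2.2.2.2.coeff n, X * (C (a.1 * b.2.1) + a.2.2.2.2 * C b.1))

/-- a function of a monomial that vanishes on products -/
def lt {A : Type} [Zero A] (g : ℕ → A) : FreeMagma ℕ → A
  | .of x => g x
  | .mul _ _ => 0

section test
variable (β : ℕ → TB K)

/-- first part of the last coordinate -/
noncomputable def P1 : FreeMagma ℕ → K[X]
  | .of x => (β x).2.2.2.2
  | .mul a b => X * (P1 a * C (lt (fun x => (β x).1) b))

/-- second part of the last coordinate -/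
noncomputable def P2 : FreeMagma ℕ → K[X]
  | .of _ => 0
  | .mul a b => X * (C (lt (fun x => (β x).1) a * lt (fun x => (β x).2.1) b) +
      P2 a * C (lt (fun x => (β x).1) b))

/-- the twisted coordinate -/
noncomputable def W (g : FreeMagma ℕ → K[X]) : FreeMagma ℕ → K[X]
  | .of _ => 0
  | .mul a b => C (lt (fun x => (β x).2.2.1) a) * g b

lemma val_mB (n : ℕ) (m : FreeMagma ℕ) : val (mB n) β m =
    (lt (fun x => (β x).1) m, lt (fun x => (β x).2.1) m, lt (fun x => (β x).2.2.1) m,
      lt (fun x => (β x).2.2.2.1) m + ((W β (P1 β) m).coeff n + (W β (P2 β) m).coeff n),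
      P1 β m + P2 β m) := by
  induction m using FreeMagma.rec with
  | of x => simp [val, lt, W, P1, P2]
  | mul a b ha hb =>
    simp only [val, ha, hb, mB, W, P1, P2]
    refine Prod.ext rfl (Prod.ext rfl (Prod.ext rfl (Prod.ext ?_ ?_)))
    · simp [lt, mul_add]
    · simp only []; ring

lemma P2_coeff (m : FreeMagma ℕ) : ∀ j, m.length ≤ j → (P2 β m).coeff j = 0 := by
  induction m using FreeMagma.rec with
  | of x => simp [P2]
  | mul a b ha hb =>
    intro j hj
    have := a.length_pos
    have := b.length_pos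
    simp only [FreeMagma.length] at hj
    obtain ⟨j, rfl⟩ : ∃ i, j = i + 2 := ⟨j - 2, by omega⟩
    rw [P2, coeff_X_mul, coeff_add, coeff_mul_C, ha (j + 1) (by omega), coeff_C]
    simp

variable {β} {c : FreeMagma ℕ →₀ K}

lemma ann_lt (h : Kills c K) (g : ℕ → K) : Ann c (lt g) :=
  Ann.map (h fun x => (g x, 0, 0)) (LinearMap.fst K _ _) fun m _ => by
    cases m <;> simp [val, lt, m3]

lemma ann_P1 (h : Kills c K[X]) : Ann c (P1 β) := by
  have : ∀ m, (val m3 (fun x => (X * C (β x).1, (β x).2.2.2.2, 0)) m).1 =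
      X * C (lt (fun x => (β x).1) m) ∧
      (val m3 (fun x => (X * C (β x).1, (β x).2.2.2.2, 0)) m).2.1 = P1 β m := by
    intro m
    induction m using FreeMagma.rec with
    | of x => simp [val, lt, P1]
    | mul a b ha hb =>
      simp only [val, m3, ha.2, hb.1, P1]
      exact ⟨by simp [lt], by ring⟩
  exact Ann.map (h _) (LinearMap.fst K _ _ ∘ₗ LinearMap.snd K _ _) fun m _ => (this m).2.symm

lemma ann_P2 (h : Kills c K[X][X]) : Ann c (P2 β) := by
  have : ∀ m, (val m3 (fun x => (X * C (C (β x).2.1), C (X * C (β x).1), (0 : K[X][X]))) m).1 =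
      X * C (C (lt (fun x => (β x).2.1) m)) ∧
      (val m3 (fun x => (X * C (C (β x).2.1), C (X * C (β x).1), (0 : K[X][X]))) m).2.1.coeff 0 =
        X * C (lt (fun x => (β x).1) m) ∧
      (val m3 (fun x => (X * C (C (β x).2.1), C (X * C (β x).1), (0 : K[X][X]))) m).2.2.coeff 0 =
        0 ∧
      (val m3 (fun x => (X * C (C (β x).2.1), C (X * C (β x).1), (0 : K[X][X]))) m).2.2.coeff 1 =
        P2 β m := by
    intro m
    induction m using FreeMagma.rec with
    | of x => simp [val, lt, P2]
    | mul a b ha hb =>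
      simp only [val, m3, hb.1, coeff_add, mul_coeff_zero, mul_coeff_one, ha.2.1, ha.2.2.1,
        ha.2.2.2, hb.2.1, P2]
      simp [lt, coeff_C]
      ring
  exact Ann.map (h _) (((lcoeff K[X] 1).restrictScalars K) ∘ₗ LinearMap.snd K _ _ ∘ₗ
    LinearMap.snd K _ _) fun m _ => (this m).2.2.2.symm

lemma ann_W (h : Kills c K[X][X]) : Ann c (W β (P1 β)) := by
  let r : (ℕ → K) → ℕ → K[X][X] × K[X][X] × K[X][X] := fun g x =>
    (C (X * C (β x).1), X * C (β x).2.2.2.2, C (C (g x)))
  have h1 : ∀ g m, (val m3 (r g) m).1 = C (X * C (lt (fun x => (β x).1) m)) ∧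
      (val m3 (r g) m).2.1 = X * C (P1 β m) ∧
      (val m3 (r g) m).2.2.coeff 0 = C (lt g m) := by
    intro g m
    induction m using FreeMagma.rec with
    | of x => simp [val, lt, P1, r]
    | mul a b ha hb =>
      simp only [val, m3, hb.1, ha.2.1, hb.2.1, coeff_add, mul_coeff_zero, P1]
      simp [lt]
      ring
  have h2 : ∀ m, (val m3 (r fun x => (β x).2.2.1) m).2.2.coeff 1 -
      (val m3 (r fun _ => 0) m).2.2.coeff 1 = W β (P1 β) m := by
    intro m
    cases m with
    | of x => simp [val, r, W, coeff_C]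
    | mul a b =>
      have : lt (fun _ => (0 : K)) a = 0 := by cases a <;> rfl
      simp only [val, m3, (h1 _ a).2.1, (h1 _ b).1, (h1 _ b).2.1, (h1 _ a).2.2, coeff_add,
        mul_coeff_one, W, this]
      simp [coeff_C]
  let E : K[X][X] × K[X][X] × K[X][X] →ₗ[K] K[X] :=
    ((lcoeff K[X] 1).restrictScalars K) ∘ₗ LinearMap.snd K _ _ ∘ₗ LinearMap.snd K _ _
  exact Ann.map (Ann.prod (h (r fun x => (β x).2.2.1)) (h (r fun _ => 0)))
    (E ∘ₗ LinearMap.fst K _ _ - E ∘ₗ LinearMap.snd K _ _) fun m _ => (h2 m).symm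

theorem test [Infinite K] (h : Kills c K) (n : ℕ) (hn : ∀ m ∈ c.support, m.length ≤ n) :
    Ann c (val (mB n) β) := by
  have a2 : Ann c fun m => lt (fun x => (β x).2.2.2.1) m + (W β (P1 β) m).coeff n :=
    Ann.map (Ann.prod (ann_lt h fun x => (β x).2.2.2.1) (ann_W (β := β) h.poly.poly))
      (LinearMap.fst K _ _ + lcoeff K n ∘ₗ LinearMap.snd K _ _) fun m _ => rfl
  have a3 : Ann c fun m => P1 β m + P2 β m :=
    Ann.map (Ann.prod (ann_P1 (β := β) h.poly) (ann_P2 (β := β) h.poly.poly))
      (LinearMap.fst K _ _ + LinearMap.snd K _ _) fun m _ => rfl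
  have a1 := Ann.prod (ann_lt h fun x => (β x).1) (Ann.prod (ann_lt h fun x => (β x).2.1)
    (Ann.prod (ann_lt h fun x => (β x).2.2.1) (Ann.prod a2 a3)))
  refine Ann.map a1 LinearMap.id fun m hm => ?_
  have : (W β (P2 β) m).coeff n = 0 := by
    have := hn m hm
    cases m with
    | of x => simp [W]
    | mul a b =>
      simp only [FreeMagma.length] at this
      simp [W, P2_coeff β b n (by omega)]
  simp [val_mB, this]

end test

/-- the three-dimensional product as a bilinear map -/
def μ3 (K : Type) [Field K] : K × K × K →ₗ[K] K × K × K →ₗ[K] K × K × K :=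
  LinearMap.mk₂ K m3 (fun a b c => by simp [m3]; constructor <;> ring)
    (fun a b c => by simp [m3]; constructor <;> ring)
    (fun a b c => by simp [m3]; constructor <;> ring)
    (fun a b c => by simp [m3]; constructor <;> ring)

/-- the test product as a bilinear map -/
noncomputable def μB (K : Type) [Field K] (n : ℕ) : TB K →ₗ[K] TB K →ₗ[K] TB K :=
  LinearMap.mk₂ K (mB n) (fun a b c => by simp [mB]; constructor <;> ring)
    (fun a b c => by simp [mB, smul_eq_C_mul]; constructor <;> ring)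
    (fun a b c => by simp [mB]; constructor <;> ring)
    (fun a b c => by simp [mB, smul_eq_C_mul]; constructor <;> ring)

/-- repeated right multiplication by the first generator -/
def tail (m : FreeMagma ℕ) : ℕ → FreeMagma ℕ
  | 0 => m
  | k + 1 => .mul (tail m k) (.of 0)

/-- `a (x y x x ⋯ x)` -/
def w1 (k : ℕ) : FreeMagma ℕ := .mul (.of 2) (tail (.mul (.mul (.of 0) (.of 1)) (.of 0)) k)
/-- `a (x x y x ⋯ x)` -/
def w2 (k : ℕ) : FreeMagma ℕ := .mul (.of 2) (tail (.mul (.mul (.of 0) (.of 0)) (.of 1)) k)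

lemma w_eq (r : ℕ → K × K × K) (k : ℕ) : val m3 r (w1 k) = val m3 r (w2 k) := by
  have : ∀ k, (val m3 r (tail (.mul (.mul (.of 0) (.of 1)) (.of 0)) k)).1 = 0 ∧
      (val m3 r (tail (.mul (.mul (.of 0) (.of 0)) (.of 1)) k)).1 = 0 ∧
      (val m3 r (tail (.mul (.mul (.of 0) (.of 1)) (.of 0)) k)).2.1 =
        (val m3 r (tail (.mul (.mul (.of 0) (.of 0)) (.of 1)) k)).2.1 := by
    intro k
    induction k with
    | zero => simp only [tail, val, m3, true_and]; ring
    | succ k ih => simp only [tail, val, m3, true_and, ih.2.2]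
  simp only [w1, w2, val, m3, (this k).1, (this k).2.1, (this k).2.2]

/-- the failing substitution -/
noncomputable def β0 (K : Type) [Field K] : ℕ → TB K
  | 0 => (1, 0, 0, 0, 0)
  | 1 => (0, 1, 0, 0, 0)
  | _ => (0, 0, 1, 0, 0)

lemma w_ne (k : ℕ) : val (mB (k + 2)) (β0 K) (w1 k) ≠ val (mB (k + 2)) (β0 K) (w2 k) := by
  have : ∀ n k, (val (mB n) (β0 K) (tail (.mul (.mul (.of 0) (.of 1)) (.of 0)) k)).2.2.2.2 =
      X ^ (k + 2) ∧
      (val (mB n) (β0 K) (tail (.mul (.mul (.of 0) (.of 0)) (.of 1)) k)).2.2.2.2 = 0 := by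
    intro n k
    induction k with
    | zero => simp [tail, val, mB, β0, sq]
    | succ k ih =>
      simp only [tail, val, mB, ih.1, ih.2, β0]
      simp [pow_succ']
  intro h
  have h' := congrArg (fun a => a.2.2.2.1) h
  simp only [w1, w2, val, mB, (this _ _).1, (this _ _).2, β0] at h'
  simp at h'

end Pool.Agent.H27.Basis3
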