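import Mathlib

namespace Pool.Agent.H27.Borsuk

open Set Matroid

variable {α : Type} [Fintype α] [DecidableEq α] {M : Matroid α}

omit [Fintype α] [DecidableEq α] in
lemma circ {B A : Set α} (hB : M.IsBase B) {x : α} (hx : x ∈ M.E) (hxB : x ∉ B)
    (h : ∀ y ∈ B, M.IsBase (insert x B \ {y}) → y ∈ A) : x ∈ M.closure (B ∩ A) := by
  have hC := hB.fundCircuit_isCircuit hx hxB
  have hcl : x ∈ M.closure B := by rw [hB.closure_eq]; exact hx
  refine M.closure_subset_closure ?_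
    (hC.mem_closure_sdiff_singleton_of_mem (M.mem_fundCircuit x B))
  rintro y ⟨hy, hyx⟩
  have hyB : y ∈ B := (M.fundCircuit_subset_insert x B hy).resolve_left hyx
  exact ⟨hyB, h y hyB (hB.exchange_isBase_of_indep' hyB hxB
    ((hB.indep.mem_fundCircuit_iff hcl hxB).1 hy))⟩

def Step (M : Matroid α) (P Q : Set α × Set α) : Prop :=
  Q = P.swap ∨ ∃ x ∈ M.E, x ∉ P.1 ∧ x ∉ P.2 ∧ ∃ y ∈ P.1, M.IsBase (insert x P.1 \ {y}) ∧
    Q = (insert x P.1 \ {y}, P.2)

def Mx (M : Matroid α) (B B' : Set α) : Prop :=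
  M.IsBase B ∧ M.IsBase B' ∧ ∀ C C', M.IsBase C → M.IsBase C' → (C ∪ C').ncard ≤ (B ∪ B').ncard

omit [Fintype α] [DecidableEq α] in
lemma Mx.symm {B B' : Set α} (h : Mx M B B') : Mx M B' B :=
  ⟨h.2.1, h.1, fun C C' h1 h2 => by rw [union_comm B']; exact h.2.2 C C' h1 h2⟩

omit [DecidableEq α] in
lemma Mx.exch {B B' : Set α} (h : Mx M B B') {x y : α} (hx : x ∉ B) (hx' : x ∉ B') (hy : y ∈ B)
    (hb : M.IsBase (insert x B \ {y})) : y ∉ B' ∧ Mx M (insert x B \ {y}) B' := by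
  have hxy : x ≠ y := fun e => hx (e ▸ hy)
  have hy' : y ∉ B' := by
    intro hy'
    have e : (insert x B \ {y}) ∪ B' = insert x (B ∪ B') := by
      ext z
      simp only [mem_union, mem_diff, mem_insert_iff, mem_singleton_iff]
      by_cases hz : z = y
      · subst hz
        tauto
      · tauto
    have := h.2.2 _ _ hb h.2.1
    rw [e, ncard_insert_of_notMem (by simp [hx, hx'])] at this
    omega
  refine ⟨hy', hb, h.2.1, fun C C' h1 h2 => (h.2.2 C C' h1 h2).trans ?_⟩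
  have e : (insert x B \ {y}) ∪ B' = insert x ((B ∪ B') \ {y}) := by
    ext z
    simp only [mem_union, mem_diff, mem_insert_iff, mem_singleton_iff]
    by_cases hz : z = y
    · subst hz
      tauto
    · tauto
  rw [e, ncard_insert_of_notMem (by simp [hx, hx']),
    ncard_diff_singleton_add_one (s := B ∪ B') (a := y) (Or.inl hy)]

omit [DecidableEq α] in
lemma exists_A {B B' : Set α} (h : Mx M B B') :
    ∃ A ⊆ M.E, M.E \ A ⊆ B ∪ B' ∧ (∀ x ∈ A, x ∈ B → x ∉ B') ∧
      A ⊆ M.closure (B ∩ A) ∧ A ⊆ M.closure (B' ∩ A) := by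
  set A : Set α := {x | x ∈ M.E ∧ ∃ P, Relation.ReflTransGen (Step M) (B, B') P ∧
    x ∉ P.1 ∧ x ∉ P.2} with hA
  have inv1 : ∀ P, Relation.ReflTransGen (Step M) (B, B') P →
      Mx M P.1 P.2 ∧ B ∩ B' ⊆ P.1 ∩ P.2 := by
    intro P hP
    induction hP with
    | refl => exact ⟨h, le_rfl⟩
    | tail _ hs ih =>
      rcases hs with rfl | ⟨x, hx, hx1, hx2, y, hy, hb, rfl⟩
      · exact ⟨ih.1.symm, fun z hz => (ih.2 hz).symm⟩
      · obtain ⟨h1, h2⟩ := ih.1.exch hx1 hx2 hy hb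
        refine ⟨h2, fun z hz => ⟨⟨Or.inr (ih.2 hz).1, ?_⟩, (ih.2 hz).2⟩⟩
        rintro rfl
        exact h1 (ih.2 hz).2
  have k1 : ∀ P, Relation.ReflTransGen (Step M) (B, B') P → ∀ x ∈ M.E, x ∉ P.1 → x ∉ P.2 →
      x ∈ M.closure (P.1 ∩ A) := by
    intro P hP x hx h1 h2
    have hm := (inv1 P hP).1
    refine circ hm.1 hx h1 fun y hy hb => ⟨hm.1.subset_ground hy, _,
      hP.tail (Or.inr ⟨x, hx, h1, h2, y, hy, hb, rfl⟩), fun h => h.2 rfl,
      (hm.exch h1 h2 hy hb).1⟩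
  have inv2 : ∀ P, Relation.ReflTransGen (Step M) (B, B') P →
      M.closure (P.1 ∩ A) ∩ M.closure (P.2 ∩ A) ⊆ M.closure (B ∩ A) ∩ M.closure (B' ∩ A) := by
    intro P hP
    induction hP with
    | refl => exact le_rfl
    | @tail P Q hP hs ih =>
      rcases hs with rfl | ⟨x, hx, hx1, hx2, y, hy, hb, rfl⟩
      · exact fun z hz => ih hz.symm
      · refine subset_trans (inter_subset_inter_left _ ?_) ih
        refine M.closure_subset_closure_of_subset_closure ?_
        rintro z ⟨⟨rfl | hz, -⟩, hzA⟩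
        · exact k1 P hP _ hx hx1 hx2
        · exact M.subset_closure _ (inter_subset_right.trans fun _ h => h.1) ⟨hz, hzA⟩
  have k2 : A ⊆ M.closure (B ∩ A) ∩ M.closure (B' ∩ A) := by
    rintro x ⟨hx, P, hP, h1, h2⟩
    exact inv2 P hP ⟨k1 P hP x hx h1 h2, k1 P.swap (hP.tail (Or.inl rfl)) x hx h2 h1⟩
  refine ⟨A, fun _ h => h.1, ?_, ?_, fun x hx => (k2 hx).1, fun x hx => (k2 hx).2⟩
  · rintro x ⟨hx, hxA⟩
    by_contra hc
    simp only [mem_union, not_or] at hc
    exact hxA ⟨hx, (B, B'), .refl, hc.1, hc.2⟩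
  · rintro x ⟨-, P, hP, h1, -⟩ hb hb'
    exact h1 ((inv1 P hP).2 ⟨hb, hb'⟩).1

omit [DecidableEq α] in
lemma rank_le {B C A : Set α} (hB : M.IsBase B) (hC : M.IsBase C) (hA : A ⊆ M.E)
    (h : A ⊆ M.closure (B ∩ A)) :
    (C ∩ A).ncard ≤ (B ∩ A).ncard ∧
      ((B ∩ A).ncard ≤ (C ∩ A).ncard → A ⊆ M.closure (C ∩ A)) := by
  have h1 : M.IsBasis (B ∩ A) A :=
    (hB.indep.inter_right A).isBasis_of_subset_of_subset_closure inter_subset_right h
  obtain ⟨J, hJ, hs⟩ := (hC.indep.inter_right A).subset_isBasis_of_subset inter_subset_right hA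
  have e : J.ncard = (B ∩ A).ncard := by
    simp only [ncard_def, hJ.encard_eq_encard h1]
  refine ⟨e ▸ ncard_le_ncard hs, fun hle => ?_⟩
  have : C ∩ A = J := eq_of_subset_of_ncard_le hs (e ▸ hle)
  rw [this]
  exact hJ.subset_closure

omit [DecidableEq α] in
lemma all_A {B B' : Set α} (h : Mx M B B') :
    ∃ A ⊆ M.E, ∀ C C', Mx M C C' → M.E \ A ⊆ C ∪ C' ∧ (∀ x ∈ A, x ∈ C → x ∉ C') ∧
      A ⊆ M.closure (C ∩ A) := by
  obtain ⟨A, hA, h1, h2, h3, h4⟩ := exists_A h
  refine ⟨A, hA, fun C C' hC => ?_⟩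
  have split : ∀ X : Set α, X.ncard = (X ∩ A).ncard + (X \ A).ncard := fun X =>
    (ncard_inter_add_ncard_diff_eq_ncard X A).symm
  have un : ∀ X Y : Set α, ((X ∪ Y) ∩ A).ncard + ((X ∩ A) ∩ (Y ∩ A)).ncard =
      (X ∩ A).ncard + (Y ∩ A).ncard := by
    intro X Y
    rw [union_inter_distrib_right]
    exact ncard_union_add_ncard_inter _ _
  have e0 : ((B ∩ A) ∩ (B' ∩ A)).ncard = 0 := by
    rw [ncard_eq_zero]
    exact eq_empty_of_forall_notMem fun x hx => h2 x hx.1.2 hx.1.1 hx.2.1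
  have s1 : (C ∪ C') \ A ⊆ M.E \ A :=
    diff_subset_diff_left (union_subset hC.1.subset_ground hC.2.1.subset_ground)
  have s2 : M.E \ A ⊆ (B ∪ B') \ A := fun x hx => ⟨h1 hx, hx.2⟩
  have c1 := ncard_le_ncard s1
  have c2 := ncard_le_ncard s2
  have r1 := rank_le h.1 hC.1 hA h3
  have r2 := rank_le h.2.1 hC.2.1 hA h4
  have m := hC.2.2 B B' h.1 h.2.1
  have a1 := split (B ∪ B')
  have a2 := split (C ∪ C')
  have a3 := un B B'
  have a4 := un C C'
  have r11 := r1.1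
  have r21 := r2.1
  refine ⟨?_, ?_, r1.2 (by omega)⟩
  · have : (C ∪ C') \ A = M.E \ A := eq_of_subset_of_ncard_le s1 (by omega)
    rw [← this]
    exact diff_subset
  · have : ((C ∩ A) ∩ (C' ∩ A)).ncard = 0 := by omega
    rw [ncard_eq_zero] at this
    intro x hx h h'
    exact (this ▸ (⟨⟨h, hx⟩, h', hx⟩ : x ∈ (C ∩ A) ∩ (C' ∩ A)) : x ∈ (∅ : Set α))

omit [DecidableEq α] in
lemma sd_card {B C : Set α} : (symmDiff B C).ncard + (B.ncard + C.ncard) = 2 * (B ∪ C).ncard := by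
  have h1 := ncard_union_add_ncard_inter B C
  have h2 := ncard_inter_add_ncard_diff_eq_ncard (B ∪ C) (B ∩ C)
  have e1 : (B ∪ C) ∩ (B ∩ C) = B ∩ C :=
    inter_eq_right.2 (inter_subset_left.trans subset_union_left)
  have e2 : (B ∪ C) \ (B ∩ C) = symmDiff B C := (symmDiff_eq_sup_sdiff_inf B C).symm
  rw [e1, e2] at h2
  omega

noncomputable def D (M : Matroid α) : Submodule ℝ (α → ℝ) :=
  (affineSpan ℝ ((fun B : Set α => B.indicator (fun _ : α => (1 : ℝ))) ''
    {B : Set α | M.IsBase B})).direction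

omit [Fintype α] in
lemma mem_D {B : Set α} (hB : M.IsBase B) {x y : α} (hx : x ∉ B) (hy : y ∈ B)
    (hb : M.IsBase (insert x B \ {y})) : (Pi.single x 1 - Pi.single y 1 : α → ℝ) ∈ D M := by
  have := AffineSubspace.vsub_mem_direction
    (mem_affineSpan ℝ (mem_image_of_mem
      (fun B : Set α => B.indicator (fun _ : α => (1 : ℝ))) (show _ ∈ {B : Set α | M.IsBase B}
        from hb)))
    (mem_affineSpan ℝ (mem_image_of_mem
      (fun B : Set α => B.indicator (fun _ : α => (1 : ℝ))) (show _ ∈ {B : Set α | M.IsBase B}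
        from hB)))
  have hxy : x ≠ y := fun e => hx (e ▸ hy)
  have e : (Pi.single x 1 - Pi.single y 1 : α → ℝ) =
      (insert x B \ {y}).indicator (fun _ : α => (1 : ℝ)) -ᵥ
        B.indicator (fun _ : α => (1 : ℝ)) := by
    funext z
    by_cases h1 : z = x
    · subst h1
      simp [hx, hxy]
    · by_cases h2 : z = y
      · subst h2
        simp [hy, h1]
      · by_cases h3 : z ∈ B <;> simp [h1, h2, h3]
  rw [e]
  exact this

lemma inj (V : Submodule ℝ (α → ℝ)) (a : α) :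
    ∃ g : α → Fin (Module.finrank ℝ V + 1),
      InjOn g {x | (Pi.single x 1 - Pi.single a 1 : α → ℝ) ∈ V} := by
  classical
  set K : Set α := {x | (Pi.single x 1 - Pi.single a 1 : α → ℝ) ∈ V} with hK
  have li : LinearIndependent ℝ (fun x : (K \ {a} : Set α) =>
      (⟨Pi.single x.1 1 - Pi.single a 1, x.2.1⟩ : V)) := by
    refine LinearIndependent.of_comp V.subtype ?_
    rw [Fintype.linearIndependent_iff]
    intro c hc y
    have := congrFun hc y.1
    have hya : y.1 ≠ a := y.2.2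
    simp only [Function.comp, Submodule.subtype_apply, Finset.sum_apply, Pi.smul_apply,
      Pi.sub_apply, Pi.single_eq_of_ne hya, sub_zero, smul_eq_mul, Pi.zero_apply] at this
    rw [Finset.sum_eq_single y] at this
    · simpa using this
    · intro b _ hb
      rw [Pi.single_eq_of_ne (fun e => hb (Subtype.ext e.symm)), mul_zero]
    · simp
  have hc := li.fintype_card_le_finrank
  have h2 : K.ncard ≤ Module.finrank ℝ V + 1 := by
    have h3 : (K \ {a}).ncard = Fintype.card (K \ {a} : Set α) := by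
      rw [← Nat.card_coe_set_eq, Nat.card_eq_fintype_card]
    have h4 : K ⊆ insert a (K \ {a}) := by
      intro z hz
      by_cases h : z = a
      · exact Or.inl h
      · exact Or.inr ⟨hz, h⟩
    have := (ncard_le_ncard h4).trans (ncard_insert_le _ _)
    omega
  have h5 : Fintype.card K ≤ Fintype.card (Fin (Module.finrank ℝ V + 1)) := by
    rw [Fintype.card_fin, ← Nat.card_eq_fintype_card, Nat.card_coe_set_eq]
    exact h2
  obtain ⟨e⟩ := Function.Embedding.nonempty_of_card_le h5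
  refine ⟨fun x => if h : x ∈ K then e ⟨x, h⟩ else 0, fun x hx y hy hxy => ?_⟩
  simp only [hx, hy, dif_pos] at hxy
  exact congrArg Subtype.val (e.injective hxy)

lemma key {B₁ B₂ : Set α} (h1 : M.IsBase B₁) (h2 : M.IsBase B₂) (hne : B₁ ≠ B₂) :
    ∃ (a : α) (R : Set α → α → Prop),
      (∀ C C', Mx M C C' → ∃ x, (Pi.single x 1 - Pi.single a 1 : α → ℝ) ∈ D M ∧ R C x) ∧
      ∀ C C', Mx M C C' → ∀ x, R C x → R C' x → False := by
  obtain ⟨P, hP, hmax⟩ := exists_max_image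
    {P : Set α × Set α | M.IsBase P.1 ∧ M.IsBase P.2} (fun P => (P.1 ∪ P.2).ncard)
    (toFinite _) ⟨(B₁, B₂), h1, h2⟩
  obtain ⟨A, hA, hall⟩ := all_A (M := M) (B := P.1) (B' := P.2)
    ⟨hP.1, hP.2, fun C C' hC hC' => hmax (C, C') ⟨hC, hC'⟩⟩
  by_cases hl : ∃ a ∈ A, a ∉ M.closure ∅
  · obtain ⟨a, haA, ha⟩ := hl
    refine ⟨a, fun C x => x ∈ C ∧ x ∈ A, fun C C' hC => ?_, fun C C' hC x h h' =>
      (hall C C' hC).2.1 x h.2 h.1 h'.1⟩
    by_cases haC : a ∈ C
    · exact ⟨a, by simp, haC, haA⟩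
    · have hcl := (hall C C' hC).2.2 haA
      by_contra hcon
      push Not at hcon
      have hi := hC.1.indep.inter_right A
      have hnot : a ∉ C ∩ A := fun h => haC h.1
      have hcir := hi.fundCircuit_isCircuit hcl hnot
      have heq := hcir.eq_fundCircuit_of_subset hC.1.indep
        ((M.fundCircuit_subset_insert a (C ∩ A)).trans (insert_subset_insert inter_subset_left))
      refine ha (M.closure_subset_closure ?_
        (hcir.mem_closure_sdiff_singleton_of_mem (M.mem_fundCircuit a (C ∩ A))))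
      rintro y ⟨hy, hya⟩
      have hy' : y ∈ C ∩ A := (M.fundCircuit_subset_insert a (C ∩ A) hy).resolve_left hya
      have hb : M.IsBase (insert a C \ {y}) := hC.1.exchange_isBase_of_indep' hy'.1 haC
        ((hC.1.indep.mem_fundCircuit_iff (by rw [hC.1.closure_eq]; exact hA haA) haC).1
          (heq ▸ hy))
      have := (D M).neg_mem (mem_D hC.1 haC hy'.1 hb)
      rw [neg_sub] at this
      exact hcon y this hy'.1 hy'.2
  · push Not at hl
    have nl : ∀ B, M.IsBase B → ∀ x ∈ B, x ∈ M.E \ A := fun B hB x hx =>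
      ⟨hB.subset_ground hx, fun hxA => hB.indep.notMem_closure_sdiff_of_mem hx
        (M.closure_subset_closure (empty_subset _) (hl x hxA))⟩
    have : ∃ a ∈ B₁, a ∉ B₂ := by
      by_contra hc
      push Not at hc
      exact hne (h1.eq_of_subset_isBase h2 hc)
    obtain ⟨a, ha1, ha2⟩ := this
    refine ⟨a, fun C x => x ∉ C ∧ x ∈ M.E \ A, fun C C' hC => ?_, fun C C' hC x h h' =>
      ((hall C C' hC).1 h.2).elim h.1 h'.1⟩
    by_cases haC : a ∈ C
    · obtain ⟨b, hb, hbase⟩ := hC.1.exchange h2 ⟨haC, ha2⟩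
      have hab : b ≠ a := fun e => hb.2 (e ▸ haC)
      refine ⟨b, mem_D hC.1 hb.2 haC ?_, hb.2, nl _ h2 b hb.1⟩
      rwa [← insert_diff_singleton_comm hab]
    · exact ⟨a, by simp, haC, nl _ h1 a ha1⟩

theorem main {B₁ B₂ : Set α} (h1 : M.IsBase B₁) (h2 : M.IsBase B₂) (hne : B₁ ≠ B₂) :
    ∃ f : Set α → Fin (Module.finrank ℝ (D M) + 1),
      ∀ B₁ B₂ : Set α, M.IsBase B₁ → M.IsBase B₂ → f B₁ = f B₂ →
        ∃ C₁ C₂ : Set α, M.IsBase C₁ ∧ M.IsBase C₂ ∧
          (symmDiff B₁ B₂).ncard < (symmDiff C₁ C₂).ncard := by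
  classical
  obtain ⟨a, R, hR1, hR2⟩ := key h1 h2 hne
  obtain ⟨g, hg⟩ := inj (D M) a
  refine ⟨fun C => if h : ∃ x, (Pi.single x 1 - Pi.single a 1 : α → ℝ) ∈ D M ∧ R C x then
    g h.choose else 0, fun C C' hC hC' hf => ?_⟩
  by_contra hcon
  push Not at hcon
  have hm : Mx M C C' := by
    refine ⟨hC, hC', fun X Y hX hY => ?_⟩
    have a1 := hcon X Y hX hY
    have a2 := sd_card (B := C) (C := C')
    have a3 := sd_card (B := X) (C := Y)
    have a4 := hC.ncard_eq_ncard_of_isBase hX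
    have a5 := hC'.ncard_eq_ncard_of_isBase hY
    omega
  have e1 := hR1 C C' hm
  have e2 := hR1 C' C hm.symm
  simp only [e1, e2, dif_pos] at hf
  have := hg e1.choose_spec.1 e2.choose_spec.1 hf
  exact hR2 C C' hm _ e1.choose_spec.2 (this ▸ e2.choose_spec.2)

end Pool.Agent.H27.Borsuk
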