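import Mathlib

namespace H27.CS

variable {R : Type} [Ring R]

lemma obs_eq {p p' q q' : R} (hp : p + p' = 1) (hq : q + q' = 1) (h1 : p * q' = 0)
    (h2 : p' * q = 0) : p - p' = q - q' := by
  have a : p = p * q := by linear_combination (norm := noncomm_ring) h1 - p * hq
  have b : q = p * q := by linear_combination (norm := noncomm_ring) h2 - hp * q
  linear_combination (norm := noncomm_ring) a + a - b - b + hq - hp

/-- four orthogonal elements summing to one -/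
structure Ctx (p : Fin 5 → R) : Prop where
  sum : p 0 + p 1 + p 2 + p 3 = 1
  orth : ∀ a b, a ≠ b → p a * p b = 0

def X (p : Fin 5 → R) : R := p 0 + p 1 - (p 2 + p 3)
def Y (p : Fin 5 → R) : R := p 0 + p 2 - (p 1 + p 3)
def Z (p : Fin 5 → R) : R := p 0 + p 3 - (p 1 + p 2)

lemma Ctx.all {p : Fin 5 → R} (h : Ctx p) : X p * Y p = Z p ∧ Y p * X p = Z p ∧ X p * X p = 1 ∧
    Y p * Y p = 1 ∧ (1 + X p) * (1 + Y p) = 4 * p 0 ∧ (1 + X p) * (1 - Y p) = 4 * p 1 ∧
    (1 - X p) * (1 + Y p) = 4 * p 2 ∧ X p * p 0 = p 0 ∧ Y p * p 0 = p 0 ∧ p 0 * X p = p 0 ∧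
    p 0 * Y p = p 0 ∧ p 1 * X p = p 1 ∧ X p * p 1 = p 1 ∧ p 2 * Y p = p 2 ∧ Y p * p 2 = p 2 ∧
    p 0 * p 0 = p 0 := by
  have o01 := h.orth 0 1 (by decide)
  have o02 := h.orth 0 2 (by decide)
  have o03 := h.orth 0 3 (by decide)
  have o10 := h.orth 1 0 (by decide)
  have o12 := h.orth 1 2 (by decide)
  have o13 := h.orth 1 3 (by decide)
  have o20 := h.orth 2 0 (by decide)
  have o21 := h.orth 2 1 (by decide)
  have o23 := h.orth 2 3 (by decide)
  have o30 := h.orth 3 0 (by decide)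
  have o31 := h.orth 3 1 (by decide)
  have o32 := h.orth 3 2 (by decide)
  have i0 : p 0 * p 0 = p 0 := by
    linear_combination (norm := noncomm_ring) p 0 * h.sum - o01 - o02 - o03
  have i1 : p 1 * p 1 = p 1 := by
    linear_combination (norm := noncomm_ring) p 1 * h.sum - o10 - o12 - o13
  have i2 : p 2 * p 2 = p 2 := by
    linear_combination (norm := noncomm_ring) p 2 * h.sum - o20 - o21 - o23
  have i3 : p 3 * p 3 = p 3 := by
    linear_combination (norm := noncomm_ring) p 3 * h.sum - o30 - o31 - o32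
  rw [← h.sum]
  simp only [X, Y, Z, mul_add, add_mul, mul_sub, sub_mul, i0, i1, i2, i3, o01, o02, o03, o10, o12,
    o13, o20, o21, o23, o30, o31, o32]
  refine ⟨?_, ?_, ?_, ?_, ?_, ?_, ?_, ?_, ?_, ?_, ?_, ?_, ?_, ?_, ?_, ?_⟩ <;> noncomm_ring

lemma factor (two : ∀ x : R, x + x = 0 → x = 0) {E1 E2 E3 E4 A B C D T U V : R}
    (hs : E1 + E2 + E3 + E4 = 1) (h2 : E2 * C = C * E1) (h3 : E3 * D = D * E1)
    (a2 : E2 * A = E2) (a3 : E3 * B = E3) (hU : (1 + A) * (1 - C) = 4 * U)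
    (hV : (1 + B) * (1 - D) = 4 * V) (t1 : U * T = 0) (t2 : V * T = 0) (t3 : E4 * T = 0) :
    T = (1 + C + D) * E1 * T := by
  have b2 : E2 * T = C * E1 * T := by
    have := two (E2 * T - C * E1 * T) (by
      linear_combination (norm := noncomm_ring) E2 * hU * T + E2 * 4 * t1 - a2 * T + a2 * C * T +
        h2 * T + h2 * T)
    exact sub_eq_zero.mp this
  have b3 : E3 * T = D * E1 * T := by
    have := two (E3 * T - D * E1 * T) (by
      linear_combination (norm := noncomm_ring) E3 * hV * T + E3 * 4 * t2 - a3 * T + a3 * D * T +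
        h3 * T + h3 * T)
    exact sub_eq_zero.mp this
  linear_combination (norm := noncomm_ring) b2 + b3 + t3 - hs * T

lemma factor' (two : ∀ x : R, x + x = 0 → x = 0) {E1 E2 E3 E4 A B C D T U V : R}
    (hs : E1 + E2 + E3 + E4 = 1) (h2 : C * E2 = E1 * C) (h3 : D * E3 = E1 * D)
    (a2 : A * E2 = E2) (a3 : B * E3 = E3) (hU : (1 - C) * (1 + A) = 4 * U)
    (hV : (1 - D) * (1 + B) = 4 * V) (t1 : T * U = 0) (t2 : T * V = 0) (t3 : T * E4 = 0) :
    T = T * E1 * (1 + C + D) := by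
  have b2 : T * E2 = T * E1 * C := by
    have := two (T * E2 - T * E1 * C) (by
      linear_combination (norm := noncomm_ring) T * hU * E2 + t1 * 4 * E2 - T * a2 + T * C * a2 +
        T * h2 + T * h2)
    exact sub_eq_zero.mp this
  have b3 : T * E3 = T * E1 * D := by
    have := two (T * E3 - T * E1 * D) (by
      linear_combination (norm := noncomm_ring) T * hV * E3 + t2 * 4 * E3 - T * a3 + T * D * a3 +
        T * h3 + T * h3)
    exact sub_eq_zero.mp this
  linear_combination (norm := noncomm_ring) b2 + b3 + t3 - T * hs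

lemma pair {E T T' C D C' D' a b : R} (h : T = T * E * (1 + C + D)) (h' : T' = (1 + C' + D') * E * T')
    (k : E * C * E = 0 ∧ E * D * E = 0 ∧ E * C' * E = 0 ∧ E * D' * E = 0 ∧ E * C * D' * E = 0 ∧
      E * D * C' * E = 0 ∧ C * C' = a ∧ D * D' = b) :
    T * T' = T * E * (1 + a + b) * E * T' := by
  obtain ⟨k1, k2, k3, k4, k5, k6, k7, k8⟩ := k
  have : T * T' = T * E * (1 + C + D) * ((1 + C' + D') * E * T') := by rw [← h, ← h']
  linear_combination (norm := noncomm_ring) this + T * k1 * T' + T * k2 * T' + T * k3 * T' +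
    T * k4 * T' + T * k5 * T' + T * k6 * T' + T * E * k7 * E * T' + T * E * k8 * E * T'

lemma main (two : ∀ x : R, x + x = 0 → x = 0) (ok : Fin 7 → Fin 5 → Fin 7 → Fin 5 → Bool)
    (P : Fin 7 → Fin 5 → R) (z : ∀ c a c' a', ok c a c' a' = true → P c a * P c' a' = 0)
    (h1 : ∀ c, P c 0 + P c 1 + P c 2 + P c 3 + P c 4 = 1)
    (k0 : ∀ c a b, a ≠ b → ok c a c b = true) (k1 : ∀ c, c ≠ 6 → ∀ a, ok c 4 6 a = true)
    (k2 : ∀ q ∈ ([(0, 0, 1, 2, 3, 2, 0, 1, 2, 3), (0, 0, 2, 1, 3, 3, 0, 1, 2, 3),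
      (1, 0, 1, 2, 3, 2, 0, 2, 1, 3), (1, 0, 2, 1, 3, 3, 0, 2, 1, 3),
      (0, 0, 3, 1, 2, 4, 0, 1, 2, 3), (1, 0, 3, 1, 2, 4, 0, 2, 1, 3),
      (2, 0, 3, 1, 2, 5, 0, 1, 2, 3), (3, 0, 3, 1, 2, 5, 0, 2, 1, 3),
      (4, 0, 3, 1, 2, 5, 1, 2, 0, 3)] : List (Fin 7 × Fin 5 × Fin 5 × Fin 5 × Fin 5 × Fin 7 ×
        Fin 5 × Fin 5 × Fin 5 × Fin 5)), match q with
        | (c, a, b, a', b', d, e, f, e', f') => (ok c a d e' && ok c a d f' && ok c b d e' &&
          ok c b d f' && ok c a' d e && ok c a' d f && ok c b' d e && ok c b' d f) = true)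
    (k3 : ∀ q ∈ ([(0, 3, 0), (0, 3, 1), (0, 3, 2), (0, 3, 3), (2, 1, 0), (2, 1, 1), (2, 0, 2),
      (2, 0, 3), (3, 1, 0), (3, 0, 1), (3, 1, 2), (3, 0, 3), (0, 0, 4)] :
        List (Fin 7 × Fin 5 × Fin 5)), ok q.1 q.2.1 6 q.2.2 = true ∧ ok 6 q.2.2 q.1 q.2.1 = true) :
    (1 : R) = 0 := by
  have ctx : ∀ c, c ≠ 6 → Ctx (P c) := fun c hc => by
    refine ⟨?_, fun a b h => z _ _ _ _ (k0 c a b h)⟩
    have := h1 c
    have e : P c 4 = 0 := by
      linear_combination (norm := noncomm_ring) z _ _ _ _ (k1 c hc 0) + z _ _ _ _ (k1 c hc 1) +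
        z _ _ _ _ (k1 c hc 2) + z _ _ _ _ (k1 c hc 3) + z _ _ _ _ (k1 c hc 4) - P c 4 * h1 6
    rwa [e, add_zero] at this
  have link : ∀ c a b a' b' d e f e' f', P c a + P c b + (P c a' + P c b') = 1 →
      P d e + P d f + (P d e' + P d f') = 1 → (ok c a d e' && ok c a d f' && ok c b d e' &&
          ok c b d f' && ok c a' d e && ok c a' d f && ok c b' d e && ok c b' d f) = true →
      P c a + P c b - (P c a' + P c b') = P d e + P d f - (P d e' + P d f') := by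
    intro c a b a' b' d e f e' f' s1 s2 h
    simp only [Bool.and_eq_true] at h
    obtain ⟨⟨⟨⟨⟨⟨⟨q1, q2⟩, q3⟩, q4⟩, q5⟩, q6⟩, q7⟩, q8⟩ := h
    refine obs_eq s1 s2 ?_ ?_
    · simp only [add_mul, mul_add, z _ _ _ _ q1, z _ _ _ _ q2, z _ _ _ _ q3, z _ _ _ _ q4, add_zero]
    · simp only [add_mul, mul_add, z _ _ _ _ q5, z _ _ _ _ q6, z _ _ _ _ q7, z _ _ _ _ q8, add_zero]
  have c0 := ctx 0 (by decide)
  have c1 := ctx 1 (by decide)
  have c2 := ctx 2 (by decide)
  have c3 := ctx 3 (by decide)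
  have c4 := ctx 4 (by decide)
  have c5 := ctx 5 (by decide)
  simp only [List.forall_mem_cons] at k2 k3
  obtain ⟨m1, m2, m3, m4, m5, m6, m7, m8, m9, -⟩ := k2
  obtain ⟨n1, n2, n3, n4, n5, n6, n7, n8, n9, n10, n11, n12, n13, -⟩ := k3
  have l1 : X (P 0) = X (P 2) := link _ _ _ _ _ _ _ _ _ _ (by rw [← c0.sum]; abel) (by rw [← c2.sum]; abel) m1
  have l2 : Y (P 0) = X (P 3) := link _ _ _ _ _ _ _ _ _ _ (by rw [← c0.sum]; abel) (by rw [← c3.sum]; abel) m2
  have l3 : X (P 1) = Y (P 2) := link _ _ _ _ _ _ _ _ _ _ (by rw [← c1.sum]; abel) (by rw [← c2.sum]; abel) m3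
  have l4 : Y (P 1) = Y (P 3) := link _ _ _ _ _ _ _ _ _ _ (by rw [← c1.sum]; abel) (by rw [← c3.sum]; abel) m4
  have l5 : Z (P 0) = X (P 4) := link _ _ _ _ _ _ _ _ _ _ (by rw [← c0.sum]; abel) (by rw [← c4.sum]; abel) m5
  have l6 : Z (P 1) = Y (P 4) := link _ _ _ _ _ _ _ _ _ _ (by rw [← c1.sum]; abel) (by rw [← c4.sum]; abel) m6
  have l7 : Z (P 2) = X (P 5) := link _ _ _ _ _ _ _ _ _ _ (by rw [← c2.sum]; abel) (by rw [← c5.sum]; abel) m7
  have l8 : Z (P 3) = Y (P 5) := link _ _ _ _ _ _ _ _ _ _ (by rw [← c3.sum]; abel) (by rw [← c5.sum]; abel) m8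
  have l9 : Z (P 4) = -Z (P 5) := by
    have := link _ _ _ _ _ _ _ _ _ _ (by rw [← c4.sum]; abel) (by rw [← c5.sum]; abel) m9
    rw [Z, Z, this]; abel
  obtain ⟨AB, BA, AA, BB, e0, e1, e2, f1, f2, f3, f4, f5, f6, f7, f8, EE⟩ := c0.all
  obtain ⟨CD, DC, CC, DD, -⟩ := c1.all
  obtain ⟨AC, CA, -, -, u0, u1, -⟩ := c2.all
  obtain ⟨BD, DB, -, -, v0, v1, -⟩ := c3.all
  obtain ⟨w1, -⟩ := c4.all
  obtain ⟨w2, w3, -⟩ := c5.all
  rw [← l1, ← l3] at AC CA u0 u1
  rw [← l2, ← l4] at BD DB v0 v1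
  rw [← l5, ← l6, l9] at w1
  rw [← l7, ← l8] at w2 w3
  have hs := c0.sum
  have t := h1 6
  have tz := fun a b h => z 6 a 6 b (k0 6 a b h)
  generalize X (P 0) = A at *
  generalize Y (P 0) = B at *
  generalize X (P 1) = C at *
  generalize Y (P 1) = D at *
  have cAB : A * B = B * A := AB.trans BA.symm
  have cCD : C * D = D * C := CD.trans DC.symm
  have cAC : A * C = C * A := AC.trans CA.symm
  have cBD : B * D = D * B := BD.trans DB.symm
  have aBC : B * C = -(C * B) := by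
    have : A * B * (C * D) = -(A * C * (B * D)) := by rw [AB, CD, AC, BD, w1, w2]
    linear_combination (norm := noncomm_ring) A * this * D - AA * B * C * D * D - B * C * DD -
      AA * C * B * D * D - C * B * DD
  have aAD : A * D = -(D * A) := by
    have : B * A * (D * C) = -(B * D * (A * C)) := by rw [BA, DC, AC, BD, w1, w3]
    linear_combination (norm := noncomm_ring) B * this * C - BB * A * D * C * C - A * D * CC -
      BB * D * A * C * C - D * A * CC
  have four : ∀ x : R, 4 * x = 0 → x = 0 := fun x h =>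
    two _ (two _ (by linear_combination (norm := noncomm_ring) h))
  have x1 : P 0 3 * P 6 0 = 0 := z _ _ _ _ n1.1
  have x2 : P 0 3 * P 6 1 = 0 := z _ _ _ _ n2.1
  have x3 : P 0 3 * P 6 2 = 0 := z _ _ _ _ n3.1
  have x4 : P 0 3 * P 6 3 = 0 := z _ _ _ _ n4.1
  have y1 : P 6 0 * P 0 3 = 0 := z _ _ _ _ n1.2
  have y2 : P 6 1 * P 0 3 = 0 := z _ _ _ _ n2.2
  have y3 : P 6 2 * P 0 3 = 0 := z _ _ _ _ n3.2
  have y4 : P 6 3 * P 0 3 = 0 := z _ _ _ _ n4.2
  have x5 : P 0 0 * P 6 4 = 0 := z _ _ _ _ n13.1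
  have y5 : P 6 4 * P 0 0 = 0 := z _ _ _ _ n13.2
  generalize P 0 0 = E1 at *
  generalize P 0 1 = E2 at *
  generalize P 0 2 = E3 at *
  generalize P 0 3 = E4 at *
  have g1 : E2 * C = C * E1 := sub_eq_zero.mp (four _ (by
    linear_combination (norm := noncomm_ring) C * e0 - e1 * C + cAC - aBC - A * aBC + cAC * B))
  have g2 : C * E2 = E1 * C := sub_eq_zero.mp (four _ (by
    linear_combination (norm := noncomm_ring) e0 * C - C * e1 - cAC - aBC - A * aBC + cAC * B))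
  have g3 : E3 * D = D * E1 := sub_eq_zero.mp (four _ (by
    linear_combination (norm := noncomm_ring) D * e0 - e2 * D + cBD - aAD - A * cBD - aAD * B))
  have g4 : D * E3 = E1 * D := sub_eq_zero.mp (four _ (by
    linear_combination (norm := noncomm_ring) e0 * D - D * e2 - cBD - aAD - A * cBD - aAD * B))
  have zC : E1 * C * E1 = 0 := two _ (by
    linear_combination (norm := noncomm_ring) E1 * aBC * E1 - f4 * C * E1 - E1 * C * f2)
  have zD : E1 * D * E1 = 0 := two _ (by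
    linear_combination (norm := noncomm_ring) E1 * aAD * E1 - f3 * D * E1 - E1 * D * f1)
  have zCD : E1 * C * D * E1 = 0 := two _ (by
    linear_combination (norm := noncomm_ring) E1 * C * aAD * E1 - f3 * C * D * E1 -
      E1 * C * D * f1 + E1 * cAC * D * E1)
  have u0' : (1 + A) * (1 - -C) = 4 * P 2 0 := by rw [sub_neg_eq_add, u0]
  have v0' : (1 + B) * (1 - -D) = 4 * P 3 0 := by rw [sub_neg_eq_add, v0]
  have g1' : E2 * -C = -C * E1 := by rw [mul_neg, neg_mul, g1]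
  have g2' : -C * E2 = E1 * -C := by rw [mul_neg, neg_mul, g2]
  have g3' : E3 * -D = -D * E1 := by rw [mul_neg, neg_mul, g3]
  have g4' : -D * E3 = E1 * -D := by rw [mul_neg, neg_mul, g4]
  have ru1 : (1 - C) * (1 + A) = 4 * P 2 1 := by
    linear_combination (norm := noncomm_ring) u1 + cAC
  have ru0 : (1 - -C) * (1 + A) = 4 * P 2 0 := by
    linear_combination (norm := noncomm_ring) u0 - cAC
  have rv1 : (1 - D) * (1 + B) = 4 * P 3 1 := by
    linear_combination (norm := noncomm_ring) v1 + cBD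
  have rv0 : (1 - -D) * (1 + B) = 4 * P 3 0 := by
    linear_combination (norm := noncomm_ring) v0 - cBD
  have L0 := factor two hs g1 g3 f5 f7 u1 v1 (z _ _ _ _ n5.1) (z _ _ _ _ n9.1) x1
  have L1 := factor two hs g1 g3' f5 f7 u1 v0' (z _ _ _ _ n6.1) (z _ _ _ _ n10.1) x2
  have L2 := factor two hs g1' g3 f5 f7 u0' v1 (z _ _ _ _ n7.1) (z _ _ _ _ n11.1) x3
  have L3 := factor two hs g1' g3' f5 f7 u0' v0' (z _ _ _ _ n8.1) (z _ _ _ _ n12.1) x4
  have R0 := factor' two hs g2 g4 f6 f8 ru1 rv1 (z _ _ _ _ n5.2) (z _ _ _ _ n9.2) y1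
  have R1 := factor' two hs g2 g4' f6 f8 ru1 rv0 (z _ _ _ _ n6.2) (z _ _ _ _ n10.2) y2
  have R2 := factor' two hs g2' g4 f6 f8 ru0 rv1 (z _ _ _ _ n7.2) (z _ _ _ _ n11.2) y3
  have R3 := factor' two hs g2' g4' f6 f8 ru0 rv0 (z _ _ _ _ n8.2) (z _ _ _ _ n12.2) y4
  have zDC : E1 * D * C * E1 = 0 := by
    linear_combination (norm := noncomm_ring) zCD - E1 * cCD * E1
  have c6 : ∀ a : Fin 5, P 6 a * (P 6 0 + P 6 1 + P 6 2 + P 6 3 + P 6 4) = P 6 a := fun a => by
    rw [t, mul_one]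
  have i0 : P 6 0 * P 6 0 = P 6 0 := by
    linear_combination (norm := noncomm_ring) c6 0 - tz 0 1 (by decide) - tz 0 2 (by decide) - tz 0 3 (by decide) - tz 0 4 (by decide)
  have i1 : P 6 1 * P 6 1 = P 6 1 := by
    linear_combination (norm := noncomm_ring) c6 1 - tz 1 0 (by decide) - tz 1 2 (by decide) - tz 1 3 (by decide) - tz 1 4 (by decide)
  have i2 : P 6 2 * P 6 2 = P 6 2 := by
    linear_combination (norm := noncomm_ring) c6 2 - tz 2 0 (by decide) - tz 2 1 (by decide) - tz 2 3 (by decide) - tz 2 4 (by decide)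
  have i3 : P 6 3 * P 6 3 = P 6 3 := by
    linear_combination (norm := noncomm_ring) c6 3 - tz 3 0 (by decide) - tz 3 1 (by decide) - tz 3 2 (by decide) - tz 3 4 (by decide)
  have p00 := pair (a := 1) (b := 1) R0 L0 (by simp [zC, zD, zCD, zDC, CC, DD])
  have q00 : 3 * (P 6 0 * E1 * P 6 0) = P 6 0 := by
    linear_combination (norm := noncomm_ring) i0 - p00 - 3 * P 6 0 * EE * P 6 0
  have p01 := pair (a := 1) (b := -1) R0 L1 (by simp [zC, zD, zCD, zDC, CC, DD])
  have q01 : P 6 0 * E1 * P 6 1 = 0 := by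
    linear_combination (norm := noncomm_ring) tz 0 1 (by decide) - p01 - P 6 0 * EE * P 6 1
  have p02 := pair (a := -1) (b := 1) R0 L2 (by simp [zC, zD, zCD, zDC, CC, DD])
  have q02 : P 6 0 * E1 * P 6 2 = 0 := by
    linear_combination (norm := noncomm_ring) tz 0 2 (by decide) - p02 - P 6 0 * EE * P 6 2
  have p03 := pair (a := -1) (b := -1) R0 L3 (by simp [zC, zD, zCD, zDC, CC, DD])
  have q03 : P 6 0 * E1 * P 6 3 = 0 := by
    linear_combination (norm := noncomm_ring) p03 - tz 0 3 (by decide) - P 6 0 * EE * P 6 3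
  have p10 := pair (a := 1) (b := -1) R1 L0 (by simp [zC, zD, zCD, zDC, CC, DD])
  have q10 : P 6 1 * E1 * P 6 0 = 0 := by
    linear_combination (norm := noncomm_ring) tz 1 0 (by decide) - p10 - P 6 1 * EE * P 6 0
  have p11 := pair (a := 1) (b := 1) R1 L1 (by simp [zC, zD, zCD, zDC, CC, DD])
  have q11 : 3 * (P 6 1 * E1 * P 6 1) = P 6 1 := by
    linear_combination (norm := noncomm_ring) i1 - p11 - 3 * P 6 1 * EE * P 6 1
  have p12 := pair (a := -1) (b := -1) R1 L2 (by simp [zC, zD, zCD, zDC, CC, DD])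
  have q12 : P 6 1 * E1 * P 6 2 = 0 := by
    linear_combination (norm := noncomm_ring) p12 - tz 1 2 (by decide) - P 6 1 * EE * P 6 2
  have p13 := pair (a := -1) (b := 1) R1 L3 (by simp [zC, zD, zCD, zDC, CC, DD])
  have q13 : P 6 1 * E1 * P 6 3 = 0 := by
    linear_combination (norm := noncomm_ring) tz 1 3 (by decide) - p13 - P 6 1 * EE * P 6 3
  have p20 := pair (a := -1) (b := 1) R2 L0 (by simp [zC, zD, zCD, zDC, CC, DD])
  have q20 : P 6 2 * E1 * P 6 0 = 0 := by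
    linear_combination (norm := noncomm_ring) tz 2 0 (by decide) - p20 - P 6 2 * EE * P 6 0
  have p21 := pair (a := -1) (b := -1) R2 L1 (by simp [zC, zD, zCD, zDC, CC, DD])
  have q21 : P 6 2 * E1 * P 6 1 = 0 := by
    linear_combination (norm := noncomm_ring) p21 - tz 2 1 (by decide) - P 6 2 * EE * P 6 1
  have p22 := pair (a := 1) (b := 1) R2 L2 (by simp [zC, zD, zCD, zDC, CC, DD])
  have q22 : 3 * (P 6 2 * E1 * P 6 2) = P 6 2 := by
    linear_combination (norm := noncomm_ring) i2 - p22 - 3 * P 6 2 * EE * P 6 2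
  have p23 := pair (a := 1) (b := -1) R2 L3 (by simp [zC, zD, zCD, zDC, CC, DD])
  have q23 : P 6 2 * E1 * P 6 3 = 0 := by
    linear_combination (norm := noncomm_ring) tz 2 3 (by decide) - p23 - P 6 2 * EE * P 6 3
  have p30 := pair (a := -1) (b := -1) R3 L0 (by simp [zC, zD, zCD, zDC, CC, DD])
  have q30 : P 6 3 * E1 * P 6 0 = 0 := by
    linear_combination (norm := noncomm_ring) p30 - tz 3 0 (by decide) - P 6 3 * EE * P 6 0
  have p31 := pair (a := -1) (b := 1) R3 L1 (by simp [zC, zD, zCD, zDC, CC, DD])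
  have q31 : P 6 3 * E1 * P 6 1 = 0 := by
    linear_combination (norm := noncomm_ring) tz 3 1 (by decide) - p31 - P 6 3 * EE * P 6 1
  have p32 := pair (a := 1) (b := -1) R3 L2 (by simp [zC, zD, zCD, zDC, CC, DD])
  have q32 : P 6 3 * E1 * P 6 2 = 0 := by
    linear_combination (norm := noncomm_ring) tz 3 2 (by decide) - p32 - P 6 3 * EE * P 6 2
  have p33 := pair (a := 1) (b := 1) R3 L3 (by simp [zC, zD, zCD, zDC, CC, DD])
  have q33 : 3 * (P 6 3 * E1 * P 6 3) = P 6 3 := by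
    linear_combination (norm := noncomm_ring) i3 - p33 - 3 * P 6 3 * EE * P 6 3
  have s1 : E1 * (P 6 0 + P 6 1 + P 6 2 + P 6 3) = E1 := by
    linear_combination (norm := noncomm_ring) E1 * t - x5
  have s2 : (P 6 0 + P 6 1 + P 6 2 + P 6 3) * E1 = E1 := by
    linear_combination (norm := noncomm_ring) t * E1 - y5
  have s3 : (P 6 0 + P 6 1 + P 6 2 + P 6 3) * E1 * (P 6 0 + P 6 1 + P 6 2 + P 6 3) = E1 := by rw [s2, s1]
  have s4 : 3 * E1 = (P 6 0 + P 6 1 + P 6 2 + P 6 3) := by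
    linear_combination (norm := noncomm_ring) q00 + q11 + q22 + q33 + 3 * q01 + 3 * q02 + 3 * q03 + 3 * q10 + 3 * q12 + 3 * q13 + 3 * q20 + 3 * q21 + 3 * q23 + 3 * q30 + 3 * q31 + 3 * q32 - 3 * s3
  have s5 : E1 = 0 := two _ (by
    linear_combination (norm := noncomm_ring) E1 * s4 + s1 - 3 * EE)
  have s6 : E2 = 0 := by
    linear_combination (norm := noncomm_ring) g1 * C - E2 * CC + C * s5 * C
  have s7 : 1 + A = 0 := two _ (by
    linear_combination (norm := noncomm_ring) e0 + e1 + 4 * s5 + 4 * s6)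
  have s8 : D = 0 := two _ (by
    linear_combination (norm := noncomm_ring) s7 * D + D * s7 - aAD)
  rw [← DD, s8, mul_zero]

end H27.CS
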