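import Mathlib

set_option autoImplicit false

namespace Pool.Agent.H27.Center

open Filter Topology Finset

abbrev R := ℕ × ℕ × (ℤ →₀ ℚ × ℚ × ℚ)

noncomputable def e : ℕ → R := Classical.choose (exists_surjective_nat R)

lemma e_surj : Function.Surjective e := Classical.choose_spec (exists_surjective_nat R)

noncomputable def M (n : ℕ) : ℝ := (e n).2.1 + 1

lemma one_le_M (n : ℕ) : 1 ≤ M n := by
  unfold M; have : (0 : ℝ) ≤ (e n).2.1 := Nat.cast_nonneg _; linarith

noncomputable def eps : ℕ → ℝ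
  | 0 => 1
  | n + 1 => eps n / M n / (8 * M n)

noncomputable def del (n : ℕ) : ℝ := eps n / M n

lemma eps_pos (n : ℕ) : 0 < eps n := by
  induction n with
  | zero => simp [eps]
  | succ n ih => have := one_le_M n; unfold eps; positivity

lemma del_pos (n : ℕ) : 0 < del n := by
  have := one_le_M n; have := eps_pos n; unfold del; positivity

lemma eps_succ (n : ℕ) : eps (n + 1) = del n / (8 * M n) := rfl

lemma eps_succ_le (n : ℕ) : eps (n + 1) ≤ eps n / 2 := by
  have h1 := one_le_M n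
  have h2 := eps_pos n
  rw [eps_succ, del, div_div, div_le_div_iff₀ (by positivity) (by norm_num)]
  have : 2 ≤ M n * (8 * M n) := by nlinarith
  nlinarith

lemma eps_le (n : ℕ) : eps n ≤ (1 / 2) ^ n := by
  induction n with
  | zero => simp [eps]
  | succ n ih => have := eps_succ_le n; rw [pow_succ]; linarith

noncomputable def mu (n : ℕ) (j : ℤ) : ℝ := ((e n).2.2 j).1
noncomputable def nu (n : ℕ) (j : ℤ) : ℝ := ((e n).2.2 j).2.1
noncomputable def ta (n : ℕ) (j : ℤ) : ℝ := ((e n).2.2 j).2.2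
noncomputable def ka (n : ℕ) (j : ℤ) : ℝ := if |(mu n j)⁻¹| ≤ M n then (mu n j)⁻¹ else 0
noncomputable def cell (n : ℕ) (z : ℝ) : ℤ := ⌊((e n).1 : ℝ) * z⌋

noncomputable def cs : ℕ → ℝ → ℝ
  | 0, _ => 0
  | n + 1, z => cs n z + del n * Int.fract (ta n (cell n z) -
      (mu n (cell n z) * cs n z + nu n (cell n z) * z) / del n) * ka n (cell n z)

lemma cs_meas (n : ℕ) : Measurable (cs n) := by
  induction n with
  | zero => exact measurable_const
  | succ n ih =>
    have hc : Measurable (cell n) := (measurable_const.mul measurable_id).floor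
    have h1 : Measurable (fun z => mu n (cell n z)) :=
      (Measurable.of_discrete (f := mu n)).comp hc
    have h2 : Measurable (fun z => nu n (cell n z)) :=
      (Measurable.of_discrete (f := nu n)).comp hc
    have h3 : Measurable (fun z => ta n (cell n z)) :=
      (Measurable.of_discrete (f := ta n)).comp hc
    have h4 : Measurable (fun z => ka n (cell n z)) :=
      (Measurable.of_discrete (f := ka n)).comp hc
    exact ih.add ((measurable_const.mul
      (h3.sub (((h1.mul ih).add (h2.mul measurable_id)).div_const _)).fract).mul h4)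

lemma cs_step (n : ℕ) (z : ℝ) : |cs (n + 1) z - cs n z| ≤ eps n := by
  rw [cs, add_sub_cancel_left, abs_mul, abs_mul, abs_of_pos (del_pos n),
    abs_of_nonneg (Int.fract_nonneg _)]
  have h1 := one_le_M n
  have hk : |ka n (cell n z)| ≤ M n := by
    unfold ka; split_ifs with h
    · exact h
    · simp; linarith
  have h2 := (Int.fract_lt_one (ta n (cell n z) -
      (mu n (cell n z) * cs n z + nu n (cell n z) * z) / del n)).le
  have h3 := Int.fract_nonneg (ta n (cell n z) -
      (mu n (cell n z) * cs n z + nu n (cell n z) * z) / del n)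
  have h4 := del_pos n
  calc _ ≤ del n * 1 * M n := by gcongr
    _ = eps n := by unfold del; field_simp

lemma cs_cauchy (z : ℝ) : CauchySeq (fun n => cs n z) := by
  refine cauchySeq_of_le_geometric (1 / 2) 1 (by norm_num) (fun n => ?_)
  rw [dist_comm, Real.dist_eq, one_mul]
  exact (cs_step n z).trans (eps_le n)

noncomputable def c (z : ℝ) : ℝ := limUnder atTop (fun n => cs n z)

lemma c_tendsto (z : ℝ) : Tendsto (fun n => cs n z) atTop (𝓝 (c z)) :=
  (cs_cauchy z).tendsto_limUnder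

lemma c_meas : Measurable c :=
  measurable_of_tendsto_metrizable cs_meas (tendsto_pi_nhds.mpr c_tendsto)

lemma c_tail (n : ℕ) (z : ℝ) : |c z - cs n z| ≤ 2 * eps n := by
  have h1 : ∀ k, n ≤ k → |cs k z - cs n z| ≤ 2 * eps n - 2 * eps k := by
    intro k hk
    induction k, hk using Nat.le_induction with
    | base => simp
    | succ k hk ih =>
      have h2 := cs_step k z
      have h3 := eps_succ_le k
      have h4 : cs (k + 1) z - cs n z = (cs (k + 1) z - cs k z) + (cs k z - cs n z) := by ring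
      rw [h4]
      refine (abs_add_le _ _).trans ?_
      linarith
  refine le_of_tendsto (((c_tendsto z).sub_const (cs n z)).abs) ?_
  filter_upwards [eventually_ge_atTop n] with k hk
  have := h1 k hk
  have := eps_pos k
  linarith

lemma cs_int (n : ℕ) (z : ℝ) (h0 : mu n (cell n z) ≠ 0) (h1 : |(mu n (cell n z))⁻¹| ≤ M n) :
    ∃ k : ℤ, mu n (cell n z) * cs (n + 1) z + nu n (cell n z) * z =
      del n * (ta n (cell n z) + k) := by
  refine ⟨-⌊ta n (cell n z) - (mu n (cell n z) * cs n z + nu n (cell n z) * z) / del n⌋, ?_⟩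
  rw [cs, ka, if_pos h1, Int.fract]
  have := (del_pos n).ne'
  push_cast
  field_simp
  ring

lemma exists_sep (F : Finset ℝ) : ∃ m : ℕ, Set.InjOn (fun z : ℝ => ⌊(m : ℝ) * z⌋) F := by
  have h : ∀ x ∈ F, ∀ᶠ m : ℕ in atTop, ∀ y ∈ F, ⌊(m : ℝ) * x⌋ = ⌊(m : ℝ) * y⌋ → x = y := by
    intro x _
    rw [eventually_all_finset]
    intro y _
    by_cases hxy : x = y
    · exact Eventually.of_forall (fun _ _ => hxy)
    · have hp : 0 < |x - y| := abs_pos.mpr (sub_ne_zero.mpr hxy)
      filter_upwards [tendsto_natCast_atTop_atTop (R := ℝ).eventually_ge_atTop (1 / |x - y|)]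
        with m hm h
      have h1 := Int.abs_sub_lt_one_of_floor_eq_floor h
      rw [← mul_sub, abs_mul, abs_of_nonneg (Nat.cast_nonneg m)] at h1
      rw [div_le_iff₀ hp] at hm
      linarith
  obtain ⟨m, hm⟩ := ((eventually_all_finset F).mpr h).exists
  exact ⟨m, fun x hx y hy hxy => hm x hx y hy hxy⟩

theorem indep {ι : Type} (s : Finset ι) (hs : s.Nonempty) (x : ι → ℝ) (hx : Set.InjOn x s)
    (μ ν : ι → ℚ) (hμ : ∀ i ∈ s, μ i ≠ 0) :
    ∑ i ∈ s, ((μ i : ℝ) * c (x i) + (ν i : ℝ) * x i) ≠ 0 := by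
  classical
  obtain ⟨m, hm⟩ := exists_sep (s.image x)
  obtain ⟨i0, hi0⟩ := hs
  have hinj : ∀ i ∈ s, ∀ i' ∈ s, ⌊(m : ℝ) * x i⌋ = ⌊(m : ℝ) * x i'⌋ → i = i' := by
    intro i hi i' hi' h
    exact hx hi hi' (hm (mem_image_of_mem x hi) (mem_image_of_mem x hi') h)
  obtain ⟨K, hK⟩ := exists_nat_ge (∑ i ∈ s, (|(μ i : ℝ)| + |(μ i : ℝ)⁻¹|))
  set tbl : ℤ →₀ ℚ × ℚ × ℚ :=
    ∑ i ∈ s, Finsupp.single ⌊(m : ℝ) * x i⌋ (μ i, ν i, if i = i0 then 1 / 2 else 0) with htbl
  have ht : ∀ i ∈ s, tbl ⌊(m : ℝ) * x i⌋ = (μ i, ν i, if i = i0 then 1 / 2 else 0) := by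
    intro i hi
    rw [htbl, Finsupp.finset_sum_apply, sum_eq_single i]
    · simp
    · intro b hb hbi
      rw [Finsupp.single_apply, if_neg (fun h => hbi (hinj b hb i hi h))]
    · intro h; exact absurd hi h
  obtain ⟨n, hn⟩ := e_surj (m, K, tbl)
  have hM : M n = K + 1 := by unfold M; rw [hn]
  have hcell : ∀ z, cell n z = ⌊(m : ℝ) * z⌋ := by intro z; unfold cell; rw [hn]
  have hmu : ∀ i ∈ s, mu n (cell n (x i)) = μ i := by
    intro i hi; unfold mu; rw [hcell, hn]; simp only; rw [ht i hi]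
  have hnu : ∀ i ∈ s, nu n (cell n (x i)) = ν i := by
    intro i hi; unfold nu; rw [hcell, hn]; simp only; rw [ht i hi]
  have hta : ∀ i ∈ s, ta n (cell n (x i)) = if i = i0 then 1 / 2 else 0 := by
    intro i hi; unfold ta; rw [hcell, hn]; simp only; rw [ht i hi]
    simp only; split_ifs <;> simp
  have hk : ∀ i ∈ s, ∃ k : ℤ, (μ i : ℝ) * cs (n + 1) (x i) + ν i * x i =
      del n * ((if i = i0 then 1 / 2 else 0) + k) := by
    intro i hi
    have := cs_int n (x i) (by rw [hmu i hi]; exact_mod_cast hμ i hi) (by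
      rw [hmu i hi, hM]
      have h1 := single_le_sum (f := fun i => |(μ i : ℝ)| + |(μ i : ℝ)⁻¹|)
        (fun _ _ => by positivity) hi
      have h2 := abs_nonneg (μ i : ℝ)
      linarith)
    rwa [hmu i hi, hnu i hi, hta i hi] at this
  choose! k hk using hk
  have hsum : ∑ i ∈ s, ((μ i : ℝ) * cs (n + 1) (x i) + ν i * x i) =
      del n * (1 / 2 + (∑ i ∈ s, k i : ℤ)) := by
    rw [sum_congr rfl hk, ← mul_sum, sum_add_distrib, sum_ite_eq' s i0, if_pos hi0]
    push_cast; ring
  have herr : |∑ i ∈ s, (μ i : ℝ) * (c (x i) - cs (n + 1) (x i))| ≤ del n / 4 := by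
    refine (abs_sum_le_sum_abs _ _).trans ?_
    have h1 : ∀ i ∈ s, |(μ i : ℝ) * (c (x i) - cs (n + 1) (x i))| ≤
        (|(μ i : ℝ)| + |(μ i : ℝ)⁻¹|) * (2 * eps (n + 1)) := by
      intro i _
      rw [abs_mul]
      have := c_tail (n + 1) (x i)
      have h2 := abs_nonneg (μ i : ℝ)⁻¹
      exact mul_le_mul (by linarith) this (abs_nonneg _) (by positivity)
    refine (sum_le_sum h1).trans ?_
    rw [← sum_mul]
    have h2 := eps_pos (n + 1)
    have h3 := one_le_M n
    calc _ ≤ M n * (2 * eps (n + 1)) := by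
          refine mul_le_mul_of_nonneg_right ?_ (by positivity)
          rw [hM]; linarith
      _ = del n / 4 := by rw [eps_succ]; field_simp; ring
  intro h0
  have h5 : ∑ i ∈ s, (μ i : ℝ) * (c (x i) - cs (n + 1) (x i)) =
      -(del n * (1 / 2 + (∑ i ∈ s, k i : ℤ))) := by
    rw [← hsum, eq_neg_iff_add_eq_zero, ← sum_add_distrib, ← h0]
    exact sum_congr rfl (fun i _ => by ring)
  rw [h5, abs_neg, abs_mul, abs_of_pos (del_pos n)] at herr
  generalize (∑ i ∈ s, k i : ℤ) = q at herr
  have h6 : (1 : ℝ) / 2 ≤ |1 / 2 + (q : ℝ)| := by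
    rcases le_or_gt 0 q with hq | hq
    · have : (0 : ℝ) ≤ q := by exact_mod_cast hq
      rw [abs_of_nonneg (by linarith)]; linarith
    · have : (q : ℝ) ≤ -1 := by exact_mod_cast Int.le_sub_one_of_lt hq
      rw [abs_of_nonpos (by linarith)]; linarith
  have := del_pos n
  nlinarith

end Pool.Agent.H27.Center
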