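import Pool.Agent.H27.CenterA

set_option autoImplicit false

namespace Pool.Agent.H27.Center

open Finset Classical

noncomputable def G (F : Finset ℝ) (μ ν : ℝ → ℚ) : ℝ :=
  ∑ w ∈ F, ((μ w : ℝ) * c w + (ν w : ℝ) * w)

def NN (Z : Set ℝ) (P : ℚ → ℚ → Prop) (Q : ℕ → Prop) : Set ℝ :=
  {x | ∃ F : Finset ℝ, (∀ w ∈ F, w ∈ Z) ∧ ∃ μ ν : ℝ → ℚ, Q F.card ∧
    (∀ w ∈ F, P (μ w) (ν w)) ∧ x = G F μ ν}

noncomputable def Phi (J : Finset ℤ) (a b : J → ℚ) (w : J → ℝ) : ℝ :=
  ∑ j, ((a j : ℝ) * c (w j) + (b j : ℝ) * w j)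

def Dom (Z : Set ℝ) (m : ℕ) (J : Finset ℤ) : Set (J → ℝ) :=
  {w | ∀ j : J, w j ∈ Z ∧ ⌊(m : ℝ) * w j⌋ = j}

lemma Phi_meas (J : Finset ℤ) (a b : J → ℚ) : Measurable (Phi J a b) := by
  unfold Phi
  refine Finset.measurable_sum _ (fun j _ => ?_)
  exact (measurable_const.mul (c_meas.comp (measurable_pi_apply j))).add
    (measurable_const.mul (measurable_pi_apply j))

lemma Dom_meas (Z : Set ℝ) (hZ : MeasurableSet Z) (m : ℕ) (J : Finset ℤ) :
    MeasurableSet (Dom Z m J) := by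
  have : Dom Z m J = ⋂ j : J, ((fun w : J → ℝ => w j) ⁻¹' Z ∩
      (fun w : J → ℝ => ⌊(m : ℝ) * w j⌋) ⁻¹' {(j : ℤ)}) := by
    ext w; simp [Dom]
  rw [this]
  refine MeasurableSet.iInter (fun j => (measurable_pi_apply j hZ).inter ?_)
  exact ((measurable_const.mul (measurable_pi_apply j)).floor) (measurableSet_singleton _)

lemma Phi_inj (Z : Set ℝ) (m : ℕ) (J : Finset ℤ) (a b : J → ℚ) (ha : ∀ j, a j ≠ 0) :
    Set.InjOn (Phi J a b) (Dom Z m J) := by
  intro w hw w' hw' h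
  by_contra hne
  set I := (univ : Finset J).filter (fun j => w j ≠ w' j) with hI
  have hIne : I.Nonempty := by
    obtain ⟨j, hj⟩ := Function.ne_iff.mp hne
    exact ⟨j, by simp [hI, hj]⟩
  have key := indep (I.disjSum I) (by
      obtain ⟨j, hj⟩ := hIne
      exact ⟨Sum.inl j, by simpa using hj⟩)
    (Sum.elim w w') (by
      have h1 : ∀ i j : J, w i = w j → i = j := fun i j h =>
        Subtype.ext (by rw [← (hw i).2, ← (hw j).2, h])
      have h2 : ∀ i j : J, w' i = w' j → i = j := fun i j h =>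
        Subtype.ext (by rw [← (hw' i).2, ← (hw' j).2, h])
      have h3 : ∀ i j : J, i ∈ I → w i ≠ w' j := by
        intro i j hi h
        have : i = j := Subtype.ext (by rw [← (hw i).2, ← (hw' j).2, h])
        subst this
        exact (mem_filter.mp hi).2 h
      rintro (i | i) hi (j | j) hj h
      · exact congrArg _ (h1 i j h)
      · exact absurd h (h3 i j (by simpa using hi))
      · exact absurd h.symm (h3 j i (by simpa using hj))
      · exact congrArg _ (h2 i j h))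
    (Sum.elim a (fun j => -a j)) (Sum.elim b (fun j => -b j)) (by
      rintro (i | i) _
      · exact ha i
      · exact neg_ne_zero.mpr (ha i))
  apply key
  rw [sum_disjSum, ← sum_add_distrib]
  have h1 : ∑ j : J, (((a j : ℝ) * c (w j) + (b j : ℝ) * w j) -
      ((a j : ℝ) * c (w' j) + (b j : ℝ) * w' j)) = 0 := by
    rw [sum_sub_distrib]; exact sub_eq_zero.mpr h
  rw [← h1, hI, sum_filter]
  refine sum_congr rfl (fun j _ => ?_)
  split_ifs with hj
  · simp only [Sum.elim_inl, Sum.elim_inr]; push_cast; ring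
  · rw [not_not.mp hj, sub_self]

lemma NN_meas (Z : Set ℝ) (hZ : MeasurableSet Z) (P : ℚ → ℚ → Prop) (Q : ℕ → Prop)
    (hP : ∀ a b, P a b → a ≠ 0) : MeasurableSet (NN Z P Q) := by
  have : NN Z P Q = ⋃ m : ℕ, ⋃ J : Finset ℤ, ⋃ a : J → ℚ, ⋃ b : J → ℚ,
      ⋃ _ : Q J.card ∧ ∀ j, P (a j) (b j), Phi J a b '' Dom Z m J := by
    ext x
    simp only [Set.mem_iUnion, Set.mem_image, exists_prop]
    constructor
    · rintro ⟨F, hF, μ, ν, hQ, hPF, rfl⟩
      obtain ⟨m, hm⟩ := exists_sep F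
      set J := F.image (fun z : ℝ => ⌊(m : ℝ) * z⌋) with hJ
      have hex : ∀ j : J, ∃ z ∈ F, ⌊(m : ℝ) * z⌋ = j := fun j => mem_image.mp j.2
      choose w hwF hw using hex
      refine ⟨m, J, fun j => μ (w j), fun j => ν (w j), ⟨?_, fun j => hPF _ (hwF j)⟩, w,
        fun j => ⟨hF _ (hwF j), hw j⟩, ?_⟩
      · rw [hJ, card_image_of_injOn hm]; exact hQ
      · unfold Phi G
        refine sum_bij (fun j _ => w j) (fun j _ => hwF j) (fun i _ j _ h => ?_) (fun z hz => ?_)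
          (fun _ _ => rfl)
        · exact Subtype.ext (by rw [← hw i, ← hw j, h])
        · refine ⟨⟨_, mem_image_of_mem _ hz⟩, mem_univ _, hm (hwF _) hz (hw _)⟩
    · rintro ⟨m, J, a, b, ⟨hQ, hPj⟩, w, hw, rfl⟩
      have hinj : Function.Injective w := fun i j h =>
        Subtype.ext (by rw [← (hw i).2, ← (hw j).2, h])
      refine ⟨univ.image w, ?_, Function.extend w a 0, Function.extend w b 0, ?_, ?_, ?_⟩
      · intro z hz
        obtain ⟨j, _, rfl⟩ := mem_image.mp hz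
        exact (hw j).1
      · rw [card_image_of_injective _ hinj]; simpa using hQ
      · intro z hz
        obtain ⟨j, _, rfl⟩ := mem_image.mp hz
        rw [hinj.extend_apply, hinj.extend_apply]; exact hPj j
      · unfold Phi G
        rw [sum_image hinj.injOn]
        simp only [hinj.extend_apply]
  rw [this]
  refine MeasurableSet.iUnion (fun m => MeasurableSet.iUnion (fun J => MeasurableSet.iUnion
    (fun a => MeasurableSet.iUnion (fun b => MeasurableSet.iUnion (fun h => ?_)))))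
  exact (Dom_meas Z hZ m J).image_of_measurable_injOn (Phi_meas J a b)
    (Phi_inj Z m J a b (fun j => hP _ _ (h.2 j)))

noncomputable def ex0 (F : Finset ℝ) (μ : ℝ → ℚ) (w : ℝ) : ℚ := if w ∈ F then μ w else 0

lemma G_ext (F E : Finset ℝ) (h : F ⊆ E) (μ ν : ℝ → ℚ) :
    G F μ ν = G E (ex0 F μ) (ex0 F ν) := by
  unfold G
  rw [← sum_subset h]
  · refine sum_congr rfl (fun w hw => ?_)
    simp [ex0, hw]
  · intro w _ hw
    simp [ex0, hw]

lemma c_ne (F : Finset ℝ) (μ ν : ℝ → ℚ) (z : ℝ) (h0 : ∀ w ∈ F, μ w ≠ 0) (h1 : z ∈ F → μ z ≠ 1) :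
    c z ≠ G F μ ν := by
  intro h
  refine indep (insert z F) (insert_nonempty _ _) id (Set.injOn_id _)
    (fun w => ex0 F μ w - if w = z then 1 else 0) (ex0 F ν) ?_ ?_
  · intro w hw
    by_cases hz : w = z
    · subst hz
      simp only [ex0, if_true]
      split_ifs with hF
      · exact sub_ne_zero.mpr (h1 hF)
      · norm_num
    · have hF : w ∈ F := (mem_insert.mp hw).resolve_left hz
      simp only [ex0, hz, hF, if_true, if_false, sub_zero]
      exact h0 w hF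
  · rw [G_ext F (insert z F) (subset_insert _ _), G] at h
    have h2 : ∑ w ∈ insert z F, (if w = z then c w else 0) = c z := by
      rw [sum_ite_eq' (insert z F) z, if_pos (mem_insert_self _ _)]
    rw [← sub_eq_zero, ← h2, ← neg_eq_zero, neg_sub, ← sum_sub_distrib] at h
    rw [← h]
    refine sum_congr rfl (fun w _ => ?_)
    simp only [id]
    split_ifs <;> push_cast <;> ring

def P1 (a _b : ℚ) : Prop := 0 < a ∧ a < 1
def P2 (a b : ℚ) : Prop := a = 1 ∧ (b = 1 ∨ b = -1)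

def N (Z : Set ℝ) : Set ℝ := NN Z P1 (fun _ => True) ∪ NN Z P2 (fun k => k = 1)

lemma mid_mem (Z : Set ℝ) (F F' : Finset ℝ) (hF : ∀ w ∈ F, w ∈ Z) (hF' : ∀ w ∈ F', w ∈ Z)
    (μ ν μ' ν' : ℝ → ℚ) (h : ∀ w ∈ F, 0 < μ w ∧ μ w ≤ 1) (h' : ∀ w ∈ F', 0 < μ' w ∧ μ' w ≤ 1)
    (hh : ∀ w ∈ F, w ∈ F' → μ w < 1 ∨ μ' w < 1) : (G F μ ν + G F' μ' ν') / 2 ∈ N Z := by
  left
  refine ⟨F ∪ F', fun w hw => (mem_union.mp hw).elim (hF w) (hF' w),
    fun w => (ex0 F μ w + ex0 F' μ' w) / 2, fun w => (ex0 F ν w + ex0 F' ν' w) / 2, trivial,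
    fun w hw => ?_, ?_⟩
  · unfold P1 ex0
    by_cases h1 : w ∈ F <;> by_cases h2 : w ∈ F' <;> simp only [h1, h2, if_true, if_false]
    · have := h w h1; have := h' w h2
      rcases hh w h1 h2 with h3 | h3 <;> constructor <;> linarith
    · have := h w h1; constructor <;> linarith
    · have := h' w h2; constructor <;> linarith
    · exact absurd (mem_union.mp hw) (by tauto)
  · rw [G_ext F (F ∪ F') subset_union_left, G_ext F' (F ∪ F') subset_union_right]
    unfold G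
    rw [← sum_add_distrib, sum_div]
    refine sum_congr rfl (fun w _ => ?_)
    push_cast; ring

lemma N2_iff (Z : Set ℝ) (x : ℝ) : x ∈ NN Z P2 (fun k => k = 1) ↔
    ∃ z ∈ Z, x = c z + z ∨ x = c z - z := by
  constructor
  · rintro ⟨F, hF, μ, ν, hQ, hP, rfl⟩
    obtain ⟨z, rfl⟩ := card_eq_one.mp hQ
    refine ⟨z, hF z (mem_singleton_self z), ?_⟩
    obtain ⟨h1, h2 | h2⟩ := hP z (mem_singleton_self z)
    · left; simp [G, h1, h2]
    · right; simp [G, h1, h2]; ring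
  · rintro ⟨z, hz, h | h⟩
    · exact ⟨{z}, by simpa using hz, fun _ => 1, fun _ => 1, by simp, by simp [P2], by simp [G, h]⟩
    · exact ⟨{z}, by simpa using hz, fun _ => 1, fun _ => -1, by simp, by simp [P2],
        by simp [G, h]; ring⟩

lemma c_notMem (Z : Set ℝ) (hZ : ∀ z ∈ Z, 0 < z) (z : ℝ) : c z ∉ N Z := by
  rintro (⟨F, hF, μ, ν, _, hP, h⟩ | ⟨F, hF, μ, ν, hQ, hP, h⟩)
  · exact c_ne F μ ν z (fun w hw => (hP w hw).1.ne') (fun hz => (hP z hz).2.ne) h
  · by_cases hz : z ∈ F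
    · obtain ⟨y, rfl⟩ := card_eq_one.mp hQ
      rw [mem_singleton] at hz
      subst hz
      have := hZ z (hF z (mem_singleton_self z))
      obtain ⟨h1, h2 | h2⟩ := hP z (mem_singleton_self z)
      · simp [G, h1, h2] at h; linarith
      · simp [G, h1, h2] at h; linarith
    · exact c_ne F μ ν z (fun w hw => by rw [(hP w hw).1]; norm_num) (fun h => absurd h hz) h

lemma mid_closed (Z : Set ℝ) (hZ : ∀ z ∈ Z, 0 < z) (x α : ℝ) (hα : 0 < α) (hαZ : α ∉ Z)
    (h1 : x + α ∈ N Z) (h2 : x - α ∈ N Z) : x ∈ N Z := by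
  have hx : x = ((x + α) + (x - α)) / 2 := by ring
  rcases h1 with ⟨F, hF, μ, ν, _, hP, h⟩ | ⟨F, hF, μ, ν, hQ, hP, h⟩ <;>
  rcases h2 with ⟨F', hF', μ', ν', _, hP', h'⟩ | ⟨F', hF', μ', ν', hQ', hP', h'⟩
  · rw [hx, h, h']
    exact mid_mem Z F F' hF hF' _ _ _ _ (fun w hw => ⟨(hP w hw).1, (hP w hw).2.le⟩)
      (fun w hw => ⟨(hP' w hw).1, (hP' w hw).2.le⟩) (fun w hw _ => Or.inl (hP w hw).2)
  · rw [hx, h, h']
    exact mid_mem Z F F' hF hF' _ _ _ _ (fun w hw => ⟨(hP w hw).1, (hP w hw).2.le⟩)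
      (fun w hw => by rw [(hP' w hw).1]; norm_num) (fun w hw _ => Or.inl (hP w hw).2)
  · rw [hx, h, h']
    exact mid_mem Z F F' hF hF' _ _ _ _ (fun w hw => by rw [(hP w hw).1]; norm_num)
      (fun w hw => ⟨(hP' w hw).1, (hP' w hw).2.le⟩) (fun w _ hw => Or.inr (hP' w hw).2)
  · by_cases hd : ∃ w ∈ F, w ∈ F'
    · exfalso
      obtain ⟨w, hw, hw'⟩ := hd
      obtain ⟨y, rfl⟩ := card_eq_one.mp hQ
      obtain ⟨y', rfl⟩ := card_eq_one.mp hQ'
      rw [mem_singleton] at hw hw'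
      subst hw
      subst hw'
      have hwZ := hF w (mem_singleton_self w)
      have := hZ w hwZ
      obtain ⟨a1, a2 | a2⟩ := hP w (mem_singleton_self w) <;>
      obtain ⟨b1, b2 | b2⟩ := hP' w (mem_singleton_self w) <;>
      simp [G, a1, a2, b1, b2] at h h'
      · linarith
      · exact hαZ (by rw [show α = w by linarith]; exact hwZ)
      · linarith
      · linarith
    · rw [hx, h, h']
      exact mid_mem Z F F' hF hF' _ _ _ _ (fun w hw => by rw [(hP w hw).1]; norm_num)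
        (fun w hw => by rw [(hP' w hw).1]; norm_num) (fun w hw hw' => absurd ⟨w, hw, hw'⟩ hd)

theorem main : ∀ A : Set ℝ, MeasurableSet A → (0 : ℝ) ∈ A → A ⊆ Set.Ici (0 : ℝ) →
      ∃ B : Set ℝ, MeasurableSet B ∧
        {α : ℝ | 0 ≤ α ∧ ∀ x ∈ B, ∃ y ∈ B, |x - y| = α} = A := by
  intro A hA h0 hsub
  set Z : Set ℝ := Set.Ioi 0 \ A with hZdef
  have hZm : MeasurableSet Z := measurableSet_Ioi.diff hA
  have hZ : ∀ z ∈ Z, 0 < z := fun z hz => hz.1
  refine ⟨(N Z)ᶜ, ((NN_meas Z hZm _ _ (fun a b h => h.1.ne')).union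
    (NN_meas Z hZm _ _ (fun a b h => by rw [h.1]; norm_num))).compl, ?_⟩
  ext α
  simp only [Set.mem_ofPred_eq, Set.mem_compl_iff]
  constructor
  · rintro ⟨hα, h⟩
    by_contra hne
    have hαZ : α ∈ Z := ⟨lt_of_le_of_ne hα (fun h => hne (h ▸ h0)), hne⟩
    obtain ⟨y, hy, hy'⟩ := h (c α) (c_notMem Z hZ α)
    apply hy
    right
    rw [N2_iff]
    refine ⟨α, hαZ, ?_⟩
    rcases abs_eq hα |>.mp hy' with h | h
    · right; linarith
    · left; linarith
  · intro hα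
    have hα0 : 0 ≤ α := hsub hα
    refine ⟨hα0, fun x hx => ?_⟩
    rcases hα0.eq_or_lt with rfl | hpos
    · exact ⟨x, hx, by simp⟩
    · by_cases h1 : x + α ∈ N Z
      · by_cases h2 : x - α ∈ N Z
        · exact absurd (mid_closed Z hZ x α hpos (fun h => h.2 hα) h1 h2) hx
        · exact ⟨x - α, h2, by simp [abs_of_pos hpos]⟩
      · exact ⟨x + α, h1, by simp [abs_of_pos hpos]⟩

end Pool.Agent.H27.Center
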