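import Mathlib

set_option autoImplicit false

namespace Pool.Agent.H27.Charbit

def adj (i j : Fin 12) : Bool :=
  (i.val % 2 == 0 && j.val == i.val + 1) || (j.val / 2 == (i.val / 2 + 1) % 6)

noncomputable def A : Matrix (Fin 12) (Fin 12) ℂ := fun i j => if adj i j then 1 else 0

noncomputable def r : ℂ := ((Real.sqrt 2 : ℝ) : ℂ)

lemma rr : r * r = 2 := by
  unfold r
  rw [← Complex.ofReal_mul, Real.mul_self_sqrt (by norm_num)]
  norm_num

noncomputable def f : Fin 12 → ℂ := fun i => if i.val % 2 = 0 then r else 1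

lemma eig : A.mulVec f = (1 + r) • f := by
  have h := rr
  funext i
  fin_cases i <;>
    simp [Matrix.mulVec, dotProduct, Fin.sum_univ_succ, A, adj, f] <;>
    first | ring1 | linear_combination -h | linear_combination h

lemma spec : (1 + r) ∈ spectrum ℂ A := by
  rw [spectrum.mem_iff]
  intro hu
  have hinj := Matrix.mulVec_injective_iff_isUnit.2 hu
  have h0 : (algebraMap ℂ (Matrix (Fin 12) (Fin 12) ℂ) (1 + r) - A).mulVec f =
      (algebraMap ℂ (Matrix (Fin 12) (Fin 12) ℂ) (1 + r) - A).mulVec 0 := by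
    rw [Matrix.mulVec_zero, Matrix.sub_mulVec, eig, Algebra.algebraMap_eq_smul_one,
      Matrix.smul_mulVec, Matrix.one_mulVec, sub_self]
  have := congrFun (hinj h0) 1
  simp [f] at this

lemma big : ((12 : ℕ) : ℝ) / ((5 : ℕ) : ℝ) ≤ ‖1 + r‖ := by
  have e : (1 + r) = ((1 + Real.sqrt 2 : ℝ) : ℂ) := by simp [r]
  have h : (7 / 5 : ℝ) ≤ Real.sqrt 2 := Real.le_sqrt_of_sq_le (by norm_num)
  rw [e, Complex.norm_real, Real.norm_eq_abs]
  refine le_trans ?_ (le_abs_self _)
  push_cast
  linarith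

lemma adj_of {i j : Fin 12} (h : A i j = 1) : adj i j = true := by
  unfold A at h
  by_contra hc
  rw [if_neg hc] at h
  exact zero_ne_one h

lemma c2 : ∀ a b, adj a b = true → adj b a = true → False := by decide
lemma c3 : ∀ a b, adj a b = true → ∀ c, adj b c = true → adj c a = true → False := by decide
lemma c4 : ∀ a b, adj a b = true → ∀ c, adj b c = true → ∀ d, adj c d = true → adj d a = true →
    False := by decide +kernel
lemma c5 : ∀ a b, adj a b = true → ∀ c, adj b c = true → ∀ d, adj c d = true → ∀ e, adj d e = true →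
    adj e a = true → False := by decide +kernel

theorem main : ¬ (∀ (n k : ℕ), 0 < k →
      ∀ (A : Matrix (Fin n) (Fin n) ℂ),
        (∀ i j, A i j = 0 ∨ A i j = 1) →
        (∀ i, A i i = 0) →
        (∃ μ ∈ spectrum ℂ A, (n : ℝ) / (k : ℝ) ≤ ‖μ‖) →
        ∃ m : ℕ, 2 ≤ m ∧ m ≤ k ∧
          ∃ v : Fin m → Fin n, Function.Injective v ∧
            ∀ i : Fin m, A (v i) (v (finRotate m i)) = 1) := by
  intro h
  obtain ⟨m, h2, h5, v, -, hv⟩ := h 12 5 (by norm_num) A
    (fun i j => by unfold A; split_ifs <;> simp)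
    (fun i => by
      have : adj i i = false := by revert i; decide
      simp [A, this])
    ⟨1 + r, spec, big⟩
  have hv' := fun i => adj_of (hv i)
  interval_cases m
  · exact c2 _ _ (hv' 0) (hv' 1)
  · exact c3 _ _ (hv' 0) _ (hv' 1) (hv' 2)
  · exact c4 _ _ (hv' 0) _ (hv' 1) _ (hv' 2) (hv' 3)
  · exact c5 _ _ (hv' 0) _ (hv' 1) _ (hv' 2) _ (hv' 3) (hv' 4)

end Pool.Agent.H27.Charbit
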