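import Mathlib

set_option autoImplicit false

namespace Pool.Agent.H27.CliqueWidth

/-- `(0, j)` is the dominating vertex `u_j`; `(i + 1, j)` is the path vertex `v_{i,j}`. -/
def Gam : SimpleGraph (ℕ × ℕ) where
  Adj p q := (p.1 = 0 ∧ q.1 = 0 ∧ p.2 ≠ q.2) ∨ (p.1 = 0 ∧ q.1 ≠ 0 ∧ q.2 ≤ p.2) ∨
    (p.1 ≠ 0 ∧ q.1 = 0 ∧ p.2 ≤ q.2) ∨ (p.1 ≠ 0 ∧ p.1 = q.1 ∧ (p.2 + 1 = q.2 ∨ q.2 + 1 = p.2))
  symm := ⟨fun p q h => by omega⟩
  loopless := ⟨fun p h => by omega⟩

lemma adj_vv (a b c d : ℕ) :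
    Gam.Adj (a + 1, b) (c + 1, d) ↔ a = c ∧ (b + 1 = d ∨ d + 1 = b) := by
  simp [Gam]

lemma adj_uv (b c d : ℕ) : Gam.Adj (0, b) (c + 1, d) ↔ d ≤ b := by
  simp [Gam]

lemma adj_vu (b c d : ℕ) : Gam.Adj (c + 1, d) (0, b) ↔ d ≤ b := by
  simp [Gam]

def tau (p : ℕ × ℕ) : ℕ := if p.1 = 0 then 2 * p.2 + 1 else 2 * p.2

lemma no_prime {n : ℕ} (G : SimpleGraph (Fin n)) (e : G ↪g Gam) (hn : 3 ≤ n)
    (h2 : ∀ v : Fin n, (G.induce {w | w ≠ v}).Connected)
    (hp : ∀ M : Set (Fin n), (∀ x, x ∉ M → ∀ y ∈ M, ∀ z ∈ M, (G.Adj x y ↔ G.Adj x z)) →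
      M.Subsingleton ∨ M = Set.univ) : False := by
  have : Nonempty (Fin n) := ⟨⟨0, by omega⟩⟩
  obtain ⟨v, hv⟩ := Finite.exists_max (fun w : Fin n => tau (e w))
  have third : ∀ a b : Fin n, ∃ c, c ≠ a ∧ c ≠ b := by
    intro a b
    by_contra h
    push Not at h
    have : (Finset.univ : Finset (Fin n)) ⊆ {a, b} := by
      intro c _
      by_cases hc : c = a
      · simp [hc]
      · simp [h c hc]
    have h1 := Finset.card_le_card this
    have h2 := Finset.card_le_two (a := a) (b := b)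
    rw [Finset.card_univ, Fintype.card_fin] at h1
    omega
  by_cases h0 : (e v).1 = 0
  · have hall : ∀ w, w ≠ v → G.Adj v w := by
      intro w hw
      rw [← e.map_adj_iff]
      have h1 := hv w
      have h2 : e w ≠ e v := fun h => hw (e.injective h)
      have h3 : (e w).1 ≠ (e v).1 ∨ (e w).2 ≠ (e v).2 := by
        by_contra h
        push Not at h
        exact h2 (Prod.ext h.1 h.2)
      simp only [tau] at h1
      simp only [Gam]
      split_ifs at h1 <;> omega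
    rcases hp {w | w ≠ v} (by
      intro x hx y hy z hz
      have : x = v := by simpa using hx
      rw [this]
      exact iff_of_true (hall y hy) (hall z hz)) with h | h
    · obtain ⟨a, ha, _⟩ := third v v
      obtain ⟨b, hb, hb'⟩ := third v a
      exact hb' (h hb ha)
    · have : v ∈ {w | w ≠ v} := by rw [h]; trivial
      exact this rfl
  · have huniq : ∀ a b, G.Adj v a → G.Adj v b → a = b := by
      intro a b ha hb
      rw [← e.map_adj_iff] at ha hb
      have h1 := hv a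
      have h2 := hv b
      apply e.injective
      simp only [tau] at h1 h2
      simp only [Gam] at ha hb
      apply Prod.ext
      · change (e a).1 = (e b).1
        split_ifs at h1 h2 <;> omega
      · change (e a).2 = (e b).2
        split_ifs at h1 h2 <;> omega
    obtain ⟨w, hw1, hw2⟩ : ∃ w, w ≠ v ∧ ∀ a, G.Adj v a → a = w := by
      by_cases h : ∃ a, G.Adj v a
      · obtain ⟨a, ha⟩ := h
        exact ⟨a, ha.ne', fun b hb => huniq b a hb ha⟩
      · obtain ⟨a, ha, _⟩ := third v v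
        exact ⟨a, ha, fun b hb => absurd ⟨b, hb⟩ h⟩
    obtain ⟨y, hy1, hy2⟩ := third v w
    obtain ⟨p⟩ := (h2 w).preconnected ⟨v, hw1.symm⟩ ⟨y, hy2⟩
    obtain ⟨b, hb⟩ : ∃ b : {x | x ≠ w}, (G.induce {x | x ≠ w}).Adj ⟨v, hw1.symm⟩ b := by
      refine ⟨p.snd, p.adj_snd (SimpleGraph.Walk.not_nil_of_ne ?_)⟩
      intro h
      exact hy1 (congrArg Subtype.val h).symm
    exact b.2 (hw2 b.1 hb)

/-- the invariant of `k`-expressions -/
def Inv {k : ℕ} (W : Finset ℕ) (m : ℕ) (S : Finset ℕ) (H : SimpleGraph ℕ) (ℓ : ℕ → Fin k) : Prop :=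
  (∀ u v, H.Adj u v → u ∈ S) ∧ ((S ∩ W).card ≤ m ∨ ∃ (T : Finset ℕ) (ℓ' : ℕ → Fin k), T ⊆ S ∧
    m < (T ∩ W).card ∧ (T ∩ W).card ≤ 2 * m ∧
    ∀ x ∈ T, ∀ y ∈ T, ℓ' x = ℓ' y → ℓ x = ℓ y ∧ ∀ z, z ∉ T → (H.Adj x z ↔ H.Adj y z))

lemma inv_empty {k : ℕ} (W : Finset ℕ) (m : ℕ) (ℓ : ℕ → Fin k) : Inv W m ∅ ⊥ ℓ :=
  ⟨by simp, Or.inl (by simp)⟩

lemma inv_single {k : ℕ} (W : Finset ℕ) {m : ℕ} (hm : 1 ≤ m) (i : ℕ) (ℓ : ℕ → Fin k) :
    Inv W m {i} ⊥ ℓ :=
  ⟨by simp, Or.inl (le_trans (Finset.card_le_card Finset.inter_subset_left) (by simpa using hm))⟩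

lemma inv_union {k : ℕ} (W : Finset ℕ) (m : ℕ) (S₁ S₂ : Finset ℕ) (H₁ H₂ : SimpleGraph ℕ)
    (ℓ₁ ℓ₂ : ℕ → Fin k) (h1 : Inv W m S₁ H₁ ℓ₁) (h2 : Inv W m S₂ H₂ ℓ₂) (hd : Disjoint S₁ S₂) :
    Inv W m (S₁ ∪ S₂) (H₁ ⊔ H₂) (fun v => if v ∈ S₁ then ℓ₁ v else ℓ₂ v) := by
  have hs : ∀ u v, (H₁ ⊔ H₂).Adj u v → u ∈ S₁ ∪ S₂ := by
    rintro u v (h | h)
    · exact Finset.mem_union_left _ (h1.1 u v h)
    · exact Finset.mem_union_right _ (h2.1 u v h)
  refine ⟨hs, ?_⟩
  rcases h1.2 with a1 | ⟨T, ℓ', t1, t2, t3, t4⟩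
  · rcases h2.2 with a2 | ⟨T, ℓ', t1, t2, t3, t4⟩
    · by_cases h : ((S₁ ∪ S₂) ∩ W).card ≤ m
      · exact Or.inl h
      · refine Or.inr ⟨S₁ ∪ S₂, fun v => if v ∈ S₁ then ℓ₁ v else ℓ₂ v, Finset.Subset.refl _,
          not_le.mp h, ?_, ?_⟩
        · rw [Finset.union_inter_distrib_right]
          have := Finset.card_union_le (S₁ ∩ W) (S₂ ∩ W)
          omega
        · intro x _ y _ hxy
          refine ⟨hxy, fun z hz => iff_of_false ?_ ?_⟩
          · exact fun h => hz (hs _ _ h.symm)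
          · exact fun h => hz (hs _ _ h.symm)
    · refine Or.inr ⟨T, ℓ', t1.trans Finset.subset_union_right, t2, t3, ?_⟩
      intro x hx y hy hxy
      have hx1 : x ∉ S₁ := Finset.disjoint_right.mp hd (t1 hx)
      have hy1 : y ∉ S₁ := Finset.disjoint_right.mp hd (t1 hy)
      refine ⟨by simp only [if_neg hx1, if_neg hy1]; exact (t4 x hx y hy hxy).1, fun z hz => ?_⟩
      have b1 : ¬ H₁.Adj x z := fun h => hx1 (h1.1 _ _ h)
      have b2 : ¬ H₁.Adj y z := fun h => hy1 (h1.1 _ _ h)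
      simp only [SimpleGraph.sup_adj, b1, b2, false_or]
      exact (t4 x hx y hy hxy).2 z hz
  · refine Or.inr ⟨T, ℓ', t1.trans Finset.subset_union_left, t2, t3, ?_⟩
    intro x hx y hy hxy
    refine ⟨by simp only [if_pos (t1 hx), if_pos (t1 hy)]; exact (t4 x hx y hy hxy).1,
      fun z hz => ?_⟩
    have b1 : ¬ H₂.Adj x z := fun h => Finset.disjoint_left.mp hd (t1 hx) (h2.1 _ _ h)
    have b2 : ¬ H₂.Adj y z := fun h => Finset.disjoint_left.mp hd (t1 hy) (h2.1 _ _ h)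
    simp only [SimpleGraph.sup_adj, b1, b2, or_false]
    exact (t4 x hx y hy hxy).2 z hz

lemma inv_join {k : ℕ} (W : Finset ℕ) (m : ℕ) (S : Finset ℕ) (H : SimpleGraph ℕ)
    (ℓ : ℕ → Fin k) (a b : Fin k) (h : Inv W m S H ℓ) :
    Inv W m S (H ⊔ SimpleGraph.fromRel (fun u v => u ∈ S ∧ v ∈ S ∧ ℓ u = a ∧ ℓ v = b)) ℓ := by
  constructor
  · rintro u v (h1 | h1)
    · exact h.1 u v h1
    · rw [SimpleGraph.fromRel_adj] at h1
      rcases h1.2 with h2 | h2
      · exact h2.1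
      · exact h2.2.1
  · rcases h.2 with a1 | ⟨T, ℓ', t1, t2, t3, t4⟩
    · exact Or.inl a1
    · refine Or.inr ⟨T, ℓ', t1, t2, t3, fun x hx y hy hxy => ⟨(t4 x hx y hy hxy).1, fun z hz => ?_⟩⟩
      have b1 : x ≠ z := fun h => hz (h ▸ hx)
      have b2 : y ≠ z := fun h => hz (h ▸ hy)
      simp only [SimpleGraph.sup_adj, SimpleGraph.fromRel_adj, (t4 x hx y hy hxy).2 z hz,
        (t4 x hx y hy hxy).1, t1 hx, t1 hy, ne_eq, b1, b2]

lemma inv_relabel {k : ℕ} (W : Finset ℕ) (m : ℕ) (S : Finset ℕ) (H : SimpleGraph ℕ)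
    (ℓ : ℕ → Fin k) (a b : Fin k) (h : Inv W m S H ℓ) :
    Inv W m S H (fun v => if ℓ v = a then b else ℓ v) := by
  refine ⟨h.1, ?_⟩
  rcases h.2 with a1 | ⟨T, ℓ', t1, t2, t3, t4⟩
  · exact Or.inl a1
  · refine Or.inr ⟨T, ℓ', t1, t2, t3, fun x hx y hy hxy => ⟨?_, (t4 x hx y hy hxy).2⟩⟩
    simp only [(t4 x hx y hy hxy).1]

lemma lower {k : ℕ} (T : ℕ × ℕ → Prop) [DecidablePred T] (ℓ : ℕ × ℕ → Fin k)
    (h1 : k + 1 < ((Finset.range (3 * k + 3)).filter (fun i => T (i + 1, 0))).card)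
    (h2 : ((Finset.range (3 * k + 3)).filter (fun i => T (i + 1, 0))).card ≤ 2 * (k + 1))
    (h3 : ∀ x y z : ℕ × ℕ, x.1 ≤ 3 * k + 3 → y.1 ≤ 3 * k + 3 → z.1 ≤ 3 * k + 3 →
      x.2 < 2 * k + 1 → y.2 < 2 * k + 1 → z.2 < 2 * k + 1 → T x → T y → ¬ T z → ℓ x = ℓ y →
      (Gam.Adj x z ↔ Gam.Adj y z)) : False := by
  classical
  let cut : ℕ → Prop := fun i => ∃ p : ℕ × ℕ, p.1 < 2 * k + 1 ∧ p.2 < 2 * k + 1 ∧
    (p.1 + 1 = p.2 ∨ p.2 + 1 = p.1) ∧ T (i + 1, p.1) ∧ ¬ T (i + 1, p.2)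
  have hcut : ((Finset.range (3 * k + 3)).filter cut).card ≤ k := by
    choose! f hf using fun i (h : cut i) => h
    have := Finset.card_le_card_of_injOn (s := (Finset.range (3 * k + 3)).filter cut)
      (t := Finset.univ) (fun i => ℓ (i + 1, (f i).1)) (fun _ _ => Finset.mem_univ _) (by
        intro i hi j hj hij
        simp only [Finset.coe_filter, Finset.mem_range, Set.mem_ofPred_eq] at hi hj
        obtain ⟨a1, a2, a3, a4, a5⟩ := hf i hi.2
        obtain ⟨b1, b2, b3, b4, b5⟩ := hf j hj.2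
        have := h3 (i + 1, (f i).1) (j + 1, (f j).1) (i + 1, (f i).2) (by simp only; omega)
          (by simp only; omega) (by simp only; omega) a1 b1 a2 a4 b4 a5 hij
        have := (adj_vv _ _ _ _).mp (this.mp ((adj_vv _ _ _ _).mpr ⟨rfl, a3⟩))
        omega)
    simpa using this
  have hrow : ∀ i, ¬ cut i → ∀ j, j < 2 * k + 1 → (T (i + 1, j) ↔ T (i + 1, 0)) := by
    intro i hi j
    induction j with
    | zero => intro _; rfl
    | succ j ih =>
      intro hj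
      rw [← ih (by omega)]
      constructor
      · intro h
        by_contra h'
        exact hi ⟨(j + 1, j), hj, by simp only; omega, Or.inr rfl, h, h'⟩
      · intro h
        by_contra h'
        exact hi ⟨(j, j + 1), by simp only; omega, hj, Or.inl rfl, h, h'⟩
  obtain ⟨a, ha1, ha2⟩ := Finset.exists_mem_notMem_of_card_lt_card
    (s := (Finset.range (3 * k + 3)).filter cut)
    (t := (Finset.range (3 * k + 3)).filter (fun i => T (i + 1, 0))) (by omega)
  obtain ⟨b, hb1, hb2⟩ := Finset.exists_mem_notMem_of_card_lt_card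
    (s := (Finset.range (3 * k + 3)).filter cut)
    (t := (Finset.range (3 * k + 3)).filter (fun i => ¬ T (i + 1, 0))) (by
      have := Finset.card_filter_add_card_filter_not (s := Finset.range (3 * k + 3))
        (fun i => T (i + 1, 0))
      rw [Finset.card_range] at this
      omega)
  simp only [Finset.mem_filter, Finset.mem_range, not_and] at ha1 ha2 hb1 hb2
  have hA : ∀ j, j < 2 * k + 1 → T (a + 1, j) := fun j hj => (hrow a (ha2 ha1.1) j hj).mpr ha1.2
  have hB : ∀ j, j < 2 * k + 1 → ¬ T (b + 1, j) :=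
    fun j hj h => hb1.2 ((hrow b (hb2 hb1.1) j hj).mp h)
  have c1 : ((Finset.range (2 * k + 1)).filter (fun j => T (0, j))).card ≤ k := by
    have := Finset.card_le_card_of_injOn (s := (Finset.range (2 * k + 1)).filter (fun j => T (0, j)))
      (t := Finset.univ) (fun j => ℓ (0, j)) (fun _ _ => Finset.mem_univ _) (by
        intro i hi j hj hij
        simp only [Finset.coe_filter, Finset.mem_range, Set.mem_ofPred_eq] at hi hj
        have e1 := h3 (0, i) (0, j) (b + 1, i) (by simp) (by simp) (by simp only; omega)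
          hi.1 hj.1 hi.1 hi.2 hj.2 (hB i hi.1) hij
        have e2 := h3 (0, i) (0, j) (b + 1, j) (by simp) (by simp) (by simp only; omega)
          hi.1 hj.1 hj.1 hi.2 hj.2 (hB j hj.1) hij
        rw [adj_uv, adj_uv] at e1 e2
        exact le_antisymm (e1.mp le_rfl) (e2.mpr le_rfl))
    simpa using this
  have c2 : ((Finset.range (2 * k + 1)).filter (fun j => ¬ T (0, j))).card ≤ k := by
    have := Finset.card_le_card_of_injOn
      (s := (Finset.range (2 * k + 1)).filter (fun j => ¬ T (0, j)))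
      (t := Finset.univ) (fun j => ℓ (a + 1, j)) (fun _ _ => Finset.mem_univ _) (by
        intro i hi j hj hij
        simp only [Finset.coe_filter, Finset.mem_range, Set.mem_ofPred_eq] at hi hj
        have e1 := h3 (a + 1, i) (a + 1, j) (0, i) (by simp only; omega) (by simp only; omega)
          (by simp) hi.1 hj.1 hi.1 (hA i hi.1) (hA j hj.1) hi.2 hij
        have e2 := h3 (a + 1, i) (a + 1, j) (0, j) (by simp only; omega) (by simp only; omega)
          (by simp) hi.1 hj.1 hj.1 (hA i hi.1) (hA j hj.1) hj.2 hij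
        rw [adj_vu, adj_vu] at e1 e2
        exact le_antisymm (e2.mpr le_rfl) (e1.mp le_rfl))
    simpa using this
  have := Finset.card_filter_add_card_filter_not (s := Finset.range (2 * k + 1))
    (fun j => T (0, j))
  rw [Finset.card_range] at this
  omega

def emb (k : ℕ) : Fin ((3 * k + 4) * (2 * k + 1)) ↪ ℕ × ℕ where
  toFun x := (x.1 / (2 * k + 1), x.1 % (2 * k + 1))
  inj' x y h := by
    apply Fin.ext
    have h1 := congrArg Prod.fst h
    have h2 := congrArg Prod.snd h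
    simp only at h1 h2
    rw [← Nat.div_add_mod x.1 (2 * k + 1), ← Nat.div_add_mod y.1 (2 * k + 1), h1, h2]

lemma not_inv (k : ℕ) (ℓ : ℕ → Fin k) :
    ¬ Inv ((Finset.range (3 * k + 3)).image (fun i => (2 * k + 1) * (i + 1) + 0)) (k + 1)
      (Finset.range ((3 * k + 4) * (2 * k + 1))) ((Gam.comap (emb k)).map Fin.valEmbedding) ℓ := by
  classical
  let c : ℕ × ℕ → ℕ := fun p => (2 * k + 1) * p.1 + p.2
  have hc : ∀ p : ℕ × ℕ, p.1 ≤ 3 * k + 3 → p.2 < 2 * k + 1 →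
      ∃ x : Fin ((3 * k + 4) * (2 * k + 1)), x.1 = c p ∧ emb k x = p := by
    intro p h1 h2
    refine ⟨⟨c p, ?_⟩, rfl, ?_⟩
    · simp only [c]; nlinarith
    · apply Prod.ext
      · change ((2 * k + 1) * p.1 + p.2) / (2 * k + 1) = p.1
        rw [Nat.mul_add_div (by omega), Nat.div_eq_of_lt h2, add_zero]
      · change ((2 * k + 1) * p.1 + p.2) % (2 * k + 1) = p.2
        rw [Nat.mul_add_mod, Nat.mod_eq_of_lt h2]
  have hinj : Function.Injective (fun i : ℕ => (2 * k + 1) * (i + 1) + 0) := by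
    intro i j h
    simp only [add_zero] at h
    have := Nat.eq_of_mul_eq_mul_left (by omega) h
    omega
  have hcard : ∀ T : Finset ℕ,
      (T ∩ (Finset.range (3 * k + 3)).image (fun i => (2 * k + 1) * (i + 1) + 0)).card =
      ((Finset.range (3 * k + 3)).filter (fun i => c (i + 1, 0) ∈ T)).card := by
    intro T
    rw [← Finset.card_image_of_injective ((Finset.range (3 * k + 3)).filter _) hinj]
    congr 1
    ext x
    simp only [Finset.mem_inter, Finset.mem_image, Finset.mem_filter, c]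
    constructor
    · rintro ⟨h1, i, h2, rfl⟩
      exact ⟨i, ⟨h2, h1⟩, rfl⟩
    · rintro ⟨i, ⟨h2, h1⟩, rfl⟩
      exact ⟨h1, i, h2, rfl⟩
  rintro ⟨_, h | ⟨T, ℓ', _, t2, t3, t4⟩⟩
  · rw [hcard, Finset.filter_true_of_mem, Finset.card_range] at h
    · omega
    · intro i hi
      simp only [Finset.mem_range, c] at hi ⊢
      nlinarith
  · rw [hcard] at t2 t3
    refine lower (fun p => c p ∈ T) (fun p => ℓ' (c p)) t2 t3 ?_
    intro x y z x1 y1 z1 x2 y2 z2 hx hy hz hl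
    have := (t4 _ hx _ hy hl).2 _ hz
    obtain ⟨x', x3, x4⟩ := hc x x1 x2
    obtain ⟨y', y3, y4⟩ := hc y y1 y2
    obtain ⟨z', z3, z4⟩ := hc z z1 z2
    rw [← x3, ← y3, ← z3] at this
    have e : ∀ u v, ((Gam.comap (emb k)).map Fin.valEmbedding).Adj u.1 v.1 ↔
        Gam.Adj (emb k u) (emb k v) := fun u v =>
      SimpleGraph.map_adj_apply (G := Gam.comap (emb k)) (f := Fin.valEmbedding) (a := u) (b := v)
    rw [e, e, x4, y4, z4] at this
    exact this

end Pool.Agent.H27.CliqueWidth
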