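import Mathlib

set_option autoImplicit false

namespace Pool.Agent.H27.ConvexDom

open Set Cardinal TopologicalSpace

lemma mk_closed_le (X : Type) [TopologicalSpace X] [SecondCountableTopology X] :
    Cardinal.mk {s : Set X // IsClosed s} ≤ Cardinal.continuum := by
  obtain ⟨B, hc, _, hB⟩ := exists_countable_basis X
  have : Countable B := hc.to_subtype
  have h1 : Cardinal.mk {s : Set X // IsClosed s} ≤ Cardinal.mk (Set B) := by
    apply Cardinal.mk_le_of_injective (f := fun s => {b : B | (b : Set X) ⊆ s.1ᶜ})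
    intro s t h
    apply Subtype.ext
    apply compl_injective
    rw [hB.open_eq_sUnion' s.2.isOpen_compl, hB.open_eq_sUnion' t.2.isOpen_compl]
    congr 1
    ext b
    simp only [mem_ofPred_eq]
    refine and_congr_right (fun hb => ?_)
    have := congrArg (fun S : Set B => (⟨b, hb⟩ : B) ∈ S) h
    simpa using this
  refine le_trans h1 ?_
  rw [Cardinal.mk_set, ← Cardinal.two_power_aleph0]
  exact Cardinal.power_le_power_left two_ne_zero Cardinal.mk_le_aleph0

lemma exists_inj_sphere (n : ℕ) (hn : 2 ≤ n) :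
    ∃ φ : ℝ → EuclideanSpace ℝ (Fin n), Function.Injective φ ∧ ∀ t, ‖φ t‖ = 1 := by
  let i0 : Fin n := ⟨0, by omega⟩
  let i1 : Fin n := ⟨1, by omega⟩
  have h01 : i0 ≠ i1 := by simp [i0, i1]
  let v : ℝ → EuclideanSpace ℝ (Fin n) := fun t =>
    EuclideanSpace.single i0 1 + EuclideanSpace.single i1 t
  have hv0 : ∀ t, v t i0 = 1 := by intro t; simp [v, h01]
  have hv1 : ∀ t, v t i1 = t := by intro t; simp [v, h01.symm]
  have hne : ∀ t, v t ≠ 0 := by
    intro t h
    have := hv0 t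
    rw [h] at this
    simp at this
  refine ⟨fun t => ‖v t‖⁻¹ • v t, ?_, fun t => norm_smul_inv_norm (𝕜 := ℝ) (hne t)⟩
  intro s t h
  have a0 := congrArg (fun w : EuclideanSpace ℝ (Fin n) => w i0) h
  have a1 := congrArg (fun w : EuclideanSpace ℝ (Fin n) => w i1) h
  simp only [PiLp.smul_apply, smul_eq_mul, hv0, hv1, mul_one] at a0 a1
  rw [a0] at a1
  exact mul_left_cancel₀ (inv_ne_zero (norm_ne_zero_iff.mpr (hne t))) a1

theorem exists_convex (n : ℕ) (hn : 2 ≤ n) :
    ∃ C : Set (EuclideanSpace ℝ (Fin n)), C.Nonempty ∧ Convex ℝ C ∧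
      ∀ Γ : Set (EuclideanSpace ℝ (Fin n) × EuclideanSpace ℝ (Fin n)), IsClosed Γ →
        Prod.fst '' Γ ≠ C ∧ Prod.snd '' Γ ≠ C := by
  obtain ⟨φ, hφ, hn1⟩ := exists_inj_sphere n hn
  by_contra hcon
  push Not at hcon
  let E := EuclideanSpace ℝ (Fin n)
  let C : Set ℝ → Set E := fun S => Metric.ball 0 1 ∪ φ '' S
  have hCinj : Function.Injective C := by
    have key : ∀ S t, φ t ∈ C S ↔ t ∈ S := by
      intro S t
      simp only [C, mem_union, mem_ball_zero_iff, hn1, lt_self_iff_false, false_or]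
      exact hφ.mem_set_image
    intro S T h
    ext t
    rw [← key S t, h, key]
  have hconv : ∀ S, Convex ℝ (C S) := by
    intro S
    rw [convex_iff_pairwise_pos]
    have hsub : C S ⊆ Metric.closedBall 0 1 := by
      rintro x (hx | ⟨t, _, rfl⟩)
      · exact Metric.ball_subset_closedBall hx
      · simp [hn1]
    intro x hx y hy hxy a b ha hb hab
    exact Or.inl (combo_mem_ball_of_ne (hsub hx) (hsub hy) hxy ha hb hab)
  have hex : ∀ S, ∃ Γ : {s : Set (E × E) // IsClosed s}, Prod.fst '' Γ.1 = C S := by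
    intro S
    obtain ⟨Γ, hΓ, h⟩ := hcon (C S) ⟨0, Or.inl (by simp)⟩ (hconv S)
    by_cases h1 : Prod.fst '' Γ = C S
    · exact ⟨⟨Γ, hΓ⟩, h1⟩
    · refine ⟨⟨Prod.swap ⁻¹' Γ, hΓ.preimage continuous_swap⟩, ?_⟩
      rw [← h h1]
      ext x
      constructor
      · rintro ⟨p, hp, rfl⟩
        exact ⟨p.swap, hp, rfl⟩
      · rintro ⟨p, hp, rfl⟩
        exact ⟨p.swap, hp, rfl⟩
  choose F hF using hex
  have hFinj : Function.Injective F := by
    intro S T h
    apply hCinj
    rw [← hF S, ← hF T, h]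
  have h1 := le_trans (Cardinal.mk_le_of_injective hFinj) (mk_closed_le (E × E))
  rw [Cardinal.mk_set, Cardinal.mk_real] at h1
  exact absurd h1 (not_le.mpr (Cardinal.cantor _))

end Pool.Agent.H27.ConvexDom
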