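import Mathlib

set_option autoImplicit false

namespace Pool.Agent.H27.DRefl

universe u

/-- The specialization order: `x ≤ y` iff `x` lies in the closure of `{y}`. -/
def SpecLE {X : Type u} [TopologicalSpace X] (x y : X) : Prop := x ∈ closure ({y} : Set X)

/-- `s` is a supremum (least upper bound) of `D` in the specialization order. -/
def IsSpecSup {X : Type u} [TopologicalSpace X] (D : Set X) (s : X) : Prop :=
  (∀ d ∈ D, SpecLE d s) ∧ ∀ t, (∀ d ∈ D, SpecLE d t) → SpecLE s t

/-- A `d`-space (monotone convergence space). -/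
def IsDSpace (X : Type u) [TopologicalSpace X] : Prop :=
  T0Space X ∧ ∀ D : Set X, D.Nonempty → DirectedOn SpecLE D →
    (∃ s, IsSpecSup D s) ∧
      ∀ s, IsSpecSup D s → ∀ U : Set X, IsOpen U → s ∈ U → (D ∩ U).Nonempty

/-- `(Y, μ)` is a `d`-reflection of `X`. -/
def IsDReflection (X Y : Type u) [TopologicalSpace X] [TopologicalSpace Y] (μ : X → Y) : Prop :=
  IsDSpace Y ∧ Continuous μ ∧
    ∀ (Z : Type u) [TopologicalSpace Z], IsDSpace Z → ∀ f : X → Z, Continuous f →
      ∃! g : Y → Z, Continuous g ∧ g ∘ μ = f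

end Pool.Agent.H27.DRefl
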