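import Mathlib
import Pool.Agent.H27.DRefl

set_option autoImplicit false

namespace Pool.Agent.H27.DRefl

universe u

open Topology

section basic

variable {X Y Z : Type u} [TopologicalSpace X] [TopologicalSpace Y] [TopologicalSpace Z]

lemma specLE_iff {x y : X} : SpecLE x y ↔ ∀ U : Set X, IsOpen U → x ∈ U → y ∈ U := by
  unfold SpecLE
  rw [← specializes_iff_mem_closure, specializes_iff_forall_open]

lemma eq_of_opens [T0Space X] {x y : X} (h : ∀ U : Set X, IsOpen U → (x ∈ U ↔ y ∈ U)) : x = y :=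
  (inseparable_iff_forall_isOpen.mpr h).eq

/-- `s` is the limit of the directed set `D` -/
def DLim (D : Set X) (s : X) : Prop :=
  D.Nonempty ∧ DirectedOn SpecLE D ∧ ∀ U : Set X, IsOpen U → (s ∈ U ↔ ∃ d ∈ D, d ∈ U)

lemma isDSpace_iff : IsDSpace X ↔
    T0Space X ∧ ∀ D : Set X, D.Nonempty → DirectedOn SpecLE D → ∃ s, DLim D s := by
  constructor
  · rintro ⟨h0, h⟩
    refine ⟨h0, fun D hne hd => ?_⟩
    obtain ⟨⟨s, hs⟩, h2⟩ := h D hne hd
    refine ⟨s, hne, hd, fun U hU => ⟨fun hsU => ?_, ?_⟩⟩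
    · obtain ⟨d, h3, h4⟩ := h2 s hs U hU hsU
      exact ⟨d, h3, h4⟩
    · rintro ⟨d, h3, h4⟩
      exact specLE_iff.mp (hs.1 d h3) U hU h4
  · rintro ⟨h0, h⟩
    refine ⟨h0, fun D hne hd => ?_⟩
    obtain ⟨s, _, _, hs⟩ := h D hne hd
    have hub : ∀ d ∈ D, SpecLE d s := fun d hd =>
      specLE_iff.mpr (fun U hU hdU => (hs U hU).mpr ⟨d, hd, hdU⟩)
    refine ⟨⟨s, hub, fun t ht => specLE_iff.mpr (fun U hU hsU => ?_)⟩, ?_⟩
    · obtain ⟨d, h3, h4⟩ := (hs U hU).mp hsU
      exact specLE_iff.mp (ht d h3) U hU h4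
    · intro t ht U hU htU
      obtain ⟨d, h3, h4⟩ := (hs U hU).mp (specLE_iff.mp (ht.2 s hub) U hU htU)
      exact ⟨d, h3, h4⟩

lemma SpecLE.map {g : X → Y} (hg : Continuous g) {x y : X} (h : SpecLE x y) :
    SpecLE (g x) (g y) :=
  specLE_iff.mpr (fun U hU hx => specLE_iff.mp h (g ⁻¹' U) (hU.preimage hg) hx)

lemma directed_image {g : X → Y} {D : Set X} (hD : DirectedOn SpecLE D)
    (hg : ∀ x ∈ D, ∀ y ∈ D, SpecLE x y → SpecLE (g x) (g y)) : DirectedOn SpecLE (g '' D) := by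
  rintro _ ⟨a, ha, rfl⟩ _ ⟨b, hb, rfl⟩
  obtain ⟨c, hc, h1, h2⟩ := hD a ha b hb
  exact ⟨g c, ⟨c, hc, rfl⟩, hg a ha c hc h1, hg b hb c hc h2⟩

lemma DLim.map {g : X → Y} (hg : Continuous g) {D : Set X} {s : X} (h : DLim D s) :
    DLim (g '' D) (g s) := by
  refine ⟨h.1.image g, directed_image h.2.1 (fun x _ y _ hxy => hxy.map hg), fun U hU => ?_⟩
  rw [← Set.mem_preimage, h.2.2 _ (hU.preimage hg)]
  simp

/-- closed under limits of directed sets -/
def DClosed (C : Set X) : Prop := ∀ D s, D ⊆ C → DLim D s → s ∈ C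

/-- `μ` has `d`-dense range -/
def DDense (μ : X → Y) : Prop := ∀ C : Set Y, DClosed C → (∀ x, μ x ∈ C) → ∀ y, y ∈ C

lemma ext_of_dense {μ : X → Y} (hd : DDense μ) [T0Space Z] {g h : Y → Z} (hg : Continuous g)
    (hh : Continuous h) (e : g ∘ μ = h ∘ μ) : g = h := by
  funext y
  refine hd {y | g y = h y} ?_ (fun x => congrFun e x) y
  intro D s hD hs
  apply eq_of_opens
  intro U hU
  rw [(hs.map hg).2.2 U hU, (hs.map hh).2.2 U hU, Set.image_congr hD]

lemma refl_of {μ : X → Y} (hY : IsDSpace Y) (hi : IsInducing μ) (hd : DDense μ) :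
    IsDReflection X Y μ := by
  refine ⟨hY, hi.continuous, fun Z _ hZ f hf => ?_⟩
  have := hZ.1
  have hex : ∀ V : Set Z, IsOpen V → ∃ W : Set Y, IsOpen W ∧ μ ⁻¹' W = f ⁻¹' V :=
    fun V hV => hi.isOpen_iff.mp (hV.preimage hf)
  choose! e he1 he2 using hex
  have hall : ∀ y, ∃ z, ∀ V : Set Z, IsOpen V → (z ∈ V ↔ y ∈ e V) := by
    apply hd {y | ∃ z, ∀ V : Set Z, IsOpen V → (z ∈ V ↔ y ∈ e V)}
    · intro D s hD hs
      have hne : Nonempty Z := by
        obtain ⟨d, hd⟩ := hs.1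
        exact ⟨(hD hd).choose⟩
      choose! z hz using hD
      have hdir : DirectedOn SpecLE (z '' D) := by
        refine directed_image hs.2.1 (fun a ha b hb hab => specLE_iff.mpr (fun V hV haV => ?_))
        rw [hz hb V hV]
        exact specLE_iff.mp hab _ (he1 V hV) ((hz ha V hV).mp haV)
      obtain ⟨t, ht⟩ := (isDSpace_iff.mp hZ).2 _ (hs.1.image z) hdir
      refine ⟨t, fun V hV => ?_⟩
      rw [ht.2.2 V hV, hs.2.2 _ (he1 V hV)]
      constructor
      · rintro ⟨_, ⟨d, hd, rfl⟩, h⟩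
        exact ⟨d, hd, (hz hd V hV).mp h⟩
      · rintro ⟨d, hd, h⟩
        exact ⟨_, ⟨d, hd, rfl⟩, (hz hd V hV).mpr h⟩
    · intro x
      refine ⟨f x, fun V hV => ?_⟩
      rw [← Set.mem_preimage, ← he2 V hV, Set.mem_preimage]
  choose g hg using hall
  have hgc : Continuous g := by
    rw [continuous_def]
    intro V hV
    have : g ⁻¹' V = e V := Set.ext (fun y => hg y V hV)
    rw [this]
    exact he1 V hV
  have hgf : g ∘ μ = f := by
    funext x
    apply eq_of_opens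
    intro V hV
    rw [Function.comp_apply, hg _ V hV, ← Set.mem_preimage, he2 V hV, Set.mem_preimage]
  exact ⟨g, ⟨hgc, hgf⟩, fun h hh => ext_of_dense hd hh.1 hgc (hh.2.trans hgf.symm)⟩

lemma sierp : IsDSpace (ULift.{u} Prop) := by
  have : T0Space (ULift.{u} Prop) := Homeomorph.ulift.symm.t0Space
  rw [isDSpace_iff]
  refine ⟨this, fun D hne hd => ?_⟩
  by_cases h : ULift.up True ∈ D
  · refine ⟨ULift.up True, hne, hd, fun U hU => ⟨fun h1 => ⟨_, h, h1⟩, ?_⟩⟩
    rintro ⟨⟨p⟩, _, h2⟩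
    by_cases hp : p
    · rwa [eq_true hp] at h2
    · rw [eq_false hp] at h2
      have h3 : ULift.up ⁻¹' U ∈ nhds False := (hU.preimage continuous_uliftUp).mem_nhds h2
      rw [nhds_false, Filter.mem_top] at h3
      exact (Set.eq_univ_iff_forall.mp h3) True
  · obtain ⟨d, hd0⟩ := hne
    have key : ∀ a ∈ D, a = ULift.up False := by
      rintro ⟨p⟩ ha
      by_cases hp : p
      · rw [eq_true hp] at ha; exact absurd ha h
      · rw [eq_false hp]
    refine ⟨d, ⟨d, hd0⟩, hd, fun U hU => ⟨fun h1 => ⟨_, hd0, h1⟩, ?_⟩⟩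
    rintro ⟨a, ha, h2⟩
    rwa [key d hd0, ← key a ha]

lemma IsDReflection.inducing {μ : X → Y} (h : IsDReflection X Y μ) : IsInducing μ := by
  refine ⟨le_antisymm h.2.1.le_induced (fun U hU => ?_)⟩
  have hc : Continuous (fun x : X => ULift.up.{u} (x ∈ U)) :=
    continuous_uliftUp.comp (isOpen_iff_continuous_mem.mp hU)
  obtain ⟨g, ⟨hg, hgf⟩, _⟩ := h.2.2 _ sierp _ hc
  refine ⟨{y | (g y).down}, ?_, ?_⟩
  · exact isOpen_iff_continuous_mem.mpr (continuous_uliftDown.comp hg)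
  · ext x
    have := congrFun hgf x
    simp only [Function.comp_apply] at this
    simp [this]

lemma IsDReflection.dense {μ : X → Y} (h : IsDReflection X Y μ) : DDense μ := by
  intro C hC hμ y
  have := h.1.1
  have hCd : IsDSpace C := by
    rw [isDSpace_iff]
    refine ⟨inferInstance, fun D hne hd => ?_⟩
    obtain ⟨s, hs⟩ := (isDSpace_iff.mp h.1).2 _ (hne.image Subtype.val)
      (directed_image hd (fun a _ b _ hab => hab.map continuous_subtype_val))
    have hsC : s ∈ C := hC _ s (by rintro _ ⟨a, _, rfl⟩; exact a.2) hs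
    refine ⟨⟨s, hsC⟩, hne, hd, fun U hU => ?_⟩
    obtain ⟨W, hW, rfl⟩ := isOpen_induced_iff.mp hU
    rw [Set.mem_preimage, hs.2.2 W hW]
    constructor
    · rintro ⟨_, ⟨d, hd, rfl⟩, h⟩
      exact ⟨d, hd, h⟩
    · rintro ⟨d, hd, h⟩
      exact ⟨_, ⟨d, hd, rfl⟩, h⟩
  obtain ⟨r, ⟨hr, hrf⟩, _⟩ := h.2.2 C hCd (fun x => ⟨μ x, hμ x⟩) (h.2.1.subtype_mk _)
  have e : Subtype.val ∘ r = id := by
    refine (h.2.2 Y h.1 μ h.2.1).unique ⟨continuous_subtype_val.comp hr, ?_⟩ ⟨continuous_id, rfl⟩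
    rw [Function.comp_assoc, hrf]
    rfl
  have := congrFun e y
  simp only [Function.comp_apply, id] at this
  rw [← this]
  exact (r y).2

lemma refl_unique {W : Type u} [TopologicalSpace W] {μ : X → Y} {ν : X → W}
    (h1 : IsDReflection X Y μ) (h2 : IsDReflection X W ν) : ∃ e : W ≃ₜ Y, ∀ x, e (ν x) = μ x := by
  obtain ⟨g, ⟨hg, hgf⟩, _⟩ := h2.2.2 Y h1.1 μ h1.2.1
  obtain ⟨k, ⟨hk, hkf⟩, _⟩ := h1.2.2 W h2.1 ν h2.2.1
  have e1 : k ∘ g = id := by
    refine (h2.2.2 W h2.1 ν h2.2.1).unique ⟨hk.comp hg, ?_⟩ ⟨continuous_id, rfl⟩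
    rw [Function.comp_assoc, hgf, hkf]
  have e2 : g ∘ k = id := by
    refine (h1.2.2 Y h1.1 μ h1.2.1).unique ⟨hg.comp hk, ?_⟩ ⟨continuous_id, rfl⟩
    rw [Function.comp_assoc, hkf, hgf]
  exact ⟨⟨⟨g, k, congrFun e1, congrFun e2⟩, hg, hk⟩, congrFun hgf⟩

end basic

section prod

variable {ι : Type u} {X Y : ι → Type u} [∀ i, TopologicalSpace (X i)] [∀ i, TopologicalSpace (Y i)]

lemma specLE_pi {a b : ∀ i, Y i} : SpecLE a b ↔ ∀ i, SpecLE (a i) (b i) := by
  unfold SpecLE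
  simp only [← specializes_iff_mem_closure, specializes_pi]

lemma dlim_pi {D : Set (∀ i, Y i)} {s : ∀ i, Y i} (hne : D.Nonempty) (hd : DirectedOn SpecLE D)
    (h : ∀ i, ∀ U : Set (Y i), IsOpen U → (s i ∈ U ↔ ∃ d ∈ D, d i ∈ U)) : DLim D s := by
  classical
  refine ⟨hne, hd, fun U hU => ⟨fun hs => ?_, ?_⟩⟩
  · obtain ⟨F, V, h1, h2⟩ := isOpen_pi_iff.mp hU s hs
    have : ∀ G : Finset ι, G ⊆ F → ∃ d ∈ D, ∀ i ∈ G, d i ∈ V i := by
      intro G
      induction G using Finset.induction_on with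
      | empty => intro _; obtain ⟨d, hd⟩ := hne; exact ⟨d, hd, by simp⟩
      | insert j G _ ih =>
        intro hG
        obtain ⟨a, ha, ha'⟩ := ih (fun i hi => hG (Finset.mem_insert_of_mem hi))
        have hj := h1 j (hG (Finset.mem_insert_self _ _))
        obtain ⟨b, hb, hb'⟩ := (h j (V j) hj.1).mp hj.2
        obtain ⟨c, hc, h3, h4⟩ := hd a ha b hb
        refine ⟨c, hc, fun i hi => ?_⟩
        rcases Finset.mem_insert.mp hi with rfl | hi'
        · exact specLE_iff.mp (specLE_pi.mp h4 i) _ hj.1 hb'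
        · exact specLE_iff.mp (specLE_pi.mp h3 i) _ (h1 i (hG hi)).1 (ha' i hi')
    obtain ⟨d, hd, hd'⟩ := this F (Finset.Subset.refl _)
    exact ⟨d, hd, h2 (fun i hi => hd' i hi)⟩
  · rintro ⟨d, hd, hdU⟩
    refine specLE_iff.mp (specLE_pi.mpr (fun i => specLE_iff.mpr (fun V hV hdV => ?_))) U hU hdU
    exact (h i V hV).mpr ⟨d, hd, hdV⟩

lemma dspace_pi (h : ∀ i, IsDSpace (Y i)) : IsDSpace (∀ i, Y i) := by
  have := fun i => (h i).1
  rw [isDSpace_iff]
  refine ⟨inferInstance, fun D hne hd => ?_⟩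
  have hex : ∀ i, ∃ s, DLim ((fun d : ∀ i, Y i => d i) '' D) s := fun i =>
    (isDSpace_iff.mp (h i)).2 _ (hne.image _)
      (directed_image hd (fun a _ b _ hab => specLE_pi.mp hab i))
  choose s hs using hex
  refine ⟨s, dlim_pi hne hd (fun i U hU => ?_)⟩
  rw [(hs i).2.2 U hU]
  simp

lemma dense_pi {μ : ∀ i, X i → Y i} (h : ∀ i, DDense (μ i)) :
    DDense (fun (x : ∀ i, X i) i => μ i (x i)) := by
  classical
  intro C hC hμ y
  have step : ∀ F : Finset ι, ∀ z : ∀ i, Y i, (∀ i, i ∉ F → ∃ x, μ i x = z i) → z ∈ C := by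
    intro F
    induction F using Finset.induction_on with
    | empty =>
      intro z hz
      choose x hx using fun i => hz i (Finset.notMem_empty i)
      have : z = fun i => μ i (x i) := funext (fun i => (hx i).symm)
      rw [this]
      exact hμ x
    | insert j F _ ih =>
      intro z hz
      have := h j {t | Function.update z j t ∈ C} ?_ ?_ (z j)
      · simpa using this
      · intro D s hD hs
        have hc : Continuous (fun t : Y j => Function.update z j t) :=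
          continuous_const.update j continuous_id
        refine hC _ _ ?_ (hs.map hc)
        rintro _ ⟨t, ht, rfl⟩
        exact hD ht
      · intro x
        apply ih
        intro i hi
        by_cases hij : i = j
        · subst hij
          exact ⟨x, by simp⟩
        · rw [Function.update_of_ne hij]
          exact hz i (by simp [hij, hi])
  have hlow : ∀ i, ∃ x, SpecLE (μ i x) (y i) := by
    intro i
    refine h i {t | ∃ x, SpecLE (μ i x) t} ?_ (fun x => ⟨x, specLE_iff.mpr (fun _ _ h => h)⟩) (y i)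
    intro D s hD hs
    obtain ⟨d, hd⟩ := hs.1
    obtain ⟨x, hx⟩ := hD hd
    exact ⟨x, specLE_iff.mpr (fun U hU hxU =>
      (hs.2.2 U hU).mpr ⟨d, hd, specLE_iff.mp hx U hU hxU⟩)⟩
  choose x hx using hlow
  let w : Finset ι → ∀ i, Y i := fun F i => if i ∈ F then y i else μ i (x i)
  have hwle : ∀ F i, SpecLE (w F i) (y i) := by
    intro F i
    by_cases hi : i ∈ F
    · simp only [w, if_pos hi]; exact specLE_iff.mpr (fun _ _ h => h)
    · simp only [w, if_neg hi]; exact hx i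
  have hmono : ∀ F G : Finset ι, F ⊆ G → SpecLE (w F) (w G) := by
    intro F G hFG
    refine specLE_pi.mpr (fun i => ?_)
    by_cases hi : i ∈ G
    · have : w G i = y i := if_pos hi
      rw [this]; exact hwle F i
    · have h1 : w G i = μ i (x i) := if_neg hi
      have h2 : w F i = μ i (x i) := if_neg (fun h => hi (hFG h))
      rw [h1, h2]; exact specLE_iff.mpr (fun _ _ h => h)
  refine hC (Set.range w) y ?_ (dlim_pi (Set.range_nonempty w) ?_ ?_)
  · rintro _ ⟨F, rfl⟩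
    exact step F _ (fun i hi => ⟨x i, (if_neg hi).symm⟩)
  · rintro _ ⟨F, rfl⟩ _ ⟨G, rfl⟩
    exact ⟨w (F ∪ G), ⟨_, rfl⟩, hmono _ _ Finset.subset_union_left,
      hmono _ _ Finset.subset_union_right⟩
  · intro i U hU
    constructor
    · intro hy
      refine ⟨w {i}, ⟨_, rfl⟩, ?_⟩
      have : w {i} i = y i := if_pos (Finset.mem_singleton_self i)
      rwa [this]
    · rintro ⟨_, ⟨F, rfl⟩, hF⟩
      exact specLE_iff.mp (hwle F i) U hU hF

theorem refl_pi {μ : ∀ i, X i → Y i} (h : ∀ i, IsDReflection (X i) (Y i) (μ i)) :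
    IsDReflection (∀ i, X i) (∀ i, Y i) (fun x i => μ i (x i)) :=
  refl_of (dspace_pi (fun i => (h i).1)) (IsInducing.piMap (fun i => (h i).inducing))
    (dense_pi (fun i => (h i).dense))

end prod

end Pool.Agent.H27.DRefl
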