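import Mathlib

set_option autoImplicit false

namespace Pool.Agent.H27.Dens

open Filter Topology Finset

open Classical in
/-- number of elements of `S` in `[1, N]` -/
noncomputable def cnt (S : Set ℕ) (N : ℕ) : ℕ := ((Finset.Ioc 0 N).filter (· ∈ S)).card

lemma ncard_eq (S : Set ℕ) (N : ℕ) : (S ∩ Set.Icc 1 N).ncard = cnt S N := by
  classical
  unfold cnt
  rw [← Set.ncard_coe_finset]
  congr 1
  ext n
  simp only [Set.mem_inter_iff, Set.mem_Icc, Finset.coe_filter, Finset.mem_Ioc, Set.mem_setOf_eq]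
  constructor
  · rintro ⟨h1, h2, h3⟩; exact ⟨⟨h2, h3⟩, h1⟩
  · rintro ⟨⟨h2, h3⟩, h1⟩; exact ⟨h1, h2, h3⟩

def HasDens (S : Set ℕ) (d : ℝ) : Prop :=
  Tendsto (fun N : ℕ => (cnt S N : ℝ) / (N : ℝ)) atTop (𝓝 d)

lemma cnt_mono {S T : Set ℕ} (h : S ⊆ T) (N : ℕ) : cnt S N ≤ cnt T N := by
  classical
  unfold cnt
  apply Finset.card_le_card
  intro n hn
  simp only [Finset.mem_filter] at hn ⊢
  exact ⟨hn.1, h hn.2⟩

lemma cnt_union_le (S T : Set ℕ) (N : ℕ) : cnt (S ∪ T) N ≤ cnt S N + cnt T N := by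
  classical
  unfold cnt
  refine le_trans (Finset.card_le_card ?_) (Finset.card_union_le _ _)
  intro n hn
  simp only [Finset.mem_filter, Finset.mem_union, Set.mem_union] at hn ⊢
  rcases hn with ⟨h1, h2 | h2⟩
  · exact Or.inl ⟨h1, h2⟩
  · exact Or.inr ⟨h1, h2⟩

lemma cnt_union {S T : Set ℕ} (h : Disjoint S T) (N : ℕ) :
    cnt (S ∪ T) N = cnt S N + cnt T N := by
  classical
  unfold cnt
  rw [← Finset.card_union_of_disjoint]
  · congr 1
    ext n
    simp only [Finset.mem_filter, Finset.mem_union, Set.mem_union]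
    tauto
  · rw [Finset.disjoint_left]
    intro n h1 h2
    simp only [Finset.mem_filter] at h1 h2
    exact Set.disjoint_left.mp h h1.2 h2.2

lemma cnt_empty (N : ℕ) : cnt ∅ N = 0 := by
  classical
  unfold cnt
  simp

lemma cnt_univ (N : ℕ) : cnt Set.univ N = N := by
  classical
  unfold cnt
  simp

lemma HasDens.union {S T : Set ℕ} {d e : ℝ} (hS : HasDens S d) (hT : HasDens T e)
    (h : Disjoint S T) : HasDens (S ∪ T) (d + e) := by
  unfold HasDens at *
  have := hS.add hT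
  refine this.congr (fun N => ?_)
  rw [cnt_union h]
  push_cast
  ring

lemma HasDens.diff {S T : Set ℕ} {d e : ℝ} (hS : HasDens S d) (hT : HasDens T e)
    (h : T ⊆ S) : HasDens (S \ T) (d - e) := by
  unfold HasDens at *
  have := hS.sub hT
  refine this.congr (fun N => ?_)
  have h2 : cnt S N = cnt (S \ T) N + cnt T N := by
    rw [← cnt_union Set.disjoint_sdiff_left, Set.diff_union_of_subset h]
  rw [h2]
  push_cast
  ring

lemma hasDens_empty : HasDens ∅ 0 := by
  unfold HasDens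
  simp [cnt_empty]

lemma hasDens_biUnion {ι : Type*} (X : Finset ι) (C : ι → Set ℕ) (d : ι → ℝ)
    (hd : ∀ x ∈ X, HasDens (C x) (d x))
    (hdis : ∀ x ∈ X, ∀ y ∈ X, x ≠ y → Disjoint (C x) (C y)) :
    HasDens (⋃ x ∈ X, C x) (∑ x ∈ X, d x) := by
  classical
  induction X using Finset.induction_on with
  | empty => simpa using hasDens_empty
  | insert a s ha ih =>
    rw [Finset.sum_insert ha, Finset.set_biUnion_insert]
    apply HasDens.union (hd a (Finset.mem_insert_self _ _))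
    · apply ih
      · intro x hx; exact hd x (Finset.mem_insert_of_mem hx)
      · intro x hx y hy; exact hdis x (Finset.mem_insert_of_mem hx) y (Finset.mem_insert_of_mem hy)
    · rw [Set.disjoint_iUnion₂_right]
      intro y hy
      apply hdis a (Finset.mem_insert_self _ _) y (Finset.mem_insert_of_mem hy)
      rintro rfl
      exact ha hy

/-- dilation -/
def dil (s : ℕ) (B : Set ℕ) : Set ℕ := {n | ∃ m ∈ B, n = s * m}

lemma cnt_dil {s : ℕ} (hs : 0 < s) (B : Set ℕ) (N : ℕ) : cnt (dil s B) N = cnt B (N / s) := by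
  classical
  unfold cnt
  symm
  apply Finset.card_bij (fun m _ => s * m)
  · intro m hm
    simp only [Finset.mem_filter, Finset.mem_Ioc] at hm ⊢
    refine ⟨⟨Nat.mul_pos hs hm.1.1, ?_⟩, m, hm.2, rfl⟩
    have := (Nat.le_div_iff_mul_le hs).mp hm.1.2
    rwa [mul_comm]
  · intro a _ b _ h
    exact Nat.eq_of_mul_eq_mul_left hs h
  · intro n hn
    simp only [Finset.mem_filter, Finset.mem_Ioc] at hn
    obtain ⟨⟨h1, h2⟩, m, hm, rfl⟩ := hn
    refine ⟨m, ?_, rfl⟩
    simp only [Finset.mem_filter, Finset.mem_Ioc]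
    refine ⟨⟨Nat.pos_of_mul_pos_left h1, ?_⟩, hm⟩
    rw [Nat.le_div_iff_mul_le hs, mul_comm]
    exact h2

lemma tendsto_div_ratio {s : ℕ} (hs : 0 < s) :
    Tendsto (fun N : ℕ => ((N / s : ℕ) : ℝ) / (N : ℝ)) atTop (𝓝 (1 / s)) := by
  have h1 : Tendsto (fun N : ℕ => (1 : ℝ) / s - 1 / (N : ℝ)) atTop (𝓝 (1 / s - 0)) :=
    tendsto_const_nhds.sub tendsto_one_div_atTop_nhds_zero_nat
  rw [sub_zero] at h1
  have hs' : (0 : ℝ) < s := by exact_mod_cast hs
  refine tendsto_of_tendsto_of_tendsto_of_le_of_le' h1 tendsto_const_nhds ?_ ?_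
  · filter_upwards [eventually_gt_atTop 0] with N hN
    have hN' : (0 : ℝ) < N := by exact_mod_cast hN
    have h2 : N < s * (N / s + 1) := Nat.lt_mul_div_succ N hs
    have h3 : (N : ℝ) < s * ((N / s : ℕ) + 1) := by exact_mod_cast h2
    rw [le_div_iff₀ hN', sub_mul, one_div_mul_cancel hN'.ne', sub_le_iff_le_add, one_div,
      inv_mul_le_iff₀ hs']
    exact h3.le
  · filter_upwards [eventually_gt_atTop 0] with N hN
    have hN' : (0 : ℝ) < N := by exact_mod_cast hN
    have h2 : s * (N / s) ≤ N := Nat.mul_div_le N s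
    have h3 : (s : ℝ) * ((N / s : ℕ)) ≤ N := by exact_mod_cast h2
    rw [div_le_div_iff₀ hN' hs']
    linarith

lemma HasDens.dil {B : Set ℕ} {d : ℝ} (hB : HasDens B d) {s : ℕ} (hs : 0 < s) :
    HasDens (dil s B) (d / s) := by
  unfold HasDens at *
  have h1 : Tendsto (fun N : ℕ => N / s) atTop atTop := Nat.tendsto_div_const_atTop hs.ne'
  have h2 := (hB.comp h1).mul (tendsto_div_ratio hs)
  rw [mul_one_div] at h2
  refine h2.congr' ?_
  filter_upwards [eventually_ge_atTop s] with N hN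
  have h3 : 0 < N / s := Nat.div_pos hN hs
  have h4 : (0 : ℝ) < (N / s : ℕ) := by exact_mod_cast h3
  rw [cnt_dil hs]
  simp only [Function.comp]
  field_simp

lemma cnt_periodic_mul {S : Set ℕ} {Q : ℕ} (hp : ∀ n, n + Q ∈ S ↔ n ∈ S) (k : ℕ) :
    cnt S (k * Q) = k * cnt S Q := by
  classical
  have hper : Function.Periodic (fun n => n ∈ S) Q := fun n => propext (hp n)
  have key : ∀ n, ((Finset.Ioc n (n + Q)).filter (· ∈ S)).card = Q.count (· ∈ S) := by
    intro n
    rw [← Nat.filter_Ico_card_eq_of_periodic (n + 1) Q _ hper]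
    congr 2
    ext x
    simp only [Finset.mem_Ioc, Finset.mem_Ico]
    omega
  have h0 : cnt S Q = Q.count (· ∈ S) := by
    have := key 0
    rw [zero_add] at this
    exact this
  induction k with
  | zero => simp [cnt]
  | succ k ih =>
    have : cnt S ((k + 1) * Q) = cnt S (k * Q) + Q.count (· ∈ S) := by
      rw [← key (k * Q)]
      unfold cnt
      rw [← Finset.card_union_of_disjoint]
      · rw [← Finset.filter_union, Finset.Ioc_union_Ioc_eq_Ioc (Nat.zero_le _) (Nat.le_add_right _ _)]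
        congr 3
        ring
      · apply Finset.disjoint_filter_filter
        rw [Finset.disjoint_left]
        intro x h1 h2
        simp only [Finset.mem_Ioc] at h1 h2
        omega
    rw [this, ih, h0]
    ring

lemma cnt_mono_N (S : Set ℕ) {M N : ℕ} (h : M ≤ N) : cnt S M ≤ cnt S N := by
  classical
  unfold cnt
  apply Finset.card_le_card
  apply Finset.filter_subset_filter
  exact Finset.Ioc_subset_Ioc_right h

lemma hasDens_periodic {S : Set ℕ} {Q : ℕ} (hQ : 0 < Q) (hp : ∀ n, n + Q ∈ S ↔ n ∈ S) :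
    HasDens S ((cnt S Q : ℝ) / Q) := by
  unfold HasDens
  have h1 := (tendsto_div_ratio hQ).const_mul (cnt S Q : ℝ)
  have h2 := ((tendsto_div_ratio hQ).add tendsto_one_div_atTop_nhds_zero_nat).const_mul
    (cnt S Q : ℝ)
  rw [add_zero] at h2
  rw [mul_one_div] at h1 h2
  refine tendsto_of_tendsto_of_tendsto_of_le_of_le' h1 h2 ?_ ?_
  · filter_upwards [eventually_gt_atTop 0] with N hN
    have hN' : (0 : ℝ) < N := by exact_mod_cast hN
    have h3 : cnt S (N / Q * Q) ≤ cnt S N := cnt_mono_N S (Nat.div_mul_le_self N Q)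
    rw [cnt_periodic_mul hp] at h3
    have h4 : ((N / Q : ℕ) : ℝ) * cnt S Q ≤ cnt S N := by exact_mod_cast h3
    rw [← mul_div_assoc]
    apply div_le_div_of_nonneg_right _ hN'.le
    linarith
  · filter_upwards [eventually_gt_atTop 0] with N hN
    have hN' : (0 : ℝ) < N := by exact_mod_cast hN
    have h3 : cnt S N ≤ cnt S ((N / Q + 1) * Q) := by
      apply cnt_mono_N S
      have := Nat.lt_mul_div_succ N hQ
      rw [mul_comm]; exact this.le
    rw [cnt_periodic_mul hp] at h3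
    have h4 : (cnt S N : ℝ) ≤ (((N / Q : ℕ) : ℝ) + 1) * cnt S Q := by exact_mod_cast h3
    rw [← add_div, ← mul_div_assoc]
    apply div_le_div_of_nonneg_right _ hN'.le
    linarith

/-- a set approximable by sets with densities has a density -/
lemma exists_dens_of_approx (B : Set ℕ)
    (h : ∀ ε : ℝ, 0 < ε → ∃ (S E : Set ℕ) (r : ℝ), HasDens S r ∧ (∀ N, (cnt E N : ℝ) ≤ ε * N) ∧
      S ⊆ B ∪ E ∧ B ⊆ S ∪ E) : ∃ d, HasDens B d := by
  have hc : CauchySeq (fun N : ℕ => (cnt B N : ℝ) / (N : ℝ)) := by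
    rw [Metric.cauchySeq_iff]
    intro ε hε
    obtain ⟨S, E, r, hS, hE, h1, h2⟩ := h (ε / 4) (by linarith)
    unfold HasDens at hS
    rw [Metric.tendsto_atTop] at hS
    obtain ⟨N0, hN0⟩ := hS (ε / 4) (by linarith)
    have key : ∀ N, max N0 1 ≤ N → |(cnt B N : ℝ) / N - r| < ε / 2 := by
      intro N hN
      have hN1 : 1 ≤ N := le_trans (le_max_right _ _) hN
      have hN' : (0 : ℝ) < N := by exact_mod_cast hN1
      have a1 := hN0 N (le_trans (le_max_left _ _) hN)
      rw [Real.dist_eq] at a1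
      have a2 : cnt S N ≤ cnt B N + cnt E N := le_trans (cnt_mono h1 N) (cnt_union_le _ _ _)
      have a3 : cnt B N ≤ cnt S N + cnt E N := le_trans (cnt_mono h2 N) (cnt_union_le _ _ _)
      have a2' : (cnt S N : ℝ) ≤ cnt B N + cnt E N := by exact_mod_cast a2
      have a3' : (cnt B N : ℝ) ≤ cnt S N + cnt E N := by exact_mod_cast a3
      have a4 := hE N
      have a5 : |(cnt B N : ℝ) / N - (cnt S N : ℝ) / N| ≤ ε / 4 := by
        rw [← sub_div, abs_div, abs_of_pos hN', div_le_iff₀ hN', abs_le]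
        constructor <;> linarith
      have a6 := abs_sub_le ((cnt B N : ℝ) / N) ((cnt S N : ℝ) / N) r
      linarith
    refine ⟨max N0 1, fun m hm n hn => ?_⟩
    rw [Real.dist_eq]
    have b1 := key m hm
    have b2 := key n hn
    have b3 := abs_sub_le ((cnt B m : ℝ) / m) r ((cnt B n : ℝ) / n)
    rw [abs_sub_comm r] at b3
    linarith
  exact cauchySeq_tendsto_of_complete hc

/-- numbers with a square divisor `k ^ 2`, `k > K` -/
def bigSq (K : ℕ) : Set ℕ := {n | ∃ k, K < k ∧ k ^ 2 ∣ n}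

lemma cnt_bigSq {K : ℕ} (hK : 0 < K) (N : ℕ) : (cnt (bigSq K) N : ℝ) ≤ (1 / K) * N := by
  classical
  have h1 : cnt (bigSq K) N ≤ ∑ k ∈ Finset.Ioc K (K + N), N / k ^ 2 := by
    unfold cnt
    have : (Finset.Ioc 0 N).filter (· ∈ bigSq K) ⊆
        (Finset.Ioc K (K + N)).biUnion (fun k => (Finset.Ioc 0 N).filter (fun x => k ^ 2 ∣ x)) := by
      intro n hn
      simp only [Finset.mem_filter, Finset.mem_Ioc, Finset.mem_biUnion, bigSq,
        Set.mem_setOf_eq] at hn ⊢
      obtain ⟨⟨h1, h2⟩, k, hk, hd⟩ := hn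
      refine ⟨k, ⟨hk, ?_⟩, ⟨h1, h2⟩, hd⟩
      have := Nat.le_of_dvd h1 hd
      nlinarith
    refine le_trans (Finset.card_le_card this) (le_trans Finset.card_biUnion_le ?_)
    apply Finset.sum_le_sum
    intro k _
    rw [Nat.Ioc_filter_dvd_card_eq_div]
  have h2 : (cnt (bigSq K) N : ℝ) ≤ ∑ k ∈ Finset.Ioc K (K + N), ((N / k ^ 2 : ℕ) : ℝ) := by
    exact_mod_cast h1
  have h3 : ∑ k ∈ Finset.Ioc K (K + N), ((N / k ^ 2 : ℕ) : ℝ) ≤
      ∑ k ∈ Finset.Ioc K (K + N), ((k : ℝ) ^ 2)⁻¹ * N := by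
    apply Finset.sum_le_sum
    intro k _
    refine le_trans Nat.cast_div_le ?_
    push_cast
    rw [div_eq_inv_mul]
  rw [← Finset.sum_mul] at h3
  have h4 := sum_Ioc_inv_sq_le_sub (α := ℝ) hK.ne' (Nat.le_add_right K N)
  have h5 : (0 : ℝ) ≤ ((K + N : ℕ) : ℝ)⁻¹ := by positivity
  have h6 : (0 : ℝ) ≤ N := by positivity
  have h7 : (∑ k ∈ Finset.Ioc K (K + N), ((k : ℝ) ^ 2)⁻¹) ≤ 1 / K := by
    rw [one_div]; linarith
  exact le_trans h2 (le_trans h3 (mul_le_mul_of_nonneg_right h7 h6))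

end Pool.Agent.H27.Dens
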