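import Mathlib

set_option autoImplicit false

namespace Pool.Agent.H27.Diag

open Matrix Polynomial

lemma cp_diag {V K : Type} [Fintype V] [DecidableEq V] [Fintype K] [DecidableEq K] (A : Matrix V V ℤ)
    (P : Matrix V K ℤ) (Q : Matrix K V ℤ) (d : K → ℤ) (c : ℤ) (hc : c ≠ 0)
    (hk : Fintype.card V = Fintype.card K) (h1 : c • A = P * (diagonal d * Q)) (h2 : Q * P = c • 1) :
    (A.map (Int.castRingHom ℝ)).charpoly = ∏ k, (X - C (d k : ℝ)) := by
  have hc' : (c : ℝ) ≠ 0 := by exact_mod_cast hc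
  have e1 := congrArg (·.map (Int.castRingHom ℝ)) h1
  have e2 := congrArg (·.map (Int.castRingHom ℝ)) h2
  have sm : ∀ {I : Type} (M : Matrix I I ℤ), (c • M).map (Int.castRingHom ℝ) =
      (c : ℝ) • M.map (Int.castRingHom ℝ) := fun M => by
    ext i j; simp only [map_apply, Matrix.smul_apply, smul_eq_mul, map_mul, eq_intCast]
  simp only [Matrix.map_mul, sm, Matrix.map_one _ (map_zero _) (map_one _)] at e1 e2
  have e3 : A.map (Int.castRingHom ℝ) = P.map (Int.castRingHom ℝ) * ((c : ℝ)⁻¹ •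
      ((diagonal d).map (Int.castRingHom ℝ) * Q.map (Int.castRingHom ℝ))) := by
    rw [Matrix.mul_smul, ← e1, inv_smul_smul₀ hc']
  have e4 := charpoly_mul_comm' (P.map (Int.castRingHom ℝ)) ((c : ℝ)⁻¹ •
      ((diagonal d).map (Int.castRingHom ℝ) * Q.map (Int.castRingHom ℝ)))
  rw [← e3, hk, Matrix.smul_mul, Matrix.mul_assoc, e2] at e4
  rw [mul_left_cancel₀ (pow_ne_zero _ X_ne_zero) e4, ← charpoly_diagonal, Matrix.mul_smul,
    inv_smul_smul₀ hc', Matrix.mul_one, diagonal_map (map_zero _)]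
  rfl

lemma adj_map {V : Type} (G : SimpleGraph V) [DecidableRel G.Adj] :
    G.adjMatrix ℝ = (G.adjMatrix ℤ).map (Int.castRingHom ℝ) := by
  ext i j; simp [SimpleGraph.adjMatrix_apply]

end Pool.Agent.H27.Diag
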