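import Mathlib

set_option autoImplicit false

namespace Pool.Agent.H27.Disc

open Finset Classical

/-- `S` is bad: some unimodular sequence has bounded sums along all dilates of `S`. -/
def Bad (S : Set ℕ) : Prop :=
  ∃ a : ℕ → ℂ, (∀ k, ‖a k‖ = 1) ∧ ∃ C : ℝ, ∀ d n : ℕ, 1 ≤ d → 1 ≤ n →
    ‖∑ k ∈ (Icc 1 n).filter (fun k => k ∈ S), a (d * k)‖ ≤ C

lemma per (g : ℕ → ℂ) (T : ℕ) (hT : 0 < T) (hb : ∀ k, ‖g k‖ = 1)
    (hz : ∀ j, ∑ i ∈ range T, g (T * j + i) = 0) (K : ℕ) : ‖∑ k ∈ range K, g k‖ ≤ T := by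
  have h1 : ∀ j, ∑ k ∈ range (T * j), g k = 0 := by
    intro j
    induction j with
    | zero => simp
    | succ j ih => rw [mul_add, mul_one, sum_range_add, ih, hz, add_zero]
  rw [← Nat.div_add_mod K T, sum_range_add, h1, zero_add]
  refine (norm_sum_le _ _).trans ?_
  simp only [hb, sum_const, card_range, nsmul_eq_mul, mul_one]
  exact_mod_cast (Nat.mod_lt K hT).le

lemma bad_of (s : ℕ → ℕ) (hs : StrictMono s) (h0 : 1 ≤ s 0) (S : Set ℕ)
    (hS : ∀ k, 1 ≤ k → (k ∈ S ↔ ∃ i, s i = k)) (a : ℕ → ℂ) (ha : ∀ k, ‖a k‖ = 1) (T : ℕ)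
    (hT : 0 < T) (hz : ∀ d, 1 ≤ d → ∀ j, ∑ i ∈ range T, a (d * s (T * j + i)) = 0) : Bad S := by
  refine ⟨a, ha, T, fun d n hd _ => ?_⟩
  have hex : ∃ k, n < s k := ⟨n + 1, lt_of_lt_of_le (Nat.lt_succ_self n) (hs.id_le _)⟩
  have h1 : (Icc 1 n).filter (fun k => k ∈ S) = (range (Nat.find hex)).image s := by
    ext k
    simp only [mem_filter, mem_Icc, mem_image, mem_range, Nat.lt_find_iff, not_lt]
    constructor
    · rintro ⟨⟨h1, h2⟩, h3⟩
      obtain ⟨i, rfl⟩ := (hS k h1).mp h3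
      exact ⟨i, fun m hm => (hs.monotone hm).trans h2, rfl⟩
    · rintro ⟨i, hi, rfl⟩
      have h2 : 1 ≤ s i := h0.trans (hs.monotone (Nat.zero_le i))
      exact ⟨⟨h2, hi i le_rfl⟩, (hS _ h2).mpr ⟨i, rfl⟩⟩
  rw [h1, sum_image hs.injective.injOn]
  exact per (fun k => a (d * s k)) T hT (fun _ => ha _) (hz d hd) _

def chi (m : ℕ) : ℤ := if m % 8 < 4 then 1 else -1

lemma chi_mul (a b : ℕ) (ha : a % 2 = 1) (hb : b % 2 = 1) : chi (a * b) = chi a * chi b := by
  unfold chi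
  rw [Nat.mul_mod]
  have h1 : a % 8 = 1 ∨ a % 8 = 3 ∨ a % 8 = 5 ∨ a % 8 = 7 := by omega
  have h2 : b % 8 = 1 ∨ b % 8 = 3 ∨ b % 8 = 5 ∨ b % 8 = 7 := by omega
  rcases h1 with h1 | h1 | h1 | h1 <;> rcases h2 with h2 | h2 | h2 | h2 <;> simp [h1, h2]

def f (m : ℕ) : ℤ := chi (m / 2 ^ m.factorization 2)

lemma f_mul (a b : ℕ) (ha : a ≠ 0) (hb : b ≠ 0) : f (a * b) = f a * f b := by
  unfold f
  rw [Nat.ordCompl_mul]
  have h1 := Nat.not_dvd_ordCompl Nat.prime_two ha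
  have h2 := Nat.not_dvd_ordCompl Nat.prime_two hb
  exact chi_mul _ _ (by omega) (by omega)

lemma f_odd (m : ℕ) (h : m % 2 = 1) : f m = chi m := by
  unfold f
  rw [Nat.factorization_eq_zero_of_not_dvd (by omega)]
  simp

lemma f_two : f 2 = 1 := by
  unfold f
  rw [Nat.prime_two.factorization_self]
  rfl

lemma f_dbl (m k : ℕ) (hk : k ≠ 0) (h : m = 2 * k) : f m = f k := by
  rw [h, f_mul 2 k (by norm_num) hk, f_two, one_mul]

lemma f_pos (m : ℕ) (h : m % 2 = 1) (h' : m % 8 < 4) : f m = 1 := by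
  rw [f_odd m h, chi, if_pos h']

lemma f_neg (m : ℕ) (h : m % 2 = 1) (h' : ¬ m % 8 < 4) : f m = -1 := by
  rw [f_odd m h, chi, if_neg h']

lemma f_norm (m : ℕ) : ‖((f m : ℤ) : ℂ)‖ = 1 := by
  unfold f chi
  split_ifs <;> simp

lemma block_plus (j : ℕ) : ∑ i ∈ range 8, f ((8 * j + i + 1) ^ 2 + 1) = 0 := by
  obtain ⟨q, hq⟩ : ∃ q, q = j ^ 2 := ⟨_, rfl⟩
  have e : ∀ i, (8 * j + i + 1) ^ 2 + 1 = 64 * q + 16 * j * (i + 1) + ((i + 1) ^ 2 + 1) := by
    intro i; rw [hq]; ring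
  simp only [sum_range_succ, sum_range_zero, e]
  rw [f_dbl (64 * q + 16 * j * (0 + 1) + ((0 + 1) ^ 2 + 1)) (32 * q + 8 * j + 1) (by omega) (by omega),
    f_dbl (64 * q + 16 * j * (2 + 1) + ((2 + 1) ^ 2 + 1)) (32 * q + 24 * j + 5) (by omega) (by omega),
    f_dbl (64 * q + 16 * j * (4 + 1) + ((4 + 1) ^ 2 + 1)) (32 * q + 40 * j + 13) (by omega) (by omega),
    f_dbl (64 * q + 16 * j * (6 + 1) + ((6 + 1) ^ 2 + 1)) (32 * q + 56 * j + 25) (by omega) (by omega),
    f_pos (32 * q + 8 * j + 1) (by omega) (by omega),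
    f_neg (32 * q + 24 * j + 5) (by omega) (by omega),
    f_neg (32 * q + 40 * j + 13) (by omega) (by omega),
    f_pos (32 * q + 56 * j + 25) (by omega) (by omega),
    f_neg (64 * q + 16 * j * (1 + 1) + ((1 + 1) ^ 2 + 1)) (by omega) (by omega),
    f_pos (64 * q + 16 * j * (3 + 1) + ((3 + 1) ^ 2 + 1)) (by omega) (by omega),
    f_neg (64 * q + 16 * j * (5 + 1) + ((5 + 1) ^ 2 + 1)) (by omega) (by omega),
    f_pos (64 * q + 16 * j * (7 + 1) + ((7 + 1) ^ 2 + 1)) (by omega) (by omega)]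
  norm_num

theorem bad_plus : Bad {k | ∃ n : ℕ, 1 ≤ n ∧ k = n ^ 2 + 1} := by
  refine bad_of (fun i => (i + 1) ^ 2 + 1) (fun a b h => ?_) (by norm_num) _ (fun k _ => ?_)
    (fun m => (f m : ℂ)) f_norm 8 (by norm_num) (fun d hd j => ?_)
  · have : (a + 1) ^ 2 < (b + 1) ^ 2 := Nat.pow_lt_pow_left (by omega) (by norm_num)
    simp only; omega
  · constructor
    · rintro ⟨n, hn, rfl⟩
      exact ⟨n - 1, by rw [Nat.sub_add_cancel hn]⟩
    · rintro ⟨i, rfl⟩
      exact ⟨i + 1, by omega, rfl⟩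
  · have h1 : ∀ i, f (d * ((8 * j + i + 1) ^ 2 + 1)) = f d * f ((8 * j + i + 1) ^ 2 + 1) :=
      fun i => f_mul _ _ (by omega) (by omega)
    simp only [h1]
    rw [← Int.cast_sum, ← mul_sum, block_plus]
    simp

lemma block_minus (t : ℕ) : ∑ i ∈ range 16, f (16 * t + i + 1) * f (16 * t + i + 3) = 0 := by
  simp only [sum_range_succ, sum_range_zero, add_assoc]
  norm_num
  have h4 : f (16 * t + 12) = f (16 * t + 4) := by
    rw [f_dbl (16 * t + 12) (8 * t + 6) (by omega) (by omega),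
      f_dbl (8 * t + 6) (4 * t + 3) (by omega) (by omega),
      f_dbl (16 * t + 4) (8 * t + 2) (by omega) (by omega),
      f_dbl (8 * t + 2) (4 * t + 1) (by omega) (by omega)]
    rcases Nat.even_or_odd' t with ⟨u, rfl | rfl⟩
    · rw [f_pos _ (by omega) (by omega), f_pos _ (by omega) (by omega)]
    · rw [f_neg _ (by omega) (by omega), f_neg _ (by omega) (by omega)]
  rw [h4, f_pos (16 * t + 1) (by omega) (by omega), f_pos (16 * t + 3) (by omega) (by omega),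
    f_neg (16 * t + 5) (by omega) (by omega), f_neg (16 * t + 7) (by omega) (by omega),
    f_pos (16 * t + 9) (by omega) (by omega), f_pos (16 * t + 11) (by omega) (by omega),
    f_neg (16 * t + 13) (by omega) (by omega), f_neg (16 * t + 15) (by omega) (by omega),
    f_pos (16 * t + 17) (by omega) (by omega),
    f_dbl (16 * t + 2) (8 * t + 1) (by omega) (by omega),
    f_dbl (16 * t + 6) (8 * t + 3) (by omega) (by omega),
    f_dbl (16 * t + 10) (8 * t + 5) (by omega) (by omega),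
    f_dbl (16 * t + 14) (8 * t + 7) (by omega) (by omega),
    f_dbl (16 * t + 18) (8 * t + 9) (by omega) (by omega),
    f_pos (8 * t + 1) (by omega) (by omega), f_pos (8 * t + 3) (by omega) (by omega),
    f_neg (8 * t + 5) (by omega) (by omega), f_neg (8 * t + 7) (by omega) (by omega),
    f_pos (8 * t + 9) (by omega) (by omega)]
  ring

theorem bad_minus : Bad {k | ∃ n : ℕ, 1 ≤ n ∧ k + 1 = n ^ 2} := by
  refine bad_of (fun i => (i + 1) * (i + 3)) (fun a b h => ?_) (by norm_num) _ (fun k hk => ?_)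
    (fun m => (f m : ℂ)) f_norm 16 (by norm_num) (fun d hd j => ?_)
  · exact Nat.mul_lt_mul'' (by omega) (by omega)
  · constructor
    · rintro ⟨n, hn, h⟩
      obtain ⟨i, rfl⟩ : ∃ i, n = i + 2 := by
        refine ⟨n - 2, ?_⟩
        have : n ≠ 1 := by rintro rfl; omega
        omega
      exact ⟨i, by nlinarith⟩
    · rintro ⟨i, rfl⟩
      exact ⟨i + 2, by omega, by ring⟩
  · have h1 : ∀ i, f (d * ((16 * j + i + 1) * (16 * j + i + 3))) =
        f d * (f (16 * j + i + 1) * f (16 * j + i + 3)) :=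
      fun i => by rw [f_mul _ _ (by omega) (by positivity), f_mul _ _ (by omega) (by omega)]
    simp only [h1]
    rw [← Int.cast_sum, ← mul_sum, block_minus]
    simp

def fq (x : ℕ) : ℕ := (x ^ 6 % 49) / 7

lemma fq_count : ∀ x < 49, x % 7 ≠ 0 → ∀ t < 7,
    ((List.range 21).filter (fun i => fq (x * (2 ^ (i + 1) + 1) % 49) = t)).length = 3 := by
  decide +kernel

lemma fq_lt (x : ℕ) : fq x < 7 := by
  unfold fq
  have := Nat.mod_lt (x ^ 6) (show 0 < 49 by norm_num)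
  omega

noncomputable def ze : ℂ := Complex.exp (2 * Real.pi * Complex.I / (7 : ℕ))

lemma ze_prim : IsPrimitiveRoot ze 7 := Complex.isPrimitiveRoot_exp 7 (by norm_num)

noncomputable def a7 (m : ℕ) : ℂ := ze ^ fq ((m / 7 ^ m.factorization 7) % 49)

lemma a7_norm (m : ℕ) : ‖a7 m‖ = 1 := by
  rw [a7, norm_pow, ze_prim.norm'_eq_one (by norm_num), one_pow]

lemma two_pow_mod (j i : ℕ) : 2 ^ (21 * j + i + 1) % 49 = 2 ^ (i + 1) % 49 := by
  rw [add_assoc, pow_add, pow_mul, Nat.mul_mod, Nat.pow_mod]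
  norm_num

lemma not_seven (k : ℕ) : ¬ 7 ∣ 2 ^ k + 1 := by
  have h1 : 2 ^ k % 7 = 2 ^ (k % 3) % 7 := by
    conv_lhs => rw [← Nat.div_add_mod k 3, pow_add, pow_mul, Nat.mul_mod, Nat.pow_mod]
    norm_num
  have h2 : k % 3 = 0 ∨ k % 3 = 1 ∨ k % 3 = 2 := by omega
  rcases h2 with h | h | h <;> rw [h] at h1 <;> omega

theorem bad_pow : Bad {k | ∃ n : ℕ, 1 ≤ n ∧ k = 2 ^ n + 1} := by
  refine bad_of (fun i => 2 ^ (i + 1) + 1) (fun a b h => ?_) (by norm_num) _ (fun k _ => ?_)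
    a7 a7_norm 21 (by norm_num) (fun d hd j => ?_)
  · have : 2 ^ (a + 1) < 2 ^ (b + 1) := Nat.pow_lt_pow_right (by norm_num) (by omega)
    simp only; omega
  · constructor
    · rintro ⟨n, hn, rfl⟩
      exact ⟨n - 1, by rw [Nat.sub_add_cancel hn]⟩
    · rintro ⟨i, rfl⟩
      exact ⟨i + 1, by omega, rfl⟩
  · set x := (d / 7 ^ d.factorization 7) % 49 with hx
    have hx7 : x % 7 ≠ 0 := by
      have := Nat.not_dvd_ordCompl (by norm_num : Nat.Prime 7) (show d ≠ 0 by omega)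
      omega
    have hx49 : x < 49 := Nat.mod_lt _ (by norm_num)
    have h1 : ∀ i, a7 (d * (2 ^ (21 * j + i + 1) + 1)) =
        ze ^ fq (x * (2 ^ (i + 1) + 1) % 49) := by
      intro i
      rw [a7, Nat.ordCompl_mul, Nat.factorization_eq_zero_of_not_dvd (not_seven _), pow_zero,
        Nat.div_one, Nat.mul_mod, ← hx, Nat.add_mod, two_pow_mod, ← Nat.add_mod,
        Nat.mul_mod_mod]
    simp only [h1]
    rw [← sum_fiberwise_of_maps_to (s := range 21) (t := range 7)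
      (g := fun i => fq (x * (2 ^ (i + 1) + 1) % 49)) (fun i _ => mem_range.mpr (fq_lt _))]
    have h2 : ∀ t ∈ range 7, ∑ i ∈ range 21 with fq (x * (2 ^ (i + 1) + 1) % 49) = t,
        ze ^ fq (x * (2 ^ (i + 1) + 1) % 49) = 3 * ze ^ t := by
      intro t ht
      rw [sum_congr rfl (g := fun _ => ze ^ t) (fun i hi => by rw [(mem_filter.mp hi).2]),
        sum_const, nsmul_eq_mul]
      have h3 := fq_count x hx49 hx7 t (mem_range.mp ht)
      have h4 : #{i ∈ range 21 | fq (x * (2 ^ (i + 1) + 1) % 49) = t} = 3 := by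
        rw [← h3]
        simp only [Finset.card, Finset.filter, Finset.range, Multiset.range, Multiset.filter_coe,
          Multiset.coe_card]
      rw [h4]; norm_num
    rw [sum_congr rfl h2, ← mul_sum, ze_prim.geom_sum_eq_zero (by norm_num), mul_zero]

end Pool.Agent.H27.Disc
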