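import Mathlib

set_option autoImplicit false

namespace Pool.Agent.H27.DistSp

open Finset Matrix Polynomial

lemma cp {V K : Type} [Fintype V] [DecidableEq V] [Fintype K] [DecidableEq K] {n k : ℕ}
    (hn : Fintype.card V = n) (hk : Fintype.card K = k) (D : Matrix V V ℝ)
    (u v : K → V → ℝ) (R θ : ℝ) (hD : ∀ x y, D x y = R - ∑ k, u k x * v k y)
    (hu : ∀ k, ∑ x, u k x = 0) (hv : ∀ k, ∑ x, v k x = 0)
    (huv : ∀ k l, ∑ x, v k x * u l x = if k = l then θ else 0) :
    X ^ (k + 1) * D.charpoly = X ^ n * ((X - C (n * R)) * (X + C θ) ^ k) := by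
  subst hn hk
  let P : Matrix V (Option K) ℝ := of fun x o => o.elim R fun k => -u k x
  let Q : Matrix (Option K) V ℝ := of fun o y => o.elim 1 fun k => v k y
  have h1 : D = P * Q := by
    ext x y
    simp [P, Q, mul_apply, hD, sub_eq_add_neg]
  have h2 : Q * P = diagonal fun o => o.elim (Fintype.card V * R) fun _ => -θ := by
    ext (_ | k) (_ | l) <;> simp [P, Q, mul_apply, hu, ← sum_mul, hv, huv, diagonal_apply]
    split_ifs <;> simp
  rw [← Fintype.card_option, h1, charpoly_mul_comm', h2, charpoly_diagonal]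
  simp

lemma dist_eq {V : Type} (G : SimpleGraph V) (δ : V → V → ℕ) (ha : ∀ x y, G.Adj x y ↔ δ x y = 1)
    (h0 : ∀ x, δ x x = 0) (tri : ∀ x y z, δ x z ≤ δ x y + δ y z)
    (step : ∀ x y, x ≠ y → ∃ z, δ x z = 1 ∧ δ z y + 1 = δ x y) :
    G.Preconnected ∧ ∀ x y, G.dist x y = δ x y := by
  have h1 : ∀ n x y, δ x y = n → ∃ w : G.Walk x y, w.length = n := fun n => by
    induction n with
    | zero =>
      intro x y h
      by_cases e : x = y
      · exact e ▸ ⟨.nil, rfl⟩
      · obtain ⟨z, -, hz⟩ := step x y e; omega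
    | succ n ih =>
      intro x y h
      obtain ⟨z, h2, hz⟩ := step x y fun e => by rw [e, h0] at h; omega
      obtain ⟨w, hw⟩ := ih z y (by omega)
      exact ⟨.cons ((ha _ _).2 h2) w, by simp [hw]⟩
  have h2 : ∀ x y (w : G.Walk x y), δ x y ≤ w.length := fun x y w => by
    induction w with
    | nil => simp [h0]
    | cons h _ ih => exact (tri _ _ _).trans (by rw [(ha _ _).1 h]; simp; omega)
  have h3 : G.Preconnected := fun x y => ⟨(h1 _ x y rfl).choose⟩
  refine ⟨h3, fun x y => le_antisymm ?_ ?_⟩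
  · obtain ⟨w, hw⟩ := h1 _ x y rfl
    exact hw ▸ SimpleGraph.dist_le w
  · obtain ⟨w, hw⟩ := (h3 x y).exists_walk_length_eq_dist
    exact hw ▸ h2 x y w

lemma avg {ι α : Type} [Fintype ι] [DecidableEq ι] [Fintype α] (F : (ι → α) → ℝ) (j : ι) :
    Fintype.card α * ∑ x, F x = ∑ x, ∑ a, F (Function.update x j a) := by
  have h : Function.Involutive fun p : (ι → α) × α => (Function.update p.1 j p.2, p.1 j) :=
    fun p => by simp
  rw [← Fintype.sum_prod_type' fun x a => F (Function.update x j a),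
    ← h.bijective.sum_comp fun p => F (Function.update p.1 j p.2), Fintype.sum_prod_type]
  simp [mul_sum]

/-- changing one coordinate -/
lemma sum_upd {ι α : Type} [Fintype ι] [DecidableEq ι] (d : α → α → ℕ) (a b c : ι → α) (j : ι)
    (h0 : ∀ x, d x x = 0) (h : ∀ i, i ≠ j → c i = a i) :
    ∑ i, d (a i) (c i) = d (a j) (c j) ∧
      ∑ i, d (c i) (b i) + d (a j) (b j) = ∑ i, d (a i) (b i) + d (c j) (b j) := by
  refine ⟨sum_eq_single j (fun i _ hi => by rw [h i hi, h0]) (by simp), ?_⟩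
  rw [← add_sum_erase _ _ (mem_univ j), ← add_sum_erase _ (fun i => d (a i) (b i)) (mem_univ j),
    sum_congr rfl fun i hi => by rw [h i (mem_erase.1 hi).1]]
  ring

noncomputable def uu (a : Fin 5) (b : Fin 6) : ℝ := (if b = a.succ then 1 else 0) - if b = 0 then 1 else 0

noncomputable def vv (a : Fin 5) (b : Fin 6) : ℝ := (if b = a.succ then 1 else 0) - 1 / 6

lemma uu_sum (a : Fin 5) : ∑ b, uu a b = 0 := by simp [uu]

lemma vv_sum (a : Fin 5) : ∑ b, vv a b = 0 := by simp [vv]

lemma vu_sum (a a' : Fin 5) : ∑ b, vv a b * uu a' b = if a = a' then 1 else 0 := by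
  simp [uu, vv, mul_sub, eq_comm, (Fin.succ_ne_zero _).symm]

lemma uv_sum (b b' : Fin 6) : ∑ a, uu a b * vv a b' = (if b = b' then 1 else 0) - 1 / 6 := by
  fin_cases b <;> fin_cases b' <;> simp [uu, vv, Fin.sum_univ_five] <;> norm_num

end Pool.Agent.H27.DistSp
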