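import Mathlib

set_option autoImplicit false

namespace Pool.Agent.H27.Dyad

open Finset

/-- number of trailing zeros of `a` read as an `i`-bit word -/
def z : ℕ → ℕ → ℕ
  | 0, _ => 0
  | i + 1, a => if a % 2 = 1 then 0 else z i (a / 2) + 1

lemma z_le (i : ℕ) : ∀ a, z i a ≤ i := by
  induction i with
  | zero => intro a; simp [z]
  | succ i ih =>
    intro a
    unfold z
    split_ifs
    · omega
    · have := ih (a / 2); omega

lemma z_shift (i a r : ℕ) : z (i + r) (a * 2 ^ r) = z i a + r := by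
  induction r with
  | zero => simp
  | succ r ih =>
    have h1 : a * 2 ^ (r + 1) = 2 * (a * 2 ^ r) := by ring
    rw [← add_assoc, z, h1, if_neg (by omega), Nat.mul_div_cancel_left _ (by norm_num), ih]
    omega

lemma sum_two (f : ℕ → ℕ) (q : ℕ) :
    ∑ b ∈ range (2 * q), f b = ∑ c ∈ range q, (f (2 * c) + f (2 * c + 1)) := by
  induction q with
  | zero => simp
  | succ q ih =>
    rw [show 2 * (q + 1) = 2 * q + 1 + 1 by ring, sum_range_succ, sum_range_succ, ih,
      sum_range_succ]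
    omega

lemma sum_z (i : ℕ) : ∑ b ∈ range (2 ^ i), z i b ≤ 2 ^ i := by
  induction i with
  | zero => simp [z]
  | succ i ih =>
    rw [pow_succ', sum_two]
    have h : ∀ c ∈ range (2 ^ i), z (i + 1) (2 * c) + z (i + 1) (2 * c + 1) = z i c + 1 := by
      intro c _
      rw [z, z, if_neg (by omega), if_pos (by omega), Nat.mul_div_cancel_left _ (by norm_num)]
    rw [sum_congr rfl h, sum_add_distrib]
    simp only [sum_const, card_range, smul_eq_mul, mul_one]
    omega

lemma sum_div (f : ℕ → ℕ) (c : ℕ) (hc : 0 < c) (q : ℕ) :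
    ∑ μ ∈ range (q * c), f (μ / c) = c * ∑ b ∈ range q, f b := by
  induction q with
  | zero => simp
  | succ q ih =>
    rw [add_mul, one_mul, sum_range_add, ih, sum_range_succ, mul_add]
    congr 1
    have h : ∀ r ∈ range c, f ((q * c + r) / c) = f q := by
      intro r hr
      rw [mem_range] at hr
      congr 1
      apply Nat.div_eq_of_lt_le
      · omega
      · rw [add_mul]; omega
    rw [sum_congr rfl h]
    simp

lemma sum_z_xor (i a : ℕ) (ha : a < 2 ^ i) : ∑ b ∈ range (2 ^ i), z i (a ^^^ b) ≤ 2 ^ i := by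
  refine le_trans (le_of_eq ?_) (sum_z i)
  refine Finset.sum_nbij' (fun b => a ^^^ b) (fun b => a ^^^ b) ?_ ?_ ?_ ?_ ?_
  · intro b hb; simp only [mem_range] at *; exact Nat.xor_lt_two_pow ha hb
  · intro b hb; simp only [mem_range] at *; exact Nat.xor_lt_two_pow ha hb
  · intro b _; simp
  · intro b _; simp
  · intro b _; rfl

lemma sum_mask (n i a : ℕ) (hi : i ≤ n) (ha : a < 2 ^ i) :
    ∑ μ ∈ range (2 ^ n), z i (a ^^^ μ / 2 ^ (n - i)) ≤ 2 ^ n := by
  have h1 : 2 ^ n = 2 ^ i * 2 ^ (n - i) := by rw [← pow_add]; congr 1; omega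
  have h2 := sum_div (fun b => z i (a ^^^ b)) (2 ^ (n - i)) (by positivity) (2 ^ i)
  rw [← h1] at h2
  rw [h2]
  calc _ ≤ 2 ^ (n - i) * 2 ^ i := Nat.mul_le_mul_left _ (sum_z_xor i a ha)
    _ = 2 ^ n := by rw [h1, mul_comm]

abbrev Tile (d n : ℕ) := (Fin d → Fin (n + 1)) × (Fin d → Fin (2 ^ n))
abbrev Pt (d n : ℕ) := Fin d → Fin (2 ^ n)

variable {d n : ℕ}

def mem (y : Pt d n) (t : Tile d n) : Prop := ∀ k, (y k : ℕ) / 2 ^ (n - t.1 k) = t.2 k

def valid (t : Tile d n) : Prop := ∀ k, (t.2 k : ℕ) < 2 ^ (t.1 k : ℕ)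

def zz (m : Pt d n) (t : Tile d n) (k : Fin d) : ℕ :=
  z (t.1 k) (t.2 k ^^^ (m k : ℕ) / 2 ^ (n - t.1 k))

noncomputable def wt (m : Pt d n) (t : Tile d n) : ℝ := ∏ k, ((1 : ℝ) / 2) ^ (zz m t k + 1)

lemma wt_nonneg (m : Pt d n) (t : Tile d n) : 0 ≤ wt m t :=
  prod_nonneg (fun _ _ => by positivity)

def part (U : Finset (Pt d n)) (S : Finset (Tile d n)) : Prop :=
  (∀ t ∈ S, valid t) ∧ (∀ t ∈ S, ∀ y, mem y t → y ∈ U) ∧ (∀ y ∈ U, ∃ t ∈ S, mem y t) ∧
    (∀ t ∈ S, ∀ t' ∈ S, ∀ y, mem y t → mem y t' → t = t')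

def isCorner (m x : Pt d n) (t : Tile d n) : Prop :=
  ∀ k, (x k : ℕ) ^^^ (m k : ℕ) = (t.2 k ^^^ (m k : ℕ) / 2 ^ (n - t.1 k)) * 2 ^ (n - t.1 k)

lemma exists_corner (m : Pt d n) (t : Tile d n) (ht : valid t) :
    ∃ c : Pt d n, mem c t ∧ isCorner m c t := by
  have hlt : ∀ k, ((t.2 k ^^^ (m k : ℕ) / 2 ^ (n - t.1 k)) * 2 ^ (n - t.1 k)) ^^^ (m k : ℕ)
      < 2 ^ n := by
    intro k
    refine Nat.xor_lt_two_pow ?_ (m k).2
    have hi : (t.1 k : ℕ) ≤ n := Nat.lt_succ_iff.mp (t.1 k).2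
    have h1 : 2 ^ n = 2 ^ (t.1 k : ℕ) * 2 ^ (n - t.1 k) := by rw [← pow_add]; congr 1; omega
    have h2 : (m k : ℕ) / 2 ^ (n - t.1 k) < 2 ^ (t.1 k : ℕ) := by
      rw [Nat.div_lt_iff_lt_mul (by positivity), ← h1]; exact (m k).2
    have h3 := Nat.xor_lt_two_pow (ht k) h2
    calc _ < 2 ^ (t.1 k : ℕ) * 2 ^ (n - t.1 k) := Nat.mul_lt_mul_of_pos_right h3 (by positivity)
      _ = 2 ^ n := h1.symm
  refine ⟨fun k => ⟨_, hlt k⟩, fun k => ?_, fun k => ?_⟩
  · simp only
    rw [Nat.xor_div_two_pow, Nat.mul_div_cancel _ (by positivity)]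
    simp
  · simp

lemma corner_of_min (m x : Pt d n) (t : Tile d n) (ht : valid t) (hx : mem x t)
    (hmin : ∀ y, mem y t → ∑ k, ((x k : ℕ) ^^^ (m k : ℕ)) ≤ ∑ k, ((y k : ℕ) ^^^ (m k : ℕ))) :
    isCorner m x t := by
  obtain ⟨c, hc, hc'⟩ := exists_corner m t ht
  have h1 : ∀ k ∈ (univ : Finset (Fin d)), (c k : ℕ) ^^^ (m k : ℕ) ≤ (x k : ℕ) ^^^ (m k : ℕ) := by
    intro k _
    rw [hc' k, ← hx k, ← Nat.xor_div_two_pow]
    exact Nat.div_mul_le_self _ _
  have h2 := (sum_eq_sum_iff_of_le h1).mp (le_antisymm (sum_le_sum h1) (hmin c hc))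
  intro k
  rw [← h2 k (mem_univ k), hc' k]

lemma corner_inj (m x : Pt d n) (t t' : Tile d n) (h : isCorner m x t) (h' : isCorner m x t')
    (hz : zz m t = zz m t') : t = t' := by
  have aux : ∀ i i' a a' : ℕ, i ≤ i' → i' ≤ n → a * 2 ^ (n - i) = a' * 2 ^ (n - i') →
      z i a = z i' a' → i = i' := by
    intro i i' a a' h1 h2 h3 h4
    obtain ⟨r, rfl⟩ := Nat.exists_eq_add_of_le h1
    have h5 : n - i = r + (n - (i + r)) := by omega
    rw [h5, pow_add, ← mul_assoc] at h3
    have h6 := Nat.eq_of_mul_eq_mul_right (by positivity) h3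
    rw [← h6, z_shift] at h4
    omega
  have h1 : ∀ k, t.1 k = t'.1 k := by
    intro k
    have hi : (t.1 k : ℕ) ≤ n := Nat.lt_succ_iff.mp (t.1 k).2
    have hi' : (t'.1 k : ℕ) ≤ n := Nat.lt_succ_iff.mp (t'.1 k).2
    have e := (h k).symm.trans (h' k)
    have ez : zz m t k = zz m t' k := congrFun hz k
    apply Fin.ext
    rcases le_total (t.1 k : ℕ) (t'.1 k) with hle | hle
    · exact aux _ _ _ _ hle hi' e ez
    · exact (aux _ _ _ _ hle hi e.symm ez.symm).symm
  refine Prod.ext (funext h1) (funext fun k => ?_)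
  have e := (h k).symm.trans (h' k)
  rw [h1 k] at e
  have h6 := Nat.eq_of_mul_eq_mul_right (by positivity) e
  exact Fin.ext (Nat.xor_left_inj.mp h6)

open Classical in
lemma corner_sum (m x : Pt d n) :
    ∑ t ∈ (univ : Finset (Tile d n)).filter (isCorner m x), wt m t ≤ 1 := by
  have hinj : Set.InjOn (zz m) ((univ : Finset (Tile d n)).filter (isCorner m x) : Finset _) := by
    intro t ht t' ht' h
    simp only [coe_filter, mem_univ, true_and, Set.mem_ofPred_eq] at ht ht'
    exact corner_inj m x t t' ht ht' h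
  have h1 : ∑ t ∈ (univ : Finset (Tile d n)).filter (isCorner m x), wt m t =
      ∑ ζ ∈ ((univ : Finset (Tile d n)).filter (isCorner m x)).image (zz m),
        ∏ k, ((1 : ℝ) / 2) ^ (ζ k + 1) := by
    rw [sum_image hinj]; rfl
  rw [h1]
  have h2 : ((univ : Finset (Tile d n)).filter (isCorner m x)).image (zz m) ⊆
      Fintype.piFinset (fun _ => range (n + 1)) := by
    intro ζ hζ
    rw [mem_image] at hζ
    obtain ⟨t, _, rfl⟩ := hζ
    rw [Fintype.mem_piFinset]
    intro k
    rw [mem_range]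
    exact lt_of_le_of_lt (z_le _ _) (t.1 k).2
  refine (sum_le_sum_of_subset_of_nonneg h2
    (fun _ _ _ => prod_nonneg (fun _ _ => by positivity))).trans ?_
  rw [← prod_univ_sum (fun _ : Fin d => range (n + 1)) (fun _ j => ((1 : ℝ) / 2) ^ (j + 1))]
  refine prod_le_one (fun _ _ => sum_nonneg (fun _ _ => by positivity)) (fun _ _ => ?_)
  have h3 : ∀ N : ℕ, ∑ j ∈ range N, ((1 : ℝ) / 2) ^ (j + 1) = 1 - (1 / 2) ^ N := by
    intro N
    induction N with
    | zero => simp
    | succ N ih => rw [sum_range_succ, ih]; ring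
  rw [h3]
  have : (0 : ℝ) < (1 / 2) ^ (n + 1) := by positivity
  linarith

open Classical in
lemma claimA (m : Pt d n) (U : Finset (Pt d n)) :
    ∑ S ∈ (univ : Finset (Finset (Tile d n))).filter (part U), ∏ t ∈ S, wt m t ≤ 1 := by
  induction U using Finset.strongInduction with
  | H U ih =>
  rcases U.eq_empty_or_nonempty with rfl | hne
  · have h : (univ : Finset (Finset (Tile d n))).filter (part ∅) ⊆ {∅} := by
      intro S hS
      rw [mem_filter] at hS
      rw [mem_singleton, eq_empty_iff_forall_notMem]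
      intro t ht
      obtain ⟨c, hc, _⟩ := exists_corner m t (hS.2.1 t ht)
      exact notMem_empty _ (hS.2.2.1 t ht c hc)
    refine (sum_le_sum_of_subset_of_nonneg h
      (fun _ _ _ => prod_nonneg (fun _ _ => wt_nonneg _ _))).trans ?_
    simp
  · obtain ⟨x, hxU, hmin⟩ := U.exists_min_image (fun y => ∑ k, ((y k : ℕ) ^^^ (m k : ℕ))) hne
    set C := (univ : Finset (Tile d n)).filter (fun t => isCorner m x t ∧ mem x t) with hC
    have hF : ∀ S : Finset (Tile d n), 0 ≤ ∏ t ∈ S, wt m t :=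
      fun S => prod_nonneg (fun _ _ => wt_nonneg _ _)
    have h1 : ∀ S ∈ (univ : Finset (Finset (Tile d n))).filter (part U),
        ∏ t ∈ S, wt m t ≤ ∑ t ∈ C, if t ∈ S then ∏ t ∈ S, wt m t else 0 := by
      intro S hS
      rw [mem_filter] at hS
      obtain ⟨t, ht, hxt⟩ := hS.2.2.2.1 x hxU
      have hc : isCorner m x t :=
        corner_of_min m x t (hS.2.1 t ht) hxt (fun y hy => hmin y (hS.2.2.1 t ht y hy))
      have htC : t ∈ C := by simp [hC, hc, hxt]
      have := single_le_sum (f := fun t => if t ∈ S then ∏ t ∈ S, wt m t else 0)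
        (fun u _ => by split_ifs; exacts [hF S, le_rfl]) htC
      simpa [ht] using this
    refine (sum_le_sum h1).trans ?_
    rw [sum_comm]
    have h2 : ∀ t ∈ C, (∑ S ∈ (univ : Finset (Finset (Tile d n))).filter (part U),
        if t ∈ S then ∏ t ∈ S, wt m t else 0) ≤ wt m t := by
      intro t ht
      simp only [hC, mem_filter, mem_univ, true_and] at ht
      set V := U.filter (fun y => ¬ mem y t) with hV
      have hVU : V ⊂ U := by
        refine ⟨filter_subset _ _, fun h => ?_⟩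
        have := h hxU
        rw [hV, mem_filter] at this
        exact this.2 ht.2
      have hi := ih V hVU
      rw [← sum_filter]
      set T := ((univ : Finset (Finset (Tile d n))).filter (part U)).filter (fun S => t ∈ S) with hT
      have h3 : ∑ S ∈ T, ∏ u ∈ S, wt m u = wt m t * ∑ S ∈ T, ∏ u ∈ S.erase t, wt m u := by
        rw [mul_sum]
        refine sum_congr rfl (fun S hS => ?_)
        rw [hT, mem_filter] at hS
        rw [mul_prod_erase _ _ hS.2]
      have hinj : Set.InjOn (fun S : Finset (Tile d n) => S.erase t) (T : Finset _) := by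
        intro S hS S' hS' h
        simp only [hT, coe_filter, Set.mem_ofPred_eq] at hS hS'
        simp only at h
        rw [← insert_erase hS.2, ← insert_erase hS'.2, h]
      have h4 : ∑ S ∈ T, ∏ u ∈ S.erase t, wt m u =
          ∑ S ∈ T.image (fun S => S.erase t), ∏ u ∈ S, wt m u := by
        rw [sum_image hinj]
      have h5 : T.image (fun S => S.erase t) ⊆
          (univ : Finset (Finset (Tile d n))).filter (part V) := by
        intro S' hS'
        rw [mem_image] at hS'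
        obtain ⟨S, hS, rfl⟩ := hS'
        simp only [hT, mem_filter, mem_univ, true_and] at hS ⊢
        obtain ⟨⟨p1, p2, p3, p4⟩, htS⟩ := hS
        refine ⟨fun u hu => p1 u (mem_of_mem_erase hu), fun u hu y hy => ?_, fun y hy => ?_,
          fun u hu u' hu' => p4 u (mem_of_mem_erase hu) u' (mem_of_mem_erase hu')⟩
        · rw [hV, mem_filter]
          exact ⟨p2 u (mem_of_mem_erase hu) y hy,
            fun h => ne_of_mem_erase hu (p4 u (mem_of_mem_erase hu) t htS y hy h)⟩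
        · rw [hV, mem_filter] at hy
          obtain ⟨u, hu, hyu⟩ := p3 y hy.1
          exact ⟨u, mem_erase.mpr ⟨fun h => hy.2 (h ▸ hyu), hu⟩, hyu⟩
      have h6 := (sum_le_sum_of_subset_of_nonneg h5 (fun S _ _ => hF S)).trans hi
      rw [h3, h4]
      have := wt_nonneg m t
      nlinarith
    refine (sum_le_sum h2).trans (le_trans ?_ (corner_sum m x))
    refine sum_le_sum_of_subset_of_nonneg (fun t ht => ?_) (fun _ _ _ => wt_nonneg _ _)
    simp only [hC, mem_filter, mem_univ, true_and] at ht ⊢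
    exact ht.1

lemma avg_zz (t : Tile d n) (ht : valid t) (k : Fin d) :
    ∑ m : Pt d n, zz m t k ≤ Fintype.card (Pt d n) := by
  classical
  have h1 := prod_univ_sum (fun _ : Fin d => (univ : Finset (Fin (2 ^ n))))
    (fun j μ => if j = k then z (t.1 k) (t.2 k ^^^ (μ : ℕ) / 2 ^ (n - t.1 k)) else 1)
  rw [Fintype.piFinset_univ] at h1
  have h2 : ∀ m : Pt d n, (∏ j, if j = k then z (t.1 k) (t.2 k ^^^ (m j : ℕ) / 2 ^ (n - t.1 k))
      else 1) = zz m t k := by
    intro m
    rw [prod_ite_eq']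
    simp [zz]
  simp only [h2] at h1
  rw [← h1, Fintype.card_fun, Fintype.card_fin]
  have h3 := Finset.prod_le_pow_card (univ : Finset (Fin d)) (fun j => ∑ μ : Fin (2 ^ n),
      if j = k then z (t.1 k) (t.2 k ^^^ (μ : ℕ) / 2 ^ (n - t.1 k)) else 1) (2 ^ n) (by
    intro j _
    by_cases hj : j = k
    · simp only [hj, if_true]
      rw [Fin.sum_univ_eq_sum_range (fun μ => z (t.1 k) (t.2 k ^^^ μ / 2 ^ (n - t.1 k)))]
      exact sum_mask n _ _ (Nat.lt_succ_iff.mp (t.1 k).2) (ht k)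
    · simp [hj])
  exact h3

lemma claimB (S : Finset (Tile d n)) (hS : ∀ t ∈ S, valid t) :
    (Fintype.card (Pt d n) : ℝ) * (((1 : ℝ) / 4) ^ d) ^ S.card ≤
      ∑ m : Pt d n, ∏ t ∈ S, wt m t := by
  set c : ℕ := d * S.card with hc
  set Z : Pt d n → ℕ := fun m => ∑ t ∈ S, ∑ k, zz m t k with hZ
  have h1 : ∀ m, ∏ t ∈ S, wt m t = ((1 : ℝ) / 2) ^ (Z m + c) := by
    intro m
    simp only [wt, prod_pow_eq_pow_sum, hZ, sum_add_distrib, hc]
    simp [mul_comm]
  have h2 : ∑ m, Z m ≤ Fintype.card (Pt d n) * c := by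
    simp only [hZ]
    rw [sum_comm]
    have : ∀ t ∈ S, ∑ m : Pt d n, ∑ k, zz m t k ≤ d * Fintype.card (Pt d n) := by
      intro t ht
      rw [sum_comm]
      have := sum_le_card_nsmul (univ : Finset (Fin d)) _ _ (fun k _ => avg_zz t (hS t ht) k)
      simpa using this
    have h3 := sum_le_card_nsmul _ _ _ this
    rw [smul_eq_mul] at h3
    calc _ ≤ _ := h3
      _ = _ := by rw [hc]; ring
  have h3 : ∀ m, ((1 : ℝ) / 2) ^ (2 * c) * (1 + Real.log 2 * (c - Z m)) ≤
      ((1 : ℝ) / 2) ^ (Z m + c) := by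
    intro m
    have h4 := Real.add_one_le_exp (Real.log 2 * (c - Z m))
    have h5 : Real.exp (Real.log 2 * (c - Z m)) = 2 ^ c / 2 ^ Z m := by
      rw [mul_sub, Real.exp_sub, mul_comm _ (c : ℝ), mul_comm _ (Z m : ℝ), Real.exp_nat_mul,
        Real.exp_nat_mul, Real.exp_log (by norm_num)]
    have h6 : ((1 : ℝ) / 2) ^ (Z m + c) = (1 / 2) ^ (2 * c) * (2 ^ c / 2 ^ Z m) := by
      rw [two_mul, pow_add, pow_add, one_div, inv_pow, inv_pow]
      field_simp
    rw [h6, ← h5]
    exact mul_le_mul_of_nonneg_left (by linarith) (by positivity)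
  simp only [h1]
  refine le_trans ?_ (sum_le_sum (fun m _ => h3 m))
  rw [← mul_sum, sum_add_distrib, ← mul_sum, sum_sub_distrib]
  have h7 : (((1 : ℝ) / 4) ^ d) ^ S.card = (1 / 2) ^ (2 * c) := by
    rw [← pow_mul, pow_mul (1 / 2 : ℝ) 2 c]; norm_num [hc]
  have h8 : ((∑ m, Z m : ℕ) : ℝ) ≤ Fintype.card (Pt d n) * c := by exact_mod_cast h2
  push_cast at h8
  rw [h7, mul_comm]
  refine mul_le_mul_of_nonneg_left ?_ (by positivity)
  simp only [sum_const, card_univ, nsmul_eq_mul, mul_one]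
  have h9 : 0 < Real.log 2 := Real.log_pos (by norm_num)
  nlinarith

open Classical in
theorem count (U : Finset (Pt d n)) :
    ∑ S ∈ (univ : Finset (Finset (Tile d n))).filter (part U), (((1 : ℝ) / 4) ^ d) ^ S.card ≤ 1 := by
  have hpos : (0 : ℝ) < Fintype.card (Pt d n) := by
    have : 0 < Fintype.card (Pt d n) := Fintype.card_pos
    exact_mod_cast this
  have h1 : (Fintype.card (Pt d n) : ℝ) * ∑ S ∈ (univ : Finset (Finset (Tile d n))).filter (part U),
      (((1 : ℝ) / 4) ^ d) ^ S.card ≤ Fintype.card (Pt d n) * 1 := by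
    rw [mul_sum]
    refine (sum_le_sum (fun S hS => claimB S (mem_filter.mp hS).2.1)).trans ?_
    rw [sum_comm]
    refine (sum_le_sum (fun m _ => claimA m U)).trans ?_
    simp
  exact le_of_mul_le_mul_left h1 hpos

end Pool.Agent.H27.Dyad
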