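import Pool.Agent.H27.DyadA

set_option autoImplicit false

namespace Pool.Agent.H27.Dyad

open Finset Classical

variable {d n : ℕ}

def box (x : Tile d n) : Set (Fin d → ℝ) :=
  Set.pi Set.univ (fun k => Set.Icc (((x.2 k : ℕ) : ℝ) / 2 ^ (x.1 k : ℕ))
    ((((x.2 k : ℕ) : ℝ) + 1) / 2 ^ (x.1 k : ℕ)))

def til (S : Finset (Tile d n)) : Prop :=
  (⋃ x ∈ S, box x) = Set.Icc (0 : Fin d → ℝ) 1 ∧
    ∀ x ∈ S, ∀ y ∈ S, x ≠ y → Disjoint (interior (box x)) (interior (box y))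

def Om (d n : ℕ) : Finset (Tile d n) :=
  (univ : Finset (Tile d n)).filter
    (fun x => ∑ k, (x.1 k : ℕ) = n ∧ ∀ k, (x.2 k : ℕ) < 2 ^ (x.1 k : ℕ))

noncomputable def T (d n : ℕ) (p : ℝ) : ℝ :=
  ∑ A ∈ (Om d n).powerset,
    if (∃ S ⊆ A, til S) then p ^ A.card * (1 - p) ^ ((Om d n).card - A.card) else 0

noncomputable def ctr (y : Pt d n) : Fin d → ℝ := fun k => ((y k : ℕ) + 1 / 2) / 2 ^ n

lemma interior_box (x : Tile d n) : interior (box x) =
    Set.pi Set.univ (fun k => Set.Ioo (((x.2 k : ℕ) : ℝ) / 2 ^ (x.1 k : ℕ))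
      ((((x.2 k : ℕ) : ℝ) + 1) / 2 ^ (x.1 k : ℕ))) := by
  rw [box, interior_pi_set Set.finite_univ]
  simp only [interior_Icc]

lemma two_pow_split (t : Tile d n) (k : Fin d) :
    (2 : ℝ) ^ n = 2 ^ (t.1 k : ℕ) * 2 ^ (n - t.1 k) := by
  have hi : (t.1 k : ℕ) ≤ n := Nat.lt_succ_iff.mp (t.1 k).2
  rw [← pow_add]; congr 1; omega

lemma mem_of_box (y : Pt d n) (t : Tile d n) (h : ctr y ∈ box t) : mem y t := by
  intro k
  obtain ⟨h1, h2⟩ := h k (Set.mem_univ k)
  simp only [ctr] at h1 h2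
  rw [two_pow_split t k] at h1 h2
  have p1 : (0 : ℝ) < 2 ^ (t.1 k : ℕ) := by positivity
  have p2 : (0 : ℝ) < 2 ^ (n - t.1 k) := by positivity
  rw [div_le_div_iff₀ (by positivity) (by positivity)] at h1 h2
  have h3 : ((t.2 k : ℕ) : ℝ) * 2 ^ (n - t.1 k) < (y k : ℕ) + 1 := by nlinarith
  have h4 : ((y k : ℕ) : ℝ) < (((t.2 k : ℕ) : ℝ) + 1) * 2 ^ (n - t.1 k) := by nlinarith
  have h5 : (t.2 k : ℕ) * 2 ^ (n - t.1 k) < (y k : ℕ) + 1 := by exact_mod_cast h3
  have h6 : (y k : ℕ) < ((t.2 k : ℕ) + 1) * 2 ^ (n - t.1 k) := by exact_mod_cast h4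
  exact Nat.div_eq_of_lt_le (Nat.lt_succ_iff.mp h5) h6

lemma int_of_mem (y : Pt d n) (t : Tile d n) (h : mem y t) : ctr y ∈ interior (box t) := by
  rw [interior_box]
  intro k _
  have h5 : (t.2 k : ℕ) * 2 ^ (n - t.1 k) ≤ (y k : ℕ) := by
    rw [← h k]; exact Nat.div_mul_le_self _ _
  have h6 : (y k : ℕ) + 1 ≤ ((t.2 k : ℕ) + 1) * 2 ^ (n - t.1 k) := by
    rw [← h k, mul_comm]; exact Nat.lt_mul_div_succ _ (by positivity)
  have h3 : ((t.2 k : ℕ) : ℝ) * 2 ^ (n - t.1 k) ≤ (y k : ℕ) := by exact_mod_cast h5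
  have h4 : ((y k : ℕ) : ℝ) + 1 ≤ (((t.2 k : ℕ) : ℝ) + 1) * 2 ^ (n - t.1 k) := by exact_mod_cast h6
  have p1 : (0 : ℝ) < 2 ^ (t.1 k : ℕ) := by positivity
  have p2 : (0 : ℝ) < 2 ^ (n - t.1 k) := by positivity
  simp only [ctr]
  rw [two_pow_split t k]
  constructor
  · rw [div_lt_div_iff₀ (by positivity) (by positivity)]; nlinarith
  · rw [div_lt_div_iff₀ (by positivity) (by positivity)]; nlinarith

lemma ctr_mem (y : Pt d n) : ctr y ∈ Set.Icc (0 : Fin d → ℝ) 1 := by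
  constructor
  · intro k; simp only [ctr, Pi.zero_apply]; positivity
  · intro k
    simp only [ctr, Pi.one_apply]
    have h1 : (y k : ℕ) + 1 ≤ 2 ^ n := (y k).2
    have h2 : ((y k : ℕ) : ℝ) + 1 ≤ 2 ^ n := by exact_mod_cast h1
    rw [div_le_one (by positivity)]
    linarith

lemma part_of_til (S : Finset (Tile d n)) (hS : S ⊆ Om d n) (h : til S) : part univ S := by
  refine ⟨fun t ht => (mem_filter.mp (hS ht)).2.2, fun _ _ _ _ => mem_univ _, fun y _ => ?_,
    fun t ht t' ht' y hy hy' => ?_⟩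
  · have h1 := ctr_mem y
    rw [← h.1] at h1
    simp only [Set.mem_iUnion] at h1
    obtain ⟨t, ht, h2⟩ := h1
    exact ⟨t, ht, mem_of_box y t h2⟩
  · by_contra hne
    exact Set.disjoint_left.mp (h.2 t ht t' ht' hne) (int_of_mem y t hy) (int_of_mem y t' hy')

lemma up_sum {α : Type} [DecidableEq α] (Ω S : Finset α) (hS : S ⊆ Ω) (p : ℝ) :
    (∑ A ∈ Ω.powerset, if S ⊆ A then p ^ A.card * (1 - p) ^ (Ω.card - A.card) else 0) =
      p ^ S.card := by
  have h1 := Finset.prod_add (fun _ : α => p) (fun x => if x ∈ S then 0 else 1 - p) Ω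
  have h2 : ∏ x ∈ Ω, (p + if x ∈ S then 0 else 1 - p) = p ^ S.card := by
    have : ∀ x ∈ Ω, (p + if x ∈ S then 0 else 1 - p) = if x ∈ S then p else 1 := by
      intro x _; split_ifs <;> ring
    rw [prod_congr rfl this, prod_ite_mem, inter_eq_right.mpr hS, prod_const]
  rw [← h2, h1]
  refine sum_congr rfl (fun A hA => ?_)
  rw [mem_powerset] at hA
  rw [prod_const]
  split_ifs with h
  · congr 1
    rw [← card_sdiff_of_subset hA, ← prod_const]
    refine prod_congr rfl (fun x hx => ?_)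
    rw [if_neg (fun hx' => (mem_sdiff.mp hx).2 (h hx'))]
  · obtain ⟨x, hx, hxA⟩ := not_subset.mp h
    rw [prod_eq_zero (f := fun x => if x ∈ S then 0 else 1 - p)
      (mem_sdiff.mpr ⟨hS hx, hxA⟩) (if_pos hx), mul_zero]

lemma T_le (p : ℝ) (h0 : 0 ≤ p) (h1 : p ≤ (1 / 4) ^ d / 2) : T d n p ≤ 1 / 2 := by
  have hq : ((1 : ℝ) / 4) ^ d ≤ 1 := pow_le_one₀ (by norm_num) (by norm_num)
  have hp1 : 0 ≤ 1 - p := by linarith
  set 𝒯 := (univ : Finset (Finset (Tile d n))).filter (fun S => S ⊆ Om d n ∧ part univ S) with h𝒯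
  have h2 : T d n p ≤ ∑ A ∈ (Om d n).powerset, ∑ S ∈ 𝒯,
      if S ⊆ A then p ^ A.card * (1 - p) ^ ((Om d n).card - A.card) else 0 := by
    refine sum_le_sum (fun A hA => ?_)
    have hnn : ∀ S ∈ 𝒯, 0 ≤
        (if S ⊆ A then p ^ A.card * (1 - p) ^ ((Om d n).card - A.card) else 0) := by
      intro S _; split_ifs <;> positivity
    split_ifs with h
    · obtain ⟨S, hSA, hS⟩ := h
      have hSO : S ⊆ Om d n := hSA.trans (mem_powerset.mp hA)
      have hmem : S ∈ 𝒯 := by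
        rw [h𝒯, mem_filter]; exact ⟨mem_univ _, hSO, part_of_til S hSO hS⟩
      have := single_le_sum hnn hmem
      rwa [if_pos hSA] at this
    · exact sum_nonneg hnn
  rw [sum_comm] at h2
  have h3 : ∀ S ∈ 𝒯, (∑ A ∈ (Om d n).powerset,
      if S ⊆ A then p ^ A.card * (1 - p) ^ ((Om d n).card - A.card) else 0) ≤
      (((1 : ℝ) / 4) ^ d) ^ S.card * (1 / 2) := by
    intro S hS
    rw [h𝒯, mem_filter] at hS
    rw [up_sum _ _ hS.2.1]
    obtain ⟨t, ht, _⟩ := hS.2.2.2.2.1 (fun _ => ⟨0, by positivity⟩) (mem_univ _)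
    have hc : 1 ≤ S.card := card_pos.mpr ⟨t, ht⟩
    have h4 : p ^ S.card ≤ (((1 : ℝ) / 4) ^ d * (1 / 2)) ^ S.card :=
      pow_le_pow_left₀ h0 (by linarith) _
    rw [mul_pow] at h4
    refine h4.trans (mul_le_mul_of_nonneg_left ?_ (by positivity))
    exact pow_le_of_le_one (by norm_num) (by norm_num) (by omega)
  refine h2.trans ((sum_le_sum h3).trans ?_)
  rw [← sum_mul]
  have h5 : ∑ S ∈ 𝒯, (((1 : ℝ) / 4) ^ d) ^ S.card ≤ 1 := by
    refine le_trans ?_ (count (d := d) (n := n) univ)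
    refine sum_le_sum_of_subset_of_nonneg (fun S hS => ?_) (fun _ _ _ => by positivity)
    rw [h𝒯, mem_filter] at hS
    exact mem_filter.mpr ⟨mem_univ _, hS.2.2⟩
  linarith

def strip (k0 : Fin d) (a : Fin (2 ^ n)) : Tile d n :=
  (fun k => if k = k0 then Fin.last n else 0, fun k => if k = k0 then a else ⟨0, by positivity⟩)

lemma strip_mem (k0 : Fin d) (a : Fin (2 ^ n)) : strip k0 a ∈ Om d n := by
  rw [Om, mem_filter]
  refine ⟨mem_univ _, ?_, fun k => ?_⟩
  · rw [sum_eq_single k0]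
    · simp [strip]
    · intro b _ hb; simp [strip, hb]
    · simp
  · by_cases h : k = k0
    · simp [strip, h]
    · simp [strip, h]

lemma til_strip (k0 : Fin d) : til ((univ : Finset (Fin (2 ^ n))).image (strip (n := n) k0)) := by
  have hN : (0 : ℝ) < 2 ^ n := by positivity
  constructor
  · ext x
    simp only [Set.mem_iUnion, mem_image, mem_univ, true_and, exists_prop]
    constructor
    · rintro ⟨_, ⟨a, rfl⟩, hx⟩
      have ha : (a : ℕ) + 1 ≤ 2 ^ n := a.2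
      have ha' : ((a : ℕ) : ℝ) + 1 ≤ 2 ^ n := by exact_mod_cast ha
      constructor
      · intro k
        refine le_trans ?_ (hx k (Set.mem_univ k)).1
        simp only [Pi.zero_apply]; positivity
      · intro k
        refine le_trans (hx k (Set.mem_univ k)).2 ?_
        by_cases h : k = k0
        · simp only [strip, h, if_true, Fin.val_last, Pi.one_apply]
          rw [div_le_one hN]; exact ha'
        · simp [strip, h]
    · rintro ⟨hx0, hx1⟩
      have hex : ∃ a : Fin (2 ^ n), ((a : ℕ) : ℝ) ≤ x k0 * 2 ^ n ∧ x k0 * 2 ^ n ≤ (a : ℕ) + 1 := by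
        have e0 : 0 ≤ x k0 := hx0 k0
        have e1 : x k0 ≤ 1 := hx1 k0
        by_cases h : ⌊x k0 * 2 ^ n⌋₊ < 2 ^ n
        · exact ⟨⟨_, h⟩, Nat.floor_le (by positivity), (Nat.lt_floor_add_one _).le⟩
        · have hp : 0 < 2 ^ n := by positivity
          refine ⟨⟨2 ^ n - 1, by omega⟩, ?_, ?_⟩
          · have h2 : 2 ^ n - 1 ≤ ⌊x k0 * 2 ^ n⌋₊ := by omega
            exact le_trans (by exact_mod_cast h2) (Nat.floor_le (by positivity))
          · have h2 : (((2 ^ n - 1 : ℕ)) : ℝ) + 1 = 2 ^ n := by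
              have : 2 ^ n - 1 + 1 = 2 ^ n := by omega
              exact_mod_cast this
            simp only
            rw [h2]
            nlinarith
      obtain ⟨a, ha1, ha2⟩ := hex
      refine ⟨_, ⟨a, rfl⟩, fun k _ => ?_⟩
      by_cases h : k = k0
      · simp only [strip, h, if_true, Fin.val_last]
        exact ⟨by rw [div_le_iff₀ hN]; exact ha1, by rw [le_div_iff₀ hN]; exact ha2⟩
      · have e0 : 0 ≤ x k := hx0 k
        have e1 : x k ≤ 1 := hx1 k
        simp [strip, h, e0, e1]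
  · intro t ht t' ht' hne
    simp only [mem_image, mem_univ, true_and] at ht ht'
    obtain ⟨a, rfl⟩ := ht
    obtain ⟨a', rfl⟩ := ht'
    rw [Set.disjoint_left, interior_box, interior_box]
    intro x hx hx'
    have h1 := hx k0 (Set.mem_univ _)
    have h2 := hx' k0 (Set.mem_univ _)
    simp only [strip, if_true, Fin.val_last, Set.mem_Ioo] at h1 h2
    rw [div_lt_iff₀ hN, lt_div_iff₀ hN] at h1 h2
    have h3 : ((a : ℕ) : ℝ) < (a' : ℕ) + 1 := h1.1.trans h2.2
    have h4 : ((a' : ℕ) : ℝ) < (a : ℕ) + 1 := h2.1.trans h1.2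
    have h5 : (a : ℕ) < (a' : ℕ) + 1 := by exact_mod_cast h3
    have h6 : (a' : ℕ) < (a : ℕ) + 1 := by exact_mod_cast h4
    exact hne (by rw [Fin.ext (by omega : (a : ℕ) = a')])

lemma T_one (k0 : Fin d) : T d n 1 = 1 := by
  rw [T, sum_eq_single (Om d n)]
  · rw [if_pos]
    · simp
    · refine ⟨_, ?_, til_strip k0⟩
      intro t ht
      simp only [mem_image, mem_univ, true_and] at ht
      obtain ⟨a, rfl⟩ := ht
      exact strip_mem k0 a
  · intro A hA hne
    rw [mem_powerset] at hA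
    have : A.card < (Om d n).card := card_lt_card (lt_of_le_of_ne hA hne)
    split_ifs
    · rw [sub_self, zero_pow (by omega), mul_zero]
    · rfl
  · intro h; exact absurd (mem_powerset_self _) h

theorem main (d : ℕ) (hd : 4 ≤ d) :
    0 < sInf {p : ℝ | p ∈ Set.Icc (0 : ℝ) 1 ∧
      Filter.Tendsto (fun n : ℕ => T d n p) Filter.atTop (nhds 1)} := by
  have hpos : (0 : ℝ) < (1 / 4) ^ d / 2 := by positivity
  refine lt_of_lt_of_le hpos (le_csInf ⟨1, ⟨by norm_num, le_rfl⟩, ?_⟩ ?_)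
  · simp only [T_one (⟨0, by omega⟩ : Fin d)]
    exact tendsto_const_nhds
  · rintro p ⟨⟨h0, _⟩, h⟩
    by_contra hlt
    push Not at hlt
    have := le_of_tendsto' h (fun n => T_le (d := d) (n := n) p h0 hlt.le)
    norm_num at this

end Pool.Agent.H27.Dyad
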