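import Mathlib

set_option autoImplicit false

namespace Pool.Agent.H27

theorem edist_eq {V : Type*} (G : SimpleGraph V) (D : V → V → ℕ) (h0 : ∀ u, D u u = 0)
    (h1 : ∀ u v w, G.Adj u v → D u w ≤ D v w + 1)
    (h2 : ∀ u w, u = w ∨ ∃ v, G.Adj u v ∧ D v w + 1 = D u w) (u w : V) : G.edist u w = D u w := by
  refine le_antisymm ?_ ?_
  · induction h : D u w generalizing u with
    | zero =>
      rcases h2 u w with rfl | ⟨v, -, e⟩
      · simp
      · omega
    | succ n ih =>
      rcases h2 u w with rfl | ⟨v, a, e⟩
      · simp
      · refine (G.edist_triangle (v := v)).trans ?_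
        rw [SimpleGraph.edist_eq_one_iff_adj.2 a, add_comm]
        push_cast
        gcongr
        exact ih v (by omega)
  · refine le_iInf fun p => ?_
    norm_cast
    induction p with
    | nil => simp [h0]
    | cons a p ih => exact (h1 _ _ _ a).trans (by simpa using ih)

end Pool.Agent.H27
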