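import Mathlib

set_option autoImplicit false

namespace Pool.Agent.H27.Energy

lemma pade {y : ℝ} (hy : 0 < y) : Real.log y ≤ y - 1 - 3 * (y - 1) ^ 2 / (4 * y + 2) := by
  have hd : ∀ x : ℝ, 0 < x → HasDerivAt
      (fun x : ℝ => x - 1 - 3 * (x - 1) ^ 2 / (4 * x + 2) - Real.log x)
      (4 * (x - 1) ^ 3 / (x * (4 * x + 2) ^ 2)) x := fun x hx => by
    have h1 : HasDerivAt (fun x : ℝ => x - 1) 1 x := (hasDerivAt_id x).sub_const 1
    have h2 : HasDerivAt (fun x : ℝ => 4 * x + 2) (4 * 1) x :=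
      ((hasDerivAt_id x).const_mul 4).add_const 2
    have h3 := (h1.sub (((h1.pow 2).const_mul 3).div h2 (by positivity))).sub
      (Real.hasDerivAt_log hx.ne')
    refine h3.congr_deriv ?_
    simp only [Pi.pow_apply]
    field_simp
    ring
  have key : ∀ a b : ℝ, 0 < a → a < b → ∃ c ∈ Set.Ioo a b, 4 * (c - 1) ^ 3 / (c * (4 * c + 2) ^ 2) =
      ((b - 1 - 3 * (b - 1) ^ 2 / (4 * b + 2) - Real.log b) -
        (a - 1 - 3 * (a - 1) ^ 2 / (4 * a + 2) - Real.log a)) / (b - a) := fun a b ha hab =>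
    exists_hasDerivAt_eq_slope _ _ hab
      (fun x hx => (hd x (ha.trans_le hx.1)).continuousAt.continuousWithinAt)
      fun x hx => hd x (ha.trans hx.1)
  rcases lt_trichotomy y 1 with h | rfl | h
  · obtain ⟨c, ⟨h1, h2⟩, h3⟩ := key y 1 hy h
    have hc := hy.trans h1
    have : 4 * (c - 1) ^ 3 / (c * (4 * c + 2) ^ 2) ≤ 0 :=
      div_nonpos_of_nonpos_of_nonneg
        (by nlinarith [mul_nonneg (sq_nonneg (c - 1)) (sub_nonneg.2 h2.le)]) (by positivity)
    rw [h3, div_le_iff₀ (by linarith)] at this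
    simp at this
    linarith
  · simp
  · obtain ⟨c, ⟨h1, h2⟩, h3⟩ := key 1 y one_pos h
    have : 0 ≤ 4 * (c - 1) ^ 3 / (c * (4 * c + 2) ^ 2) := by
      have := sub_pos.2 h1
      have := one_pos.trans h1
      positivity
    rw [h3, le_div_iff₀ (by linarith)] at this
    simp at this
    linarith

lemma pade' {y k : ℝ} (hy : 0 < y) (hk : y ≤ k + 1) :
    Real.log y ≤ y - 1 - 3 / (4 * k + 6) * (y - 1) ^ 2 := by
  have : 3 * (y - 1) ^ 2 / (4 * k + 6) ≤ 3 * (y - 1) ^ 2 / (4 * y + 2) :=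
    div_le_div_of_nonneg_left (by positivity) (by positivity) (by linarith)
  have h := pade hy
  rw [div_mul_eq_mul_div]
  linarith

lemma final {δ : ℕ} {k e j : ℝ} (hδ : 2 ≤ δ) (hk : 2 ≤ k) (he : 0 ≤ e) (h2 : 2 * e ≤ k - j)
    (hj : 1 ≤ j ∨ (j = 0 ∧ k ≤ e * (δ + e + 1))) :
    Real.log (δ + e) ≤ j + e + 3 / (4 * k + 6) * ((δ - 1) * (k - e) + 2 * e + 2 * j) := by
  have hδ' : (2 : ℝ) ≤ δ := by exact_mod_cast hδ
  have hl := Real.log_two_lt_d9
  have hj0 : 0 ≤ j := by rcases hj with h | h <;> linarith [h]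
  have tan : ∀ m : ℕ, Real.log (δ + e) ≤ (δ + e) / 2 ^ m - 1 + m * Real.log 2 := fun m => by
    have := Real.log_le_sub_one_of_pos (show 0 < (δ + e) / 2 ^ m by positivity)
    rw [Real.log_div (by positivity) (by positivity), Real.log_pow] at this
    linarith
  rw [div_mul_eq_mul_div, ← sub_le_iff_le_add', le_div_iff₀ (by linarith)]
  rcases le_or_gt 15 δ with h | h
  · have h' : (15 : ℝ) ≤ δ := by exact_mod_cast h
    have h3 := tan 3
    have h4 : Real.log (δ + e) - (j + e) ≤ 3 / 14 * (δ - 1) := by push_cast at h3; linarith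
    refine (mul_le_mul_of_nonneg_right h4 (by linarith)).trans ?_
    nlinarith [mul_nonneg (by linarith : (0 : ℝ) ≤ δ - 1)
      (by linarith : 0 ≤ 3 * (k - e) - 3 / 14 * (4 * k + 6))]
  have h3 := tan 2
  have h4 : Real.log (δ + e) - (j + e) ≤ 0.3863 + δ / 4 - 3 / 4 * e - j := by
    push_cast at h3; linarith
  refine (mul_le_mul_of_nonneg_right h4 (by linarith)).trans ?_
  have h' : (δ : ℝ) ≤ 14 := by exact_mod_cast Nat.lt_succ_iff.1 h
  rcases hj with hj | ⟨rfl, hj⟩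
  · nlinarith [mul_nonneg (by linarith : (0 : ℝ) ≤ δ) (by linarith : 0 ≤ k - 1 - 2 * e),
      mul_nonneg (by linarith : (0 : ℝ) ≤ δ - 2) (by linarith : 0 ≤ k),
      mul_nonneg (by linarith : (0 : ℝ) ≤ j - 1) (by linarith : 0 ≤ k),
      mul_nonneg he (by linarith : 0 ≤ k)]
  have h5 := mul_nonneg he (by linarith : 0 ≤ k - 2)
  rcases le_or_gt 5 δ with h6 | h6
  · have h6' : (5 : ℝ) ≤ δ := by exact_mod_cast h6
    rcases le_total (13.5 + 3 * k) (3 * δ) with h7 | h7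
    · nlinarith [mul_nonneg (sub_nonneg.2 h7) (by linarith : 0 ≤ k - 2 * e),
        mul_nonneg (by linarith : (0 : ℝ) ≤ δ) (by linarith : 0 ≤ k - 2)]
    · nlinarith [mul_nonneg (sub_nonneg.2 h7) he,
        mul_nonneg (by linarith : (0 : ℝ) ≤ δ - 5) (by linarith : 0 ≤ k - 2)]
  interval_cases δ
  · have : 0.56 ≤ e := by push_cast at hj; nlinarith
    push_cast
    nlinarith [mul_nonneg (sub_nonneg.2 this) (by linarith : 0 ≤ k)]
  · have : 0.44 ≤ e := by push_cast at hj; nlinarith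
    push_cast
    nlinarith
  · have : 0.37 ≤ e := by push_cast at hj; nlinarith
    push_cast
    nlinarith

end Pool.Agent.H27.Energy
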