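import Pool.Agent.H27.MedCore

set_option autoImplicit false

namespace Pool.Agent.H27.Med

open Polynomial Matrix Finset

variable {V : Type} [Fintype V] [DecidableEq V]

lemma sum_pow_roots {A : Matrix V V ℝ} (hA : A.IsHermitian) (k : ℕ) :
    (A.charpoly.roots.map fun x => x ^ k).sum = (A ^ k).trace := by
  rw [hA.roots_charpoly_eq_eigenvalues, Multiset.map_map]
  conv_rhs => rw [hA.spectral_theorem, ← map_pow, Unitary.conjStarAlgAut_apply, trace_mul_cycle,
    ← Unitary.coe_star, ← Submonoid.coe_mul, Unitary.star_mul_self, diagonal_pow]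
  simp

variable (G : SimpleGraph V) [DecidableRel G.Adj]

lemma adj_map : (G.adjMatrix ℤ).map (Int.castRingHom ℝ) = G.adjMatrix ℝ := by
  ext i j; simp

lemma trace_two : (G.adjMatrix ℤ ^ 2).trace = ∑ v, (G.degree v : ℤ) := by
  simp [trace, sq, G.adjMatrix_mul_self_apply_self]

lemma trace_four :
    ∑ v, (2 * (G.degree v : ℤ) ^ 2 - G.degree v) ≤ (G.adjMatrix ℤ ^ 4).trace := by
  set B := G.adjMatrix ℤ * G.adjMatrix ℤ with hB
  have h1 : G.adjMatrix ℤ ^ 4 = B * B := by rw [hB]; noncomm_ring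
  have h2 : ∀ u v, B v u = B u v := fun u v => by
    simp only [hB, mul_apply, SimpleGraph.adjMatrix_apply, G.adj_comm v, G.adj_comm _ u, mul_comm]
  have h3 : ∀ u, B u u = G.degree u := fun u => G.adjMatrix_mul_self_apply_self u
  have h5 : ∀ w, ∑ u, G.adjMatrix ℤ w u = G.degree w := fun w => by
    simp [← SimpleGraph.card_neighborFinset_eq_degree, SimpleGraph.neighborFinset_eq_filter]
  have h4 : ∑ u, ∑ v, B u v = ∑ w, (G.degree w : ℤ) ^ 2 := by
    simp only [hB, mul_apply]
    calc _ = ∑ u, ∑ w, ∑ v, G.adjMatrix ℤ u w * G.adjMatrix ℤ w v :=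
          sum_congr rfl fun u _ => sum_comm
      _ = ∑ w, ∑ u, ∑ v, G.adjMatrix ℤ w u * G.adjMatrix ℤ w v := by
          rw [sum_comm]
          simp only [SimpleGraph.adjMatrix_apply, G.adj_comm]
      _ = _ := sum_congr rfl fun w _ => by rw [← sum_mul_sum, h5, sq]
  have h6 : ∀ u, (G.degree u : ℤ) ^ 2 - G.degree u ≤ ∑ v, (B u v ^ 2 - B u v) := fun u => by
    rw [← h3]
    exact single_le_sum (f := fun v => B u v ^ 2 - B u v)
      (fun v _ => sub_nonneg.2 (Int.le_self_sq _)) (mem_univ u)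
  have h7 := sum_le_sum fun u (_ : u ∈ univ) => h6 u
  simp only [sum_sub_distrib, h4] at h7
  have h8 : (B * B).trace = ∑ u, ∑ v, B u v ^ 2 := by
    simp only [trace, diag_apply, mul_apply, sq]
    exact sum_congr rfl fun u _ => sum_congr rfl fun v _ => by rw [h2 u v]
  rw [h1, h8, sum_sub_distrib, ← mul_sum]
  linarith

lemma trace_cast (k : ℕ) : (G.adjMatrix ℝ ^ k).trace = ((G.adjMatrix ℤ ^ k).trace : ℤ) := by
  rw [← adj_map, ← Matrix.map_pow]
  simp [trace]

lemma mom_graph [Nonempty V] {D : ℕ} (hD : 2 ≤ D) (hG : G.maxDegree ≤ D + 1) :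
    Mom D (G.adjMatrix ℝ).charpoly.roots := by
  have hA : (G.adjMatrix ℝ).IsHermitian := G.isSymm_adjMatrix
  have hc : (G.adjMatrix ℝ).charpoly.roots.card = Fintype.card V := by
    simp [hA.roots_charpoly_eq_eigenvalues]
  have hd : ∀ v, G.degree v ≤ D + 1 := fun v => (G.degree_le_maxDegree v).trans hG
  have h1 := sum_pow_roots hA 1
  have h2 := sum_pow_roots hA 2
  have h4 := sum_pow_roots hA 4
  rw [trace_cast, trace_two] at h2
  rw [trace_cast] at h4
  have h5 : ((∑ v, (2 * (G.degree v : ℤ) ^ 2 - G.degree v) : ℤ) : ℝ) ≤ _ :=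
    Int.cast_le.2 (trace_four G)
  rw [← h4] at h5
  push_cast at h2 h5
  refine ⟨hc ▸ Fintype.card_pos, fun x hx => ?_, by simpa using h1, ?_, ?_⟩
  · obtain ⟨k, hk⟩ := eigenvalue_mem_ball (A := G.adjMatrix ℝ) (μ := x) (by
      rw [Module.End.hasEigenvalue_iff_isRoot_charpoly, charpoly_toLin']
      exact isRoot_of_mem_roots hx)
    have h6 : ∑ j, ‖G.adjMatrix ℝ k j‖ = G.degree k := by
      simp [apply_ite, ← SimpleGraph.card_neighborFinset_eq_degree,
        SimpleGraph.neighborFinset_eq_filter]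
    have h7 : (G.degree k : ℝ) ≤ D + 1 := by exact_mod_cast hd k
    rw [mem_closedBall_iff_norm, sum_erase _ (by simp), h6] at hk
    simpa using hk.trans h7
  · have : ∑ v, (G.degree v : ℝ) ≤ ∑ _v : V, ((D : ℝ) + 1) :=
      sum_le_sum fun v _ => by exact_mod_cast hd v
    simp only [Multiset.sum_map_sub, h2, Multiset.map_const', Multiset.sum_replicate, hc,
      nsmul_eq_mul, sum_const, card_univ] at this ⊢
    linarith
  · have e4 : ∀ R : Multiset ℝ, (R.map fun x : ℝ => (x ^ 2 - D) * (((D : ℝ) + 1) ^ 2 - x ^ 2)).sum =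
        ((D + 1) ^ 2 + D) * (R.map fun r => r ^ 2).sum - (R.map fun r => r ^ 4).sum -
          R.card * (D * ((D : ℝ) + 1) ^ 2) := fun R => by
      induction R using Multiset.induction_on with
      | empty => simp
      | cons a R ih =>
        simp only [Multiset.map_cons, Multiset.sum_cons, ih, Multiset.card_cons]; push_cast; ring
    have : ∑ v, (((D + 1) ^ 2 + D) * (G.degree v : ℝ) - (2 * (G.degree v : ℝ) ^ 2 - G.degree v)) ≤
        ∑ _v : V, (D * ((D : ℝ) + 1) ^ 2) := sum_le_sum fun v _ => by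
      have h7 : (G.degree v : ℝ) ≤ D + 1 := by exact_mod_cast hd v
      have h8 : (2 : ℝ) ≤ D := by exact_mod_cast hD
      have h9 : 0 ≤ ((D : ℝ) + 1) ^ 2 - (D + 1) - 2 * G.degree v := by nlinarith
      nlinarith [mul_nonneg (sub_nonneg.2 h7) h9]
    rw [sum_sub_distrib, ← mul_sum, sum_const, card_univ, nsmul_eq_mul] at this
    rw [e4, h2, hc]
    linarith

lemma Mom.neg {D : ℕ} {R : Multiset ℝ} (h : Mom D R) : Mom D (R.map fun x => -x) := by
  refine ⟨by simpa using h.pos, by simpa using h.bd, by rw [Multiset.sum_map_neg', h.m1, neg_zero], ?_, ?_⟩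
  · simpa using h.m2
  · simpa using h.m4

theorem Good.graph [Nonempty V] {D : ℕ} (h : Good D) (hD : 2 ≤ D) (hG : G.maxDegree ≤ D + 1) :
    2 * ((G.adjMatrix ℝ).charpoly.roots.filter fun x => √(D : ℝ) < x).card < Fintype.card V ∧
    2 * ((G.adjMatrix ℝ).charpoly.roots.filter fun x => x < -√(D : ℝ)).card < Fintype.card V := by
  have hA : (G.adjMatrix ℝ).IsHermitian := G.isSymm_adjMatrix
  have hc : (G.adjMatrix ℝ).charpoly.roots.card = Fintype.card V := by
    simp [hA.roots_charpoly_eq_eigenvalues]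
  have hM := mom_graph G hD hG
  set f := (G.adjMatrix ℤ).charpoly
  have hf : f.map (Int.castRingHom ℝ) = (G.adjMatrix ℝ).charpoly := by
    rw [← adj_map, charpoly_map]
  have hm : f.Monic := charpoly_monic _
  have h1 := h f ⟨hm, hf ▸ hA.splits_charpoly⟩ (by rwa [rts, hf])
  rw [rts, hf, hc] at h1
  refine ⟨?_, h1⟩
  have hu : IsUnit ((-1 : ℝ) ^ f.natDegree) := isUnit_one.neg.pow _
  have e : ((-1) ^ f.natDegree * f.comp (-X)).map (Int.castRingHom ℝ) =
      C ((-1) ^ f.natDegree) * (G.adjMatrix ℝ).charpoly.comp (-X) := by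
    simp [← hf, Polynomial.map_comp]
  have e2 : rts ((-1) ^ f.natDegree * f.comp (-X)) =
      (G.adjMatrix ℝ).charpoly.roots.map fun x => -x := by
    rw [rts, e, roots_C_mul _ hu.ne_zero, roots_comp_neg_X]
  have h2 := h _ ⟨hm.neg_one_pow_natDegree_mul_comp_neg_X,
    e ▸ (Splits.C _).mul hA.splits_charpoly.comp_neg_X⟩ (e2 ▸ hM.neg)
  rw [e2, Multiset.filter_map, Multiset.card_map, Multiset.card_map, hc] at h2
  simpa [Function.comp_def] using h2

end Pool.Agent.H27.Med
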