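import Pool.Agent.H27.Energy1
import Pool.Agent.H27.MedGraph

set_option autoImplicit false

namespace Pool.Agent.H27.Energy

open Matrix Finset

variable {V : Type} [Fintype V] [DecidableEq V]

lemma psd_top {A : Matrix V V ℝ} (hA : A.IsHermitian) {c : ℝ} (h : ∀ i, hA.eigenvalues i ≤ c) :
    (c • (1 : Matrix V V ℝ) - A).PosSemidef := by
  have : c • (1 : Matrix V V ℝ) - A = Unitary.conjStarAlgAut ℝ _ hA.eigenvectorUnitary
      (diagonal fun i => c - hA.eigenvalues i) := by
    conv_lhs => rw [hA.spectral_theorem]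
    rw [← diagonal_sub, map_sub, ← smul_one_eq_diagonal, map_smul, map_one]
    rfl
  rw [this, Unitary.conjStarAlgAut_apply]
  exact (posSemidef_diagonal_iff.2 fun i => sub_nonneg.2 (h i)).mul_mul_conjTranspose_same _

lemma eigvec {A : Matrix V V ℝ} (hA : A.IsHermitian) (i : V) :
    ∃ v : V → ℝ, 0 < ∑ u, v u ^ 2 ∧ A *ᵥ v = hA.eigenvalues i • v := by
  refine ⟨_, ?_, hA.mulVec_eigenvectorBasis i⟩
  have := hA.eigenvectorBasis.orthonormal.1 i
  rw [EuclideanSpace.norm_eq, Real.sqrt_eq_one] at this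
  simp only [Real.norm_eq_abs, sq_abs] at this
  exact this ▸ one_pos

lemma perron {A : Matrix V V ℝ} (hA : A.IsHermitian) (h0 : ∀ u v, 0 ≤ A u v) {i : V}
    (h : ∀ j, hA.eigenvalues j ≤ hA.eigenvalues i) :
    ∃ w : V → ℝ, (∀ u, 0 ≤ w u) ∧ 0 < ∑ u, w u ∧ A *ᵥ w = hA.eigenvalues i • w := by
  obtain ⟨v, hv, hAv⟩ := eigvec hA i
  have hP := psd_top hA h
  refine ⟨fun u => |v u|, fun u => abs_nonneg _, ?_, ?_⟩
  · refine (sum_nonneg fun u _ => abs_nonneg _).lt_of_ne' fun h1 => hv.ne' ?_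
    rw [sum_eq_zero_iff_of_nonneg fun u _ => abs_nonneg _] at h1
    exact sum_eq_zero fun u hu => by rw [← sq_abs, h1 u hu]; simp
  have h1 : v ⬝ᵥ A *ᵥ v ≤ (fun u => |v u|) ⬝ᵥ A *ᵥ fun u => |v u| := by
    simp only [dotProduct, mulVec, mul_sum]
    refine sum_le_sum fun u _ => sum_le_sum fun t _ => (le_abs_self _).trans ?_
    rw [abs_mul, abs_mul, abs_of_nonneg (h0 u t)]
  have h2 : (fun u => |v u|) ⬝ᵥ (fun u => |v u|) = v ⬝ᵥ v := by simp [dotProduct]
  have h3 := (hP.dotProduct_mulVec_zero_iff fun u => |v u|).1 (le_antisymm (by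
    rw [hAv, dotProduct_smul] at h1
    rw [star_trivial, sub_mulVec, smul_mulVec, one_mulVec, dotProduct_sub, dotProduct_smul, h2]
    linarith) (hP.dotProduct_mulVec_nonneg _))
  rw [sub_mulVec, smul_mulVec, one_mulVec, sub_eq_zero] at h3
  exact h3.symm

variable (G : SimpleGraph V) [DecidableRel G.Adj]

lemma row_sum (u : V) : ∑ v, G.adjMatrix ℝ u v = G.degree u := by
  simp [← SimpleGraph.card_neighborFinset_eq_degree, SimpleGraph.neighborFinset_eq_filter]

lemma least (hA : (G.adjMatrix ℝ).IsHermitian) (i : V) :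
    -((Fintype.card V : ℝ) - G.minDegree) ≤ hA.eigenvalues i := by
  obtain ⟨v, hv, hAv⟩ := eigvec hA i
  refine le_of_mul_le_mul_right ?_ hv
  have h1 : hA.eigenvalues i * ∑ u, v u ^ 2 = ∑ u, ∑ t, G.adjMatrix ℝ u t * (v u * v t) := by
    have := congrArg (v ⬝ᵥ ·) hAv
    simp only [dotProduct_smul, smul_eq_mul] at this
    simp only [dotProduct, mulVec, mul_sum] at this
    simp only [mul_sum, sq, ← this]
    exact sum_congr rfl fun u _ => sum_congr rfl fun t _ => by ring
  have h2 : ∀ u t, v u * v t - ((1 - G.adjMatrix ℝ u t) * v u ^ 2 / 2 +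
      (1 - G.adjMatrix ℝ t u) * v t ^ 2 / 2) ≤ G.adjMatrix ℝ u t * (v u * v t) := fun u t => by
    simp only [SimpleGraph.adjMatrix_apply, G.adj_comm t]
    split_ifs <;> nlinarith [sq_nonneg (v u - v t)]
  have h3 := sum_le_sum fun u (_ : u ∈ univ) => sum_le_sum fun t (_ : t ∈ univ) => h2 u t
  have h4 : ∑ u, ∑ t, (1 - G.adjMatrix ℝ u t) * v u ^ 2 / 2 ≤
      ((Fintype.card V : ℝ) - G.minDegree) * (∑ u, v u ^ 2) / 2 := by
    rw [mul_sum, sum_div]
    refine sum_le_sum fun u _ => ?_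
    rw [← sum_div, ← sum_mul, sum_sub_distrib, row_sum]
    have : (G.minDegree : ℝ) ≤ G.degree u := by exact_mod_cast G.minDegree_le_degree u
    simp only [sum_const, card_univ, nsmul_eq_mul, mul_one]
    gcongr
  simp only [sum_sub_distrib, sum_add_distrib] at h3
  rw [← sum_mul_sum, sum_comm (f := fun u t => (1 - G.adjMatrix ℝ t u) * v t ^ 2 / 2)] at h3
  nlinarith [mul_self_nonneg (∑ u, v u)]

lemma top {w : V → ℝ} {c : ℝ} (h0 : ∀ u, 0 ≤ w u) (hs : 0 < ∑ u, w u)
    (hw : G.adjMatrix ℝ *ᵥ w = c • w) :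
    (G.minDegree : ℝ) ≤ c ∧
    c ^ 2 - (G.minDegree - 1) * c ≤ ∑ u, (G.degree u : ℝ) - (Fintype.card V - 1) * G.minDegree ∧
    ∀ v, G.degree v = Fintype.card V - 1 →
      (G.degree v : ℝ) - G.minDegree ≤ (c - G.minDegree) * (c + 1) := by
  have hd : ∀ u, (G.minDegree : ℝ) ≤ G.degree u := fun u => by
    exact_mod_cast G.minDegree_le_degree u
  have key : ∀ x : V → ℝ, ∑ u, (∑ t, G.adjMatrix ℝ u t * x t) * w u = c * ∑ u, x u * w u := by
    intro x
    have := congrArg (x ⬝ᵥ ·) hw
    simp only [dotProduct_smul, smul_eq_mul] at this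
    simp only [dotProduct, mulVec, mul_sum] at this
    simp only [mul_sum, sum_mul, ← this]
    rw [sum_comm]
    refine sum_congr rfl fun u _ => sum_congr rfl fun t _ => ?_
    simp only [SimpleGraph.adjMatrix_apply, G.adj_comm t]
    ring
  have h1 := key 1
  have h2 := key fun u => G.degree u
  simp only [Pi.one_apply, mul_one, one_mul, row_sum] at h1
  refine ⟨le_of_mul_le_mul_right ?_ hs, le_of_mul_le_mul_right ?_ hs, fun v hv => ?_⟩
  · rw [← h1, mul_sum]
    exact sum_le_sum fun u _ => mul_le_mul_of_nonneg_right (hd u) (h0 u)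
  · have : (c ^ 2 - (G.minDegree - 1) * c) * ∑ u, w u =
        ∑ u, ((∑ t, G.adjMatrix ℝ u t * G.degree t) - (G.minDegree - 1) * G.degree u) * w u := by
      simp only [sub_mul _ _ (w _), sum_sub_distrib, mul_assoc, ← mul_sum]
      rw [h2, h1]; ring
    rw [this, mul_sum]
    refine sum_le_sum fun u _ => mul_le_mul_of_nonneg_right ?_ (h0 u)
    have h3 := single_le_sum (f := fun t => (1 - G.adjMatrix ℝ u t) * (G.degree t - G.minDegree))
      (fun t _ => mul_nonneg (by rw [SimpleGraph.adjMatrix_apply]; split_ifs <;> simp)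
        (sub_nonneg.2 (hd t))) (mem_univ u)
    simp only [sub_mul, mul_sub, one_mul, sum_sub_distrib, ← sum_mul, row_sum, sum_const, card_univ,
      nsmul_eq_mul, mul_one] at h3
    simp only [SimpleGraph.adjMatrix_apply, G.irrefl, if_false] at h3 ⊢
    linarith
  · have h3 := (G.degree_eq_card_sub_one v).1 hv
    have h4 : c * w v = ∑ u, w u - w v := by
      have := congrFun hw v
      simp only [mulVec, dotProduct, Pi.smul_apply, smul_eq_mul] at this
      rw [← this, ← sum_erase_eq_sub (mem_univ v), ← sum_erase (s := univ) (a := v) (by simp)]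
      exact sum_congr rfl fun u hu => by simp [h3 (ne_of_mem_erase hu).symm]
    have h5 := single_le_sum (f := fun t => ((G.degree t : ℝ) - G.minDegree) * w t)
      (fun t _ => mul_nonneg (sub_nonneg.2 (hd t)) (h0 t)) (mem_univ v)
    simp only [sub_mul, sum_sub_distrib, ← mul_sum, h1] at h5
    have hc : 0 ≤ c + 1 := by
      by_contra h
      nlinarith [h0 v]
    refine le_of_mul_le_mul_right ?_ hs
    have h6 := mul_le_mul_of_nonneg_right h5 hc
    have h7 : ∑ u, w u = (c + 1) * w v := by linarith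
    calc _ = ((G.degree v : ℝ) * w v - G.minDegree * w v) * (c + 1) := by rw [h7]; ring
      _ ≤ _ := h6
      _ = _ := by ring

lemma twins [Nonempty V] (h : G.minDegree + 2 = Fintype.card V) : (G.adjMatrix ℝ).det = 0 := by
  obtain ⟨u, hu⟩ := G.exists_minimal_degree_vertex
  have h1 : ∀ w, (Gᶜ.neighborFinset w).card ≤ 1 := fun w => by
    have := G.minDegree_le_degree w
    rw [SimpleGraph.card_neighborFinset_eq_degree, SimpleGraph.degree_compl]
    omega
  obtain ⟨v, hv⟩ : (Gᶜ.neighborFinset u).Nonempty := by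
    rw [← card_pos, SimpleGraph.card_neighborFinset_eq_degree, SimpleGraph.degree_compl]
    omega
  rw [SimpleGraph.mem_neighborFinset] at hv
  have key : ∀ a b w, Gᶜ.Adj a b → G.Adj b w → G.Adj a w := fun a b w hab hw => by
    by_contra h2
    have h3 : a ≠ w := by rintro rfl; exact hab.2 hw.symm
    have := card_le_one.1 (h1 a) b (by simpa using hab) w (by simp [h2, h3])
    exact hw.ne this
  refine det_zero_of_row_eq hv.ne (funext fun w => ?_)
  simp only [SimpleGraph.adjMatrix_apply]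
  exact if_congr ⟨key v u w hv.symm, key u v w hv⟩ rfl rfl

end Pool.Agent.H27.Energy
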