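import Pool.Agent.H27.Energy2

set_option autoImplicit false

namespace Pool.Agent.H27.Energy

open Matrix Finset

theorem main (V : Type) [Fintype V] [DecidableEq V] (G : SimpleGraph V) [DecidableRel G.Adj]
    (hA : (G.adjMatrix ℝ).IsHermitian) (hdet : (G.adjMatrix ℝ).det ≠ 0) :
    ((G.maxDegree + G.minDegree : ℕ) : ℝ) ≤ ∑ i, |hA.eigenvalues i| := by
  cases isEmpty_or_nonempty V
  · simp
  obtain ⟨i, -, hi⟩ := exists_max_image univ hA.eigenvalues univ_nonempty
  obtain ⟨w, hw0, hws, hw⟩ := perron hA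
    (fun u v => by rw [SimpleGraph.adjMatrix_apply]; split_ifs <;> simp) fun j => hi j (mem_univ j)
  obtain ⟨t1, t2, t3⟩ := top G hw0 hws hw
  have hprod := hA.det_eq_prod_eigenvalues
  simp only [RCLike.ofReal_real_eq_id, id] at hprod
  have hne : ∀ j, hA.eigenvalues j ≠ 0 := fun j =>
    prod_ne_zero_iff.1 (hprod ▸ hdet) j (mem_univ j)
  have hlog : 0 ≤ ∑ j, Real.log (hA.eigenvalues j) := by
    rw [← Real.log_prod fun j _ => hne j, ← hprod, ← Med.adj_map, ← RingHom.mapMatrix_apply,
      ← RingHom.map_det]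
    exact Real.log_intCast_nonneg _
  have h1 : ∑ j, hA.eigenvalues j = 0 := by
    simpa using hA.trace_eq_sum_eigenvalues.symm
  have h2 : ∑ j, hA.eigenvalues j ^ 2 = ∑ u, (G.degree u : ℝ) := by
    have := Med.sum_pow_roots hA 2
    rw [Med.trace_cast, Med.trace_two, hA.roots_charpoly_eq_eigenvalues, Multiset.map_map] at this
    simpa using this
  have hl := least G hA
  obtain ⟨v, hv⟩ := G.exists_maximal_degree_vertex
  have hn := G.degree_lt_card_verts v
  have hδ := G.minDegree_le_degree v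
  have htw : G.minDegree + 2 ≠ Fintype.card V := fun h => hdet (twins G h)
  rw [← add_sum_erase _ _ (mem_univ i)] at hlog h1 h2 ⊢
  have hc : ((univ.erase i).card : ℝ) = Fintype.card V - 1 := by
    rw [card_erase_of_mem (mem_univ i), card_univ, Nat.cast_sub (by omega), Nat.cast_one]
  replace t3 := t3 v
  rw [← hv] at t3 hn hδ
  clear hv
  generalize G.maxDegree = Δ at *
  generalize G.minDegree = δ at *
  generalize Fintype.card V = n at *
  set x := hA.eigenvalues
  set T := univ.erase i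
  have hx : 0 < x i := lt_of_le_of_ne ((Nat.cast_nonneg δ).trans t1) (hne i).symm
  have hn' : (Δ : ℝ) + 1 ≤ n := by exact_mod_cast hn
  by_contra hlt
  rw [not_le, abs_of_pos hx] at hlt
  push_cast at hlt
  have h3 : ∑ j ∈ T, (|x j| + x j) = ∑ j ∈ T, |x j| - x i := by rw [sum_add_distrib]; linarith
  have h4 : ∀ j, 0 ≤ |x j| + x j := fun j => by linarith [neg_abs_le (x j)]
  have h5 := sum_nonneg fun j (_ : j ∈ T) => h4 j
  rcases le_or_gt δ 1 with hd | hd
  · have h6 := sum_le_sum fun j (_ : j ∈ T) => Real.log_le_sub_one_of_pos (abs_pos.2 (hne j))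
    have h7 := Real.log_le_sub_one_of_pos hx
    have h8 : (δ : ℝ) ≤ 1 := by exact_mod_cast hd
    simp only [Real.log_abs, sum_sub_distrib, sum_const, nsmul_eq_mul, hc] at h6
    linarith
  have h6 : δ < Δ := by exact_mod_cast (by linarith : (δ : ℝ) < Δ)
  have hk : (2 : ℝ) ≤ n - 1 - δ := by
    have : ((δ + 3 : ℕ) : ℝ) ≤ n := Nat.cast_le.2 (by omega)
    push_cast at this
    linarith
  have h7 := sum_le_sum fun j (hj : j ∈ T) => pade' (k := n - 1 - δ) (abs_pos.2 (hne j)) (by
    have := single_le_sum (fun j _ => h4 j) hj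
    rcases le_total 0 (x j) with h | h
    · rw [abs_of_nonneg h] at this ⊢; linarith
    · rw [abs_of_nonpos h]; linarith [hl j])
  have h8 := final (e := x i - δ) (j := n - 1 - Δ) hd hk (by linarith) (by linarith) (by
    rcases (Nat.succ_le_of_lt hn).lt_or_eq with h | h
    · left
      have : ((Δ + 2 : ℕ) : ℝ) ≤ n := Nat.cast_le.2 h
      push_cast at this
      linarith
    · have h9 : (Δ : ℝ) = n - 1 := by rw [← h]; simp
      have := t3 (by omega)
      exact Or.inr ⟨by linarith, by rw [add_sub_cancel]; linarith⟩)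
  rw [add_sub_cancel] at h8
  simp only [Real.log_abs, sum_sub_distrib, sum_const, nsmul_eq_mul, hc, ← mul_sum, sub_sq, sq_abs,
    sum_add_distrib, mul_one, one_pow] at h7
  have hγ : 0 ≤ 3 / (4 * ((n : ℝ) - 1 - δ) + 6) := by positivity
  have h9 := mul_le_mul_of_nonneg_left (show ((δ : ℝ) - 1) * (n - 1 - δ - (x i - δ)) +
    2 * (x i - δ) + 2 * (n - 1 - Δ) ≤ ∑ j ∈ T, x j ^ 2 - 2 * ∑ j ∈ T, |x j| + (n - 1) by
      linarith) hγ
  linarith

end Pool.Agent.H27.Energy
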