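import Mathlib

set_option autoImplicit false

namespace Pool.Agent.H27.ErdSar

/-- base-5 digit -/
def dig (x i : ℕ) : ℕ := x / 5 ^ i % 5

lemma dig_lt (x i : ℕ) : dig x i < 5 := Nat.mod_lt _ (by norm_num)

lemma mod_succ (x i : ℕ) : x % 5 ^ (i + 1) = x % 5 ^ i + 5 ^ i * dig x i := Nat.mod_pow_succ

lemma dig_mod {x i m : ℕ} (h : i < m) : dig (x % 5 ^ m) i = dig x i := by
  obtain ⟨k, rfl⟩ := Nat.exists_eq_add_of_lt h
  unfold dig
  rw [add_assoc, pow_add, Nat.mod_mul_right_div_self, Nat.mod_mod_of_dvd]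
  exact dvd_pow_self 5 (by omega)

lemma dig_congr {x y i m : ℕ} (h : i < m) (e : x % 5 ^ m = y % 5 ^ m) : dig x i = dig y i := by
  rw [← dig_mod h, e, dig_mod h]

lemma dig_div (x m i : ℕ) : dig (x / 5 ^ m) i = dig x (m + i) := by
  unfold dig
  rw [Nat.div_div_eq_div_mul, pow_add]

lemma dig_of_div {x y m i : ℕ} (h : m ≤ i) (e : x / 5 ^ m = y / 5 ^ m) : dig x i = dig y i := by
  obtain ⟨k, rfl⟩ := Nat.exists_eq_add_of_le h
  rw [← dig_div, e, dig_div]

lemma mod_eq_of_dig {x y : ℕ} (m : ℕ) (h : ∀ i < m, dig x i = dig y i) :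
    x % 5 ^ m = y % 5 ^ m := by
  induction m with
  | zero => simp [Nat.mod_one]
  | succ m ih => rw [mod_succ, mod_succ, ih (fun i hi => h i (by omega)), h m (by omega)]

lemma eq_of_mod_div {x y : ℕ} (m : ℕ) (h1 : x % 5 ^ m = y % 5 ^ m) (h2 : x / 5 ^ m = y / 5 ^ m) :
    x = y := by
  rw [← Nat.mod_add_div x (5 ^ m), h1, h2, Nat.mod_add_div]

lemma dig_add_mul {x t i m : ℕ} (h : i < m) : dig (x + 5 ^ m * t) i = dig x i :=
  dig_congr h (Nat.add_mul_mod_self_left _ _ _)

lemma div_add_mul {x t m : ℕ} (h : x < 5 ^ m) : (x + 5 ^ m * t) / 5 ^ m = t := by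
  rw [Nat.add_mul_div_left _ _ (by positivity), Nat.div_eq_of_lt h, zero_add]

lemma dig_top {x d m : ℕ} (h : x < 5 ^ m) (hd : d < 5) : dig (x + 5 ^ m * d) m = d := by
  unfold dig
  rw [div_add_mul h, Nat.mod_eq_of_lt hd]

/-- number with prescribed digits -/
def num (f : ℕ → ℕ) : ℕ → ℕ
  | 0 => 0
  | m + 1 => num f m + 5 ^ m * f m

lemma num_lt {f : ℕ → ℕ} (hf : ∀ i, f i < 5) (m : ℕ) : num f m < 5 ^ m := by
  induction m with
  | zero => simp [num]
  | succ m ih =>
    have := hf m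
    simp only [num, pow_succ]
    nlinarith

lemma dig_num {f : ℕ → ℕ} (hf : ∀ i, f i < 5) {m i : ℕ} (h : i < m) : dig (num f m) i = f i := by
  induction m with
  | zero => omega
  | succ m ih =>
    rcases Nat.lt_succ_iff_lt_or_eq.mp h with h1 | rfl
    · simp only [num]
      rw [dig_add_mul h1, ih h1]
    · exact dig_top (num_lt hf i) (hf i)

lemma dig_of_lt {x m i : ℕ} (h : x < 5 ^ m) (hi : m ≤ i) : dig x i = 0 := by
  unfold dig
  rw [Nat.div_eq_of_lt (lt_of_lt_of_le h (Nat.pow_le_pow_right (by norm_num) hi))]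

lemma num_split (x : ℕ) (p : ℕ → Prop) [DecidablePred p] (m : ℕ) :
    x % 5 ^ m = num (fun i => if p i then dig x i else 0) m +
      num (fun i => if p i then 0 else dig x i) m := by
  induction m with
  | zero => simp [num, Nat.mod_one]
  | succ m ih =>
    rw [mod_succ, ih]
    simp only [num]
    split_ifs <;> ring

lemma num_congr {f g : ℕ → ℕ} {m : ℕ} (h : ∀ i < m, f i = g i) : num f m = num g m := by
  induction m with
  | zero => rfl
  | succ m ih => simp only [num]; rw [ih (fun i hi => h i (by omega)), h m (by omega)]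

/-- sequential uniqueness of digits -/
lemma seq_unique {a b a' b' : ℕ} (h : a + b = a' + b') (m : ℕ)
    (hd : ∀ i < m, (a % 5 ^ i = a' % 5 ^ i → dig a i = dig a' i) ∨
      (b % 5 ^ i = b' % 5 ^ i → dig b i = dig b' i)) :
    a % 5 ^ m = a' % 5 ^ m ∧ b % 5 ^ m = b' % 5 ^ m := by
  induction m with
  | zero => simp [Nat.mod_one]
  | succ m ih =>
    obtain ⟨h1, h2⟩ := ih (fun i hi => hd i (by omega))
    rcases hd m (by omega) with h3 | h3
    · have e : a % 5 ^ (m + 1) = a' % 5 ^ (m + 1) := by rw [mod_succ, mod_succ, h1, h3 h1]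
      refine ⟨e, ?_⟩
      exact Nat.ModEq.add_left_cancel (n := 5 ^ (m + 1)) e (by rw [h])
    · have e : b % 5 ^ (m + 1) = b' % 5 ^ (m + 1) := by rw [mod_succ, mod_succ, h2, h3 h2]
      refine ⟨?_, e⟩
      exact Nat.ModEq.add_right_cancel (n := 5 ^ (m + 1)) e (by rw [h])

/-- sequential existence of digits -/
lemma seq_exists (F G : ℕ → ℕ → ℕ) (hF : ∀ i x, F i x < 5) (hG : ∀ i x, G i x < 5)
    (p : ℕ → Prop) (n m : ℕ) :
    ∃ a b, a < 5 ^ m ∧ b < 5 ^ m ∧ (a + b) % 5 ^ m = n % 5 ^ m ∧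
      (∀ i < m, p i → dig a i = F i (a % 5 ^ i)) ∧ (∀ i < m, ¬ p i → dig b i = G i (b % 5 ^ i)) := by
  induction m with
  | zero => exact ⟨0, 0, by simp, by simp, by simp [Nat.mod_one], by simp, by simp⟩
  | succ m ih =>
    obtain ⟨a, b, ha, hb, hab, h1, h2⟩ := ih
    have key : ∀ d e : ℕ, d < 5 → e < 5 → (dig (a + b) m + d + e) % 5 = dig n m →
        (p m → d = F m a) → (¬ p m → e = G m b) →
        ∃ a b, a < 5 ^ (m + 1) ∧ b < 5 ^ (m + 1) ∧ (a + b) % 5 ^ (m + 1) = n % 5 ^ (m + 1) ∧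
          (∀ i < m + 1, p i → dig a i = F i (a % 5 ^ i)) ∧
          (∀ i < m + 1, ¬ p i → dig b i = G i (b % 5 ^ i)) := by
      intro d e hd he hde e1 e2
      have modi : ∀ x c i, i ≤ m → (x + 5 ^ m * c) % 5 ^ i = x % 5 ^ i := by
        intro x c i hi
        obtain ⟨k, rfl⟩ := Nat.exists_eq_add_of_le hi
        rw [pow_add, mul_assoc, Nat.add_mul_mod_self_left]
      refine ⟨a + 5 ^ m * d, b + 5 ^ m * e, ?_, ?_, ?_, ?_, ?_⟩
      · rw [pow_succ]; nlinarith
      · rw [pow_succ]; nlinarith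
      · rw [show a + 5 ^ m * d + (b + 5 ^ m * e) = a + b + 5 ^ m * (d + e) by ring, mod_succ,
          mod_succ, Nat.add_mul_mod_self_left, hab, ← hde]
        congr 2
        unfold dig
        rw [Nat.add_mul_div_left _ _ (by positivity)]
        omega
      · intro i hi hp
        rw [modi _ _ _ (by omega)]
        rcases Nat.lt_succ_iff_lt_or_eq.mp hi with h3 | rfl
        · rw [dig_add_mul h3, h1 i h3 hp]
        · rw [dig_top ha hd, Nat.mod_eq_of_lt ha, e1 hp]
      · intro i hi hp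
        rw [modi _ _ _ (by omega)]
        rcases Nat.lt_succ_iff_lt_or_eq.mp hi with h3 | rfl
        · rw [dig_add_mul h3, h2 i h3 hp]
        · rw [dig_top hb he, Nat.mod_eq_of_lt hb, e2 hp]
    have b1 := dig_lt n m
    have b2 := dig_lt (a + b) m
    by_cases hp : p m
    · have b3 := hF m a
      exact key (F m a) ((dig n m + 10 - dig (a + b) m - F m a) % 5) b3 (by omega) (by omega)
        (fun _ => rfl) (fun h => absurd hp h)
    · have b3 := hG m b
      exact key ((dig n m + 10 - dig (a + b) m - G m b) % 5) (G m b) (by omega) b3 (by omega)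
        (fun h => absurd h hp) (fun _ => rfl)

/-- admissible residues and tops -/
def R (y : ℕ) : Prop := 5 ≤ y ∧ y < 20 ∧ 1 ≤ y % 5 ∧ y % 5 ≤ 3

def T (t : ℕ) : Prop := t < 625 ∧ R (t % 25) ∧ ¬ R (t / 25)

instance : DecidablePred R := fun y => by unfold R; infer_instance
instance : DecidablePred T := fun y => by unfold T; infer_instance

lemma T_sum : ∀ v < 325, 12 ≤ v → ∃ t < v, T t ∧ T (v - t) := by decide +kernel

def flip (i : ℕ) : ℕ := if i % 2 = 0 then i + 1 else i - 1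

/-- level `j` of the set with free digits at the positions of parity `r` -/
def S (r j a : ℕ) : Prop := T (a / 5 ^ (2 * j)) ∧ ∀ i < 2 * j, i % 2 ≠ r →
  dig a i = if i < 2 * (j - j / 3) then 0 else dig a (flip (i - 2 * (j - j / 3)))

lemma T_lev {x k : ℕ} (h1 : T x) (h2 : T (x / 5 ^ (2 * (k + 1)))) : False := by
  rcases Nat.eq_zero_or_pos k with rfl | hk
  · unfold T R at h1 h2
    norm_num at h2
    omega
  · have : x / 5 ^ (2 * (k + 1)) = 0 := by
      apply Nat.div_eq_of_lt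
      exact lt_of_lt_of_le h1.1 (le_trans (by norm_num)
        (Nat.pow_le_pow_right (by norm_num) (show 4 ≤ 2 * (k + 1) by omega)))
    rw [this] at h2
    exact absurd h2 (by decide)

lemma lev_unique {a j j' : ℕ} (h1 : T (a / 5 ^ (2 * j))) (h2 : T (a / 5 ^ (2 * j'))) : j = j' := by
  have key : ∀ j j', j < j' → T (a / 5 ^ (2 * j)) → T (a / 5 ^ (2 * j')) → False := by
    intro j j' h h1 h2
    obtain ⟨k, rfl⟩ := Nat.exists_eq_add_of_lt h
    apply T_lev (k := k) h1
    rw [Nat.div_div_eq_div_mul, ← pow_add]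
    convert h2 using 3
    ring
  rcases lt_trichotomy j j' with h | h | h
  · exact (key j j' h h1 h2).elim
  · exact h
  · exact (key j' j h h2 h1).elim

lemma S_bounds {r j a : ℕ} (h : S r j a) : 5 * 5 ^ (2 * j) ≤ a ∧ a < 5 ^ (2 * (j + 2)) := by
  obtain ⟨h1, h2, _⟩ := h.1
  constructor
  · rw [← Nat.le_div_iff_mul_le (by positivity)]
    exact le_trans h2.1 (Nat.mod_le _ _)
  · rw [Nat.div_lt_iff_lt_mul (by positivity)] at h1
    rw [show 2 * (j + 2) = 4 + 2 * j by ring, pow_add]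
    exact h1

lemma cover (n : ℕ) (hn : 13 ≤ n) : ∃ j a b, S 0 j a ∧ S 1 j b ∧ a + b = n := by
  obtain ⟨j, hj1, hj2⟩ : ∃ j, 13 ≤ n / 5 ^ (2 * j) ∧ n / 5 ^ (2 * j) < 325 := by
    induction n using Nat.strong_induction_on with
    | _ n ih =>
      by_cases h : n < 325
      · exact ⟨0, by simpa using hn, by simpa using h⟩
      · obtain ⟨j, h1⟩ := ih (n / 25) (by omega) (by omega)
        refine ⟨j + 1, ?_⟩
        rwa [Nat.div_div_eq_div_mul, show 25 * 5 ^ (2 * j) = 5 ^ (2 * (j + 1)) by ring] at h1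
  let F : ℕ → ℕ → ℕ := fun i x =>
    if i < 2 * (j - j / 3) then 0 else dig x (flip (i - 2 * (j - j / 3)))
  have hF : ∀ i x, F i x < 5 := by
    intro i x
    simp only [F]
    split_ifs
    · norm_num
    · exact dig_lt _ _
  obtain ⟨a, b, ha, hb, hab, h1, h2⟩ := seq_exists F F hF hF (fun i => i % 2 ≠ 0) n (2 * j)
  have hk : (a + b) / 5 ^ (2 * j) < 2 := by
    rw [Nat.div_lt_iff_lt_mul (by positivity)]; omega
  have e1 := Nat.mod_add_div (a + b) (5 ^ (2 * j))
  have e2 := Nat.mod_add_div n (5 ^ (2 * j))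
  generalize n / 5 ^ (2 * j) = w at hj1 hj2 e2
  generalize (a + b) / 5 ^ (2 * j) = κ at hk e1
  obtain ⟨t, ht, t1, t2⟩ := T_sum (w - κ) (by omega) (by omega)
  have rule : ∀ r x t, x < 5 ^ (2 * j) → T t → (∀ i < 2 * j, i % 2 ≠ r → dig x i = F i (x % 5 ^ i)) →
      S r j (x + 5 ^ (2 * j) * t) := by
    intro r x t hx ht h
    refine ⟨by rwa [div_add_mul hx], fun i hi hr => ?_⟩
    rw [dig_add_mul hi, h i hi hr]
    simp only [F]
    split_ifs with h3
    · rfl
    · have : flip (i - 2 * (j - j / 3)) < i := by unfold flip; split_ifs <;> omega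
      rw [dig_mod this, dig_add_mul (by omega)]
  refine ⟨j, _, _, rule 0 a t ha t1 h1, rule 1 b _ hb t2 (fun i hi hr => h2 i hi (by omega)), ?_⟩
  obtain ⟨v, hv⟩ : ∃ v, w = κ + t + v := ⟨w - κ - t, by omega⟩
  rw [show w - κ - t = v by omega]
  rw [hv, ← hab] at e2
  nlinarith

end Pool.Agent.H27.ErdSar
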