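import Mathlib
import Pool.Agent.H27.ErdSarA

set_option autoImplicit false

namespace Pool.Agent.H27.ErdSar

open Filter Topology

lemma sep {r u u' b b' j j' : ℕ} (hr : r < 2) (hj : j + 3 ≤ j') (hb : b < 5 ^ (2 * (j + 2)))
    (ht : T (b' / 5 ^ (2 * j'))) (h1 : dig u (2 * j' + (1 - r)) = 0)
    (h2 : dig u (2 * j' + (1 - r) - 2) = 0) (h3 : dig u' (2 * j' + (1 - r)) = 0)
    (h : u + b = u' + b') : False := by
  set m := 2 * j' + (1 - r) - 2 with hm
  have a1 : b < 5 ^ m := lt_of_lt_of_le hb (Nat.pow_le_pow_right (by norm_num) (by omega))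
  have a2 : u % 5 ^ (m + 1) < 5 ^ m := by
    rw [mod_succ, h2, mul_zero, add_zero]
    exact Nat.mod_lt _ (by positivity)
  have a3 : (u + b) / 5 ^ (m + 1) = u / 5 ^ (m + 1) := by
    conv_lhs => rw [← Nat.mod_add_div u (5 ^ (m + 1)), add_right_comm]
    apply div_add_mul
    rw [pow_succ] at a2 ⊢
    omega
  have a4 : dig (u' + b') (2 * j' + (1 - r)) = 0 := by
    rw [← h, dig_of_div (by omega) a3, h1]
  rw [← dig_div] at a4 h3
  rw [Nat.add_div (by positivity)] at a4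
  generalize u' / 5 ^ (2 * j') = w at a4 h3
  generalize b' / 5 ^ (2 * j') = t at a4 ht
  unfold T R at ht
  unfold dig at a4 h3
  interval_cases r <;> norm_num at a4 h3 <;> split_ifs at a4 <;> omega

lemma flip_lt {i q : ℕ} (h0 : 0 < q) (h2 : q % 2 = 0) (h : q ≤ i) : flip (i - q) < i := by
  unfold flip; split_ifs <;> omega

lemma det {r j a a' : ℕ} (h1 : S r j a) (h2 : S r j a') (ht : a / 5 ^ (2 * j) = a' / 5 ^ (2 * j))
    {i : ℕ} (hi : i % 2 ≠ r) (e : a % 5 ^ i = a' % 5 ^ i) : dig a i = dig a' i := by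
  by_cases h : i < 2 * j
  · rw [h1.2 i h hi, h2.2 i h hi]
    split_ifs with h3
    · rfl
    · exact dig_congr (flip_lt (by omega) (by omega) (by omega)) e
  · exact dig_of_div (by omega) ht

lemma U1 {r r' j k a a' b b' : ℕ} (hr : r ≠ r') (h1 : S r j a) (h2 : S r j a') (h3 : S r' k b)
    (h4 : S r' k b') (ht : a / 5 ^ (2 * j) = a' / 5 ^ (2 * j))
    (ht' : b / 5 ^ (2 * k) = b' / 5 ^ (2 * k)) (h : a + b = a' + b') : a = a' := by
  refine eq_of_mod_div (2 * j) (seq_unique h (2 * j) (fun i _ => ?_)).1 ht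
  by_cases hi : i % 2 = r
  · exact Or.inr (det h3 h4 ht' (by omega))
  · exact Or.inl (det h1 h2 ht hi)

lemma U2 {r r' J j j' a a' b b' : ℕ} (hr : r ≠ r') (hr2 : r < 2) (h1 : S r J a) (h2 : S r J a')
    (h3 : S r' j b) (h4 : S r' j' b') (ht : a / 5 ^ (2 * J) = a' / 5 ^ (2 * J)) (hj' : j' ≤ J)
    (hc : J / 3 ≤ j - j / 3 ↔ J / 3 ≤ j' - j' / 3) (h : a + b = a' + b') (hj : j + 3 ≤ j') :
    False := by
  by_cases hs : J / 3 ≤ j' - j' / 3
  · have hs' := hc.mpr hs
    have e := (seq_unique h (2 * (J / 3)) (fun i hi => by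
      by_cases hi2 : i % 2 = r
      · right
        intro _
        rw [h3.2 i (by omega) (by omega), h4.2 i (by omega) (by omega), if_pos (by omega),
          if_pos (by omega)]
      · left
        intro _
        rw [h1.2 i (by omega) hi2, h2.2 i (by omega) hi2, if_pos (by omega),
          if_pos (by omega)])).1
    have hz : ∀ x i, i % 2 ≠ r → dig (num (fun i => if i % 2 = r then dig x i else 0) (2 * J)) i = 0 := by
      intro x i hi
      have hf : ∀ i, (if i % 2 = r then dig x i else 0) < 5 := by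
        intro i
        split_ifs
        · exact dig_lt _ _
        · norm_num
      by_cases h5 : i < 2 * J
      · rw [dig_num hf h5, if_neg hi]
      · exact dig_of_lt (num_lt hf _) (by omega)
    have hc : num (fun i => if i % 2 = r then 0 else dig a i) (2 * J) =
        num (fun i => if i % 2 = r then 0 else dig a' i) (2 * J) := by
      apply num_congr
      intro i hi
      split_ifs with h5
      · rfl
      · rw [h1.2 i hi h5, h2.2 i hi h5]
        split_ifs with h6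
        · rfl
        · exact dig_congr (by unfold flip; split_ifs <;> omega) e
    refine sep hr2 hj (S_bounds h3).2 h4.1 (hz a _ (by omega)) (hz a _ (by omega))
      (hz a' _ (by omega)) ?_
    have e1 := Nat.mod_add_div a (5 ^ (2 * J))
    have e2 := Nat.mod_add_div a' (5 ^ (2 * J))
    rw [num_split a (fun i => i % 2 = r)] at e1
    rw [num_split a' (fun i => i % 2 = r), ← hc, ← ht] at e2
    omega
  · refine sep hr2 hj (S_bounds h3).2 h4.1 ?_ ?_ ?_ h
    · rw [h1.2 _ (by omega) (by omega), if_pos (by omega)]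
    · rw [h1.2 _ (by omega) (by omega), if_pos (by omega)]
    · rw [h2.2 _ (by omega) (by omega), if_pos (by omega)]

lemma U3 {r r' r'' J j k a a' b b' : ℕ} (h1 : S r J a) (h2 : S r' j a') (h3 : S r'' k b')
    (hk : k ≤ j) (h : a + b = a' + b') (hj : j + 3 ≤ J) : False := by
  have a1 := (S_bounds h1).1
  have a2 := (S_bounds h2).2
  have a3 := (S_bounds h3).2
  have a4 : 5 ^ (2 * (j + 2)) ≤ 5 ^ (2 * J) := Nat.pow_le_pow_right (by norm_num) (by omega)
  have a5 : 5 ^ (2 * (k + 2)) ≤ 5 ^ (2 * J) := Nat.pow_le_pow_right (by norm_num) (by omega)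
  omega

lemma U4 {r r' j j' k k' a a' b b' : ℕ} (hr : r ≠ r') (hr2 : r < 2) (h1 : S r j a) (h2 : S r j' a')
    (h3 : S r' k b) (h4 : S r' k' b') (hk : k ≤ j) (hk' : k' ≤ j') (m1 : j % 3 = j' % 3)
    (m2 : k % 3 = k' % 3) (ht : a / 5 ^ (2 * j) = a' / 5 ^ (2 * j'))
    (ht' : b / 5 ^ (2 * k) = b' / 5 ^ (2 * k'))
    (hc : j / 3 ≤ k - k / 3 ↔ j' / 3 ≤ k' - k' / 3) (h : a + b = a' + b') : a = a' := by
  have e1 : j = j' := by
    by_contra hne
    rcases Nat.lt_or_gt_of_ne hne with h5 | h5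
    · exact U3 h2 h1 h3 hk h.symm (by omega)
    · exact U3 h1 h2 h4 hk' h (by omega)
  subst e1
  have e2 : k = k' := by
    by_contra hne
    rcases Nat.lt_or_gt_of_ne hne with h5 | h5
    · exact U2 hr hr2 h1 h2 h3 h4 ht hk' hc h (by omega)
    · exact U2 hr hr2 h2 h1 h4 h3 ht.symm hk hc.symm h.symm (by omega)
  subst e2
  exact U1 hr h1 h2 h3 h4 ht ht' h

def A (r : ℕ) : Set ℕ := {a | ∃ j, S r j a}

lemma bounded : ∃ C, ∀ n, Set.ncard {a : ℕ | a ∈ A 0 ∧ ∃ b ∈ A 1, a + b = n} ≤ C := by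
  classical
  refine ⟨(Set.univ : Set (Fin 3 × Fin 3 × Fin 625 × Fin 625 × Prop × Prop)).ncard, fun n => ?_⟩
  have hex : ∀ a, a ∈ {a : ℕ | a ∈ A 0 ∧ ∃ b ∈ A 1, a + b = n} →
      ∃ p : ℕ × ℕ × ℕ, S 0 p.1 a ∧ S 1 p.2.1 p.2.2 ∧ a + p.2.2 = n := by
    rintro a ⟨⟨j, hj⟩, b, ⟨k, hk⟩, h⟩
    exact ⟨(j, k, b), hj, hk, h⟩
  choose! p hp using hex
  refine Set.ncard_le_ncard_of_injOn (fun a =>
    (⟨(p a).1 % 3, by omega⟩, ⟨(p a).2.1 % 3, by omega⟩,
      ⟨a / 5 ^ (2 * (p a).1) % 625, by omega⟩, ⟨(p a).2.2 / 5 ^ (2 * (p a).2.1) % 625, by omega⟩,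
      (p a).2.1 ≤ (p a).1,
      max (p a).1 (p a).2.1 / 3 ≤ min (p a).1 (p a).2.1 - min (p a).1 (p a).2.1 / 3))
    (fun _ _ => Set.mem_univ _) ?_ Set.finite_univ
  intro a ha a' ha' e
  obtain ⟨h1, h2, h3⟩ := hp a ha
  obtain ⟨h4, h5, h6⟩ := hp a' ha'
  simp only [Prod.mk.injEq, Fin.mk.injEq, eq_iff_iff] at e
  obtain ⟨e1, e2, e3, e4, e5, e6⟩ := e
  rw [Nat.mod_eq_of_lt h1.1.1, Nat.mod_eq_of_lt h4.1.1] at e3
  rw [Nat.mod_eq_of_lt h2.1.1, Nat.mod_eq_of_lt h5.1.1] at e4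
  by_cases hle : (p a).2.1 ≤ (p a).1
  · have hle' := e5.mp hle
    rw [max_eq_left hle, min_eq_right hle, max_eq_left hle', min_eq_right hle'] at e6
    exact U4 (by norm_num) (by norm_num) h1 h4 h2 h5 hle hle' e1 e2 e3 e4 e6 (h3.trans h6.symm)
  · have hle1 : (p a).1 ≤ (p a).2.1 := by omega
    have hle' : (p a').1 ≤ (p a').2.1 := by
      have := mt e5.mpr hle
      omega
    rw [max_eq_right hle1, min_eq_left hle1, max_eq_right hle', min_eq_left hle'] at e6
    have := U4 (by norm_num) (by norm_num) h2 h5 h1 h4 hle1 hle' e2 e1 e4 e3 e6 (by omega)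
    omega

/-- digits of the low part of the partner -/
def low (r j a i : ℕ) : ℕ :=
  if i % 2 = r then 0 else if i < 2 * (j / 3) then dig a (flip i + 2 * (j - j / 3))
    else dig a (flip i)

lemma low_lt (r j a i : ℕ) : low r j a i < 5 := by
  unfold low
  split_ifs
  · norm_num
  · exact dig_lt _ _
  · exact dig_lt _ _

def phi (r j a : ℕ) : ℕ :=
  num (low r j a) (2 * (j - j / 3)) + 5 ^ (2 * (j - j / 3)) * (a / 5 ^ (2 * (j - j / 3)))

lemma phi_div (r j a : ℕ) : phi r j a / 5 ^ (2 * (j - j / 3)) = a / 5 ^ (2 * (j - j / 3)) :=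
  div_add_mul (num_lt (low_lt r j a) _)

lemma phi_low (r j a : ℕ) {i : ℕ} (h : i < 2 * (j - j / 3)) : dig (phi r j a) i = low r j a i := by
  unfold phi
  rw [dig_add_mul h, dig_num (low_lt r j a) h]

lemma phi_top (r j a : ℕ) : phi r j a / 5 ^ (2 * j) = a / 5 ^ (2 * j) := by
  have e : 5 ^ (2 * j) = 5 ^ (2 * (j - j / 3)) * 5 ^ (2 * (j / 3)) := by
    rw [← pow_add]; congr 1; omega
  rw [e, ← Nat.div_div_eq_div_mul, ← Nat.div_div_eq_div_mul, phi_div]

lemma phi_S {r j a : ℕ} (hr : r < 2) (h : S r j a) : S (1 - r) j (phi r j a) := by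
  refine ⟨by rw [phi_top]; exact h.1, fun i hi hi2 => ?_⟩
  split_ifs with h1
  · rw [phi_low _ _ _ h1, low, if_pos (by omega)]
  · rw [dig_of_div (by omega) (phi_div r j a), phi_low _ _ _ (by unfold flip; split_ifs <;> omega),
      low, if_neg (by unfold flip; split_ifs <;> omega),
      if_pos (by unfold flip; split_ifs <;> omega)]
    congr 1
    unfold flip; split_ifs <;> omega

lemma phi_inj {r j a a' : ℕ} (hr : r < 2) (h : S r j a) (h' : S r j a')
    (e : phi r j a = phi r j a') : a = a' := by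
  have e1 : a / 5 ^ (2 * (j - j / 3)) = a' / 5 ^ (2 * (j - j / 3)) := by
    rw [← phi_div r j a, e, phi_div]
  refine eq_of_mod_div _ (mod_eq_of_dig _ (fun i hi => ?_)) e1
  by_cases h1 : i % 2 = r
  · by_cases h2 : i < 2 * (j / 3)
    · have key : ∀ x, S r j x → dig x i = dig x (flip i + 2 * (j - j / 3)) := by
        intro x hx
        rw [hx.2 (flip i + 2 * (j - j / 3)) (by unfold flip; split_ifs <;> omega)
          (by unfold flip; split_ifs <;> omega), if_neg (by omega)]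
        congr 1
        unfold flip; split_ifs <;> omega
      rw [key a h, key a' h']
      exact dig_of_div (by omega) e1
    · have key : ∀ x, dig x i = dig (phi r j x) (flip i) := by
        intro x
        rw [phi_low _ _ _ (by unfold flip; split_ifs <;> omega), low,
          if_neg (by unfold flip; split_ifs <;> omega), if_neg (by unfold flip; split_ifs <;> omega)]
        congr 1
        unfold flip; split_ifs <;> omega
      rw [key a, key a', e]
  · rw [h.2 i (by omega) h1, h'.2 i (by omega) h1, if_pos hi, if_pos hi]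

lemma phi_le {r j a m : ℕ} (h : S r j a) (hm : 3 * m ≤ j) : m * phi r j a ≤ (m + 1) * a := by
  have a1 : phi r j a ≤ a + 5 ^ (2 * (j - j / 3)) := by
    unfold phi
    have := num_lt (low_lt r j a) (2 * (j - j / 3))
    have := Nat.mul_div_le a (5 ^ (2 * (j - j / 3)))
    omega
  have a2 := (S_bounds h).1
  have e : 5 ^ (2 * j) = 5 ^ (2 * (j - j / 3)) * 5 ^ (2 * (j / 3)) := by
    rw [← pow_add]; congr 1; omega
  have a3 : m ≤ 5 ^ (2 * (j / 3)) :=
    le_trans (by omega) (Nat.lt_pow_self (n := 2 * (j / 3)) (by norm_num : 1 < 5)).le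
  have a4 : m * 5 ^ (2 * (j - j / 3)) ≤ a := by
    rw [e] at a2
    nlinarith [Nat.zero_le (5 ^ (2 * (j - j / 3)))]
  nlinarith

lemma A_inf (r : ℕ) : (A r).Infinite := by
  apply Set.infinite_of_forall_exists_gt
  intro j
  refine ⟨0 + 5 ^ (2 * j) * 6, ⟨j, ?_, fun i hi _ => ?_⟩, ?_⟩
  · rw [div_add_mul (by positivity)]; decide
  · rw [dig_add_mul hi]
    split_ifs with h
    · simp [dig]
    · rw [dig_add_mul (by unfold flip; split_ifs <;> omega)]
      simp [dig]
  · have := Nat.lt_pow_self (n := 2 * j) (by norm_num : 1 < 5)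
    omega

lemma nth_le {r : ℕ} (hr : r < 2) (m : ℕ) (hm : 0 < m) :
    ∀ᶠ n in atTop, m * Nat.nth (· ∈ A (1 - r)) n ≤ (m + 1) * Nat.nth (· ∈ A r) n := by
  classical
  have hex : ∀ a, a ∈ A r → ∃ j, S r j a := fun a h => h
  choose! l hl using hex
  filter_upwards [eventually_ge_atTop (5 ^ (2 * (3 * m + 2)))] with n hn
  have hinf : (setOf (· ∈ A r)).Infinite := A_inf r
  have hn' : 5 ^ (2 * (3 * m + 2)) ≤ Nat.nth (· ∈ A r) n := le_trans hn (Nat.le_nth (fun hf => absurd hf hinf))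
  set x := Nat.nth (· ∈ A r) n with hx
  have : Nat.nth (· ∈ A (1 - r)) n < (m + 1) * x / m + 1 := by
    apply Nat.nth_lt_of_lt_count
    rw [Nat.count_eq_card_filter_range]
    have := Finset.card_le_card_of_injOn (s := Finset.range (n + 1))
      (t := (Finset.range ((m + 1) * x / m + 1)).filter (· ∈ A (1 - r)))
      (fun i => phi r (l (Nat.nth (· ∈ A r) i)) (Nat.nth (· ∈ A r) i)) (by
        intro i hi
        have h1 := hl _ (Nat.nth_mem_of_infinite hinf i)
        have h2 : Nat.nth (· ∈ A r) i ≤ x :=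
          Nat.nth_monotone hinf (by simpa [Nat.lt_succ_iff] using hi)
        simp only [Finset.coe_filter, Finset.mem_range, Set.mem_ofPred_eq]
        refine ⟨?_, _, phi_S hr h1⟩
        rw [Nat.lt_succ_iff, Nat.le_div_iff_mul_le hm]
        by_cases h3 : 3 * m ≤ l (Nat.nth (· ∈ A r) i)
        · have := phi_le h1 h3
          nlinarith
        · have h4 := (S_bounds (phi_S hr h1)).2
          have h5 : 5 ^ (2 * (l (Nat.nth (· ∈ A r) i) + 2)) ≤ 5 ^ (2 * (3 * m + 2)) :=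
            Nat.pow_le_pow_right (by norm_num) (by omega)
          nlinarith) (by
        intro i _ k _ e
        have h1 := hl _ (Nat.nth_mem_of_infinite hinf i)
        have h2 := hl _ (Nat.nth_mem_of_infinite hinf k)
        simp only at e
        have h3 := (phi_S hr h1).1
        rw [e] at h3
        have h4 := lev_unique h3 (phi_S hr h2).1
        rw [h4] at h1 e
        exact Nat.nth_injective hinf (phi_inj hr h1 h2 e))
    rw [Finset.card_range] at this
    omega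
  rw [Nat.lt_succ_iff, Nat.le_div_iff_mul_le hm] at this
  linarith

lemma A_pos {r a : ℕ} (h : a ∈ A r) : 1 ≤ a := by
  obtain ⟨j, hj⟩ := h
  have := (S_bounds hj).1
  have : 0 < 5 ^ (2 * j) := by positivity
  omega

lemma ratio : Tendsto (fun n : ℕ => ((Nat.nth (· ∈ A 0) n : ℕ) : ℝ) / ((Nat.nth (· ∈ A 1) n : ℕ) : ℝ))
    atTop (𝓝 1) := by
  rw [Metric.tendsto_nhds]
  intro ε hε
  obtain ⟨m, hm⟩ := exists_nat_one_div_lt hε
  filter_upwards [nth_le (r := 0) (by norm_num) (m + 1) (by omega),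
    nth_le (r := 1) (by norm_num) (m + 1) (by omega)] with n h1 h2
  have hb : 1 ≤ Nat.nth (· ∈ A 1) n := A_pos (Nat.nth_mem_of_infinite (p := (· ∈ A 1)) (A_inf 1) n)
  simp only [Nat.sub_zero, Nat.sub_self] at h1 h2
  generalize Nat.nth (· ∈ A 0) n = x at h1 h2 ⊢
  generalize Nat.nth (· ∈ A 1) n = y at h1 h2 hb ⊢
  have hy : (0 : ℝ) < y := by exact_mod_cast hb
  have h1' : ((m : ℝ) + 1) * y ≤ (m + 1 + 1) * x := by exact_mod_cast h1
  have h2' : ((m : ℝ) + 1) * x ≤ (m + 1 + 1) * y := by exact_mod_cast h2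
  have hm0 : (0 : ℝ) < m + 1 := by positivity
  rw [div_lt_iff₀ hm0] at hm
  rw [Real.dist_eq, abs_sub_lt_iff]
  have hx : (0 : ℝ) ≤ x := by positivity
  constructor
  · rw [sub_lt_iff_lt_add, div_lt_iff₀ hy]
    nlinarith
  · rw [sub_lt_comm, lt_div_iff₀ hy]
    by_contra hc
    push Not at hc
    nlinarith [mul_pos hε hy]

theorem main :
    ¬ (∀ A B : Set ℕ, A.Infinite → B.Infinite → (∀ a ∈ A, 1 ≤ a) → (∀ b ∈ B, 1 ≤ b) →
      Filter.Tendsto (fun n : ℕ => ((Nat.nth (· ∈ A) n : ℕ) : ℝ) / ((Nat.nth (· ∈ B) n : ℕ) : ℝ))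
        Filter.atTop (nhds 1) →
      (∃ N : ℕ, ∀ m : ℕ, N ≤ m → ∃ a ∈ A, ∃ b ∈ B, a + b = m) →
      ∀ M N : ℕ, ∃ n : ℕ, N ≤ n ∧ M ≤ Set.ncard {a : ℕ | a ∈ A ∧ ∃ b ∈ B, a + b = n}) := by
  intro h
  obtain ⟨C, hC⟩ := bounded
  obtain ⟨n, _, hn⟩ := h (A 0) (A 1) (A_inf 0) (A_inf 1) (fun a => A_pos) (fun a => A_pos) ratio
    ⟨13, fun m hm => by
      obtain ⟨j, a, b, h1, h2, h3⟩ := cover m hm
      exact ⟨a, ⟨j, h1⟩, b, ⟨j, h2⟩, h3⟩⟩ (C + 1) 0
  have := hC n
  omega

end Pool.Agent.H27.ErdSar
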