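import Mathlib

set_option autoImplicit false

namespace Pool.Agent.H27.Fdd

open Filter Topology BoundedContinuousFunction

abbrev B := ℕ →ᵇ ℝ

noncomputable def w (j : ℕ) : ℝ := if j = 0 then 1 else 2 * (1 / 2) ^ j

noncomputable def b (j : ℕ) : B :=
  ofNormedAddCommGroupDiscrete (fun i => (if i = j then 1 else 0) - (if i = 0 then w j else 0))
    (1 + |w j|) (by
      intro i
      rw [Real.norm_eq_abs]
      refine (abs_sub _ _).trans (add_le_add ?_ ?_)
      · split_ifs <;> simp
      · split_ifs <;> simp)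

lemma b_apply (j i : ℕ) : b j i = (if i = j then 1 else 0) - (if i = 0 then w j else 0) := rfl

noncomputable def S (N : ℕ) (x : B) : ℝ := ∑ j ∈ Finset.range N, w j * x j

noncomputable def U (N : ℕ) : B →L[ℝ] B :=
  ∑ j ∈ Finset.range N, (evalCLM ℝ j : B →L[ℝ] ℝ).smulRight (b j)

lemma U_succ (N : ℕ) (x : B) : U (N + 1) x = U N x + x N • b N := by
  simp [U, Finset.sum_range_succ]

lemma S_succ (N : ℕ) (x : B) : S (N + 1) x = S N x + w N * x N := by
  simp [S, Finset.sum_range_succ]

lemma U_apply (N : ℕ) (x : B) (i : ℕ) :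
    U N x i = (if i < N then x i else 0) - (if i = 0 then S N x else 0) := by
  induction N with
  | zero => simp [U, S]
  | succ n ih =>
    rw [U_succ, S_succ, BoundedContinuousFunction.add_apply, BoundedContinuousFunction.smul_apply,
      ih, b_apply, smul_eq_mul]
    rcases lt_trichotomy i n with h | h | h
    · have h1 : i < n + 1 := by omega
      have h2 : i ≠ n := by omega
      simp only [h, h1, h2, if_true, if_false]
      split_ifs <;> ring
    · subst h
      simp only [lt_irrefl, Nat.lt_succ_self, if_true, if_false]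
      split_ifs <;> ring
    · have h1 : ¬ i < n + 1 := by omega
      have h2 : i ≠ n := by omega
      have h3 : ¬ i < n := by omega
      simp only [h1, h2, h3, if_false]
      split_ifs <;> ring

lemma abs_le_norm (x : B) (i : ℕ) : |x i| ≤ ‖x‖ := by
  have := x.norm_coe_le_norm i
  rwa [Real.norm_eq_abs] at this

lemma S_diff (x : B) (N : ℕ) (hN : 1 ≤ N) (M : ℕ) (hM : N ≤ M) :
    |S M x - S N x| ≤ (4 * (1 / 2) ^ N - 4 * (1 / 2) ^ M) * ‖x‖ := by
  induction M, hM using Nat.le_induction with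
  | base => simp
  | succ m hm ih =>
    rw [S_succ]
    have h1 : w m = 2 * (1 / 2) ^ m := by
      unfold w; rw [if_neg (by omega)]
    have h2 : |w m * x m| ≤ 2 * (1 / 2) ^ m * ‖x‖ := by
      rw [abs_mul, h1, abs_of_nonneg (by positivity)]
      exact mul_le_mul_of_nonneg_left (abs_le_norm x m) (by positivity)
    have h3 : S m x + w m * x m - S N x = (S m x - S N x) + w m * x m := by ring
    rw [h3]
    refine (abs_add_le _ _).trans ?_
    have h4 : (4 * (1 / 2 : ℝ) ^ N - 4 * (1 / 2) ^ (m + 1)) * ‖x‖ =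
        (4 * (1 / 2) ^ N - 4 * (1 / 2) ^ m) * ‖x‖ + 2 * (1 / 2) ^ m * ‖x‖ := by ring
    linarith

lemma S_one (x : B) : S 1 x = x 0 := by simp [S, w]

lemma S_bound (x : B) (N : ℕ) : |S N x| ≤ 3 * ‖x‖ := by
  rcases Nat.eq_zero_or_pos N with rfl | h
  · simp [S]
  · have h1 := S_diff x 1 le_rfl N h
    rw [S_one] at h1
    have h2 := abs_le_norm x 0
    have h3 : 0 ≤ (1 / 2 : ℝ) ^ N * ‖x‖ := by positivity
    have h4 : S N x = (S N x - x 0) + x 0 := by ring
    rw [h4]
    refine (abs_add_le _ _).trans ?_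
    nlinarith

lemma U_norm_le (x : B) (N : ℕ) : ‖U N x‖ ≤ ‖x‖ + |S N x| := by
  rw [norm_le (by positivity)]
  intro i
  rw [U_apply, Real.norm_eq_abs]
  refine (abs_sub _ _).trans (add_le_add ?_ ?_)
  · split_ifs
    · exact abs_le_norm x i
    · simp
  · split_ifs <;> simp

lemma S_U (M N : ℕ) (x : B) (hN : 1 ≤ N) : S N (U M x) = S (min N M) x - S M x := by
  induction N, hN using Nat.le_induction with
  | base =>
    rw [S_one, U_apply]
    rcases Nat.eq_zero_or_pos M with rfl | h
    · simp [S]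
    · rw [min_eq_left h, S_one]; simp [h]
  | succ n hn ih =>
    rw [S_succ, ih, U_apply, if_neg (by omega : ¬ n = 0)]
    by_cases h : n < M
    · rw [min_eq_left h.le, min_eq_left (by omega), S_succ, if_pos h]; ring
    · rw [min_eq_right (by omega), min_eq_right (by omega), if_neg h]; ring

lemma U_U (N M : ℕ) (x : B) : U N (U M x) = U (min N M) x := by
  rcases Nat.eq_zero_or_pos N with rfl | hN
  · simp [U]
  ext i
  rw [U_apply, S_U M N x hN, U_apply, U_apply]
  by_cases h0 : i = 0
  · subst h0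
    simp only [hN, if_true, lt_min_iff, true_and]
    ring
  · simp only [h0, if_false, lt_min_iff]
    by_cases h1 : i < N <;> by_cases h2 : i < M <;> simp [h1, h2]

def E : Submodule ℝ B where
  carrier := {x | Tendsto (fun N => U N x) atTop (𝓝 x)}
  add_mem' := by
    intro x y hx hy
    simp only [Set.mem_ofPred_eq, map_add] at *
    exact hx.add hy
  zero_mem' := by simp
  smul_mem' := by
    intro c x hx
    simp only [Set.mem_ofPred_eq, map_smul] at *
    exact hx.const_smul c

lemma mem_E (x : B) : x ∈ E ↔ Tendsto (fun N => U N x) atTop (𝓝 x) := Iff.rfl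

lemma E_closed : IsClosed (E : Set B) := by
  have h : UniformEquicontinuous (fun N (x : B) => U N x) := by
    refine LipschitzWith.uniformEquicontinuous _ 4 (fun N => ?_)
    refine LipschitzWith.of_dist_le_mul (fun x y => ?_)
    rw [dist_eq_norm, dist_eq_norm, ← map_sub]
    have h1 := U_norm_le (x - y) N
    have h2 := S_bound (x - y) N
    push_cast
    linarith
  exact h.equicontinuous.isClosed_setOfPred_tendsto continuous_id

instance : CompleteSpace E := E_closed.completeSpace_coe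

lemma U_mem (M : ℕ) (x : B) : U M x ∈ E := by
  rw [mem_E]
  refine tendsto_const_nhds.congr' ?_
  filter_upwards [eventually_ge_atTop M] with N hN
  rw [U_U, min_eq_right hN]

lemma S_tendsto (x : B) (hx : x ∈ E) : Tendsto (fun N => S N x) atTop (𝓝 0) := by
  rw [mem_E] at hx
  have h1 : Tendsto (fun N => U N x 0) atTop (𝓝 (x 0)) :=
    ((evalCLM ℝ 0 : B →L[ℝ] ℝ).continuous.tendsto x).comp hx
  have h2 : Tendsto (fun N => x 0 - U N x 0) atTop (𝓝 (x 0 - x 0)) := tendsto_const_nhds.sub h1
  rw [sub_self] at h2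
  refine h2.congr' ?_
  filter_upwards [eventually_ge_atTop 1] with N hN
  rw [U_apply, if_pos (by omega), if_pos rfl]; ring

lemma coord_tendsto (x : B) (hx : x ∈ E) : Tendsto (fun j => x j) atTop (𝓝 0) := by
  rw [mem_E] at hx
  have h1 : Tendsto (fun N => ‖x - U N x‖) atTop (𝓝 0) := by
    have := (tendsto_const_nhds (x := x)).sub hx
    rw [sub_self] at this
    exact tendsto_zero_iff_norm_tendsto_zero.mp this
  refine squeeze_zero_norm' ?_ h1
  filter_upwards [eventually_ge_atTop 1] with N hN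
  have := (x - U N x).norm_coe_le_norm N
  rw [BoundedContinuousFunction.sub_apply, U_apply, if_neg (lt_irrefl _), if_neg (by omega)] at this
  simpa using this

lemma S_le (x : B) (hx : x ∈ E) (N : ℕ) (hN : 1 ≤ N) : |S N x| ≤ 4 * (1 / 2) ^ N * ‖x‖ := by
  have h1 : Tendsto (fun M => |S M x - S N x|) atTop (𝓝 |0 - S N x|) :=
    ((S_tendsto x hx).sub tendsto_const_nhds).abs
  rw [zero_sub, abs_neg] at h1
  refine le_of_tendsto h1 ?_
  filter_upwards [eventually_ge_atTop N] with M hM
  have h2 := S_diff x N hN M hM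
  have h3 : 0 ≤ (1 / 2 : ℝ) ^ M * ‖x‖ := by positivity
  nlinarith

lemma b_mem (j : ℕ) : b j ∈ E := by
  have h := E.sub_mem (U_mem (j + 1) (1 : B)) (U_mem j (1 : B))
  rw [U_succ] at h
  simpa using h

def X : Type := E

noncomputable instance : NormedAddCommGroup X := inferInstanceAs (NormedAddCommGroup E)
noncomputable instance : NormedSpace ℝ X := inferInstanceAs (NormedSpace ℝ E)
instance : CompleteSpace X := inferInstanceAs (CompleteSpace E)

def val (x : X) : B := Subtype.val (p := fun y => y ∈ E) x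
def mk (x : B) (h : x ∈ E) : X := (⟨x, h⟩ : E)

lemma val_mem (x : X) : val x ∈ E := Subtype.property (p := fun y => y ∈ E) x
lemma val_mk (x : B) (h : x ∈ E) : val (mk x h) = x := rfl
lemma val_add (x y : X) : val (x + y) = val x + val y := rfl
lemma val_sub (x y : X) : val (x - y) = val x - val y := rfl
lemma val_zero : val 0 = 0 := rfl
lemma val_smul (c : ℝ) (x : X) : val (c • x) = c • val x := rfl
lemma norm_val (x : X) : ‖val x‖ = ‖x‖ := rfl
lemma val_ext {x y : X} (h : val x = val y) : x = y := Subtype.ext h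

noncomputable def Q (N : ℕ) : X →L[ℝ] X :=
  LinearMap.mkContinuous
    { toFun := fun x => mk (U N (val x)) (U_mem N _)
      map_add' := fun x y => val_ext (by simp only [val_mk, val_add, map_add])
      map_smul' := fun c x => val_ext (by simp only [val_mk, val_smul, map_smul, RingHom.id_apply]) }
    4 (fun x => by
      have h1 := U_norm_le (val x) N
      have h2 := S_bound (val x) N
      change ‖U N (val x)‖ ≤ 4 * ‖val x‖
      linarith)

lemma val_Q (N : ℕ) (x : X) : val (Q N x) = U N (val x) := rfl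

noncomputable def co (i : ℕ) : X →L[ℝ] ℝ :=
  LinearMap.mkContinuous
    { toFun := fun x => val x i
      map_add' := fun x y => by simp only [val_add, BoundedContinuousFunction.add_apply]
      map_smul' := fun c x => by
        simp only [val_smul, BoundedContinuousFunction.smul_apply, RingHom.id_apply] }
    1 (fun x => by
      have h1 := abs_le_norm (val x) i
      change |val x i| ≤ 1 * ‖val x‖
      linarith)

lemma co_apply (i : ℕ) (x : X) : co i x = val x i := rfl

lemma Q_fin (N : ℕ) : FiniteDimensional ℝ (LinearMap.range (Q N : X →ₗ[ℝ] X)) := by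
  have h1 : FiniteDimensional ℝ
      (Submodule.span ℝ ((fun j => mk (b j) (b_mem j)) '' (Finset.range N : Set ℕ))) :=
    FiniteDimensional.span_of_finite ℝ ((Finset.finite_toSet _).image _)
  refine Submodule.finiteDimensional_of_le (S₂ := Submodule.span ℝ
    ((fun j => mk (b j) (b_mem j)) '' (Finset.range N : Set ℕ))) ?_
  rintro _ ⟨x, rfl⟩
  have h2 : ∀ M, Q M x = ∑ j ∈ Finset.range M, val x j • mk (b j) (b_mem j) := by
    intro M
    induction M with
    | zero => apply val_ext; rw [val_Q]; simp [U, val_zero]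
    | succ m ih =>
      rw [Finset.sum_range_succ, ← ih]
      apply val_ext
      rw [val_add, val_Q, val_Q, val_smul, val_mk, U_succ]
  change Q N x ∈ _
  rw [h2]
  exact Submodule.sum_mem _ (fun j hj => Submodule.smul_mem _ _
    (Submodule.subset_span ⟨j, hj, rfl⟩))

lemma Q_norm (N : ℕ) (hN : 1 ≤ N) : ‖Q N‖ ≤ 1 + 4 * (1 / 2) ^ N := by
  refine ContinuousLinearMap.opNorm_le_bound _ (by positivity) (fun x => ?_)
  have h1 := U_norm_le (val x) N
  have h2 := S_le (val x) (val_mem x) N hN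
  change ‖U N (val x)‖ ≤ (1 + 4 * (1 / 2) ^ N) * ‖val x‖
  nlinarith

lemma Q_fdd (K : ℕ) :
    (∀ n, FiniteDimensional ℝ (LinearMap.range (Q (n + K) : X →ₗ[ℝ] X))) ∧
      (∀ n m, (Q (n + K)).comp (Q (m + K)) = Q (min n m + K)) ∧
      (∀ x : X, Tendsto (fun n => Q (n + K) x) atTop (𝓝 x)) := by
  refine ⟨fun n => Q_fin _, fun n m => ?_, fun x => ?_⟩
  · refine ContinuousLinearMap.ext (fun x => val_ext ?_)
    rw [ContinuousLinearMap.comp_apply, val_Q, val_Q, val_Q, U_U, Nat.add_min_add_right]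
  · rw [tendsto_iff_norm_sub_tendsto_zero]
    have h := ((mem_E _).mp (val_mem x)).comp (tendsto_add_atTop_nat K)
    rw [tendsto_iff_norm_sub_tendsto_zero] at h
    exact h

lemma co_le (i : ℕ) (x : X) : |co i x| ≤ ‖x‖ := abs_le_norm (val x) i

lemma norm_le_co (x : X) (C : ℝ) (h : ∀ i, |co i x| ≤ C) : ‖x‖ ≤ C := by
  rw [← norm_val, norm_le_of_nonempty]
  exact h

lemma smooth (P : X →L[ℝ] X) (hP : ‖P‖ ≤ 1) (x : X) (hx : P x = x) (i : ℕ) (r : ℝ) (hr : 0 ≤ r)
    (hi : r < co i x) (hj : ∀ j, j ≠ i → |co j x| ≤ r) (y : X) : co i (P y) = co i y := by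
  set t0 : ℝ := (co i x - r) / (2 * (‖y‖ + 1)) with ht0
  have ht0pos : 0 < t0 := div_pos (by linarith) (by positivity)
  have ht1 : t0 * ‖y‖ ≤ (co i x - r) / 2 := by
    rw [ht0, div_mul_eq_mul_div, div_le_div_iff₀ (by positivity) (by norm_num)]
    nlinarith [norm_nonneg y]
  have key : ∀ t : ℝ, |t| = t0 → t * co i (P y) ≤ t * co i y := by
    intro t ht
    have hb : ∀ j, |t * co j y| ≤ (co i x - r) / 2 := by
      intro j
      rw [abs_mul, ht]
      exact (mul_le_mul_of_nonneg_left (co_le j y) ht0pos.le).trans ht1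
    have h1 : ‖x + t • y‖ ≤ co i x + t * co i y := by
      apply norm_le_co
      intro j
      rw [map_add, map_smul, smul_eq_mul]
      have h2 := abs_le.mp (hb i)
      by_cases hji : j = i
      · subst hji
        rw [abs_of_nonneg (by linarith)]
      · have h3 := hj j hji
        have h4 := hb j
        refine (abs_add_le _ _).trans ?_
        linarith
    have h2 : ‖P (x + t • y)‖ ≤ ‖x + t • y‖ := by
      have := P.le_opNorm (x + t • y)
      nlinarith [norm_nonneg (x + t • y)]
    have h3 := co_le i (P (x + t • y))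
    rw [map_add, map_smul, hx, map_add, map_smul, smul_eq_mul] at h3
    rw [map_add, map_smul, hx] at h2
    have h4 := le_abs_self (co i x + t * co i (P y))
    linarith
  have h1 := key t0 (abs_of_pos ht0pos)
  have h2 := key (-t0) (by rw [abs_neg, abs_of_pos ht0pos])
  have h3 : t0 * co i (P y) = t0 * co i y := by linarith
  exact mul_left_cancel₀ ht0pos.ne' h3

lemma small_coord (G : Submodule ℝ X) [FiniteDimensional ℝ G] :
    ∃ j, 2 ≤ j ∧ ∀ v ∈ G, |co j v| ≤ ‖v‖ / 2 := by
  let bs := Module.finBasis ℝ G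
  obtain ⟨C, hC, h⟩ := bs.exists_opNorm_le (F := ℝ)
  have hev : ∀ i, ∀ᶠ j in atTop, |co j (bs i)| ≤ 1 / (2 * C) := by
    intro i
    have h1 := (coord_tendsto _ (val_mem (bs i))).abs
    rw [abs_zero] at h1
    exact (h1.eventually (ge_mem_nhds (by positivity : (0 : ℝ) < 1 / (2 * C))))
  obtain ⟨j, hj1, hj2⟩ := ((eventually_ge_atTop 2).and (eventually_all.mpr hev)).exists
  refine ⟨j, hj1, fun v hv => ?_⟩
  have h2 := h (u := (co j).comp G.subtypeL) (M := 1 / (2 * C)) (by positivity) hj2
  have h3 := ((co j).comp G.subtypeL).le_opNorm ⟨v, hv⟩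
  have h4 : C * (1 / (2 * C)) = 1 / 2 := by field_simp
  rw [h4] at h2
  change |co j v| ≤ _ * ‖v‖ at h3
  nlinarith [norm_nonneg v]

noncomputable def z : B :=
  ofNormedAddCommGroupDiscrete (fun i => if i < 2 then -1 / 2 else 1) 1 (by
    intro i
    split_ifs <;> norm_num [abs_div])

lemma z_apply (i : ℕ) : z i = if i < 2 then -1 / 2 else 1 := rfl

lemma S_two (x : B) : S 2 x = x 0 + x 1 := by
  rw [S_succ, S_one]; simp [w]

lemma S_z (N : ℕ) (hN : 2 ≤ N) : S N z = -(4 * (1 / 2) ^ N) := by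
  induction N, hN using Nat.le_induction with
  | base => rw [S_two, z_apply, z_apply]; norm_num
  | succ n hn ih =>
    rw [S_succ, ih, z_apply, if_neg (by omega)]
    unfold w
    rw [if_neg (by omega)]; ring

lemma no_monotone (P : X →L[ℝ] X) (hP : ‖P‖ ≤ 1)
    [FiniteDimensional ℝ (LinearMap.range (P : X →ₗ[ℝ] X))]
    (h0 : ∀ y, co 0 (P y) = co 0 y) (h1 : ∀ y, co 1 (P y) = co 1 y) : False := by
  obtain ⟨j, hj, hs⟩ := small_coord (LinearMap.range (P : X →ₗ[ℝ] X))
  set N := j + 3 with hN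
  set y : X := mk (U N z) (U_mem N z) with hy
  have hq : (0 : ℝ) < (1 / 2) ^ j := by positivity
  have hq1 : ((1 : ℝ) / 2) ^ j ≤ 1 := pow_le_one₀ (by norm_num) (by norm_num)
  have hSz : S N z = -((1 / 2) ^ j / 2) := by
    rw [S_z N (by omega), hN]; ring
  have hy0 : co 0 y = -1 / 2 + (1 / 2) ^ j / 2 := by
    rw [co_apply, hy, val_mk, U_apply, hSz, z_apply]; simp [hN]
  have hy1 : co 1 y = -1 / 2 := by
    rw [co_apply, hy, val_mk, U_apply, z_apply]; simp [hN]
  have hyn : ‖y‖ ≤ 1 := by
    apply norm_le_co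
    intro i
    by_cases hi : i = 0
    · subst hi; rw [hy0, abs_le]; constructor <;> linarith
    · rw [co_apply, hy, val_mk, U_apply, z_apply, if_neg hi]
      split_ifs <;> norm_num [abs_div]
  set v := P y with hv
  have hvn : ‖v‖ ≤ 1 := by
    have := P.le_opNorm y
    nlinarith [norm_nonneg y, norm_nonneg P]
  have hvj : |co j v| ≤ ‖v‖ / 2 := hs v ⟨y, rfl⟩
  have a1 := S_diff (val v) 2 (by norm_num) j hj
  have a2 := S_le (val v) (val_mem v) (j + 1) (by omega)
  rw [S_two, ← co_apply, ← co_apply, h0, h1, hy0, hy1, norm_val] at a1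
  rw [S_succ, ← co_apply, norm_val] at a2
  have hw : w j = 2 * (1 / 2) ^ j := by unfold w; rw [if_neg (by omega)]
  rw [hw, pow_succ] at a2
  have hj4 : 4 * ((1 : ℝ) / 2) ^ j ≤ 1 := by
    have : ((1 : ℝ) / 2) ^ j ≤ (1 / 2) ^ 2 := pow_le_pow_of_le_one (by norm_num) (by norm_num) hj
    linarith
  generalize ((1 : ℝ) / 2) ^ j = q at *
  have b1 : (4 * (1 / 2 : ℝ) ^ 2 - 4 * q) * ‖v‖ ≤ 1 - 4 * q := by nlinarith
  have b2 : 4 * (q * (1 / 2)) * ‖v‖ ≤ 2 * q := by nlinarith
  have b3 := (abs_le.mp (a1.trans b1)).2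
  have b4 := (abs_le.mp (a2.trans b2)).1
  have b5 := (abs_le.mp hvj).2
  nlinarith

theorem main :
    ¬ (∀ (𝕜 : Type) [RCLike 𝕜] (E : Type) [NormedAddCommGroup E] [NormedSpace 𝕜 E]
      [CompleteSpace E],
      (∃ P : ℕ → E →L[𝕜] E,
          (∀ n, FiniteDimensional 𝕜 (LinearMap.range (P n : E →ₗ[𝕜] E))) ∧
          (∀ n m, (P n).comp (P m) = P (min n m)) ∧
          (∀ x : E, Tendsto (fun n => P n x) atTop (𝓝 x))) →
      ∃ P : ℕ → E →L[𝕜] E,
        ((∀ n, FiniteDimensional 𝕜 (LinearMap.range (P n : E →ₗ[𝕜] E))) ∧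
          (∀ n m, (P n).comp (P m) = P (min n m)) ∧
          (∀ x : E, Tendsto (fun n => P n x) atTop (𝓝 x))) ∧
        ∀ Q : ℕ → E →L[𝕜] E,
          ((∀ n, FiniteDimensional 𝕜 (LinearMap.range (Q n : E →ₗ[𝕜] E))) ∧
            (∀ n m, (Q n).comp (Q m) = Q (min n m)) ∧
            (∀ x : E, Tendsto (fun n => Q n x) atTop (𝓝 x))) →
          ∀ c : ℝ, (∀ m, ‖Q m‖ ≤ c) → ∀ n, ‖P n‖ ≤ c) := by
  intro h
  obtain ⟨P, ⟨hfin, hcomp, hlim⟩, hopt⟩ := h ℝ X ⟨fun n => Q (n + 0), Q_fdd 0⟩
  have hP : ∀ n, ‖P n‖ ≤ 1 := by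
    intro n
    have h1 : Tendsto (fun K : ℕ => 1 + 4 * ((1 : ℝ) / 2) ^ K) atTop (𝓝 (1 + 4 * 0)) :=
      tendsto_const_nhds.add ((tendsto_pow_atTop_nhds_zero_of_lt_one (by norm_num)
        (by norm_num)).const_mul 4)
    rw [mul_zero, add_zero] at h1
    refine ge_of_tendsto h1 ?_
    filter_upwards [eventually_ge_atTop 1] with K hK
    refine hopt (fun n => Q (n + K)) (Q_fdd K) _ (fun m => (Q_norm _ (by omega)).trans ?_) n
    have : ((1 : ℝ) / 2) ^ (m + K) ≤ (1 / 2) ^ K :=
      pow_le_pow_of_le_one (by norm_num) (by norm_num) (by omega)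
    linarith
  have peak : ∀ (i : ℕ) (x : X), co i x = 1 → (∀ j, j ≠ i → |co j x| ≤ 2 / 3) →
      ∀ᶠ n in atTop, ∀ y, co i (P n y) = co i y := by
    intro i x hi hj
    have h1 := hlim x
    rw [tendsto_iff_norm_sub_tendsto_zero] at h1
    filter_upwards [h1.eventually (ge_mem_nhds (by norm_num : (0 : ℝ) < 1 / 10))] with n hn
    have hc : ∀ j, |co j (P n x) - co j x| ≤ 1 / 10 := by
      intro j
      rw [← map_sub]
      exact (co_le j _).trans hn
    refine smooth (P n) (hP n) (P n x) ?_ i (4 / 5) (by norm_num) ?_ ?_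
    · rw [← ContinuousLinearMap.comp_apply, hcomp, min_self]
    · have := (abs_le.mp (hc i)).1
      linarith
    · intro j hji
      have h2 := abs_le.mp (hc j)
      have h3 := abs_le.mp (hj j hji)
      rw [abs_le]; constructor <;> linarith
  have hw1 : w 1 = 1 := by simp [w]
  have hw2 : w 2 = 1 / 2 := by simp [w]; norm_num
  have e0 := peak 0 ((-2 / 3 : ℝ) • (mk (b 1) (b_mem 1) + mk (b 2) (b_mem 2)))
    (by
      rw [map_smul, map_add, co_apply, co_apply, val_mk, val_mk, b_apply, b_apply, hw1, hw2]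
      norm_num)
    (by
      intro j hj
      rw [map_smul, map_add, co_apply, co_apply, val_mk, val_mk, b_apply, b_apply, if_neg hj,
        if_neg hj, smul_eq_mul]
      split_ifs <;> first | omega | norm_num [abs_div])
  have e1 := peak 1 (mk (b 1) (b_mem 1) + (-2 / 3 : ℝ) • mk (b 2) (b_mem 2))
    (by
      rw [map_add, map_smul, co_apply, co_apply, val_mk, val_mk, b_apply, b_apply]
      norm_num)
    (by
      intro j hj
      rw [map_add, map_smul, co_apply, co_apply, val_mk, val_mk, b_apply, b_apply, if_neg hj,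
        smul_eq_mul, hw1, hw2]
      split_ifs <;> first | omega | norm_num [abs_div])
  obtain ⟨n, h0, h1⟩ := (e0.and e1).exists
  haveI := hfin n
  exact no_monotone (P n) (hP n) h0 h1

end Pool.Agent.H27.Fdd
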