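import Mathlib

set_option autoImplicit false

namespace Pool.Agent.H27.GM

open Matrix Finset

variable {V : Type*} [Fintype V] [DecidableEq V]

noncomputable def Qm (C : Bool → Finset V) : Matrix V V ℝ := fun u w =>
  (if u = w then (if ∃ i, u ∈ C i then -1 else 1) else 0) +
    ∑ i, if u ∈ C i ∧ w ∈ C i then 1 / 2 else 0

theorem Qm_symm (C : Bool → Finset V) : (Qm C)ᵀ = Qm C := by
  ext u w
  simp only [transpose_apply, Qm]
  congr 1
  · by_cases h : u = w
    · subst h; rfl
    · rw [if_neg h, if_neg (Ne.symm h)]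
  · exact sum_congr rfl fun i _ => by simp only [and_comm]

theorem Qm_mul (C : Bool → Finset V) (M : Matrix V V ℝ) (u v : V) :
    (Qm C * M) u v = (if ∃ i, u ∈ C i then -1 else 1) * M u v +
      ∑ i, if u ∈ C i then (∑ w ∈ C i, M w v) / 2 else 0 := by
  simp only [mul_apply, Qm, add_mul, sum_add_distrib, sum_mul]
  congr 1
  · rw [sum_eq_single u]
    · simp
    · intro b _ hb; rw [if_neg (Ne.symm hb), zero_mul]
    · simp
  · rw [sum_comm]
    refine sum_congr rfl fun i _ => ?_
    by_cases h : u ∈ C i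
    · simp only [h, true_and, if_true, ite_mul, zero_mul]
      rw [← sum_filter, sum_div]
      refine sum_congr (by ext; simp) fun _ _ => by ring
    · simp [h]

theorem Qm_in (C : Bool → Finset V) (hd : Disjoint (C true) (C false)) (M : Matrix V V ℝ)
    (i : Bool) (u v : V) (hu : u ∈ C i) :
    (Qm C * M) u v = (∑ w ∈ C i, M w v) / 2 - M u v := by
  rw [Qm_mul, if_pos ⟨i, hu⟩, Fintype.sum_bool]
  cases i
  · rw [if_neg (fun h => disjoint_left.1 hd h hu), if_pos hu]; ring
  · rw [if_pos hu, if_neg (disjoint_left.1 hd hu)]; ring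

theorem Qm_out (C : Bool → Finset V) (M : Matrix V V ℝ) (u v : V) (hu : ∀ i, u ∉ C i) :
    (Qm C * M) u v = M u v := by
  rw [Qm_mul, if_neg (by simpa using hu)]
  simp [hu]

theorem Qm_sq (C : Bool → Finset V) (hd : Disjoint (C true) (C false)) (hc : ∀ i, #(C i) = 4) :
    Qm C * Qm C = 1 := by
  ext u v
  by_cases hu : ∃ i, u ∈ C i
  · obtain ⟨i, hu⟩ := hu
    have h1 : ∀ w ∈ C i, Qm C w v = (if v ∈ C i then 1 else 0) / 2 - if w = v then 1 else 0 := by
      intro w hw
      have := Qm_in C hd 1 i w v hw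
      rw [Matrix.mul_one] at this
      rw [this]
      simp [one_apply]
    rw [Qm_in C hd _ i u v hu, sum_congr rfl h1, h1 u hu, sum_sub_distrib, sum_const, hc]
    simp only [sum_ite_eq', one_apply]
    split_ifs <;> norm_num
  · push Not at hu
    rw [Qm_out C _ u v hu]
    have := Qm_out C 1 u v hu
    rwa [Matrix.mul_one] at this

theorem gm (C : Bool → Finset V) (hd : Disjoint (C true) (C false)) (hc : ∀ i, #(C i) = 4)
    (A B : Matrix V V ℝ) (hA : Aᵀ = A) (hB : Bᵀ = B)
    (h1 : ∀ u v, (∀ i, u ∉ C i) → (∀ i, v ∉ C i) → B u v = A u v)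
    (h2 : ∀ i u v, u ∈ C i → (∀ j, v ∉ C j) → B u v = (∑ w ∈ C i, A w v) / 2 - A u v)
    (h3 : ∀ i j u v, u ∈ C i → v ∈ C j → B u v = A u v)
    (h4 : ∀ i j u v, u ∈ C i → v ∈ C j → ∑ w ∈ C i, A w v = ∑ w ∈ C j, A w u) :
    B.charpoly = A.charpoly := by
  have hs : ∀ (M : Matrix V V ℝ), Mᵀ = M → ∀ u v, M u v = M v u := fun M h u v => by
    conv_lhs => rw [← h]
    rfl
  have key : Qm C * A = B * Qm C := by
    ext u v
    have e : (B * Qm C) u v = (Qm C * B) v u := by
      rw [← transpose_apply (Qm C * B), transpose_mul, Qm_symm, hB]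
    rw [e]
    by_cases hu : ∃ i, u ∈ C i <;> by_cases hv : ∃ j, v ∈ C j
    · obtain ⟨i, hu⟩ := hu
      obtain ⟨j, hv⟩ := hv
      rw [Qm_in C hd _ i u v hu, Qm_in C hd _ j v u hv, h3 j i v u hv hu, hs A hA v u,
        h4 i j u v hu hv, sum_congr rfl fun w hw => h3 j i w u hw hu]
    · obtain ⟨i, hu⟩ := hu
      push Not at hv
      rw [Qm_in C hd _ i u v hu, Qm_out C _ v u hv, hs B hB v u, h2 i u v hu hv]
    · obtain ⟨j, hv⟩ := hv
      push Not at hu
      rw [Qm_out C _ u v hu, Qm_in C hd _ j v u hv, h2 j v u hv hu,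
        sum_congr rfl fun w hw => h2 j w u hw hu, sum_sub_distrib, sum_const, hc, hs A hA u v]
      simp only [nsmul_eq_mul]
      push_cast
      ring
    · push Not at hu hv
      rw [Qm_out C _ u v hu, Qm_out C _ v u hv, h1 v u hv hu, hs A hA u v]
  have : B = Qm C * (A * Qm C) := by
    rw [← Matrix.mul_assoc, key, Matrix.mul_assoc, Qm_sq C hd hc, Matrix.mul_one]
  rw [this, charpoly_mul_comm, Matrix.mul_assoc, Qm_sq C hd hc, Matrix.mul_one]

end Pool.Agent.H27.GM
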