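import Mathlib

set_option autoImplicit false

namespace Pool.Agent.H27.GPow

open Matrix commutatorElement

@[ext] structure Aff (F : Type) [Field F] where
  a : F
  u : Fˣ

variable {F : Type} [Field F]

instance : Mul (Aff F) := ⟨fun x y => ⟨x.a + x.u * y.a, x.u * y.u⟩⟩
instance : One (Aff F) := ⟨⟨0, 1⟩⟩
instance : Inv (Aff F) := ⟨fun x => ⟨-((x.u : F)⁻¹ * x.a), x.u⁻¹⟩⟩

@[simp] theorem mul_a (x y : Aff F) : (x * y).a = x.a + x.u * y.a := rfl
@[simp] theorem mul_u (x y : Aff F) : (x * y).u = x.u * y.u := rfl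
@[simp] theorem one_a : (1 : Aff F).a = 0 := rfl
@[simp] theorem one_u : (1 : Aff F).u = 1 := rfl
@[simp] theorem inv_a (x : Aff F) : x⁻¹.a = -((x.u : F)⁻¹ * x.a) := rfl
@[simp] theorem inv_u (x : Aff F) : x⁻¹.u = x.u⁻¹ := rfl

instance : Group (Aff F) := Group.ofLeftAxioms
  (fun x y z => by ext <;> simp [mul_add, mul_assoc, add_assoc])
  (fun x => by ext <;> simp) (fun x => by ext <;> simp)

instance [Finite F] : Finite (Aff F) :=
  Finite.of_injective (fun x : Aff F => (x.a, x.u)) fun x y h => by
    ext <;> simp_all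

def tr (a : F) : Aff F := ⟨a, 1⟩

theorem comm_tr (u : Fˣ) (b : F) : ⁅(⟨0, u⟩ : Aff F), tr b⁆ = tr ((u - 1) * b) := by
  ext <;> simp [commutatorElement_def, tr]
  ring

theorem comm_u (g h : Aff F) : ⁅g, h⁆ = tr ⁅g, h⁆.a := by
  ext <;> simp [commutatorElement_def, tr]

theorem mem_comm {u : Fˣ} (hu : (u : F) ≠ 1) (g : Aff F) : g ∈ commutator (Aff F) ↔ g.u = 1 := by
  constructor
  · intro h
    exact Abelianization.commutator_subset_ker
      (MonoidHom.mk' (fun x : Aff F => x.u) fun _ _ => rfl) h
  · intro h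
    have : g = ⁅(⟨0, u⟩ : Aff F), tr (g.a / (u - 1))⁆ := by
      rw [comm_tr, mul_div_cancel₀ _ (sub_ne_zero.2 hu)]
      ext <;> simp [tr, h]
    rw [this]
    exact Subgroup.commutator_mem_commutator (Subgroup.mem_top _) (Subgroup.mem_top _)

def ι (V : Type) : Multiplicative (V → F) →* (V → Aff F) :=
  MonoidHom.mk' (fun x v => tr (x.toAdd v)) fun x y => by
    funext v; ext <;> simp [tr]

theorem ι_inj (V : Type) : Function.Injective (ι (F := F) V) := fun x y h => by
  ext v
  exact congrArg (fun f => (f v).a) h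

noncomputable def pw {u : Fˣ} (hu : (u : F) ≠ 1) (V : Type) :
    Multiplicative (V → F) ≃* (V → commutator (Aff F)) :=
  MulEquiv.ofBijective (MonoidHom.mk' (fun x v => ⟨tr (x.toAdd v), (mem_comm hu _).2 rfl⟩)
    fun x y => by funext v; ext <;> simp [tr] : Multiplicative (V → F) →* _)
    ⟨fun x y h => by ext v; exact congrArg (fun f => (f v).1.a) h,
      fun f => ⟨Multiplicative.ofAdd fun v => (f v).1.a, by
        funext v; ext
        · rfl
        · exact congrArg Units.val ((mem_comm hu _).1 (f v).2).symm⟩⟩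

theorem closure_eq {V R : Type} (x : R → V → F) :
    Subgroup.closure {y | ∃ a : F, ∃ r, y = ι V (Multiplicative.ofAdd (a • x r))} =
      ((Submodule.span F (Set.range x)).toAddSubgroup.toSubgroup).map (ι V) := by
  apply le_antisymm
  · rw [Subgroup.closure_le]
    rintro _ ⟨a, r, rfl⟩
    have : a • x r ∈ Submodule.span F (Set.range x) :=
      Submodule.smul_mem _ a (Submodule.subset_span ⟨r, rfl⟩)
    exact ⟨_, this, rfl⟩
  · rintro _ ⟨y, hy, rfl⟩
    have : ∀ z ∈ Submodule.span F (Set.range x), ∀ a : F, ι V (Multiplicative.ofAdd (a • z)) ∈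
        Subgroup.closure {y | ∃ a : F, ∃ r, y = ι V (Multiplicative.ofAdd (a • x r))} := by
      intro z hz
      induction hz using Submodule.span_induction with
      | mem z h => obtain ⟨r, rfl⟩ := h; exact fun a => Subgroup.subset_closure ⟨a, r, rfl⟩
      | zero => intro a; simpa using one_mem _
      | add y z _ _ h1 h2 => intro a; rw [smul_add, ofAdd_add, map_mul]; exact mul_mem (h1 a) (h2 a)
      | smul b z _ h => intro a; rw [smul_smul]; exact h _
    have := this _ hy 1
    rwa [one_smul] at this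

theorem rank_eq [DecidableEq F] {V R : Type} [Fintype V] [Fintype R] [DecidableEq V] [DecidableEq R]
    (C : Matrix R V ℤ) (U : Matrix R R ℤ) (W : Matrix V V ℤ) (hU : IsUnit U.det)
    (hW : IsUnit W.det) (e : V → R) (he : Function.Injective e) (d : V → ℕ)
    (h : ∀ r j, (U * C * W) r j = if r = e j then (d j : ℤ) else 0) :
    (C.map (Int.castRingHom F)).rank = Fintype.card {j // (d j : F) ≠ 0} := by
  set f := Int.castRingHom F
  have u : ∀ {n : Type} [Fintype n] [DecidableEq n] (M : Matrix n n ℤ), IsUnit M.det →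
      IsUnit (M.map f).det := fun M hM => by
    have := hM.map f
    rwa [RingHom.map_det] at this
  set E : Matrix R V F := fun r j => if r = e j then 1 else 0
  have h1 : U.map f * C.map f * W.map f = E * diagonal fun j => (d j : F) := by
    ext r j
    rw [← Matrix.map_mul, ← Matrix.map_mul, map_apply, h, mul_diagonal]
    simp only [E]
    split_ifs <;> simp [f]
  have h2 : Eᵀ * E = 1 := by
    ext i j
    simp [E, mul_apply, one_apply, he.eq_iff, eq_comm]
  rw [← rank_diagonal, ← rank_mul_eq_right_of_isUnit_det _ _ (u U hU),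
    ← rank_mul_eq_left_of_isUnit_det _ _ (u W hW), h1]
  refine le_antisymm (rank_mul_le_right _ _) ?_
  conv_lhs => rw [← Matrix.one_mul (diagonal _), ← h2, Matrix.mul_assoc]
  exact rank_mul_le_right _ _

end Pool.Agent.H27.GPow
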