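import Mathlib

set_option autoImplicit false

namespace Pool.Agent.H27.Gap

open Classical

/-- normalized Laplacian `I - D⁻¹ A` -/
noncomputable def normLap {n : ℕ} (G : SimpleGraph (Fin n)) : Matrix (Fin n) (Fin n) ℝ :=
  1 - Matrix.diagonal (fun v => (G.degree v : ℝ)⁻¹) * G.adjMatrix ℝ

/-- spectral gap from `1` -/
noncomputable def gap {n : ℕ} (G : SimpleGraph (Fin n)) : ℝ :=
  sInf ((fun μ => |μ - 1|) '' spectrum ℝ (normLap G))

/-- connected `d`-regular graphs with at least 3 vertices -/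
def RegFam (d n : ℕ) (G : SimpleGraph (Fin n)) : Prop :=
  3 ≤ n ∧ G.Connected ∧ ∀ v, G.degree v = d

/-- connected graphs of minimum degree at least `d` with at least 3 vertices -/
def MinFam (d n : ℕ) (G : SimpleGraph (Fin n)) : Prop :=
  3 ≤ n ∧ G.Connected ∧ ∀ v, d ≤ G.degree v

/-- `G` lies in the family `F` and attains the supremum of the gap over `F` -/
def Extreme (F : ∀ n, SimpleGraph (Fin n) → Prop) (n : ℕ) (G : SimpleGraph (Fin n)) : Prop :=
  F n G ∧ gap G = sSup {x | ∃ (m : ℕ) (H : SimpleGraph (Fin m)), F m H ∧ gap H = x}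

/-- `G` is the incidence graph of a symmetric `(v, d, l)` design for some `v > d` and `l ≥ 1`:
`S` is the set of points, the other vertices are the blocks -/
def IsDesignGraph (d n : ℕ) (G : SimpleGraph (Fin n)) : Prop :=
  ∃ (S : Finset (Fin n)) (l : ℕ), 1 ≤ l ∧ 2 * S.card = n ∧ d < S.card ∧
    (∀ u v, G.Adj u v → (u ∈ S ↔ v ∉ S)) ∧ (∀ b, b ∉ S → G.degree b = d) ∧
    ∀ p ∈ S, ∀ q ∈ S, p ≠ q → (Finset.univ.filter fun b => G.Adj p b ∧ G.Adj q b).card = l

end Pool.Agent.H27.Gap
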