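import Pool.Agent.H27.Baker
import Pool.Agent.H27.BR6

set_option autoImplicit false

namespace Pool.Agent.H27.Gap

open Matrix Finset Classical

variable {n : ℕ} {G : SimpleGraph (Fin n)}

lemma mem_spec {μ : ℝ} : μ ∈ spectrum ℝ (normLap G) ↔ ∃ v ≠ 0, normLap G *ᵥ v = μ • v := by
  rw [spectrum.mem_iff, isUnit_iff_isUnit_det, isUnit_iff_ne_zero, not_not,
    ← exists_mulVec_eq_zero_iff]
  simp only [sub_mulVec, Algebra.algebraMap_eq_smul_one, smul_mulVec, one_mulVec, sub_eq_zero,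
    eq_comm (b := normLap G *ᵥ _)]

lemma gap_le {μ : ℝ} (h : μ ∈ spectrum ℝ (normLap G)) : gap G ≤ |μ - 1| :=
  csInf_le ⟨0, by rintro _ ⟨x, -, rfl⟩; exact abs_nonneg _⟩ ⟨μ, h, rfl⟩

lemma zero_mem (hn : 3 ≤ n) (hd : ∀ v, 7 ≤ G.degree v) : (0 : ℝ) ∈ spectrum ℝ (normLap G) := by
  refine mem_spec.2 ⟨fun _ => 1, fun h => one_ne_zero (congrFun h ⟨0, by omega⟩), ?_⟩
  ext v
  have : (G.degree v : ℝ) ≠ 0 := Nat.cast_ne_zero.2 (by have := hd v; omega)
  simp [normLap, sub_mulVec, ← mulVec_mulVec, mulVec_diagonal, this]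

lemma reg_iff (hd : ∀ v, G.degree v = 7) (v : Fin n → ℝ) (μ : ℝ) :
    normLap G *ᵥ v = μ • v ↔ G.adjMatrix ℝ *ᵥ v = (7 * (1 - μ)) • v := by
  simp only [normLap, sub_mulVec, one_mulVec, ← mulVec_mulVec, hd, funext_iff, Pi.sub_apply,
    mulVec_diagonal, Pi.smul_apply, smul_eq_mul]
  exact forall_congr' fun i => by constructor <;> intro h <;> push_cast at * <;> linarith

lemma sq_apply [DecidableRel G.Adj] (R : Type) [CommRing R] (p q : Fin n) :
    (G.adjMatrix R * G.adjMatrix R) p q =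
    (univ.filter fun b => G.Adj p b ∧ G.Adj q b).card := by
  simp only [mul_apply, SimpleGraph.adjMatrix_apply, ite_zero_mul_ite_zero, mul_one, sum_boole,
    G.adj_comm _ q]

lemma baker_sq (u v : Fin 90) : (baker.adjMatrix ℝ * baker.adjMatrix ℝ) u v =
    (if u.1 / 45 = v.1 / 45 then 1 else 0) + (if u = v then 7 else 0) -
      if u.1 / 3 = v.1 / 3 then 1 else 0 := by
  have : ((_ : ℕ) : ℝ) = (_ : ℕ) := congrArg Nat.cast (codeg u v)
  push_cast at this
  rw [← this, add_sub_cancel_right]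
  exact sq_apply (G := baker) ℝ u v

lemma baker_deg (v : Fin 90) : baker.degree v = 7 := by
  have := baker_sq v v
  rw [SimpleGraph.adjMatrix_mul_self_apply_self] at this
  simp at this
  exact_mod_cast this

lemma baker_reg : RegFam 7 90 baker := ⟨by norm_num, baker_conn, baker_deg⟩

lemma cls3 : ∀ u : Fin 90, (univ.filter fun v : Fin 90 => u.1 / 3 = v.1 / 3).card = 3 := by
  decide +kernel

lemma baker_gap : 2 / 7 ≤ gap baker := by
  refine le_csInf ⟨_, 0, zero_mem baker_reg.1 fun v => (baker_reg.2.2 v).ge, rfl⟩ ?_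
  rintro _ ⟨μ, hμ, rfl⟩
  obtain ⟨x, hx, h⟩ := mem_spec.1 hμ
  rw [reg_iff baker_reg.2.2] at h
  have h0 : 0 < ∑ u, x u ^ 2 := by
    obtain ⟨u, hu⟩ := Function.ne_iff.1 hx
    exact sum_pos' (fun _ _ => sq_nonneg _) ⟨u, mem_univ _, sq_pos_of_ne_zero hu⟩
  have h1 : (7 * (1 - μ)) ^ 2 * ∑ u, x u ^ 2 =
      ∑ u, ∑ v, (baker.adjMatrix ℝ * baker.adjMatrix ℝ) u v * (x u * x v) := by
    have : x ⬝ᵥ (baker.adjMatrix ℝ * baker.adjMatrix ℝ) *ᵥ x = (7 * (1 - μ)) ^ 2 * x ⬝ᵥ x := by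
      rw [← mulVec_mulVec, h, mulVec_smul, h, smul_smul, dotProduct_smul, sq, smul_eq_mul]
    generalize baker.adjMatrix ℝ * baker.adjMatrix ℝ = B at *
    simp only [dotProduct, mulVec, mul_sum] at this
    simp only [mul_sum, sq (x _), ← this]
    exact sum_congr rfl fun u _ => sum_congr rfl fun v _ => by ring
  have h2 : 0 ≤ ∑ u : Fin 90, ∑ v : Fin 90, (if u.1 / 45 = v.1 / 45 then 1 else 0) * (x u * x v) := by
    have : ∀ u v : Fin 90, (if u.1 / 45 = v.1 / 45 then 1 else 0) * (x u * x v) =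
        (if u.1 < 45 then x u else 0) * (if v.1 < 45 then x v else 0) +
        (if u.1 < 45 then 0 else x u) * (if v.1 < 45 then 0 else x v) := fun u v => by
      have := u.2
      have := v.2
      split_ifs <;> first | omega | simp
    simp only [this, sum_add_distrib, ← sum_mul_sum]
    exact add_nonneg (mul_self_nonneg _) (mul_self_nonneg _)
  have h3 : ∑ u : Fin 90, ∑ v : Fin 90, (if u.1 / 3 = v.1 / 3 then 1 else 0) * x u ^ 2 =
      3 * ∑ u, x u ^ 2 := by
    simp only [← sum_mul, sum_boole, cls3, mul_sum]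
    norm_num
  have h4 : ∑ u : Fin 90, ∑ v : Fin 90, (if u.1 / 3 = v.1 / 3 then 1 else 0) * x v ^ 2 =
      3 * ∑ u, x u ^ 2 := by
    rw [sum_comm, ← h3]
    simp only [eq_comm]
  have h5 : ∑ u : Fin 90, ∑ v : Fin 90, 2 * ((if u.1 / 3 = v.1 / 3 then 1 else 0) * (x u * x v)) ≤
      ∑ u : Fin 90, ∑ v : Fin 90, ((if u.1 / 3 = v.1 / 3 then 1 else 0) * x u ^ 2 +
        (if u.1 / 3 = v.1 / 3 then 1 else 0) * x v ^ 2) :=
    sum_le_sum fun u _ => sum_le_sum fun v _ => by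
      split_ifs <;> nlinarith [sq_nonneg (x u - x v)]
  have h6 : ∑ u : Fin 90, ∑ v : Fin 90, (if u = v then 7 else 0) * (x u * x v) =
      7 * ∑ u, x u ^ 2 := by
    simp only [ite_mul, zero_mul, sum_ite_eq, mem_univ, if_true, mul_sum, sq]
  simp only [baker_sq, sub_mul, add_mul, sum_sub_distrib, sum_add_distrib, h6] at h1
  simp only [sum_add_distrib, h3, h4, ← mul_sum] at h5
  have h7 : 4 ≤ (7 * (1 - μ)) ^ 2 := le_of_mul_le_mul_right (by linarith) h0
  refine (pow_le_pow_iff_left₀ (by norm_num) (abs_nonneg _) two_ne_zero).1 ?_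
  rw [sq_abs]
  linarith

theorem design (hd : ∀ v, 7 ≤ G.degree v) (h : IsDesignGraph 7 n G) : n ≠ 90 ∧ gap G ≤ 2 / 7 := by
  obtain ⟨S, l, hl, hS, h7, hb, hB, hp⟩ := h
  have hc : Sᶜ.card = S.card := by rw [card_compl, Fintype.card_fin]; omega
  have hdeg : ∀ v, G.degree v = 7 := by
    have h1 : ∑ p ∈ S, G.degree p = ∑ b ∈ Sᶜ, G.degree b := by
      have e1 : ∀ p ∈ S, G.degree p = (Sᶜ.bipartiteAbove G.Adj p).card := fun p hp' => by
        rw [← SimpleGraph.card_neighborFinset_eq_degree]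
        congr 1; ext b
        simpa using fun h => (hb p b h).1 hp'
      have e2 : ∀ b ∈ Sᶜ, G.degree b = (S.bipartiteBelow G.Adj b).card := fun b hb' => by
        rw [← SimpleGraph.card_neighborFinset_eq_degree]
        congr 1; ext p
        simpa [G.adj_comm b] using fun h => (hb p b h).2 (mem_compl.1 hb')
      rw [sum_congr rfl e1, sum_congr rfl e2]
      exact sum_card_bipartiteAbove_eq_sum_card_bipartiteBelow _
    rw [sum_congr rfl fun b hb' => hB b (mem_compl.1 hb'), sum_const, hc, ← sum_const] at h1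
    intro v
    by_cases hv : v ∈ S
    · exact ((sum_eq_sum_iff_of_le fun i _ => hd i).1 h1.symm v hv).symm
    · exact hB v hv
  have hsq : ∀ (R : Type) [CommRing R], ∀ p ∈ S, ∀ q, (G.adjMatrix R * G.adjMatrix R) q p =
      if q ∈ S then (if q = p then 7 else (l : R)) else 0 := by
    intro R _ p hp' q
    split_ifs with h1 h2
    · rw [h2, SimpleGraph.adjMatrix_mul_self_apply_self, hdeg]; rfl
    · rw [sq_apply, hp q h1 p hp' h2]
    · rw [sq_apply, filter_eq_empty_iff.2, card_empty, Nat.cast_zero]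
      rintro b - ⟨h2, h3⟩
      exact h1 ((hb q b h2).2 ((hb p b h3).1 hp'))
  obtain ⟨p, hp', q, hq', hpq⟩ := one_lt_card.1 (by omega : 1 < S.card)
  have hcount : (l : ℤ) * (S.card - 1) = 42 := by
    have h1 : ∑ u, (G.adjMatrix ℤ * G.adjMatrix ℤ) u p = 49 := by
      have : ∀ w, ∑ u, G.adjMatrix ℤ u w = 7 := fun w => by
        simp [G.adj_comm _ w, ← SimpleGraph.neighborFinset_eq_filter, hdeg]
      simp only [mul_apply]
      rw [sum_comm]
      simp only [← sum_mul, this, ← mul_sum]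
      rfl
    simp only [hsq ℤ p hp', ← sum_filter, filter_mem_eq_inter, univ_inter] at h1
    rw [← add_sum_erase _ _ hp', if_pos rfl,
      sum_congr rfl fun u hu => if_neg (ne_of_mem_erase hu), sum_const, card_erase_of_mem hp',
      nsmul_eq_mul, Nat.cast_sub (by omega)] at h1
    push_cast at h1
    linarith
  have hN : (of fun (a : S) (b : ↥Sᶜ) => G.adjMatrix ℚ a b) *
      (of fun (a : S) (b : ↥Sᶜ) => G.adjMatrix ℚ a b)ᵀ =
        of fun a b => if a = b then 7 else (l : ℚ) := by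
    ext a b
    have := hsq ℚ b b.2 a
    rw [if_pos a.2, mul_apply, ← sum_add_sum_compl S, sum_eq_zero, zero_add] at this
    · simp only [mul_apply, of_apply, transpose_apply, Subtype.ext_iff, ← this]
      rw [sum_coe_sort Sᶜ fun j => G.adjMatrix ℚ a j * G.adjMatrix ℚ b j]
      simp only [SimpleGraph.adjMatrix_apply, G.adj_comm _ b.1]
    · intro j hj
      rw [SimpleGraph.adjMatrix_apply, if_neg fun h => (hb _ _ h).1 a.2 hj, zero_mul]
  have hl1 : l ≠ 1 := by
    rintro rfl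
    refine br (by simp; omega) (by rw [Fintype.card_coe]; omega) _ (hN.trans ?_)
    ext a b
    by_cases h : a = b <;> simp [h, ofNat_apply]
    norm_num
  have hl2 : l ≠ 2 := by
    rintro rfl
    refine nobiplane (by simp; omega) (by rw [Fintype.card_coe]; omega) _ (hN.trans ?_)
    ext a b
    by_cases h : a = b <;> simp [h, ofNat_apply]
    norm_num
  refine ⟨fun h => ?_, ?_⟩
  · rw [show S.card = 45 by omega] at hcount
    omega
  have hl7 : l ≤ 6 := by
    have : (8 : ℤ) ≤ S.card := by omega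
    by_contra h
    have : (7 : ℤ) ≤ l := by omega
    nlinarith
  have hl3 : (3 : ℝ) ≤ l := by exact_mod_cast (by omega : 3 ≤ l)
  have hl6 : (l : ℝ) ≤ 6 := by exact_mod_cast hl7
  set s := √(7 - l : ℝ) with hs
  have hs2 : s * s = 7 - l := Real.mul_self_sqrt (by linarith)
  have hs0 : 0 ≤ s := Real.sqrt_nonneg _
  have hs3 : s ≤ 2 := by nlinarith
  set x : Fin n → ℝ := Pi.single p 1 - Pi.single q 1 with hx
  have hx0 : x ≠ 0 := fun h => by simpa [hx, hpq] using congrFun h p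
  have hA : G.adjMatrix ℝ *ᵥ (G.adjMatrix ℝ *ᵥ x) = (s * s) • x := by
    ext u
    rw [mulVec_mulVec, hx, mulVec_sub, mulVec_single_one, mulVec_single_one, hs2]
    simp only [Pi.sub_apply, col_apply, hsq ℝ p hp', hsq ℝ q hq', Pi.smul_apply, Pi.single_apply,
      smul_eq_mul]
    split_ifs <;> simp_all
  have key : ∀ (t : ℝ) (v : Fin n → ℝ), |t| ≤ 2 → v ≠ 0 → G.adjMatrix ℝ *ᵥ v = t • v →
      gap G ≤ 2 / 7 := fun t v ht hv h => by
    refine (gap_le (μ := 1 - t / 7) (mem_spec.2 ⟨v, hv, (reg_iff hdeg _ _).2 ?_⟩)).trans ?_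
    · rw [h]; congr 1; ring
    · rw [sub_sub_cancel_left, abs_neg, abs_div, Nat.abs_ofNat]; linarith
  by_cases h0 : G.adjMatrix ℝ *ᵥ x + s • x = 0
  · exact key (-s) x (by rwa [abs_neg, abs_of_nonneg hs0]) hx0
      (by rw [neg_smul]; exact eq_neg_of_add_eq_zero_left h0)
  · exact key s _ (by rwa [abs_of_nonneg hs0]) h0
      (by rw [mulVec_add, hA, mulVec_smul, smul_add, smul_smul, add_comm])

theorem not_all (F : ∀ n, SimpleGraph (Fin n) → Prop) (hF : ∀ n G, F n G → MinFam 7 n G)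
    (hB : F 90 baker) :
    ¬((∃ n G, Extreme F n G) ∧ ∀ n G, Extreme F n G → IsDesignGraph 7 n G) := by
  rintro ⟨⟨n, G, hG⟩, h⟩
  have h1 := (design (hF n G hG.1).2.2 (h n G hG)).2
  have h2 : gap baker ≤ gap G := hG.2 ▸ le_csSup ⟨1, by
    rintro _ ⟨m, H, hH, rfl⟩
    simpa using gap_le (zero_mem (hF m H hH).1 (hF m H hH).2.2)⟩ ⟨90, baker, hB, rfl⟩
  have h3 : Extreme F 90 baker := ⟨hB, hG.2 ▸ le_antisymm h2 (h1.trans baker_gap)⟩
  exact (design (hF _ _ hB).2.2 (h _ _ h3)).1 rfl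

theorem main :
    ¬((∃ n G, Extreme (RegFam 7) n G) ∧ ∀ n G, Extreme (RegFam 7) n G → IsDesignGraph 7 n G) ∧
    ¬((∃ n G, Extreme (MinFam 7) n G) ∧ ∀ n G, Extreme (MinFam 7) n G → IsDesignGraph 7 n G) :=
  ⟨not_all _ (fun _ _ h => ⟨h.1, h.2.1, fun v => (h.2.2 v).ge⟩) baker_reg,
    not_all _ (fun _ _ h => h) ⟨baker_reg.1, baker_reg.2.1, fun v => (baker_reg.2.2 v).ge⟩⟩

end Pool.Agent.H27.Gap
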