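import Mathlib
import Pool.Agent.H27.Dens

set_option autoImplicit false

namespace Pool.Agent.H27.GeoProg

open Filter Topology Finset Pool.Agent.H27.Dens

/-- no base-3 digit exceeds 1 -/
def St (e : ℕ) : Prop := ∀ d ∈ Nat.digits 3 e, d ≤ 1

lemma St_zero : St 0 := by simp [St]

lemma St_step {e : ℕ} : St e ↔ e % 3 ≤ 1 ∧ St (e / 3) := by
  rcases Nat.eq_zero_or_pos e with rfl | h
  · simp [St]
  · unfold St
    rw [Nat.digits_def' (by norm_num) h]
    simp

lemma St_one : St 1 := by rw [St_step]; exact ⟨by norm_num, St_zero⟩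

lemma St_two : ¬ St 2 := by rw [St_step]; simp

lemma St_ap (n : ℕ) : ∀ a b c : ℕ, b ≤ n → St a → St b → St c → a + c = 2 * b → a = b := by
  induction n with
  | zero => intro a b c hb _ _ _ h; omega
  | succ n ih =>
    intro a b c hb ha hb' hc h
    rcases Nat.eq_zero_or_pos b with rfl | hpos
    · omega
    rw [St_step] at ha hb' hc
    have e1 : a % 3 = 0 ∨ a % 3 = 1 := by omega
    have e2 : b % 3 = 0 ∨ b % 3 = 1 := by omega
    have e3 : c % 3 = 0 ∨ c % 3 = 1 := by omega
    have h1 : a % 3 = b % 3 ∧ c % 3 = b % 3 := by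
      rcases e1 with e1 | e1 <;> rcases e2 with e2 | e2 <;> rcases e3 with e3 | e3 <;> omega
    have h2 : a / 3 + c / 3 = 2 * (b / 3) := by omega
    have := ih (a / 3) (b / 3) (c / 3) (by omega) ha.2 hb'.2 hc.2 h2
    omega

/-- 2 is the middle term -/
lemma St_mid {a c : ℕ} (ha : St a) (hc : St c) (h : a + c = 4) : a ≠ 2 := by
  rintro rfl
  exact St_two ha

/-- 2 is an end term -/
lemma St_end (n : ℕ) : ∀ b c : ℕ, b ≤ n → St b → St c → c = 2 * b → b = 0 := by
  intro b c _ hb hc h
  have := St_ap b 0 b c le_rfl St_zero hb hc (by omega)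
  omega

lemma St_end1 {b c : ℕ} (hb : St b) (hc : St c) (h : 1 + c = 2 * b) : b = 1 := by
  have := St_ap b 1 b c le_rfl St_one hb hc h
  omega

lemma St_end2 {b c : ℕ} (hb : St b) (hc : St c) (h : 2 + c = 2 * b) : b = 1 ∨ b = 3 := by
  rw [St_step] at hb hc
  rcases hb with ⟨hb1, hb2⟩
  rcases hc with ⟨hc1, hc2⟩
  have h3 : b % 3 = 0 ∨ b % 3 = 1 := by omega
  rcases h3 with h3 | h3
  · have := St_end1 hb2 hc2 (by omega)
    omega
  · have := St_end (b / 3) (b / 3) (c / 3) le_rfl hb2 hc2 (by omega)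
    omega

/-- Rankin's set -/
def G : Set ℕ := {n : ℕ | 1 ≤ n ∧ ∀ p : ℕ, St (n.factorization p)}

/-- elements of `G` free of the primes in `T` -/
def B (T : Finset ℕ) : Set ℕ :=
  {m | m ≠ 0 ∧ (∀ q ∈ T, m.factorization q = 0) ∧ ∀ q, q ∉ T → St (m.factorization q)}

def Smooth (T : Finset ℕ) (s : ℕ) : Prop := s ≠ 0 ∧ ∀ q, q ∉ T → s.factorization q = 0

lemma mem_dil {T : Finset ℕ} {s : ℕ} (hs : Smooth T s) (n : ℕ) :
    n ∈ dil s (B T) ↔ n ≠ 0 ∧ (∀ q ∈ T, n.factorization q = s.factorization q) ∧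
      ∀ q, q ∉ T → St (n.factorization q) := by
  constructor
  · rintro ⟨m, ⟨hm0, hm1, hm2⟩, rfl⟩
    refine ⟨mul_ne_zero hs.1 hm0, ?_, ?_⟩
    · intro q hq
      rw [Nat.factorization_mul hs.1 hm0]
      simp [hm1 q hq]
    · intro q hq
      rw [Nat.factorization_mul hs.1 hm0]
      simpa [hs.2 q hq] using hm2 q hq
  · rintro ⟨h0, h1, h2⟩
    have hd : s ∣ n := by
      rw [← Nat.factorization_le_iff_dvd hs.1 h0]
      intro q
      by_cases hq : q ∈ T
      · exact (h1 q hq).ge
      · rw [hs.2 q hq]; exact Nat.zero_le _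
    obtain ⟨m, rfl⟩ := hd
    have hm0 : m ≠ 0 := right_ne_zero_of_mul h0
    refine ⟨m, ⟨hm0, ?_, ?_⟩, rfl⟩
    · intro q hq
      have := h1 q hq
      rw [Nat.factorization_mul hs.1 hm0] at this
      simpa using this
    · intro q hq
      have := h2 q hq
      rw [Nat.factorization_mul hs.1 hm0] at this
      simpa [hs.2 q hq] using this

lemma dil_disjoint {T : Finset ℕ} {s t : ℕ} (hs : Smooth T s) (ht : Smooth T t) (h : s ≠ t) :
    Disjoint (dil s (B T)) (dil t (B T)) := by
  rw [Set.disjoint_left]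
  intro n h1 h2
  rw [mem_dil hs] at h1
  rw [mem_dil ht] at h2
  apply h
  apply Nat.eq_of_factorization_eq hs.1 ht.1
  intro q
  by_cases hq : q ∈ T
  · rw [← h1.2.1 q hq, h2.2.1 q hq]
  · rw [hs.2 q hq, ht.2 q hq]

lemma exists_dens_B (T : Finset ℕ) : ∃ d, HasDens (B T) d := by
  apply exists_dens_of_approx
  intro ε hε
  obtain ⟨K0, hK0⟩ := exists_nat_one_div_lt hε
  set K := max (K0 + 1) (T.sup id) with hK
  have hKpos : 0 < K := lt_of_lt_of_le (Nat.succ_pos K0) (le_max_left _ _)
  set Q := (K.factorial) ^ (2 * K) with hQ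
  have hQpos : 0 < Q := pow_pos (Nat.factorial_pos K) _
  have hQv : ∀ q, q.Prime → q ≤ K → 2 * K ≤ Q.factorization q := by
    intro q hq hqK
    rw [hQ, Nat.factorization_pow]
    simp only [Finsupp.smul_apply, smul_eq_mul]
    have : 1 ≤ K.factorial.factorization q :=
      (hq.dvd_iff_one_le_factorization (Nat.factorial_ne_zero K)).mp (hq.dvd_factorial.mpr hqK)
    nlinarith
  have key : ∀ n, n ≠ 0 → n ∉ bigSq K → ∀ q, (Nat.gcd n Q).factorization q = n.factorization q ∨
      (q ∉ T ∧ n.factorization q = 1 ∧ (Nat.gcd n Q).factorization q = 0) := by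
    intro n hn hb q
    rw [Nat.factorization_gcd hn hQpos.ne']
    simp only [Finsupp.inf_apply]
    by_cases hq : q.Prime
    · by_cases hqK : q ≤ K
      · left
        apply min_eq_left
        by_contra hlt
        apply hb
        refine ⟨q ^ K, ?_, ?_⟩
        · exact lt_of_lt_of_le (Nat.lt_two_pow_self) (Nat.pow_le_pow_left hq.two_le K)
        · rw [← pow_mul, hq.pow_dvd_iff_le_factorization hn]
          have := hQv q hq hqK
          omega
      · have h2 : n.factorization q ≤ 1 := by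
          by_contra hlt
          apply hb
          refine ⟨q, by omega, ?_⟩
          rw [hq.pow_dvd_iff_le_factorization hn]
          omega
        have h3 : q ∉ T := by
          intro hqT
          apply hqK
          exact le_trans (Finset.le_sup (f := id) hqT) (le_max_right _ _)
        by_cases h4 : n.factorization q ≤ Q.factorization q
        · left; exact min_eq_left h4
        · right
          refine ⟨h3, by omega, ?_⟩
          rw [min_eq_right (by omega)]
          omega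
    · left
      simp [Nat.factorization_eq_zero_of_not_prime _ hq]
  refine ⟨{n | Nat.gcd n Q ∈ B T}, bigSq K, _, hasDens_periodic hQpos ?_, ?_, ?_, ?_⟩
  · intro n
    simp only [Set.mem_ofPred_eq, Nat.gcd_add_self_left]
  · intro N
    refine le_trans (cnt_bigSq hKpos N) (mul_le_mul_of_nonneg_right ?_ (by positivity))
    refine le_trans ?_ hK0.le
    apply one_div_le_one_div_of_le (by positivity)
    exact_mod_cast le_max_left _ _
  · intro n hn
    by_cases hb : n ∈ bigSq K
    · exact Or.inr hb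
    left
    have hn0 : n ≠ 0 := by
      rintro rfl
      exact hb ⟨K + 1, Nat.lt_succ_self _, dvd_zero _⟩
    obtain ⟨_, h1, h2⟩ := hn
    refine ⟨hn0, ?_, ?_⟩
    · intro q hq
      rcases key n hn0 hb q with h | h
      · rw [← h]; exact h1 q hq
      · exact absurd hq h.1
    · intro q hq
      rcases key n hn0 hb q with h | h
      · rw [← h]; exact h2 q hq
      · rw [h.2.1]; exact St_one
  · intro n hn
    by_cases hb : n ∈ bigSq K
    · exact Or.inr hb
    left
    obtain ⟨hn0, h1, h2⟩ := hn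
    refine ⟨(Nat.gcd_pos_of_pos_right n hQpos).ne', ?_, ?_⟩
    · intro q hq
      rcases key n hn0 hb q with h | h
      · rw [h]; exact h1 q hq
      · exact h.2.2
    · intro q hq
      rcases key n hn0 hb q with h | h
      · rw [h]; exact h2 q hq
      · rw [h.2.2]; exact St_zero

lemma dens_B_pos (T : Finset ℕ) (hT : ∀ q ∈ T, q.Prime) (h2T : 2 ∈ T) {d : ℝ} (hd : HasDens (B T) d) :
    0 < d := by
  classical
  set h := (∏ q ∈ T, q) ^ 3 with hh
  have hprod : (∏ q ∈ T, q) ≠ 0 := Finset.prod_ne_zero_iff.mpr (fun q hq => (hT q hq).ne_zero)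
  have hh0 : h ≠ 0 := pow_ne_zero _ hprod
  have hhv : ∀ q, h.factorization q = if q ∈ T then 3 else 0 := by
    intro q
    rw [hh, Nat.factorization_pow, Nat.factorization_prod (fun q hq => (hT q hq).ne_zero)]
    simp only [Finsupp.smul_apply, smul_eq_mul, Finsupp.coe_finsetSum, Finset.sum_apply]
    rw [Finset.sum_congr rfl (fun p hp => by rw [(hT p hp).factorization])]
    simp only [Finsupp.single_apply, Finset.sum_ite_eq']
    split_ifs <;> rfl
  have hcover : (bigSq 2)ᶜ ⊆ ⋃ s ∈ h.divisors, dil s (B T) := by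
    intro n hn
    have hn0 : n ≠ 0 := by
      rintro rfl
      exact hn ⟨3, by norm_num, dvd_zero _⟩
    have hv : ∀ q, n.factorization q ≤ 3 := by
      intro q
      by_cases hq : q.Prime
      · by_contra hlt
        apply hn
        refine ⟨q ^ 2, by nlinarith [hq.two_le], ?_⟩
        rw [← pow_mul, hq.pow_dvd_iff_le_factorization hn0]
        omega
      · simp [Nat.factorization_eq_zero_of_not_prime _ hq]
    have hg0 : Nat.gcd n h ≠ 0 := (Nat.gcd_pos_of_pos_left h (Nat.pos_of_ne_zero hn0)).ne'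
    have hgv : ∀ q, (Nat.gcd n h).factorization q = if q ∈ T then n.factorization q else 0 := by
      intro q
      rw [Nat.factorization_gcd hn0 hh0]
      simp only [Finsupp.inf_apply, hhv]
      split_ifs
      · exact min_eq_left (hv q)
      · simp
    simp only [Set.mem_iUnion]
    refine ⟨Nat.gcd n h, Nat.mem_divisors.mpr ⟨Nat.gcd_dvd_right _ _, hh0⟩, ?_⟩
    rw [mem_dil ⟨hg0, fun q hq => by rw [hgv, if_neg hq]⟩]
    refine ⟨hn0, fun q hq => by rw [hgv, if_pos hq], fun q hq => ?_⟩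
    have : n.factorization q ≤ 1 := by
      by_cases hp : q.Prime
      · by_contra hlt
        apply hn
        have h2 : q ≠ 2 := by rintro rfl; exact hq h2T
        refine ⟨q, by have := hp.two_le; omega, ?_⟩
        rw [hp.pow_dvd_iff_le_factorization hn0]
        omega
      · simp [Nat.factorization_eq_zero_of_not_prime _ hp]
    rcases Nat.le_one_iff_eq_zero_or_eq_one.mp this with h0 | h0 <;> rw [h0]
    · exact St_zero
    · exact St_one
  have hsm : ∀ s ∈ h.divisors, Smooth T s := by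
    intro s hs
    have hs' := Nat.mem_divisors.mp hs
    have hs0 : s ≠ 0 := (Nat.pos_of_mem_divisors hs).ne'
    refine ⟨hs0, fun q hq => ?_⟩
    have := (Nat.factorization_le_iff_dvd hs0 hh0).mpr hs'.1 q
    rw [hhv, if_neg hq] at this
    omega
  have hU := hasDens_biUnion h.divisors (fun s => dil s (B T)) (fun s => d / s)
    (fun s hs => hd.dil (Nat.pos_of_mem_divisors hs))
    (fun s hs t ht hst => dil_disjoint (hsm s hs) (hsm t ht) hst)
  have hge : (1 / 2 : ℝ) ≤ ∑ s ∈ h.divisors, d / s := by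
    refine ge_of_tendsto hU ?_
    filter_upwards [eventually_gt_atTop 0] with N hN
    have hN' : (0 : ℝ) < N := by exact_mod_cast hN
    rw [le_div_iff₀ hN']
    have a1 := cnt_mono hcover N
    have a2 := cnt_union_le (bigSq 2) (bigSq 2)ᶜ N
    rw [Set.union_compl_self, cnt_univ] at a2
    have a3 := cnt_bigSq (K := 2) (by norm_num) N
    have a4 : (N : ℝ) ≤ cnt (bigSq 2) N + cnt (⋃ s ∈ h.divisors, dil s (B T)) N := by
      exact_mod_cast le_trans a2 (Nat.add_le_add_left a1 _)
    push_cast at a3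
    linarith
  by_contra hneg
  push Not at hneg
  have : ∑ s ∈ h.divisors, d / s ≤ 0 :=
    Finset.sum_nonpos (fun s _ => div_nonpos_of_nonpos_of_nonneg hneg (by positivity))
  linarith

lemma exists_primes : ∃ P : Finset ℕ, (∀ p ∈ P, p.Prime ∧ 80 < p) ∧
    (40 : ℝ) < ∑ p ∈ P, (1 : ℝ) / p := by
  classical
  have h := not_summable_one_div_on_primes
  rw [not_summable_iff_tendsto_nat_atTop_of_nonneg
    (fun n => Set.indicator_nonneg (fun p _ => by positivity) n)] at h
  obtain ⟨n, hn⟩ := (h.eventually (eventually_gt_atTop (200 : ℝ))).exists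
  refine ⟨(Finset.range n).filter (fun p => p.Prime ∧ 80 < p), ?_, ?_⟩
  · intro p hp
    exact (Finset.mem_filter.mp hp).2
  · rw [Finset.sum_filter]
    have h1 : ∑ i ∈ Finset.range n, Set.indicator {p | Nat.Prime p} (fun n : ℕ => (1 : ℝ) / n) i ≤
        ∑ i ∈ Finset.range n, ((if i.Prime ∧ 80 < i then (1 : ℝ) / i else 0) +
          (if i ∈ Finset.range 81 then (1 : ℝ) else 0)) := by
      apply Finset.sum_le_sum
      intro i _
      simp only [Set.indicator, Set.mem_ofPred_eq, Finset.mem_range]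
      by_cases hp : i.Prime
      · by_cases h8 : 80 < i
        · simp [hp, h8, show ¬ i < 81 by omega]
        · have : (1 : ℝ) ≤ i := by exact_mod_cast hp.one_le
          simp only [hp, h8, if_true, and_false, if_false, show i < 81 by omega, zero_add]
          rw [div_le_one (by linarith)]
          exact this
      · simp only [hp, false_and, if_false, zero_add]
        split_ifs <;> norm_num
    rw [Finset.sum_add_distrib] at h1
    have h2 : ∑ i ∈ Finset.range n, (if i ∈ Finset.range 81 then (1 : ℝ) else 0) ≤ 81 := by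
      rw [Finset.sum_ite_mem]
      simp only [Finset.sum_const, nsmul_eq_mul, mul_one]
      have := Finset.card_le_card (Finset.inter_subset_right (s₁ := Finset.range n)
        (s₂ := Finset.range 81))
      rw [Finset.card_range] at this
      exact_mod_cast this
    linarith

section main

variable {P : Finset ℕ}

/-- `2 ^ a * (∏ P) * p ^ b` -/
def el (P : Finset ℕ) (a p b : ℕ) : ℕ := 2 ^ a * (∏ q ∈ P, q) * p ^ b

lemma prod_ne (hP : ∀ p ∈ P, p.Prime ∧ 80 < p) : (∏ q ∈ P, q) ≠ 0 :=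
  Finset.prod_ne_zero_iff.mpr (fun q hq => (hP q hq).1.ne_zero)

lemma el_ne (hP : ∀ p ∈ P, p.Prime ∧ 80 < p) (a : ℕ) {p : ℕ} (hp : p.Prime) (b : ℕ) :
    el P a p b ≠ 0 :=
  mul_ne_zero (mul_ne_zero (by positivity) (prod_ne hP)) (pow_ne_zero _ hp.ne_zero)

lemma el_fact (hP : ∀ p ∈ P, p.Prime ∧ 80 < p) (a : ℕ) {p : ℕ} (hp : p.Prime) (b q : ℕ) :
    (el P a p b).factorization q =
      (if 2 = q then a else 0) + (if q ∈ P then 1 else 0) + (if p = q then b else 0) := by
  unfold el
  rw [Nat.factorization_mul (mul_ne_zero (by positivity) (prod_ne hP)) (pow_ne_zero _ hp.ne_zero),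
    Nat.factorization_mul (by positivity) (prod_ne hP), Nat.prime_two.factorization_pow,
    hp.factorization_pow, Nat.factorization_prod (fun q hq => (hP q hq).1.ne_zero)]
  simp only [Finsupp.add_apply, Finsupp.coe_finsetSum, Finset.sum_apply]
  rw [Finset.sum_congr rfl (fun p hp => by rw [(hP p hp).1.factorization])]
  simp only [Finsupp.single_apply, Finset.sum_ite_eq']

lemma el_smooth (hP : ∀ p ∈ P, p.Prime ∧ 80 < p) (a : ℕ) {p : ℕ} (hp : p ∈ insert 2 P) (b : ℕ) :
    Smooth (insert 2 P) (el P a p b) := by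
  have hpp : p.Prime := by
    rcases Finset.mem_insert.mp hp with rfl | h
    · exact Nat.prime_two
    · exact (hP p h).1
  refine ⟨el_ne hP a hpp b, fun q hq => ?_⟩
  rw [el_fact hP a hpp]
  have h1 : 2 ≠ q := by rintro rfl; exact hq (Finset.mem_insert_self _ _)
  have h2 : q ∉ P := fun h => hq (Finset.mem_insert_of_mem h)
  have h3 : p ≠ q := by rintro rfl; exact hq hp
  simp [h1, h2, h3]

/-- removed smooth parts (candidates) -/
def X0 (P : Finset ℕ) : Finset ℕ :=
  (Finset.range 5).image (fun a => el P a 2 0) ∪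
    (Finset.range 5 ×ˢ P ×ˢ ({2, 3} : Finset ℕ)).image (fun t => el P t.1 t.2.1 t.2.2)

open Classical in
noncomputable def X (P : Finset ℕ) : Finset ℕ := (X0 P).filter (· ∈ G)

def A (P : Finset ℕ) : Set ℕ :=
  (G \ ⋃ x ∈ X P, dil x (B (insert 2 P))) ∪ ⋃ p ∈ P, dil (el P 2 p 1) (B (insert 2 P))

lemma X0_smooth (hP : ∀ p ∈ P, p.Prime ∧ 80 < p) {x : ℕ} (hx : x ∈ X0 P) :
    Smooth (insert 2 P) x := by
  simp only [X0, Finset.mem_union, Finset.mem_image, Finset.mem_product] at hx
  rcases hx with ⟨a, _, rfl⟩ | ⟨t, ht, rfl⟩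
  · exact el_smooth hP a (Finset.mem_insert_self _ _) 0
  · exact el_smooth hP _ (Finset.mem_insert_of_mem ht.2.1) _

lemma sum_X0 (hP : ∀ p ∈ P, p.Prime ∧ 80 < p) :
    ∑ x ∈ X0 P, (1 : ℝ) / x ≤ (5 + (1 / 8) * ∑ p ∈ P, (1 : ℝ) / p) / (∏ q ∈ P, q : ℕ) := by
  have hg : (0 : ℝ) < (∏ q ∈ P, q : ℕ) := by exact_mod_cast Nat.pos_of_ne_zero (prod_ne hP)
  set g : ℝ := ((∏ q ∈ P, q : ℕ) : ℝ) with hgdef
  have hel : ∀ a p b, ((el P a p b : ℕ) : ℝ) = 2 ^ a * g * (p : ℝ) ^ b := by
    intro a p b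
    simp only [el, hgdef]
    push_cast
    ring
  unfold X0
  have hun : ∀ s t : Finset ℕ, ∑ x ∈ s ∪ t, (1 : ℝ) / x ≤
      ∑ x ∈ s, (1 : ℝ) / x + ∑ x ∈ t, (1 : ℝ) / x := by
    intro s t
    rw [← Finset.sum_union_inter]
    have : 0 ≤ ∑ x ∈ s ∩ t, (1 : ℝ) / x := Finset.sum_nonneg (fun x _ => by positivity)
    linarith
  refine le_trans (hun _ _) ?_
  have h1 : ∑ x ∈ (Finset.range 5).image (fun a => el P a 2 0), (1 : ℝ) / x ≤ 5 / g := by
    refine le_trans (Finset.sum_image_le_of_nonneg (fun x _ => by positivity)) ?_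
    have : ∀ a ∈ Finset.range 5, (1 : ℝ) / (el P a 2 0 : ℕ) ≤ 1 / g := by
      intro a _
      rw [hel]
      apply one_div_le_one_div_of_le hg
      have : (1 : ℝ) ≤ 2 ^ a := one_le_pow₀ (by norm_num)
      nlinarith
    refine le_trans (Finset.sum_le_sum this) ?_
    simp only [Finset.sum_const, Finset.card_range, nsmul_eq_mul]
    apply le_of_eq
    push_cast
    ring
  have h2 : ∑ x ∈ (Finset.range 5 ×ˢ P ×ˢ ({2, 3} : Finset ℕ)).image
      (fun t => el P t.1 t.2.1 t.2.2), (1 : ℝ) / x ≤ ((1 / 8) * ∑ p ∈ P, (1 : ℝ) / p) / g := by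
    refine le_trans (Finset.sum_image_le_of_nonneg (fun x _ => by positivity)) ?_
    have : ∀ t ∈ (Finset.range 5 ×ˢ P ×ˢ ({2, 3} : Finset ℕ)),
        (1 : ℝ) / (el P t.1 t.2.1 t.2.2 : ℕ) ≤ (1 / 80) * (1 / t.2.1) / g := by
      rintro ⟨a, p, b⟩ ht
      simp only [Finset.mem_product, Finset.mem_insert, Finset.mem_singleton] at ht
      have hp : (80 : ℝ) < p := by exact_mod_cast (hP p ht.2.1).2
      rw [hel]
      simp only
      have e : (1 / 80 : ℝ) * (1 / p) / g = 1 / (80 * p * g) := by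
        field_simp
      rw [e]
      apply one_div_le_one_div_of_le (by positivity)
      have h2a : (1 : ℝ) ≤ 2 ^ a := one_le_pow₀ (by norm_num)
      have hb : (80 : ℝ) * p ≤ (p : ℝ) ^ b := by
        have hb2 : (80 : ℝ) * p ≤ (p : ℝ) ^ 2 := by nlinarith
        rcases ht.2.2 with rfl | rfl
        · exact hb2
        · exact le_trans hb2 (pow_le_pow_right₀ (by linarith) (by norm_num))
      calc 80 * (p : ℝ) * g = 1 * g * (80 * p) := by ring
        _ ≤ 2 ^ a * g * (p : ℝ) ^ b := by gcongr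
    refine le_trans (Finset.sum_le_sum this) ?_
    rw [Finset.sum_product]
    simp only [Finset.sum_product, Finset.sum_const, Finset.card_range, nsmul_eq_mul]
    rw [Finset.card_pair (by norm_num), Finset.mul_sum, Finset.mul_sum, Finset.sum_div]
    apply le_of_eq
    apply Finset.sum_congr rfl
    intro p _
    push_cast
    ring
  rw [add_div]
  linarith

lemma new_val (hP : ∀ p ∈ P, p.Prime ∧ 80 < p) {p n : ℕ} (hp : p ∈ P)
    (hn : n ∈ dil (el P 2 p 1) (B (insert 2 P))) :
    n ≠ 0 ∧ n.factorization 2 = 2 ∧ n.factorization p = 2 ∧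
      (∀ q ∈ P, q ≠ p → n.factorization q = 1) ∧
      ∀ q, q ∉ insert 2 P → St (n.factorization q) := by
  rw [mem_dil (el_smooth hP 2 (Finset.mem_insert_of_mem hp) 1)] at hn
  obtain ⟨h0, h1, h2⟩ := hn
  have hp2 : p ≠ 2 := by have := (hP p hp).2; omega
  have h2P : 2 ∉ P := fun h => by have := (hP 2 h).2; omega
  refine ⟨h0, ?_, ?_, ?_, h2⟩
  · rw [h1 2 (Finset.mem_insert_self _ _), el_fact hP 2 (hP p hp).1]
    simp [hp2, h2P]
  · rw [h1 p (Finset.mem_insert_of_mem hp), el_fact hP 2 (hP p hp).1]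
    simp [hp, hp2.symm]
  · intro q hq hqp
    have hq2 : 2 ≠ q := by have := (hP q hq).2; omega
    rw [h1 q (Finset.mem_insert_of_mem hq), el_fact hP 2 (hP p hp).1]
    simp [hq, hq2, hqp.symm]

lemma old_val (hP : ∀ p ∈ P, p.Prime ∧ 80 < p) {p n : ℕ} (hp : p ∈ P) (hG : n ∈ G)
    (h2 : n.factorization 2 ≤ 4) (hq : ∀ q ∈ P, q ≠ p → n.factorization q = 1)
    (hv : n.factorization p = 1 ∨ n.factorization p = 3 ∨ n.factorization p = 4) :
    n ∈ ⋃ x ∈ X P, dil x (B (insert 2 P)) := by
  classical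
  have hp2 : p ≠ 2 := by have := (hP p hp).2; omega
  have h2P : 2 ∉ P := fun h => by have := (hP 2 h).2; omega
  have hx : el P (n.factorization 2) p (n.factorization p - 1) ∈ X0 P := by
    simp only [X0, Finset.mem_union, Finset.mem_image, Finset.mem_product, Finset.mem_range]
    rcases hv with hv | hv
    · left
      refine ⟨n.factorization 2, by omega, ?_⟩
      rw [hv]
      simp [el]
    · right
      refine ⟨(n.factorization 2, p, n.factorization p - 1), ⟨by simp only; omega, hp, ?_⟩, rfl⟩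
      simp only [Finset.mem_insert, Finset.mem_singleton]
      omega
  have hs := X0_smooth hP hx
  have hval : ∀ q ∈ insert 2 P, n.factorization q =
      (el P (n.factorization 2) p (n.factorization p - 1)).factorization q := by
    intro q hqT
    rw [el_fact hP _ (hP p hp).1]
    rcases Finset.mem_insert.mp hqT with rfl | hqP
    · simp [h2P, hp2]
    · have hq2 : 2 ≠ q := by have := (hP q hqP).2; omega
      by_cases hpq : p = q
      · subst hpq
        simp only [hq2, if_false, hqP, if_true]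
        omega
      · simp [hq2, hqP, hpq, hq q hqP (Ne.symm hpq)]
  simp only [Set.mem_iUnion]
  refine ⟨_, Finset.mem_filter.mpr ⟨hx, Nat.pos_of_ne_zero hs.1, fun q => ?_⟩, ?_⟩
  · by_cases hqT : q ∈ insert 2 P
    · rw [← hval q hqT]; exact hG.2 q
    · rw [hs.2 q hqT]; exact St_zero
  · rw [mem_dil hs]
    exact ⟨by have := hG.1; omega, hval, fun q _ => hG.2 q⟩

lemma A_free (hP : ∀ p ∈ P, p.Prime ∧ 80 < p) {a b c : ℕ} (ha : a ∈ A P) (hb : b ∈ A P)
    (hc : c ∈ A P) (h : b ^ 2 = a * c) : a = b := by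
  have hoff : ∀ n ∈ A P, n ≠ 0 ∧ ∀ q, q ∉ insert 2 P → St (n.factorization q) := by
    intro n hn
    rcases hn with hn | hn
    · exact ⟨by have := hn.1.1; omega, fun q _ => hn.1.2 q⟩
    · simp only [Set.mem_iUnion] at hn
      obtain ⟨p, hp, hn⟩ := hn
      have := new_val hP hp hn
      exact ⟨this.1, this.2.2.2.2⟩
  have ha0 := (hoff a ha).1
  have hb0 := (hoff b hb).1
  have hc0 := (hoff c hc).1
  have hv : ∀ q, a.factorization q + c.factorization q = 2 * b.factorization q := by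
    intro q
    have := congrArg (fun n => n.factorization q) h
    simp only [Nat.factorization_pow, Nat.factorization_mul ha0 hc0, Finsupp.smul_apply,
      smul_eq_mul, Finsupp.add_apply] at this
    omega
  apply Nat.eq_of_factorization_eq ha0 hb0
  intro q
  by_cases hqT : q ∉ insert 2 P
  · exact St_ap _ _ _ _ le_rfl ((hoff a ha).2 q hqT) ((hoff b hb).2 q hqT) ((hoff c hc).2 q hqT)
      (hv q)
  push Not at hqT
  have hend : ∀ a c : ℕ, (∀ q, a.factorization q + c.factorization q = 2 * b.factorization q) →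
      ∀ p ∈ P, a ∈ dil (el P 2 p 1) (B (insert 2 P)) →
      b ∈ G \ ⋃ x ∈ X P, dil x (B (insert 2 P)) → c ∈ G → False := by
    intro a c hv p hp ha hb hc
    obtain ⟨_, a2, ap, aq, _⟩ := new_val hP hp ha
    apply hb.2
    apply old_val hP hp hb.1
    · have := St_end2 (hb.1.2 2) (hc.2 2) (by rw [← hv 2, a2])
      omega
    · intro q hq hqp
      exact St_end1 (hb.1.2 q) (hc.2 q) (by rw [← hv q, aq q hq hqp])
    · have := St_end2 (hb.1.2 p) (hc.2 p) (by rw [← hv p, ap])
      omega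
  rcases ha with ha | ha <;> rcases hb with hb | hb <;> rcases hc with hc | hc
  · exact St_ap _ _ _ _ le_rfl (ha.1.2 q) (hb.1.2 q) (hc.1.2 q) (hv q)
  · simp only [Set.mem_iUnion] at hc
    obtain ⟨p, hp, hc⟩ := hc
    exact (hend c a (fun q => by rw [add_comm]; exact hv q) p hp hc hb ha.1).elim
  · simp only [Set.mem_iUnion] at hb
    obtain ⟨p, hp, hb⟩ := hb
    obtain ⟨_, b2, bp, bq, _⟩ := new_val hP hp hb
    exfalso
    have e2 := hv 2
    have ep := hv p
    rw [b2] at e2
    rw [bp] at ep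
    have hq1 : ∀ q ∈ P, q ≠ p → a.factorization q = 1 ∧ c.factorization q = 1 := by
      intro q hq hqp
      have e := hv q
      rw [bq q hq hqp] at e
      have := St_ap _ _ _ _ le_rfl (ha.1.2 q) St_one (hc.1.2 q) e
      omega
    have hne := St_mid (ha.1.2 p) (hc.1.2 p) ep
    by_cases h0 : a.factorization p = 0
    · exact hc.2 (old_val hP hp hc.1 (by omega) (fun q hq hqp => (hq1 q hq hqp).2) (by omega))
    · exact ha.2 (old_val hP hp ha.1 (by omega) (fun q hq hqp => (hq1 q hq hqp).1) (by omega))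
  · simp only [Set.mem_iUnion] at hb hc
    obtain ⟨p, hp, hb⟩ := hb
    obtain ⟨p', hp', hc⟩ := hc
    have e2 := hv 2
    rw [(new_val hP hp hb).2.1, (new_val hP hp' hc).2.1] at e2
    have := ha.1.2 2
    rw [show a.factorization 2 = 2 by omega] at this
    exact (St_two this).elim
  · simp only [Set.mem_iUnion] at ha
    obtain ⟨p, hp, ha⟩ := ha
    exact (hend a c hv p hp ha hb hc.1).elim
  · simp only [Set.mem_iUnion] at ha hc
    obtain ⟨p, hp, ha⟩ := ha
    obtain ⟨p', hp', hc⟩ := hc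
    have e2 := hv 2
    rw [(new_val hP hp ha).2.1, (new_val hP hp' hc).2.1] at e2
    have := hb.1.2 2
    rw [show b.factorization 2 = 2 by omega] at this
    exact (St_two this).elim
  · simp only [Set.mem_iUnion] at ha hb
    obtain ⟨p, hp, ha⟩ := ha
    obtain ⟨p', hp', hb⟩ := hb
    have e2 := hv 2
    rw [(new_val hP hp ha).2.1, (new_val hP hp' hb).2.1] at e2
    have := hc.1.2 2
    rw [show c.factorization 2 = 2 by omega] at this
    exact (St_two this).elim
  · simp only [Set.mem_iUnion] at ha hb hc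
    obtain ⟨p, hp, ha⟩ := ha
    obtain ⟨p', hp', hb⟩ := hb
    obtain ⟨p'', hp'', hc⟩ := hc
    obtain ⟨_, a2, ap, aq, _⟩ := new_val hP hp ha
    obtain ⟨_, b2, bp, bq, _⟩ := new_val hP hp' hb
    obtain ⟨_, c2, cp, cq, _⟩ := new_val hP hp'' hc
    have hpp : p = p' := by
      by_contra hne
      have e := hv p'
      rw [bp, aq p' hp' (Ne.symm hne)] at e
      by_cases h3 : p' = p''
      · rw [h3, cp] at e; omega
      · rw [cq p' hp' h3] at e; omega
    subst hpp
    rcases Finset.mem_insert.mp hqT with rfl | hqP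
    · rw [a2, b2]
    · by_cases h3 : q = p
      · rw [h3, ap, bp]
      · rw [aq q hqP h3, bq q hqP h3]

lemma A_dens (hP : ∀ p ∈ P, p.Prime ∧ 80 < p) (hS : (40 : ℝ) < ∑ p ∈ P, (1 : ℝ) / p) {δ : ℝ}
    (hG : HasDens G δ) : ∃ e, HasDens (A P) e ∧ δ < e := by
  classical
  obtain ⟨d, hd⟩ := exists_dens_B (insert 2 P)
  have hT : ∀ q ∈ insert 2 P, q.Prime := by
    intro q hq
    rcases Finset.mem_insert.mp hq with rfl | h
    · exact Nat.prime_two
    · exact (hP q h).1
  have hdpos := dens_B_pos _ hT (Finset.mem_insert_self _ _) hd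
  have hXs : ∀ x ∈ X P, Smooth (insert 2 P) x := fun x hx =>
    X0_smooth hP (Finset.mem_filter.mp hx).1
  have h1 := hasDens_biUnion (X P) (fun s => dil s (B (insert 2 P))) (fun s => d / s)
    (fun s hs => hd.dil (Nat.pos_of_ne_zero (hXs s hs).1))
    (fun s hs t ht hst => dil_disjoint (hXs s hs) (hXs t ht) hst)
  have hYs : ∀ p ∈ P, Smooth (insert 2 P) (el P 2 p 1) := fun p hp =>
    el_smooth hP 2 (Finset.mem_insert_of_mem hp) 1
  have h2 := hasDens_biUnion P (fun p => dil (el P 2 p 1) (B (insert 2 P)))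
    (fun p => d / (el P 2 p 1 : ℕ))
    (fun s hs => hd.dil (Nat.pos_of_ne_zero (hYs s hs).1))
    (fun s hs t ht hst => by
      rw [Set.disjoint_left]
      intro n a1 a2
      have b1 := (new_val hP hs a1).2.2.1
      have b2 := (new_val hP ht a2).2.2.2.1 s hs hst
      omega)
  have hsub : (⋃ x ∈ X P, dil x (B (insert 2 P))) ⊆ G := by
    intro n hn
    simp only [Set.mem_iUnion] at hn
    obtain ⟨x, hx, hn⟩ := hn
    rw [mem_dil (hXs x hx)] at hn
    refine ⟨Nat.pos_of_ne_zero hn.1, fun q => ?_⟩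
    by_cases hq : q ∈ insert 2 P
    · rw [hn.2.1 q hq]
      exact (Finset.mem_filter.mp hx).2.2 q
    · exact hn.2.2 q hq
  have h3 := (hG.diff h1 hsub).union h2 (by
    rw [Set.disjoint_left]
    intro n a1 a2
    simp only [Set.mem_iUnion] at a2
    obtain ⟨p, hp, a2⟩ := a2
    have b1 := (new_val hP hp a2).2.1
    have := a1.1.2 2
    rw [b1] at this
    exact St_two this)
  refine ⟨_, h3, ?_⟩
  have hg : (0 : ℝ) < (∏ q ∈ P, q : ℕ) := by exact_mod_cast Nat.pos_of_ne_zero (prod_ne hP)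
  have s1 : ∑ x ∈ X P, d / x ≤ d * ((5 + (1 / 8) * ∑ p ∈ P, (1 : ℝ) / p) / (∏ q ∈ P, q : ℕ)) := by
    have : ∑ x ∈ X P, d / x = d * ∑ x ∈ X P, (1 : ℝ) / x := by
      rw [Finset.mul_sum]
      apply Finset.sum_congr rfl
      intro x _
      ring
    rw [this]
    apply mul_le_mul_of_nonneg_left _ hdpos.le
    refine le_trans (Finset.sum_le_sum_of_subset_of_nonneg (Finset.filter_subset _ _)
      (fun x _ _ => by positivity)) (sum_X0 hP)
  have s2 : ∑ p ∈ P, d / (el P 2 p 1 : ℕ) =
      d * (((1 / 4) * ∑ p ∈ P, (1 : ℝ) / p) / (∏ q ∈ P, q : ℕ)) := by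
    rw [Finset.mul_sum, Finset.sum_div, Finset.mul_sum]
    apply Finset.sum_congr rfl
    intro p hp
    have hp0 : (0 : ℝ) < p := by exact_mod_cast (hP p hp).1.pos
    have : ((el P 2 p 1 : ℕ) : ℝ) = 4 * (∏ q ∈ P, q : ℕ) * p := by
      simp only [el]
      push_cast
      ring
    rw [this]
    field_simp
  have s3 : (5 + (1 / 8) * ∑ p ∈ P, (1 : ℝ) / p) / (∏ q ∈ P, q : ℕ) <
      ((1 / 4) * ∑ p ∈ P, (1 : ℝ) / p) / (∏ q ∈ P, q : ℕ) := by
    apply div_lt_div_of_pos_right _ hg
    linarith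
  have s4 := mul_lt_mul_of_pos_left s3 hdpos
  rw [s2]
  linarith

end main

theorem main :
    ¬ (∃ δ : ℝ,
      Filter.Tendsto
        (fun N : ℕ =>
          (({n : ℕ | 1 ≤ n ∧ ∀ p : ℕ, ∀ e ∈ Nat.digits 3 (n.factorization p), e ≤ 1}
              ∩ Set.Icc 1 N).ncard : ℝ) / (N : ℝ))
        Filter.atTop (nhds δ) ∧
      ∀ (A : Set ℕ) (d : ℝ),
        (∀ n ∈ A, 1 ≤ n) →
        (∀ a ∈ A, ∀ b ∈ A, ∀ c ∈ A, a < b → b < c → b ^ 2 ≠ a * c) →
        Filter.Tendsto (fun N : ℕ => ((A ∩ Set.Icc 1 N).ncard : ℝ) / (N : ℝ))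
          Filter.atTop (nhds d) →
        d ≤ δ) := by
  rintro ⟨δ, h1, h2⟩
  obtain ⟨P, hP, hS⟩ := exists_primes
  simp only [ncard_eq] at h1 h2
  obtain ⟨e, he, hlt⟩ := A_dens hP hS (δ := δ) h1
  have := h2 (A P) e ?_ ?_ he
  · linarith
  · intro n hn
    rcases hn with hn | hn
    · exact hn.1.1
    · simp only [Set.mem_iUnion] at hn
      obtain ⟨p, hp, hn⟩ := hn
      exact Nat.pos_of_ne_zero (new_val hP hp hn).1
  · intro a ha b hb c hc hab _ h
    exact hab.ne (A_free hP ha hb hc h)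

end Pool.Agent.H27.GeoProg
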