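import Mathlib

set_option autoImplicit false

namespace Pool.Agent.H27.Glauber

/-- Proper `q`-colourings of `G`. -/
def Col {n : ℕ} (G : SimpleGraph (Fin n)) (q : ℕ) : Type :=
  {σ : Fin n → Fin q // ∀ u w, G.Adj u w → σ u ≠ σ w}

noncomputable instance instFintypeCol {n : ℕ} (G : SimpleGraph (Fin n)) (q : ℕ) :
    Fintype (Col G q) :=
  @Fintype.ofFinite _ (by unfold Col; infer_instance)

noncomputable instance instDecEqCol {n : ℕ} (G : SimpleGraph (Fin n)) (q : ℕ) :
    DecidableEq (Col G q) :=
  Classical.decEq _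

open Classical in
/-- One Glauber move: recolour `v` with `c` if the result is proper, otherwise stay. -/
noncomputable def step {n : ℕ} {G : SimpleGraph (Fin n)} {q : ℕ} (σ : Col G q) (v : Fin n)
    (c : Fin q) : Col G q :=
  if h : ∀ u w, G.Adj u w → Function.update σ.1 v c u ≠ Function.update σ.1 v c w then
    ⟨Function.update σ.1 v c, h⟩
  else σ

/-- Transition matrix of Glauber dynamics: `(v, c)` is uniform among the `n * q` pairs. -/
noncomputable def trans {n : ℕ} (G : SimpleGraph (Fin n)) (q : ℕ) :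
    Matrix (Col G q) (Col G q) ℝ :=
  Matrix.of fun σ τ =>
    ((Finset.univ.filter (fun p : Fin n × Fin q => step σ p.1 p.2 = τ)).card : ℝ) / (n * q : ℝ)

/-- Total variation distance to the uniform law after `t` steps from `σ`. -/
noncomputable def tvDist {n : ℕ} (G : SimpleGraph (Fin n)) (q t : ℕ) (σ : Col G q) : ℝ :=
  (1 / 2) * ∑ τ : Col G q, |(trans G q ^ t) σ τ - 1 / (Fintype.card (Col G q) : ℝ)|

/-- The mixing time: the least `t` with all total variation distances at most `1 / e`. -/
noncomputable def mixTime {n : ℕ} (G : SimpleGraph (Fin n)) (q : ℕ) : ℕ∞ :=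
  ⨅ t ∈ {t : ℕ | ∀ σ : Col G q, tvDist G q t σ ≤ Real.exp (-1)}, (t : ℕ∞)

end Pool.Agent.H27.Glauber
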