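import Mathlib
import Pool.Agent.H27.GlauberDef

set_option autoImplicit false

namespace Pool.Agent.H27.Glauber

open Finset

variable {n : ℕ} {G : SimpleGraph (Fin n)} {q : ℕ}

/-- number of move sequences of length `t` from `σ` to `τ` -/
noncomputable def cnt : ℕ → Col G q → Col G q → ℕ
  | 0, σ, τ => if σ = τ then 1 else 0
  | t + 1, σ, τ => ∑ p : Fin n × Fin q, cnt t (step σ p.1 p.2) τ

lemma pow_eq (t : ℕ) (σ τ : Col G q) :
    (trans G q ^ t) σ τ = (cnt t σ τ : ℝ) / (n * q : ℝ) ^ t := by
  induction t generalizing σ with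
  | zero => simp [cnt, Matrix.one_apply]
  | succ t ih =>
    rw [pow_succ', Matrix.mul_apply]
    simp only [ih]
    simp only [cnt, trans, Matrix.of_apply]
    rw [← Finset.sum_fiberwise (s := Finset.univ) (g := fun p : Fin n × Fin q => step σ p.1 p.2)]
    push_cast
    rw [Finset.sum_div]
    apply Finset.sum_congr rfl
    intro ρ _
    rw [Finset.sum_congr rfl (g := fun _ => (cnt t ρ τ : ℝ))
      (fun p hp => by rw [(Finset.mem_filter.mp hp).2])]
    rw [Finset.sum_const, nsmul_eq_mul, pow_succ', div_mul_div_comm]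

lemma sum_cnt (t : ℕ) (σ : Col G q) : ∑ τ, cnt t σ τ = (n * q) ^ t := by
  induction t generalizing σ with
  | zero => simp [cnt]
  | succ t ih =>
    simp only [cnt]
    rw [Finset.sum_comm]
    simp [ih, pow_succ']

lemma step_of_ne (σ : Col G q) (v : Fin n) (c : Fin q) {u : Fin n} (h : u ≠ v) :
    (step σ v c).1 u = σ.1 u := by
  unfold step
  split_ifs
  · simp [Function.update_of_ne h]
  · rfl

lemma step_back {σ τ : Col G q} {v : Fin n} {c : Fin q} (hne : σ ≠ τ) (h : step σ v c = τ) :
    step τ v (σ.1 v) = σ ∧ τ.1 v = c := by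
  have h1 : τ.1 = Function.update σ.1 v c := by
    unfold step at h
    split_ifs at h
    · rw [← h]
    · exact absurd h hne
  have h2 : Function.update τ.1 v (σ.1 v) = σ.1 := by
    rw [h1]; simp
  refine ⟨?_, by rw [h1]; simp⟩
  unfold step
  rw [dif_pos (by rw [h2]; exact σ.2)]
  exact Subtype.ext h2

lemma trans_symm : (trans G q).transpose = trans G q := by
  ext σ τ
  simp only [Matrix.transpose_apply, trans, Matrix.of_apply]
  by_cases hne : σ = τ
  · rw [hne]
  congr 2
  apply Finset.card_bij' (fun p _ => (p.1, τ.1 p.1)) (fun p _ => (p.1, σ.1 p.1))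
  · intro p hp
    simp only [Finset.mem_filter, Finset.mem_univ, true_and] at hp ⊢
    exact (step_back (Ne.symm hne) hp).1
  · intro p hp
    simp only [Finset.mem_filter, Finset.mem_univ, true_and] at hp ⊢
    exact (step_back hne hp).1
  · intro p hp
    simp only [Finset.mem_filter, Finset.mem_univ, true_and] at hp ⊢
    rw [(step_back (Ne.symm hne) hp).2]
  · intro p hp
    simp only [Finset.mem_filter, Finset.mem_univ, true_and] at hp ⊢
    rw [(step_back hne hp).2]

lemma pow_symm (t : ℕ) (σ τ : Col G q) : (trans G q ^ t) σ τ = (trans G q ^ t) τ σ := by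
  conv_lhs => rw [← trans_symm, ← Matrix.transpose_pow, Matrix.transpose_apply]

/-- action of colour permutations -/
def act (π : Equiv.Perm (Fin q)) : Col G q ≃ Col G q where
  toFun σ := ⟨π ∘ σ.1, fun u w h e => σ.2 u w h (π.injective e)⟩
  invFun σ := ⟨π.symm ∘ σ.1, fun u w h e => σ.2 u w h (π.symm.injective e)⟩
  left_inv σ := Subtype.ext (by funext u; simp)
  right_inv σ := Subtype.ext (by funext u; simp)

lemma act_step (π : Equiv.Perm (Fin q)) (σ : Col G q) (v : Fin n) (c : Fin q) :
    step (act π σ) v (π c) = act π (step σ v c) := by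
  have e : Function.update (act π σ).1 v (π c) = π ∘ Function.update σ.1 v c := by
    rw [Function.comp_update]
    rfl
  unfold step
  by_cases h : ∀ u w, G.Adj u w → Function.update σ.1 v c u ≠ Function.update σ.1 v c w
  · rw [dif_pos h, dif_pos (by rw [e]; exact fun u w h1 h2 => h u w h1 (π.injective h2))]
    exact Subtype.ext e
  · rw [dif_neg h, dif_neg]
    rw [e]
    intro h2
    exact h (fun u w h1 h3 => h2 u w h1 (congrArg π h3))

lemma cnt_act (π : Equiv.Perm (Fin q)) (t : ℕ) (σ τ : Col G q) :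
    cnt t (act π σ) (act π τ) = cnt t σ τ := by
  induction t generalizing σ with
  | zero => simp [cnt]
  | succ t ih =>
    simp only [cnt]
    symm
    apply Fintype.sum_equiv (Equiv.prodCongr (Equiv.refl _) π)
    rintro ⟨v, c⟩
    simp only [Equiv.prodCongr_apply, Equiv.coe_refl, Prod.map_apply, id_eq]
    rw [act_step, ih]

lemma tv_act (π : Equiv.Perm (Fin q)) (t : ℕ) (σ : Col G q) :
    tvDist G q t (act π σ) = tvDist G q t σ := by
  unfold tvDist
  congr 1
  symm
  apply Fintype.sum_equiv (act π)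
  intro τ
  rw [pow_eq, pow_eq, cnt_act]

lemma exists_act {σ σ' : Col G q} (h : ∀ i j, σ.1 i = σ.1 j ↔ σ'.1 i = σ'.1 j) :
    ∃ π : Equiv.Perm (Fin q), act π σ = σ' := by
  obtain ⟨π, hπ⟩ := Equiv.Perm.exists_extending_pair
    (fun a : Set.range σ.1 => a.1) (fun a => σ'.1 a.2.choose) Subtype.val_injective (by
      intro a b hab
      apply Subtype.ext
      rw [← a.2.choose_spec, ← b.2.choose_spec]
      exact (h _ _).mpr hab)
  refine ⟨π, Subtype.ext (funext fun i => ?_)⟩
  have := hπ ⟨σ.1 i, i, rfl⟩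
  simp only at this
  change π (σ.1 i) = _
  rw [this]
  exact (h _ _).mp (Exists.choose_spec (⟨i, rfl⟩ : σ.1 i ∈ Set.range σ.1))

/-- number of vertex sequences of length `t` missing one of `k` marked vertices among 4 -/
def uu : ℕ → ℕ → ℕ
  | 0, k => if k = 0 then 0 else 1
  | t + 1, k => k * uu t (k - 1) + (4 - k) * uu t k

lemma lower_cnt {G : SimpleGraph (Fin 4)} (σ0 : Col G q) (t : ℕ) :
    ∀ (S : Finset (Fin 4)) (σ : Col G q), (∀ v ∈ S, σ.1 v = σ0.1 v) →
      q ^ t * uu t S.card ≤
        ∑ τ ∈ Finset.univ.filter (fun τ : Col G q => ∃ v, τ.1 v = σ0.1 v), cnt t σ τ := by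
  induction t with
  | zero =>
    intro S σ h
    simp only [cnt, uu, pow_zero, one_mul, Finset.sum_ite_eq, Finset.mem_filter, Finset.mem_univ,
      true_and]
    by_cases h0 : S.card = 0
    · simp [h0]
    · obtain ⟨v, hv⟩ := Finset.card_pos.mp (Nat.pos_of_ne_zero h0)
      rw [if_neg h0, if_pos ⟨v, h v hv⟩]
  | succ t ih =>
    intro S σ h
    simp only [cnt]
    rw [Finset.sum_comm]
    have h1 : ∀ p : Fin 4 × Fin q, q ^ t * uu t (S.erase p.1).card ≤
        ∑ τ ∈ Finset.univ.filter (fun τ : Col G q => ∃ v, τ.1 v = σ0.1 v),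
          cnt t (step σ p.1 p.2) τ := by
      intro p
      apply ih
      intro v hv
      rw [step_of_ne _ _ _ (Finset.ne_of_mem_erase hv)]
      exact h v (Finset.mem_of_mem_erase hv)
    refine le_trans (le_of_eq ?_) (Finset.sum_le_sum (fun p _ => h1 p))
    rw [Fintype.sum_prod_type]
    simp only [Finset.sum_const, Finset.card_univ, Fintype.card_fin, smul_eq_mul]
    rw [← Finset.mul_sum, ← Finset.mul_sum, ← mul_assoc, ← pow_succ']
    congr 1
    rw [← Finset.sum_add_sum_compl S]
    simp only [uu]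
    congr 1
    · rw [Finset.sum_congr rfl (g := fun _ => uu t (S.card - 1))
        (fun v hv => by rw [Finset.card_erase_of_mem hv])]
      simp
    · rw [Finset.sum_congr rfl (g := fun _ => uu t S.card)
        (fun v hv => by rw [Finset.erase_eq_of_notMem (Finset.mem_compl.mp hv)])]
      simp [Finset.card_compl]

lemma card_fix (v : Fin n) (a : Fin q) :
    q * (Finset.univ.filter (fun τ : Col G q => τ.1 v = a)).card = Fintype.card (Col G q) := by
  have h : ∀ b : Fin q, (Finset.univ.filter (fun τ : Col G q => τ.1 v = b)).card =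
      (Finset.univ.filter (fun τ : Col G q => τ.1 v = a)).card := by
    intro b
    apply Finset.card_bijective (act (Equiv.swap a b)) (act _).bijective
    intro τ
    simp only [Finset.mem_filter, Finset.mem_univ, true_and]
    change _ ↔ Equiv.swap a b (τ.1 v) = a
    rw [Equiv.apply_eq_iff_eq_symm_apply]
    simp
  have h2 := Finset.card_eq_sum_card_fiberwise (f := fun τ : Col G q => τ.1 v)
    (s := Finset.univ) (t := Finset.univ) (fun _ _ => Finset.mem_univ _)
  rw [← Finset.card_univ, h2]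
  simp [h]

lemma tv_lower {G : SimpleGraph (Fin 4)} (hq : 0 < q) (σ0 : Col G q) (t : ℕ) :
    (uu t 4 : ℝ) / 4 ^ t - 4 / q ≤ tvDist G q t σ0 := by
  set A := Finset.univ.filter (fun τ : Col G q => ∃ v, τ.1 v = σ0.1 v) with hA
  set N : ℝ := (Fintype.card (Col G q) : ℝ) with hN
  have hNpos : 0 < N := by
    rw [hN]; exact_mod_cast Fintype.card_pos_iff.mpr ⟨σ0⟩
  have hq' : (0 : ℝ) < q := by exact_mod_cast hq
  set d : Col G q → ℝ := fun τ => (trans G q ^ t) σ0 τ - 1 / N with hd
  have hsum : ∑ τ, d τ = 0 := by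
    simp only [hd, Finset.sum_sub_distrib, pow_eq]
    rw [← Finset.sum_div, ← Nat.cast_sum, sum_cnt]
    simp only [Finset.sum_const, Finset.card_univ, nsmul_eq_mul]
    rw [← hN]
    push_cast
    field_simp
    ring
  have h1 : ∑ τ ∈ A, d τ ≤ tvDist G q t σ0 := by
    unfold tvDist
    change _ ≤ 1 / 2 * ∑ τ, |d τ|
    rw [← Finset.sum_add_sum_compl A] at hsum ⊢
    have a1 : ∑ τ ∈ A, d τ ≤ ∑ τ ∈ A, |d τ| := Finset.sum_le_sum (fun τ _ => le_abs_self _)
    have a2 : ∑ τ ∈ Aᶜ, -d τ ≤ ∑ τ ∈ Aᶜ, |d τ| := Finset.sum_le_sum (fun τ _ => neg_le_abs _)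
    rw [Finset.sum_neg_distrib] at a2
    linarith
  refine le_trans ?_ h1
  simp only [hd, Finset.sum_sub_distrib, pow_eq]
  rw [← Finset.sum_div, ← Nat.cast_sum]
  have h2 := lower_cnt σ0 t Finset.univ σ0 (fun _ _ => rfl)
  rw [← hA, Finset.card_univ, Fintype.card_fin] at h2
  have h2' : (q : ℝ) ^ t * uu t 4 ≤ ((∑ τ ∈ A, cnt t σ0 τ : ℕ) : ℝ) := by exact_mod_cast h2
  have h3 : q * A.card ≤ 4 * Fintype.card (Col G q) := by
    have : A ⊆ Finset.univ.biUnion
        (fun v => Finset.univ.filter (fun τ : Col G q => τ.1 v = σ0.1 v)) := by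
      intro τ hτ
      simpa [hA] using hτ
    refine le_trans (Nat.mul_le_mul_left q (le_trans (Finset.card_le_card this)
      Finset.card_biUnion_le)) (le_of_eq ?_)
    rw [Finset.mul_sum]
    simp [card_fix]
  have h3' : (q : ℝ) * A.card ≤ 4 * N := by rw [hN]; exact_mod_cast h3
  apply sub_le_sub
  · rw [div_le_div_iff₀ (by positivity) (by positivity)]
    push_cast at h2' ⊢
    rw [mul_pow]
    have : (0 : ℝ) < 4 ^ t := by positivity
    nlinarith
  · simp only [Finset.sum_const, nsmul_eq_mul]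
    rw [mul_one_div, div_le_div_iff₀ hNpos hq']
    linarith

lemma not_mixed {G : SimpleGraph (Fin 4)} (σ0 : Col G 1000) : (8 : ℕ∞) < mixTime G 1000 := by
  have : (9 : ℕ∞) ≤ mixTime G 1000 := by
    unfold mixTime
    refine le_iInf₂ (fun t ht => ?_)
    by_contra hlt
    have ht8 : t ≤ 8 := by
      have : (t : ℕ∞) < (9 : ℕ) := not_le.mp hlt
      have := ENat.coe_lt_coe.mp this
      omega
    have h1 := le_trans (tv_lower (by norm_num) σ0 t) (ht σ0)
    have h2 := Real.exp_neg_one_lt_d9
    interval_cases t <;> simp only [uu] at h1 <;> norm_num at h1 h2 <;> linarith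
  exact lt_of_lt_of_le (by norm_num) this

end Pool.Agent.H27.Glauber
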