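import Mathlib
import Pool.Agent.H13.K
import Pool.Agent.H27.GlauberA

set_option autoImplicit false
set_option maxRecDepth 1000000

namespace Pool.Agent.H27.Glauber

open Finset Pool.Agent.H13

noncomputable def sumBelow (n : ℕ) (f : ℕ → ℕ) : ℕ :=
  Nat.rec (motive := fun _ => ℕ) 0 (fun i acc => Nat.add acc (f i)) n

lemma sumBelow_eq (n : ℕ) (f : ℕ → ℕ) : sumBelow n f = ∑ i ∈ Finset.range n, f i := by
  induction n with
  | zero => rfl
  | succ n ih => rw [Finset.sum_range_succ, ← ih]; rfl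

noncomputable def val (T x : ℕ) : ℕ := Nat.mod (Nat.shiftRight T (Nat.mul 40 x)) 1099511627776

noncomputable def pack (f : ℕ → ℕ) (N : ℕ) : ℕ :=
  Nat.rec (motive := fun _ => ℕ) 0
    (fun k acc => Nat.add acc (Nat.shiftLeft (Nat.mod (f k) 1099511627776) (Nat.mul 40 k))) N

lemma val_eq (T x : ℕ) : val T x = T / 2 ^ (40 * x) % 2 ^ 40 := by
  unfold val
  change T >>> (40 * x) % 1099511627776 = _
  rw [Nat.shiftRight_eq_div_pow]
  norm_num

lemma pack_succ (f : ℕ → ℕ) (N : ℕ) :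
    pack f (N + 1) = pack f N + f N % 2 ^ 40 * 2 ^ (40 * N) := by
  change pack f N + (f N % 1099511627776) <<< (40 * N) = _
  rw [Nat.shiftLeft_eq]
  norm_num

lemma pack_lt (f : ℕ → ℕ) (N : ℕ) : pack f N < 2 ^ (40 * N) := by
  induction N with
  | zero => simp [pack]
  | succ N ih =>
    rw [pack_succ, mul_add, pow_add, mul_one]
    have : f N % 2 ^ 40 < 2 ^ 40 := Nat.mod_lt _ (by positivity)
    nlinarith

lemma val_pack (f : ℕ → ℕ) (N x : ℕ) (h : x < N) : val (pack f N) x = f x % 2 ^ 40 := by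
  rw [val_eq]
  induction N with
  | zero => omega
  | succ N ih =>
    rw [pack_succ]
    rcases Nat.lt_succ_iff_lt_or_eq.mp h with h1 | rfl
    · obtain ⟨k, rfl⟩ := Nat.exists_eq_add_of_lt h1
      have : 2 ^ (40 * (x + k + 1)) = 2 ^ 40 * 2 ^ (40 * k) * 2 ^ (40 * x) := by
        rw [← pow_add, ← pow_add]; congr 1; ring
      rw [this, ← mul_assoc, Nat.add_mul_div_right _ _ (by positivity), mul_left_comm,
        Nat.add_mul_mod_self_left, ih h1]
    · rw [Nat.add_mul_div_right _ _ (by positivity), Nat.div_eq_of_lt (pack_lt f x), zero_add,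
        Nat.mod_mod]

noncomputable def W (T x : ℕ) : ℕ :=
  force (Nat.mod x 7) fun a => force (Nat.mod (Nat.div x 7) 7) fun b =>
  force (Nat.mod (Nat.div x 49) 7) fun c => force (Nat.div x 343) fun d =>
  force (val T x) fun s =>
  force (Nat.add (Nat.mul 7 b) (Nat.add (Nat.mul 49 c) (Nat.mul 343 d))) fun r0 =>
  force (Nat.add a (Nat.add (Nat.mul 49 c) (Nat.mul 343 d))) fun r1 =>
  force (Nat.add a (Nat.add (Nat.mul 7 b) (Nat.mul 343 d))) fun r2 =>
  force (Nat.add a (Nat.add (Nat.mul 7 b) (Nat.mul 49 c))) fun r3 =>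
  sumBelow 7 fun e =>
    Nat.add (Nat.add (iff' (Nat.beq e b) s (val T (Nat.add e r0)))
      (iff' (orr (Nat.beq e a) (Nat.beq e c)) s (val T (Nat.add (Nat.mul 7 e) r1))))
    (Nat.add (iff' (orr (Nat.beq e b) (Nat.beq e d)) s (val T (Nat.add (Nat.mul 49 e) r2)))
      (iff' (Nat.beq e c) s (val T (Nat.add (Nat.mul 343 e) r3))))

noncomputable def tab (x0 t : ℕ) : ℕ :=
  Nat.rec (motive := fun _ => ℕ) (pack (fun x => iff' (Nat.beq x x0) 1 0) 2401)
    (fun _ T => force T fun T' => pack (W T') 2401) t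

noncomputable def prop (x : ℕ) : Bool :=
  force (Nat.mod (Nat.div x 7) 7) fun b => force (Nat.mod (Nat.div x 49) 7) fun c =>
  iff' (orr (Nat.beq (Nat.mod x 7) b) (orr (Nat.beq b c) (Nat.beq c (Nat.div x 343)))) false true

noncomputable def dev (x0 : ℕ) : ℕ :=
  force (tab x0 8) fun T => sumBelow 2401 fun x =>
    iff' (prop x) (force (Nat.mul (val T x) 1512) fun y =>
      Nat.add (Nat.sub y 377801998336) (Nat.sub 377801998336 y)) 0

noncomputable def chk (x0 : ℕ) : Bool :=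
  Nat.ble (Nat.mul (dev x0) 10000) (Nat.mul 7356 (Nat.mul 1512 377801998336))

lemma chk1 : chk (0 + 7 * 1 + 49 * 0 + 343 * 1) = true := by decide +kernel
lemma chk2 : chk (0 + 7 * 1 + 49 * 0 + 343 * 2) = true := by decide +kernel
lemma chk3 : chk (0 + 7 * 1 + 49 * 2 + 343 * 0) = true := by decide +kernel
lemma chk4 : chk (0 + 7 * 1 + 49 * 2 + 343 * 1) = true := by decide +kernel
lemma chk5 : chk (0 + 7 * 1 + 49 * 2 + 343 * 3) = true := by decide +kernel

lemma cardN : sumBelow 2401 (fun x => iff' (prop x) 1 0) = 1512 := by decide +kernel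

end Pool.Agent.H27.Glauber
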