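import Mathlib
import Pool.Agent.H27.GlauberB

set_option autoImplicit false

namespace Pool.Agent.H27.Glauber

open Finset Pool.Agent.H13 SimpleGraph

lemma proper_iff {q : ℕ} (σ : Fin 4 → Fin q) :
    (∀ u w, (pathGraph 4).Adj u w → σ u ≠ σ w) ↔ σ 0 ≠ σ 1 ∧ σ 1 ≠ σ 2 ∧ σ 2 ≠ σ 3 := by
  constructor
  · intro h
    exact ⟨h 0 1 (pathGraph_adj.mpr (by decide)), h 1 2 (pathGraph_adj.mpr (by decide)),
      h 2 3 (pathGraph_adj.mpr (by decide))⟩
  · rintro ⟨h1, h2, h3⟩ u w h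
    rw [pathGraph_adj] at h
    fin_cases u <;> fin_cases w <;> simp at h <;> first | assumption | (apply Ne.symm; assumption)

def enc (σ : Col (pathGraph 4) 7) : ℕ := σ.1 0 + 7 * σ.1 1 + 49 * σ.1 2 + 343 * σ.1 3

lemma enc_lt (σ : Col (pathGraph 4) 7) : enc σ < 2401 := by
  unfold enc
  have := (σ.1 0).2; have := (σ.1 1).2; have := (σ.1 2).2; have := (σ.1 3).2
  omega

lemma enc_dig (σ : Col (pathGraph 4) 7) : enc σ % 7 = σ.1 0 ∧ enc σ / 7 % 7 = σ.1 1 ∧
    enc σ / 49 % 7 = σ.1 2 ∧ enc σ / 343 = σ.1 3 := by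
  unfold enc
  have := (σ.1 0).2; have := (σ.1 1).2; have := (σ.1 2).2; have := (σ.1 3).2
  omega

lemma enc_inj {σ τ : Col (pathGraph 4) 7} (h : enc σ = enc τ) : σ = τ := by
  obtain ⟨a1, a2, a3, a4⟩ := enc_dig σ
  obtain ⟨b1, b2, b3, b4⟩ := enc_dig τ
  rw [h] at a1 a2 a3 a4
  apply Subtype.ext
  funext i
  apply Fin.ext
  fin_cases i
  · exact a1.symm.trans b1
  · exact a2.symm.trans b2
  · exact a3.symm.trans b3
  · exact a4.symm.trans b4

lemma prop_iff (x : ℕ) : prop x = true ↔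
    x % 7 ≠ x / 7 % 7 ∧ x / 7 % 7 ≠ x / 49 % 7 ∧ x / 49 % 7 ≠ x / 343 := by
  unfold prop
  simp only [force_eq, iff'_eq, orr_eq]
  change (if (Nat.beq (x % 7) (x / 7 % 7) || (Nat.beq (x / 7 % 7) (x / 49 % 7) ||
    Nat.beq (x / 49 % 7) (x / 343))) = true then false else true) = true ↔ _
  simp [Nat.beq_eq]

lemma sum_enc (F : ℕ → ℕ) : ∑ τ : Col (pathGraph 4) 7, F (enc τ) =
    sumBelow 2401 (fun x => iff' (prop x) (F x) 0) := by
  rw [sumBelow_eq]
  simp only [iff'_eq]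
  rw [← Finset.sum_filter]
  apply Finset.sum_bij (fun τ _ => enc τ)
  · intro τ _
    simp only [Finset.mem_filter, Finset.mem_range, prop_iff]
    obtain ⟨a1, a2, a3, a4⟩ := enc_dig τ
    obtain ⟨b1, b2, b3⟩ := (proper_iff τ.1).mp τ.2
    rw [a1, a2, a3, a4]
    exact ⟨enc_lt τ, fun h => b1 (Fin.ext h), fun h => b2 (Fin.ext h), fun h => b3 (Fin.ext h)⟩
  · intro a _ b _ h
    exact enc_inj h
  · intro x hx
    simp only [Finset.mem_filter, Finset.mem_range, prop_iff] at hx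
    obtain ⟨h0, h1, h2, h3⟩ := hx
    refine ⟨⟨![⟨x % 7, by omega⟩, ⟨x / 7 % 7, by omega⟩, ⟨x / 49 % 7, by omega⟩,
      ⟨x / 343, by omega⟩], (proper_iff _).mpr ?_⟩, Finset.mem_univ _, ?_⟩
    · simp [Fin.ext_iff, h1, h2, h3]
    · simp only [enc, Matrix.cons_val_zero, Matrix.cons_val_one, Matrix.cons_val]
      omega
  · intro a _
    rfl

lemma card_col : Fintype.card (Col (pathGraph 4) 7) = 1512 := by
  rw [← cardN, ← sum_enc (fun _ => 1)]
  simp

lemma enc_step0 (σ : Col (pathGraph 4) 7) (e : Fin 7) : enc (step σ 0 e) =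
    if (e : ℕ) = σ.1 1 then enc σ else e + (7 * σ.1 1 + (49 * σ.1 2 + 343 * σ.1 3)) := by
  obtain ⟨b1, b2, b3⟩ := (proper_iff σ.1).mp σ.2
  unfold step
  by_cases h : e = σ.1 1
  · rw [dif_neg (by rw [proper_iff]; simp [h]), if_pos (by rw [h])]
  · rw [dif_pos (by rw [proper_iff]; simp [h, b2, b3]), if_neg (fun h' => h (Fin.ext h'))]
    simp [enc]; ring

lemma enc_step1 (σ : Col (pathGraph 4) 7) (e : Fin 7) : enc (step σ 1 e) =
    if (e : ℕ) = σ.1 0 ∨ (e : ℕ) = σ.1 2 then enc σ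
    else 7 * e + (σ.1 0 + (49 * σ.1 2 + 343 * σ.1 3)) := by
  obtain ⟨b1, b2, b3⟩ := (proper_iff σ.1).mp σ.2
  unfold step
  by_cases h : e = σ.1 0 ∨ e = σ.1 2
  · rw [dif_neg (by rw [proper_iff]; rcases h with h | h <;> simp [h]),
      if_pos (by rcases h with h | h <;> simp [h])]
  · rw [if_neg (by simpa [Fin.ext_iff] using h)]
    push Not at h
    rw [dif_pos (by rw [proper_iff]; simp [h.1.symm, h.2, b3])]
    simp [enc]; ring

lemma enc_step2 (σ : Col (pathGraph 4) 7) (e : Fin 7) : enc (step σ 2 e) =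
    if (e : ℕ) = σ.1 1 ∨ (e : ℕ) = σ.1 3 then enc σ
    else 49 * e + (σ.1 0 + (7 * σ.1 1 + 343 * σ.1 3)) := by
  obtain ⟨b1, b2, b3⟩ := (proper_iff σ.1).mp σ.2
  unfold step
  by_cases h : e = σ.1 1 ∨ e = σ.1 3
  · rw [dif_neg (by rw [proper_iff]; rcases h with h | h <;> simp [h]),
      if_pos (by rcases h with h | h <;> simp [h])]
  · rw [if_neg (by simpa [Fin.ext_iff] using h)]
    push Not at h
    rw [dif_pos (by rw [proper_iff]; simp [h.1.symm, h.2, b1])]
    simp [enc]; ring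

lemma enc_step3 (σ : Col (pathGraph 4) 7) (e : Fin 7) : enc (step σ 3 e) =
    if (e : ℕ) = σ.1 2 then enc σ else 343 * e + (σ.1 0 + (7 * σ.1 1 + 49 * σ.1 2)) := by
  obtain ⟨b1, b2, b3⟩ := (proper_iff σ.1).mp σ.2
  unfold step
  by_cases h : e = σ.1 2
  · rw [dif_neg (by rw [proper_iff]; simp [h]), if_pos (by rw [h])]
  · rw [dif_pos (by rw [proper_iff]; simp [Ne.symm h, b1, b2]), if_neg (fun h' => h (Fin.ext h'))]
    simp [enc]; ring

lemma W_eq (T : ℕ) (σ : Col (pathGraph 4) 7) :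
    W T (enc σ) = ∑ p : Fin 4 × Fin 7, val T (enc (step σ p.1 p.2)) := by
  obtain ⟨a1, a2, a3, a4⟩ := enc_dig σ
  rw [Fintype.sum_prod_type_right]
  unfold W
  have em : ∀ a b : ℕ, Nat.mod a b = a % b := fun _ _ => rfl
  have ed : ∀ a b : ℕ, Nat.div a b = a / b := fun _ _ => rfl
  simp only [force_eq, iff'_eq, orr_eq, sumBelow_eq, Nat.add_eq, Nat.mul_eq, em, ed,
    Bool.or_eq_true, Nat.beq_eq]
  rw [a1, a2, a3, a4, Finset.sum_range]
  apply Finset.sum_congr rfl
  intro e _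
  rw [Fin.sum_univ_four, enc_step0, enc_step1, enc_step2, enc_step3]
  simp only [apply_ite (val T)]
  ring

lemma cnt_le (t : ℕ) (σ τ : Col (pathGraph 4) 7) : cnt t σ τ ≤ 28 ^ t := by
  have := sum_cnt t σ
  rw [show 4 * 7 = 28 from rfl] at this
  rw [← this]
  exact Finset.single_le_sum (f := fun τ => cnt t σ τ) (fun _ _ => Nat.zero_le _)
    (Finset.mem_univ τ)

lemma gen0 (z : ℕ) (g : ℕ → ℕ) :
    Nat.rec (motive := fun _ => ℕ) z (fun _ T => force T g) 0 = z := rfl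

lemma gen1 (z : ℕ) (g : ℕ → ℕ) (t : ℕ) :
    Nat.rec (motive := fun _ => ℕ) z (fun _ T => force T g) (t + 1) =
      g (Nat.rec (motive := fun _ => ℕ) z (fun _ T => force T g) t) := force_eq _ _

lemma tab_zero (x0 : ℕ) : tab x0 0 = pack (fun x => iff' (Nat.beq x x0) 1 0) 2401 := by
  unfold tab
  exact gen0 _ (fun T' => pack (W T') 2401)

lemma tab_succ (x0 t : ℕ) : tab x0 (t + 1) = pack (W (tab x0 t)) 2401 := by
  unfold tab
  exact gen1 _ (fun T' => pack (W T') 2401) t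

lemma val_tab (τ : Col (pathGraph 4) 7) (t : ℕ) (ht : t ≤ 8) :
    ∀ σ, val (tab (enc τ) t) (enc σ) = cnt t σ τ := by
  induction t with
  | zero =>
    intro σ
    rw [tab_zero, val_pack _ _ _ (enc_lt σ)]
    simp only [iff'_eq, Nat.beq_eq, cnt]
    by_cases h : σ = τ
    · simp [h]
    · rw [if_neg h, if_neg (fun h' => h (enc_inj h')), Nat.zero_mod]
  | succ t ih =>
    intro σ
    rw [tab_succ, val_pack _ _ _ (enc_lt σ), W_eq]
    simp only [ih (by omega)]
    change cnt (t + 1) σ τ % _ = _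
    apply Nat.mod_eq_of_lt
    refine lt_of_le_of_lt (cnt_le _ _ _) (lt_of_le_of_lt
      (Nat.pow_le_pow_right (by norm_num) ht) (by norm_num))

lemma abs_cast (a b : ℕ) : (((a - b) + (b - a) : ℕ) : ℝ) = |(a : ℝ) - b| := by
  rcases le_total a b with h | h
  · rw [Nat.sub_eq_zero_of_le h, zero_add, Nat.cast_sub h, abs_of_nonpos]
    · ring
    · have : (a : ℝ) ≤ b := by exact_mod_cast h
      linarith
  · rw [Nat.sub_eq_zero_of_le h, add_zero, Nat.cast_sub h, abs_of_nonneg]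
    have : (b : ℝ) ≤ a := by exact_mod_cast h
    linarith

lemma tv_of_chk (σ : Col (pathGraph 4) 7) (h : chk (enc σ) = true) :
    tvDist (pathGraph 4) 7 8 σ ≤ Real.exp (-1) := by
  unfold chk at h
  rw [Nat.ble_eq] at h
  have hd : dev (enc σ) = ∑ τ : Col (pathGraph 4) 7,
      ((cnt 8 τ σ * 1512 - 377801998336) + (377801998336 - cnt 8 τ σ * 1512)) := by
    unfold dev
    rw [force_eq, ← sum_enc]
    apply Finset.sum_congr rfl
    intro τ _
    rw [force_eq, val_tab σ 8 le_rfl]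
    rfl
  have h1 : ((dev (enc σ) : ℕ) : ℝ) * 10000 ≤ 7356 * (1512 * 377801998336) := by
    have : dev (enc σ) * 10000 ≤ 7356 * (1512 * 377801998336) := h
    exact_mod_cast this
  have h2 : tvDist (pathGraph 4) 7 8 σ = (1 / 2) * (dev (enc σ) / (1512 * 377801998336)) := by
    unfold tvDist
    rw [hd, Nat.cast_sum, Finset.sum_div, card_col]
    refine congrArg _ ?_
    apply Finset.sum_congr rfl
    intro τ _
    rw [pow_symm, pow_eq]
    generalize cnt 8 τ σ = m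
    have e : ((m : ℝ) / ((4 : ℕ) * (7 : ℕ) : ℝ) ^ 8 - 1 / (1512 : ℕ)) =
        ((m : ℝ) * 1512 - 377801998336) / (1512 * 377801998336) := by
      push_cast
      ring
    rw [e, abs_div, abs_of_pos (a := (1512 * 377801998336 : ℝ)) (by norm_num)]
    rw [abs_cast]
    push_cast
    ring
  rw [h2]
  have := Real.exp_neg_one_gt_d9
  linarith

lemma mixed7 : mixTime (pathGraph 4) 7 ≤ 8 := by
  unfold mixTime
  refine iInf₂_le_of_le 8 ?_ (by norm_num)
  intro σ
  obtain ⟨b1, b2, b3⟩ := (proper_iff σ.1).mp σ.2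
  have key : ∀ τ : Col (pathGraph 4) 7, chk (enc τ) = true →
      (∀ i j, τ.1 i = τ.1 j ↔ σ.1 i = σ.1 j) → tvDist (pathGraph 4) 7 8 σ ≤ Real.exp (-1) := by
    intro τ h1 h2
    obtain ⟨π, rfl⟩ := exists_act h2
    rw [tv_act]
    exact tv_of_chk τ h1
  have b1' := b1.symm
  have b2' := b2.symm
  have b3' := b3.symm
  by_cases c1 : σ.1 2 = σ.1 0
  · by_cases c2 : σ.1 3 = σ.1 1
    · refine key ⟨![0, 1, 0, 1], (proper_iff _).mpr (by decide)⟩ chk1 ?_
      intro i j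
      fin_cases i <;> fin_cases j <;> simp_all
    · have c2' := Ne.symm c2
      refine key ⟨![0, 1, 0, 2], (proper_iff _).mpr (by decide)⟩ chk2 ?_
      intro i j
      fin_cases i <;> fin_cases j <;> simp_all
  · have c1' := Ne.symm c1
    by_cases c2 : σ.1 3 = σ.1 0
    · refine key ⟨![0, 1, 2, 0], (proper_iff _).mpr (by decide)⟩ chk3 ?_
      intro i j
      fin_cases i <;> fin_cases j <;> simp_all
    · have c2' := Ne.symm c2
      by_cases c3 : σ.1 3 = σ.1 1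
      · refine key ⟨![0, 1, 2, 1], (proper_iff _).mpr (by decide)⟩ chk4 ?_
        intro i j
        fin_cases i <;> fin_cases j <;> simp_all
      · have c3' := Ne.symm c3
        refine key ⟨![0, 1, 2, 3], (proper_iff _).mpr (by decide)⟩ chk5 ?_
        intro i j
        fin_cases i <;> fin_cases j <;> simp_all

theorem main : ∃ q, 7 ≤ q ∧ mixTime (pathGraph 4) q < mixTime (pathGraph 4) (q + 1) := by
  by_contra h
  push Not at h
  have : ∀ k, mixTime (pathGraph 4) (7 + k) ≤ 8 := by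
    intro k
    induction k with
    | zero => exact mixed7
    | succ k ih => exact le_trans (h (7 + k) (by omega)) ih
  have h2 := not_mixed (G := pathGraph 4) ⟨![0, 1, 0, 1], (proper_iff _).mpr (by decide)⟩
  exact absurd (this 993) (not_le.mpr h2)

end Pool.Agent.H27.Glauber
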