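import Mathlib

set_option autoImplicit false

namespace Pool.Agent.H27.Had

open Finset

def Had (n : ℕ) (h : ℕ → ℕ → ℤˣ) : Prop :=
  (∀ i < n, ∀ k < n, ∑ j ∈ range n, (h i j : ℤ) * h k j = if i = k then (n : ℤ) else 0) ∧
  (∀ j < n, ∀ l < n, ∑ i ∈ range n, (h i j : ℤ) * h i l = if j = l then (n : ℤ) else 0) ∧
  (∀ j < n, h 0 j = 1) ∧ ∀ i < n, h i 0 = 1

def D (n : ℕ) (A B : ℕ → ℕ → ℤˣ) (i j : ℕ) : ℤˣ :=
  if i < n then (if j < n then A i j else B i (j - n))
  else (if j < n then A (i - n) j else -B (i - n) (j - n))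

theorem cs (n i : ℕ) (hi : i < n + n) : i < n ∨ ∃ a < n, i = n + a := by
  by_cases h : i < n
  · exact Or.inl h
  · exact Or.inr ⟨i - n, by omega, by omega⟩

theorem hadD (n : ℕ) (hn : 0 < n) (A B : ℕ → ℕ → ℤˣ) (hA : Had n A) (hB : Had n B) :
    Had (n + n) (D n A B) := by
  obtain ⟨a1, a2, a3, a4⟩ := hA
  obtain ⟨b1, b2, b3, b4⟩ := hB
  have e1 : ∀ i < n, ∀ j < n, D n A B i j = A i j := fun i hi j hj => by simp [D, hi, hj]
  have e2 : ∀ i < n, ∀ j, D n A B i (n + j) = B i j := fun i hi j => by simp [D, hi]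
  have e3 : ∀ i, ∀ j < n, D n A B (n + i) j = A i j := fun i j hj => by simp [D, hj]
  have e4 : ∀ i j, D n A B (n + i) (n + j) = -B i j := fun i j => by simp [D]
  refine ⟨fun i hi0 k hk0 => ?_, fun j hj0 l hl0 => ?_, fun j hj0 => ?_, fun i hi0 => ?_⟩
  · rw [sum_range_add]
    rcases cs n i hi0 with hi | ⟨i, hi, rfl⟩ <;> rcases cs n k hk0 with hk | ⟨k, hk, rfl⟩
    · rw [sum_congr rfl fun j hj => by rw [e1 i hi j (mem_range.1 hj), e1 k hk j (mem_range.1 hj)]]
      simp only [e2 i hi, e2 k hk, a1 i hi k hk, b1 i hi k hk]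
      split_ifs <;> simp
    · rw [sum_congr rfl fun j hj => by rw [e1 i hi j (mem_range.1 hj), e3 k j (mem_range.1 hj)]]
      simp only [e2 i hi, e4, Units.val_neg, mul_neg, sum_neg_distrib, a1 i hi k hk, b1 i hi k hk]
      rw [if_neg (by omega : ¬ i = n + k)]; simp
    · rw [sum_congr rfl fun j hj => by rw [e3 i j (mem_range.1 hj), e1 k hk j (mem_range.1 hj)]]
      simp only [e2 k hk, e4, Units.val_neg, neg_mul, sum_neg_distrib, a1 i hi k hk, b1 i hi k hk]
      rw [if_neg (by omega : ¬ n + i = k)]; simp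
    · rw [sum_congr rfl fun j hj => by rw [e3 i j (mem_range.1 hj), e3 k j (mem_range.1 hj)]]
      simp only [e4, Units.val_neg, neg_mul_neg, a1 i hi k hk, b1 i hi k hk, add_right_inj]
      split_ifs <;> simp
  · rw [sum_range_add]
    rcases cs n j hj0 with hj | ⟨j, hj, rfl⟩ <;> rcases cs n l hl0 with hl | ⟨l, hl, rfl⟩
    · rw [sum_congr rfl fun i hi => by rw [e1 i (mem_range.1 hi) j hj, e1 i (mem_range.1 hi) l hl]]
      simp only [e3 _ j hj, e3 _ l hl, a2 j hj l hl]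
      split_ifs <;> simp
    · rw [sum_congr rfl fun i hi => by rw [e1 i (mem_range.1 hi) j hj, e2 i (mem_range.1 hi) l]]
      simp only [e3 _ j hj, e4, Units.val_neg, mul_neg, sum_neg_distrib]
      rw [if_neg (by omega : ¬ j = n + l)]; simp
    · rw [sum_congr rfl fun i hi => by rw [e2 i (mem_range.1 hi) j, e1 i (mem_range.1 hi) l hl]]
      simp only [e3 _ l hl, e4, Units.val_neg, neg_mul, sum_neg_distrib]
      rw [if_neg (by omega : ¬ n + j = l)]; simp
    · rw [sum_congr rfl fun i hi => by rw [e2 i (mem_range.1 hi) j, e2 i (mem_range.1 hi) l]]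
      simp only [e4, Units.val_neg, neg_mul_neg, b2 j hj l hl, add_right_inj]
      split_ifs <;> simp
  · rcases cs n j hj0 with hj | ⟨j, hj, rfl⟩
    · rw [e1 0 hn j hj, a3 j hj]
    · rw [e2 0 hn, b3 j hj]
  · rcases cs n i hi0 with hi | ⟨i, hi, rfl⟩
    · rw [e1 i hi 0 hn, a4 i hi]
    · rw [e3 i 0 hn, a4 i hi]

def B8 (T : ℕ) (i j : ℕ) : ℤˣ := if T.testBit (8 * i + j) then -1 else 1

def Pat (h : ℕ → ℕ → ℤˣ) (l : ℕ) : Prop := h 1 l = 1 ∧ h 2 l = 1 ∧ h 3 l = -1

theorem ex (k : ℕ) : ∃ n, k + 8 ≤ n ∧ ∃ A B, Had n A ∧ Had n B ∧ Pat A 4 ∧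
    (∀ l < n, Pat A l → l = 4) ∧ ∀ l < n, ¬ Pat B l := by
  induction k with
  | zero =>
    refine ⟨8, le_rfl, B8 10825627002464938496, B8 10825627592855169536, ?_, ?_, ?_, ?_, ?_⟩
    all_goals (try unfold Had); (try unfold Pat); decide +kernel
  | succ k ih =>
    obtain ⟨n, hn, A, B, hA, hB, h1, h2, h3⟩ := ih
    have e : ∀ (A : ℕ → ℕ → ℤˣ) l, Pat (D n A B) l ↔ if l < n then Pat A l else Pat B (l - n) := by
      intro A l
      simp only [Pat, D, if_pos (by omega : 1 < n), if_pos (by omega : 2 < n),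
        if_pos (by omega : 3 < n)]
      split_ifs <;> rfl
    refine ⟨n + n, by omega, D n A B, D n B B, hadD n (by omega) _ _ hA hB,
      hadD n (by omega) _ _ hB hB, ?_, fun l hl => ?_, fun l hl => ?_⟩
    · rw [e, if_pos (by omega)]; exact h1
    · rw [e]; split_ifs with h
      · exact h2 l h
      · exact fun hp => absurd hp (h3 _ (by omega))
    · rw [e]; split_ifs with h
      · exact h3 l h
      · exact h3 _ (by omega)

end Pool.Agent.H27.Had
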