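import Mathlib

set_option autoImplicit false

namespace Pool.Agent.H27.Heis

open Real Finset

@[ext] structure H where
  x : ℤ
  y : ℤ
  z : ℤ

instance : Mul H := ⟨fun g h => ⟨g.x + h.x, g.y + h.y, g.z + h.z + g.x * h.y⟩⟩
instance : One H := ⟨⟨0, 0, 0⟩⟩
instance : Inv H := ⟨fun g => ⟨-g.x, -g.y, g.x * g.y - g.z⟩⟩
@[simp] lemma mul_x (g h : H) : (g * h).x = g.x + h.x := rfl
@[simp] lemma mul_y (g h : H) : (g * h).y = g.y + h.y := rfl
@[simp] lemma mul_z (g h : H) : (g * h).z = g.z + h.z + g.x * h.y := rfl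

instance : Group H := Group.ofLeftAxioms (fun _ _ _ => by ext <;> simp <;> ring)
  (fun g => H.ext (zero_add _) (zero_add _) (show 0 + g.z + 0 * g.y = g.z by ring))
  fun g => H.ext (neg_add_cancel _) (neg_add_cancel _) (show g.x * g.y - g.z + g.z + -g.x * g.y = 0 by ring)

lemma gen : Subgroup.closure ({⟨1, 0, 0⟩, ⟨0, 1, 0⟩, ⟨0, 0, 1⟩} : Set H) = ⊤ := by
  have k : ∀ (K : Subgroup H) (F : ℤ → H), (∀ m n, F (m + n) = F m * F n) → F 1 ∈ K → ∀ n, F n ∈ K :=
    fun K F hF h n => by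
    have := (MonoidHom.mk' (fun n : Multiplicative ℤ => F n.toAdd) fun _ _ => hF _ _).map_zpow
      (Multiplicative.ofAdd 1) n
    simp only [MonoidHom.mk'_apply, toAdd_zpow, toAdd_ofAdd, smul_eq_mul, mul_one] at this
    exact this ▸ K.zpow_mem h n
  refine eq_top_iff.mpr fun g _ => ?_
  rw [show g = ⟨0, g.y, 0⟩ * ⟨g.x, 0, 0⟩ * ⟨0, 0, g.z⟩ by ext <;> simp]
  refine mul_mem (mul_mem (k _ (fun n => ⟨0, n, 0⟩) ?_ ?_ _) (k _ (fun n => ⟨n, 0, 0⟩) ?_ ?_ _))
    (k _ (fun n => ⟨0, 0, n⟩) ?_ ?_ _)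
  all_goals first | exact Subgroup.subset_closure (by simp) | (intro m n; ext <;> simp)

noncomputable def u (t : ℝ) : ℝ := Int.fract t * (1 - Int.fract t)

lemma u_bd (t : ℝ) : 0 ≤ u t ∧ u t ≤ 1 / 4 := by
  have := Int.fract_nonneg t
  have := Int.fract_lt_one t
  unfold u
  constructor <;> nlinarith [sq_nonneg (Int.fract t - 1 / 2)]

lemma u_lip (φ : ℤ → ℝ) (hφ : ∀ j, |φ j| ≤ 1) (t ε : ℝ) (h : 0 ≤ ε) :
    |u (t + ε) * φ ⌊t + ε⌋ - u t * φ ⌊t⌋| ≤ ε := by
  have a1 := Int.fract_nonneg t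
  have a2 := Int.fract_lt_one t
  have b1 := Int.fract_nonneg (t + ε)
  have b2 := Int.fract_lt_one (t + ε)
  have a3 := Int.floor_add_fract t
  have b3 := Int.floor_add_fract (t + ε)
  rcases (Int.floor_mono (show t ≤ t + ε by linarith)).eq_or_lt with h1 | h1
  · rw [← h1, ← sub_mul, abs_mul]
    rw [← h1] at b3
    refine (mul_le_of_le_one_right (abs_nonneg _) (hφ _)).trans ?_
    unfold u
    have : Int.fract (t + ε) = Int.fract t + ε := by linarith
    rw [this] at b1 b2 ⊢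
    rw [abs_le]; constructor <;> nlinarith
  · have h2 : (⌊t⌋ : ℝ) + 1 ≤ ⌊t + ε⌋ := by exact_mod_cast h1
    refine (abs_sub _ _).trans ?_
    rw [abs_mul, abs_mul, abs_of_nonneg (u_bd _).1, abs_of_nonneg (u_bd _).1]
    have c1 := mul_le_of_le_one_right (u_bd t).1 (hφ ⌊t⌋)
    have c2 := mul_le_of_le_one_right (u_bd (t + ε)).1 (hφ ⌊t + ε⌋)
    unfold u at *
    nlinarith

noncomputable def tr (q : Bool) (θ : ℝ) : ℝ := if q then sin θ else cos θ

lemma tr_lip (q : Bool) (a b : ℝ) : |tr q a - tr q b| ≤ |a - b| := by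
  cases q
  exacts [abs_cos_sub_cos_le a b, abs_sin_sub_sin_le a b]

lemma tr_bd (q : Bool) (a : ℝ) : |tr q a| ≤ 1 := by
  cases q
  exacts [abs_cos_le_one a, abs_sin_le_one a]

lemma tr_low (a b : ℝ) (h : |a - b| ≤ 1) : ∃ q, 2 / 5 * |a - b| ≤ |tr q a - tr q b| := by
  have h1 := cos_le_one_sub_mul_cos_sq (h.trans (by linarith [pi_gt_three]))
  have h2 : 1 / 5 ≤ 2 / π ^ 2 := by
    rw [le_div_iff₀ (by positivity)]; nlinarith [pi_lt_d2, pi_pos]
  have h3 := mul_le_mul_of_nonneg_right h2 (sq_nonneg (a - b))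
  rw [cos_sub] at h1
  by_contra! h4
  have c1 := pow_le_pow_left₀ (abs_nonneg _) (h4 true).le 2
  have c2 := pow_lt_pow_left₀ (h4 false) (abs_nonneg _) two_ne_zero
  simp only [tr, if_true, Bool.false_eq_true, if_false, mul_pow, sq_abs] at c1 c2
  nlinarith [sin_sq_add_cos_sq a, sin_sq_add_cos_sq b, sq_nonneg (a - b)]

noncomputable def t (i : ℕ) (p : Bool) (x : ℤ) : ℝ := x / 1024 ^ i + if p then 1 / 2 else 0

noncomputable def T (i : ℕ) (p q : Bool) (h : H) : ℝ :=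
  512 ^ i * (u (t i p h.x) * tr q ((h.z - ⌊t i p h.x⌋ * 1024 ^ i * h.y) / (1024 ^ i) ^ 2))

lemma step (g : H) : ∃ C : ℝ, ∀ h i p q, |T i p q (h * g) - T i p q h| ≤ C * (1 / 2) ^ i := by
  have hg : g ∈ Subgroup.closure _ := gen ▸ Subgroup.mem_top g
  induction hg using Subgroup.closure_induction with
  | mem g hg =>
    refine ⟨1, fun h i p q => ?_⟩
    have s1 : (1 : ℝ) ≤ 1024 ^ i := one_le_pow₀ (by norm_num)
    rw [T, T, ← mul_sub, abs_mul, abs_of_pos (by positivity), one_mul,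
      show ((1 : ℝ) / 2) ^ i = 512 ^ i * (1 / 1024 ^ i) by rw [one_div (_ ^ _), ← inv_pow, ← mul_pow]; norm_num]
    gcongr
    have k : ∀ a b : ℝ, |a - b| ≤ 1 / 1024 ^ i →
        |u (t i p h.x) * tr q a - u (t i p h.x) * tr q b| ≤ 1 / 1024 ^ i := fun a b h1 => by
      rw [← mul_sub, abs_mul, abs_of_nonneg (u_bd _).1]
      exact (mul_le_of_le_one_left (abs_nonneg _) (by linarith [(u_bd (t i p h.x)).2])).trans
        ((tr_lip q a b).trans h1)
    rcases hg with rfl | rfl | rfl <;> simp only [mul_x, mul_y, mul_z, add_zero, mul_zero, mul_one]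
    · rw [show t i p (h.x + 1) = t i p h.x + 1 / 1024 ^ i by unfold t; push_cast; ring]
      exact u_lip (fun j => tr q ((h.z - j * 1024 ^ i * h.y) / (1024 ^ i) ^ 2)) (fun _ => tr_bd _ _) _ _
        (by positivity)
    · refine k _ _ ?_
      have a1 := Int.floor_le (t i p h.x)
      have a2 := Int.lt_floor_add_one (t i p h.x)
      generalize ⌊t i p h.x⌋ = j at *
      rw [show ((h.z + h.x : ℤ) - j * 1024 ^ i * (h.y + 1 : ℤ) : ℝ) / (1024 ^ i) ^ 2 -
        (h.z - j * 1024 ^ i * h.y) / (1024 ^ i) ^ 2 = (h.x / 1024 ^ i - j) / 1024 ^ i by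
          push_cast; field_simp; ring, abs_div, abs_of_pos (show (0 : ℝ) < 1024 ^ i by positivity)]
      gcongr
      unfold t at a1 a2
      rw [abs_le]
      split_ifs at a1 a2 <;> constructor <;> linarith
    · refine k _ _ ?_
      rw [← sub_div]
      push_cast
      rw [show ∀ a b : ℝ, a + 1 - b - (a - b) = 1 by intros; ring, abs_of_pos (by positivity)]
      gcongr
      nlinarith
  | one => exact ⟨0, by simp⟩
  | mul g g' _ _ h1 h2 =>
    obtain ⟨C, h1⟩ := h1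
    obtain ⟨D, h2⟩ := h2
    refine ⟨D + C, fun h i p q => ?_⟩
    rw [← mul_assoc, add_mul]
    exact (abs_sub_le _ _ _).trans (add_le_add (h2 _ _ _ _) (h1 _ _ _ _))
  | inv g _ h1 =>
    obtain ⟨C, h1⟩ := h1
    refine ⟨C, fun h i p q => ?_⟩
    simpa [abs_sub_comm] using h1 (h * g⁻¹) i p q

noncomputable def a (r : ℕ) (p q : Bool) (h h' : H) (i : ℕ) : ℝ :=
  if i % 3 = r then T i p q h - T i p q h' else 0

lemma a_bd (g : H) : ∃ C : ℝ, ∀ r p q h i, ‖a r p q (h * g) h i‖ ≤ C * (1 / 2) ^ i := by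
  obtain ⟨C, hC⟩ := step g
  refine ⟨C, fun r p q h i => ?_⟩
  unfold a
  split_ifs
  · exact hC _ _ _ _
  · simpa using (abs_nonneg _).trans (hC h i p q)

lemma a_sum (r : ℕ) (p q : Bool) (h h' : H) : Summable (a r p q h h') := by
  obtain ⟨C, hC⟩ := a_bd (h'⁻¹ * h)
  refine .of_norm_bounded (summable_geometric_two.mul_left C) fun i => ?_
  simpa using hC r p q h' i

noncomputable def F (r : ℕ) (p q : Bool) (h : H) : ℝ := ∑' i, a r p q h 1 i

lemma F_sub (r : ℕ) (p q : Bool) (h h' : H) : F r p q h - F r p q h' = ∑' i, a r p q h h' i := by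
  rw [F, F, ← (a_sum _ _ _ _ _).tsum_sub (a_sum _ _ _ _ _)]
  congr 1; ext i; unfold a; split_ifs <;> simp

lemma low (h h' : H) (hx : h.x = h'.x) (hy : h.y = h'.y) (hz : h.z ≠ h'.z) :
    ∃ r < 3, ∃ p q, 1 ≤ 15 * 1024 ^ 2 * |F r p q h - F r p q h'| := by
  obtain ⟨δ, hδ⟩ : ∃ δ : ℝ, δ = |(h.z : ℝ) - h'.z| := ⟨_, rfl⟩
  have d1 : 1 ≤ δ := by rw [hδ]; exact_mod_cast Int.one_le_abs (sub_ne_zero.mpr hz)
  have ex : ∃ k : ℕ, δ ≤ (1024 ^ k) ^ 2 := by
    obtain ⟨k, hk⟩ := pow_unbounded_of_one_lt δ (show (1 : ℝ) < 1024 by norm_num)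
    exact ⟨k, by nlinarith⟩
  classical
  have k1 := Nat.find_spec ex
  have k2 : ((1024 : ℝ) ^ Nat.find ex) ^ 2 ≤ 1024 ^ 2 * δ := by
    rcases h0 : Nat.find ex with _ | j
    · norm_num; linarith
    · have := not_le.mp (Nat.find_min ex (show j < _ by omega))
      rw [pow_succ 1024 j]; nlinarith
  generalize Nat.find ex = k at *
  have e : ∀ i p q, |T i p q h - T i p q h'| = 512 ^ i * (u (t i p h.x) *
      |tr q ((h.z - ⌊t i p h.x⌋ * 1024 ^ i * h.y) / (1024 ^ i) ^ 2) -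
        tr q ((h'.z - ⌊t i p h.x⌋ * 1024 ^ i * h.y) / (1024 ^ i) ^ 2)|) := fun i p q => by
    rw [T, T, ← hx, ← hy, ← mul_sub, ← mul_sub, abs_mul, abs_mul, abs_of_pos (by positivity),
      abs_of_nonneg (u_bd _).1]
  have e' : ∀ (i : ℕ) (c : ℝ), |(h.z - c) / (1024 ^ i) ^ 2 - (h'.z - c) / (1024 ^ i) ^ 2| =
      δ / (1024 ^ i) ^ 2 := fun i c => by
    rw [← sub_div, sub_sub_sub_cancel_right, abs_div, ← hδ, abs_of_pos (by positivity)]
  obtain ⟨p, hp⟩ : ∃ p, 3 / 16 ≤ u (t k p h.x) := by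
    have a1 := Int.fract_nonneg (t k false h.x)
    have a2 := Int.fract_lt_one (t k false h.x)
    have a3 : t k true h.x = ⌊t k false h.x⌋ + (Int.fract (t k false h.x) + 1 / 2) := by
      rw [← add_assoc, Int.floor_add_fract]; simp [t]
    by_cases h1 : Int.fract (t k false h.x) < 1 / 4
    · refine ⟨true, ?_⟩
      rw [u, a3, Int.fract_intCast_add, Int.fract_eq_self.mpr ⟨by linarith, by linarith⟩]; nlinarith
    by_cases h2 : Int.fract (t k false h.x) ≤ 3 / 4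
    · exact ⟨false, by unfold u; nlinarith⟩
    · refine ⟨true, ?_⟩
      rw [u, a3, Int.fract_intCast_add, ← Int.fract_sub_one,
        Int.fract_eq_self.mpr ⟨by linarith, by linarith⟩]; nlinarith
  obtain ⟨q, hq⟩ := tr_low _ _ ((e' k (⌊t k p h.x⌋ * 1024 ^ k * h.y)).trans_le
    ((div_le_one (by positivity)).mpr k1))
  rw [e'] at hq
  refine ⟨k % 3, Nat.mod_lt _ (by norm_num), p, q, ?_⟩
  obtain ⟨m, hm⟩ : ∃ m : ℝ, m = 512 ^ k * (δ / (1024 ^ k) ^ 2) := ⟨_, rfl⟩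
  have m1 : 512 ^ k ≤ 1024 ^ 2 * m := by
    rw [hm, mul_left_comm, ← mul_div_assoc]
    exact le_mul_of_one_le_right (by positivity) ((one_le_div (by positivity)).mpr k2)
  have m2 : (1 : ℝ) ≤ 512 ^ k := one_le_pow₀ (by norm_num)
  have m0 : 0 ≤ m := by linarith
  have b1 : 3 / 40 * m ≤ |a (k % 3) p q h h' k| := by
    rw [a, if_pos rfl, e, hm, mul_left_comm, show ∀ x : ℝ, 3 / 40 * x = 3 / 16 * (2 / 5 * x) by intro; ring]
    gcongr
  have b2 : |∑ i ∈ range k, a (k % 3) p q h h' i| ≤ ∑ i ∈ range (k - 2), 512 ^ i / 2 := by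
    rw [← sum_subset (f := a (k % 3) p q h h') (range_subset_range.mpr (Nat.sub_le k 2)) fun i h1 h2 => if_neg (by
      rw [mem_range] at h1 h2; omega)]
    refine (abs_sum_le_sum_abs _ _).trans (sum_le_sum fun i _ => ?_)
    unfold a
    split_ifs
    · rw [e, show (512 : ℝ) ^ i / 2 = 512 ^ i * (1 / 4 * (1 + 1)) by ring]
      exact mul_le_mul_of_nonneg_left (mul_le_mul (u_bd _).2 ((abs_sub _ _).trans
        (add_le_add (tr_bd _ _) (tr_bd _ _))) (abs_nonneg _) (by norm_num)) (by positivity)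
    · rw [abs_zero]; positivity
  have b3 : ∑ i ∈ range (k - 2), (512 : ℝ) ^ i / 2 ≤ m / 250 := by
    rcases le_or_gt k 2 with h1 | h1
    · simp [Nat.sub_eq_zero_of_le h1]; nlinarith
    · obtain ⟨j, rfl⟩ : ∃ j, k = j + 2 := ⟨k - 2, by omega⟩
      have := geom_sum_mul (512 : ℝ) j
      rw [← sum_div, Nat.add_sub_cancel]
      rw [pow_add] at m1
      linarith
  have b4 : ‖∑' i, a (k % 3) p q h h' (i + 1 + k)‖ ≤ m / 4096 / 2 * 2 := by
    refine tsum_of_norm_bounded (hasSum_geometric_two.mul_left _) fun i => ?_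
    have : (512 : ℝ) ^ (i + 1 + k) * (1 / 4 * (δ / (1024 ^ (i + 1 + k)) ^ 2)) ≤ m / 4096 / 2 * (1 / 2) ^ i := by
      have c1 : (512 : ℝ) ^ i / (1024 ^ i) ^ 2 ≤ (1 / 2) ^ i := by
        rw [← pow_mul, mul_comm, pow_mul, ← div_pow]
        exact pow_le_pow_left₀ (by norm_num) (by norm_num) i
      calc _ = m / 4096 / 2 * (512 ^ i / (1024 ^ i) ^ 2) := by rw [hm]; field_simp; ring
        _ ≤ _ := by gcongr
    unfold a
    split_ifs
    · refine le_trans ?_ this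
      rw [Real.norm_eq_abs, e, ← e']
      exact mul_le_mul_of_nonneg_left (mul_le_mul (u_bd _).2 (tr_lip _ _ _) (abs_nonneg _) (by norm_num))
        (by positivity)
    · exact le_trans (by rw [norm_zero]; positivity) this
  rw [F_sub, ← (a_sum _ _ _ _ _).sum_add_tsum_nat_add k,
    ((summable_nat_add_iff k).mpr (a_sum _ _ _ _ _)).tsum_eq_zero_add, zero_add]
  rw [Real.norm_eq_abs] at b4
  generalize ∑' i, a (k % 3) p q h h' (i + 1 + k) = c at *
  generalize ∑ i ∈ range k, a (k % 3) p q h h' i = b at *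
  generalize a (k % 3) p q h h' k = w at *
  have := abs_add_three (b + (w + c)) (-b) (-c)
  rw [abs_neg, abs_neg, show b + (w + c) + -b + -c = w by ring] at this
  nlinarith

theorem emb : ∃ f : H → Fin 14 → ℤ, Function.Injective f ∧
    ∀ g, ∃ L : ℤ, ∀ h i, |f (h * g) i - f h i| ≤ L := by
  let e : Bool ⊕ Fin 3 × Bool × Bool ≃ Fin 14 := Fintype.equivFinOfCardEq (by simp)
  let f : H → Bool ⊕ Fin 3 × Bool × Bool → ℤ := fun h => Sum.elim (fun b => if b then h.x else h.y)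
    fun j => ⌊15 * 1024 ^ 2 * F j.1 j.2.1 j.2.2 h⌋
  refine ⟨fun h i => f h (e.symm i), fun h h' h1 => ?_, fun g => ?_⟩
  · have h2 : ∀ j, f h j = f h' j := fun j => by simpa using congrFun h1 (e j)
    have hx : h.x = h'.x := h2 (.inl true)
    have hy : h.y = h'.y := h2 (.inl false)
    refine H.ext hx hy (by_contra fun hz => ?_)
    obtain ⟨r, hr, p, q, h3⟩ := low h h' hx hy hz
    have := Int.abs_sub_lt_one_of_floor_eq_floor (h2 (.inr (⟨r, hr⟩, p, q)))
    rw [← mul_sub, abs_mul, abs_of_pos (by norm_num)] at this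
    exact this.not_ge h3
  · obtain ⟨C, hC⟩ := a_bd g
    refine ⟨|g.x| + |g.y| + ⌈15 * 1024 ^ 2 * (C * 2) + 1⌉₊, fun h i => ?_⟩
    have := abs_nonneg g.x
    have := abs_nonneg g.y
    dsimp only
    generalize e.symm i = j
    rcases j with (_ | _) | ⟨r, p, q⟩
    · simp [f]; omega
    · simp [f]; omega
    · have h1 := tsum_of_norm_bounded (hasSum_geometric_two.mul_left C) (hC r p q h)
      rw [← F_sub, Real.norm_eq_abs, abs_le] at h1
      refine le_trans ?_ (le_add_of_nonneg_left (by positivity))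
      have h2 := Nat.le_ceil (15 * 1024 ^ 2 * (C * 2) + 1)
      have := Int.floor_le (15 * 1024 ^ 2 * F r p q h)
      have := Int.lt_floor_add_one (15 * 1024 ^ 2 * F r p q h)
      have := Int.floor_le (15 * 1024 ^ 2 * F r p q (h * g))
      have := Int.lt_floor_add_one (15 * 1024 ^ 2 * F r p q (h * g))
      rw [← Int.cast_le (R := ℝ)]
      simp only [f, Sum.elim_inr]
      push_cast
      rw [abs_le]
      constructor <;> linarith [h1.1, h1.2]

end Pool.Agent.H27.Heis
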