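import Mathlib

set_option autoImplicit false

namespace Pool.Agent.H27.HiggsBaire

open Set

/-- generic points for a family of open dense sets -/
def G (U : ℝ → Set ℝ) : Set ℝ :=
  {x | ∀ a b : ℚ, a < b → ¬ IsMeagre {y : ℝ | y ∈ Ioo (a : ℝ) b ∧ x ∈ U y}}

lemma key (U : ℝ → Set ℝ) (ho : ∀ y, IsOpen (U y)) (hd : ∀ y, Dense (U y)) (a b : ℝ)
    (hab : a < b) (B : Set ℝ) (hB : ∀ x ∈ B, IsMeagre {y : ℝ | y ∈ Ioo a b ∧ x ∈ U y}) :
    IsMeagre B := by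
  apply IsNowhereDense.isMeagre
  obtain ⟨t, htB, htc, hBt⟩ :=
    (TopologicalSpace.IsSeparable.of_separableSpace B).exists_countable_dense_subset
  have hN : IsMeagre (⋃ x ∈ t, {y : ℝ | y ∈ Ioo a b ∧ x ∈ U y}) :=
    isMeagre_biUnion htc (fun x hx => hB x (htB hx))
  have hI : ¬ IsMeagre (Ioo a b) :=
    not_isMeagre_of_isOpen isOpen_Ioo (nonempty_Ioo.2 hab)
  have : ∃ y ∈ Ioo a b, y ∉ ⋃ x ∈ t, {y : ℝ | y ∈ Ioo a b ∧ x ∈ U y} := by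
    by_contra h
    apply hI
    apply hN.mono
    intro y hy
    by_contra hy2
    exact h ⟨y, hy, hy2⟩
  obtain ⟨y, hy, hyN⟩ := this
  have h1 : t ⊆ (U y)ᶜ := by
    intro x hx hxU
    exact hyN (mem_iUnion₂.2 ⟨x, hx, hy, hxU⟩)
  have h2 : closure t ⊆ (U y)ᶜ := closure_minimal h1 (ho y).isClosed_compl
  have h3 : closure B ⊆ (U y)ᶜ := closure_minimal (hBt.trans h2) (ho y).isClosed_compl
  unfold IsNowhereDense
  apply eq_empty_of_subset_empty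
  rw [← (hd y).interior_compl]
  exact interior_mono h3

lemma meagre_compl (U : ℝ → Set ℝ) (ho : ∀ y, IsOpen (U y)) (hd : ∀ y, Dense (U y)) :
    IsMeagre (G U)ᶜ := by
  have h1 : ∀ q : ℚ × ℚ, IsMeagre {x : ℝ | q.1 < q.2 ∧
      IsMeagre {y : ℝ | y ∈ Ioo (q.1 : ℝ) q.2 ∧ x ∈ U y}} := by
    intro q
    by_cases h : q.1 < q.2
    · exact key U ho hd q.1 q.2 (by exact_mod_cast h) _ (fun x hx => hx.2)
    · apply IsMeagre.empty.mono
      intro x hx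
      exact h hx.1
  apply (isMeagre_iUnion h1).mono
  intro x hx
  by_contra hc
  apply hx
  intro a b hab hm
  exact hc (mem_iUnion.2 ⟨(a, b), hab, hm⟩)

lemma pick {U : ℝ → Set ℝ} {x : ℝ} (hx : x ∈ G U) {N : Set ℝ} (hN : IsMeagre Nᶜ) {a b : ℝ}
    (hab : a < b) : ∃ y, a < y ∧ y < b ∧ x ∈ U y ∧ y ∈ N := by
  obtain ⟨q, hq1, hq2⟩ := exists_rat_btwn hab
  obtain ⟨r, hr1, hr2⟩ := exists_rat_btwn hq2
  have h := hx q r (by exact_mod_cast hr1)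
  by_contra hc
  push Not at hc
  apply h
  apply hN.mono
  intro y hy hyN
  exact hc y (hq1.trans hy.1.1) (hy.1.2.trans hr2) hy.2 hyN

/-- the union of the free intervals -/
def UU (F : ℤ → ℝ → ℝ → ℝ → Prop) (n : ℤ) (x : ℝ) : Set ℝ := {t | ∃ a b, a < t ∧ t < b ∧ F n x a b}

theorem path (F : ℤ → ℝ → ℝ → ℝ → Prop)
    (hmono : ∀ n x a b a' b', a ≤ a' → b' ≤ b → F n x a b → F n x a' b')
    (hdense : ∀ n x a b, a < b → ∃ a' b', a ≤ a' ∧ a' < b' ∧ b' ≤ b ∧ F n x a' b') :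
    ∃ s : ℤ → ℝ, ∀ n, s (n - 1) < s (n + 1) ∧ F n (s n) (s (n - 1)) (s (n + 1)) := by
  have ho : ∀ n x, IsOpen (UU F n x) := by
    intro n x
    rw [isOpen_iff_forall_mem_open]
    rintro t ⟨a, b, h1, h2, h3⟩
    exact ⟨Ioo a b, fun u hu => ⟨a, b, hu.1, hu.2, h3⟩, isOpen_Ioo, ⟨h1, h2⟩⟩
  have hd : ∀ n x, Dense (UU F n x) := by
    intro n x
    rw [dense_iff_exists_between]
    intro a b hab
    obtain ⟨a', b', h1, h2, h3, h4⟩ := hdense n x a b hab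
    exact ⟨(a' + b') / 2, ⟨a', b', by linarith, by linarith, h4⟩, by linarith, by linarith⟩
  have hG : ∀ n, IsMeagre (G (UU F n))ᶜ := fun n => meagre_compl _ (ho n) (hd n)
  -- forward step
  have fw : ∀ (n : ℤ) (u v : ℝ), ∃ w, u ∈ UU F n v → v ∈ G (UU F (n + 1)) →
      (u < w ∧ F n v u w) ∧ v ∈ UU F (n + 1) w ∧ w ∈ G (UU F (n + 1 + 1)) := by
    intro n u v
    by_cases h : u ∈ UU F n v ∧ v ∈ G (UU F (n + 1))
    · obtain ⟨⟨a, b, h1, h2, h3⟩, hv⟩ := h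
      obtain ⟨y, y1, y2, y3, y4⟩ := pick hv (hG (n + 1 + 1)) h2
      exact ⟨y, fun _ _ => ⟨⟨y1, hmono _ _ _ _ _ _ h1.le y2.le h3⟩, y3, y4⟩⟩
    · exact ⟨0, fun a b => absurd ⟨a, b⟩ h⟩
  have bw : ∀ (n : ℤ) (u v : ℝ), ∃ w, u ∈ UU F n v → v ∈ G (UU F (n - 1)) →
      (w < u ∧ F n v w u) ∧ v ∈ UU F (n - 1) w ∧ w ∈ G (UU F (n - 1 - 1)) := by
    intro n u v
    by_cases h : u ∈ UU F n v ∧ v ∈ G (UU F (n - 1))
    · obtain ⟨⟨a, b, h1, h2, h3⟩, hv⟩ := h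
      obtain ⟨y, y1, y2, y3, y4⟩ := pick hv (hG (n - 1 - 1)) h1
      exact ⟨y, fun _ _ => ⟨⟨y2, hmono _ _ _ _ _ _ y1.le h2.le h3⟩, y3, y4⟩⟩
    · exact ⟨0, fun a b => absurd ⟨a, b⟩ h⟩
  choose f hf using fw
  choose g hg using bw
  -- start
  have h0 : ∃ x0, x0 ∈ G (UU F 1) ∧ x0 ∈ G (UU F (-1)) := by
    by_contra h
    push Not at h
    apply not_isMeagre_of_isOpen (isOpen_univ (X := ℝ)) univ_nonempty
    apply ((hG 1).union (hG (-1))).mono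
    intro x _
    by_cases hx : x ∈ G (UU F 1)
    · exact Or.inr (h x hx)
    · exact Or.inl hx
  obtain ⟨x0, hx1, hx2⟩ := h0
  obtain ⟨a, b, -, hab, -, hF⟩ := hdense 0 x0 0 1 one_pos
  obtain ⟨x1, y1, y2, y3, y4⟩ := pick hx1 (hG 2) hab
  have y5 : x1 ∈ UU F 0 x0 := ⟨a, b, y1, y2, hF⟩
  -- forward sequence: A k = (s k, s (k+1))
  let A : ℕ → ℝ × ℝ := fun k => Nat.rec (x0, x1) (fun k p => (p.2, f ((k : ℤ) + 1) p.1 p.2)) k
  let B : ℕ → ℝ × ℝ := fun k => Nat.rec (x1, x0) (fun k p => (p.2, g (-(k : ℤ)) p.1 p.2)) k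
  have hA : ∀ k : ℕ, (A k).1 ∈ UU F ((k : ℤ) + 1) (A k).2 ∧ (A k).2 ∈ G (UU F ((k : ℤ) + 1 + 1)) := by
    intro k
    induction k with
    | zero => exact ⟨y3, y4⟩
    | succ k ih =>
      have := hf ((k : ℤ) + 1) (A k).1 (A k).2 ih.1 ih.2
      push_cast
      exact ⟨this.2.1, this.2.2⟩
  have hB : ∀ k : ℕ, (B k).1 ∈ UU F (-(k : ℤ)) (B k).2 ∧ (B k).2 ∈ G (UU F (-(k : ℤ) - 1)) := by
    intro k
    induction k with
    | zero => exact ⟨y5, hx2⟩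
    | succ k ih =>
      have := hg (-(k : ℤ)) (B k).1 (B k).2 ih.1 ih.2
      have e : (-((k + 1 : ℕ) : ℤ)) = -(k : ℤ) - 1 := by push_cast; ring
      rw [e]
      exact ⟨this.2.1, this.2.2⟩
  have hA1 : ∀ k, (A (k + 1)).1 = (A k).2 := fun k => rfl
  have hB1 : ∀ k, (B (k + 1)).1 = (B k).2 := fun k => rfl
  have hA2 : ∀ k : ℕ, (A (k + 1)).2 = f ((k : ℤ) + 1) (A k).1 (A k).2 := fun k => rfl
  have hB2 : ∀ k : ℕ, (B (k + 1)).2 = g (-(k : ℤ)) (B k).1 (B k).2 := fun k => rfl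
  let s : ℤ → ℝ := fun n => if 0 ≤ n then (A n.toNat).1 else (B (-n).toNat).2
  have sA : ∀ k : ℕ, s (k : ℤ) = (A k).1 := by
    intro k
    simp [s]
  have sB : ∀ k : ℕ, s (-(k : ℤ)) = (B k).2 := by
    intro k
    rcases Nat.eq_zero_or_pos k with rfl | hk
    · simp [s, A, B]
    · have : ¬ (0 ≤ -(k : ℤ)) := by omega
      simp only [s, if_neg this]
      simp
  refine ⟨s, fun n => ?_⟩
  rcases le_or_gt 1 n with hn | hn
  · obtain ⟨k, rfl⟩ : ∃ k : ℕ, n = (k : ℤ) + 1 := ⟨(n - 1).toNat, by omega⟩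
    have e1 : s ((k : ℤ) + 1 - 1) = (A k).1 := by rw [← sA]; congr 1; ring
    have e2 : s ((k : ℤ) + 1) = (A k).2 := by
      rw [← hA1]; exact sA (k + 1)
    have e3 : s ((k : ℤ) + 1 + 1) = f ((k : ℤ) + 1) (A k).1 (A k).2 := by
      exact sA (k + 1 + 1)
    rw [e1, e2, e3]
    exact (hf _ _ _ (hA k).1 (hA k).2).1
  · obtain ⟨k, rfl⟩ : ∃ k : ℕ, n = -(k : ℤ) := ⟨(-n).toNat, by omega⟩
    have e1 : s (-(k : ℤ) - 1) = g (-(k : ℤ)) (B k).1 (B k).2 := by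
      rw [← hB2, ← sB (k + 1)]; congr 1; push_cast; ring
    have e3 : s (-(k : ℤ) + 1) = (B k).1 := by
      rcases k with _ | k
      · have := sA 1
        simpa [A, B] using this
      · rw [hB1, ← sB]; congr 1; push_cast; ring
    rw [e1, e3, sB]
    exact (hg _ _ _ (hB k).1 (hB k).2).1

end Pool.Agent.H27.HiggsBaire
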