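import Mathlib

set_option autoImplicit false

namespace Pool.Agent.H27.JN

open Finset

variable {α : Type*} [Fintype α] [DecidableEq α] {k : ℕ}

abbrev Vt (α : Type*) (k : ℕ) := {A : Finset α // #A = k}

def L (w : α → ZMod 2) (v : Finset α) : ZMod 2 := ∑ t ∈ v, w t

def χ (u : Finset α) (t : α) : ZMod 2 := if t ∈ u then 1 else 0

omit [Fintype α] in
theorem L_chi (u v : Finset α) : L (χ u) v = (#(u ∩ v) : ZMod 2) := by
  unfold L χ
  rw [← sum_filter, sum_const, inter_comm, ← filter_mem_eq_inter]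
  simp

omit [Fintype α] in
theorem L_comm (u v : Finset α) : L (χ u) v = L (χ v) u := by rw [L_chi, L_chi, inter_comm]

omit [Fintype α] in
theorem L_ins (w : α → ZMod 2) {t : α} {v : Finset α} (h : t ∉ v) :
    L w (insert t v) = w t + L w v := sum_insert h

theorem chi_compl (u : Finset α) (t : α) : χ uᶜ t = χ u t + 1 := by
  unfold χ
  by_cases h : t ∈ u <;> simp [h]
  decide

theorem L_compl (u v : Finset α) : L (χ uᶜ) v = L (χ u) v + #v := by
  unfold L
  simp only [chi_compl, sum_add_distrib, sum_const]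
  simp

omit [Fintype α] in
theorem chi_inj {u v : Finset α} (h : ∀ t, χ u t = χ v t) : u = v := by
  ext t
  have := h t
  unfold χ at this
  by_cases h1 : t ∈ u <;> by_cases h2 : t ∈ v <;> simp_all

def co (h : Fintype.card α = 2 * k) (u : Vt α k) : Vt α k :=
  ⟨u.1ᶜ, by rw [card_compl, u.2, h]; omega⟩

open Classical in
noncomputable def ad {V : Type*} (G : SimpleGraph V) (u v : V) : ZMod 2 :=
  if G.Adj u v then 1 else 0

def Pp {V : Type*} (G : SimpleGraph V) : Prop := ∀ a b : V, ∃ S : Finset V, 4 < #S ∧ ∀ c ∈ S,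
  ∃ d, ∃ E : Finset V, #E ≤ 8 ∧ ∀ v ∉ E, ad G a v + ad G b v + ad G c v + ad G d v = 0

theorem Pp_iso {V : Type*} {G H : SimpleGraph V} (f : G ≃g H) (h : Pp H) : Pp G := by
  intro a b
  obtain ⟨S, hS, h⟩ := h (f a) (f b)
  refine ⟨S.map f.symm.toEquiv.toEmbedding, by simpa using hS, fun c hc => ?_⟩
  obtain ⟨c, hc', rfl⟩ := mem_map.1 hc
  obtain ⟨d, E, hE, h⟩ := h c hc'
  refine ⟨f.symm d, E.map f.symm.toEquiv.toEmbedding, by simpa using hE, fun v hv => ?_⟩
  have e : ∀ x y, ad G x y = ad H (f x) (f y) := fun x y => by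
    unfold ad; rw [f.map_adj_iff]
  have := h (f v) fun h' => hv (mem_map.2 ⟨_, h', by simp⟩)
  simp only [e]
  simpa using this

theorem cnt (T : Finset α) (m : ℕ) (E : Finset (Vt α k))
    (hE : #E < (Fintype.card α - #T).choose m) :
    ∃ Y : Finset α, (∀ t ∈ T, t ∉ Y) ∧ #Y = m ∧ ∀ v : Vt α k, v.1 \ T = Y → v ∉ E := by
  by_contra h
  push Not at h
  have : powersetCard m Tᶜ ⊆ E.image fun v => v.1 \ T := by
    intro Y hY
    obtain ⟨h1, h2⟩ := mem_powersetCard.1 hY
    obtain ⟨v, hv, hv'⟩ := h Y (fun t ht hY => by simpa [ht] using h1 hY) h2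
    exact mem_image.2 ⟨v, hv', hv⟩
  have := (card_le_card this).trans card_image_le
  rw [card_powersetCard, card_compl] at this
  omega

theorem ch (a b n : ℕ) : a.choose b ≤ (a + 2 * n).choose (b + n) := by
  induction n with
  | zero => simp
  | succ n ih =>
    refine ih.trans ?_
    have h1 : (a + 2 * n).choose (b + n) ≤ (a + 2 * n + 1).choose (b + n + 1) := by
      rw [Nat.choose_succ_succ]; omega
    exact h1.trans (Nat.choose_le_choose _ (by omega))

def sw (u : Vt α k) (i j : α) (hi : i ∈ u.1) (hj : j ∉ u.1) : Vt α k :=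
  ⟨insert j (u.1.erase i), by
    rw [card_insert_of_notMem (by simp [hj]), card_erase_add_one hi, u.2]⟩

omit [Fintype α] in
theorem chi_sw (u : Vt α k) (i j : α) (hi : i ∈ u.1) (hj : j ∉ u.1) (t : α) :
    χ (sw u i j hi hj).1 t = χ u.1 t + (χ {i} t + χ {j} t) := by
  have : i ≠ j := fun h => hj (h ▸ hi)
  unfold χ sw
  by_cases h1 : t = i
  · subst h1; simp [hi, this]; decide
  · by_cases h2 : t = j
    · subst h2; simp [hj, h1]
    · simp [h1, h2]

theorem ad_eq (h : Fintype.card α = 2 * k) {G : SimpleGraph (Vt α k)}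
    (hG : ∀ u v, G.Adj u v ↔ v ≠ u ∧ v ≠ co h u ∧ L (χ u.1) v.1 = 0) {u v : Vt α k}
    (h1 : v ≠ u) (h2 : v ≠ co h u) : ad G u v = 1 + L (χ u.1) v.1 := by
  unfold ad
  rw [hG]
  generalize L (χ u.1) v.1 = x
  simp only [h1, h2, ne_eq, not_false_eq_true, true_and]
  revert x; decide

theorem Pp_J (hk : 7 ≤ k) (h : Fintype.card α = 2 * k) {G : SimpleGraph (Vt α k)}
    (hG : ∀ u v, G.Adj u v ↔ v ≠ u ∧ v ≠ co h u ∧ L (χ u.1) v.1 = 0) : Pp G := by
  intro a b
  have fin : ∀ c d : Vt α k, (∀ t, χ a.1 t + χ b.1 t + χ c.1 t + χ d.1 t = 0) →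
      ∃ E : Finset (Vt α k), #E ≤ 8 ∧
        ∀ v ∉ E, ad G a v + ad G b v + ad G c v + ad G d v = 0 := by
    intro c d hs
    refine ⟨{a, b, c, d} ∪ ({a, b, c, d} : Finset _).image (co h), ?_, fun v hv => ?_⟩
    · have := card_le_four (a := a) (b := b) (c := c) (d := d)
      have h2 := card_image_le (s := ({a, b, c, d} : Finset _)) (f := co h)
      exact (card_union_le _ _).trans (by omega)
    · simp only [image_insert, image_singleton, mem_union, mem_insert, mem_singleton,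
        not_or] at hv
      obtain ⟨⟨h1, h2, h3, h4⟩, h5, h6, h7, h8⟩ := hv
      rw [ad_eq h hG h1 h5, ad_eq h hG h2 h6, ad_eq h hG h3 h7, ad_eq h hG h4 h8]
      have : L (χ a.1) v.1 + L (χ b.1) v.1 + L (χ c.1) v.1 + L (χ d.1) v.1 = 0 := by
        unfold L
        simp only [← sum_add_distrib, hs, sum_const_zero]
      have h4 : (4 : ZMod 2) = 0 := by decide
      linear_combination this + h4
  have ex : ∃ i ∈ a.1, ∃ J : Finset α, 4 ≤ #J ∧ ∀ j ∈ J, j ∉ a.1 ∧ (i ∈ b.1 ↔ j ∉ b.1) := by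
    have c1 := card_sdiff_add_card_inter a.1 b.1
    have c2 := card_sdiff_add_card_inter b.1 a.1
    have c3 := card_union_add_card_inter a.1 b.1
    rw [inter_comm] at c2
    rw [a.2] at c1 c3
    rw [b.2] at c2 c3
    by_cases h4 : 4 ≤ #(b.1 \ a.1)
    · obtain ⟨i, hi⟩ := card_pos.1 (show 0 < #(a.1 \ b.1) by omega)
      rw [mem_sdiff] at hi
      exact ⟨i, hi.1, _, h4, fun j hj => by rw [mem_sdiff] at hj; tauto⟩
    · obtain ⟨i, hi⟩ := card_pos.1 (show 0 < #(a.1 ∩ b.1) by omega)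
      rw [mem_inter] at hi
      refine ⟨i, hi.1, (a.1 ∪ b.1)ᶜ, by rw [card_compl]; omega, fun j hj => ?_⟩
      rw [mem_compl, mem_union] at hj; tauto
  obtain ⟨i, hi, J, hJ, hj⟩ := ex
  have z : ∀ x y e : ZMod 2, x + y + (x + e) + (y + e) = 0 := by decide
  refine ⟨insert a (J.attach.image fun j => sw a i j.1 hi (hj _ j.2).1), ?_, fun c hc => ?_⟩
  · rw [card_insert_of_notMem, card_image_of_injective, card_attach]
    · omega
    · intro x y hxy
      have : x.1 ∈ (sw a i y.1 hi (hj _ y.2).1).1 := by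
        have := congrArg Subtype.val hxy
        simp only at this
        rw [← this]; simp [sw]
      have h2 := (hj _ x.2).1
      simp only [sw, mem_insert, mem_erase, h2, and_false, or_false] at this
      exact Subtype.ext this
    · intro hm
      obtain ⟨j, -, hm⟩ := mem_image.1 hm
      apply (hj _ j.2).1
      rw [← hm]; simp [sw]
  · rcases mem_insert.1 hc with rfl | hc
    · exact ⟨b, fin _ _ fun t => by simpa using z _ _ 0⟩
    · obtain ⟨⟨j, hj'⟩, -, rfl⟩ := mem_image.1 hc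
      by_cases hb : i ∈ b.1
      · exact ⟨sw b i j hb ((hj j hj').2.1 hb), fin _ _ fun t => by
          rw [chi_sw, chi_sw]; exact z _ _ _⟩
      · refine ⟨sw b j i (by have := (hj j hj').2; tauto) hb, fin _ _ fun t => ?_⟩
        rw [chi_sw, chi_sw, add_comm (χ {j} t)]; exact z _ _ _

end Pool.Agent.H27.JN
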