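import Pool.Agent.H27.JN1
import Pool.Agent.H27.GM

set_option autoImplicit false

namespace Pool.Agent.H27.JN

open Finset

variable {α : Type*} [Fintype α] [DecidableEq α] {k : ℕ}

structure D (α : Type*) [Fintype α] (k : ℕ) where
  pt : Fin 4 → α
  X : Finset α
  inj : Function.Injective pt
  nm : ∀ a, pt a ∉ X
  cX : #X + 2 = k
  hk : 7 ≤ k
  h : Fintype.card α = 2 * k

def f : Fin 4 → Fin 4 := ![0, 2, 0, 1]
def g : Fin 4 → Fin 4 := ![1, 3, 2, 3]
def μ (i a : Fin 4) : ZMod 2 := if a = f i ∨ a = g i then 1 else 0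

namespace D

variable (d : D α k)

theorem nm2 (i : Fin 4) : d.pt (f i) ∉ insert (d.pt (g i)) d.X := by
  have : f i ≠ g i := by revert i; decide
  simp [d.nm, d.inj.eq_iff, this]

def A (i : Fin 4) : Vt α k := ⟨insert (d.pt (f i)) (insert (d.pt (g i)) d.X), by
  rw [card_insert_of_notMem (d.nm2 i), card_insert_of_notMem (d.nm _), d.cX]⟩

def B (e : Bool) (i : Fin 4) : Vt α k := if e then d.A i else co d.h (d.A i)

def δ (k : ℕ) (e : Bool) : ZMod 2 := if e then 0 else k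

theorem L_A (w : α → ZMod 2) (i : Fin 4) :
    L w (d.A i).1 = w (d.pt (f i)) + (w (d.pt (g i)) + L w d.X) := by
  unfold A
  rw [L_ins _ (d.nm2 i), L_ins _ (d.nm _)]

theorem chi_A (i a : Fin 4) : χ (d.A i).1 (d.pt a) = μ i a := by
  simp [χ, A, μ, d.nm, d.inj.eq_iff]

theorem co_B (e : Bool) (i : Fin 4) : co d.h (d.B e i) = d.B (!e) i := by
  cases e
  · exact Subtype.ext (by simp [B, co])
  · rfl

theorem L_B (e : Bool) (i : Fin 4) (v : Vt α k) :
    L (χ (d.B e i).1) v.1 = L (χ (d.A i).1) v.1 + δ k e := by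
  cases e
  · simp [B, co, δ, L_compl, v.2]
  · simp [B, δ]

theorem A_inj {i j : Fin 4} (h : d.A i = d.A j) : i = j := by
  have : ∀ a, μ i a = μ j a := fun a => by rw [← d.chi_A, ← d.chi_A, h]
  clear h; revert i j; decide

theorem B_inj {e e' : Bool} {i j : Fin 4} (h : d.B e i = d.B e' j) : e = e' ∧ i = j := by
  obtain ⟨x, hx⟩ := card_pos.1 (show 0 < #d.X by have := d.cX; have := d.hk; omega)
  have m : ∀ e i, x ∈ (d.B e i).1 ↔ e = true := fun e i => by
    cases e <;> simp [B, A, co, hx]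
  have : e = e' := by
    have h1 := m e i
    rw [h, m] at h1
    exact Bool.eq_iff_iff.2 h1.symm
  subst this
  refine ⟨rfl, d.A_inj ?_⟩
  cases e
  · exact Subtype.ext (by simpa [B, co] using h)
  · exact h

theorem L_BB (e e' : Bool) (i j : Fin 4) : L (χ (d.B e i).1) (d.B e' j).1 =
    (μ j (f i) + μ j (g i)) + (k + δ k e + δ k e') := by
  have : L (χ (d.A j).1) d.X = k := by
    have h := congrArg (Nat.cast : ℕ → ZMod 2) d.cX
    have : (2 : ZMod 2) = 0 := by decide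
    push_cast at h
    rw [L_chi, inter_eq_right.2 (fun x hx => by simp [A, hx]), ← h, this, add_zero]
  rw [L_B, L_comm, L_B, L_A, chi_A, chi_A, this]
  ring

def C (e : Bool) : Finset (Vt α k) := univ.image (d.B e)

theorem sum_C (e : Bool) (F : Vt α k → ℝ) : ∑ w ∈ d.C e, F w = ∑ i, F (d.B e i) :=
  sum_image fun _ _ _ _ h => (d.B_inj h).2

def s (y : Fin 4 → ZMod 2) : ZMod 2 := (y 1 + y 2) + (y 0 + y 3) + (y 1 + y 2) * (y 0 + y 3)

def σ (v : Finset α) : ZMod 2 := s fun a => χ v (d.pt a)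

def In (u : Vt α k) : Prop := ∃ e, u ∈ d.C e

theorem In_iff (u : Vt α k) : d.In u ↔ ∃ e i, d.B e i = u := by simp [In, C]

def T (u v : Vt α k) : Prop := d.In u ∧ ¬ d.In v ∧ d.σ v.1 = 1

def swi (G : SimpleGraph (Vt α k)) : SimpleGraph (Vt α k) where
  Adj u v := Xor (G.Adj u v) (d.T u v ∨ d.T v u)
  symm := ⟨fun u v h => by rw [G.adj_comm, or_comm]; exact h⟩
  loopless := ⟨fun u h => by unfold Xor T at h; simp at h; tauto⟩

theorem adj_same (G : SimpleGraph (Vt α k)) {u v : Vt α k} (h : d.In u ↔ d.In v) :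
    (d.swi G).Adj u v ↔ G.Adj u v := by
  have : ¬ (d.T u v ∨ d.T v u) := by unfold T; tauto
  exact ⟨fun h => h.elim (·.1) fun h => (this h.1).elim, fun h => Or.inl ⟨h, this⟩⟩

variable {G : SimpleGraph (Vt α k)}
  (hG : ∀ u v, G.Adj u v ↔ v ≠ u ∧ v ≠ co d.h u ∧ L (χ u.1) v.1 = 0)
include hG

theorem adj_out {u v : Vt α k} (hu : d.In u) (hv : ¬ d.In v) :
    (G.Adj u v ↔ L (χ u.1) v.1 = 0) ∧ ((d.swi G).Adj u v ↔ L (χ u.1) v.1 + d.σ v.1 = 0) := by
  obtain ⟨e, i, rfl⟩ := (d.In_iff _).1 hu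
  have h1 : G.Adj (d.B e i) v ↔ L (χ (d.B e i).1) v.1 = 0 := by
    rw [hG, d.co_B]
    exact ⟨fun h => h.2.2, fun h => ⟨fun h' => hv (h' ▸ hu),
      fun h' => hv ((d.In_iff _).2 ⟨_, _, h'.symm⟩), h⟩⟩
  refine ⟨h1, ?_⟩
  simp only [swi, T, h1, hu, hv, Xor, true_and, false_and, or_false, not_false_eq_true]
  generalize L _ _ = x
  generalize d.σ v.1 = y
  revert x y; decide

theorem cosp [DecidableRel G.Adj] [DecidableRel (d.swi G).Adj] :
    ((d.swi G).adjMatrix ℝ).charpoly = (G.adjMatrix ℝ).charpoly := by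
  refine GM.gm d.C ?_ (fun e => ?_) _ _ (G.transpose_adjMatrix) (d.swi G).transpose_adjMatrix
    (fun u v hu hv => ?_) (fun e u v hu hv => ?_) (fun e e' u v hu hv => ?_)
    (fun e e' u v hu hv => ?_)
  · refine disjoint_left.2 fun x h1 h2 => ?_
    obtain ⟨i, -, rfl⟩ := mem_image.1 h1
    obtain ⟨j, -, h⟩ := mem_image.1 h2
    simpa using (d.B_inj h).1
  · rw [C, card_image_of_injective _ fun _ _ h => (d.B_inj h).2]; simp
  · have h1 : ¬ d.In u := by simpa [In] using hu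
    have h2 : ¬ d.In v := by simpa [In] using hv
    simp only [SimpleGraph.adjMatrix_apply, d.adj_same G (show d.In u ↔ d.In v by tauto)]
  · have h2 : ¬ d.In v := by simpa [In] using hv
    have h3 : ∀ j, d.In (d.B e j) := fun j => (d.In_iff _).2 ⟨_, _, rfl⟩
    obtain ⟨i, -, rfl⟩ := mem_image.1 hu
    have e1 : ∀ j, L (χ (d.B e j).1) v.1 =
        χ v.1 (d.pt (f j)) + (χ v.1 (d.pt (g j)) + (L (χ v.1) d.X + δ k e)) := fun j => by
      rw [L_B, L_comm, L_A]; ring
    rw [sum_C]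
    simp only [SimpleGraph.adjMatrix_apply, (d.adj_out hG (h3 _) h2).1,
      (d.adj_out hG (h3 _) h2).2, e1, σ]
    generalize L (χ v.1) d.X + δ k e = x
    have : ∀ (y : Fin 4 → ZMod 2) (x : ZMod 2) (i : Fin 4),
        2 * ((if y (f i) + (y (g i) + x) + s y = 0 then 1 else 0) +
          if y (f i) + (y (g i) + x) = 0 then 1 else 0) =
        ∑ j, if y (f j) + (y (g j) + x) = 0 then (1 : ℤ) else 0 := by decide
    have h := congrArg (Int.cast : ℤ → ℝ) (this (fun a => χ v.1 (d.pt a)) x i)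
    push_cast at h
    linarith
  · have h1 : d.In u := ⟨_, hu⟩
    have h2 : d.In v := ⟨_, hv⟩
    simp only [SimpleGraph.adjMatrix_apply, d.adj_same G (show d.In u ↔ d.In v by tauto)]
  · obtain ⟨i, -, rfl⟩ := mem_image.1 hu
    obtain ⟨j, -, rfl⟩ := mem_image.1 hv
    have e1 : ∀ e e' i j, G.Adj (d.B e i) (d.B e' j) ↔
        j ≠ i ∧ (μ j (f i) + μ j (g i)) + (k + δ k e + δ k e') = 0 := fun e e' i j => by
      rw [hG, co_B, L_BB]
      refine ⟨fun h => ⟨?_, h.2.2⟩, fun h =>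
        ⟨fun h' => h.1 (d.B_inj h').2, fun h' => h.1 (d.B_inj h').2, h.2⟩⟩
      rintro rfl
      have h1 := h.1
      have h2 := h.2.1
      cases e <;> cases e' <;> simp at h1 h2
    rw [sum_C, sum_C]
    simp only [SimpleGraph.adjMatrix_apply, e1, add_right_comm _ (δ k e') (δ k e)]
    generalize k + δ k e + δ k e' = x
    have : ∀ (x : ZMod 2) (i j : Fin 4),
        (∑ l, if j ≠ l ∧ μ j (f l) + μ j (g l) + x = 0 then (1 : ℤ) else 0) =
        ∑ l, if i ≠ l ∧ μ i (f l) + μ i (g l) + x = 0 then (1 : ℤ) else 0 := by decide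
    exact_mod_cast this x i j

end D

end Pool.Agent.H27.JN
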