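import Pool.Agent.H27.JN2

set_option autoImplicit false

namespace Pool.Agent.H27.JN

open Finset

variable {α : Type*} [Fintype α] [DecidableEq α] {k : ℕ}

namespace D

variable (d : D α k)

open Classical in
noncomputable def ε (u : Vt α k) : ZMod 2 := if d.In u then 1 else 0

theorem ad_swi {G : SimpleGraph (Vt α k)}
    (hG : ∀ u v, G.Adj u v ↔ v ≠ u ∧ v ≠ co d.h u ∧ L (χ u.1) v.1 = 0) {u v : Vt α k}
    (hv : ¬ d.In v) (h1 : v ≠ u) (h2 : v ≠ co d.h u) :
    ad (d.swi G) u v = 1 + L (χ u.1) v.1 + d.ε u * d.σ v.1 := by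
  unfold ε
  by_cases hu : d.In u
  · unfold ad
    rw [(d.adj_out hG hu hv).2, if_pos hu, one_mul, add_assoc]
    generalize L _ _ + _ = x
    have : ∀ x : ZMod 2, x = 0 ∧ 1 = 1 + x ∨ x ≠ 0 ∧ 0 = 1 + x := by decide
    rcases this x with h | h
    · rw [if_pos h.1, ← h.2]
    · rw [if_neg h.1, ← h.2]
  · rw [if_neg hu, zero_mul, add_zero, ← ad_eq d.h hG h1 h2]
    unfold ad
    rw [d.adj_same G (by tauto)]

include d in
theorem pick (E : Finset (Vt α k)) (hE : #E ≤ 22) (T : Finset α) (hT : #T ≤ 6) :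
    ∃ Y : Finset α, (∀ t ∈ T, t ∉ Y) ∧ ∀ x ∈ T, ∀ y ∈ T, x ≠ y →
      ∃ v : Vt α k, v ∉ E ∧ v.1 = insert x (insert y Y) := by
  have hk := d.hk
  obtain ⟨Y, h1, h2, h3⟩ := cnt T (k - 2) E (by
    have := ch 8 5 (k - 7)
    have h2 : (8 + 2 * (k - 7)).choose (k - 2) ≤ (Fintype.card α - #T).choose (k - 2) :=
      Nat.choose_le_choose _ (by rw [d.h]; omega)
    rw [show 5 + (k - 7) = k - 2 by omega, show Nat.choose 8 5 = 56 by decide] at this
    omega)
  refine ⟨Y, h1, fun x hx y hy hxy => ⟨⟨insert x (insert y Y), ?_⟩, h3 _ ?_, rfl⟩⟩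
  · rw [card_insert_of_notMem (by simp [hxy, h1 x hx]), card_insert_of_notMem (h1 y hy), h2]
    omega
  · simp only [insert_sdiff_of_mem _ hx, insert_sdiff_of_mem _ hy]
    exact sdiff_eq_self_of_disjoint (disjoint_right.2 h1)

theorem key (b : Vt α k) (hb : ∀ a, d.pt a ∉ b.1) (e : Bool) (i : Fin 4) (y : Vt α k)
    (κ : ZMod 2) (h : ∀ t, χ (d.A 0).1 t + χ b.1 t + χ (d.B e i).1 t + χ y.1 t = κ) :
    i = 0 ∧ (y = b ∨ y = co d.h b) := by
  have z : ∀ z : Vt α k, (∀ t, χ (d.A 0).1 t + χ b.1 t + χ (d.A i).1 t + χ z.1 t = 0) →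
      i = 0 ∧ z = b := fun z hz => by
    have : b.1 ⊆ z.1 := fun t ht => by
      have h1 : ∀ a, t ≠ d.pt a := fun a h => hb a (h ▸ ht)
      have := hz t
      by_contra h2
      by_cases h3 : t ∈ d.X <;> simp [χ, A, h1, ht, h2, h3] at this
      exact absurd this (by decide)
    have hz2 : z = b := Subtype.ext (eq_of_subset_of_card_le this (by rw [z.2, b.2])).symm
    subst hz2
    refine ⟨d.A_inj (Subtype.ext (chi_inj fun t => ?_)), rfl⟩
    have := hz t
    revert this
    generalize χ (d.A 0).1 t = p, χ z.1 t = q, χ (d.A i).1 t = r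
    revert p q r; decide
  have h2 : ∃ κ' : ZMod 2, ∀ t, χ (d.A 0).1 t + χ b.1 t + χ (d.A i).1 t + χ y.1 t = κ' := by
    cases e
    · exact ⟨κ - 1, fun t => by rw [← h t]; simp only [B, co, Bool.false_eq_true, if_false, chi_compl]; ring⟩
    · exact ⟨κ, h⟩
  obtain ⟨κ', h2⟩ := h2
  have : ∀ x : ZMod 2, x = 0 ∨ x + 1 = 0 := by decide
  rcases this κ' with h0 | h0
  · exact (z y fun t => (h2 t).trans h0).imp_right Or.inl
  · refine (z (co d.h y) fun t => ?_).imp_right fun h => Or.inr ?_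
    · rw [← h0, ← h2 t]; simp only [co, chi_compl]; ring
    · rw [← h]; exact Subtype.ext (by simp [co])

theorem not_Pp {G : SimpleGraph (Vt α k)}
    (hG : ∀ u v, G.Adj u v ↔ v ≠ u ∧ v ≠ co d.h u ∧ L (χ u.1) v.1 = 0) : ¬ Pp (d.swi G) := by
  intro hP
  have hk := d.hk
  obtain ⟨b', hb1, hb2⟩ := exists_subset_card_eq (s := (univ.image d.pt)ᶜ) (n := k) (by
    rw [card_compl, card_image_of_injective _ d.inj, d.h]; simp; omega)
  set b : Vt α k := ⟨b', hb2⟩
  have hb : ∀ a, d.pt a ∉ b.1 := fun a h => by simpa using hb1 h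
  have hbI : ¬ d.In b := fun h => by
    obtain ⟨e, i, h⟩ := (d.In_iff _).1 h
    have h1 : ∀ a, χ (d.B e i).1 (d.pt a) = 0 := fun a => by rw [h]; exact if_neg (hb a)
    cases e
    · simp only [B, co, Bool.false_eq_true, if_false, chi_compl, chi_A] at h1
      revert h1; clear h; revert i; decide
    · simp only [B, if_true, chi_A] at h1
      revert h1; clear h; revert i; decide
  have haI : d.In (d.A 0) := (d.In_iff _).2 ⟨true, 0, rfl⟩
  obtain ⟨S, hS, hP⟩ := hP (d.A 0) b
  obtain ⟨c, hc, hc'⟩ := exists_mem_notMem_of_card_lt_card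
    ((card_le_four (a := d.A 0) (b := co d.h (d.A 0)) (c := b) (d := co d.h b)).trans_lt hS)
  obtain ⟨y, E, hE, hP⟩ := hP c hc
  simp only [mem_insert, mem_singleton, not_or] at hc'
  set w : α → ZMod 2 := fun t => χ (d.A 0).1 t + χ b.1 t + χ c.1 t + χ y.1 t with hw
  obtain ⟨E', hE', hF⟩ : ∃ E' : Finset (Vt α k), #E' ≤ 22 ∧ ∀ v ∉ E',
      L w v.1 + (1 + d.ε c + d.ε y) * d.σ v.1 = 0 := by
    refine ⟨E ∪ (d.C true ∪ d.C false) ∪ ({b, c, y} ∪ ({b, c, y} : Finset _).image (co d.h)),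
      ?_, fun v hv => ?_⟩
    · have h1 := card_le_three (a := b) (b := c) (c := y)
      have h2 := card_image_le (s := ({b, c, y} : Finset _)) (f := co d.h)
      have h3 : ∀ e, #(d.C e) ≤ 4 := fun e => card_image_le.trans (by simp)
      have h4 := h3 true
      have h5 := h3 false
      refine (card_union_le _ _).trans ?_
      have := card_union_le E (d.C true ∪ d.C false)
      have := card_union_le (d.C true) (d.C false)
      have := card_union_le {b, c, y} (({b, c, y} : Finset _).image (co d.h))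
      omega
    · simp only [image_insert, image_singleton, mem_union, mem_insert, mem_singleton,
        not_or] at hv
      obtain ⟨⟨h0, hC⟩, ⟨h1, h2, h3⟩, h4, h5, h6⟩ := hv
      have hv : ¬ d.In v := by rintro ⟨_ | _, h⟩ <;> tauto
      have := hP v h0
      rw [d.ad_swi hG hv (fun h => hv (h ▸ haI))
        (fun h => hv ((d.In_iff _).2 ⟨false, 0, h.symm⟩)), d.ad_swi hG hv h1 h4,
        d.ad_swi hG hv h2 h5, d.ad_swi hG hv h3 h6, ε, ε, if_pos haI, if_neg hbI] at this
      have h4 : (4 : ZMod 2) = 0 := by decide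
      simp only [L, hw, sum_add_distrib] at this ⊢
      linear_combination this - h4
  have two : ∀ x : ZMod 2, x = 0 ∨ x = 1 := by decide
  rcases two (1 + d.ε c + d.ε y) with h0 | h0
  · have hc0 : ∀ i j, w i = w j := fun i j => by
      by_cases hij : i = j
      · rw [hij]
      obtain ⟨l, -, hl⟩ := exists_mem_notMem_of_card_lt_card (s := {i, j}) (t := univ)
        (card_le_two.trans_lt (by rw [card_univ, d.h]; omega))
      simp only [mem_insert, mem_singleton, not_or] at hl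
      obtain ⟨Y, h1, h2⟩ := d.pick E' hE' {i, j, l} (card_le_three.trans (by norm_num))
      obtain ⟨u, hu, eu⟩ := h2 i (by simp) l (by simp) (Ne.symm hl.1)
      obtain ⟨v, hv, ev⟩ := h2 j (by simp) l (by simp) (Ne.symm hl.2)
      have a1 := hF u hu
      have a2 := hF v hv
      rw [h0, zero_mul, eu, L_ins _ (by simp [Ne.symm hl.1, h1 i])] at a1
      rw [h0, zero_mul, ev, L_ins _ (by simp [Ne.symm hl.2, h1 j])] at a2
      linear_combination a1 - a2
    by_cases h1 : d.In c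
    · obtain ⟨e, i, rfl⟩ := (d.In_iff _).1 h1
      obtain ⟨rfl, -⟩ := d.key b hb e i y _ fun t => hc0 t (d.pt 0)
      cases e
      exacts [hc'.2.1 rfl, hc'.1 rfl]
    · by_cases h2 : d.In y
      · obtain ⟨e, i, rfl⟩ := (d.In_iff _).1 h2
        have := (d.key b hb e i c (w (d.pt 0)) fun t => by rw [← hc0 t, hw]; ring).2
        tauto
      · simp [ε, h1, h2] at h0
  · obtain ⟨i, hi, j, hj, hij⟩ := one_lt_card.1 (show 1 < #d.X by have := d.cX; omega)
    have ni : ∀ a, d.pt a ≠ i := fun a h => d.nm a (h ▸ hi)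
    have nj : ∀ a, d.pt a ≠ j := fun a h => d.nm a (h ▸ hj)
    obtain ⟨Y, h1, h2⟩ := d.pick E' hE' (insert i (insert j (univ.image d.pt))) (by
      have h1 := card_insert_le i (insert j (univ.image d.pt))
      have h2 := card_insert_le j (univ.image d.pt)
      have h3 : #(univ.image d.pt) ≤ 4 := card_image_le.trans (by simp)
      omega)
    have hY : ∀ a, d.pt a ∉ Y := fun a => h1 _ (by simp)
    have h3 : ∀ x ∈ insert i (insert j (univ.image d.pt)),
        ∀ y ∈ insert i (insert j (univ.image d.pt)), x ≠ y → w x + (w y + L w Y) +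
          s (fun a => if d.pt a = x ∨ d.pt a = y then 1 else 0) = 0 := fun x hx y hy hxy => by
      obtain ⟨v, hv, ev⟩ := h2 x hx y hy hxy
      have := hF v hv
      rw [h0, one_mul, ev, L_ins _ (by simp [hxy, h1 x hx]), L_ins _ (h1 y hy)] at this
      simpa [σ, χ, hY] using this
    have a1 := h3 (d.pt 0) (by simp) (d.pt 1) (by simp) (by simp [d.inj.eq_iff])
    have a2 := h3 (d.pt 0) (by simp) i (by simp) (ni _)
    have a3 := h3 (d.pt 1) (by simp) j (by simp) (nj _)
    have a4 := h3 i (by simp) j (by simp) hij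
    simp [s, ni, nj, d.inj.eq_iff] at a1 a2 a3 a4
    revert a1 a2 a3 a4
    generalize w (d.pt 0) = p, w (d.pt 1) = q, w i = r, w j = t, L w Y = x
    revert p q r t x; decide

end D

theorem main (d : D α k) {G : SimpleGraph (Vt α k)} [DecidableRel G.Adj]
    (hG : ∀ u v, G.Adj u v ↔ v ≠ u ∧ v ≠ co d.h u ∧ L (χ u.1) v.1 = 0) :
    ∃ (H : SimpleGraph (Vt α k)) (_ : DecidableRel H.Adj),
      (H.adjMatrix ℝ).charpoly = (G.adjMatrix ℝ).charpoly ∧ IsEmpty (H ≃g G) := by
  classical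
  exact ⟨d.swi G, _, d.cosp hG, ⟨fun f => d.not_Pp hG (Pp_iso f (Pp_J d.hk d.h hG))⟩⟩

end Pool.Agent.H27.JN
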