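import Mathlib

set_option autoImplicit false

namespace Pool.Agent.H27.NB

open Finset Real

lemma logsum {ι : Type} (T : Finset ι) (F N : ι → ℝ) (hF : ∀ w ∈ T, 0 < F w) (hN : ∀ w ∈ T, 0 < N w)
    (hT : T.Nonempty) : ∑ w ∈ T, F w * (log (N w) - log (F w) + log (∑ w ∈ T, F w)) ≤
      (∑ w ∈ T, F w) * log (∑ w ∈ T, N w) := by
  have hP := sum_pos hF hT
  have hQ := sum_pos hN hT
  set P := ∑ w ∈ T, F w with hP'
  set Q := ∑ w ∈ T, N w with hQ'
  have : ∀ w ∈ T, F w * (log (N w) - log (F w) + log P) ≤ F w * log Q + (N w * (P / Q) - F w) := by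
    intro w hw
    have h1 := hF w hw
    have h2 := hN w hw
    have h3 := log_le_sub_one_of_pos (show 0 < N w * P / (F w * Q) by positivity)
    rw [log_div (by positivity) (by positivity), log_mul h2.ne' hP.ne', log_mul h1.ne' hQ.ne'] at h3
    have h4 : F w * (N w * P / (F w * Q) - 1) = N w * (P / Q) - F w := by field_simp
    nlinarith
  refine (sum_le_sum this).trans ?_
  rw [sum_add_distrib, sum_sub_distrib, ← sum_mul, ← sum_mul, ← hP', ← hQ', mul_div_cancel₀ _ hQ.ne']
  linarith

variable {V : Type} [Fintype V] [DecidableEq V] (G : SimpleGraph V) [DecidableRel G.Adj]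

/-- number of non-backtracking continuations of the oriented edge `(u, v)` -/
def N : ℕ → V → V → ℕ
  | 0, _, _ => 1
  | r + 1, u, v => ∑ w ∈ (G.neighborFinset v).erase u, N r v w

lemma ne_erase (h2 : ∀ v, 2 ≤ G.degree v) (u v : V) : ((G.neighborFinset v).erase u).Nonempty := by
  rw [← card_pos]
  have := pred_card_le_card_erase (s := G.neighborFinset v) (a := u)
  have := h2 v
  rw [← SimpleGraph.card_neighborFinset_eq_degree] at this
  omega

lemma N_pos (h2 : ∀ v, 2 ≤ G.degree v) (r : ℕ) (u v : V) : 0 < N G r u v := by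
  induction r generalizing u v with
  | zero => exact one_pos
  | succ r ih => exact sum_pos (fun w _ => ih v w) (ne_erase G h2 u v)

lemma swap1 (f : V → V → ℝ) : ∑ v, ∑ u ∈ G.neighborFinset v, f v u =
    ∑ v, ∑ u ∈ G.neighborFinset v, f u v :=
  sum_comm' fun x y => by simp [G.adj_comm]

omit [Fintype V] in
lemma swap2 (s : Finset V) (f : V → V → ℝ) : ∑ u ∈ s, ∑ w ∈ s.erase u, f u w =
    ∑ u ∈ s, ∑ w ∈ s.erase u, f w u :=
  sum_comm' fun x y => by simp only [mem_erase]; tauto

lemma entropy (h2 : ∀ v, 2 ≤ G.degree v) (p : V → V → ℝ) (F : V → V → V → ℝ)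
    (ps : ∀ u v, p u v = p v u) (Fs : ∀ v u w, F v u w = F v w u)
    (F0 : ∀ v u w, G.Adj v u → G.Adj v w → 0 < F v u w)
    (Fp : ∀ v u, G.Adj v u → ∑ w ∈ (G.neighborFinset v).erase u, F v u w = p v u) (r : ℕ) :
    r * ∑ v, ∑ u ∈ G.neighborFinset v, ∑ w ∈ (G.neighborFinset v).erase u,
      F v u w * (log (p v u) - log (F v u w)) ≤
      ∑ v, ∑ u ∈ G.neighborFinset v, p v u * log (N G r u v) := by
  induction r with
  | zero => simp [N]
  | succ r ih =>
    have h1 : ∑ v, ∑ u ∈ G.neighborFinset v, p v u * log (N G r u v) =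
        ∑ v, ∑ u ∈ G.neighborFinset v, ∑ w ∈ (G.neighborFinset v).erase u,
          F v u w * log (N G r v w) := by
      rw [swap1]
      refine sum_congr rfl fun v _ => ?_
      rw [swap2]
      refine sum_congr rfl fun u hu => ?_
      rw [← sum_mul, ps, ← Fp v u ((G.mem_neighborFinset _ _).1 hu)]
      simp only [Fs v u]
    rw [Nat.cast_succ, add_mul, one_mul]
    refine (add_le_add_left (ih.trans h1.le) _).trans ?_
    simp only [← sum_add_distrib]
    refine sum_le_sum fun v _ => sum_le_sum fun u hu => ?_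
    have hu := (G.mem_neighborFinset _ _).1 hu
    have := logsum ((G.neighborFinset v).erase u) (F v u) (fun w => N G r v w)
      (fun w hw => F0 v u w hu ((G.mem_neighborFinset _ _).1 (mem_of_mem_erase hw)))
      (fun w _ => by exact_mod_cast N_pos G h2 r v w) (ne_erase G h2 u v)
    rw [Fp v u hu] at this
    simp only [N, Nat.cast_sum]
    refine le_trans (le_of_eq (sum_congr rfl fun w _ => by ring)) this

lemma girth {R : ℕ} (hg : ∀ a (c : G.Walk a a), c.IsCycle → 2 * R < c.length) {a : V} (r : ℕ) {v : V}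
    (q : G.Walk v a) (hq : q.IsPath) (hr : q.length + r ≤ R) :
    ∃ Z : Finset V, Z.card = N G r (q.getVert 1) v ∧ ∀ z ∈ Z, ∃ s : G.Walk z a, s.IsPath ∧
      s.length = q.length + r ∧ ∀ i, s.getVert (r + i) = q.getVert i := by
  induction r generalizing v with
  | zero => exact ⟨{v}, rfl, fun z hz => by
      obtain rfl := mem_singleton.1 hz
      exact ⟨q, hq, rfl, fun i => by rw [zero_add]⟩⟩
  | succ r ih =>
    have key : ∀ w, ∃ Z : Finset V, w ∈ (G.neighborFinset v).erase (q.getVert 1) →
        Z.card = N G r v w ∧ ∀ z ∈ Z, ∃ s : G.Walk z a, s.IsPath ∧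
        s.length = q.length + (r + 1) ∧ s.getVert r = w ∧ ∀ i, s.getVert (r + 1 + i) = q.getVert i := by
      intro w
      by_cases hw : w ∈ (G.neighborFinset v).erase (q.getVert 1)
      swap
      · exact ⟨∅, fun h => absurd h hw⟩
      obtain ⟨h1, h2⟩ := mem_erase.1 hw
      rw [SimpleGraph.mem_neighborFinset] at h2
      have h3 : w ∉ q.support := fun h => by
        by_cases e : q.takeUntil w h = SimpleGraph.Walk.cons h2 .nil
        · apply h1
          rw [← q.take_spec h, e]
          simp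
        · obtain ⟨_, -, -, c, hc, hl⟩ := (hq.takeUntil h).exists_isCycle_length_le_add_of_ne
            (by simp [h2.ne]) e
          have := hg _ c hc
          have := q.length_takeUntil_le h
          simp at hl
          omega
      obtain ⟨Z, hZ, h4⟩ := ih (SimpleGraph.Walk.cons h2.symm q)
        ((SimpleGraph.Walk.cons_isPath_iff _ _).2 ⟨hq, h3⟩) (by simp; omega)
      refine ⟨Z, fun _ => ⟨by simpa using hZ, fun z hz => ?_⟩⟩
      obtain ⟨s, a1, a2, a3⟩ := h4 z hz
      exact ⟨s, a1, by simp at a2; omega, by simpa using a3 0,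
        fun i => by simpa [add_assoc, add_comm 1 i] using a3 (i + 1)⟩
    choose Z hZ using key
    refine ⟨((G.neighborFinset v).erase (q.getVert 1)).biUnion Z, ?_, fun z hz => ?_⟩
    · rw [card_biUnion, N]
      · exact sum_congr rfl fun w hw => (hZ w hw).1
      · intro w hw w' hw' hne
        refine disjoint_left.2 fun z h1 h2 => hne ?_
        obtain ⟨s, a1, a2, a3, -⟩ := (hZ w hw).2 z h1
        obtain ⟨s', b1, b2, b3, -⟩ := (hZ w' hw').2 z h2
        by_cases e : s = s'
        · rw [← a3, ← b3, e]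
        · obtain ⟨_, -, -, c, hc, hl⟩ := a1.exists_isCycle_length_le_add_of_ne b1 e
          have := hg _ c hc
          omega
    · obtain ⟨w, hw, hz⟩ := mem_biUnion.1 hz
      obtain ⟨s, a1, a2, -, a3⟩ := (hZ w hw).2 z hz
      exact ⟨s, a1, a2, a3⟩

lemma N_le {r : ℕ} (hg : ∀ a (c : G.Walk a a), c.IsCycle → 2 * (r + 1) < c.length) {u v : V}
    (h : G.Adj v u) : N G r u v ≤ Fintype.card V := by
  obtain ⟨Z, hZ, -⟩ := girth G hg r (SimpleGraph.Walk.cons h .nil) (by simp [h.ne]) (by simp; omega)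
  simpa [← hZ] using hZ ▸ card_le_univ Z

end Pool.Agent.H27.NB
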