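import Mathlib

set_option autoImplicit false

namespace Pool.Agent.H27.Ladder

open Matrix Finset

def th : ℚ := 1 / 2 ^ 30
def p (j : ℕ) : ℚ := if j < 639 then 1 / 4 else if j = 639 then 17 * th else if j = 640 then 6 / 7 * th
  else if j = 641 then 4 / 7 * th else if j = 642 then th / 1000 else if j = 643 then th / 100 else 0
def v (j : ℕ) : ℚ := if j < 640 then 1 else if j = 640 then 22 else if j = 641 then 24
  else if j = 642 then 22 else if j = 643 then 1 else 10000
def q (j : ℕ) : ℚ := if j = 0 then 0 else p (j - 1)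
def d (j : ℕ) : ℚ := 1 - (q j * v (j - 1) + p j * v (j + 1)) / v j
abbrev G := ℚ × ℚ
def res (k : ℚ) (j : ℕ) (a b : G) : G :=
  ((1 - d j) * b.1 - th * b.2 - k - q j * a.1, (1 - d j) * b.2 + th * b.1 - q j * a.2)
def step (k : ℚ) (j : ℕ) (s : G × G) : G × G :=
  (s.2, ((res k j s.1 s.2).1 / p j, (res k j s.1 s.2).2 / p j))
def W (t k : ℚ) : ℕ → G × G
  | 0 => (0, (t, 0))
  | j + 1 => step k j (W t k j)
def sz (s : G × G) : ℕ := s.2.1.den + s.2.2.den + s.2.1.num.natAbs + s.2.2.num.natAbs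
def iter (k : ℚ) : ℕ → ℕ → G × G → G × G
  | 0, _, s => s
  | f + 1, j, s => cond (Nat.beq (sz s) 0) s (iter k f (j + 1) (step k j s))
def mul (x y : G) : G := (x.1 * y.1 - x.2 * y.2, x.1 * y.2 + x.2 * y.1)
def cr (x y : G) : ℚ := x.1 * y.2 - x.2 * y.1
def fin (k : ℚ) (s : G × G) : G × G × G × G :=
  let s2 := step k 641 (step k 640 s)
  let s4 := step k 643 (step k 642 s2)
  (s.2, s2.2, s4.1, res k 644 s4.1 s4.2)
def ok (a b : G × G × G × G) : Prop :=
  let u0 := mul b.2.2.2 a.1 - mul a.2.2.2 b.1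
  let u2 := mul b.2.2.2 a.2.1 - mul a.2.2.2 b.2.1
  let u3 := mul b.2.2.2 a.2.2.1 - mul a.2.2.2 b.2.2.1
  b.2.2.2 ≠ 0 ∧ cr u0 u2 < 0 ∧ cr u2 u3 < 0 ∧ cr u3 u0 < 0

theorem chk : ok (fin 1 (iter 1 640 0 (0, (0, 0)))) (fin 0 (iter 0 640 0 (0, (1, 0)))) := by
  unfold ok; decide +kernel

lemma iter_eq (t k : ℚ) (f : ℕ) : ∀ j, iter k f j (W t k j) = W t k (j + f) := by
  induction f with
  | zero => intro j; rfl
  | succ f ih =>
    intro j
    have h : Nat.beq (sz (W t k j)) 0 = false := by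
      rw [← Bool.not_eq_true, Nat.beq_eq]
      have := (W t k j).2.1.den_pos
      unfold sz; omega
    rw [iter, h, cond_false, show j + (f + 1) = j + 1 + f by ring, ← ih]; rfl

def R (t k : ℚ) : G := res k 644 (W t k 644).1 (W t k 644).2
def u (j : ℕ) : G := mul (R 1 0) (W 0 1 j).2 - mul (R 0 1) (W 1 0 j).2

lemma chk' : R 1 0 ≠ 0 ∧ cr (u 640) (u 642) < 0 ∧ cr (u 642) (u 643) < 0 ∧
    cr (u 643) (u 640) < 0 := by
  have h := chk
  have h1 : iter 1 640 0 (0, (0, 0)) = W 0 1 640 := iter_eq 0 1 640 0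
  have h2 : iter 0 640 0 (0, (1, 0)) = W 1 0 640 := iter_eq 1 0 640 0
  rw [h1, h2] at h
  exact h

lemma pos : ∀ j < 645, 0 < d j ∧ 0 < v j ∧ 0 ≤ q j ∧ q j + p j ≤ 1 ∧ (j < 644 → 0 < p j) := by
  decide +kernel

noncomputable def C (x : G) : ℂ := ⟨x.1, x.2⟩
noncomputable def s0 : ℂ := ⟨1, (th : ℝ)⟩

lemma C_mul (x y : G) : C (mul x y) = C x * C y := by
  apply Complex.ext <;> simp [C, mul]
lemma C_sub (x y : G) : C (x - y) = C x - C y := by
  apply Complex.ext <;> simp [C]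
lemma C_res (k : ℚ) (j : ℕ) (a b : G) :
    C (res k j a b) = (s0 - d j) * C b - k - q j * C a := by
  apply Complex.ext <;> simp [C, res, s0] <;> ring

lemma qW (t k : ℚ) (j : ℕ) : (q j : ℂ) * C (W t k j).1 = q j * C (W t k (j - 1)).2 := by
  rcases j with _ | j
  · simp [q]
  · rfl

lemma recW (t k : ℚ) (j : ℕ) (hj : j < 644) : (p j : ℂ) * C (W t k (j + 1)).2 =
    (s0 - d j) * C (W t k j).2 - k - q j * C (W t k (j - 1)).2 := by
  have hp : (p j : ℝ) ≠ 0 := by exact_mod_cast ((pos j (by omega)).2.2.2.2 hj).ne'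
  rw [← qW, ← C_res]
  apply Complex.ext <;> simp [C, W, step] <;> field_simp

lemma eqn (j : ℕ) (hj : j < 645) :
    q j * C (u (j - 1)) + d j * C (u j) + p j * C (u (j + 1)) = s0 * C (u j) - C (R 1 0) := by
  simp only [u, C_sub, C_mul]
  rcases Nat.lt_succ_iff_lt_or_eq.mp hj with h | rfl
  · have h1 := recW 0 1 j h
    have h2 := recW 1 0 j h
    push_cast at h1 h2
    linear_combination C (R 1 0) * h1 - C (R 0 1) * h2
  · have h1 : C (R 0 1) = _ := C_res 1 644 _ _
    have h2 : C (R 1 0) = _ := C_res 0 644 _ _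
    rw [qW] at h1 h2
    have h3 : p 644 = 0 := by decide +kernel
    rw [h3]
    push_cast at h1 h2 ⊢
    linear_combination C (R 1 0) * h1 - C (R 0 1) * h2

def e (r s : ℕ) : ℚ := (if s + 1 = r then p s else 0) + (if s = r then d s else 0) +
  if r + 1 = s then p r else 0

def P : Matrix (Fin 645) (Fin 645) ℝ := fun r s => e r s

lemma sum_e {K : Type} [Field K] [CharZero K] (x : ℕ → K) (j : ℕ) (hj : j < 645) :
    ∑ i : Fin 645, (e j i : K) * x i = q j * x (j - 1) + d j * x j + p j * x (j + 1) := by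
  rw [Fin.sum_univ_eq_sum_range (fun i => (e j i : K) * x i) 645]
  generalize hn : 645 = n at *
  simp only [e, Rat.cast_add, add_mul, sum_add_distrib, apply_ite (Rat.cast : ℚ → K), ite_mul,
    Rat.cast_zero, zero_mul, sum_ite_eq, sum_ite_eq', mem_range, hj, if_true]
  congr 2
  · rcases j with _ | j
    · simp [q]
    · simp only [add_left_inj, sum_ite_eq', mem_range, show j < n by omega, if_true]; rfl
  · split_ifs with h
    · rfl
    · obtain rfl : j = 644 := by omega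
      rw [show p 644 = 0 by decide +kernel]; simp

lemma Pv {K : Type} [Field K] [CharZero K] (j : ℕ) (hj : j < 645) :
    ∑ i : Fin 645, (e j i : K) * v i = v j := by
  rw [sum_e (fun i => (v i : K)) j hj]
  have h : (v j : K) ≠ 0 := by exact_mod_cast (pos j hj).2.1.ne'
  simp only [d]; push_cast; field_simp; ring

lemma e_symm (r s : ℕ) : e r s = e s r := by
  unfold e; split_ifs <;> first | omega | (subst_vars; simp)

lemma e_nn (r s : ℕ) (hr : r < 645) (hs : s < 645) : 0 ≤ e r s := by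
  have h1 := pos r hr
  have h2 := pos s hs
  refine add_nonneg (add_nonneg ?_ ?_) ?_ <;> split_ifs
  exacts [(h2.2.2.2.2 (by omega)).le, le_rfl, h2.1.le, le_rfl, (h1.2.2.2.2 (by omega)).le, le_rfl]

end Pool.Agent.H27.Ladder
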