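import Mathlib

set_option autoImplicit false

namespace Pool.Agent.H27.LcmWin

open Finset

lemma key (a b c : ℕ) (ha : 0 < a) (hab : a < b) (hbc : b < c) :
    a ^ 3 ≤ Nat.lcm (Nat.lcm a b) c * (c - a) ^ 3 := by
  have h1 : Nat.gcd a b ≤ c - a := by
    have : Nat.gcd a b ∣ b - a := Nat.dvd_sub (Nat.gcd_dvd_right _ _) (Nat.gcd_dvd_left _ _)
    have := Nat.le_of_dvd (by omega) this
    omega
  have h2 : Nat.gcd c a ≤ c - a := by
    have : Nat.gcd c a ∣ c - a := Nat.dvd_sub (Nat.gcd_dvd_left _ _) (Nat.gcd_dvd_right _ _)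
    exact Nat.le_of_dvd (by omega) this
  have h3 : Nat.gcd c b ≤ c - a := by
    have : Nat.gcd c b ∣ c - b := Nat.dvd_sub (Nat.gcd_dvd_left _ _) (Nat.gcd_dvd_right _ _)
    have := Nat.le_of_dvd (by omega) this
    omega
  have h4 : Nat.gcd c (Nat.lcm a b) ≤ Nat.gcd c a * Nat.gcd c b := by
    have h5 : Nat.gcd c (Nat.lcm a b) ∣ Nat.gcd c (a * b) :=
      Nat.gcd_dvd_gcd_of_dvd_right _ (Nat.lcm_dvd_mul a b)
    have h6 : Nat.gcd c (a * b) ∣ Nat.gcd c a * Nat.gcd c b := Nat.gcd_mul_right_dvd_mul_gcd c a b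
    exact Nat.le_of_dvd (Nat.mul_pos (Nat.gcd_pos_of_pos_left _ (by omega))
      (Nat.gcd_pos_of_pos_left _ (by omega))) (h5.trans h6)
  have h7 : Nat.gcd a b * Nat.lcm a b = a * b := Nat.gcd_mul_lcm a b
  have h8 : Nat.gcd c (Nat.lcm a b) * Nat.lcm (Nat.lcm a b) c = c * Nat.lcm a b := by
    rw [Nat.lcm_comm (Nat.lcm a b) c]; exact Nat.gcd_mul_lcm _ _
  generalize Nat.lcm (Nat.lcm a b) c = L at *
  generalize Nat.lcm a b = l at *
  generalize Nat.gcd c l = g0 at *
  generalize Nat.gcd a b = g1 at *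
  generalize Nat.gcd c a = g2 at *
  generalize Nat.gcd c b = g3 at *
  generalize c - a = D at *
  have h9 : g0 ≤ D * D := h4.trans (Nat.mul_le_mul h2 h3)
  calc a ^ 3 = a * (a * a) := by ring
    _ ≤ c * (a * b) := Nat.mul_le_mul (by omega) (Nat.mul_le_mul le_rfl hab.le)
    _ = g1 * (c * l) := by rw [← h7]; ring
    _ = g1 * (g0 * L) := by rw [h8]
    _ ≤ D * ((D * D) * L) := Nat.mul_le_mul h1 (Nat.mul_le_mul h9 le_rfl)
    _ = L * D ^ 3 := by ring

lemma half_le (a b c m : ℕ) (ha : 0 < a) (hab : a < b) (hbc : b < c)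
    (hL : Nat.lcm (Nat.lcm a b) c < 8 ^ m) :
    ((1 : ℝ) / 2) ^ m ≤ 2 * (Real.log c - Real.log a) := by
  have hk := key a b c ha hab hbc
  obtain ⟨D, rfl⟩ : ∃ D, c = a + D := ⟨c - a, by omega⟩
  have hD : 0 < D := by omega
  rw [Nat.add_sub_cancel_left] at hk
  have h1 : a ^ 3 < (2 ^ m * D) ^ 3 := by
    calc a ^ 3 ≤ _ := hk
      _ < 8 ^ m * D ^ 3 := Nat.mul_lt_mul_of_pos_right hL (by positivity)
      _ = (2 ^ m * D) ^ 3 := by
        rw [mul_pow, ← pow_mul, mul_comm m 3, pow_mul]; norm_num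
  have h2 : a < 2 ^ m * D := lt_of_pow_lt_pow_left₀ 3 (by positivity) h1
  have h3 : a + D ≤ 2 * (2 ^ m * D) := by
    have : D ≤ 2 ^ m * D := Nat.le_mul_of_pos_left _ (by positivity)
    omega
  have haR : (0 : ℝ) < a := by exact_mod_cast ha
  have hDR : (0 : ℝ) < D := by exact_mod_cast hD
  have h3R : (a : ℝ) + D ≤ 2 * (2 ^ m * D) := by exact_mod_cast h3
  have h4 : 1 - ((a + D : ℝ) / a)⁻¹ ≤ Real.log ((a + D : ℝ) / a) :=
    Real.one_sub_inv_le_log_of_pos (by positivity)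
  rw [Real.log_div (by positivity) (by positivity), inv_div] at h4
  push_cast
  refine le_trans ?_ (mul_le_mul_of_nonneg_left h4 (by norm_num))
  have h5 : (1 : ℝ) - a / (a + D) = D / (a + D) := by field_simp; ring
  rw [h5, one_div, inv_pow, ← one_div, ← mul_div_assoc, div_le_div_iff₀ (by positivity) (by positivity)]
  nlinarith

lemma geo (S : Finset ℕ) (s : ℝ) (hs : 0 ≤ s) (h : ∀ m ∈ S, ((1 : ℝ) / 2) ^ m ≤ s) :
    ∑ m ∈ S, ((1 : ℝ) / 2) ^ m ≤ 2 * s := by
  rcases S.eq_empty_or_nonempty with rfl | hne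
  · simp; positivity
  · set m0 := S.min' hne with hm0
    have hsub : S ⊆ Finset.Ico m0 (S.max' hne + 1) := by
      intro m hm
      simp only [Finset.mem_Ico]
      exact ⟨S.min'_le m hm, Nat.lt_succ_of_le (S.le_max' m hm)⟩
    have h1 : ∑ m ∈ S, ((1 : ℝ) / 2) ^ m ≤ ∑ m ∈ Finset.Ico m0 (S.max' hne + 1), ((1 : ℝ) / 2) ^ m :=
      Finset.sum_le_sum_of_subset_of_nonneg hsub (fun _ _ _ => by positivity)
    have h2 := geom_sum_Ico_le_of_lt_one (x := (1 : ℝ) / 2) (m := m0) (n := S.max' hne + 1)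
      (by norm_num) (by norm_num)
    have h3 := h m0 (S.min'_mem hne)
    have h4 : ((1 : ℝ) / 2) ^ m0 / (1 - 1 / 2) = 2 * ((1 : ℝ) / 2) ^ m0 := by ring
    linarith

lemma tele (u : ℕ → ℝ) (N : ℕ) :
    ∑ i ∈ range N, (u (i + 3) - u (i + 1)) = u (N + 2) + u (N + 1) - u 2 - u 1 := by
  induction N with
  | zero => simp
  | succ n ih => rw [Finset.sum_range_succ, ih]; ring

theorem main :
    ¬ (∃ a : ℕ → ℕ, StrictMono a ∧ (∀ n, 0 < a n) ∧
      ∃ c : ℝ, 0 < c ∧ ∃ X : ℝ, ∀ x : ℝ, X ≤ x →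
        c * x ^ ((1 : ℝ) / 3) * Real.log x <
          (({i : ℕ | ((Nat.lcm (Nat.lcm (a (i + 1)) (a (i + 2))) (a (i + 3)) : ℕ) : ℝ) < x}.ncard : ℕ) : ℝ)) := by
  rintro ⟨a, hmono, hpos, c, hc, X, hX⟩
  obtain ⟨M, hM⟩ := exists_nat_gt (max X (16 / c))
  have hMX : X < M := lt_of_le_of_lt (le_max_left _ _) hM
  have hMc : 16 / c < M := lt_of_le_of_lt (le_max_right _ _) hM
  have hM0 : (0 : ℝ) < M := lt_trans (by positivity) hMc
  have hex : ∃ i, 8 ^ (2 * M) ≤ a (i + 3) := ⟨8 ^ (2 * M), by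
    have := hmono.id_le (8 ^ (2 * M) + 3); simp only [id] at this; omega⟩
  classical
  set N := Nat.find hex with hN
  set L : ℕ → ℕ := fun i => Nat.lcm (Nat.lcm (a (i + 1)) (a (i + 2))) (a (i + 3)) with hL
  have hLge : ∀ i, a (i + 3) ≤ L i := fun i =>
    Nat.le_of_dvd (Nat.lcm_pos (Nat.lcm_pos (hpos _) (hpos _)) (hpos _)) (Nat.dvd_lcm_right _ _)
  have hlog8 : 0 < Real.log 8 := Real.log_pos (by norm_num)
  -- lower bound for each m
  have hlow : ∀ m ∈ Finset.Ico M (2 * M), c * M * Real.log 8 ≤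
      ∑ i ∈ range N, if L i < 8 ^ m then ((1 : ℝ) / 2) ^ m else 0 := by
    intro m hm
    rw [Finset.mem_Ico] at hm
    have hx : X ≤ (8 : ℝ) ^ m := by
      have h1 : m < 8 ^ m := Nat.lt_pow_self (by norm_num)
      have h2 : (m : ℝ) < 8 ^ m := by exact_mod_cast h1
      have h3 : (M : ℝ) ≤ m := by exact_mod_cast hm.1
      linarith
    have h1 := hX _ hx
    have hset : {i : ℕ | ((Nat.lcm (Nat.lcm (a (i + 1)) (a (i + 2))) (a (i + 3)) : ℕ) : ℝ) < (8 : ℝ) ^ m}
        = ((range N).filter (fun i => L i < 8 ^ m) : Finset ℕ) := by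
      ext i
      simp only [Set.mem_ofPred_eq, coe_filter, mem_range]
      have hiff : ((Nat.lcm (Nat.lcm (a (i + 1)) (a (i + 2))) (a (i + 3)) : ℕ) : ℝ) < (8 : ℝ) ^ m ↔
          L i < 8 ^ m := by
        simp only [hL]; exact_mod_cast Iff.rfl
      rw [hiff]
      constructor
      · intro h
        refine ⟨?_, h⟩
        by_contra hcon
        push Not at hcon
        have h2 : 8 ^ (2 * M) ≤ a (N + 3) := Nat.find_spec hex
        have h3 : a (N + 3) ≤ a (i + 3) := hmono.monotone (by omega)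
        have h4 : 8 ^ m ≤ 8 ^ (2 * M) := Nat.pow_le_pow_right (by norm_num) hm.2.le
        have := hLge i
        omega
      · exact fun h => h.2
    rw [hset, Set.ncard_coe_finset] at h1
    have h2 : ((8 : ℝ) ^ m) ^ ((1 : ℝ) / 3) = 2 ^ m := by
      have : (8 : ℝ) ^ m = (2 ^ m) ^ 3 := by rw [← pow_mul, mul_comm, pow_mul]; norm_num
      rw [this, one_div]
      exact Real.pow_rpow_inv_natCast (by positivity) (by norm_num : (3 : ℕ) ≠ 0)
    rw [h2, Real.log_pow] at h1
    rw [← Finset.sum_filter, Finset.sum_const, nsmul_eq_mul]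
    have h3 : (M : ℝ) ≤ m := by exact_mod_cast hm.1
    have h4 : (0 : ℝ) < 2 ^ m := by positivity
    rw [one_div, inv_pow, ← div_eq_mul_inv, le_div_iff₀ h4]
    have h5 : c * M * Real.log 8 * 2 ^ m ≤ c * 2 ^ m * (m * Real.log 8) := by
      have : c * Real.log 8 * 2 ^ m * M ≤ c * Real.log 8 * 2 ^ m * m :=
        mul_le_mul_of_nonneg_left h3 (by positivity)
      nlinarith
    linarith
  have hsum := Finset.sum_le_sum hlow
  rw [Finset.sum_const, Nat.card_Ico, nsmul_eq_mul, Finset.sum_comm] at hsum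
  have hup : ∀ i ∈ range N, (∑ m ∈ Finset.Ico M (2 * M),
      if L i < 8 ^ m then ((1 : ℝ) / 2) ^ m else 0) ≤
      4 * (Real.log (a (i + 3)) - Real.log (a (i + 1))) := by
    intro i _
    rw [← Finset.sum_filter]
    have hnn : 0 ≤ Real.log (a (i + 3)) - Real.log (a (i + 1)) := by
      have h1 : (a (i + 1) : ℝ) ≤ a (i + 3) := by exact_mod_cast hmono.monotone (by omega)
      have h2 : (0 : ℝ) < a (i + 1) := by exact_mod_cast hpos _
      have := Real.log_le_log h2 h1
      linarith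
    have := geo ((Finset.Ico M (2 * M)).filter (fun m => L i < 8 ^ m))
      (2 * (Real.log (a (i + 3)) - Real.log (a (i + 1)))) (by positivity) (by
        intro m hm
        rw [Finset.mem_filter] at hm
        exact half_le _ _ _ m (hpos _) (hmono (by omega)) (hmono (by omega)) hm.2)
    linarith
  have hsum2 := Finset.sum_le_sum hup
  rw [← Finset.mul_sum] at hsum2
  have hb : ∑ i ∈ range N, (Real.log (a (i + 3)) - Real.log (a (i + 1))) ≤ 4 * M * Real.log 8 := by
    rcases Nat.eq_zero_or_pos N with h0 | h0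
    · rw [h0]; simp; positivity
    · rw [tele (fun i => Real.log (a i)) N]
      have h1 : a (N + 2) < 8 ^ (2 * M) := by
        have := Nat.find_min hex (m := N - 1) (by omega)
        have h2 : N - 1 + 3 = N + 2 := by omega
        rw [h2] at this
        omega
      have h2 : a (N + 1) ≤ a (N + 2) := hmono.monotone (by omega)
      have hl : ∀ k, a k ≤ 8 ^ (2 * M) → Real.log (a k) ≤ 2 * M * Real.log 8 := by
        intro k hk
        have h3 : (a k : ℝ) ≤ 8 ^ (2 * M) := by exact_mod_cast hk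
        have h4 : (0 : ℝ) < a k := by exact_mod_cast hpos _
        have := Real.log_le_log h4 h3
        rw [Real.log_pow] at this
        push_cast at this
        exact this
      have hl0 : ∀ k, 0 ≤ Real.log (a k) := fun k => Real.log_natCast_nonneg _
      have := hl (N + 2) h1.le
      have := hl (N + 1) (by omega)
      have := hl0 1
      have := hl0 2
      linarith
  have hcast : ((2 * M - M : ℕ) : ℝ) = M := by
    have : 2 * M - M = M := by omega
    rw [this]
  rw [hcast] at hsum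
  have hfin : M * (c * M * Real.log 8) ≤ 16 * M * Real.log 8 := by linarith
  rw [div_lt_iff₀ hc] at hMc
  have : 0 < (M : ℝ) * Real.log 8 := by positivity
  nlinarith

end Pool.Agent.H27.LcmWin
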