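import Mathlib

set_option autoImplicit false

namespace Pool.Agent.H27.Lev

open Matrix Polynomial

variable {n : Type*} [Fintype n] [DecidableEq n]

def Zv (n : Type*) : AddSubgroup (n → ℚ) where
  carrier := {v | ∀ i, ∃ z : ℤ, v i = z}
  add_mem' := fun {a b} ha hb i => by
    obtain ⟨x, hx⟩ := ha i
    obtain ⟨y, hy⟩ := hb i
    exact ⟨x + y, by simp [hx, hy]⟩
  zero_mem' := fun _ => ⟨0, by simp⟩
  neg_mem' := fun {a} ha i => by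
    obtain ⟨x, hx⟩ := ha i
    exact ⟨-x, by simp [hx]⟩

theorem inv (A : Matrix n n ℚ) (S : AddSubgroup (n → ℚ)) (h : ∀ v ∈ S, A *ᵥ v ∈ S) (g : ℤ[X]) :
    ∀ v ∈ S, aeval A g *ᵥ v ∈ S := by
  refine g.induction_on (fun a v hv => ?_) (fun p q hp hq v hv => ?_) fun k a ih v hv => ?_
  · rw [aeval_C, Algebra.algebraMap_eq_smul_one, smul_mulVec, one_mulVec]
    exact S.zsmul_mem hv a
  · rw [map_add, add_mulVec]; exact S.add_mem (hp v hv) (hq v hv)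
  · rw [pow_succ, ← mul_assoc, map_mul, aeval_X, ← mulVec_mulVec]
    exact ih _ (h v hv)

theorem sym (A : Matrix n n ℚ) (hA : Aᵀ = A) (g : ℤ[X]) : (aeval A g)ᵀ = aeval A g := by
  refine g.induction_on' (fun p q hp hq => ?_) fun k a => ?_
  · rw [map_add, transpose_add, hp, hq]
  · rw [aeval_monomial, Algebra.algebraMap_eq_smul_one, smul_mul_assoc, one_mul, transpose_smul,
      transpose_pow, hA]

theorem adj (M : Matrix n n ℚ) (h : Mᵀ = M) (u v : n → ℚ) : (M *ᵥ u) ⬝ᵥ v = u ⬝ᵥ (M *ᵥ v) := by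
  rw [dotProduct_mulVec, ← mulVec_transpose, h]

theorem core (A : Matrix n n ℚ) (hA : Aᵀ = A) (D L : AddSubgroup (n → ℚ))
    (hZ : ∀ v ∈ Zv n, A *ᵥ v ∈ Zv n) (hD : ∀ v ∈ D, A *ᵥ v ∈ D) (hL : ∀ v ∈ L, A *ᵥ v ∈ L)
    (hZD : Zv n ≤ D) (hLD : L ≤ D) (hI : ∀ u ∈ L, ∀ v ∈ L, ∃ z : ℤ, u ⬝ᵥ v = z)
    (w : n → ℚ) (hw : w ∈ D) (gen : ∀ v ∈ D, ∃ g : ℤ[X], v = aeval A g *ᵥ w)
    (θ : (n → ℚ) →+ ℚ) (b s q : ℤ) (hb : b ≠ 0) (hs : s ≠ 0) (hq : Squarefree q)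
    (F1 : ∀ v ∈ D, ∃ z : ℤ, θ v = z)
    (F2 : ∀ v ∈ D, ∀ z : ℤ, θ v = (s ^ 2 * q * z : ℤ) → b • v ∈ Zv n)
    (F3 : ∀ v ∈ Zv n, ∃ z : ℤ, θ v = (b * (s ^ 2 * q) * z : ℤ))
    (u : n → ℚ) (hu : u ∈ D) (F4 : θ u = 1) (y : n → ℚ) (hy : y ∈ L) : (b * s) • y ∈ Zv n := by
  obtain ⟨g, hg⟩ := gen y (hLD hy)
  obtain ⟨c, hc⟩ := F1 _ (inv A D hD g u hu)
  have cm : ∀ (f h : ℤ[X]) v, aeval A f *ᵥ (aeval A h *ᵥ v) = aeval A h *ᵥ (aeval A f *ᵥ v) :=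
    fun f h v => by rw [mulVec_mulVec, mulVec_mulVec, ← map_mul, mul_comm, map_mul]
  have key : ∀ v ∈ D, ∀ a : ℤ, θ v = a →
      ∃ z : ℤ, θ (aeval A g *ᵥ v) = (a * c + s ^ 2 * q * z : ℤ) := fun v hv a ha => by
    obtain ⟨z, hz⟩ := F3 _ (inv A _ hZ g _ (F2 _ (D.sub_mem hv (D.zsmul_mem hu a)) 0
      (by rw [map_sub, map_zsmul, F4, ha]; simp)))
    rw [mulVec_smul, map_zsmul, mulVec_sub, mulVec_smul, map_sub, map_zsmul, hc] at hz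
    refine ⟨z, mul_left_cancel₀ (Int.cast_ne_zero.2 hb : (b : ℚ) ≠ 0) ?_⟩
    simp only [zsmul_eq_mul] at hz
    push_cast at hz ⊢
    linear_combination hz
  have h1 : aeval A g *ᵥ y ∈ Zv n := fun i => by
    obtain ⟨r, hr⟩ := gen (Pi.single i 1) (hZD fun j => ⟨if j = i then 1 else 0, by
      simp [Pi.single_apply]⟩)
    obtain ⟨z, hz⟩ := hI y hy _ (inv A L hL r y hy)
    refine ⟨z, ?_⟩
    rw [← dotProduct_single_one (aeval A g *ᵥ y) i, hr, adj _ (sym A hA g), cm, ← hg, hz]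
  obtain ⟨r, hr⟩ := gen u hu
  obtain ⟨z, hz⟩ := F3 _ (inv A _ hZ r _ h1)
  obtain ⟨z', hz'⟩ := key _ (inv A D hD g u hu) c hc
  rw [hg, cm, cm r g, ← hr, hz'] at hz
  have h2 : s ^ 2 * q ∣ c ^ 2 := ⟨b * z - z', by
    have : c * c + s ^ 2 * q * z' = b * (s ^ 2 * q) * z := by exact_mod_cast hz
    linear_combination this⟩
  obtain ⟨c, rfl⟩ := (Int.pow_dvd_pow_iff two_ne_zero).1 ((dvd_mul_right _ _).trans h2)
  rw [mul_pow, mul_dvd_mul_iff_left (pow_ne_zero _ hs), hq.dvd_pow_iff_dvd two_ne_zero] at h2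
  obtain ⟨c, rfl⟩ := h2
  obtain ⟨a, ha⟩ := F1 w hw
  obtain ⟨x, hx⟩ := key w hw a ha
  rw [mul_smul]
  refine F2 _ (D.zsmul_mem (hLD hy) s) (a * c + s * x) ?_
  rw [map_zsmul, hg, hx]
  simp only [zsmul_eq_mul]
  push_cast
  ring

theorem sInf_dvd (P : ℕ → Prop) (h : ∀ a b, P a → P b → P (a % b)) {k : ℕ} (hk : 0 < k)
    (hP : P k) : 0 < sInf {k | 0 < k ∧ P k} ∧ sInf {k | 0 < k ∧ P k} ∣ k := by
  have hm := Nat.sInf_mem (s := {k | 0 < k ∧ P k}) ⟨k, hk, hP⟩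
  refine ⟨hm.1, Nat.dvd_of_mod_eq_zero ?_⟩
  by_contra h0
  exact absurd (Nat.sInf_le (s := {k | 0 < k ∧ P k}) ⟨Nat.pos_of_ne_zero h0, h _ _ hP hm.2⟩)
    (not_le.2 (Nat.mod_lt _ hm.1))

end Pool.Agent.H27.Lev
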