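import Pool.Agent.H27.Lev1

set_option autoImplicit false

namespace Pool.Agent.H27.Lev

open Matrix Polynomial

variable {m : ℕ}

def Dv (A : Matrix (Fin m) (Fin m) ℚ) : AddSubgroup (Fin m → ℚ) where
  carrier := {v | ∀ k : ℕ, ∃ z : ℤ, (A ^ k *ᵥ 1) ⬝ᵥ v = z}
  add_mem' := fun {a b} ha hb i => by
    obtain ⟨x, hx⟩ := ha i
    obtain ⟨y, hy⟩ := hb i
    exact ⟨x + y, by simp [hx, hy]⟩
  zero_mem' := fun _ => ⟨0, by simp⟩
  neg_mem' := fun {a} ha i => by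
    obtain ⟨x, hx⟩ := ha i
    exact ⟨-x, by simp [hx]⟩

def Wt (A : Matrix (Fin m) (Fin m) ℚ) : Matrix (Fin m) (Fin m) ℚ := fun j i => (A ^ (j : ℕ) *ᵥ 1) i

theorem Wt_mul (A : Matrix (Fin m) (Fin m) ℚ) (v : Fin m → ℚ) (j : Fin m) :
    (Wt A *ᵥ v) j = (A ^ (j : ℕ) *ᵥ 1) ⬝ᵥ v := rfl

theorem shift (A : Matrix (Fin m) (Fin m) ℚ) (hA : Aᵀ = A) (i j : ℕ) (v : Fin m → ℚ) :
    (A ^ i *ᵥ 1) ⬝ᵥ (A ^ j *ᵥ v) = (A ^ (i + j) *ᵥ 1) ⬝ᵥ v := by
  rw [← adj _ (by rw [transpose_pow, hA]), mulVec_mulVec, ← pow_add, add_comm]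

theorem Dv_inv (A : Matrix (Fin m) (Fin m) ℚ) (hA : Aᵀ = A) : ∀ v ∈ Dv A, A *ᵥ v ∈ Dv A :=
  fun v hv k => by
    have := shift A hA k 1 v
    rw [pow_one] at this
    rw [this]; exact hv _

theorem le_Dv (A : Matrix (Fin m) (Fin m) ℚ) (L : AddSubgroup (Fin m → ℚ))
    (hL : ∀ v ∈ L, A *ᵥ v ∈ L) (hI : ∀ u ∈ L, ∀ v ∈ L, ∃ z : ℤ, u ⬝ᵥ v = z) (h1 : 1 ∈ L) :
    L ≤ Dv A := fun v hv k => by
  refine hI _ ?_ v hv
  simpa using inv A L hL (X ^ k) 1 h1

theorem Dv_iff (B : Matrix (Fin (m + 1)) (Fin (m + 1)) ℤ) (v : Fin (m + 1) → ℚ) :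
    v ∈ Dv (B.map (Int.castRingHom ℚ)) ↔ Wt (B.map (Int.castRingHom ℚ)) *ᵥ v ∈ Zv _ := by
  refine ⟨fun h j => h j, fun h k => ?_⟩
  set A := B.map (Int.castRingHom ℚ) with hA
  have h0 : aeval A B.charpoly = 0 := by
    rw [← aeval_map_algebraMap ℚ, algebraMap_int_eq, ← charpoly_map, aeval_self_charpoly]
  have h1 := aeval_modByMonic_eq_self_of_root (p := X ^ k) h0
  have h2 : (X ^ k %ₘ B.charpoly).natDegree < m + 1 := by
    have := natDegree_modByMonic_lt (X ^ k) B.charpoly_monic fun h => by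
      have := B.charpoly_natDegree_eq_dim
      simp [h] at this
    simpa using this
  rw [aeval_eq_sum_range' h2, map_pow, aeval_X, Finset.sum_range] at h1
  choose z hz using h
  refine ⟨∑ i : Fin (m + 1), (X ^ k %ₘ B.charpoly).coeff i * z i, ?_⟩
  rw [← h1, sum_mulVec, sum_dotProduct]
  push_cast
  refine Finset.sum_congr rfl fun i _ => ?_
  rw [smul_mulVec, smul_dotProduct, ← hz, Wt_mul, zsmul_eq_mul]

theorem gen (B : Matrix (Fin (m + 1)) (Fin (m + 1)) ℤ) (hB : Bᵀ = B)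
    (hW : (Wt (B.map (Int.castRingHom ℚ))).det ≠ 0) :
    ∃ w ∈ Dv (B.map (Int.castRingHom ℚ)), ∀ v ∈ Dv (B.map (Int.castRingHom ℚ)),
      ∃ g : ℤ[X], v = aeval (B.map (Int.castRingHom ℚ)) g *ᵥ w := by
  have hD := Dv_iff B
  set A := B.map (Int.castRingHom ℚ)
  have hA : Aᵀ = A := by rw [← transpose_map, hB]
  have hU : IsUnit (Wt A).det := isUnit_iff_ne_zero.2 hW
  set w := (Wt A)⁻¹ *ᵥ Pi.single (Fin.last m) 1
  have hw : Wt A *ᵥ w = Pi.single (Fin.last m) 1 := by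
    rw [mulVec_mulVec, mul_nonsing_inv _ hU, one_mulVec]
  have hwD : w ∈ Dv A := (hD w).2 fun j => ⟨if j = Fin.last m then 1 else 0, by
    simp [hw, Pi.single_apply]⟩
  refine ⟨w, hwD, fun v hv => ?_⟩
  choose h hh using hwD
  choose z hz using (hD v).1 hv
  have h0 : ∀ j : Fin (m + 1), h j = if j = Fin.last m then 1 else 0 := fun j => by
    have := congrFun hw j
    rw [Wt_mul, hh, Pi.single_apply] at this
    split_ifs at this ⊢ <;> exact_mod_cast this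
  set H : Matrix (Fin (m + 1)) (Fin (m + 1)) ℤ := fun i j => h (i + (m - j))
  have hH : H.det = 1 := by
    rw [det_of_lowerTriangular H fun i j hij => ?_]
    · refine Finset.prod_eq_one fun i _ => ?_
      have := h0 (Fin.last m)
      rw [if_pos rfl] at this
      rw [← this]
      exact congrArg h (by have := i.2; simp; omega)
    · have hij : (i : ℕ) < j := hij
      have hj := j.2
      rw [show H i j = h (⟨i + (m - j), by omega⟩ : Fin (m + 1)) from rfl, h0, if_neg]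
      simp [Fin.ext_iff]; omega
  set g := H⁻¹ *ᵥ z
  have hg : H *ᵥ g = z := by rw [mulVec_mulVec, mul_nonsing_inv _ (by simp [hH]), one_mulVec]
  refine ⟨∑ j : Fin (m + 1), monomial (m - j) (g j), mulVec_injective_of_det_ne_zero hW (funext fun i => ?_)⟩
  rw [hz, ← hg, Wt_mul, map_sum, sum_mulVec, dotProduct_sum, mulVec, dotProduct]
  push_cast
  refine Finset.sum_congr rfl fun j _ => ?_
  rw [aeval_monomial, Algebra.algebraMap_eq_smul_one, smul_mul_assoc, one_mul, smul_mulVec,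
    dotProduct_smul, shift A hA, hh, zsmul_eq_mul, mul_comm]

end Pool.Agent.H27.Lev
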