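import Pool.Agent.H27.Lev2

set_option autoImplicit false

namespace Pool.Agent.H27.Lev

open Matrix Polynomial

theorem Zv_mul {n : Type*} [Fintype n] (M : Matrix n n ℚ) (hM : ∀ i j, ∃ z : ℤ, M i j = z) :
    ∀ v ∈ Zv n, M *ᵥ v ∈ Zv n := fun v hv i => by
  choose a ha using hM
  choose z hz using hv
  exact ⟨∑ j, a i j * z j, by simp [mulVec, dotProduct, ha, hz]⟩

theorem Zv_dot {n : Type*} [Fintype n] : ∀ u ∈ Zv n, ∀ v ∈ Zv n, ∃ z : ℤ, u ⬝ᵥ v = z :=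
  fun u hu v hv => by
    choose a ha using hu
    choose z hz using hv
    exact ⟨∑ j, a j * z j, by simp [dotProduct, ha, hz]⟩

theorem main {m : ℕ} (B W U V : Matrix (Fin (m + 2)) (Fin (m + 2)) ℤ) (hB : Bᵀ = B)
    (hW : ∀ i j, W i j = (B ^ (j : ℕ) *ᵥ 1) i) (h0 : W.det ≠ 0) (hU : IsUnit U.det)
    (hV : IsUnit V.det) (d : Fin (m + 2) → ℕ) (hd : U * W * V = diagonal fun i => (d i : ℤ))
    (hp : ∀ i, 0 < d i) (hdv : ∀ i j, i ≤ j → d i ∣ d j) :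
    ∃ k : ℕ, k ^ 2 ∣ d (Fin.last _) * d (Fin.last m).castSucc ∧
      ∀ Q : Matrix (Fin (m + 2)) (Fin (m + 2)) ℚ, Qᵀ * Q = 1 → Q *ᵥ 1 = 1 → (∀ i j, ∃ z : ℤ, (Qᵀ * B.map (Int.castRingHom ℚ) * Q) i j = z) →
      ∀ i j, ∃ z : ℤ, k * Q i j = z := by
  obtain ⟨t, ht⟩ := hdv (Fin.last m).castSucc (Fin.last _) (Fin.le_last _)
  obtain ⟨q, s, hs, hq⟩ := Nat.sq_mul_squarefree t
  set b := d (Fin.last m).castSucc
  have hb : 0 < b := hp _
  have hs0 : s ≠ 0 := by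
    rintro rfl
    have := hp (Fin.last _)
    rw [ht, ← hs] at this
    simp at this
  refine ⟨b * s, ⟨q, by rw [ht, ← hs]; ring⟩, fun Q hQ h1 hC i j => ?_⟩
  set f := Int.castRingHom ℚ
  have hD := Dv_iff B
  have hWt : Wt (B.map f) = (W.map f)ᵀ := by
    ext j i
    have := (RingHom.map_mulVec f (B ^ (j : ℕ)) 1 i).symm
    rw [Matrix.map_pow] at this
    rw [transpose_apply, map_apply, hW, ← this]
    exact congrArg (fun v => ((B.map f) ^ (j : ℕ) *ᵥ v) i) (by ext; simp)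
  obtain ⟨w, hw, hgen⟩ := gen B hB (by
    rw [hWt, det_transpose]
    change (f.mapMatrix W).det ≠ 0
    rw [← RingHom.map_det]
    simpa [f] using h0)
  set A := B.map f
  have hA : Aᵀ = A := by rw [← transpose_map, hB]
  have zm : ∀ M : Matrix (Fin (m + 2)) (Fin (m + 2)) ℤ, ∀ v ∈ Zv _, (M.map f)ᵀ *ᵥ v ∈ Zv _ :=
    fun M => Zv_mul _ fun i j => ⟨M j i, rfl⟩
  have iv : ∀ M N : Matrix (Fin (m + 2)) (Fin (m + 2)) ℤ, M * N = 1 → ∀ v,
      (N.map f)ᵀ *ᵥ ((M.map f)ᵀ *ᵥ v) = v := fun M N h v => by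
    rw [mulVec_mulVec, ← transpose_mul, ← Matrix.map_mul, h]; simp
  have sn : ∀ v i, ((V.map f)ᵀ *ᵥ (Wt A *ᵥ v)) i = d i * ((U⁻¹.map f)ᵀ *ᵥ v) i := fun v i => by
    conv_lhs => rw [← iv U⁻¹ U (nonsing_inv_mul _ hU) v]
    generalize (U⁻¹.map f)ᵀ *ᵥ v = x
    rw [hWt, mulVec_mulVec, mulVec_mulVec, ← transpose_mul, ← transpose_mul, ← Matrix.map_mul,
      ← Matrix.map_mul, ← Matrix.mul_assoc, hd, diagonal_map (by simp), diagonal_transpose,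
      mulVec_diagonal]
    simp [f]
  have hQ' : Q * Qᵀ = 1 := mul_eq_one_comm.1 hQ
  have hl : (d (Fin.last _) : ℚ) = b * (s ^ 2 * q) := by rw [ht, ← hs]; push_cast; ring
  have hb' : (b : ℚ) ≠ 0 := by exact_mod_cast hb.ne'
  have hl0 : (d (Fin.last _) : ℚ) ≠ 0 := by exact_mod_cast (hp _).ne'
  have hZ : ∀ v ∈ Zv _, A *ᵥ v ∈ Zv _ := Zv_mul _ fun i j => ⟨B i j, rfl⟩
  have hL : ∀ v ∈ (Zv _).comap (mulVecLin Qᵀ).toAddMonoidHom,
      A *ᵥ v ∈ (Zv _).comap (mulVecLin Qᵀ).toAddMonoidHom := fun v hv => by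
    have := Zv_mul _ hC _ hv
    change _ *ᵥ (Qᵀ *ᵥ v) ∈ _ at this
    rw [mulVec_mulVec, Matrix.mul_assoc, hQ', Matrix.mul_one, ← mulVec_mulVec] at this
    exact this
  have hI : ∀ u ∈ (Zv _).comap (mulVecLin Qᵀ).toAddMonoidHom,
      ∀ v ∈ (Zv _).comap (mulVecLin Qᵀ).toAddMonoidHom, ∃ z : ℤ, u ⬝ᵥ v = z := fun u hu v hv => by
    obtain ⟨z, hz⟩ := Zv_dot _ hu _ hv
    change (Qᵀ *ᵥ u) ⬝ᵥ (Qᵀ *ᵥ v) = _ at hz
    rw [dotProduct_mulVec, vecMul_transpose, mulVec_mulVec, hQ', one_mulVec] at hz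
    exact ⟨z, hz⟩
  have := core A hA (Dv A) _ hZ (Dv_inv A hA) hL
    (le_Dv A _ hZ Zv_dot fun _ => ⟨1, by simp⟩)
    (le_Dv A _ hL hI fun i => ⟨1, by
      change (Qᵀ *ᵥ 1) i = _
      rw [← h1, mulVec_mulVec, hQ, one_mulVec]; simp⟩) hI w hw hgen
    (AddMonoidHom.mk' (fun v => d (Fin.last _) * ((U⁻¹.map f)ᵀ *ᵥ v) (Fin.last _))
      fun u v => by rw [mulVec_add, Pi.add_apply, mul_add]) b s q (by exact_mod_cast hb.ne')
    (by exact_mod_cast hs0) (Int.squarefree_natCast.2 hq)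
    (fun v hv => by
      obtain ⟨z, hz⟩ := zm V _ ((hD v).1 hv) (Fin.last _)
      exact ⟨z, (sn v _).symm.trans hz⟩)
    (fun v hv z hz => by
      rw [← iv U⁻¹ U (nonsing_inv_mul _ hU) v, ← mulVec_smul]
      refine zm U _ fun i => ?_
      rcases Fin.eq_castSucc_or_eq_last i with ⟨i, rfl⟩ | rfl
      · obtain ⟨y, hy⟩ := zm V _ ((hD v).1 hv) i.castSucc
        obtain ⟨c, hc⟩ := hdv i.castSucc (Fin.last m).castSucc (by simpa using Fin.le_last i)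
        refine ⟨c * y, ?_⟩
        rw [sn] at hy
        rw [Pi.smul_apply, zsmul_eq_mul, show b = _ from hc]
        push_cast
        linear_combination (c : ℚ) * hy
      · refine ⟨z, mul_left_cancel₀ hl0 ?_⟩
        simp only [AddMonoidHom.mk'_apply] at hz
        rw [Pi.smul_apply, zsmul_eq_mul, mul_left_comm, hz, hl]
        push_cast
        ring)
    (fun v hv => by
      obtain ⟨z, hz⟩ := zm U⁻¹ v hv (Fin.last _)
      exact ⟨z, by simp only [AddMonoidHom.mk'_apply]; rw [hz, hl]; push_cast; ring⟩)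
    ((U.map f)ᵀ *ᵥ Pi.single (Fin.last _) (d (Fin.last _) : ℚ)⁻¹)
    ((hD _).2 (by
      rw [← iv V V⁻¹ (mul_nonsing_inv _ hV) (Wt A *ᵥ _)]
      refine zm _ _ fun i => ⟨if i = Fin.last _ then 1 else 0, ?_⟩
      rw [sn, iv U U⁻¹ (mul_nonsing_inv _ hU), Pi.single_apply]
      split_ifs with h
      · rw [h, mul_inv_cancel₀ hl0]; simp
      · simp))
    (by
      simp only [AddMonoidHom.mk'_apply]
      rw [iv U U⁻¹ (mul_nonsing_inv _ hU), Pi.single_eq_same, mul_inv_cancel₀ hl0])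
    (Q *ᵥ Pi.single j 1) (fun i => ⟨if i = j then 1 else 0, by
      change (Qᵀ *ᵥ (Q *ᵥ _)) i = _
      rw [mulVec_mulVec, hQ, one_mulVec, Pi.single_apply]; simp⟩) i
  simpa using this

end Pool.Agent.H27.Lev
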