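import Mathlib

set_option autoImplicit false

namespace Pool.Agent.H27.LinForms

open Finset

section amplify

variable {ι : Type} [Fintype ι] [DecidableEq ι] {m : ℕ}

/-- image of `A ^ m` under the linear form with coefficients `u` -/
def img (u : Fin m → ℤ) (A : Finset (ι → ℤ)) : Finset (ι → ℤ) :=
  (Fintype.piFinset fun _ : Fin m => A).image (fun a => ∑ i, u i • a i)

lemma mem_img {u : Fin m → ℤ} {A : Finset (ι → ℤ)} {z : ι → ℤ} :
    z ∈ img u A ↔ ∃ a : Fin m → ι → ℤ, (∀ i, a i ∈ A) ∧ ∑ i, u i • a i = z := by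
  simp [img]

lemma project (u v : Fin m → ℤ) (A : Finset (ι → ℤ)) (h : (img v A).card < (img u A).card) :
    ∃ A : Finset ℤ,
      ((Fintype.piFinset fun _ : Fin m => A).image (fun a : Fin m → ℤ => ∑ i, v i * a i)).card <
      ((Fintype.piFinset fun _ : Fin m => A).image (fun a : Fin m → ℤ => ∑ i, u i * a i)).card := by
  classical
  let D := ((img u A) ×ˢ (img u A)).filter (fun p => p.1 ≠ p.2)
  let lin : (ι → ℤ) → MvPolynomial ι ℤ := fun δ => ∑ x, MvPolynomial.C (δ x) * MvPolynomial.X x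
  have hlin : ∀ δ w, MvPolynomial.eval w (lin δ) = ∑ x, δ x * w x := by
    intro δ w
    simp [lin]
  have hP : ∏ p ∈ D, lin (p.1 - p.2) ≠ 0 := by
    rw [Finset.prod_ne_zero_iff]
    intro p hp h0
    apply (Finset.mem_filter.mp hp).2
    funext x
    have := hlin (p.1 - p.2) (Pi.single x 1)
    rw [h0] at this
    simp only [map_zero, Pi.single_apply, mul_ite, mul_one, mul_zero, Finset.sum_ite_eq',
      Finset.mem_univ, if_true, Pi.sub_apply] at this
    linarith
  obtain ⟨w, hw⟩ : ∃ w : ι → ℤ, MvPolynomial.eval w (∏ p ∈ D, lin (p.1 - p.2)) ≠ 0 := by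
    by_contra hc
    push Not at hc
    exact hP (MvPolynomial.funext (fun w => by rw [hc w, map_zero]))
  rw [map_prod, Finset.prod_ne_zero_iff] at hw
  let π : (ι → ℤ) → ℤ := fun δ => ∑ x, δ x * w x
  have hπ : ∀ (t : Fin m → ℤ) (a : Fin m → ι → ℤ), π (∑ i, t i • a i) = ∑ i, t i * π (a i) := by
    intro t a
    simp only [π, Finset.sum_apply, Pi.smul_apply, smul_eq_mul, Finset.sum_mul, Finset.mul_sum]
    rw [Finset.sum_comm]
    simp only [mul_assoc]
  have himg : ∀ t : Fin m → ℤ, (Fintype.piFinset fun _ : Fin m => A.image π).image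
      (fun a : Fin m → ℤ => ∑ i, t i * a i) = (img t A).image π := by
    intro t
    ext z
    simp only [Finset.mem_image, Fintype.mem_piFinset, mem_img]
    constructor
    · rintro ⟨a, ha, rfl⟩
      choose b hb1 hb2 using ha
      refine ⟨_, ⟨b, hb1, rfl⟩, ?_⟩
      rw [hπ]
      simp only [hb2]
    · rintro ⟨_, ⟨b, hb, rfl⟩, rfl⟩
      exact ⟨fun i => π (b i), fun i => ⟨b i, hb i, rfl⟩, (hπ t b).symm⟩
  refine ⟨A.image π, ?_⟩
  rw [himg, himg, Finset.card_image_of_injOn (s := img u A)]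
  · exact lt_of_le_of_lt Finset.card_image_le h
  · intro a ha b hb e
    by_contra hne
    apply hw (a, b) (Finset.mem_filter.mpr ⟨Finset.mem_product.mpr ⟨ha, hb⟩, hne⟩)
    rw [hlin]
    simp only [Pi.sub_apply, sub_mul, Finset.sum_sub_distrib]
    exact sub_eq_zero.mpr e

variable {q : ℕ} [NeZero q]

def lift (ρ : ι → ZMod q) : ι → ℤ := fun x => ((ρ x).val : ℤ)

def tower (R : Finset (ι → ZMod q)) : ℕ → Finset (ι → ℤ)
  | 0 => {0}
  | n + 1 => (R ×ˢ tower R n).image (fun p => lift p.1 + (q : ℤ) • p.2)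

lemma mem_tower {R : Finset (ι → ZMod q)} {n : ℕ} {z : ι → ℤ} :
    z ∈ tower R (n + 1) ↔ ∃ ρ ∈ R, ∃ a ∈ tower R n, lift ρ + (q : ℤ) • a = z := by
  simp only [tower, Finset.mem_image, Finset.mem_product]
  constructor
  · rintro ⟨p, ⟨h1, h2⟩, h3⟩
    exact ⟨p.1, h1, p.2, h2, h3⟩
  · rintro ⟨ρ, h1, a, h2, h3⟩
    exact ⟨(ρ, a), ⟨h1, h2⟩, h3⟩

lemma form_split (t : Fin m → ℤ) (ρ : Fin m → ι → ZMod q) (a : Fin m → ι → ℤ) :
    ∑ i, t i • (lift (ρ i) + (q : ℤ) • a i) = ∑ i, t i • lift (ρ i) + (q : ℤ) • ∑ i, t i • a i := by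
  simp only [smul_add, Finset.sum_add_distrib, Finset.smul_sum, smul_comm (t _) (q : ℤ)]

lemma cast_form (t : Fin m → ℤ) (ρ : Fin m → ι → ZMod q) (x : ι) :
    (((∑ i, t i • lift (ρ i)) x : ℤ) : ZMod q) = ∑ i, (t i : ZMod q) * ρ i x := by
  simp [lift]

lemma lower (u : Fin m → ℤ) (R : Finset (ι → ZMod q))
    (hF : ∀ y : ι → ZMod q, ∃ ρ : Fin m → ι → ZMod q, (∀ k, ρ k ∈ R) ∧
      ∀ x, ∑ k, (u k : ZMod q) * ρ k x = y x) (n : ℕ) :
    (q ^ Fintype.card ι) ^ n ≤ (img u (tower R n)).card := by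
  induction n with
  | zero =>
    rw [pow_zero]
    exact Finset.card_pos.mpr ⟨_, mem_img.mpr ⟨fun _ => 0, fun _ => by simp [tower], rfl⟩⟩
  | succ n ih =>
    choose ρ h1 h2 using hF
    have := Finset.card_le_card_of_injOn
      (s := (Finset.univ : Finset (ι → ZMod q)) ×ˢ img u (tower R n)) (t := img u (tower R (n + 1)))
      (fun p => ∑ i, u i • lift (ρ p.1 i) + (q : ℤ) • p.2) (by
        intro p hp
        obtain ⟨a, ha, e⟩ := mem_img.mp (Finset.mem_product.mp hp).2
        refine mem_img.mpr ⟨fun i => lift (ρ p.1 i) + (q : ℤ) • a i,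
          fun i => mem_tower.mpr ⟨_, h1 _ i, _, ha i, rfl⟩, ?_⟩
        rw [form_split, e]) (by
        rintro ⟨y, z⟩ _ ⟨y', z'⟩ _ e
        simp only at e
        have e1 : y = y' := by
          funext x
          have := congrArg (fun t : ι → ℤ => ((t x : ℤ) : ZMod q)) e
          simp only [Pi.add_apply, Int.cast_add, cast_form, h2, Pi.smul_apply, smul_eq_mul,
            Int.cast_mul, Int.cast_natCast, ZMod.natCast_self, zero_mul, add_zero] at this
          exact this
        subst e1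
        have e2 := add_left_cancel e
        rw [smul_right_injective _ (Int.natCast_ne_zero.mpr (NeZero.ne q)) e2])
    rw [Finset.card_product, Finset.card_univ, Fintype.card_fun, ZMod.card] at this
    rw [pow_succ']
    exact le_trans (Nat.mul_le_mul_left _ ih) this

noncomputable def box (ι : Type) [Fintype ι] [DecidableEq ι] (K : ℤ) : Finset (ι → ℤ) :=
  Fintype.piFinset fun _ => Finset.Icc (-K) K

noncomputable def thick (v : Fin m → ℤ) (K : ℤ) (A : Finset (ι → ℤ)) : Finset (ι → ℤ) :=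
  (img v A ×ˢ box ι K).image (fun p => p.1 + p.2)

lemma upper (v : Fin m → ℤ) (R : Finset (ι → ZMod q)) (K : ℤ) (hK : ∑ i, |v i| + 1 ≤ K)
    (hq : K ≤ q) (c : ι → ZMod q)
    (hG : ∀ ρ : Fin m → ι → ZMod q, (∀ k, ρ k ∈ R) → ∀ β : ι → ℤ, (∀ x, |β x| ≤ K) →
      ¬ ∀ x, ∑ k, (v k : ZMod q) * ρ k x + β x = c x) (n : ℕ) :
    (thick v K (tower R n)).card ≤ (q ^ Fintype.card ι - 1) ^ n * (box ι K).card := by
  induction n with
  | zero =>
    rw [pow_zero, one_mul]
    apply Finset.card_le_card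
    intro z hz
    simp only [thick, Finset.mem_image, Finset.mem_product] at hz
    obtain ⟨p, ⟨h1, h2⟩, rfl⟩ := hz
    obtain ⟨a, ha, e⟩ := mem_img.mp h1
    have : ∀ i, a i = 0 := fun i => by simpa [tower] using ha i
    rw [← e]
    simpa [this] using h2
  | succ n ih =>
    have hq0 : (0 : ℤ) < q := by exact_mod_cast Nat.pos_of_ne_zero (NeZero.ne q)
    have := Finset.card_le_card_of_injOn (s := thick v K (tower R (n + 1)))
      (t := (Finset.univ.erase c) ×ˢ thick v K (tower R n))
      (fun s => (fun x => ((s x : ℤ) : ZMod q), fun x => s x / q)) (by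
        intro z hz
        simp only [thick, Finset.coe_image, Set.mem_image, Finset.mem_coe,
          Finset.mem_product] at hz
        obtain ⟨⟨z1, β⟩, ⟨h1, h2⟩, rfl⟩ := hz
        obtain ⟨b, hb, e⟩ := mem_img.mp h1
        choose ρ hρ a ha hb' using fun i => mem_tower.mp (hb i)
        have hβ : ∀ x, |β x| ≤ K := fun x =>
          abs_le.mpr (Finset.mem_Icc.mp (Fintype.mem_piFinset.mp h2 x))
        simp only at e
        rw [← funext hb', form_split] at e
        subst e
        simp only [Finset.coe_product, Set.mem_prod, Finset.mem_coe, Finset.mem_erase,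
          Finset.mem_univ, and_true]
        constructor
        · intro hc
          apply hG ρ hρ β hβ
          intro x
          rw [← hc]
          simp [cast_form, lift]
        · simp only [thick, Finset.mem_image, Finset.mem_product]
          refine ⟨(∑ i, v i • a i, fun x => ((∑ i, v i • lift (ρ i)) x + β x) / q),
            ⟨mem_img.mpr ⟨a, ha, rfl⟩, Fintype.mem_piFinset.mpr (fun x => ?_)⟩, ?_⟩
          · have h3 : |(∑ i, v i • lift (ρ i)) x| ≤ (∑ i, |v i|) * q := by
              rw [Finset.sum_apply, Finset.sum_mul]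
              refine le_trans (Finset.abs_sum_le_sum_abs _ _) (Finset.sum_le_sum (fun i _ => ?_))
              simp only [Pi.smul_apply, smul_eq_mul, abs_mul, lift]
              apply mul_le_mul_of_nonneg_left _ (abs_nonneg _)
              rw [abs_of_nonneg (by positivity)]
              exact_mod_cast (ZMod.val_lt _).le
            have h4 := abs_le.mp (hβ x)
            have h5 := abs_le.mp h3
            have h6 : (∑ i, |v i| + 1) * (q : ℤ) ≤ K * q := mul_le_mul_of_nonneg_right hK hq0.le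
            simp only [Finset.mem_Icc]
            constructor
            · rw [Int.le_ediv_iff_mul_le hq0]; linarith
            · apply Int.ediv_le_of_le_mul hq0; linarith
          · funext x
            simp only [Pi.add_apply, Pi.smul_apply, smul_eq_mul]
            rw [add_right_comm, Int.add_mul_ediv_left _ _ hq0.ne', add_comm]) (by
        intro s _ t _ e
        simp only [Prod.mk.injEq] at e
        funext x
        have e1 := congrFun e.1 x
        have e2 := congrFun e.2 x
        rw [ZMod.intCast_eq_intCast_iff'] at e1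
        rw [← Int.emod_add_mul_ediv (s x) q, e1, e2, Int.emod_add_mul_ediv])
    rw [Finset.card_product, Finset.card_erase_of_mem (Finset.mem_univ _), Finset.card_univ,
      Fintype.card_fun, ZMod.card] at this
    rw [pow_succ', mul_assoc]
    exact le_trans this (Nat.mul_le_mul_left _ ih)

theorem amplify (u v : Fin m → ℤ) (R : Finset (ι → ZMod q)) (K : ℤ) (hK : ∑ i, |v i| + 1 ≤ K)
    (hq : K ≤ q) (c : ι → ZMod q)
    (hF : ∀ y : ι → ZMod q, ∃ ρ : Fin m → ι → ZMod q, (∀ k, ρ k ∈ R) ∧
      ∀ x, ∑ k, (u k : ZMod q) * ρ k x = y x)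
    (hG : ∀ ρ : Fin m → ι → ZMod q, (∀ k, ρ k ∈ R) → ∀ β : ι → ℤ, (∀ x, |β x| ≤ K) →
      ¬ ∀ x, ∑ k, (v k : ZMod q) * ρ k x + β x = c x) :
    ∃ A : Finset ℤ,
      ((Fintype.piFinset fun _ : Fin m => A).image (fun a : Fin m → ℤ => ∑ i, v i * a i)).card <
      ((Fintype.piFinset fun _ : Fin m => A).image (fun a : Fin m → ℤ => ∑ i, u i * a i)).card := by
  set Q := q ^ Fintype.card ι with hQ
  have hQ0 : 0 < Q := pow_pos (Nat.pos_of_ne_zero (NeZero.ne q)) _
  have hQ' : (0 : ℝ) < Q := by exact_mod_cast hQ0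
  set C := (box ι K).card with hC
  obtain ⟨n, hn⟩ := exists_pow_lt_of_lt_one (x := (1 : ℝ) / (C + 1)) (y := ((Q - 1 : ℕ) : ℝ) / Q)
    (by positivity) (by
      rw [div_lt_one hQ']
      exact_mod_cast Nat.sub_lt hQ0 one_pos)
  have h1 : (Q - 1) ^ n * C < Q ^ n := by
    rw [div_pow, div_lt_div_iff₀ (by positivity) (by positivity), one_mul] at hn
    have : (Q - 1) ^ n * (C + 1) < Q ^ n := by exact_mod_cast hn
    exact lt_of_le_of_lt (Nat.mul_le_mul_left _ (Nat.le_succ C)) this
  apply project u v (tower R n)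
  refine lt_of_le_of_lt ?_ (lt_of_le_of_lt (upper v R K hK hq c hG n)
    (lt_of_lt_of_le h1 (lower u R hF n)))
  apply Finset.card_le_card
  intro z hz
  simp only [thick, Finset.mem_image, Finset.mem_product]
  refine ⟨(z, 0), ⟨hz, Fintype.mem_piFinset.mpr (fun x => ?_)⟩, by simp⟩
  have : 0 ≤ ∑ i, |v i| := Finset.sum_nonneg (fun i _ => abs_nonneg _)
  simp only [Pi.zero_apply, Finset.mem_Icc]
  constructor <;> linarith

end amplify

end Pool.Agent.H27.LinForms
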