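import Mathlib
import Pool.Agent.H27.LinFormsA

set_option autoImplicit false

namespace Pool.Agent.H27.LinForms

open Finset

lemma cong {q : ℕ} {a b L M : ℤ} (ha : |a| ≤ M) (hb : |b| < L) (hq : M * L + L ≤ q)
    (h : ((a * L + b : ℤ) : ZMod q) = 0) : a = 0 := by
  rw [ZMod.intCast_zmod_eq_zero_iff_dvd] at h
  have hL : 0 < L := lt_of_le_of_lt (abs_nonneg _) hb
  have h1 : |a * L + b| < q := by
    refine lt_of_le_of_lt (abs_add_le _ _) ?_
    rw [abs_mul, abs_of_pos hL]
    nlinarith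
  have h2 := Int.eq_zero_of_abs_lt_dvd h h1
  by_contra h0
  have h3 : 1 ≤ |a| := Int.one_le_abs h0
  have h4 : |a * L| = |b| := by rw [show a * L = -b by linarith, abs_neg]
  rw [abs_mul, abs_of_pos hL] at h4
  nlinarith

lemma bd3 {U x y z : ℤ} (hx : |x| ≤ U) (hy : |y| ≤ U) (hz : |z| ≤ U) : |x * y * z| ≤ U ^ 3 := by
  rw [abs_mul, abs_mul, pow_three', ]
  have := abs_nonneg x
  have := abs_nonneg y
  have := abs_nonneg z
  have : 0 ≤ U := by linarith
  gcongr

lemma elim {q : ℕ} {U L u u0 k1 k2 w1 w2 s1 s2 : ℤ} {Y : ZMod q} {e1 e2 f1 f2 : Prop}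
    [Decidable e1] [Decidable e2] [Decidable f1] [Decidable f2]
    (hu : |u| ≤ U) (hu0 : |u0| ≤ U) (hk1 : |k1| ≤ U) (hk2 : |k2| ≤ U) (hw1 : |w1| ≤ U)
    (hw2 : |w2| ≤ U) (hs1 : |s1| ≤ U) (hs2 : |s2| ≤ U) (hL : 2 * U ^ 3 < L)
    (hq : 4 * U ^ 3 * L + L ≤ q)
    (h1 : (k1 : ZMod q) * (Y - u * (if e1 then (L : ZMod q) else 0)) +
      u0 * (w1 * (if f1 then (L : ZMod q) else 0) + s1) = 0)
    (h2 : (k2 : ZMod q) * (Y - u * (if e2 then (L : ZMod q) else 0)) +
      u0 * (w2 * (if f2 then (L : ZMod q) else 0) + s2) = 0) :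
    k1 * k2 * (if e2 then u else 0) - k1 * k2 * (if e1 then u else 0) +
      (u0 * k2 * (if f1 then w1 else 0) - u0 * k1 * (if f2 then w2 else 0)) = 0 := by
  have hU : 0 ≤ U := le_trans (abs_nonneg _) hu
  have hi : ∀ (e : Prop) [Decidable e] (x : ℤ), |x| ≤ U → |if e then x else 0| ≤ U := by
    intro e _ x hx
    split_ifs
    · exact hx
    · simpa using hU
  refine cong (b := u0 * k2 * s1 - u0 * k1 * s2) (M := 4 * U ^ 3) (L := L) ?_ ?_ hq ?_
  · have a1 := abs_le.mp (bd3 hk1 hk2 (hi e2 u hu))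
    have a2 := abs_le.mp (bd3 hk1 hk2 (hi e1 u hu))
    have a3 := abs_le.mp (bd3 hu0 hk2 (hi f1 w1 hw1))
    have a4 := abs_le.mp (bd3 hu0 hk1 (hi f2 w2 hw2))
    rw [abs_le]
    constructor <;> linarith
  · have a1 := abs_le.mp (bd3 hu0 hk2 hs1)
    have a2 := abs_le.mp (bd3 hu0 hk1 hs2)
    rw [abs_lt]
    constructor <;> linarith
  · push_cast
    split_ifs at h1 h2 ⊢ <;> linear_combination k2 * h1 - k1 * h2

section constr

variable {m q : ℕ}

def NS (L : ZMod q) (i : Fin m) (ρ : Fin m × Option (Fin 3) → ZMod q) : Prop :=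
  ∃ β : Fin 3, (∀ j, j ≠ i → ρ (j, none) = 0) ∧
    ∀ j γ, ρ (j, some γ) = if j = i ∧ γ = β then L else 0

def tgt (L : ZMod q) : Fin m × Option (Fin 3) → ZMod q := fun x => if x.2 = none then L else 0

def Z (v : Fin m → ℤ) (K : ℤ) (L : ZMod q) (i0 : Fin m) (z : Fin m × Option (Fin 3) → ZMod q) :
    Prop :=
  ∃ (κ : Equiv.Perm (Fin m)) (r : Fin m → Fin m × Option (Fin 3) → ZMod q)
    (β : Fin m × Option (Fin 3) → ℤ), r (κ i0) = z ∧ (∀ i, i ≠ i0 → NS L i (r (κ i))) ∧
    (∀ x, |β x| ≤ K) ∧ ∀ x, ∑ k, (v k : ZMod q) * r k x + β x = tgt L x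

def InR (v : Fin m → ℤ) (K : ℤ) (L : ZMod q) (i0 : Fin m) (ρ : Fin m × Option (Fin 3) → ZMod q) :
    Prop :=
  ((∀ i, i ≠ i0 → ρ (i, none) = 0) ∧ ¬ Z v K L i0 ρ) ∨ ∃ i, i ≠ i0 ∧ NS L i ρ

lemma propG (v : Fin m → ℤ) (K : ℤ) (L : ZMod q) (i0 : Fin m)
    (hL : ∀ b : ℤ, |b| ≤ K → (b : ZMod q) ≠ L)
    (ρ : Fin m → Fin m × Option (Fin 3) → ZMod q) (hρ : ∀ k, InR v K L i0 (ρ k))
    (β : Fin m × Option (Fin 3) → ℤ) (hβ : ∀ x, |β x| ≤ K) :
    ¬ ∀ x, ∑ k, (v k : ZMod q) * ρ k x + β x = tgt L x := by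
  intro h
  have hex : ∀ i, ∃ k, ρ k (i, none) ≠ 0 := by
    intro i
    by_contra hc
    push Not at hc
    have := h (i, none)
    simp only [hc, mul_zero, Finset.sum_const_zero, zero_add, tgt, if_true] at this
    exact hL _ (hβ _) this
  choose κ hκ using hex
  have hinj : Function.Injective κ := by
    intro i j e
    by_contra hne
    have h1 := hκ i
    have h2 := hκ j
    rw [← e] at h2
    rcases hρ (κ i) with h3 | ⟨l, _, _, h3, _⟩
    · by_cases hi : i = i0
      · exact h2 (h3.1 j (fun hj => hne (hi.trans hj.symm)))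
      · exact h1 (h3.1 i hi)
    · by_cases hi : i = l
      · exact h2 (h3 j (fun hj => hne (hi.trans hj.symm)))
      · exact h1 (h3 i hi)
  let σ : Equiv.Perm (Fin m) := Equiv.ofBijective κ (Finite.injective_iff_bijective.mp hinj)
  rcases hρ (κ i0) with h3 | ⟨l, hl, _, h3, _⟩
  · refine h3.2 ⟨σ, ρ, β, rfl, fun i hi => ?_, hβ, h⟩
    change NS L i (ρ (κ i))
    rcases hρ (κ i) with h4 | ⟨l, _, h4⟩
    · exact absurd (h4.1 i hi) (hκ i)
    · by_cases hil : i = l
      · rwa [hil] at h4 ⊢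
      · obtain ⟨_, h5, _⟩ := h4
        exact absurd (h5 i hil) (hκ i)
  · exact hκ i0 (h3 i0 hl.symm)

lemma propF [Fact q.Prime] (u v : Fin m → ℤ) (U L : ℤ) (i0 : Fin m) (hu : ∀ i, u i ≠ 0)
    (hv : ∀ i, v i ≠ 0) (hu' : ∀ i, |u i| ≤ U) (hv' : ∀ i, |v i| ≤ U) (hL : 2 * U ^ 3 < L)
    (hq : 4 * U ^ 3 * L + L ≤ q) (hq' : U < q)
    (hne : ¬ ∃ κ : Equiv.Perm (Fin m), ∀ i, u i * v (κ i0) = u i0 * v (κ i))
    (y : Fin m × Option (Fin 3) → ZMod q) :
    ∃ ρ : Fin m → Fin m × Option (Fin 3) → ZMod q, (∀ k, InR v U (L : ZMod q) i0 (ρ k)) ∧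
      ∀ x, ∑ k, (u k : ZMod q) * ρ k x = y x := by
  have hu0 : ∀ i, (u i : ZMod q) ≠ 0 := by
    intro i h
    rw [ZMod.intCast_zmod_eq_zero_iff_dvd] at h
    exact hu i (Int.eq_zero_of_abs_lt_dvd h (lt_of_le_of_lt (hu' i) hq'))
  let r : Fin 3 → Fin m → Fin m × Option (Fin 3) → ZMod q := fun β i x =>
    if x.1 = i then (if x.2 = none then y x / u i else if x.2 = some β then L else 0) else 0
  let w : Fin 3 → Fin m × Option (Fin 3) → ZMod q := fun β x =>
    (y x - ∑ i ∈ Finset.univ.erase i0, (u i : ZMod q) * r β i x) / u i0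
  have hsum : ∀ β x, x.1 ≠ i0 → ∑ i ∈ Finset.univ.erase i0, (u i : ZMod q) * r β i x =
      u x.1 * (if x.2 = none then y x / u x.1 else if x.2 = some β then L else 0) := by
    intro β x hx
    rw [Finset.sum_eq_single x.1]
    · simp only [r, if_true]
    · intro j _ hj
      simp only [r, if_neg (Ne.symm hj), mul_zero]
    · intro h
      exact absurd (Finset.mem_erase.mpr ⟨hx, Finset.mem_univ _⟩) h
  by_cases hZ : ∃ β, ¬ Z v U (L : ZMod q) i0 (w β)
  · obtain ⟨β, hβ⟩ := hZ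
    refine ⟨Function.update (r β) i0 (w β), fun k => ?_, fun x => ?_⟩
    · by_cases hk : k = i0
      · rw [hk, Function.update_self]
        refine Or.inl ⟨fun i hi => ?_, hβ⟩
        simp only [w]
        rw [hsum β (i, none) hi]
        simp [mul_div_cancel₀ _ (hu0 i)]
      · rw [Function.update_of_ne hk]
        refine Or.inr ⟨k, hk, β, fun j hj => by simp [r, hj], fun j γ => ?_⟩
        by_cases hj : j = k <;> simp [r, hj]
    · rw [← Finset.add_sum_erase _ _ (Finset.mem_univ i0), Function.update_self,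
        Finset.sum_congr rfl (g := fun i => (u i : ZMod q) * r β i x) (fun i hi => by
          rw [Function.update_of_ne (Finset.ne_of_mem_erase hi)])]
      simp only [w]
      rw [mul_div_cancel₀ _ (hu0 i0)]
      ring
  · exfalso
    push Not at hZ
    choose κ ρ s h1 h2 h3 h4 using hZ
    choose! b hb1 hb2 using h2
    refine hne ⟨κ 0, fun i => ?_⟩
    by_cases hi : i = i0
    · rw [hi]
    have key : ∀ β γ : Fin 3, (v (κ β i0) : ZMod q) * (y (i, some γ) -
        u i * (if γ = β then (L : ZMod q) else 0)) + u i0 * (v (κ β i) *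
          (if γ = b β i then (L : ZMod q) else 0) + s β (i, some γ)) = 0 := by
      intro β γ
      have e := h4 β (i, some γ)
      rw [← Equiv.sum_comp (κ β), ← Finset.add_sum_erase _ _ (Finset.mem_univ i0), h1,
        Finset.sum_eq_single i] at e
      · rw [hb2 β i hi] at e
        simp only [w] at e
        rw [hsum β (i, some γ) hi] at e
        simp only [tgt, reduceCtorEq, if_false, Option.some.injEq, true_and] at e
        have := hu0 i0
        field_simp at e
        linear_combination e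
      · intro j hj hji
        rw [hb2 β j (Finset.ne_of_mem_erase hj), if_neg (fun h => hji h.1.symm), mul_zero]
      · intro h
        exact absurd (Finset.mem_erase.mpr ⟨hi, Finset.mem_univ _⟩) h
    have E : ∀ β1 β2 γ : Fin 3, _ := fun β1 β2 γ =>
      elim (hu' i) (hu' i0) (hv' _) (hv' _) (hv' _) (hv' _) (h3 β1 _) (h3 β2 _) hL hq
        (key β1 γ) (key β2 γ)
    have nz : ∀ β1 β2 : Fin 3, v (κ β1 i0) * v (κ β2 i0) * u i ≠ 0 := fun β1 β2 =>
      mul_ne_zero (mul_ne_zero (hv _) (hv _)) (hu i)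
    have pair : ∀ β1 β2 : Fin 3, β1 ≠ β2 → β1 = b β1 i ∨ β1 = b β2 i := by
      intro β1 β2 hb
      by_contra hc
      push Not at hc
      have := E β1 β2 β1
      simp only [if_neg hb, if_neg hc.1, if_neg hc.2, if_true, mul_zero, zero_sub, sub_zero,
        add_zero, neg_eq_zero] at this
      exact nz _ _ this
    have p1 := pair 0 1 (by decide)
    have p2 := pair 1 0 (by decide)
    have p3 := pair 0 2 (by decide)
    have p4 := pair 2 0 (by decide)
    have b0 : (0 : Fin 3) = b 0 i := by omega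
    have b1 : (0 : Fin 3) ≠ b 1 i := by omega
    have := E 0 1 0
    simp only [if_neg (show (0 : Fin 3) ≠ 1 by decide), if_pos b0, if_neg b1, if_true, mul_zero,
      zero_sub, sub_zero] at this
    apply mul_left_cancel₀ (hv (κ 1 i0))
    linear_combination -this

end constr

theorem main (m : ℕ) (hm : 3 ≤ m) (u v : Fin m → ℤ) (hu : ∀ i, u i ≠ 0) (hv : ∀ i, v i ≠ 0)
    (gu : Finset.univ.gcd u = 1) (gv : Finset.univ.gcd v = 1)
    (hne : ¬ ∃ σ : Equiv.Perm (Fin m), (∀ i, v i = u (σ i)) ∨ (∀ i, v i = -u (σ i))) :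
    ∃ A : Finset ℤ,
      ((Fintype.piFinset fun _ : Fin m => A).image (fun a : Fin m → ℤ => ∑ i, v i * a i)).card <
      ((Fintype.piFinset fun _ : Fin m => A).image (fun a : Fin m → ℤ => ∑ i, u i * a i)).card := by
  classical
  let i0 : Fin m := ⟨0, by omega⟩
  set U : ℤ := ∑ i, |v i| + 1 + ∑ i, |u i| with hU
  have s1 : 0 ≤ ∑ i, |v i| := Finset.sum_nonneg (fun i _ => abs_nonneg _)
  have s2 : 0 ≤ ∑ i, |u i| := Finset.sum_nonneg (fun i _ => abs_nonneg _)
  have hu' : ∀ i, |u i| ≤ U := fun i => by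
    have := Finset.single_le_sum (f := fun i => |u i|) (fun i _ => abs_nonneg _) (Finset.mem_univ i)
    linarith
  have hv' : ∀ i, |v i| ≤ U := fun i => by
    have := Finset.single_le_sum (f := fun i => |v i|) (fun i _ => abs_nonneg _) (Finset.mem_univ i)
    linarith
  have hU1 : 1 ≤ U := by linarith
  have hU3 : U ≤ U ^ 3 := le_self_pow₀ hU1 (by norm_num)
  set L : ℤ := 2 * U ^ 3 + 1 with hL
  obtain ⟨q, hq1, hq2⟩ := Nat.exists_infinite_primes (4 * U ^ 3 * L + L).toNat
  have hq : 4 * U ^ 3 * L + L ≤ q := by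
    have := Int.self_le_toNat (4 * U ^ 3 * L + L)
    have h2 : ((4 * U ^ 3 * L + L).toNat : ℤ) ≤ q := by exact_mod_cast hq1
    linarith
  have : Fact q.Prime := ⟨hq2⟩
  have hq' : U < q := by nlinarith
  refine amplify (ι := Fin m × Option (Fin 3)) (q := q) u v
    (Finset.univ.filter (InR v U (L : ZMod q) i0)) U (by linarith) hq'.le (tgt L) ?_ ?_
  · intro y
    obtain ⟨ρ, h1, h2⟩ := propF u v U L i0 hu hv hu' hv' (by linarith) hq hq' (by
      rintro ⟨κ, hκ⟩
      have d1 : u i0 ∣ v (κ i0) := by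
        have : u i0 ∣ Finset.univ.gcd (fun i => u i * v (κ i0)) :=
          Finset.dvd_gcd (fun i _ => ⟨_, hκ i⟩)
        rwa [Finset.gcd_mul_right, gu, one_mul, dvd_normalize_iff] at this
      have d2 : v (κ i0) ∣ u i0 := by
        have : v (κ i0) ∣ Finset.univ.gcd (fun k => v k * u i0) :=
          Finset.dvd_gcd (fun k _ => ⟨u (κ.symm k), by
            have := hκ (κ.symm k)
            rw [Equiv.apply_symm_apply] at this
            linarith⟩)
        rwa [Finset.gcd_mul_right, gv, one_mul, dvd_normalize_iff] at this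
      refine hne ⟨κ.symm, ?_⟩
      rcases Int.associated_iff.mp (associated_of_dvd_dvd d2 d1) with h | h
      · left
        intro k
        have := hκ (κ.symm k)
        rw [Equiv.apply_symm_apply, h] at this
        apply mul_left_cancel₀ (hu i0)
        linarith
      · right
        intro k
        have := hκ (κ.symm k)
        rw [Equiv.apply_symm_apply, h] at this
        apply mul_left_cancel₀ (hu i0)
        linarith) y
    exact ⟨ρ, fun k => Finset.mem_filter.mpr ⟨Finset.mem_univ _, h1 k⟩, h2⟩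
  · intro ρ hρ β hβ
    refine propG v U _ i0 (fun b hb h => ?_) ρ (fun k => (Finset.mem_filter.mp (hρ k)).2) β hβ
    have := cong (q := q) (a := 1) (b := -b) (L := L) (M := 4 * U ^ 3) (by rw [abs_one]; linarith)
      (by rw [abs_neg]; linarith) hq (by push_cast; rw [h]; ring)
    exact one_ne_zero this

end Pool.Agent.H27.LinForms
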