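import Mathlib

set_option autoImplicit false

namespace Pool.Agent.H27.LinSubst

open Polynomial

lemma not_irred (k : ℕ) (F : Type) [Field F] [Fintype F] [CharP F 2]
    (hF : Fintype.card F = 2 ^ (2 * k)) (a b : F) :
    ¬ Irreducible (C a * X + C b + X ^ 4 : F[X]) := by
  intro hi
  set g : F[X] := C a * X + C b + X ^ 4 with hg
  have hdeg : g.natDegree = 4 := by
    rw [hg]
    compute_degree!
  haveI : Fact (Irreducible g) := ⟨hi⟩
  haveI : CharP (AdjoinRoot g) 2 := charP_of_injective_algebraMap' F 2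
  set q := Fintype.card F with hq
  set β := AdjoinRoot.root g with hβ
  set A : AdjoinRoot g := algebraMap F _ a with hA
  set B : AdjoinRoot g := algebraMap F _ b with hB
  have hroot : aeval β g = 0 := by simp [hβ]
  have h0 : A * β + B + β ^ 4 = 0 := by
    simpa [hg, hA, hB] using hroot
  have hadd : ∀ x y : AdjoinRoot g, (x + y) ^ q = x ^ q + y ^ q := by
    intro x y
    rw [hF]
    exact add_pow_char_pow x y 2 (2 * k)
  have hAq : A ^ q = A := by rw [hA, ← map_pow, FiniteField.pow_card]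
  have hBq : B ^ q = B := by rw [hB, ← map_pow, FiniteField.pow_card]
  have h2 : (2 : AdjoinRoot g) = 0 := CharTwo.two_eq_zero
  have hq0 : q ≠ 0 := Fintype.card_ne_zero
  have key : ∀ n, β ^ q ^ n = β → 4 ∣ n := by
    intro n hn
    rw [← hdeg]
    apply hi.natDegree_dvd_of_dvd_X_pow_card_pow_sub_X
    rw [← hi.dvd_iff_aeval_eq_zero hroot, Nat.card_eq_fintype_card]
    simp [← hq, hn]
  have h1 : A * β ^ q + B + (β ^ q) ^ 4 = 0 := by
    have := congrArg (· ^ q) h0
    simp only [hadd, mul_pow, hAq, hBq, zero_pow hq0] at this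
    rw [← pow_mul, mul_comm 4 q, pow_mul] at this
    exact this
  obtain ⟨γ, hγ⟩ : ∃ γ, β ^ q = β + γ := ⟨β ^ q - β, by ring⟩
  have hγ0 : γ ≠ 0 := by
    rintro rfl
    have := key 1 (by simpa using hγ)
    omega
  have h3 : γ ^ 3 = A := by
    apply mul_left_cancel₀ hγ0
    rw [hγ] at h1
    linear_combination h1 - h0 - (A * γ + 2 * β ^ 3 * γ + 3 * β ^ 2 * γ ^ 2 + 2 * β * γ ^ 3) * h2
  obtain ⟨ω, hω⟩ : ∃ ω, γ ^ q = ω * γ := ⟨γ ^ q / γ, by field_simp⟩
  have hω3 : ω ^ 3 = 1 := by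
    have e : (γ ^ q) ^ 3 = γ ^ 3 := by
      rw [← pow_mul, mul_comm q 3, pow_mul, h3, hAq]
    rw [hω, mul_pow] at e
    exact mul_right_cancel₀ (pow_ne_zero 3 hγ0) (by rw [e, one_mul])
  have hωq : ω ^ q = ω := by
    have : q % 3 = 1 := by
      rw [hF, pow_mul]
      simp [Nat.pow_mod]
    rw [← Nat.div_add_mod q 3, this, pow_add, pow_mul, hω3]
    simp
  have e2 : β ^ q ^ 2 = β + γ + ω * γ := by
    rw [sq, pow_mul, hγ, hadd, hγ, hω]
  have e3 : β ^ q ^ 3 = β + γ + ω * γ + ω * (ω * γ) := by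
    rw [pow_succ, pow_mul, e2, hadd, hadd, hγ, mul_pow, hω, hωq]
  have e4 : (ω - 1) * (ω ^ 2 + ω + 1) = 0 := by linear_combination hω3
  rcases mul_eq_zero.mp e4 with h | h
  · have := key 2 (by rw [e2]; linear_combination γ * h + γ * h2)
    omega
  · have := key 3 (by rw [e3]; linear_combination γ * h)
    omega

lemma irred (F : Type) [Field F] :
    Irreducible (MvPolynomial.X 0 + MvPolynomial.X 1 ^ 4 : MvPolynomial (Fin 2) F) := by
  rw [← MulEquiv.irreducible_iff (MvPolynomial.finSuccEquiv F 1)]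
  have : (MvPolynomial.finSuccEquiv F 1) (MvPolynomial.X 0 + MvPolynomial.X 1 ^ 4) =
      X - C (-(MvPolynomial.X 0 ^ 4)) := by
    rw [map_add, map_pow, MvPolynomial.finSuccEquiv_X_zero,
      show (1 : Fin 2) = Fin.succ 0 from rfl, MvPolynomial.finSuccEquiv_X_succ]
    simp
  rw [this]
  exact irreducible_X_sub_C _

lemma tdeg (F : Type) [Field F] :
    (MvPolynomial.X 0 + MvPolynomial.X 1 ^ 4 : MvPolynomial (Fin 2) F).totalDegree = 4 := by
  rw [MvPolynomial.totalDegree_add_eq_right_of_totalDegree_lt, MvPolynomial.totalDegree_X_pow]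
  rw [MvPolynomial.totalDegree_X_pow, MvPolynomial.totalDegree_X]
  norm_num

end Pool.Agent.H27.LinSubst
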