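import Mathlib

set_option autoImplicit false

namespace Pool.Agent.H27.MetDim

open Finset SimpleGraph

variable {V : Type} {G : SimpleGraph V}

lemma adj_le (hc : G.Connected) (r : V) {x y : V} (h : G.Adj x y) :
    G.dist r y ≤ G.dist r x + 1 := by
  have h1 : G.dist x y = 1 := dist_eq_one_iff_adj.mpr h
  have := hc.dist_triangle (u := r) (v := x) (w := y)
  omega

lemma step (hc : G.Connected) {u w : V} (h : u ≠ w) :
    ∃ x, G.Adj w x ∧ G.dist u x + 1 = G.dist u w := by
  obtain ⟨p, hp⟩ := hc.exists_walk_length_eq_dist w u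
  cases p with
  | nil => exact absurd rfl h
  | @cons _ x _ hx q =>
    refine ⟨x, hx, ?_⟩
    have h1 := dist_le q
    have h2 := adj_le hc u hx.symm
    rw [Walk.length_cons] at hp
    rw [dist_comm (u := w)] at hp
    rw [dist_comm (u := x)] at h1
    omega

/-- a vertex with no neighbour further from the root -/
def Sink (G : SimpleGraph V) (r s : V) : Prop := ∀ x, G.Adj s x → G.dist r x ≤ G.dist r s

/-- `w` lies below `u` -/
def Below (G : SimpleGraph V) (r u w : V) : Prop := G.dist r u + G.dist u w = G.dist r w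

lemma exists_sink [Finite V] (hc : G.Connected) (r u : V) : ∃ s, Sink G r s ∧ Below G r u s := by
  obtain ⟨s, hs, hmax⟩ := Set.exists_max_image {w | Below G r u w} (G.dist r) (Set.toFinite _)
    ⟨u, by simp [Below]⟩
  refine ⟨s, fun x hx => ?_, hs⟩
  by_contra hlt
  have h1 := adj_le hc r hx
  have h2 := adj_le hc u hx
  have h3 := hc.dist_triangle (u := r) (v := u) (w := x)
  have h4 : Below G r u s := hs
  have : Below G r u x := by unfold Below at *; omega
  have := hmax x this
  omega

lemma meet [Finite V] (hc : G.Connected) (r : V) {u v : V} (huv : u ≠ v)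
    (hl : G.dist r u = G.dist r v) {s : V} (h1 : Below G r u s) (h2 : Below G r v s) :
    ∃ w x y, G.Adj w x ∧ G.Adj w y ∧ G.dist r x + 1 = G.dist r w ∧ G.dist r y + 1 = G.dist r w ∧
      Below G r u x ∧ ¬ Below G r v x ∧ Below G r v y ∧ ¬ Below G r u y := by
  obtain ⟨w, ⟨hu, hv⟩, hmin⟩ := Set.exists_min_image {w | Below G r u w ∧ Below G r v w}
    (G.dist r) (Set.toFinite _) ⟨s, h1, h2⟩
  have hwu : u ≠ w := by
    rintro rfl
    have := hc.pos_dist_of_ne huv.symm
    unfold Below at hv; omega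
  have hwv : v ≠ w := by
    rintro rfl
    have := hc.pos_dist_of_ne huv
    unfold Below at hu; omega
  obtain ⟨x, hx, hx'⟩ := step hc hwu
  obtain ⟨y, hy, hy'⟩ := step hc hwv
  have a1 := adj_le hc r hx.symm
  have a2 := adj_le hc r hy.symm
  have a3 := hc.dist_triangle (u := r) (v := u) (w := x)
  have a4 := hc.dist_triangle (u := r) (v := v) (w := y)
  have bx : Below G r u x := by unfold Below at *; omega
  have by' : Below G r v y := by unfold Below at *; omega
  have cx : G.dist r x + 1 = G.dist r w := by unfold Below at *; omega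
  have cy : G.dist r y + 1 = G.dist r w := by unfold Below at *; omega
  refine ⟨w, x, y, hx, hy, cx, cy, bx, fun h => ?_, by', fun h => ?_⟩
  · have := hmin x ⟨bx, h⟩; omega
  · have := hmin y ⟨h, by'⟩; omega

/-- every vertex keeps at most one of its upper neighbours outside `S` -/
def UpOK (G : SimpleGraph V) (r : V) (S : Set V) : Prop :=
  ∀ w x y, G.Adj w x → G.Adj w y → G.dist r x + 1 = G.dist r w → G.dist r y + 1 = G.dist r w →
    x ≠ y → x ∈ S ∨ y ∈ S

lemma sep [Finite V] (hc : G.Connected) (r : V) {S : Set V} (hs : ∀ s, Sink G r s → s ∈ S)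
    (hU : UpOK G r S) {u v : V} (huv : u ≠ v) (hl : G.dist r u = G.dist r v) :
    ∃ s ∈ S, ¬ (Below G r u s ↔ Below G r v s) := by
  by_contra hcon
  push Not at hcon
  obtain ⟨s, h1, h2⟩ := exists_sink hc r u
  obtain ⟨w, x, y, a1, a2, a3, a4, a5, a6, a7, a8⟩ :=
    meet hc r huv hl h2 ((hcon s (hs s h1)).mp h2)
  rcases hU w x y a1 a2 a3 a4 (by rintro rfl; exact a6 a7) with h | h
  · exact a6 ((hcon x h).mp a5)
  · exact a8 ((hcon y h).mpr a7)

lemma tri (hc : G.Connected) (r u s : V) : G.dist r s ≤ G.dist r u + G.dist s u := by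
  rw [dist_comm (u := s)]; exact hc.dist_triangle

lemma below_iff (r u s : V) : Below G r u s ↔ G.dist r u + G.dist s u = G.dist r s := by
  rw [dist_comm (u := s)]; rfl

lemma vert [Finite V] (hc : G.Connected) (r : V) {S : Set V} (hs : ∀ s, Sink G r s → s ∈ S)
    (hU : UpOK G r S) (u v : V) (huv : u ≠ v) : ∃ s ∈ S, G.dist s u ≠ G.dist s v := by
  rcases lt_trichotomy (G.dist r u) (G.dist r v) with h | h | h
  · obtain ⟨s, h1, h2⟩ := exists_sink hc r v
    have := tri hc r u s
    rw [below_iff] at h2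
    exact ⟨s, hs s h1, by omega⟩
  · obtain ⟨s, h1, h2⟩ := sep hc r hs hU huv h
    rw [below_iff, below_iff] at h2
    exact ⟨s, h1, by omega⟩
  · obtain ⟨s, h1, h2⟩ := exists_sink hc r u
    have := tri hc r v s
    rw [below_iff] at h2
    exact ⟨s, hs s h1, by omega⟩

/-- each level edge has both ends in `S`, or one end in `S` and a witness below the other -/
def HorOK (G : SimpleGraph V) (r : V) (S : Set V) : Prop :=
  ∀ a b, G.Adj a b → G.dist r a = G.dist r b → b ∉ S →
    a ∈ S ∧ (∀ z, G.Adj a z → G.dist r a = G.dist r z → z ≠ b → z ∈ S) ∧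
      ∃ s ∈ S, Below G r b s ∧ ¬ Below G r a s

lemma zero_sep (hc : G.Connected) {a b c d : V} (h1 : a ≠ c) (h2 : a ≠ d) :
    min (G.dist a a) (G.dist a b) ≠ min (G.dist a c) (G.dist a d) := by
  have := hc.pos_dist_of_ne h1
  have := hc.pos_dist_of_ne h2
  rw [dist_self]; omega

lemma edge_hor (hc : G.Connected) (r : V) {S : Set V} (hH : HorOK G r S) {a b c d : V}
    (hab : G.Adj a b) (hcd : G.Adj c d) (hne : s(a, b) ≠ s(c, d))
    (h1 : G.dist r a = G.dist r b) (h2 : G.dist r c ≤ G.dist r a) (h3 : G.dist r d ≤ G.dist r a)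
    (ha : a ∈ S) :
    ∃ s ∈ S, min (G.dist s a) (G.dist s b) ≠ min (G.dist s c) (G.dist s d) := by
  wlog hac : a ≠ d generalizing c d
  · push Not at hac
    have := this hcd.symm (by rwa [Sym2.eq_swap (a := d)]) h3 h2 (hac ▸ hcd.ne')
    simpa only [min_comm (G.dist _ d)] using this
  by_cases hc' : a = c
  swap
  · exact ⟨a, ha, zero_sep hc hc' hac⟩
  subst hc'
  have hbd : b ≠ d := by rintro rfl; exact hne rfl
  by_cases hb : b ∈ S
  · refine ⟨b, hb, ?_⟩
    rw [min_comm]
    exact zero_sep hc hab.ne' hbd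
  obtain ⟨-, k1, s, k2, k3, k4⟩ := hH a b hab h1 hb
  by_cases hd : G.dist r a = G.dist r d
  · refine ⟨d, k1 d hcd hd hbd.symm, ?_⟩
    rw [min_comm (G.dist d a) (G.dist d d)]
    exact (zero_sep hc hac.symm hbd.symm).symm
  · refine ⟨s, k2, ?_⟩
    rw [below_iff] at k3 k4
    have := tri hc r a s
    have := tri hc r d s
    omega

lemma edge [Finite V] (hc : G.Connected) (r : V) {S : Set V} (hs : ∀ s, Sink G r s → s ∈ S)
    (hU : UpOK G r S) (hH : HorOK G r S) (a b c d : V)
    (hab : G.Adj a b) (hcd : G.Adj c d) (hne : s(a, b) ≠ s(c, d)) :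
    ∃ s ∈ S, min (G.dist s a) (G.dist s b) ≠ min (G.dist s c) (G.dist s d) := by
  wlog h1 : G.dist r a ≤ G.dist r b generalizing a b
  · have := this b a hab.symm (by rwa [Sym2.eq_swap (a := b)]) (by omega)
    simpa only [min_comm (G.dist _ b)] using this
  wlog h2 : G.dist r c ≤ G.dist r d generalizing c d
  · have := this d c hcd.symm (by rwa [Sym2.eq_swap (a := d)]) (by omega)
    simpa only [min_comm (G.dist _ d)] using this
  wlog h3 : G.dist r d ≤ G.dist r b generalizing a b c d
  · obtain ⟨s, h, h'⟩ := this c d hcd h2 a b hab hne.symm h1 (by omega)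
    exact ⟨s, h, h'.symm⟩
  rcases h3.lt_or_eq with h3 | h3
  · obtain ⟨s, k1, k2⟩ := exists_sink hc r b
    rw [below_iff] at k2
    have := tri hc r c s
    have := tri hc r d s
    exact ⟨s, hs s k1, by omega⟩
  have hor : ∀ a b c d, G.Adj a b → G.Adj c d → s(a, b) ≠ s(c, d) → G.dist r a = G.dist r b →
      G.dist r c ≤ G.dist r a → G.dist r d ≤ G.dist r a →
      ∃ s ∈ S, min (G.dist s a) (G.dist s b) ≠ min (G.dist s c) (G.dist s d) := by
    intro a b c d hab hcd hne e1 e2 e3
    by_cases ha : a ∈ S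
    · exact edge_hor hc r hH hab hcd hne e1 e2 e3 ha
    · have := edge_hor hc r hH hab.symm hcd (by rwa [Sym2.eq_swap (a := b)]) e1.symm (by omega)
        (by omega) (hH b a hab.symm e1.symm ha).1
      simpa only [min_comm (G.dist _ b)] using this
  rcases h1.lt_or_eq with h1 | h1
  swap
  · exact hor a b c d hab hcd hne h1 (by omega) (by omega)
  rcases h2.lt_or_eq with h2 | h2
  swap
  · obtain ⟨s, h, h'⟩ := hor c d a b hcd hab hne.symm h2 (by omega) (by omega)
    exact ⟨s, h, h'.symm⟩
  have e1 := adj_le hc r hab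
  have e2 := adj_le hc r hcd
  by_cases hbd : b = d
  · subst hbd
    have hac : a ≠ c := by rintro rfl; exact hne rfl
    rcases hU b a c hab.symm hcd.symm (by omega) (by omega) hac with h | h
    · exact ⟨a, h, zero_sep hc hac hab.ne⟩
    · exact ⟨c, h, (zero_sep hc hac.symm hcd.ne).symm⟩
  · obtain ⟨s, k1, k2⟩ := sep hc r hs hU hbd h3.symm
    rw [below_iff, below_iff] at k2
    have := tri hc r a s
    have := tri hc r b s
    have := tri hc r c s
    have := tri hc r d s
    exact ⟨s, k1, by omega⟩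

end Pool.Agent.H27.MetDim
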