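import Mathlib
import Pool.Agent.H27.MetDim

set_option autoImplicit false

namespace Pool.Agent.H27.LocDim

open Finset SimpleGraph Classical

lemma bondy {V : Type} (C : Finset V) (hC : C.Nonempty) (f : V → V → ℕ) (p q : V → V)
    (L : Finset V) (h : ∀ w ∈ L, p w ∈ C ∧ q w ∈ C ∧ f (p w) w ≠ f (q w) w ∧
      ∀ w' ∈ L, w' ≠ w → f (p w) w' = f (q w) w') : L.card + 1 ≤ C.card := by
  have key : ∀ S ⊆ L, S.card + 1 ≤
      (C.image fun u => fun w => if w ∈ S then f u w else 0).card := by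
    intro S
    induction S using Finset.induction_on with
    | empty => exact fun _ => card_pos.mpr (hC.image _)
    | @insert a S ha ih =>
      intro hS
      have h1 := ih ((subset_insert _ _).trans hS)
      obtain ⟨a1, a2, a3, a4⟩ := h a (hS (mem_insert_self _ _))
      have e : (C.image fun u => fun w => if w ∈ S then f u w else 0) =
          (C.image fun u => fun w => if w ∈ insert a S then f u w else 0).image
            fun g w => if w ∈ S then g w else 0 := by
        rw [image_image]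
        refine image_congr fun u _ => funext fun w => ?_
        by_cases hw : w ∈ S <;> simp [hw]
      rw [e] at h1
      rw [card_insert_of_notMem ha]
      refine Nat.succ_le_of_lt (h1.trans_lt (lt_of_le_of_ne card_image_le fun k => ?_))
      have := congrFun (card_image_iff.mp k (mem_coe.mpr (mem_image_of_mem _ a1))
        (mem_coe.mpr (mem_image_of_mem _ a2)) (funext fun w => by
          by_cases hw : w ∈ S
          · simp [hw, a4 w (hS (mem_insert_of_mem hw)) (by rintro rfl; exact ha hw)]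
          · simp [hw])) a
      exact a3 (by simpa using this)
  exact (key L Subset.rfl).trans card_image_le

variable {V : Type} [Fintype V] (G : SimpleGraph V)

/-- local resolving set -/
def Res (W : Finset V) : Prop := ∀ u v : V, G.Adj u v → ∃ w ∈ W, G.dist u w ≠ G.dist v w

/-- closed neighbourhood inside `W` -/
noncomputable def cl (W : Finset V) (v : V) : Finset V := W.filter fun x => x = v ∨ G.Adj v x

/-- `v` lies in a complete component of `W` with `m` vertices -/
def Isol (m : ℕ) (W : Finset V) (v : V) : Prop :=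
  v ∈ W ∧ (cl G W v).card = m ∧ ∀ x ∈ cl G W v, cl G W x = cl G W v

variable {G}

lemma swap_iso {m : ℕ} {W : Finset V} {z w a : V} (hz : z ∉ W) (hw : Isol G m W w)
    (ha : Isol G m W a) (hwa : w ∉ cl G W a) (hza : G.Adj z a) (v : V)
    (hv : Isol G m (insert z (W.erase w)) v) : Isol G m W v ∧ v ≠ w := by
  obtain ⟨h1, h2, h3⟩ := hv
  have haw : a ≠ w := by
    rintro rfl
    exact hwa (by simp [cl, ha.1])
  have hzv : z ∉ cl G (insert z (W.erase w)) v := by
    intro k
    have k1 : a ∈ cl G (insert z (W.erase w)) z := by simp [cl, hza, ha.1, haw]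
    rw [h3 z k] at k1
    have k2 : insert z (cl G W a) ⊆ cl G (insert z (W.erase w)) a := by
      intro x hx
      rcases mem_insert.mp hx with rfl | hx
      · simp [cl, hza.symm]
      · have : x ≠ w := by rintro rfl; exact hwa hx
        simp only [cl, mem_filter, mem_insert, mem_erase] at hx ⊢
        exact ⟨Or.inr ⟨this, hx.1⟩, hx.2⟩
    have := card_le_card k2
    rw [card_insert_of_notMem (s := cl G W a) (fun k => hz (mem_filter.mp k).1), h3 a k1, h2,
      ha.2.1] at this
    omega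
  have e : ∀ x ∈ cl G (insert z (W.erase w)) v, cl G W x = cl G (insert z (W.erase w)) v := by
    intro x hx
    have hx' := h3 x hx
    have sub : cl G (insert z (W.erase w)) x ⊆ (cl G W x).erase w := by
      intro y hy
      have : y ≠ z := by rintro rfl; exact hzv (hx' ▸ hy)
      simp only [cl, mem_filter, mem_insert, mem_erase, this, false_or] at hy ⊢
      exact ⟨hy.1.1, hy.1.2, hy.2⟩
    have hwx : w ∉ cl G W x := by
      intro k
      have hxz : x ≠ z := by rintro rfl; exact hzv hx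
      have k1 : x ∈ cl G W w := by
        simp only [cl, mem_filter, mem_insert, mem_erase, hxz, false_or] at hx k ⊢
        exact ⟨hx.1.2, k.2.imp Eq.symm Adj.symm⟩
      have := card_le_card sub
      have k2 := card_erase_add_one k
      rw [hw.2.2 x k1, hw.2.1] at k2
      rw [hx', h2, hw.2.2 x k1] at this
      omega
    rw [← hx']
    refine Subset.antisymm (fun y hy => ?_) (sub.trans (erase_subset _ _))
    have : y ≠ w := by rintro rfl; exact hwx hy
    simp only [cl, mem_filter, mem_insert, mem_erase] at hy ⊢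
    exact ⟨Or.inr ⟨this, hy.1⟩, hy.2⟩
  have hvv : v ∈ cl G (insert z (W.erase w)) v := by simp only [cl, mem_filter, h1]; simp
  have hvz : v ≠ z := by rintro rfl; exact hzv hvv
  have hvW := mem_erase.mp ((mem_insert.mp h1).resolve_left hvz)
  refine ⟨⟨hvW.2, by rw [e v hvv, h2], fun x hx => ?_⟩, hvW.1⟩
  rw [e v hvv] at hx ⊢
  exact e x hx

theorem main (hc : G.Connected) (k : ℕ) (hk : 3 ≤ k) (hn : k + 1 ≤ Fintype.card V)
    (hK : ∀ s : Finset V, G.IsClique s → s.card ≤ k) :
    ∃ W : Finset V, Res G W ∧ W.card ≤ (k - 2) * Wᶜ.card := by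
  have d1 : ∀ {a b : V}, G.dist a b = 1 ↔ G.Adj a b := dist_eq_one_iff_adj
  have self : ∀ {W : Finset V} {a b : V}, G.Adj a b → a ∈ W ∨ b ∈ W →
      ∃ w ∈ W, G.dist a w ≠ G.dist b w := by
    rintro W a b h (k | k)
    · exact ⟨a, k, by simp [d1.mpr h.symm]⟩
    · exact ⟨b, k, by simp [d1.mpr h]⟩
  obtain ⟨W0, h0, hmin0⟩ := Set.exists_min_image {W | Res G W} Finset.card (Set.toFinite _)
    ⟨univ, fun a b h => self h (Or.inl (mem_univ _))⟩
  obtain ⟨W, ⟨hW, hW0⟩, hmin⟩ := Set.exists_min_image {W | Res G W ∧ W.card = W0.card}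
    (fun W => (univ.filter (Isol G (k - 1) W)).card) (Set.toFinite _) ⟨W0, h0, rfl⟩
  refine ⟨W, hW, ?_⟩
  let Lab : V → Prop := fun w => ∃ x y, x ∉ W ∧ y ∉ W ∧ G.Adj x y ∧
    ∀ w' ∈ W, w' ≠ w → G.dist x w' = G.dist y w'
  have ex : ∀ w, ∃ x y, w ∈ W → x ∉ W ∧ (Lab w → y ∉ W ∧ G.Adj x y ∧
      ∀ w' ∈ W, w' ≠ w → G.dist x w' = G.dist y w') ∧ (¬ Lab w → G.Adj w x ∧
      ∀ w' ∈ W, w' ≠ w → G.dist w w' = G.dist x w') := by
    intro w
    by_cases hl : Lab w
    · obtain ⟨x, y, h1, h2, h3, h4⟩ := id hl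
      exact ⟨x, y, fun _ => ⟨h1, fun _ => ⟨h2, h3, h4⟩, fun k => absurd hl k⟩⟩
    by_cases hw : w ∈ W
    swap
    · exact ⟨w, w, fun k => absurd k hw⟩
    have : ¬ Res G (W.erase w) := fun k => by
      have := hmin0 _ k
      have := card_erase_add_one hw
      omega
    simp only [Res, not_forall] at this
    obtain ⟨a, b, hab, h⟩ := this
    have h1 : a ∉ W.erase w := fun k => h (self hab (Or.inl k))
    have h2 : b ∉ W.erase w := fun k => h (self hab (Or.inr k))
    push Not at h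
    have h3 : ∀ w' ∈ W, w' ≠ w → G.dist a w' = G.dist b w' := fun w' k k' =>
      h w' (mem_erase.mpr ⟨k', k⟩)
    simp only [mem_erase, not_and] at h1 h2
    by_cases ha : a = w
    · subst ha
      exact ⟨b, b, fun _ => ⟨h2 hab.ne', fun k => absurd k hl, fun _ => ⟨hab, h3⟩⟩⟩
    by_cases hb : b = w
    · subst hb
      exact ⟨a, a, fun _ => ⟨h1 ha, fun k => absurd k hl, fun _ => ⟨hab.symm,
        fun w' k k' => (h3 w' k k').symm⟩⟩⟩
    exact absurd ⟨a, b, h1 ha, h2 hb, hab, h3⟩ hl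
  choose p q hpq using ex
  let φ : V → V → ℕ := fun u w => if w ∈ W ∧ ¬ Lab w then G.dist u w else 0
  let C : (V → ℕ) → Finset V := fun c => Wᶜ.filter fun u => φ u = c
  let L : (V → ℕ) → Finset V := fun c => W.filter fun w => φ (p w) = c ∧ Lab w
  let T : (V → ℕ) → Finset V := fun c => W.filter fun w => φ (p w) = c ∧ ¬ Lab w
  have mC : ∀ c u, u ∈ C c ↔ u ∉ W ∧ φ u = c := fun c u => by simp [C]
  have mT : ∀ c u, u ∈ T c ↔ u ∈ W ∧ φ (p u) = c ∧ ¬ Lab u := fun c u => by simp [T]
  have mL : ∀ c u, u ∈ L c ↔ u ∈ W ∧ φ (p u) = c ∧ Lab u := fun c u => by simp [L]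
  have same : ∀ {u v w}, φ u = φ v → w ∈ W → ¬ Lab w → G.dist u w = G.dist v w := by
    intro u v w h h1 h2
    simpa [φ, h1, h2] using congrFun h w
  have pC : ∀ c, ∀ w ∈ T c, p w ∈ C c := fun c w hw => by
    rw [mT] at hw; exact (mC _ _).mpr ⟨(hpq w hw.1).1, hw.2.1⟩
  have F1 : ∀ c, ∀ w ∈ T c, ∀ u ∈ C c, G.Adj u w := by
    intro c w hw u hu
    rw [mT] at hw; rw [mC] at hu
    rw [← d1, same (hu.2.trans hw.2.1.symm) hw.1 hw.2.2, d1]
    exact ((hpq w hw.1).2.2 hw.2.2).1.symm
  have F2 : ∀ c, G.IsClique (T c) := by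
    intro c w hw w' hw' h
    have := F1 c w' hw' _ (pC c w hw)
    rw [mem_coe, mT] at hw hw'
    rw [← d1, ((hpq w hw.1).2.2 hw.2.2).2 w' hw'.1 h.symm, d1]
    exact this
  have cl1 : ∀ c, ∀ u ∈ C c, G.IsClique (insert u (T c) : Finset V) := fun c u hu => by
    rw [coe_insert]
    exact (F2 c).insert fun w hw _ => F1 c w hw u hu
  have nT : ∀ c u, u ∉ W → u ∉ T c := fun c u hu k => hu ((mT _ _).mp k).1
  have F3 : ∀ c, ∀ u ∈ C c, (T c).card + 1 ≤ k := fun c u hu => by
    have := hK _ (cl1 c u hu)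
    rwa [card_insert_of_notMem (nT c u ((mC _ _).mp hu).1)] at this
  have big : ∀ c, ∀ u ∈ C c, ∀ v, v ∉ T c → G.Adj v u → (∀ w ∈ T c, G.Adj v w) →
      (T c).card + 2 ≤ k := by
    intro c u hu v h1 h2 h3
    have := hK (insert v (insert u (T c))) (by
      rw [coe_insert]
      refine (cl1 c u hu).insert fun w hw _ => ?_
      rcases mem_insert.mp hw with rfl | hw
      exacts [h2, h3 w hw])
    rwa [card_insert_of_notMem (by simp [h1, h2.ne]),
      card_insert_of_notMem (nT c u ((mC _ _).mp hu).1)] at this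
  have pqC : ∀ c, ∀ w ∈ L c, p w ∈ C c ∧ q w ∈ C c := by
    intro c w hw
    rw [mL] at hw
    obtain ⟨h1, h2, -⟩ := hpq w hw.1
    obtain ⟨h3, h4, h5⟩ := h2 hw.2.2
    refine ⟨(mC _ _).mpr ⟨h1, hw.2.1⟩, (mC _ _).mpr ⟨h3, hw.2.1 ▸ funext fun w' => ?_⟩⟩
    simp only [φ]
    split_ifs with k
    · exact (h5 w' k.1 (by rintro rfl; exact k.2 hw.2.2)).symm
    · rfl
  have F4 : ∀ c, (L c).Nonempty → (T c).card + 2 ≤ k := by
    rintro c ⟨w, hw⟩
    obtain ⟨h1, h2⟩ := pqC c w hw
    rw [mL] at hw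
    exact big c _ h2 _ (nT c _ ((mC _ _).mp h1).1) ((hpq w hw.1).2.1 hw.2.2).2.1
      fun w' k => F1 c w' k _ h1
  have F5 : ∀ c, (C c).Nonempty → (L c).card + 1 ≤ (C c).card := by
    intro c hc'
    refine bondy (C c) hc' G.dist p q (L c) fun w hw => ⟨(pqC c w hw).1, (pqC c w hw).2, ?_, ?_⟩
    · rw [mL] at hw
      obtain ⟨h3, h4, h5⟩ := (hpq w hw.1).2.1 hw.2.2
      obtain ⟨w', k1, k2⟩ := hW _ _ h4
      by_cases k3 : w' = w
      · exact k3 ▸ k2
      · exact absurd (h5 w' k1 k3) k2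
    · rw [mL] at hw
      exact fun w' k => ((hpq w hw.1).2.1 hw.2.2).2.2 w' ((mL _ _).mp k).1
  let Bad : (V → ℕ) → Prop := fun c => (C c).card = 1 ∧ (T c).card = k - 1
  have one : ∀ c, Bad c → ∀ u ∈ C c, ∀ v ∈ C c, u = v := fun c hb =>
    card_le_one.mp hb.1.le
  have dT : ∀ c, Bad c → ∀ u ∈ C c, ∀ w ∈ T c, ∀ w' ∈ W, w' ≠ w → G.dist w w' = G.dist u w' := by
    intro c hb u hu w hw w' h1 h2
    rw [one c hb u hu _ (pC c w hw)]
    rw [mT] at hw
    exact ((hpq w hw.1).2.2 hw.2.2).2 w' h1 h2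
  have F7 : ∀ c, Bad c → ∀ w ∈ T c, cl G W w = T c := by
    intro c hb w hw
    ext x
    simp only [cl, mem_filter]
    constructor
    · rintro ⟨h1, rfl | h2⟩
      · exact hw
      by_contra h3
      have hu := pC c w hw
      have h4 : G.Adj x (p w) := by
        rw [adj_comm, ← d1, ← dT c hb _ hu w hw x h1 h2.ne', d1]; exact h2
      have := big c _ hu x h3 h4 fun w' k => by
        rw [adj_comm, ← d1, dT c hb _ hu w' k x h1 (by rintro rfl; exact h3 k), d1]
        exact h4.symm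
      have := hb.2
      omega
    · intro h
      refine ⟨((mT _ _).mp h).1, ?_⟩
      by_cases e : x = w
      · exact Or.inl e
      · exact Or.inr (F2 c hw h (Ne.symm e))
  have iso : ∀ c, Bad c → ∀ w ∈ T c, Isol G (k - 1) W w := fun c hb w hw =>
    ⟨((mT _ _).mp hw).1, by rw [F7 c hb w hw, hb.2], fun x hx => by
      rw [F7 c hb w hw] at hx ⊢; exact F7 c hb x hx⟩
  by_cases hall : ∃ c, Bad c ∧ W ⊆ T c
  · obtain ⟨c, hb, h⟩ := hall
    have h1 := card_le_card h
    have h2 := card_compl W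
    have h3 := Nat.mul_le_mul_left (k - 2) (show 2 ≤ Wᶜ.card by have := hb.2; omega)
    have := hb.2
    omega
  have F8 : ∀ c, ∃ z, Bad c → z ∉ W ∧ z ∉ C c ∧ ∃ w ∈ T c, G.Adj z w := by
    intro c
    by_cases hb : Bad c
    swap
    · exact ⟨hc.nonempty.some, fun k => absurd k hb⟩
    obtain ⟨v, h1, h2⟩ := not_subset.mp fun k => hall ⟨c, hb, k⟩
    obtain ⟨w, hw⟩ := card_pos.mp (show 0 < (T c).card by have := hb.2; omega)
    have hvw : v ≠ w := by rintro rfl; exact h2 hw
    obtain ⟨z, k1, k2⟩ := MetDim.step hc hvw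
    rw [SimpleGraph.dist_comm, SimpleGraph.dist_comm (u := v)] at k2
    have hu := pC c w hw
    refine ⟨z, fun _ => ⟨fun k => ?_, fun k => ?_, w, hw, k1.symm⟩⟩
    · have : z ∈ T c := F7 c hb w hw ▸ mem_filter.mpr ⟨k, Or.inr k1⟩
      rw [dT c hb _ hu w hw v h1 hvw, dT c hb _ hu z this v h1 (by rintro rfl; exact h2 this)] at k2
      omega
    · rw [dT c hb z k w hw v h1 hvw] at k2
      omega
  choose z hz using F8
  have F9 : ∀ c, Bad c → T (φ (z c)) = ∅ := by
    intro c hb
    obtain ⟨h1, h2, w, hw, h3⟩ := hz c hb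
    refine eq_empty_of_forall_notMem fun w' hw' => h2 ?_
    have hw0 := (mT _ _).mp hw
    have hw1 := (mT _ _).mp hw'
    have : w' ∈ T c := by
      rw [← F7 c hb w hw]
      refine mem_filter.mpr ⟨hw1.1, ?_⟩
      by_cases e : w' = w
      · exact Or.inl e
      · right
        rw [adj_comm, ← d1, ((hpq w' hw1.1).2.2 hw1.2.2).2 w hw0.1 (Ne.symm e),
          same hw1.2.1 hw0.1 hw0.2.2, d1]
        exact h3
    exact (mC _ _).mpr ⟨h1, hw1.2.1.symm.trans ((mT _ _).mp this).2.1⟩
  have F10 : ∀ c c', Bad c → Bad c' → φ (z c) = φ (z c') → c = c' := by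
    intro c c' hb hb' e
    by_contra hne
    obtain ⟨h1, h2, w1, hw1, h3⟩ := hz c hb
    obtain ⟨-, -, a, ha, h4⟩ := hz c' hb'
    have ha0 := (mT _ _).mp ha
    have h5 : G.Adj (z c) a := by rw [← d1, same e ha0.1 ha0.2.2, d1]; exact h4
    have hu := pC c w1 hw1
    obtain ⟨w, hw, h6⟩ : ∃ w ∈ T c, G.dist w (z c) ≠ G.dist (p w1) (z c) := by
      by_cases k : G.Adj (z c) (p w1)
      · by_contra k'
        push Not at k'
        have := big c _ hu _ (nT c _ h1) k fun w hw => by
          rw [adj_comm, ← d1, k' w hw, d1]; exact k.symm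
        have := hb.2
        omega
      · exact ⟨w1, hw1, by rw [d1.mpr h3.symm]; exact fun k' => k (d1.mp k'.symm).symm⟩
    have hw0 := (mT _ _).mp hw
    have key : ∀ b, b ∉ W → G.Adj w b →
        ∃ v ∈ insert (z c) (W.erase w), G.dist w v ≠ G.dist b v := by
      intro b k1 k2
      by_contra k3
      push Not at k3
      have : b ∈ C c := by
        refine (mC _ _).mpr ⟨k1, hw0.2.1 ▸ funext fun v => ?_⟩
        simp only [φ]
        split_ifs with k
        · by_cases e : v = w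
          · rw [e, d1.mpr k2.symm, d1.mpr (F1 c w hw _ (pC c w hw))]
          · rw [← k3 v (mem_insert_of_mem (mem_erase.mpr ⟨e, k.1⟩)),
              dT c hb _ (pC c w hw) w hw v k.1 e]
        · rfl
      exact h6 (one c hb b this _ hu ▸ k3 _ (mem_insert_self _ _))
    have hres : Res G (insert (z c) (W.erase w)) := by
      intro x y hxy
      by_cases k1 : x ∈ insert (z c) (W.erase w) ∨ y ∈ insert (z c) (W.erase w)
      · exact self hxy k1
      simp only [mem_insert, mem_erase, not_or, not_and] at k1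
      by_cases hx : x = w
      · subst hx
        exact key y (k1.2.2 hxy.ne') hxy
      by_cases hy : y = w
      · subst hy
        obtain ⟨v, k2, k3⟩ := key x (k1.1.2 hx) hxy.symm
        exact ⟨v, k2, k3.symm⟩
      by_contra k2
      push Not at k2
      exact hw0.2.2 ⟨x, y, k1.1.2 hx, k1.2.2 hy, hxy, fun v k3 k4 =>
        k2 v (mem_insert_of_mem (mem_erase.mpr ⟨k4, k3⟩))⟩
    have := hmin _ ⟨hres, by
      rw [card_insert_of_notMem (fun k => h1 (mem_erase.mp k).2), card_erase_add_one hw0.1, hW0]⟩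
    have sw := swap_iso h1 (iso c hb w hw) (iso c' hb' a ha) (by
      rw [F7 c' hb' a ha]; exact fun k => hne (hw0.2.1.symm.trans ((mT _ _).mp k).2.1)) h5
    refine absurd this (not_le.mpr (card_lt_card ⟨fun v hv => ?_, fun k => ?_⟩))
    · exact mem_filter.mpr ⟨mem_univ _, (sw v (mem_filter.mp hv).2).1⟩
    · exact (sw w (mem_filter.mp (k (mem_filter.mpr ⟨mem_univ _, iso c hb w hw⟩))).2).2 rfl
  let I := Wᶜ.image φ
  let H := (I.filter Bad).image fun c => φ (z c)
  have hH : H.card = (I.filter Bad).card := card_image_of_injOn fun c h c' h' =>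
    F10 c c' (mem_filter.mp h).2 (mem_filter.mp h').2
  have hHI : I.filter (· ∈ H) = H := by
    rw [filter_mem_eq_inter, inter_eq_right]
    intro c h
    obtain ⟨c', k, rfl⟩ := mem_image.mp h
    exact mem_image_of_mem _ (mem_compl.mpr (hz c' (mem_filter.mp k).2).1)
  have e1 : W.card = ∑ c ∈ I, ((L c).card + (T c).card) := by
    rw [card_eq_sum_card_fiberwise (f := fun w => φ (p w)) (t := I) fun w hw =>
      mem_image_of_mem _ (mem_compl.mpr (hpq w hw).1)]
    refine sum_congr rfl fun c _ => ?_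
    rw [← card_filter_add_card_filter_not (p := Lab), filter_filter, filter_filter]
  have e2 : Wᶜ.card = ∑ c ∈ I, (C c).card :=
    card_eq_sum_card_fiberwise (f := φ) fun w hw => mem_image_of_mem _ hw
  have e3 : ∀ c ∈ I, (L c).card + (T c).card + (if c ∈ H then 1 else 0) ≤
      (k - 2) * (C c).card + if Bad c then 1 else 0 := by
    intro c h
    obtain ⟨u, hu, rfl⟩ := mem_image.mp h
    have hu' : u ∈ C (φ u) := (mC _ _).mpr ⟨mem_compl.mp hu, rfl⟩
    have a1 := F3 _ u hu'
    have a2 := F5 _ ⟨u, hu'⟩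
    have a3 : (L (φ u)).card ≠ 0 → _ := fun k => F4 _ (card_ne_zero.mp k)
    have a4 : φ u ∈ H → (T (φ u)).card = 0 := fun k => by
      obtain ⟨c', k, e⟩ := mem_image.mp k
      rw [← e, F9 c' (mem_filter.mp k).2, card_empty]
    obtain ⟨j, rfl⟩ : ∃ j, k = j + 3 := ⟨k - 3, by omega⟩
    obtain ⟨m, hm⟩ : ∃ m, (C (φ u)).card = m + 1 := ⟨(C (φ u)).card - 1, by omega⟩
    have a5 : (j + 3 - 2) * (m + 1) = j * m + j + m + 1 := by
      rw [show j + 3 - 2 = j + 1 by omega]; ring
    simp only [Bad, hm, a5] at a2 ⊢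
    split_ifs with b1 b2 b2
    · have := a4 b1; omega
    · have := a4 b1; omega
    · omega
    · omega
  have e4 := sum_le_sum e3
  rw [sum_add_distrib, sum_add_distrib (f := fun c => (k - 2) * (C c).card), ← e1, ← mul_sum, ← e2,
    ← card_filter, ← card_filter, hHI, hH] at e4
  exact Nat.le_of_add_le_add_right e4

end Pool.Agent.H27.LocDim
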