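import Mathlib

set_option autoImplicit false

namespace Pool.Agent.H27.MSS

open Matrix

variable {V : Type} [Fintype V] [DecidableEq V]

/-- symmetric elementary matrix -/
def E (R : Type) [CommRing R] (u v : V) : Matrix V V R := single u v 1 + single v u 1

/-- sum of determinants over all signings of the pairs of the list -/
def Φ {R : Type} [CommRing R] : List (V × V) → Matrix V V R → R
  | [], M => M.det
  | e :: l, M => Φ l (M - E R e.1 e.2) + Φ l (M + E R e.1 e.2)

lemma map_Φ {R S : Type} [CommRing R] [CommRing S] (φ : R →+* S) (l : List (V × V))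
    (M : Matrix V V R) : φ (Φ l M) = Φ l (M.map φ) := by
  have hE : ∀ u v : V, (E R u v).map φ = E S u v := fun u v => by
    ext i j
    simp only [E, map_apply, Matrix.add_apply, map_add, single_apply]
    split_ifs <;> simp
  induction l generalizing M with
  | nil => exact RingHom.map_det φ M
  | cons e l ih =>
    simp only [Φ, map_add, ih]
    rw [Matrix.map_sub _ (map_sub φ), Matrix.map_add _ (map_add φ), hE]

def Quad {R : Type} [CommRing R] (F : Matrix V V R → R) : Prop :=
  ∀ u v : V, u ≠ v → ∀ M, ∃ c0 c1 c2 c3 D : R, ∀ a b s : R,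
    F (M + single u u a + single v v b + s • E R u v) =
      c0 + c1 * a + c2 * b + c3 * s + D * (a * b - s ^ 2)

lemma quad_det {R : Type} [CommRing R] : Quad (fun M : Matrix V V R => M.det) := by
  intro u v huv M
  let g : (V → R) → (V → R) → R := fun r t => (updateRow (updateRow M u r) v t).det
  have a2 : ∀ r t t', g r (t + t') = g r t + g r t' := fun r t t' => det_updateRow_add _ _ _ _
  have s2 : ∀ r (c : R) t, g r (c • t) = c * g r t := fun r c t => det_updateRow_smul _ _ _ _
  have sw : ∀ r t, g r t = (updateRow (updateRow M v t) u r).det := fun r t => by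
    simp only [g]
    congr 1
    ext i j
    simp only [updateRow_apply]
    split_ifs with h1 h2
    · exact absurd (h2.symm.trans h1) huv
    all_goals rfl
  have a1 : ∀ r r' t, g (r + r') t = g r t + g r' t := fun r r' t => by
    simp only [sw]; exact det_updateRow_add _ _ _ _
  have s1 : ∀ (c : R) r t, g (c • r) t = c * g r t := fun c r t => by
    simp only [sw]; exact det_updateRow_smul _ _ _ _
  have z : ∀ r, g r r = 0 := fun r => det_zero_of_row_eq huv (by
    rw [updateRow_ne huv, updateRow_self, updateRow_self])
  have an : g (Pi.single v 1) (Pi.single u 1) = -g (Pi.single u 1) (Pi.single v 1) := by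
    have := z (Pi.single u 1 + Pi.single v 1)
    rw [a1, a2, a2, z, z] at this
    linear_combination this
  refine ⟨g (M u) (M v), g (Pi.single u 1) (M v), g (M u) (Pi.single v 1),
    g (Pi.single v 1) (M v) + g (M u) (Pi.single u 1), g (Pi.single u 1) (Pi.single v 1),
    fun a b s => ?_⟩
  have : M + single u u a + single v v b + s • E R u v =
      updateRow (updateRow M u (M u + a • Pi.single u 1 + s • Pi.single v 1)) v
        (M v + b • Pi.single v 1 + s • Pi.single u 1) := by
    ext i j
    simp only [E, Matrix.add_apply, Matrix.smul_apply, single_apply, updateRow_apply, Pi.add_apply,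
      Pi.smul_apply, Pi.single_apply, smul_eq_mul]
    by_cases h1 : i = v
    · subst h1
      by_cases h2 : j = i <;> by_cases h3 : j = u <;> simp_all [eq_comm]
    · by_cases h2 : i = u
      · subst h2
        by_cases h2 : j = i <;> by_cases h3 : j = v <;> simp_all [eq_comm]
      · simp_all [eq_comm]
  change det _ = _
  rw [this]
  change g _ _ = _
  simp only [a1, a2, s1, s2, z, an]
  ring

lemma quad_Φ {R : Type} [CommRing R] (l : List (V × V)) : Quad (Φ (R := R) l) := by
  induction l with
  | nil => exact quad_det
  | cons e l ih =>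
    intro u v huv M
    obtain ⟨c0, c1, c2, c3, D, h⟩ := ih u v huv (M - E R e.1 e.2)
    obtain ⟨c0', c1', c2', c3', D', h'⟩ := ih u v huv (M + E R e.1 e.2)
    refine ⟨c0 + c0', c1 + c1', c2 + c2', c3 + c3', D + D', fun a b s => ?_⟩
    have e1 := h a b s
    have e2 := h' a b s
    simp only [Φ]
    rw [show M + single u u a + single v v b + s • E R u v - E R e.1 e.2 =
      M - E R e.1 e.2 + single u u a + single v v b + s • E R u v by abel,
      show M + single u u a + single v v b + s • E R u v + E R e.1 e.2 =
      M + E R e.1 e.2 + single u u a + single v v b + s • E R u v by abel, e1, e2]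
    ring

def Stable (F : Matrix V V ℂ → ℂ) : Prop :=
  ∀ B : Matrix V V ℝ, B.IsSymm → ∀ x : V → ℂ, (∀ v, 0 < (x v).im) →
    F (diagonal x + B.map (↑)) ≠ 0

lemma stable_det : Stable (fun M : Matrix V V ℂ => M.det) := by
  intro B hB x hx h
  obtain ⟨f, hf, h0⟩ := exists_mulVec_eq_zero_iff.2 h
  have h1 : (star f ⬝ᵥ (diagonal x + B.map (↑)) *ᵥ f).im = 0 := by rw [h0]; simp
  have h2 : (star f ⬝ᵥ (B.map (↑)) *ᵥ f).im = 0 := by
    have hH : (B.map ((↑) : ℝ → ℂ)).IsHermitian := by
      ext i j
      simp [conjTranspose_apply, hB.apply i j]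
    have : star (star f ⬝ᵥ (B.map (↑)) *ᵥ f) = star f ⬝ᵥ (B.map (↑)) *ᵥ f := by
      rw [← star_dotProduct_star, star_star, star_mulVec, hH.eq, ← dotProduct_mulVec]
    exact Complex.conj_eq_iff_im.1 this
  rw [add_mulVec, dotProduct_add, Complex.add_im, h2, add_zero] at h1
  simp only [dotProduct, mulVec_diagonal, Pi.star_apply, Complex.im_sum] at h1
  have h3 : ∀ v, (star (f v) * (x v * f v)).im = (x v).im * Complex.normSq (f v) := fun v => by
    simp [Complex.normSq_apply]; ring
  simp only [h3] at h1
  rw [Finset.sum_eq_zero_iff_of_nonneg fun v _ => mul_nonneg (hx v).le (Complex.normSq_nonneg _)]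
    at h1
  refine hf (funext fun v => ?_)
  simpa [(hx v).ne'] using h1 v (Finset.mem_univ _)

lemma core {f c1 c2 D : ℂ} {y z t : ℝ} (hy : 0 < y) (hz : 0 < z) (ht : 0 ≤ t)
    (h : ∀ a b : ℂ, -y < a.im → -z < b.im → f + c1 * a + c2 * b + D * (a * b) ≠ 0) :
    f - t * D ≠ 0 := by
  by_cases hD : D = 0
  · simpa [hD] using h 0 0 (by simpa) (by simpa)
  have hβ : 0 < (c1 / D).im := by
    by_contra! hn
    set β := c1 / D with hβ
    set W := (c2 * β - f) / D with hW
    set R : ℝ := |W.re| / z + |(c2 / D).im| + 1 with hR
    have hR0 : 0 < R := by positivity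
    have hRc : (R : ℂ) ≠ 0 := by exact_mod_cast hR0.ne'
    refine h (Complex.I * R - c2 / D) (-β - Complex.I * W / R) ?_ ?_ ?_
    · have := le_abs_self (c2 / D).im
      have : 0 ≤ |W.re| / z := by positivity
      simp only [Complex.sub_im, Complex.mul_im, Complex.I_re, Complex.ofReal_im, mul_zero,
        Complex.I_im, Complex.ofReal_re, one_mul, zero_add]
      linarith
    · have h1 : (Complex.I * W / R).im = W.re / R := by
        rw [Complex.div_ofReal_im]; simp
      have h2 : W.re / R < z := by
        rw [div_lt_iff₀ hR0, hR, mul_add, mul_add, mul_div_cancel₀ _ hz.ne']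
        have := le_abs_self W.re
        have : 0 ≤ z * |(c2 / D).im| := by positivity
        linarith
      rw [Complex.sub_im, Complex.neg_im, h1]
      linarith
    · have e1 : c1 = β * D := by rw [hβ]; field_simp
      have e2 : f = c2 * β - W * D := by rw [hW]; field_simp; ring
      rw [e1, e2]
      field_simp
      linear_combination (-(D * W * R)) * Complex.I_sq
  have hβ0 : c1 / D ≠ 0 := fun h0 => by simp [h0] at hβ
  have hc1 : c1 ≠ 0 := fun h0 => by simp [h0] at hβ0
  have := h (-t / (c1 / D)) 0 ?_ (by simpa)
  · convert this using 1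
    field_simp
    ring
  · have : (-(t : ℂ) / (c1 / D)).im = t * (c1 / D).im / Complex.normSq (c1 / D) := by
      rw [Complex.div_im]; simp; ring
    rw [this]
    have := Complex.normSq_nonneg (c1 / D)
    have : 0 ≤ t * (c1 / D).im / Complex.normSq (c1 / D) := by positivity
    linarith

lemma stable_step {F : Matrix V V ℂ → ℂ} (hQ : Quad F) (hS : Stable F) {u v : V} (huv : u ≠ v)
    {α β : ℝ} (hα : 0 ≤ α) (hβ : 0 ≤ β) (hs : 0 < α + β) :
    Stable fun M => α * F (M - E ℂ u v) + β * F (M + E ℂ u v) := by
  intro B hB x hx
  obtain ⟨c0, c1, c2, c3, D, h⟩ := hQ u v huv (diagonal x + B.map (↑))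
  set m : ℝ := (β - α) / (α + β) with hm
  have e1 := h 0 0 (-1)
  have e2 := h 0 0 1
  simp only [single_zero, add_zero, neg_smul, one_smul, ← sub_eq_add_neg] at e1 e2
  have hm1 : 0 ≤ 1 - m ^ 2 := by
    have : 1 - m ^ 2 = 4 * α * β / (α + β) ^ 2 := by rw [hm]; field_simp; ring
    rw [this]; positivity
  have key := core (f := c0 + c3 * m - D * m ^ 2) (c1 := c1) (c2 := c2) (D := D) (hx u) (hx v) hm1
    fun a b ha hb => by
      have h1 := hS (B + m • E ℝ u v) ?_ (x + Pi.single u a + Pi.single v b) ?_
      · have h2 := h a b m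
        have : diagonal (x + Pi.single u a + Pi.single v b) + (B + m • E ℝ u v).map (↑) =
            diagonal x + B.map (↑) + single u u a + single v v b + (m : ℂ) • E ℂ u v := by
          have hE : (B + m • E ℝ u v).map ((↑) : ℝ → ℂ) = B.map (↑) + (m : ℂ) • E ℂ u v := by
            ext i j
            simp only [E, Matrix.add_apply, map_apply, Matrix.smul_apply, single_apply, smul_eq_mul]
            split_ifs <;> simp
          have hd : diagonal (x + Pi.single u a + Pi.single v b) =
              diagonal x + diagonal (Pi.single u a) + diagonal (Pi.single v b) := by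
            rw [diagonal_add, diagonal_add]; rfl
          rw [hE, hd, diagonal_single, diagonal_single]
          abel
        rw [this, h2] at h1
        convert h1 using 1
        ring
      · refine hB.add (IsSymm.smul ?_ _)
        rw [E, IsSymm, transpose_add, transpose_single, transpose_single, add_comm]
      · intro w
        have := hx w
        simp only [Pi.add_apply, Pi.single_apply]
        split_ifs with h1 h2 h2
        · exact absurd (h1.symm.trans h2) huv
        · subst h1; simp; linarith
        · subst h2; simp; linarith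
        · simpa
  have hs' : ((α : ℂ) + β) ≠ 0 := by exact_mod_cast hs.ne'
  change (α : ℂ) * _ + β * _ ≠ 0
  rw [e1, e2]
  intro h0
  apply key
  have hmc : (m : ℂ) * (α + β) = β - α := by rw [hm]; push_cast; field_simp
  apply mul_left_cancel₀ hs'
  push_cast
  linear_combination h0 + c3 * hmc

lemma stable_Φ (l : List (V × V)) (hl : ∀ e ∈ l, e.1 ≠ e.2) : Stable (Φ l) := by
  induction l with
  | nil => exact stable_det
  | cons e l ih =>
    have := stable_step (quad_Φ l) (ih fun e he => hl e (List.mem_cons_of_mem _ he))
      (hl e List.mem_cons_self) zero_le_one zero_le_one (by norm_num)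
    simpa [Φ] using this

end Pool.Agent.H27.MSS
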