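import Pool.Agent.H27.MSS1

set_option autoImplicit false

namespace Pool.Agent.H27.MSS

open Matrix Polynomial

lemma coeff_prod (t : Multiset ℝ) (ht : ∀ r ∈ t, r < 0) (k : ℕ) :
    0 ≤ (t.map fun r => X - C r).prod.coeff k ∧
      (k ≤ Multiset.card t → 0 < (t.map fun r => X - C r).prod.coeff k) := by
  induction t using Multiset.induction_on generalizing k with
  | empty =>
    simp only [Multiset.map_zero, Multiset.prod_zero, coeff_one, Multiset.card_zero]
    split_ifs with h <;> simp [h]
  | cons r t ih =>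
    have ih := ih fun s hs => ht s (Multiset.mem_cons_of_mem hs)
    have hr := ht r (Multiset.mem_cons_self _ _)
    rw [Multiset.map_cons, Multiset.prod_cons, sub_mul, coeff_sub, coeff_C_mul, Multiset.card_cons]
    rcases k with _ | k
    · have := (ih 0).2 (Nat.zero_le _)
      rw [coeff_X_mul_zero]
      constructor
      · nlinarith
      · intro _; nlinarith
    · rw [coeff_X_mul]
      have h1 := (ih k).1
      have h2 := (ih (k + 1)).1
      constructor
      · nlinarith
      · intro hk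
        have := (ih k).2 (by omega)
        nlinarith

lemma coeff_pos {p : ℝ[X]} {n : ℕ} (hd : p.natDegree ≤ n) (hn : 0 < p.coeff n)
    (hr : ∀ z : ℂ, 0 < z.im → aeval z p ≠ 0) (hp : ∀ y, 0 ≤ y → 0 < p.eval y) :
    ∀ k ≤ n, 0 < p.coeff k := by
  have hd' : p.natDegree = n := le_antisymm hd (le_natDegree_of_ne_zero hn.ne')
  set q := p.map (algebraMap ℝ ℂ) with hq
  have hc : Multiset.card q.roots = q.natDegree := IsAlgClosed.card_roots_eq_natDegree
  have h1 := C_leadingCoeff_mul_prod_multiset_X_sub_C hc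
  have hre : ∀ r ∈ q.roots, ((r.re : ℝ) : ℂ) = r ∧ r.re < 0 := fun r hr' => by
    have h0 : aeval r p = 0 := by
      have := isRoot_of_mem_roots hr'
      rwa [IsRoot.def, hq, eval_map_algebraMap] at this
    have him : r.im = 0 := by
      rcases lt_trichotomy r.im 0 with h | h | h
      · refine absurd ?_ (hr ((starRingEnd ℂ) r) (by simpa))
        rw [Polynomial.aeval_conj, h0, map_zero]
      · exact h
      · exact absurd h0 (hr r h)
    have e : ((r.re : ℝ) : ℂ) = r := Complex.ext rfl (by simp [him])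
    refine ⟨e, ?_⟩
    by_contra! h
    have := hp _ h
    rw [← e, ← Complex.coe_algebraMap, aeval_algebraMap_apply_eq_algebraMap_eval] at h0
    simp only [Complex.coe_algebraMap, Complex.ofReal_eq_zero] at h0
    linarith
  have h2 : p = C p.leadingCoeff * ((q.roots.map Complex.re).map fun r => X - C r).prod := by
    apply map_injective (algebraMap ℝ ℂ) (algebraMap ℝ ℂ).injective
    rw [← hq, Polynomial.map_mul, map_C, Polynomial.map_multiset_prod, Multiset.map_map,
      Multiset.map_map]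
    conv_lhs => rw [← h1]
    congr 2
    · rw [hq, leadingCoeff_map]
    · refine Multiset.map_congr rfl fun r hr' => ?_
      simp [(hre r hr').1]
  intro k hk
  rw [h2, coeff_C_mul]
  refine mul_pos (by rw [leadingCoeff, hd']; exact hn) ((coeff_prod _ (fun r hr' => ?_) k).2 ?_)
  · obtain ⟨s, hs, rfl⟩ := Multiset.mem_map.1 hr'
    exact (hre s hs).2
  · rw [Multiset.card_map, hc, hq, natDegree_map, hd']; exact hk

lemma pos_of_coeff {p : ℝ[X]} (h : ∀ k, 0 ≤ p.coeff k) (h0 : 0 < p.coeff 0) (y : ℝ) (hy : 0 ≤ y) :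
    0 < p.eval y := by
  rw [eval_eq_sum_range, Finset.sum_range_succ']
  have : 0 ≤ ∑ k ∈ Finset.range p.natDegree, p.coeff (k + 1) * y ^ (k + 1) :=
    Finset.sum_nonneg fun k _ => mul_nonneg (h _) (pow_nonneg hy _)
  simp only [pow_zero, mul_one]
  linarith

lemma move {p q : ℝ[X]} {n : ℕ} (hp : p.natDegree ≤ n) (hq : q.natDegree ≤ n)
    (hpn : 0 < p.coeff n) (hqn : 0 < q.coeff n)
    (hr : ∀ θ : ℝ, 0 ≤ θ → θ ≤ 1 → ∀ z : ℂ, 0 < z.im → aeval z (C (1 - θ) * p + C θ * q) ≠ 0)
    (h0 : ∀ y, 0 ≤ y → 0 < p.eval y) (h1 : 0 < q.eval 0) : ∀ y, 0 ≤ y → 0 < q.eval y := by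
  rw [← coeff_zero_eq_eval_zero] at h1
  have ha := coeff_pos hp hpn (by simpa using hr 0 le_rfl zero_le_one) h0
  by_cases hb : ∀ k, 0 ≤ q.coeff k
  · exact pos_of_coeff hb h1
  exfalso
  have hK : ∀ k, q.coeff k < 0 → k ≤ n := fun k hk =>
    (le_natDegree_of_ne_zero hk.ne).trans hq
  have hne : ((Finset.range (n + 1)).filter fun k => q.coeff k < 0).Nonempty := by
    push Not at hb
    obtain ⟨k, hk⟩ := hb
    exact ⟨k, by simp [hk, Nat.lt_succ_iff, hK k hk]⟩
  obtain ⟨k, hk, hmin⟩ := Finset.exists_min_image _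
    (fun k => p.coeff k / (p.coeff k - q.coeff k)) hne
  simp only [Finset.mem_filter, Finset.mem_range, Nat.lt_succ_iff] at hk hmin
  set θ := p.coeff k / (p.coeff k - q.coeff k) with hθ
  have hak := ha k hk.1
  have hden : 0 < p.coeff k - q.coeff k := by linarith [hk.2]
  have hθ0 : 0 < θ := div_pos hak hden
  have hθ1 : θ < 1 := (div_lt_one hden).2 (by linarith [hk.2])
  have hco : ∀ j, (C (1 - θ) * p + C θ * q).coeff j = (1 - θ) * p.coeff j + θ * q.coeff j :=
    fun j => by rw [coeff_add, coeff_C_mul, coeff_C_mul]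
  have ha0 : ∀ j, 0 ≤ p.coeff j := fun j => by
    by_cases hj : j ≤ n
    · exact (ha j hj).le
    · exact (coeff_eq_zero_of_natDegree_lt (by omega)).ge
  have := coeff_pos (p := C (1 - θ) * p + C θ * q) (n := n)
    (natDegree_add_le_of_degree_le ((natDegree_C_mul_le _ _).trans hp)
      ((natDegree_C_mul_le _ _).trans hq)) (by rw [hco]; nlinarith)
    (hr θ hθ0.le hθ1.le) (pos_of_coeff (fun j => ?_) ?_) k hk.1
  · rw [hco, hθ] at this
    have e : (1 - p.coeff k / (p.coeff k - q.coeff k)) * p.coeff k +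
      p.coeff k / (p.coeff k - q.coeff k) * q.coeff k = 0 := by field_simp; ring
    linarith
  · rw [hco]
    by_cases hj : q.coeff j < 0
    · have h2 := hmin j ⟨hK j hj, hj⟩
      have h3 := ha j (hK j hj)
      rw [le_div_iff₀ (by linarith)] at h2
      linarith
    · have := ha0 j
      push Not at hj
      nlinarith
  · rw [hco]
    have := ha 0 (Nat.zero_le _)
    nlinarith

variable {V : Type} [Fintype V] [DecidableEq V]

noncomputable def P (l : List (V × V)) (M : Matrix V V ℝ) : ℝ[X] :=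
  Φ l (diagonal (fun _ => X) + M.map C)

lemma mapE {R S : Type} [CommRing R] [CommRing S] (φ : R →+* S) (u v : V) :
    (E R u v).map φ = E S u v := by
  ext i j
  simp only [E, map_apply, Matrix.add_apply, map_add, single_apply]
  split_ifs <;> simp

lemma P_cons (e : V × V) (l : List (V × V)) (M : Matrix V V ℝ) :
    P (e :: l) M = P l (M - E ℝ e.1 e.2) + P l (M + E ℝ e.1 e.2) := by
  simp only [P, Φ]
  rw [Matrix.map_sub _ (map_sub C), Matrix.map_add _ (map_add C), mapE, add_sub_assoc, add_assoc]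

lemma eval_P (l : List (V × V)) (M : Matrix V V ℝ) (y : ℝ) :
    (P l M).eval y = Φ l (diagonal (fun _ => y) + M) := by
  have := map_Φ (evalRingHom y) l (diagonal (fun _ => X) + M.map C)
  rw [coe_evalRingHom] at this
  rw [P, this]
  congr 1
  ext i j
  simp only [map_apply, Matrix.add_apply, diagonal_apply]
  split_ifs <;> simp

lemma aeval_P (l : List (V × V)) (M : Matrix V V ℝ) (z : ℂ) :
    aeval z (P l M) = Φ l (diagonal (fun _ => z) + M.map (↑)) := by
  have := map_Φ (aeval z : ℝ[X] →ₐ[ℝ] ℂ).toRingHom l (diagonal (fun _ => X) + M.map C)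
  refine this.trans ?_
  congr 1
  ext i j
  simp only [map_apply, Matrix.add_apply, diagonal_apply]
  split_ifs <;> simp

lemma deg_P (l : List (V × V)) (M : Matrix V V ℝ) :
    (P l M).natDegree ≤ Fintype.card V ∧ 0 < (P l M).coeff (Fintype.card V) := by
  induction l generalizing M with
  | nil =>
    have : P [] M = (-M).charpoly := by
      simp only [P, Φ, charpoly, charmatrix]
      congr 1
      ext i j : 2
      simp
    rw [this]
    refine ⟨(charpoly_natDegree_eq_dim _).le, ?_⟩
    rw [← charpoly_natDegree_eq_dim (-M), (charpoly_monic _).coeff_natDegree]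
    exact one_pos
  | cons e l ih =>
    rw [P_cons, coeff_add]
    exact ⟨natDegree_add_le_of_degree_le (ih _).1 (ih _).1, add_pos (ih _).2 (ih _).2⟩

lemma symmE (u v : V) : (E ℝ u v).IsSymm := by
  rw [E, IsSymm, transpose_add, transpose_single, transpose_single, add_comm]

lemma choose_sign (e : V × V) (l : List (V × V)) (he : e.1 ≠ e.2) (hl : ∀ e ∈ l, e.1 ≠ e.2)
    (M : Matrix V V ℝ) (hM : M.IsSymm) (h : ∀ y, 0 ≤ y → 0 < (P (e :: l) M).eval y) :
    ∃ s : ℝ, (s = 1 ∨ s = -1) ∧ ∀ y, 0 ≤ y → 0 < (P l (M + s • E ℝ e.1 e.2)).eval y := by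
  have key : ∀ α β : ℝ, 0 ≤ α → 0 ≤ β → 0 < α + β → ∀ z : ℂ, 0 < z.im →
      aeval z (C α * P l (M - E ℝ e.1 e.2) + C β * P l (M + E ℝ e.1 e.2)) ≠ 0 := by
    intro α β hα hβ hs z hz
    have := stable_step (quad_Φ l) (stable_Φ l hl) he hα hβ hs M hM (fun _ => z) fun _ => hz
    have hE := mapE Complex.ofRealHom e.1 e.2
    simp only [map_add, map_mul, aeval_C, aeval_P]
    rw [Matrix.map_sub _ Complex.ofReal_sub, Matrix.map_add _ Complex.ofReal_add]
    change _ * Φ l (_ + (_ - (E ℝ e.1 e.2).map Complex.ofRealHom)) +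
      _ * Φ l (_ + (_ + (E ℝ e.1 e.2).map Complex.ofRealHom)) ≠ 0
    rw [hE, ← add_sub_assoc, ← add_assoc]
    exact this
  have h0 := h 0 le_rfl
  rw [P_cons, eval_add] at h0
  by_cases h1 : 0 < (P l (M + E ℝ e.1 e.2)).eval 0
  · refine ⟨1, Or.inl rfl, ?_⟩
    rw [one_smul]
    refine move (deg_P _ _).1 (deg_P _ _).1 (deg_P _ _).2 (deg_P _ _).2 (fun θ h0 h1 z hz => ?_) h h1
    have := key (1 - θ) 1 (by linarith) zero_le_one (by linarith) z hz
    rw [P_cons]
    convert this using 2
    simp only [map_sub, map_one]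
    ring
  · refine ⟨-1, Or.inr rfl, ?_⟩
    rw [neg_smul, one_smul, ← sub_eq_add_neg]
    refine move (deg_P _ _).1 (deg_P _ _).1 (deg_P _ _).2 (deg_P _ _).2 (fun θ h0 h1 z hz => ?_) h
      (by linarith)
    have := key 1 (1 - θ) zero_le_one (by linarith) (by linarith) z hz
    rw [P_cons]
    convert this using 2
    simp only [map_sub, map_one]
    ring

def cnt (l : List (V × V)) (u v : V) : ℕ := l.count (u, v) + l.count (v, u)

lemma cnt_cons (e : V × V) (l : List (V × V)) (u v : V) :
    (cnt (e :: l) u v : ℝ) = cnt l u v + E ℝ e.1 e.2 u v := by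
  obtain ⟨p, q⟩ := e
  simp only [cnt, List.count_cons, E, Matrix.add_apply, single_apply, beq_iff_eq, Prod.mk.injEq]
  push_cast
  rw [if_congr (and_comm (a := p = v)) rfl rfl]
  ring

/-- derandomisation -/
theorem signing (l : List (V × V)) (hl : ∀ e ∈ l, e.1 ≠ e.2) (M : Matrix V V ℝ) (hM : M.IsSymm)
    (h : ∀ y, 0 ≤ y → 0 < Φ l (diagonal (fun _ => y) + M)) :
    ∃ S : Matrix V V ℝ, S.IsSymm ∧ (∀ u v, cnt l u v = 0 → S u v = 0) ∧
      (∀ u v, cnt l u v = 1 → S u v = 1 ∨ S u v = -1) ∧
      ∀ y, 0 ≤ y → 0 < (diagonal (fun _ => y) + (M + S)).det := by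
  induction l generalizing M with
  | nil =>
    refine ⟨0, isSymm_zero, fun _ _ _ => rfl, fun u v h => by simp [cnt] at h, ?_⟩
    simpa [Φ] using h
  | cons e l ih =>
    have hl' : ∀ e ∈ l, e.1 ≠ e.2 := fun e he => hl e (List.mem_cons_of_mem _ he)
    have he := hl e List.mem_cons_self
    obtain ⟨s, hs, h1⟩ := choose_sign e l he hl' M hM (by simpa only [eval_P] using h)
    obtain ⟨S, hS, h2, h3, h4⟩ := ih hl' (M + s • E ℝ e.1 e.2) (hM.add ((symmE _ _).smul _))
      (by simpa only [eval_P] using h1)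
    have hE : ∀ u v, E ℝ e.1 e.2 u v = 0 ∨ E ℝ e.1 e.2 u v = 1 := fun u v => by
      simp only [E, Matrix.add_apply, single_apply]
      split_ifs with a b b
      · exact absurd (a.1.trans b.1.symm) he
      all_goals simp
    refine ⟨s • E ℝ e.1 e.2 + S, ((symmE _ _).smul _).add hS, fun u v huv => ?_, fun u v huv => ?_,
      by simpa only [add_assoc] using h4⟩
    · have h5 := cnt_cons e l u v
      rw [huv] at h5
      have h6 : (0 : ℝ) ≤ cnt l u v := Nat.cast_nonneg _
      rcases hE u v with h7 | h7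
      · rw [h7] at h5
        have : cnt l u v = 0 := by exact_mod_cast (by simpa using h5.symm)
        simp [h7, h2 u v this]
      · rw [h7] at h5; push_cast at h5; linarith
    · have h5 := cnt_cons e l u v
      rw [huv] at h5
      rcases hE u v with h7 | h7
      · rw [h7] at h5
        have : cnt l u v = 1 := by exact_mod_cast (by simpa using h5.symm)
        simpa [h7] using h3 u v this
      · rw [h7] at h5
        have : cnt l u v = 0 := by exact_mod_cast (by simpa using h5.symm)
        simpa [h7, h2 u v this] using hs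

end Pool.Agent.H27.MSS
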