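import Pool.Agent.H27.MSS2

set_option autoImplicit false

namespace Pool.Agent.H27.MSS

open Matrix Finset

variable {V : Type} [Fintype V] [DecidableEq V]

/-- multivariate matching polynomial -/
def mt (x : V → ℝ) : List (V × V) → Finset V → ℝ
  | [], S => ∏ v ∈ S, x v
  | e :: l, S => mt x l S - if e.1 ∈ S ∧ e.2 ∈ S then mt x l ((S.erase e.1).erase e.2) else 0

omit [Fintype V] in
lemma mt_aff (x : V → ℝ) (u : V) (a : ℝ) (l : List (V × V)) (S : Finset V) :
    mt (x + Pi.single u a) l S = mt x l S + a * if u ∈ S then mt x l (S.erase u) else 0 := by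
  induction l generalizing S with
  | nil =>
    simp only [mt]
    have h1 : ∀ T : Finset V, u ∉ T → ∏ v ∈ T, (x + Pi.single u a : V → ℝ) v = ∏ v ∈ T, x v :=
      fun T hT => prod_congr rfl fun v hv => by
        rw [Pi.add_apply, Pi.single_eq_of_ne (ne_of_mem_of_not_mem hv hT), add_zero]
    split_ifs with h
    · rw [← mul_prod_erase S _ h, ← mul_prod_erase S x h, h1 _ (notMem_erase _ _)]
      simp only [Pi.add_apply, Pi.single_eq_same]
      ring
    · rw [h1 _ h]; ring
  | cons e l ih =>
    simp only [mt, ih]
    have : (((S.erase e.1).erase e.2).erase u) = ((S.erase u).erase e.1).erase e.2 := by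
      ext w; simp only [mem_erase]; tauto
    rw [this]
    by_cases h1 : u ∈ S <;> by_cases h2 : e.1 ∈ S <;> by_cases h3 : e.2 ∈ S <;>
      by_cases h4 : u = e.1 <;> by_cases h5 : u = e.2 <;>
      simp_all [eq_comm] <;> ring

lemma Φ_diag (l : List (V × V)) (hl : ∀ e ∈ l, e.1 ≠ e.2) (x : V → ℝ) :
    Φ l (diagonal x) = 2 ^ l.length * mt x l univ := by
  induction l generalizing x with
  | nil => simp [Φ, mt, det_diagonal]
  | cons e l ih =>
    have ih := ih fun e he => hl e (List.mem_cons_of_mem _ he)
    have he := hl e List.mem_cons_self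
    obtain ⟨c0, c1, c2, c3, D, h⟩ := quad_Φ (R := ℝ) l e.1 e.2 he (diagonal x)
    have e1 := h 0 0 (-1)
    have e2 := h 0 0 1
    simp only [single_zero, add_zero, neg_smul, one_smul, ← sub_eq_add_neg] at e1 e2
    have h3 : ∀ a b : ℝ, c0 + c1 * a + c2 * b + D * (a * b) = 2 ^ l.length * (mt x l univ +
        b * mt x l (univ.erase e.2) + a * (mt x l (univ.erase e.1) +
          b * mt x l ((univ.erase e.1).erase e.2))) := fun a b => by
      have h1 := h a b 0
      have hd : diagonal (x + Pi.single e.2 b + Pi.single e.1 a) =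
          diagonal x + diagonal (Pi.single e.2 b) + diagonal (Pi.single e.1 a) := by
        rw [diagonal_add, diagonal_add]; rfl
      rw [zero_smul, add_zero, add_right_comm, ← diagonal_single, ← diagonal_single, ← hd, ih,
        mt_aff, mt_aff, mt_aff] at h1
      simp only [mem_univ, if_true, mem_erase, and_true, he.symm, ne_eq, not_false_iff] at h1
      linarith
    simp only [Φ, mt, e1, e2, mem_univ, and_self, if_true, List.length_cons]
    linear_combination 2 * (h3 0 0) - 2 * (h3 1 1 - h3 1 0 - h3 0 1 + h3 0 0)

lemma mt_vertex (x : V → ℝ) (l : List (V × V)) (hl : ∀ e ∈ l, e.1 ≠ e.2) (S : Finset V) (v : V)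
    (hv : v ∈ S) : mt x l S =
      x v * mt x l (S.erase v) - ∑ u ∈ S.erase v, cnt l v u * mt x l ((S.erase v).erase u) := by
  induction l generalizing S with
  | nil => simp [mt, cnt, mul_prod_erase S x hv]
  | cons e l ih =>
    have ih := ih fun e he => hl e (List.mem_cons_of_mem _ he)
    have he := hl e List.mem_cons_self
    obtain ⟨p, q⟩ := e
    simp only at he
    simp only [mt, cnt_cons]
    by_cases h1 : v = p
    · subst h1
      have : ∀ u, E ℝ v q v u = if u = q then 1 else 0 := fun u => by
        simp [E, single_apply, he.symm, eq_comm]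
      simp only [this, mem_erase, ne_eq, not_true, false_and, and_false, if_false, sub_zero, hv,
        true_and, add_mul, sum_add_distrib, ite_mul, one_mul, zero_mul, sum_ite_eq', he.symm,
        not_false_iff]
      rw [ih S hv]
      ring
    by_cases h2 : v = q
    · subst h2
      have : ∀ u, E ℝ p v v u = if u = p then 1 else 0 := fun u => by
        simp [E, single_apply, he, eq_comm]
      simp only [this, mem_erase, ne_eq, not_true, false_and, and_false, if_false, sub_zero, hv,
        true_and, and_true, add_mul, sum_add_distrib, ite_mul, one_mul, zero_mul, sum_ite_eq', he,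
        not_false_iff]
      rw [ih S hv, erase_right_comm (a := p)]
      ring
    have : ∀ u, E ℝ p q v u = 0 := fun u => by
      simp [E, single_apply, Ne.symm h1, Ne.symm h2]
    simp only [this, add_zero]
    by_cases h3 : p ∈ S ∧ q ∈ S
    · have h4 := ih ((S.erase p).erase q) (by simp [h1, h2, hv])
      have h5 : ((S.erase p).erase q).erase v = ((S.erase v).erase p).erase q := by
        ext w; simp only [mem_erase]; tauto
      have h6 : ∑ u ∈ S.erase v, cnt l v u * (if p ∈ (S.erase v).erase u ∧ q ∈ (S.erase v).erase u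
          then mt x l ((((S.erase v).erase u).erase p).erase q) else 0) =
          ∑ u ∈ ((S.erase v).erase p).erase q,
            cnt l v u * mt x l ((((S.erase v).erase p).erase q).erase u) := by
        simp only [mul_ite, mul_zero]
        rw [← sum_filter]
        refine sum_congr ?_ fun u _ => ?_
        · ext w
          simp only [mem_filter, mem_erase, h3, Ne.symm h1, Ne.symm h2, ne_eq, not_false_iff,
            and_true, eq_comm (a := w)]
          tauto
        · congr 2
          ext w; simp only [mem_erase]; tauto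
      rw [if_pos h3, if_pos (by simp [h3, Ne.symm h1, Ne.symm h2]), h4, ih S hv, h5]
      simp only [mul_sub, sum_sub_distrib]
      rw [h6]
      ring
    · rw [if_neg h3, if_neg (fun h => h3 ⟨mem_of_mem_erase h.1, mem_of_mem_erase h.2⟩), ih S hv]
      rw [sub_zero, sub_zero]
      congr 1
      refine sum_congr rfl fun u _ => ?_
      rw [if_neg (fun h => h3 ⟨mem_of_mem_erase (mem_of_mem_erase h.1),
        mem_of_mem_erase (mem_of_mem_erase h.2)⟩), sub_zero]

omit [Fintype V] in
lemma mt_empty (x : V → ℝ) (l : List (V × V)) : mt x l ∅ = 1 := by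
  induction l with
  | nil => simp [mt]
  | cons e l ih => simp [mt, ih]

variable (G : SimpleGraph V) [DecidableRel G.Adj]

lemma mt_pos (x : V → ℝ) (l : List (V × V)) (hl : ∀ e ∈ l, e.1 ≠ e.2)
    (hc : ∀ u v, cnt l u v = if G.Adj u v then 1 else 0) (r : Finset V → V → ℝ)
    (hr : ∀ S v, v ∈ S → 0 < r S v ∧
      r S v ≤ x v - ∑ u ∈ (S.erase v).filter (G.Adj v), 1 / r (S.erase v) u) (S : Finset V) :
    0 < mt x l S ∧ ∀ v ∈ S, r S v * mt x l (S.erase v) ≤ mt x l S := by
  induction S using Finset.strongInduction with
  | H S ih =>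
    have key : ∀ v ∈ S, r S v * mt x l (S.erase v) ≤ mt x l S := fun v hv => by
      obtain ⟨h1, h2⟩ := ih _ (erase_ssubset hv)
      rw [mt_vertex x l hl S v hv]
      refine (mul_le_mul_of_nonneg_right (hr S v hv).2 h1.le).trans ?_
      rw [sub_mul, sum_mul, sum_filter]
      refine sub_le_sub_left (sum_le_sum fun u hu => ?_) _
      rw [hc]
      split_ifs
      · rw [Nat.cast_one, one_mul, one_div, inv_mul_eq_div, le_div_iff₀ (hr _ u hu).1, mul_comm]
        exact h2 u hu
      · simp
    refine ⟨?_, key⟩
    rcases S.eq_empty_or_nonempty with rfl | ⟨v, hv⟩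
    · rw [mt_empty]; exact one_pos
    · exact (mul_pos (hr S v hv).1 (ih _ (erase_ssubset hv)).1).trans_le (key v hv)

lemma edge_list : ∃ l : List (V × V), (∀ e ∈ l, e.1 ≠ e.2) ∧
    ∀ u v, cnt l u v = if G.Adj u v then 1 else 0 := by
  let f := Fintype.equivFin V
  refine ⟨(univ.filter fun e : V × V => G.Adj e.1 e.2 ∧ f e.1 < f e.2).toList, fun e he => ?_,
    fun u v => ?_⟩
  · rw [mem_toList, mem_filter] at he
    exact he.2.1.ne
  · simp only [cnt, (nodup_toList _).count, mem_toList, mem_filter, mem_univ,
      true_and]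
    by_cases h : G.Adj u v
    · have : f u ≠ f v := fun h' => h.ne (f.injective h')
      rcases lt_or_gt_of_ne this with h1 | h1 <;> simp [h, h.symm, h1, h1.not_gt]
    · simp [h, G.adj_comm v u]

end Pool.Agent.H27.MSS
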