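import Mathlib

set_option autoImplicit false

namespace Pool.Agent.H27.Mad

theorem lemL (n k : ℕ) (hn : 3 ≤ n) (hk1 : 1 ≤ k) (hk : k ≤ n) (u w : ℝ) (hu : 0 ≤ u)
    (huk : u ≤ k - 1) (h : n * w ≤ n * (n - 1) - k * u) :
    n * (u * w) ≤ (k - 1) * (n * (n - 1) - k * (k - 1)) ∨
      4 * (2 * n + 1) * (u * w) ≤ 3 * n * (n - 1) ^ 2 := by
  have hk1' : (1 : ℝ) ≤ k := by exact_mod_cast hk1
  have hn' : (3 : ℝ) ≤ n := by exact_mod_cast hn
  have h1 : n * (u * w) ≤ u * (n * (n - 1) - k * u) := by nlinarith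
  by_cases hc : 3 * k ≤ 2 * n
  · left
    have hc' : (3 : ℝ) * k ≤ 2 * n := by exact_mod_cast hc
    have h2 : 2 * (k : ℝ) * (k - 1) ≤ n * (n - 1) := by nlinarith
    have h3 : (0 : ℝ) ≤ n * (n - 1) - k * (u + (k - 1)) := by nlinarith
    nlinarith [mul_nonneg (sub_nonneg.2 huk) h3]
  · right
    have hc' : (2 : ℝ) * n + 1 ≤ 3 * k := by exact_mod_cast (by omega : 2 * n + 1 ≤ 3 * k)
    have h2 : 4 * k * (n * (u * w)) ≤ (n * (n - 1)) ^ 2 := by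
      nlinarith [sq_nonneg ((n : ℝ) * (n - 1) - 2 * k * u)]
    by_cases hp : u * w ≤ 0
    · have : (0 : ℝ) ≤ 3 * n * (n - 1) ^ 2 := by positivity
      nlinarith
    · push Not at hp
      have h3 : n * (4 * (2 * n + 1) * (u * w)) ≤ n * (3 * n * (n - 1) ^ 2) := by
        nlinarith [mul_nonneg (sub_nonneg.2 hc') (mul_nonneg (by linarith : (0 : ℝ) ≤ n) hp.le)]
      exact le_of_mul_le_mul_left h3 (by linarith)

theorem lemC (n u w : ℝ) (hn : 3 ≤ n) (hu : 0 ≤ u) (hw : 0 ≤ w) (hun : u ≤ n - 1)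
    (hwn : w ≤ n - 1) (h : (u + w) * n - u * w / 2 ≤ n * (n - 1)) :
    4 * (2 * n + 1) * (u * w) ≤ 3 * n * (n - 1) ^ 2 := by
  by_contra hc
  push Not at hc
  set P := u * w with hP
  have hP1 : P ≤ (n - 1) ^ 2 := by nlinarith
  have h1 : 4 * P * n ^ 2 ≤ ((u + w) * n) ^ 2 := by
    nlinarith [mul_nonneg (sq_nonneg (u - w)) (sq_nonneg n)]
  have h2 : ((u + w) * n) ^ 2 ≤ (n * (n - 1) + P / 2) ^ 2 :=
    pow_le_pow_left₀ (by positivity) (by linarith) 2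
  have h3 : 0 ≤ P ^ 2 / 4 - (3 * n ^ 2 + n) * P + n ^ 2 * (n - 1) ^ 2 := by nlinarith
  obtain ⟨T, hT⟩ : ∃ T : ℝ, 4 * (2 * n + 1) * T = 3 * n * (n - 1) ^ 2 :=
    ⟨3 * n * (n - 1) ^ 2 / (4 * (2 * n + 1)), by field_simp⟩
  have hTP : T < P := by
    by_contra hh
    push Not at hh
    nlinarith
  have hT1 : T ≤ (n - 1) ^ 2 := by linarith
  have h4 : T ^ 2 / 4 - (3 * n ^ 2 + n) * T + n ^ 2 * (n - 1) ^ 2 ≤ 0 := by
    have e : (4 * (2 * n + 1)) ^ 2 * (T ^ 2 / 4 - (3 * n ^ 2 + n) * T + n ^ 2 * (n - 1) ^ 2) =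
        n ^ 2 * (n - 1) ^ 2 * (25 - 2 * n - 23 * n ^ 2) / 4 := by
      have : (4 * (2 * n + 1)) ^ 2 * (T ^ 2 / 4 - (3 * n ^ 2 + n) * T + n ^ 2 * (n - 1) ^ 2) =
        (4 * (2 * n + 1) * T) ^ 2 / 4 - (3 * n ^ 2 + n) * (4 * (2 * n + 1)) * (4 * (2 * n + 1) * T)
          + (4 * (2 * n + 1)) ^ 2 * (n ^ 2 * (n - 1) ^ 2) := by ring
      rw [this, hT]; ring
    by_contra hh
    push Not at hh
    have := mul_pos (by positivity : (0 : ℝ) < (4 * (2 * n + 1)) ^ 2) hh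
    rw [e] at this
    have h5 : 25 - 2 * n - 23 * n ^ 2 ≤ 0 := by nlinarith
    have := mul_nonneg (by positivity : (0 : ℝ) ≤ n ^ 2 * (n - 1) ^ 2) (neg_nonneg.2 h5)
    linarith
  have h6 : (P + T) / 4 - (3 * n ^ 2 + n) < 0 := by nlinarith
  nlinarith [mul_pos (sub_pos.2 hTP) (neg_pos.2 h6)]

theorem lemT (n : ℕ) (hn : 3 ≤ n) (P : ℝ) (h : 4 * (2 * n + 1) * P ≤ 3 * n * (n - 1) ^ 2) :
    ∃ k : ℕ, 1 ≤ k ∧ k ≤ n ∧ n * P ≤ (k - 1) * (n * (n - 1) - k * (k - 1)) := by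
  refine ⟨n / 2 + 1, by omega, by omega, ?_⟩
  refine le_of_mul_le_mul_left (a := 4 * (2 * (n : ℝ) + 1)) ?_ (by positivity)
  have h1 : 4 * (2 * n + 1) * (n * P) ≤ n * (3 * n * (n - 1) ^ 2) := by
    nlinarith [mul_le_mul_of_nonneg_left h (by positivity : (0 : ℝ) ≤ n)]
  refine h1.trans ?_
  obtain ⟨t, rfl | rfl⟩ := Nat.even_or_odd' n
  · rw [show 2 * t / 2 = t by omega]
    have : (2 : ℝ) ≤ t := by exact_mod_cast (by omega : 2 ≤ t)
    push_cast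
    nlinarith [mul_nonneg (sq_nonneg (t : ℝ)) (sub_nonneg.2 this)]
  · rw [show (2 * t + 1) / 2 = t by omega]
    have : (0 : ℝ) ≤ t := by positivity
    push_cast
    nlinarith [mul_nonneg (sq_nonneg (t : ℝ)) this]

theorem arith (n a b c : ℕ) (hn : 3 ≤ n) (hs : a + b + c ≤ n) (h1 : 1 ≤ a + b) (h2 : 1 ≤ b + c)
    (u w : ℝ) (hu : 0 ≤ u) (hw : 0 ≤ w) (hua : u ≤ a + b - 1) (hwc : w ≤ b + c - 1)
    (h : u * (a + b) + w * (b + c) + 2 * a * c ≤ (a + b + c) * (a + b + c - 1)) :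
    ∃ k : ℕ, 1 ≤ k ∧ k ≤ n ∧ n * (u * w) ≤ (k - 1) * (n * (n - 1) - k * (k - 1)) := by
  have ha : (0 : ℝ) ≤ a := by positivity
  have hb : (0 : ℝ) ≤ b := by positivity
  have hc : (0 : ℝ) ≤ c := by positivity
  have hs' : (a : ℝ) + b + c ≤ n := by exact_mod_cast hs
  have h1' : (1 : ℝ) ≤ a + b := by exact_mod_cast h1
  have h2' : (1 : ℝ) ≤ b + c := by exact_mod_cast h2
  have hn' : (3 : ℝ) ≤ n := by exact_mod_cast hn
  have key : ∀ (m k u w : ℝ), 0 < m → m ≤ n → 0 ≤ k * u → m * w ≤ m * (m - 1) - k * u →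
      n * w ≤ n * (n - 1) - k * u := by
    intro m k u w hm hmn hk hh
    refine le_of_mul_le_mul_left (a := m) ?_ hm
    nlinarith [mul_le_mul_of_nonneg_left hh (by positivity : (0 : ℝ) ≤ n),
      mul_nonneg (sub_nonneg.2 hmn) hk,
      mul_nonneg (sub_nonneg.2 hmn) (by positivity : (0 : ℝ) ≤ m * n)]
  by_cases hA : w ≤ 2 * c
  · rcases lemL n (a + b) hn h1 (by omega) u w hu (by push_cast; exact hua)
      (key (a + b + c) _ u w (by linarith) hs' (by positivity) (by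
        push_cast; nlinarith [mul_nonneg ha (sub_nonneg.2 hA)])) with hh | hh
    · exact ⟨a + b, h1, by omega, hh⟩
    · exact lemT n hn _ hh
  by_cases hB : u ≤ 2 * a
  · rw [mul_comm u w]
    rcases lemL n (b + c) hn h2 (by omega) w u hw (by push_cast; exact hwc)
      (key (a + b + c) _ w u (by linarith) hs' (by positivity) (by
        push_cast; nlinarith [mul_nonneg hc (sub_nonneg.2 hB)])) with hh | hh
    · exact ⟨b + c, h2, by omega, hh⟩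
    · exact lemT n hn _ hh
  push Not at hA hB
  refine lemT n hn _ (lemC n u w hn' hu hw (by linarith) (by linarith) ?_)
  have h3 : (0 : ℝ) ≤ n + (a + b + c) - (u + w) - 1 := by linarith
  nlinarith [mul_nonneg (sub_nonneg.2 hs') h3, mul_pos (sub_pos.2 hA) (sub_pos.2 hB)]

end Pool.Agent.H27.Mad
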