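import Pool.Agent.H27.Mad1

set_option autoImplicit false

namespace Pool.Agent.H27.Mad

open Finset

variable {V : Type*} [Fintype V] [DecidableEq V]

open Classical in
theorem two_e {G : SimpleGraph V} (H : G.Subgraph) :
    2 * H.edgeSet.ncard = (univ.filter fun p : V × V => H.Adj p.1 p.2).card := by
  rw [← H.edgeSet_spanningCoe, ← SimpleGraph.coe_edgeFinset, Set.ncard_coe_finset,
    SimpleGraph.two_mul_card_edgeFinset]
  rfl

theorem two_e' {G : SimpleGraph V} (H : G.Subgraph) (T : Finset (V × V))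
    (h : ∀ p, p ∈ T ↔ H.Adj p.1 p.2) : (2 * H.edgeSet.ncard : ℝ) = T.card := by
  classical
  have : T = univ.filter fun p : V × V => H.Adj p.1 p.2 := by ext p; simp [h]
  rw [this]
  exact_mod_cast two_e H

theorem cast_off (S : Finset V) : (S.offDiag.card : ℝ) = S.card * (S.card - 1) := by
  rw [offDiag_card, Nat.cast_sub (Nat.le_mul_self _)]
  push_cast; ring

open Classical in
theorem sub_off {G : SimpleGraph V} (H : G.Subgraph) :
    (univ.filter fun p : V × V => H.Adj p.1 p.2) ⊆ H.verts.toFinset.offDiag := by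
  intro p hp
  have := (mem_filter.1 hp).2
  simp only [mem_offDiag, Set.mem_toFinset]
  exact ⟨H.edge_vert this, H.edge_vert this.symm, this.ne⟩

theorem upper (G : SimpleGraph V) (hn : 3 ≤ Fintype.card V) (H : G.Subgraph) (K : Gᶜ.Subgraph)
    (hH : H.verts.Nonempty) (hK : K.verts.Nonempty) :
    ∃ k : ℕ, 1 ≤ k ∧ k ≤ Fintype.card V ∧ Fintype.card V *
      ((2 * H.edgeSet.ncard / H.verts.ncard : ℝ) * (2 * K.edgeSet.ncard / K.verts.ncard : ℝ)) ≤
      (k - 1) * (Fintype.card V * (Fintype.card V - 1) - k * (k - 1)) := by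
  classical
  set X := H.verts.toFinset with hX
  set Y := K.verts.toFinset with hY
  set P := univ.filter fun p : V × V => H.Adj p.1 p.2 with hP
  set Q := univ.filter fun p : V × V => K.Adj p.1 p.2 with hQ
  have e1 : (2 * H.edgeSet.ncard : ℝ) = P.card := by exact_mod_cast two_e H
  have e2 : (2 * K.edgeSet.ncard : ℝ) = Q.card := by exact_mod_cast two_e K
  have x1 : X.card = (X \ Y).card + (X ∩ Y).card := (card_sdiff_add_card_inter X Y).symm
  have y1 : Y.card = (X ∩ Y).card + (Y \ X).card := by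
    rw [inter_comm, add_comm, card_sdiff_add_card_inter]
  have z1 : (X ∪ Y).card = (X \ Y).card + (X ∩ Y).card + (Y \ X).card := by
    rw [← x1, ← card_union_of_disjoint disjoint_sdiff, union_sdiff_self_eq_union]
  have x0 : 1 ≤ X.card := card_pos.2 (Set.toFinset_nonempty.2 hH)
  have y0 : 1 ≤ Y.card := card_pos.2 (Set.toFinset_nonempty.2 hK)
  have x0' : (1 : ℝ) ≤ X.card := by exact_mod_cast x0
  have y0' : (1 : ℝ) ≤ Y.card := by exact_mod_cast y0
  rw [e1, e2, Set.ncard_eq_toFinset_card' H.verts, Set.ncard_eq_toFinset_card' K.verts, ← hX, ← hY]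
  have p1 : (P.card : ℝ) ≤ X.card * (X.card - 1) := by
    rw [← cast_off]; exact_mod_cast card_le_card (sub_off H)
  have q1 : (Q.card : ℝ) ≤ Y.card * (Y.card - 1) := by
    rw [← cast_off]; exact_mod_cast card_le_card (sub_off K)
  have hPX : ∀ p ∈ P, p.1 ∈ X ∧ p.2 ∈ X ∧ p.1 ≠ p.2 := fun p hp => mem_offDiag.1 (sub_off H hp)
  have hQY : ∀ p ∈ Q, p.1 ∈ Y ∧ p.2 ∈ Y ∧ p.1 ≠ p.2 := fun p hp => mem_offDiag.1 (sub_off K hp)
  have d1 : Disjoint P Q := disjoint_left.2 fun p hp hq =>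
    (K.adj_sub (mem_filter.1 hq).2).2 (H.adj_sub (mem_filter.1 hp).2)
  have d2 : Disjoint ((X \ Y) ×ˢ (Y \ X)) ((Y \ X) ×ˢ (X \ Y)) := disjoint_left.2 fun p hp hq => by
    simp only [mem_product, mem_sdiff] at hp hq; tauto
  have d3 : Disjoint (P ∪ Q) ((X \ Y) ×ˢ (Y \ X) ∪ (Y \ X) ×ˢ (X \ Y)) :=
    disjoint_left.2 fun p hp hq => by
      simp only [mem_union, mem_product, mem_sdiff] at hp hq
      rcases hp with hp | hp
      · have := hPX p hp; tauto
      · have := hQY p hp; tauto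
  have s1 : (P ∪ Q) ∪ ((X \ Y) ×ˢ (Y \ X) ∪ (Y \ X) ×ˢ (X \ Y)) ⊆ (X ∪ Y).offDiag := by
    intro p hp
    simp only [mem_union, mem_product, mem_sdiff, mem_offDiag] at hp ⊢
    rcases hp with (hp | hp) | hp | hp
    · have := hPX p hp; tauto
    · have := hQY p hp; tauto
    · exact ⟨Or.inl hp.1.1, Or.inr hp.2.1, fun e => hp.1.2 (e ▸ hp.2.1)⟩
    · exact ⟨Or.inr hp.1.1, Or.inl hp.2.1, fun e => hp.1.2 (e ▸ hp.2.1)⟩
  have s2 : (((P ∪ Q) ∪ ((X \ Y) ×ˢ (Y \ X) ∪ (Y \ X) ×ˢ (X \ Y))).card : ℝ) ≤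
      (X ∪ Y).offDiag.card := by exact_mod_cast card_le_card s1
  rw [card_union_of_disjoint d3, card_union_of_disjoint d1, card_union_of_disjoint d2,
    card_product, card_product, cast_off, z1] at s2
  have x2 : (X.card : ℝ) = (X \ Y).card + (X ∩ Y).card := by exact_mod_cast x1
  have y2 : (Y.card : ℝ) = (X ∩ Y).card + (Y \ X).card := by exact_mod_cast y1
  refine arith _ (X \ Y).card (X ∩ Y).card (Y \ X).card hn (z1 ▸ card_le_univ _) (x1 ▸ x0)
    (y1 ▸ y0) _ _ (by positivity) (by positivity) ?_ ?_ ?_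
  · rw [← x2, div_le_iff₀ (by linarith)]; linarith
  · rw [← y2, div_le_iff₀ (by linarith)]; linarith
  · rw [← y2, show ((X \ Y).card : ℝ) + (X ∩ Y).card = X.card from x2.symm,
      div_mul_cancel₀ _ (by linarith), div_mul_cancel₀ _ (by linarith), x2]
    push_cast at s2
    linarith

end Pool.Agent.H27.Mad
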