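import Mathlib

set_option autoImplicit false

namespace Pool.Agent.H27.Mag

variable {V : Type} [Fintype V] (G : SimpleGraph V) [DecidableRel G.Adj]

/-- magnetic potential: unit complex numbers on oriented edges, conjugated under reversal -/
def IsPot (σ : V → V → ℂ) : Prop :=
  ∀ x y, G.Adj x y → ‖σ x y‖ = 1 ∧ σ y x = (starRingEnd ℂ) (σ x y)

/-- magnetic Laplacian -/
noncomputable def lap (σ : V → V → ℂ) (f : V → ℂ) (x : V) : ℂ :=
  ∑ y ∈ G.neighborFinset x, (f x - σ x y * f y)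

/-- smallest eigenvalue of the magnetic Laplacian -/
noncomputable def lam (σ : V → V → ℂ) : ℝ :=
  sInf {μ : ℝ | ∃ f : V → ℂ, f ≠ 0 ∧ ∀ x, lap G σ f x = μ * f x}

/-- magneto-spectral height -/
noncomputable def nu : ℝ := sSup {t : ℝ | ∃ σ, IsPot G σ ∧ t = lam G σ}

end Pool.Agent.H27.Mag
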