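import Pool.Agent.H27.MSS3
import Pool.Agent.H27.MagDef

set_option autoImplicit false

namespace Pool.Agent.H27.Mag

open Matrix Finset MSS

variable {V : Type} [Fintype V] (G : SimpleGraph V) [DecidableRel G.Adj]

lemma eig_bd {σ : V → V → ℂ} (hσ : IsPot G σ) {μ : ℝ} {f : V → ℂ} (hf : f ≠ 0)
    (h : ∀ x, lap G σ f x = μ * f x) : |μ| ≤ 2 * Fintype.card V := by
  obtain ⟨w, hw⟩ := Function.ne_iff.1 hf
  obtain ⟨x, -, hx⟩ := exists_max_image univ (fun v => ‖f v‖) ⟨w, mem_univ _⟩
  have h0 : 0 < ‖f x‖ := (norm_pos_iff.2 hw).trans_le (hx w (mem_univ _))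
  have h1 : ‖lap G σ f x‖ ≤ ∑ _y ∈ G.neighborFinset x, 2 * ‖f x‖ := by
    refine (norm_sum_le _ _).trans (sum_le_sum fun y hy => (norm_sub_le _ _).trans ?_)
    rw [norm_mul, (hσ x y ((G.mem_neighborFinset _ _).1 hy)).1]
    linarith [hx y (mem_univ _)]
  rw [h, norm_mul, Complex.norm_real, Real.norm_eq_abs, sum_const, nsmul_eq_mul] at h1
  have h2 : ((G.neighborFinset x).card : ℝ) ≤ Fintype.card V := by exact_mod_cast card_le_univ _
  nlinarith

lemma lam_le {σ : V → V → ℂ} (hσ : IsPot G σ) {μ : ℝ} {f : V → ℂ} (hf : f ≠ 0)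
    (h : ∀ x, lap G σ f x = μ * f x) : lam G σ ≤ μ :=
  csInf_le ⟨-(2 * Fintype.card V), fun _ ⟨_, hg, h⟩ => (abs_le.1 (eig_bd G hσ hg h)).1⟩ ⟨f, hf, h⟩

lemma lam_le_nu {σ : V → V → ℂ} (hσ : IsPot G σ) : lam G σ ≤ nu G := by
  refine le_csSup ⟨2 * Fintype.card V, ?_⟩ ⟨σ, hσ, rfl⟩
  rintro _ ⟨τ, hτ, rfl⟩
  by_cases h : {μ : ℝ | ∃ f : V → ℂ, f ≠ 0 ∧ ∀ x, lap G τ f x = μ * f x}.Nonempty
  · obtain ⟨μ, f, hf, h⟩ := h
    exact (lam_le G hτ hf h).trans (abs_le.1 (eig_bd G hτ hf h)).2
  · rw [lam, Set.not_nonempty_iff_eq_empty.1 h, Real.sInf_empty]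
    positivity

theorem le_nu [DecidableEq V] [Nonempty V] (c : ℝ) (r : Finset V → V → ℝ)
    (hr : ∀ S v, v ∈ S → 0 < r S v ∧
      r S v ≤ G.degree v - c - ∑ u ∈ (S.erase v).filter (G.Adj v), 1 / r (S.erase v) u) :
    c ≤ nu G := by
  obtain ⟨l, hl, hc⟩ := edge_list G
  obtain ⟨S, hS, h0, h1, h2⟩ := signing l hl (diagonal fun v => G.degree v - c) (isSymm_diagonal _)
    fun y hy => by
      rw [diagonal_add, Φ_diag l hl]
      refine mul_pos (by positivity) (mt_pos G _ l hl hc r (fun S v hv => ?_) univ).1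
      exact ⟨(hr S v hv).1, (hr S v hv).2.trans (by linarith)⟩
  have hσ : IsPot G fun x y => -(S x y : ℂ) := fun x y hxy => by
    refine ⟨?_, by simp [hS.apply x y]⟩
    rcases h1 x y (by rw [hc, if_pos hxy]) with h | h <;> simp [h]
  have hl : ∀ (f : V → ℂ) x, lap G (fun x y => -(S x y : ℂ)) f x =
      G.degree x * f x + ∑ y, S x y * f y := fun f x => by
    simp only [lap, neg_mul, sub_neg_eq_add, sum_add_distrib, sum_const, nsmul_eq_mul,
      SimpleGraph.card_neighborFinset_eq_degree]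
    congr 1
    refine sum_subset (subset_univ _) fun y _ hy => ?_
    rw [h0 x y (by rw [hc, if_neg (by simpa using hy)])]
    simp
  refine le_trans (le_csInf ?_ ?_) (lam_le_nu G hσ)
  · have hH : ((diagonal fun v => (G.degree v : ℝ)) + S).IsHermitian :=
      IsHermitian.add (isHermitian_diagonal _) hS
    let i := Classical.arbitrary V
    have h3 := hH.mulVec_eigenvectorBasis i
    refine ⟨hH.eigenvalues i, fun x => ((hH.eigenvectorBasis i) x : ℝ), fun h => ?_, fun x => ?_⟩
    · refine hH.eigenvectorBasis.orthonormal.ne_zero i ?_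
      ext x
      simpa using congrFun h x
    · have := congrFun h3 x
      rw [add_mulVec, Pi.add_apply, mulVec_diagonal] at this
      simp only [mulVec, dotProduct, Pi.smul_apply, smul_eq_mul] at this
      rw [hl]
      beta_reduce
      exact_mod_cast this
  · rintro μ ⟨f, hf, h⟩
    by_contra! hμ
    have h3 := h2 (c - μ) (by linarith)
    have h4 : ((diagonal (fun _ => c - μ) + ((diagonal fun v => (G.degree v : ℝ) - c) + S)).map
        Complex.ofRealHom).det = 0 := by
      refine exists_mulVec_eq_zero_iff.1 ⟨f, hf, funext fun x => ?_⟩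
      have := h x
      rw [hl] at this
      rw [Matrix.map_add _ (map_add _), Matrix.map_add _ (map_add _), diagonal_map (map_zero _),
        diagonal_map (map_zero _), add_mulVec, add_mulVec, Pi.add_apply, Pi.add_apply,
        mulVec_diagonal, mulVec_diagonal]
      simp only [mulVec, dotProduct, map_apply, Complex.ofRealHom_eq_coe, Pi.zero_apply]
      push_cast
      linear_combination this
    rw [← RingHom.mapMatrix_apply, ← RingHom.map_det] at h4
    simp only [Complex.ofRealHom_eq_coe, Complex.ofReal_eq_zero] at h4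
    linarith

lemma card_le [DecidableEq V] (S : Finset V) (v : V) :
    ((S.erase v).filter (G.Adj v)).card ≤ G.degree v :=
  card_le_card fun u hu => (G.mem_neighborFinset _ _).2 (mem_filter.1 hu).2

lemma card_lt [DecidableEq V] (S : Finset V) (v : V) (h : ∃ w, w ∉ S ∧ G.Adj v w) :
    ((S.erase v).filter (G.Adj v)).card + 1 ≤ G.degree v := by
  obtain ⟨w, hw, h⟩ := h
  refine card_lt_card ⟨fun u hu => (G.mem_neighborFinset _ _).2 (mem_filter.1 hu).2, fun h' => ?_⟩
  exact hw (mem_of_mem_erase (mem_filter.1 (h' ((G.mem_neighborFinset _ _).2 h))).1)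

theorem ramanujan [DecidableEq V] {d : ℕ} (hd : 3 ≤ d) (h : d ≤ G.minDegree) :
    d - 2 * √(d - 1) ≤ nu G := by
  classical
  have : Nonempty V := by
    by_contra hV
    rw [not_nonempty_iff] at hV
    rw [SimpleGraph.minDegree_of_isEmpty] at h
    omega
  have hd' : (3 : ℝ) ≤ d := by exact_mod_cast hd
  set q := √(d - 1 : ℝ) with hq
  have hq2 : q ^ 2 = d - 1 := Real.sq_sqrt (by linarith)
  have hq1 : 1 < q := Real.lt_sqrt_of_sq_lt (by linarith)
  have hq0 : 0 < q := by linarith
  have h1q : 1 / q < 1 := (div_lt_one hq0).2 hq1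
  have hqq : q * (1 / q) = 1 := by field_simp
  refine le_nu G _ (fun S v => if ∃ w, w ∉ S ∧ G.Adj v w then q else q - 1 / q) fun S v hv => ?_
  have hv' : (d : ℝ) ≤ G.degree v := by exact_mod_cast h.trans (G.minDegree_le_degree v)
  have hs : ∑ u ∈ (S.erase v).filter (G.Adj v),
      1 / (if ∃ w, w ∉ S.erase v ∧ G.Adj u w then q else q - 1 / q) =
      ((S.erase v).filter (G.Adj v)).card * (1 / q) := by
    rw [← nsmul_eq_mul, ← sum_const]
    refine sum_congr rfl fun u hu => ?_
    rw [if_pos ⟨v, notMem_erase _ _, (mem_filter.1 hu).2.symm⟩]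
  simp only [hs]
  have h0 : 0 < 1 / q := by positivity
  have e : (d - 1) * (1 / q) = q := by rw [← hq2]; field_simp
  split_ifs with h1
  · have : (((S.erase v).filter (G.Adj v)).card : ℝ) + 1 ≤ G.degree v := by
      exact_mod_cast card_lt G S v h1
    exact ⟨hq0, by nlinarith⟩
  · have : (((S.erase v).filter (G.Adj v)).card : ℝ) ≤ G.degree v := by
      exact_mod_cast card_le G S v
    exact ⟨by linarith, by nlinarith⟩

end Pool.Agent.H27.Mag
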