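import Pool.Agent.H27.Mag1

set_option autoImplicit false

namespace Pool.Agent.H27.Mag

open Matrix Finset

variable {V : Type} [Fintype V] [DecidableEq V] (G : SimpleGraph V) [DecidableRel G.Adj]

lemma rayleigh (hL : (G.lapMatrix ℝ).IsHermitian) (l : Fin (Fintype.card V))
    (hl : (l : ℕ) + 2 = Fintype.card V) (f : V → ℝ) :
    hL.eigenvalues₀ l * (∑ v, f v ^ 2 - (∑ v, f v) ^ 2 / Fintype.card V) ≤
      f ⬝ᵥ G.lapMatrix ℝ *ᵥ f := by
  have hP := G.posSemidef_lapMatrix ℝ
  have hn : (0 : ℝ) < Fintype.card V := by exact_mod_cast l.pos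
  rcases le_or_gt (hL.eigenvalues₀ l) 0 with h0 | h0
  · refine le_trans (mul_nonpos_of_nonpos_of_nonneg h0 ?_) (hP.dotProduct_mulVec_nonneg f)
    rw [sub_nonneg, div_le_iff₀ hn, mul_comm]
    exact sq_sum_le_card_mul_sum_sq (s := univ)
  set U : Matrix V V ℝ := hL.eigenvectorUnitary.1 with hU
  have h1 : U * Uᵀ = 1 := hL.eigenvectorUnitary.2.2
  have h1' : Uᵀ * U = 1 := hL.eigenvectorUnitary.2.1
  have h2 : G.lapMatrix ℝ = U * diagonal hL.eigenvalues * Uᵀ := hL.spectral_theorem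
  have h3 : ∀ f g : V → ℝ, f ⬝ᵥ g = (Uᵀ *ᵥ f) ⬝ᵥ (Uᵀ *ᵥ g) := fun f g => by
    rw [mulVec_transpose U f, ← dotProduct_mulVec, mulVec_mulVec, h1, one_mulVec]
  have h4 : ∀ g : V → ℝ, Uᵀ *ᵥ (G.lapMatrix ℝ *ᵥ g) = diagonal hL.eigenvalues *ᵥ (Uᵀ *ᵥ g) :=
    fun g => by
      conv_lhs => rw [h2]
      rw [mulVec_mulVec, mulVec_mulVec, ← mul_assoc, ← mul_assoc, h1', one_mul]
  let e := Fintype.equivOfCardEq (Fintype.card_fin (Fintype.card V))
  let i0 : V := e ⟨l + 1, by omega⟩
  have h5 : ∀ i, i ≠ i0 → hL.eigenvalues₀ l ≤ hL.eigenvalues i := fun i hi => by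
    refine hL.eigenvalues₀_antitone (?_ : e.symm i ≤ l)
    have h6 : ((e.symm i : Fin _) : ℕ) ≠ l + 1 := fun h => hi (by
      rw [← e.apply_symm_apply i]; exact congrArg e (Fin.ext h))
    have := (e.symm i).2
    rw [Fin.le_def]
    omega
  set a := Uᵀ *ᵥ f with ha
  set c := Uᵀ *ᵥ (fun _ => 1) with hc
  have h6 : ∀ i, i ≠ i0 → c i = 0 := fun i hi => by
    have := congrFun (h4 fun _ => 1) i
    rw [SimpleGraph.lapMatrix_mulVec_const_eq_zero, mulVec_zero, mulVec_diagonal] at this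
    exact (mul_eq_zero.1 this.symm).resolve_left (h0.trans_le (h5 i hi)).ne'
  have h7 : ∀ b : V → ℝ, b ⬝ᵥ c = b i0 * c i0 := fun b =>
    sum_eq_single _ (fun i _ hi => by rw [h6 i hi, mul_zero]) (by simp)
  have h8 : ∑ v, f v = a i0 * c i0 := by
    rw [← h7, ← h3]; simp [dotProduct]
  have h9 : (Fintype.card V : ℝ) = c i0 * c i0 := by
    rw [← h7, ← h3]; simp [dotProduct]
  have h10 : ∑ v, f v ^ 2 = ∑ i, a i ^ 2 := by
    simpa [dotProduct, sq] using h3 f f
  have h11 : (∑ v, f v) ^ 2 / Fintype.card V = a i0 ^ 2 := by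
    rw [div_eq_iff hn.ne', h8, h9]; ring
  rw [h11, h10, h3, h4, ← ha, dotProduct, ← add_sum_erase _ _ (mem_univ i0),
    ← add_sum_erase _ _ (mem_univ i0), add_sub_cancel_left, mul_sum]
  simp only [mulVec_diagonal]
  have := hP.eigenvalues_nonneg i0
  refine le_add_of_nonneg_of_le (by nlinarith [sq_nonneg (a i0)]) (sum_le_sum fun i hi => ?_)
  nlinarith [h5 i (mem_erase.1 hi).1, sq_nonneg (a i)]

lemma lam2_le (hL : (G.lapMatrix ℝ).IsHermitian) (l : Fin (Fintype.card V))
    (hl : (l : ℕ) + 2 = Fintype.card V) (v : V) : hL.eigenvalues₀ l ≤ 2 * G.degree v := by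
  have h := rayleigh G hL l hl (Pi.single v 1)
  have hn : (2 : ℝ) ≤ Fintype.card V := by exact_mod_cast (by omega)
  have h1 : ∑ w, (Pi.single v 1 : V → ℝ) w ^ 2 = 1 := by simp [Pi.single_apply]
  have h2 : ∑ w, (Pi.single v 1 : V → ℝ) w = 1 := by simp
  have h3 : (Pi.single v 1 : V → ℝ) ⬝ᵥ G.lapMatrix ℝ *ᵥ Pi.single v 1 = G.degree v := by
    simp [SimpleGraph.lapMatrix, SimpleGraph.degMatrix]
  rw [h1, h2, h3, one_pow] at h
  have h4 : 1 / (Fintype.card V : ℝ) ≤ 1 / 2 := one_div_le_one_div_of_le two_pos hn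
  have h5 : (0 : ℝ) ≤ G.degree v := Nat.cast_nonneg _
  nlinarith

/-- a path on `m` vertices of degree two, starting at `v`, inside `S` -/
def Pth (S : Finset V) (v : V) (m : ℕ) : Prop :=
  ∃ p : ℕ → V, p 0 = v ∧ (∀ i < m, p i ∈ S ∧ G.degree (p i) = 2) ∧
    (∀ i, i + 1 < m → G.Adj (p i) (p (i + 1))) ∧ ∀ i < m, ∀ j < m, p i = p j → i = j

lemma Pth.le {S : Finset V} {v : V} {m : ℕ} (h : Pth G S v m) : m ≤ Fintype.card V := by
  obtain ⟨p, -, -, -, h⟩ := h
  simpa using Fintype.card_le_of_injective (fun i : Fin m => p i) fun i j hij =>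
    Fin.ext (h _ i.2 _ j.2 hij)

lemma path_bd (hL : (G.lapMatrix ℝ).IsHermitian) (l : Fin (Fintype.card V))
    (hl : (l : ℕ) + 2 = Fintype.card V) {S : Finset V} {v : V} {m t : ℕ} (h : Pth G S v m)
    (ht : 4 * t + 2 ≤ m) (ht0 : 0 < t) : hL.eigenvalues₀ l * t ^ 2 ≤ 12 := by
  have hm := h.le
  obtain ⟨p, -, hd, ha, hi⟩ := h
  let g : ℕ → ℝ := fun i => (min i (2 * t - i) : ℕ)
  let f : V → ℝ := fun x => ∑ i ∈ range (2 * t + 1), if p i = x then g i else 0
  have hg : ∀ i, 0 ≤ g i := fun i => Nat.cast_nonneg _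
  have f0 : ∀ x, 0 ≤ f x := fun x => sum_nonneg fun i _ => by split_ifs <;> simp [hg]
  have f1 : ∀ i ≤ 2 * t, f (p i) = g i := fun i h => by
    simp only [f]
    rw [sum_eq_single i (fun j hj hji => if_neg fun e => hji (hi _ (by
      have := mem_range.1 hj; omega) _ (by omega) e)) (fun h' => absurd (mem_range.2 (by omega)) h'),
      if_pos rfl]
  have f2 : ∀ w : V → ℝ, ∑ x, f x * w x = ∑ i ∈ range (2 * t + 1), g i * w (p i) := fun w => by
    simp only [f, sum_mul]
    rw [sum_comm]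
    simp
  have h1 : ∑ x, f x ^ 2 = ∑ i ∈ range (2 * t + 1), g i ^ 2 := by
    simp only [sq]
    rw [f2]
    exact sum_congr rfl fun i h => by rw [f1 i (by have := mem_range.1 h; omega)]
  have h2 : ∑ x, f x = ∑ i ∈ range (2 * t + 1), g i := by simpa using f2 fun _ => 1
  have h3 : f ⬝ᵥ G.lapMatrix ℝ *ᵥ f ≤ 2 * t := by
    rw [dotProduct, f2]
    refine (sum_le_sum (g := fun i => if i = t then (2 * t : ℝ) else 0) fun i h => ?_).trans ?_
    · have h := mem_range.1 h
      by_cases h0 : i = 0 ∨ i = 2 * t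
      · have : g i = 0 := by rcases h0 with rfl | rfl <;> simp [g]
        rw [this, zero_mul]
        split_ifs <;> positivity
      obtain ⟨j, rfl⟩ : ∃ j, i = j + 1 := ⟨i - 1, by omega⟩
      rw [SimpleGraph.lapMatrix_mulVec_apply, (hd _ (by omega)).2, f1 _ (by omega)]
      have h4 : g j + g (j + 2) ≤ ∑ u ∈ G.neighborFinset (p (j + 1)), f u := by
        rw [← f1 j (by omega), ← f1 (j + 2) (by omega), ← sum_pair fun e => by
          have := hi _ (by omega) _ (by omega) e; omega]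
        refine sum_le_sum_of_subset_of_nonneg (fun u hu => ?_) fun u _ _ => f0 u
        rw [SimpleGraph.mem_neighborFinset]
        rcases mem_insert.1 hu with rfl | hu
        · exact (ha j (by omega)).symm
        · rw [mem_singleton.1 hu]; exact ha _ (by omega)
      refine (mul_le_mul_of_nonneg_left (sub_le_sub_left h4 _) (hg _)).trans ?_
      split_ifs with h5
      · have e1 : g (j + 1) = t := by simp only [g]; congr 1; omega
        have e2 : g j + 1 = t := by simp only [g]; norm_cast; omega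
        have e3 : g (j + 2) + 1 = t := by simp only [g]; norm_cast; omega
        push_cast
        nlinarith
      · have e2 : g j + g (j + 2) = 2 * g (j + 1) := by simp only [g]; norm_cast; omega
        rw [e2]; simp
    · rw [sum_ite_eq']
      split_ifs <;> simp
  have h4 : (t : ℝ) ^ 3 / 3 ≤ ∑ i ∈ range (2 * t + 1), g i ^ 2 := by
    have h5 : ∀ s : ℕ, (s : ℝ) ^ 3 / 3 ≤ ∑ i ∈ range (s + 1), (i : ℝ) ^ 2 := fun s => by
      induction s with
      | zero => simp
      | succ s ih =>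
        rw [sum_range_succ]
        have : (0 : ℝ) ≤ s := Nat.cast_nonneg _
        push_cast
        nlinarith
    refine (h5 t).trans ((sum_congr rfl fun i h => ?_).le.trans
      (sum_le_sum_of_subset_of_nonneg (range_subset_range.2 (by omega : t + 1 ≤ 2 * t + 1))
        fun _ _ _ => sq_nonneg _))
    have := mem_range.1 h
    simp only [g]
    rw [min_eq_left (by omega)]
  have h5 := rayleigh G hL l hl f
  have h6 := sq_sum_le_card_mul_sum_sq (s := range (2 * t + 1)) (f := g)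
  rw [h1, h2] at h5
  rw [card_range] at h6
  set Q := ∑ i ∈ range (2 * t + 1), g i ^ 2
  have hn : (4 * t + 2 : ℝ) ≤ Fintype.card V := by exact_mod_cast ht.trans hm
  have ht' : (0 : ℝ) < t := by exact_mod_cast ht0
  have hQ : 0 ≤ Q := le_trans (by positivity) h4
  have h7 : (∑ i ∈ range (2 * t + 1), g i) ^ 2 / Fintype.card V ≤ Q / 2 := by
    rw [div_le_iff₀ (by linarith)]
    push_cast at h6
    nlinarith
  rcases le_or_gt (hL.eigenvalues₀ l) 0 with h0 | h0
  · nlinarith [sq_nonneg (t : ℝ)]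
  · have h8 : hL.eigenvalues₀ l * (t ^ 3 / 6) ≤ 2 * t := by nlinarith
    refine le_of_mul_le_mul_right ?_ ht'
    nlinarith

open Classical in
noncomputable def kk (S : Finset V) (v : V) : ℕ := Nat.findGreatest (Pth G S v) (Fintype.card V)

lemma kk_spec (S : Finset V) (v : V) : Pth G S v (kk G S v) := by
  classical
  exact Nat.findGreatest_spec (Nat.zero_le _) ⟨fun _ => v, rfl, by simp, by simp, by simp⟩

lemma le_kk {S : Finset V} {v : V} {m : ℕ} (h : Pth G S v m) : m ≤ kk G S v := by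
  classical
  exact Nat.le_findGreatest h.le h

lemma kk_step {S : Finset V} {u v : V} (hv : v ∈ S) (hd : G.degree v = 2) (h : G.Adj v u) :
    kk G (S.erase v) u + 1 ≤ kk G S v := by
  obtain ⟨p, h0, h1, h2, h3⟩ := kk_spec G (S.erase v) u
  refine le_kk G ⟨fun i => Nat.casesOn i v p, rfl, fun i hi => ?_, fun i hi => ?_,
    fun i hi j hj e => ?_⟩
  · rcases i with _ | i
    · exact ⟨hv, hd⟩
    · exact ⟨mem_of_mem_erase (h1 i (by omega)).1, (h1 i (by omega)).2⟩
  · rcases i with _ | i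
    · rw [← h0] at h; exact h
    · exact h2 i (by omega)
  · rcases i with _ | i <;> rcases j with _ | j
    · rfl
    · exact absurd e.symm (mem_erase.1 (h1 j (by omega)).1).1
    · exact absurd e (mem_erase.1 (h1 i (by omega)).1).1
    · rw [h3 i (by omega) j (by omega) e]

theorem two_bd [Nonempty V] (h2 : ∀ v, 2 ≤ G.degree v) {L : ℕ} (hL : ∀ S v, kk G S v ≤ L) :
    1 / (6 * L + 4 : ℝ) ^ 2 ≤ nu G := by
  classical
  have hL0 : (0 : ℝ) ≤ L := Nat.cast_nonneg _
  refine le_nu G _ (fun S v => if ∃ w, w ∉ S ∧ G.Adj v w then 1 + 1 / (4 * L + 2 + 2 * kk G S v)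
    else 1 / (6 * L + 3)) fun S v hv => ?_
  have hv' : (2 : ℝ) ≤ G.degree v := by exact_mod_cast h2 v
  have hs : ∀ A : ℝ, (∀ u, G.Adj v u → 4 * L + 3 + 2 * (kk G (S.erase v) u : ℝ) ≤ A) →
      ∑ u ∈ (S.erase v).filter (G.Adj v), 1 / (if ∃ w, w ∉ S.erase v ∧ G.Adj u w then
        1 + 1 / (4 * L + 2 + 2 * kk G (S.erase v) u : ℝ) else 1 / (6 * L + 3)) ≤
      ((S.erase v).filter (G.Adj v)).card * (1 - 1 / A) := fun A hA => by
    rw [← nsmul_eq_mul]
    refine sum_le_card_nsmul _ _ _ fun u hu => ?_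
    rw [if_pos ⟨v, notMem_erase _ _, (mem_filter.1 hu).2.symm⟩]
    have h1 := one_div_le_one_div_of_le (by positivity) (hA u (mem_filter.1 hu).2)
    have : 1 / (1 + 1 / (4 * L + 2 + 2 * kk G (S.erase v) u : ℝ)) =
        1 - 1 / (4 * L + 3 + 2 * kk G (S.erase v) u : ℝ) := by
      field_simp; ring
    linarith
  have h3 := hs (6 * L + 3) fun u _ => by
    have : (kk G (S.erase v) u : ℝ) ≤ L := by exact_mod_cast hL _ _
    linarith
  have c1 : 1 / (6 * L + 4 : ℝ) ^ 2 ≤ 1 / (12 * L + 6) :=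
    one_div_le_one_div_of_le (by positivity) (by nlinarith)
  have c2 : 1 / (6 * L + 3 : ℝ) = 2 * (1 / (12 * L + 6)) := by field_simp; ring
  have c3 : 1 / (4 * L + 2 : ℝ) = 3 * (1 / (12 * L + 6)) := by field_simp; ring
  have c4 : 1 / (12 * L + 6 : ℝ) ≤ 1 / 6 := one_div_le_one_div_of_le (by positivity) (by linarith)
  have c5 : 0 < 1 / (12 * L + 6 : ℝ) := by positivity
  split_ifs with h1
  · refine ⟨by positivity, ?_⟩
    have h4 : (((S.erase v).filter (G.Adj v)).card : ℝ) + 1 ≤ G.degree v := by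
      exact_mod_cast card_lt G S v h1
    have hk : (0 : ℝ) ≤ kk G S v := Nat.cast_nonneg _
    by_cases h5 : G.degree v = 2
    · have h6 := hs (4 * L + 1 + 2 * kk G S v) fun u hu => by
        have : (kk G (S.erase v) u : ℝ) + 1 ≤ kk G S v := by exact_mod_cast kk_step G hv h5 hu
        linarith
      have hk' : (kk G S v : ℝ) ≤ L := by exact_mod_cast hL _ _
      have h7 : 1 / (4 * L + 1 + 2 * kk G S v : ℝ) ≤ 1 := by
        rw [div_le_one (by positivity)]; linarith
      have h8 : 1 / (6 * L + 4 : ℝ) ^ 2 ≤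
          1 / (4 * L + 1 + 2 * kk G S v : ℝ) - 1 / (4 * L + 2 + 2 * kk G S v) := by
        rw [div_sub_div _ _ (by positivity) (by positivity), div_le_div_iff₀ (by positivity)
          (by positivity)]
        nlinarith
      rw [h5] at h4 ⊢
      push_cast at h4 ⊢
      nlinarith
    · have h6 : (3 : ℝ) ≤ G.degree v := by exact_mod_cast (by have := h2 v; omega)
      have h7 : 1 / (4 * L + 2 + 2 * kk G S v : ℝ) ≤ 1 / (4 * L + 2) :=
        one_div_le_one_div_of_le (by positivity) (by linarith)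
      nlinarith
  · have h4 : (((S.erase v).filter (G.Adj v)).card : ℝ) ≤ G.degree v := by
      exact_mod_cast card_le G S v
    exact ⟨by positivity, by nlinarith⟩

theorem gap_le (h2 : 2 ≤ G.minDegree) (hL : (G.lapMatrix ℝ).IsHermitian) (l : Fin (Fintype.card V))
    (hl : (l : ℕ) + 2 = Fintype.card V) : hL.eigenvalues₀ l ≤ 50000 * nu G := by
  have : Nonempty V := Fintype.card_pos_iff.1 l.pos
  obtain ⟨v, hv⟩ := G.exists_minimal_degree_vertex
  have h1 := lam2_le G hL l hl v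
  rw [← hv] at h1
  rcases h2.eq_or_lt with h3 | h3
  · obtain ⟨w, -, hw⟩ := exists_mem_eq_sup univ univ_nonempty (kk G univ)
    have h4 := two_bd G (fun v => h2.trans (G.minDegree_le_degree v)) (L := kk G univ w)
      fun S u => by
        obtain ⟨p, a, b, c⟩ := kk_spec G S u
        exact (le_kk G ⟨p, a, fun i hi => ⟨mem_univ _, (b i hi).2⟩, c⟩).trans
          (hw ▸ le_sup (f := kk G univ) (mem_univ u))
    have h5 := kk_spec G univ w
    set L := kk G univ w
    rw [div_le_iff₀ (by positivity)] at h4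
    have h0 : 0 < nu G := by
      by_contra! h
      nlinarith [sq_nonneg (6 * L + 4 : ℝ)]
    by_cases h6 : L ≤ 5
    · have : (L : ℝ) ≤ 5 := by exact_mod_cast h6
      have : (6 * L + 4 : ℝ) ^ 2 ≤ 34 ^ 2 := pow_le_pow_left₀ (by positivity) (by linarith) _
      rw [← h3] at h1
      push_cast at h1
      nlinarith
    · have h7 := path_bd G hL l hl h5 (t := (L - 2) / 4) (by omega) (by omega)
      have h8 : (6 * L + 4 : ℝ) ≤ 58 * ((L - 2) / 4 : ℕ) := by exact_mod_cast (by omega)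
      have h9 : (0 : ℝ) < ((L - 2) / 4 : ℕ) := by exact_mod_cast (by omega)
      generalize (((L - 2) / 4 : ℕ) : ℝ) = t at *
      have := pow_le_pow_left₀ (by positivity) h8 2
      refine le_of_mul_le_mul_right ?_ (pow_pos h9 2)
      nlinarith [mul_pos h0 (pow_pos h9 2)]
  · have h4 := ramanujan G h3 le_rfl
    have h5 : (3 : ℝ) ≤ G.minDegree := by exact_mod_cast h3
    generalize (G.minDegree : ℝ) = d at *
    have : √(d - 1) ≤ 19 * d / 40 := Real.sqrt_le_iff.2 ⟨by positivity, by nlinarith⟩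
    linarith

end Pool.Agent.H27.Mag
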