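import Pool.Agent.H27.Mag1

set_option autoImplicit false

namespace Pool.Agent.H27.Mag

open Matrix Finset
open scoped ComplexOrder

section
variable {V : Type} [Fintype V] [DecidableEq V] (G : SimpleGraph V) [DecidableRel G.Adj]

noncomputable def Am (σ : V → V → ℂ) : Matrix V V ℂ := of fun x y => if G.Adj x y then σ x y else 0

omit [DecidableEq V] in
lemma Am_sum (σ : V → V → ℂ) (f : V → ℂ) (x : V) :
    ∑ y, Am G σ x y * f y = ∑ y ∈ G.neighborFinset x, σ x y * f y := by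
  simp [Am, SimpleGraph.neighborFinset_eq_filter, sum_filter]

omit [Fintype V] [DecidableEq V] in
lemma Am_herm {σ : V → V → ℂ} (hσ : IsPot G σ) : (Am G σ).IsHermitian := by
  ext x y
  simp only [Am, conjTranspose_apply, of_apply, G.adj_comm y x]
  split_ifs with h
  · rw [(hσ x y h).2]; simp
  · simp

lemma lap_eq (σ : V → V → ℂ) (f : V → ℂ) (x : V) :
    lap G σ f x = (((diagonal fun v => (G.degree v : ℂ)) - Am G σ) *ᵥ f) x := by
  rw [sub_mulVec, Pi.sub_apply, mulVec_diagonal, mulVec, dotProduct, Am_sum]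
  simp [lap]

lemma H_herm {σ : V → V → ℂ} (hσ : IsPot G σ) :
    ((diagonal fun v => (G.degree v : ℂ)) - Am G σ).IsHermitian :=
  (isHermitian_diagonal_iff.2 fun v => by simp [IsSelfAdjoint]).sub (Am_herm G hσ)

lemma eig_mem {σ : V → V → ℂ} (hσ : IsPot G σ) (i : V) : (H_herm G hσ).eigenvalues i ∈
    {μ : ℝ | ∃ f : V → ℂ, f ≠ 0 ∧ ∀ x, lap G σ f x = μ * f x} := by
  refine ⟨(H_herm G hσ).eigenvectorBasis i, fun h => ?_, fun x => ?_⟩
  · refine (H_herm G hσ).eigenvectorBasis.orthonormal.ne_zero i ?_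
    ext x
    simpa using congrFun h x
  · rw [lap_eq, (H_herm G hσ).mulVec_eigenvectorBasis i]
    simp

lemma psd {σ : V → V → ℂ} (hσ : IsPot G σ) :
    ((diagonal fun v => (G.degree v : ℂ)) - Am G σ - (lam G σ : ℂ) • 1).PosSemidef := by
  have hA := H_herm G hσ
  have : (diagonal fun v => (G.degree v : ℂ)) - Am G σ - (lam G σ : ℂ) • 1 =
      Unitary.conjStarAlgAut ℂ _ hA.eigenvectorUnitary
      (diagonal fun i => (hA.eigenvalues i : ℂ) - lam G σ) := by
    conv_lhs => rw [hA.spectral_theorem]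
    rw [← diagonal_sub, map_sub, ← smul_one_eq_diagonal, map_smul, map_one]
    rfl
  rw [this, Unitary.conjStarAlgAut_apply]
  refine (posSemidef_diagonal_iff.2 fun i => ?_).mul_mul_conjTranspose_same _
  obtain ⟨f, hf, h⟩ := eig_mem G hσ i
  exact_mod_cast sub_nonneg.2 (lam_le G hσ hf h)

lemma test {A : Matrix V V ℂ} (hA : A.IsHermitian) {t α : ℝ} (hP : ((t : ℂ) • 1 - A).PosSemidef)
    {x z : V} (hxz : x ≠ z) (h1 : A x x = 0) (h2 : (A * A) x x = α ^ 2) (h3 : (A * (A * A)) x x = 0)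
    (h4 : A x z = 0) (h5 : A z z = 0) (ht : t ≤ 3) :
    ‖(A * A) x z‖ ^ 2 / 3 ≤ 2 * α ^ 2 * (t - α) := by
  set w := (A * A) x z with hw
  have h6 : (A * A) z x = star w := by
    rw [hw, ← conjTranspose_apply, conjTranspose_mul, hA.eq]
  have h7 : A z x = 0 := by rw [← hA.eq, conjTranspose_apply, h4, star_zero]
  let N : Matrix V V ℂ := (α : ℂ) • 1 + A + (star w / 3) • single z x 1
  have h := (hP.conjTranspose_mul_mul_same N).diag_nonneg (i := x)
  have hN : Nᴴ = (α : ℂ) • 1 + A + (w / 3) • single x z 1 := by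
    simp [N, hA.eq, conjTranspose_single]
  have h8 : (A * (A * single z x (1 : ℂ))) x x = w := by
    rw [← Matrix.mul_assoc, mul_single_apply_same, mul_one]
  rw [hN] at h
  simp only [N, Matrix.add_mul, Matrix.mul_add, Matrix.mul_sub, Matrix.sub_mul, Matrix.smul_mul,
    Matrix.mul_smul, Matrix.one_mul, Matrix.mul_one, Matrix.add_apply, Matrix.sub_apply,
    Matrix.smul_apply, smul_eq_mul, Matrix.mul_assoc, h1, h2, h3, one_apply_eq, single_mul_apply_same,
    mul_single_apply_same, h4, h5, h6, h7, h8, single_apply, hxz.symm, smul_sub, smul_add,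
    and_false, false_and, and_self, if_true, if_false] at h
  have h9 : w * star w = (‖w‖ ^ 2 : ℝ) := by
    rw [Complex.star_def, Complex.mul_conj, Complex.normSq_eq_norm_sq]
  have h10 : (0 : ℂ) ≤ (2 * α ^ 2 * (t - α) - 2 * ‖w‖ ^ 2 / 3 + t * ‖w‖ ^ 2 / 9 : ℝ) := by
    convert h using 1
    push_cast at h9 ⊢
    linear_combination (2 / 3 - t / 9) * h9
  have h11 := Complex.zero_le_real.1 h10
  nlinarith [sq_nonneg ‖w‖]

end

section
variable {Γ : Type} [AddCommGroup Γ] (g : Fin 8 → Γ) (h2 : ∀ i, g i + g i = 0) (h0 : ∀ i, g i ≠ 0)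

def cay : SimpleGraph Γ where
  Adj x y := ∃ i, x + g i = y
  symm := ⟨fun x y ⟨i, h⟩ => ⟨i, by rw [← h, add_assoc, h2, add_zero]⟩⟩
  loopless := ⟨fun x ⟨i, h⟩ => h0 i (by simpa using h)⟩

instance [DecidableEq Γ] : DecidableRel (cay g h2 h0).Adj :=
  fun x y => inferInstanceAs (Decidable (∃ i, x + g i = y))

variable [DecidableEq Γ] [Fintype Γ]

lemma nb_sum (hi : Function.Injective g) (x : Γ) (F : Γ → ℂ) :
    ∑ y ∈ (cay g h2 h0).neighborFinset x, F y = ∑ i, F (x + g i) := by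
  have : (cay g h2 h0).neighborFinset x = univ.image fun i => x + g i := by
    ext y
    rw [SimpleGraph.mem_neighborFinset, mem_image]
    exact ⟨fun ⟨i, h⟩ => ⟨i, mem_univ _, h⟩, fun ⟨i, _, h⟩ => ⟨i, h⟩⟩
  rw [this, sum_image fun i _ j _ h => hi (add_left_cancel h)]

lemma deg (hi : Function.Injective g) (x : Γ) : ((cay g h2 h0).degree x : ℂ) = 8 := by
  simpa using nb_sum g h2 h0 hi x fun _ => 1

end

def g6 : Fin 8 → Fin 6 → ZMod 2 :=
  ![![1, 1, 1, 1, 0, 0], ![1, 0, 0, 0, 0, 0], ![0, 1, 0, 0, 0, 0], ![0, 0, 1, 0, 0, 0],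
    ![0, 0, 0, 1, 0, 0], ![0, 0, 0, 0, 1, 0], ![0, 0, 0, 0, 0, 1], ![0, 0, 1, 1, 1, 1]]

def g8 (i : Fin 8) : Fin 8 → ZMod 2 := Pi.single i 1

lemma a6 : ∀ i, g6 i + g6 i = 0 := by decide
lemma b6 : ∀ i, g6 i ≠ 0 := by decide
lemma c6 : Function.Injective g6 := by decide
lemma a8 : ∀ i, g8 i + g8 i = 0 := by decide
lemma b8 : ∀ i, g8 i ≠ 0 := by decide
lemma c8 : Function.Injective g8 := by decide
lemma tri : ∀ i j k, g6 i + g6 j + g6 k ≠ 0 := by decide +kernel
lemma sidon : ∀ i j k l, i ≠ j → g6 k + g6 l = g6 i + g6 j → k = i ∨ k = j := by decide +kernel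

abbrev G6 := cay g6 a6 b6
abbrev G8 := cay g8 a8 b8

/-- holonomy along a word -/
noncomputable def hol (σ : (Fin 6 → ZMod 2) → (Fin 6 → ZMod 2) → ℂ) :
    (Fin 6 → ZMod 2) → List (Fin 8) → ℂ
  | _, [] => 1
  | x, i :: l => σ x (x + g6 i) * hol σ (x + g6 i) l

section
variable {σ : (Fin 6 → ZMod 2) → (Fin 6 → ZMod 2) → ℂ} (hσ : IsPot G6 σ)
include hσ

lemma n1 (x : Fin 6 → ZMod 2) (i : Fin 8) : ‖σ x (x + g6 i)‖ = 1 := (hσ x _ ⟨i, rfl⟩).1

lemma hol_norm (l : List (Fin 8)) (x : Fin 6 → ZMod 2) : ‖hol σ x l‖ = 1 := by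
  induction l generalizing x with
  | nil => simp [hol]
  | cons i l ih => rw [hol, norm_mul, n1 hσ, ih, one_mul]

omit hσ in
lemma hol_append (l m : List (Fin 8)) (x : Fin 6 → ZMod 2) :
    hol σ x (l ++ m) = hol σ x l * hol σ (x + (l.map g6).sum) m := by
  induction l generalizing x with
  | nil => simp [hol]
  | cons i l ih => simp only [List.cons_append, hol, ih, List.map_cons, List.sum_cons, add_assoc,
      mul_assoc]

variable {ε : ℝ} (hε : ∀ x i j, i ≠ j → ‖σ x (x + g6 i) * σ (x + g6 i) (x + g6 i + g6 j) +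
  σ x (x + g6 j) * σ (x + g6 j) (x + g6 i + g6 j)‖ ≤ ε)
include hε

lemma move1 (i : Fin 8) (l m : List (Fin 8)) (x : Fin 6 → ZMod 2) :
    ‖hol σ x (i :: (l ++ m)) - (-1) ^ (l.countP (· ≠ i)) * hol σ x (l ++ i :: m)‖ ≤ l.length * ε := by
  have h0 : 0 ≤ ε := (norm_nonneg _).trans (hε 0 0 1 (by decide))
  induction l generalizing x with
  | nil => simp
  | cons j l ih =>
    have h1 := ih (x + g6 j)
    rw [← one_mul ‖_‖, ← n1 hσ x j, ← norm_mul] at h1
    rw [List.length_cons, List.cons_append, List.cons_append]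
    push_cast
    by_cases h : j = i
    · subst h
      rw [List.countP_cons_of_neg (by simp)]
      refine le_trans (le_of_eq ?_) (h1.trans (by linarith))
      congr 1
      simp only [hol]
      ring
    · rw [List.countP_cons_of_pos (by simpa)]
      have h2 := hε x i j (Ne.symm h)
      rw [← mul_one ‖_‖, ← hol_norm hσ (l ++ m) (x + g6 i + g6 j), ← norm_mul] at h2
      refine le_trans (le_of_eq ?_) ((norm_sub_le _ _).trans ((add_le_add h2 h1).trans (by linarith)))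
      congr 1
      simp only [hol, add_right_comm x (g6 j)]
      ring

lemma move2 (p l : List (Fin 8)) (x : Fin 6 → ZMod 2) :
    ‖hol σ x (p ++ l) - (-1) ^ (p.map fun i => l.countP (· ≠ i)).sum * hol σ x (l ++ p)‖ ≤
      p.length * (l.length * ε) := by
  induction p generalizing x with
  | nil => simp
  | cons i p ih =>
    have h1 := ih (x + g6 i)
    rw [← one_mul ‖_‖, ← n1 hσ x i, ← norm_mul] at h1
    have h2 := move1 hσ hε i l p x
    have h3 : ‖(-1 : ℂ) ^ (p.map fun i => l.countP (· ≠ i)).sum‖ = 1 := by simp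
    rw [← one_mul ‖_‖, ← h3, ← norm_mul] at h2
    rw [List.length_cons, List.map_cons, List.sum_cons]
    push_cast
    refine le_trans (le_of_eq ?_) ((norm_add_le _ _).trans ((add_le_add h1 h2).trans (by linarith)))
    congr 1
    simp only [hol, List.cons_append]
    ring

lemma eps_ge : 2 ≤ 25 * ε := by
  have h := move2 hσ hε [0, 1, 2, 3, 4] [3, 4, 5, 6, 7] 0
  have e1 : (([0, 1, 2, 3, 4] : List (Fin 8)).map g6).sum = 0 := by decide
  have e2 : (([3, 4, 5, 6, 7] : List (Fin 8)).map g6).sum = 0 := by decide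
  have e3 : (([0, 1, 2, 3, 4] : List (Fin 8)).map fun i =>
    ([3, 4, 5, 6, 7] : List (Fin 8)).countP (· ≠ i)).sum = 23 := by decide
  rw [hol_append, hol_append, e1, e2, e3, add_zero, show ∀ a b : ℂ, a * b - (-1) ^ 23 * (b * a) =
    2 * (a * b) from fun a b => by ring, norm_mul, norm_mul, hol_norm hσ, hol_norm hσ] at h
  norm_num at h
  linarith

omit hε in
lemma lam_G6 : lam G6 σ ≤ 8 - √8 - 1 / 9000 := by
  obtain ⟨x, i, j, hij, h⟩ : ∃ x i j, i ≠ j ∧ 2 / 26 <
      ‖σ x (x + g6 i) * σ (x + g6 i) (x + g6 i + g6 j) +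
        σ x (x + g6 j) * σ (x + g6 j) (x + g6 i + g6 j)‖ := by
    by_contra! h
    have := eps_ge hσ h
    norm_num at this
  have hP := psd G6 hσ
  have hd : (diagonal fun v => (G6.degree v : ℂ)) - Am G6 σ - (lam G6 σ : ℂ) • 1 =
      ((8 - lam G6 σ : ℝ) : ℂ) • 1 - Am G6 σ := by
    simp only [deg g6 a6 b6 c6]
    rw [← smul_one_eq_diagonal, Complex.ofReal_sub, sub_smul]
    push_cast
    abel
  rw [hd] at hP
  have hm : ∀ (B : Matrix _ (Fin 6 → ZMod 2) ℂ) u v,
      (Am G6 σ * B) u v = ∑ k, σ u (u + g6 k) * B (u + g6 k) v := fun B u v => by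
    rw [mul_apply, Am_sum _ _ (fun y => B y v), nb_sum g6 a6 b6 c6 u fun y => σ u y * B y v]
  have hs : √8 ^ 2 = 8 := Real.sq_sqrt (by norm_num)
  have hs' : √8 < 2.9 := by rw [Real.sqrt_lt' (by norm_num)]; norm_num
  by_cases ht : 8 - lam G6 σ ≤ 3
  swap
  · linarith
  have n2 : ∀ u k l, ¬ G6.Adj u (u + g6 k + g6 l) := fun u k l ⟨m, hm⟩ => tri k l m (by
    rw [add_assoc, add_right_inj] at hm
    rw [← hm, a6])
  have key := test (Am_herm G6 hσ) hP (α := √8) (x := x) (z := x + g6 i + g6 j) ?_ (by simp [Am])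
    ?_ ?_ (by simp [Am, n2]) (by simp [Am]) ht
  · have e : (Am G6 σ * Am G6 σ) x (x + g6 i + g6 j) =
        σ x (x + g6 i) * σ (x + g6 i) (x + g6 i + g6 j) +
        σ x (x + g6 j) * σ (x + g6 j) (x + g6 i + g6 j) := by
      rw [hm, sum_eq_add i j hij (fun k _ hk => ?_) (by simp) (by simp)]
      · simp only [Am, of_apply]
        rw [if_pos ⟨j, rfl⟩, if_pos ⟨i, add_right_comm _ _ _⟩]
      · simp only [Am, of_apply]
        rw [if_neg, mul_zero]
        rintro ⟨l, hl⟩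
        rw [add_assoc, add_assoc, add_right_inj] at hl
        exact (sidon i j k l hij hl).elim hk.1 hk.2
    rw [e, hs] at key
    nlinarith
  · intro e
    rw [add_assoc, left_eq_add] at e
    exact hij (c6 (by rw [← add_zero (g6 i), ← a6 j, ← add_assoc, e, zero_add]))
  · rw [hm, ← Complex.ofReal_pow, hs, sum_congr rfl (g := fun _ => 1) fun k _ => ?_]
    · simp
    · have h1 := hσ x _ ⟨k, rfl⟩
      simp only [Am, of_apply]
      rw [if_pos (G6.adj_symm ⟨k, rfl⟩), h1.2, Complex.mul_conj, Complex.normSq_eq_norm_sq, h1.1]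
      simp
  · rw [hm]
    refine sum_eq_zero fun k _ => ?_
    rw [hm, sum_eq_zero fun l _ => ?_, mul_zero]
    simp only [Am, of_apply]
    rw [if_neg fun h => n2 x k l h.symm, mul_zero]

end

lemma nu_G6 : nu G6 < 8 - √8 := by
  refine lt_of_le_of_lt (csSup_le ⟨_, fun _ _ => 1, fun _ _ _ => by simp, rfl⟩ ?_)
    (by linarith : 8 - √8 - 1 / 9000 < _)
  rintro _ ⟨σ, hσ, rfl⟩
  exact lam_G6 hσ

/-- Huang's signing of the cube -/
def sg (x : Fin 8 → ZMod 2) (i : Fin 8) : ℤ := ∏ j, if j < i ∧ x j = 1 then -1 else 1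

lemma sg_sq (x : Fin 8 → ZMod 2) (i : Fin 8) : sg x i = 1 ∨ sg x i = -1 :=
  prod_induction _ (fun a => a = 1 ∨ a = -1) (by rintro a b (rfl | rfl) (rfl | rfl) <;> simp)
    (Or.inl rfl) fun j _ => by split_ifs <;> simp

lemma sg_add (x : Fin 8 → ZMod 2) (k i : Fin 8) :
    sg (x + g8 k) i = sg x i * if k < i then -1 else 1 := by
  have : (if k < i then -1 else 1 : ℤ) = ∏ j, if j = k then (if k < i then -1 else 1) else 1 := by
    simp
  rw [this, sg, sg, ← prod_mul_distrib]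
  refine prod_congr rfl fun j _ => ?_
  by_cases h : j = k
  · subst h
    have : ∀ a : ZMod 2, a = 0 ∨ a = 1 := by decide
    have e : (1 + 1 : ZMod 2) ≠ 1 := by decide
    by_cases h : j < i <;> rcases this (x j) with h' | h' <;> simp [g8, h, h', e]
  · simp [g8, h]

noncomputable def s8 (x y : Fin 8 → ZMod 2) : ℂ := ∑ i, if x + g8 i = y then (sg x i : ℂ) else 0

lemma s8_eq (x : Fin 8 → ZMod 2) (i : Fin 8) : s8 x (x + g8 i) = sg x i := by
  simp [s8, c8.eq_iff]

lemma s8_pot : IsPot G8 s8 := by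
  rintro x _ ⟨i, rfl⟩
  have := s8_eq (x + g8 i) i
  rw [add_assoc, a8, add_zero] at this
  rw [this, s8_eq, sg_add]
  rcases sg_sq x i with h | h <;> simp [h]

lemma nu_G8 : 8 - √8 ≤ nu G8 := by
  refine le_trans (le_csInf ⟨_, eig_mem G8 s8_pot 0⟩ ?_) (lam_le_nu G8 s8_pot)
  rintro μ ⟨f, hf, h⟩
  obtain ⟨x, hx⟩ := Function.ne_iff.1 hf
  have h1 : ∀ y, ∑ i, sg y i * f (y + g8 i) = (8 - μ) * f y := fun y => by
    have := h y
    rw [lap, nb_sum g8 a8 b8 c8 y fun z => f y - s8 y z * f z] at this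
    simp only [s8_eq, sum_sub_distrib, sum_const, card_univ, Fintype.card_fin] at this
    simp only [nsmul_eq_mul, Nat.cast_ofNat] at this
    linear_combination -this
  let T : Fin 8 → Fin 8 → ℂ := fun i j => sg x i * (sg (x + g8 i) j * f (x + g8 i + g8 j))
  have h2 : ∑ i, ∑ j, T i j = (8 - μ) ^ 2 * f x := by
    simp only [T, ← mul_sum, h1]
    rw [sq, mul_assoc, ← h1 x, mul_sum]
    exact sum_congr rfl fun i _ => by ring
  have h3 : ∀ i j, T i j + T j i = if i = j then 2 * f x else 0 := fun i j => by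
    simp only [T, sg_add, add_right_comm x (g8 j)]
    rcases lt_trichotomy i j with h | rfl | h
    · simp [h, h.ne, h.not_gt]; ring
    · rw [add_assoc x, a8, add_zero]
      rcases sg_sq x i with h | h <;> simp [h] <;> ring
    · simp [h, h.ne', h.not_gt]; ring
  have h4 : ∑ i, ∑ j, (T i j + T j i) = 16 * f x := by
    simp [h3]; ring
  simp only [sum_add_distrib] at h4
  rw [sum_comm (f := fun i j => T j i), h2] at h4
  have h5 : ((8 - μ) ^ 2 : ℂ) = 8 := mul_right_cancel₀ hx (by linear_combination h4 / 2)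
  have h6 : (8 - μ) ^ 2 = 8 := by exact_mod_cast h5
  linarith [Real.le_sqrt_of_sq_le h6.le]

def pr (x : Fin 8 → ZMod 2) : Fin 6 → ZMod 2 := ∑ i, x i • g6 i

lemma pr_add (x : Fin 8 → ZMod 2) (i : Fin 8) : pr (x + g8 i) = pr x + g6 i := by
  simp [pr, g8, add_smul, sum_add_distrib, Pi.single_apply]

lemma pr_surj : Function.Surjective pr := fun y =>
  ⟨![0, y 0, y 1, y 2, y 3, y 4, y 5, 0], by revert y; decide +kernel⟩

end Pool.Agent.H27.Mag
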