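import Pool.Agent.H27.MedCert

set_option autoImplicit false

namespace Pool.Agent.H27.Med

def c3 : Cert := ⟨3, -1773, 100000000000000, 49999999999999, 23856457302996, 201628080421, 5282142451024,
  [(4073728710486, [-3, 0, 1]),
   (352940214585, [7, -1, -6, 0, 1]),
   (652750740803, [-5, -1, 1]),
   (1151165769275, [2, 1]),
   (233520790494, [-1, -2, 1, 1]),
   (392609876244, [-1, 1]),
   (155078567930, [6, -4, -2, 1]),
   (94662965155, [-3, 2, 2])]⟩

theorem g3 : Good 3 := c3.good (by decide +kernel) (by decide +kernel)

end Pool.Agent.H27.Med
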