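import Pool.Agent.H27.MedIrr

set_option autoImplicit false

namespace Pool.Agent.H27.Med

open Polynomial

lemma newton4 {R : Multiset ℝ} (hR : R.card = 4) {a1 a2 a3 a4 : ℝ}
    (h : ∀ x, (R.map fun r => x - r).prod = a4 + x * (a3 + x * (a2 + x * (a1 + x)))) :
    R.sum = -a1 ∧ (R.map fun r => r ^ 2).sum = a1 ^ 2 - 2 * a2 ∧
      (R.map fun r => r ^ 4).sum = a1 ^ 4 - 4 * a1 ^ 2 * a2 + 4 * a1 * a3 + 2 * a2 ^ 2 - 4 * a4 := by
  obtain ⟨a, b, c, e, rfl⟩ := Multiset.card_eq_four.1 hR
  have h0 := h 0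
  have h1 := h 1
  have h2 := h (-1)
  have h3 := h 2
  simp only [Multiset.insert_eq_cons, Multiset.map_cons, Multiset.prod_cons, Multiset.map_singleton,
    Multiset.prod_singleton, Multiset.sum_cons, Multiset.sum_singleton] at *
  have e4 : a4 = a * b * c * e := by linear_combination -h0
  have e2 : a2 = a * b + a * c + a * e + b * c + b * e + c * e := by
    linear_combination h0 - h1 / 2 - h2 / 2
  have e1 : a1 = -(a + b + c + e) := by
    linear_combination -h3 / 6 + h1 / 2 + h2 / 6 - h0 / 2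
  have e3 : a3 = -(a * b * c + a * b * e + a * c * e + b * c * e) := by
    linear_combination -h1 + h0 - e2 - e1
  subst e1 e2 e3 e4
  refine ⟨by ring, by ring, by ring⟩

def ev1 (q : List ℤ) (u : ℤ) : ℤ := (shift 1 u 1024 4 q).headD 0

lemma ev1_eq {q : List ℤ} (hq : q.length ≤ 5) (u : ℤ) :
    (ev1 q u : ℝ) = 1024 ^ 4 * evR q ((u : ℝ) / 1024) := by
  have := ev_shift (t := 0) (x := (u : ℝ) / 1024) (d := 1) (m := u) (w := 1024)
    (by push_cast; ring) q 4 hq
  rw [ev1]
  generalize shift 1 u 1024 4 q = s at *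
  push_cast at this
  rw [← this]
  cases s <;> simp [evR]

def cnt (q : List ℤ) : ℤ → List ℤ → ℕ
  | _, [] => 0
  | t, u :: us => if t < u ∧ ev1 q t * ev1 q u < 0 then cnt q u us + 1 else cnt q t us

lemma cnt_le {q : List ℤ} (hq : q.length ≤ 5) {R : Multiset ℝ}
    (h : ∀ x, evR q x = (R.map fun r => x - r).prod) :
    ∀ (us : List ℤ) (t : ℤ), cnt q t us ≤ (R.filter fun x => (t : ℝ) / 1024 < x).card
  | [], _ => by simp [cnt]
  | u :: us, t => by
    rw [cnt]
    split_ifs with H
    · have h0 : (t : ℝ) < u := by exact_mod_cast H.1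
      have h1 : (t : ℝ) / 1024 < u / 1024 := by linarith
      have h2 : evR q ((t : ℝ) / 1024) * evR q ((u : ℝ) / 1024) < 0 := by
        have : (ev1 q t : ℝ) * ev1 q u < 0 := by exact_mod_cast H.2
        rw [ev1_eq hq, ev1_eq hq] at this
        linarith
      have ih := cnt_le hq h us u
      generalize (t : ℝ) / 1024 = t at *
      generalize (u : ℝ) / 1024 = u at *
      rw [h, h, ← Multiset.prod_map_mul] at h2
      obtain ⟨r, hr, h3⟩ : ∃ r ∈ R, (t - r) * (u - r) < 0 := by
        by_contra h3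
        push Not at h3
        refine h2.not_ge (Multiset.prod_nonneg fun y hy => ?_)
        obtain ⟨r, hr, rfl⟩ := Multiset.mem_map.1 hy
        exact h3 r hr
      have h4 : t < r := by nlinarith
      have h5 : r < u := by nlinarith
      refine (Nat.succ_le_succ ih).trans (Multiset.card_lt_card (lt_of_le_of_ne
        (Multiset.monotone_filter_right _ fun x hx => h1.trans hx) fun h6 => ?_))
      have : r ∈ R.filter fun x => t < x := Multiset.mem_filter.2 ⟨hr, h4⟩
      rw [← h6, Multiset.mem_filter] at this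
      linarith [this.2]
    · exact cnt_le hq h us t

lemma ev_pad (x : ℝ) (q : List ℤ) : ∀ k : ℕ, evR (List.replicate k 0 ++ q) x = x ^ k * evR q x
  | 0 => by simp
  | k + 1 => by
    simp only [List.replicate_succ, List.cons_append, evR, ev_pad x q k]
    simp; ring

structure Cert where
  D : ℕ
  t : ℤ
  W : ℕ
  K : ℤ
  kap : ℤ
  al : ℕ
  be : ℕ
  cqs : List (ℕ × List ℤ)

def Cert.p0 (C : Cert) : ℤ := C.K - C.al * C.D * (C.D + 1) ^ 2 - C.be * (C.D + 1)
def Cert.p2 (C : Cert) : ℤ := C.al * ((C.D + 1) ^ 2 + C.D) + C.be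

def Cert.low (C : Cert) (q : List ℤ) : ℕ :=
  if q = [-(C.D : ℤ), 0, 1] ∨ (q = [q.headD 0, 1] ∧ q.headD 0 ^ 2 = C.D) then 0
  else q.length - 1 - cnt q C.t ((List.range 200).map fun i : ℕ => C.t + 128 * (i : ℤ))

def Cert.cls (C : Cert) (q : List ℤ) : List ℤ → Bool
  | [a4, a3, a2, a1, a0] => decide (a0 = 1 ∧ (C.W * C.low q : ℤ) ≤
      (q.length - 1 : ℕ) * C.p0 + C.kap * a1 + C.p2 * (a1 ^ 2 - 2 * a2) -
      C.al * (a1 ^ 4 - 4 * a1 ^ 2 * a2 + 4 * a1 * a3 + 2 * a2 ^ 2 - 4 * a4))
  | _ => false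

def Cert.qok (C : Cert) (q : List ℤ) : Bool :=
  decide (q.getD (q.length - 1) 0 ≠ 0) && decide (q.length ≤ 5) &&
    (if q.getD (q.length - 1) 0 = 1 then
      noFacs q (q.length - 2) && C.cls q (List.replicate (5 - q.length) 0 ++ q)
    else noFacs q (q.length - 1))

def Cert.ok1 (C : Cert) : Bool :=
  decide (2 * C.K < C.W ∧ C.t ^ 2 ≤ C.D * 1024 ^ 2 ∧ 0 < C.W) && C.cqs.all fun cq => C.qok cq.2

def Cert.ok2 (C : Cert) : Bool :=
  chk C.D [C.p0, -C.kap, C.p2, 0, -C.al] [C.p0 - C.W, -C.kap, C.p2, 0, -C.al] C.cqs 40 0 0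

noncomputable def Cert.Φ (C : Cert) (x : ℝ) : ℝ :=
  C.p0 - C.kap * x + C.p2 * x ^ 2 - C.al * x ^ 4 - C.W * if x < -√(C.D : ℝ) then 1 else 0

lemma sum_Φ (C : Cert) (R : Multiset ℝ) : (R.map C.Φ).sum = R.card * C.p0 - C.kap * R.sum +
    C.p2 * (R.map fun r => r ^ 2).sum - C.al * (R.map fun r => r ^ 4).sum -
      C.W * (R.filter fun x => x < -√(C.D : ℝ)).card := by
  induction R using Multiset.induction_on with
  | empty => simp
  | cons a R ih =>
    simp only [Multiset.map_cons, Multiset.sum_cons, ih, Multiset.filter_cons, Multiset.card_cons]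
    rw [Cert.Φ]
    split_ifs <;> simp <;> ring

lemma t_ge {C : Cert} (ht : C.t ^ 2 ≤ C.D * 1024 ^ 2) : -√(C.D : ℝ) ≤ C.t / 1024 := by
  have : (C.t : ℝ) ^ 2 ≤ C.D * 1024 ^ 2 := by exact_mod_cast ht
  exact (Real.abs_le_sqrt (show ((C.t : ℝ) / 1024) ^ 2 ≤ C.D by linarith) |> abs_le.1).1

lemma low_spec {C : Cert} (ht : C.t ^ 2 ≤ C.D * 1024 ^ 2) {q : List ℤ} (hq : q.length ≤ 5) {R : Multiset ℝ}
    (h : ∀ x, evR q x = (R.map fun r => x - r).prod) (hc : R.card = q.length - 1) :
    (R.filter fun x => x < -√(C.D : ℝ)).card ≤ C.low q := by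
  unfold Cert.low
  split_ifs with H
  · rw [Nat.le_zero, Multiset.card_eq_zero, Multiset.filter_eq_nil]
    intro r hr
    have h1 : evR q r = 0 := by
      rw [h]; exact Multiset.prod_eq_zero (Multiset.mem_map.2 ⟨r, hr, sub_self r⟩)
    have h2 : r ^ 2 = C.D := by
      rcases H with rfl | ⟨h2, h3⟩
      · simp [evR] at h1; linarith
      · rw [h2] at h1
        have h4 : ((q.headD 0 : ℤ) : ℝ) ^ 2 = C.D := by exact_mod_cast h3
        simp only [evR] at h1
        push_cast at h1
        rw [← h4, show r = -((q.headD 0 : ℤ) : ℝ) by linarith]; ring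
    exact not_lt.2 (Real.abs_le_sqrt h2.le |> abs_le.1).1
  · have h1 := cnt_le hq h ((List.range 200).map fun i : ℕ => C.t + 128 * (i : ℤ)) C.t
    have h2 := congrArg Multiset.card (Multiset.filter_add_not (fun x => (C.t : ℝ) / 1024 < x) R)
    have h3 : (R.filter fun x => x < -√(C.D : ℝ)).card ≤ 
        (R.filter fun x => ¬(C.t : ℝ) / 1024 < x).card :=
      Multiset.card_le_card (Multiset.monotone_filter_right _ fun x hx => by
        have := t_ge ht
        linarith [not_lt.2 (hx.le.trans this)] )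
    rw [Multiset.card_add] at h2
    omega

lemma qok_spec {C : Cert} (ht : C.t ^ 2 ≤ C.D * 1024 ^ 2) {q : List ℤ} (H : C.qok q = true) {g : ℤ[X]}
    (hg : TR g) (hi : Irreducible g) (hd : g ∣ toP q) : 0 ≤ ((rts g).map C.Φ).sum := by
  simp only [Cert.qok, Bool.and_eq_true, decide_eq_true_eq] at H
  obtain ⟨⟨h0, h3⟩, H⟩ := H
  have hc : (toP q).coeff (q.length - 1) = q.getD (q.length - 1) 0 := by
    rw [toP, coeff_evR]; rfl
  have hne : toP q ≠ 0 := fun h => h0 (by rw [← hc, h, coeff_zero])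
  have hdeg : (toP q).natDegree < q.length :=
    (natDegree_lt_iff_degree_lt hne).2 (degree_evR q)
  have hle := natDegree_le_of_dvd hd hne
  split_ifs at H with h1
  swap
  · have := noFacs_spec H hg.1 hi hd
    omega
  simp only [Bool.and_eq_true, decide_eq_true_eq] at H
  obtain ⟨h2, h4⟩ := H
  have h5 := noFacs_spec h2 hg.1 hi hd
  have hm : (toP q).Monic := monic_of_natDegree_le_of_coeff_eq_one (q.length - 1) (by omega)
    (hc.trans h1)
  have h6 : toP q = g := eq_of_monic_of_dvd_of_natDegree_le hg.1 hm hd (by omega)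
  have h7 : ∀ x, evR q x = ((rts g).map fun r => x - r).prod := fun x => by
    rw [← aeval_toP, h6, aeval_eq_prod hg]
  have h8 : (rts g).card = q.length - 1 := by rw [card_rts hg]; rw [h6] at hdeg; omega
  have h9 := low_spec ht h3 h7 h8
  have h10 := fun x => ev_pad x q (5 - q.length)
  generalize List.replicate (5 - q.length) 0 ++ q = q' at h4 h10
  match q', h4 with
  | [a4, a3, a2, a1, a0], h4 =>
    simp only [Cert.cls, decide_eq_true_eq] at h4
    obtain ⟨rfl, h4⟩ := h4
    obtain ⟨n1, n2, n4⟩ := newton4 (R := rts g + Multiset.replicate (5 - q.length) 0)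
      (a1 := a1) (a2 := a2) (a3 := a3) (a4 := a4) (by simp; omega) fun x => by
        have := h10 x
        simp only [evR] at this
        rw [Multiset.map_add, Multiset.prod_add, ← h7, mul_comm]
        simp only [Multiset.map_replicate, sub_zero, Multiset.prod_replicate, ← this]
        push_cast; ring
    simp only [Multiset.map_add, Multiset.sum_add, Multiset.map_replicate, Multiset.sum_replicate,
      smul_zero, add_zero, ne_eq, OfNat.ofNat_ne_zero, not_false_eq_true, zero_pow] at n1 n2 n4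
    rw [sum_Φ, n1, n2, n4, h8]
    have h11 : ((C.W * C.low q : ℤ) : ℝ) ≤ _ := Int.cast_le.2 h4
    have h12 : (((rts g).filter fun x => x < -√(C.D : ℝ)).card : ℝ) ≤ C.low q := by
      exact_mod_cast h9
    have h13 := mul_le_mul_of_nonneg_left h12 (Nat.cast_nonneg C.W)
    push_cast at h11
    linarith

lemma sum_swap (R : Multiset ℝ) (F : ℕ × List ℤ → ℝ → ℝ) : ∀ l : List (ℕ × List ℤ),
    (∀ cq ∈ l, 0 ≤ (R.map (F cq)).sum) → 0 ≤ (R.map fun x => (l.map fun cq => F cq x).sum).sum
  | [], _ => by simp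
  | cq :: l, H => by
    simp only [List.map_cons, List.sum_cons, Multiset.sum_map_add]
    exact add_nonneg (H cq (by simp)) (sum_swap R F l fun c hc => H c (by simp [hc]))

theorem Cert.good (C : Cert) (h1 : C.ok1 = true) (h2 : C.ok2 = true) : Good C.D := by
  simp only [Cert.ok1, Bool.and_eq_true, decide_eq_true_eq, List.all_eq_true] at h1
  obtain ⟨⟨hK, ht, hW⟩, hq⟩ := h1
  intro f hf hM
  have key := sum_nonneg C.Φ {x | |x| ≤ (C.D : ℝ) + 1} (by
    intro g hg hi hS
    by_cases hd : ∃ cq ∈ C.cqs, g ∣ toP cq.2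
    · obtain ⟨cq, hc, hd⟩ := hd
      exact qok_spec ht (hq cq hc) hg hi hd
    push Not at hd
    have hne : ∀ cq ∈ C.cqs, ∀ x ∈ rts g, aeval x (toP cq.2) ≠ 0 := fun cq hc x hx h0 =>
      hd cq hc (dvd_of_root hg.1 hi hx h0)
    refine le_trans (sum_swap (rts g) (fun cq x => cq.1 * Real.log (evR cq.2 x)) C.cqs ?_)
      (Multiset.sum_map_le_sum_map _ _ fun x hx => ?_)
    · intro cq hc
      rw [Multiset.sum_map_mul_left]
      refine mul_nonneg (Nat.cast_nonneg _) ?_
      simpa only [aeval_toP] using log_nonneg hg (toP cq.2)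
    have H : ∀ cq ∈ C.cqs, cq.2.length ≤ 5 ∧ evR cq.2 x ≠ 0 := by
      intro cq hc
      have := hq cq hc
      simp only [Cert.qok, Bool.and_eq_true, decide_eq_true_eq] at this
      exact ⟨this.1.2, by simpa only [aeval_toP] using hne cq hc x hx⟩
    have hx' : |x| ≤ (C.D : ℝ) + 1 := hS x hx
    have hD : (0 : ℝ) < C.D + 1 := by positivity
    have hW' : (0 : ℝ) ≤ C.W := by positivity
    rcases chk_sound (by simp) (by simp) _ H _ _ _ h2 (by
      simpa [abs_div, abs_of_pos hD, div_le_one hD] using hx') with h | ⟨h, h'⟩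
    · refine h.trans ?_
      simp only [evR, Cert.Φ]
      push_cast
      split_ifs <;> linarith
    · refine h'.trans ?_
      simp only [evR, Cert.Φ]
      rw [if_neg (not_lt.2 h)]
      push_cast
      linarith) _ f rfl hf hM.bd
  have m2 := hM.m2
  have m4 := hM.m4
  have e2 : ((rts f).map fun x : ℝ => x ^ 2 - C.D - 1).sum =
      ((rts f).map fun r => r ^ 2).sum - (rts f).card * ((C.D : ℝ) + 1) := by
    simp [Multiset.sum_map_sub]; ring
  have e4 : ((rts f).map fun x : ℝ => (x ^ 2 - C.D) * (((C.D : ℝ) + 1) ^ 2 - x ^ 2)).sum =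
      ((C.D + 1) ^ 2 + C.D) * ((rts f).map fun r => r ^ 2).sum - ((rts f).map fun r => r ^ 4).sum -
        (rts f).card * (C.D * ((C.D : ℝ) + 1) ^ 2) := by
    induction rts f using Multiset.induction_on with
    | empty => simp
    | cons a R ih => simp only [Multiset.map_cons, Multiset.sum_cons, ih, Multiset.card_cons]; push_cast; ring
  rw [sum_Φ, hM.m1, Cert.p0, Cert.p2] at key
  have ha' : (0 : ℝ) ≤ C.al := by positivity
  have hb' : (0 : ℝ) ≤ C.be := by positivity
  have hK' : 2 * (C.K : ℝ) < C.W := by exact_mod_cast hK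
  have hW' : (0 : ℝ) < C.W := by exact_mod_cast hW
  have hn : (0 : ℝ) < (rts f).card := by exact_mod_cast hM.pos
  rw [e2] at m2
  rw [e4] at m4
  have k1 := mul_nonpos_of_nonneg_of_nonpos ha' m4
  have k2 := mul_nonpos_of_nonneg_of_nonpos hb' m2
  have k3 := mul_lt_mul_of_pos_left hK' hn
  push_cast at key k3
  have : (2 * ((rts f).filter fun x => x < -√(C.D : ℝ)).card : ℝ) < (rts f).card :=
    lt_of_mul_lt_mul_left (a := (C.W : ℝ)) (by linarith) hW'.le
  exact_mod_cast this

end Pool.Agent.H27.Med
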