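import Pool.Agent.H27.MedCore

set_option autoImplicit false

namespace Pool.Agent.H27.Med

open Polynomial

/-! ### list polynomials over `ℤ` -/

def evR {R : Type} [CommRing R] : List ℤ → R → R
  | [], _ => 0
  | a :: l, x => a + x * evR l x

def addL : List ℤ → List ℤ → List ℤ
  | [], r => r
  | a :: l, [] => a :: l
  | a :: l, b :: r => (a + b) :: addL l r

def smulL (c : ℤ) : List ℤ → List ℤ
  | [] => []
  | a :: l => (c * a) :: smulL c l

def mulL : List ℤ → List ℤ → List ℤ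
  | [], _ => []
  | a :: l, r => addL (smulL a r) (0 :: mulL l r)

/-- `w ^ k * l (d * (m + t) / w)` as a polynomial in `t`, for `l` of length at most `k + 1` -/
def shift (d m w : ℤ) : ℕ → List ℤ → List ℤ
  | _, [] => []
  | k, a :: l => (fun s => addL ((a * w ^ k) :: s) (smulL m s)) (smulL d (shift d m w (k - 1) l))

def absB : List ℤ → ℕ
  | [] => 0
  | a :: l => a.natAbs + absB l

lemma ev_addL (x : ℝ) : ∀ l r : List ℤ, evR (addL l r) x = evR l x + evR r x
  | [], r => by simp [addL, evR]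
  | a :: l, [] => by simp [addL, evR]
  | a :: l, b :: r => by simp only [addL, evR, ev_addL x l r]; push_cast; ring

lemma ev_smulL (x : ℝ) (c : ℤ) : ∀ l : List ℤ, evR (smulL c l) x = c * evR l x
  | [] => by simp [smulL, evR]
  | a :: l => by simp only [smulL, evR, ev_smulL x c l]; push_cast; ring

lemma ev_mulL (x : ℝ) : ∀ l r : List ℤ, evR (mulL l r) x = evR l x * evR r x
  | [], r => by simp [mulL, evR]
  | a :: l, r => by
    simp only [mulL, evR, ev_addL, ev_smulL, ev_mulL x l r]; push_cast; ring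

lemma ev_shift {t x : ℝ} {d m w : ℤ} (h : w * x = d * (m + t)) : ∀ (l : List ℤ) (k : ℕ),
    l.length ≤ k + 1 → evR (shift d m w k l) t = w ^ k * evR l x
  | [], _, _ => by simp [shift, evR]
  | [a], k, _ => by simp [shift, evR, addL, smulL, mul_comm]
  | a :: b :: l, 0, H => by simp at H
  | a :: b :: l, k + 1, H => by
    have := ev_shift h (b :: l) k (by simpa using H)
    rw [shift]
    simp only [ev_addL, ev_smulL, evR, Nat.add_sub_cancel] at this ⊢
    rw [this]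
    push_cast
    linear_combination (-(w : ℝ) ^ k * (b + x * evR l x)) * h

lemma abs_ev_le {t : ℝ} (ht : |t| ≤ 1) : ∀ l : List ℤ, |evR l t| ≤ absB l
  | [] => by simp [evR, absB]
  | a :: l => by
    have := abs_ev_le ht l
    simp only [evR, absB]
    push_cast
    refine (abs_add_le _ _).trans (add_le_add (by simp) ?_)
    rw [abs_mul]
    exact (mul_le_of_le_one_left (abs_nonneg _) ht).trans this

def lowOK : List ℤ → Bool
  | [] => true
  | a :: l => decide ((absB l : ℤ) ≤ a)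

lemma lowOK_spec {t : ℝ} (ht : |t| ≤ 1) : ∀ l : List ℤ, lowOK l = true → 0 ≤ evR l t
  | [], _ => by simp [evR]
  | a :: l, h => by
    have h1 := abs_ev_le ht l
    have h2 : |t * evR l t| ≤ absB l := by
      rw [abs_mul]
      exact (mul_le_of_le_one_left (abs_nonneg _) ht).trans h1
    have h3 : ((absB l : ℤ) : ℝ) ≤ a := by exact_mod_cast of_decide_eq_true h
    simp only [evR]
    push_cast at h3
    linarith [(abs_le.1 h2).1]

/-! ### tangent lines of the logarithm -/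

def lnB (k : ℤ) : ℤ := k * if 0 ≤ k then 2977044473 else 2977044470

lemma lnB_ge (k : ℤ) : 2 ^ 32 * (k * Real.log 2) ≤ lnB k := by
  have h1 := Real.log_two_lt_d9
  have h2 := Real.log_two_gt_d9
  unfold lnB
  split_ifs with h
  · have : (0 : ℝ) ≤ k := by exact_mod_cast h
    push_cast
    nlinarith
  · have : (k : ℝ) ≤ 0 := by exact_mod_cast (not_le.1 h).le
    push_cast
    nlinarith

def lgF (n : ℕ) : ℕ → ℕ → ℕ
  | 0, a => a
  | j + 1, a => lgF n j (bif Nat.ble (2 ^ (a + 2 ^ j)) n then a + 2 ^ j else a)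

lemma lgF_le (n : ℕ) : ∀ j a : ℕ, 2 ^ a ≤ n → 2 ^ lgF n j a ≤ n
  | 0, _, h => h
  | j + 1, a, h => by
    refine lgF_le n j _ ?_
    cases h1 : Nat.ble (2 ^ (a + 2 ^ j)) n
    · exact h
    · exact Nat.le_of_ble_eq_true h1

def term3 (e c : ℕ) (s2 : List ℤ) (n sh : ℕ) : List ℤ :=
  addL [c * (2 ^ 42 - lnB (131072 - (1024 * sh + lgF ((n + 1) ^ 1024) 14 0 : ℕ))) * (2 ^ (8 * e + 86) : ℕ)]
    (smulL (-(c * ((n + 1) * 2 ^ sh) : ℕ)) s2)

def term2 (e c : ℕ) (s2 : List ℤ) (y : ℕ) : List ℤ :=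
  (fun k => term3 e c s2 (2 ^ (12 + k) / y) (8 * e + 116 - k)) (lgF y 10 0)

def term1 (e c : ℕ) (s : List ℤ) : List ℤ :=
  term2 e c (mulL s s) ((s.headD 0).natAbs ^ 2 + (s.tail.headD 0).natAbs ^ 2 / 2 + 1)

lemma log_aux (a z : ℝ) (ha : 0 < a) (hz : z ≠ 0) (i j : ℕ) :
    Real.log a + i * Real.log 2 + 2 * Real.log z - j * Real.log 2 ≤
      a * 2 ^ i * z ^ 2 / 2 ^ j - 1 := by
  have h4 := Real.log_le_sub_one_of_pos
    (show (0 : ℝ) < a * 2 ^ i * z ^ 2 / 2 ^ j by positivity)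
  rwa [Real.log_div (by positivity) (by positivity), Real.log_mul (by positivity) (by positivity),
    Real.log_mul (by positivity) (by positivity), Real.log_pow, Real.log_pow, Real.log_pow] at h4

lemma term3_le (e c n sh : ℕ) (s : List ℤ) {t z : ℝ} (hz : z ≠ 0)
    (h : evR s t = (2 ^ e) ^ 4 * z) :
    evR (term3 e c (mulL s s) n sh) t ≤ -(2 ^ (8 * e + 129) * (c * Real.log z)) := by
  have h1 : (2 : ℝ) ^ (lgF ((n + 1) ^ 1024) 14 0) ≤ ((n + 1 : ℕ) : ℝ) ^ 1024 := by
    exact_mod_cast lgF_le ((n + 1) ^ 1024) 14 0 (Nat.one_le_pow _ _ n.succ_pos)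
  have h2 := Real.log_le_log (by positivity) h1
  rw [Real.log_pow, Real.log_pow] at h2
  have h3 := lnB_ge (131072 - (1024 * sh + lgF ((n + 1) ^ 1024) 14 0 : ℕ))
  have h4 := log_aux ((n : ℝ) + 1) z (Nat.cast_add_one_pos n) hz sh 128
  simp only [term3, ev_addL, ev_smulL, ev_mulL, evR, h]
  generalize lnB _ = L at *
  generalize lgF ((n + 1) ^ 1024) 14 0 = k at *
  push_cast at *
  have h5 : 2 ^ 43 * Real.log z ≤ L - 2 ^ 42 + (n + 1) * 2 ^ sh * z ^ 2 / 2 ^ 86 := by linarith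
  have h6 := mul_le_mul_of_nonneg_left h5 (show (0 : ℝ) ≤ c * 2 ^ (8 * e + 86) by positivity)
  have h7 : (c : ℝ) * 2 ^ (8 * e + 86) * ((n + 1) * 2 ^ sh * z ^ 2 / 2 ^ 86) =
      c * ((n + 1) * 2 ^ sh) * ((2 ^ e) ^ 4 * z * ((2 ^ e) ^ 4 * z)) := by ring
  have h8 : (2 : ℝ) ^ (8 * e + 129) = 2 ^ (8 * e + 86) * 2 ^ 43 := by ring
  rw [mul_add, h7] at h6
  rw [h8]
  linarith

def gp (d m : ℤ) (e : ℕ) (p : List ℤ) : List (ℕ × List ℤ) → List ℤ
  | [] => smulL (2 ^ (4 * e + 129) : ℕ) (shift d m (2 ^ e : ℕ) 4 p)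
  | cq :: l => addL (term1 e cq.1 (shift d m (2 ^ e : ℕ) 4 cq.2)) (gp d m e p l)

lemma gp_le {d m : ℤ} {e : ℕ} {p : List ℤ} (hp : p.length ≤ 5) {t x : ℝ}
    (h : ((2 ^ e : ℕ) : ℤ) * x = d * (m + t)) : ∀ l : List (ℕ × List ℤ),
    (∀ cq ∈ l, cq.2.length ≤ 5 ∧ evR cq.2 x ≠ 0) → evR (gp d m e p l) t ≤
      2 ^ (8 * e + 129) * (evR p x - (l.map fun cq => cq.1 * Real.log (evR cq.2 x)).sum)
  | [], _ => by
    simp only [gp, ev_smulL, ev_shift h p 4 hp]
    push_cast
    apply le_of_eq; simp; ring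
  | cq :: l, H => by
    have h1 := gp_le hp h l fun c hc => H c (by simp [hc])
    have h2 := H cq (by simp)
    have h3 : evR (term1 e cq.1 (shift d m (2 ^ e : ℕ) 4 cq.2)) t ≤ _ :=
      term3_le e cq.1 _ _ _ h2.2 (by rw [ev_shift h _ 4 h2.1]; push_cast; rfl)
    simp only [gp, ev_addL, List.map_cons, List.sum_cons]
    linarith

/-- the left end `(D + 1) (m - 1) / 2 ^ e` of the interval is at least `-√D` -/
def rgt (D : ℕ) (m : ℤ) (e : ℕ) : Bool :=
  decide (1 ≤ m) || decide (((D + 1) * (m - 1).natAbs) ^ 2 ≤ D * 4 ^ e)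

def chk (D : ℕ) (p p' : List ℤ) (l : List (ℕ × List ℤ)) : ℕ → ℤ → ℕ → Bool
  | 0, _, _ => false
  | f + 1, m, e => lowOK (gp (D + 1 : ℕ) m e (bif rgt D m e then p else p') l) ||
      (chk D p p' l f (2 * m - 1) (e + 1) && chk D p p' l f (2 * m + 1) (e + 1))

lemma chk_sound {D : ℕ} {p p' : List ℤ} (hp : p.length ≤ 5) (hp' : p'.length ≤ 5)
    (l : List (ℕ × List ℤ)) {x : ℝ} (H : ∀ cq ∈ l, cq.2.length ≤ 5 ∧ evR cq.2 x ≠ 0) :
    ∀ (f : ℕ) (m : ℤ) (e : ℕ), chk D p p' l f m e = true → |2 ^ e * x / (D + 1) - m| ≤ 1 →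
      (l.map fun cq => cq.1 * Real.log (evR cq.2 x)).sum ≤ evR p' x ∨
      (-√(D : ℝ) ≤ x ∧ (l.map fun cq => cq.1 * Real.log (evR cq.2 x)).sum ≤ evR p x)
  | 0, _, _, hc, _ => by simp [chk] at hc
  | f + 1, m, e, hc, hx => by
    simp only [chk, Bool.or_eq_true, Bool.and_eq_true] at hc
    have hD : (0 : ℝ) < D + 1 := by positivity
    rcases hc with hc | ⟨h1, h2⟩
    · have h0 : ((2 ^ e : ℕ) : ℤ) * x = ((D + 1 : ℕ) : ℤ) * (m + (2 ^ e * x / (D + 1) - m)) := by
        push_cast; field_simp; ring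
      have h4 := lowOK_spec hx _ hc
      have h5 : (0 : ℝ) < 2 ^ (8 * e + 129) := by positivity
      cases hr : rgt D m e
      · rw [hr, cond_false] at h4
        exact Or.inl (sub_nonneg.1 (nonneg_of_mul_nonneg_right (h4.trans (gp_le hp' h0 l H)) h5))
      · rw [hr, cond_true] at h4
        refine Or.inr
          ⟨?_, sub_nonneg.1 (nonneg_of_mul_nonneg_right (h4.trans (gp_le hp h0 l H)) h5)⟩
        have h6 : ((m : ℝ) - 1) * (D + 1) ≤ 2 ^ e * x := by
          rw [← le_div_iff₀ hD]; linarith [(abs_le.1 hx).1]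
        have h7 : (0 : ℝ) < 2 ^ e := by positivity
        have h8 := Real.sqrt_nonneg (D : ℝ)
        simp only [rgt, Bool.or_eq_true, decide_eq_true_eq] at hr
        rcases hr with hr | hr
        · have : (1 : ℝ) ≤ m := by exact_mod_cast hr
          nlinarith
        · have h9 : ((((D + 1) * (m - 1).natAbs) ^ 2 : ℕ) : ℝ) ≤ (D * 4 ^ e : ℕ) := Nat.cast_le.2 hr
          push_cast at h9
          rw [Nat.cast_natAbs, mul_pow, Int.cast_abs, sq_abs, ← mul_pow,
            show (D : ℝ) * 4 ^ e = (√D * 2 ^ e) ^ 2 by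
              rw [mul_pow, Real.sq_sqrt (by positivity), ← pow_mul, mul_comm e, pow_mul]; norm_num]
            at h9
          have := (abs_le_of_sq_le_sq' h9 (by positivity)).1
          push_cast at this
          nlinarith
    · rw [abs_le] at hx
      have h3 : (2 : ℝ) ^ (e + 1) * x / (D + 1) = 2 * (2 ^ e * x / (D + 1)) := by ring
      rcases le_total (2 ^ e * x / (D + 1)) m with h4 | h4
      · exact chk_sound hp hp' l H f _ _ h1
          (by rw [h3, abs_le]; push_cast; constructor <;> linarith)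
      · exact chk_sound hp hp' l H f _ _ h2
          (by rw [h3, abs_le]; push_cast; constructor <;> linarith)

end Pool.Agent.H27.Med
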