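import Mathlib

set_option autoImplicit false

namespace Pool.Agent.H27.Med

open Polynomial

/-- real roots of an integer polynomial -/
noncomputable def rts (f : ℤ[X]) : Multiset ℝ := (f.map (Int.castRingHom ℝ)).roots

/-- monic and totally real -/
def TR (f : ℤ[X]) : Prop := f.Monic ∧ (f.map (Int.castRingHom ℝ)).Splits

lemma mem_rts {f : ℤ[X]} (hf : f.Monic) {x : ℝ} : x ∈ rts f ↔ aeval x f = 0 := by
  rw [rts, mem_roots (hf.map _).ne_zero, IsRoot, eval_map, aeval_def]
  rfl

lemma card_rts {f : ℤ[X]} (hf : TR f) : (rts f).card = f.natDegree := by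
  rw [rts, ← hf.2.natDegree_eq_card_roots, hf.1.natDegree_map]

lemma aeval_eq_prod {f : ℤ[X]} (hf : TR f) (x : ℝ) :
    aeval x f = ((rts f).map fun r => x - r).prod := by
  have h := hf.2.eq_prod_roots_of_monic (hf.1.map _)
  have h2 : aeval x f = eval x (f.map (Int.castRingHom ℝ)) := by rw [eval_map, aeval_def]; rfl
  rw [h2, h, eval_multiset_prod, Multiset.map_map, rts]
  simp

lemma sum_nonneg (Φ : ℝ → ℝ) (S : Set ℝ)
    (H : ∀ g : ℤ[X], TR g → Irreducible g → (∀ x ∈ rts g, x ∈ S) → 0 ≤ ((rts g).map Φ).sum) :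
    ∀ (n : ℕ) (f : ℤ[X]), f.natDegree = n → TR f → (∀ x ∈ rts f, x ∈ S) →
      0 ≤ ((rts f).map Φ).sum := by
  intro n
  induction n using Nat.strong_induction_on with
  | _ n ih =>
    intro f hn hf hS
    rcases (rts f).empty_or_exists_mem with h0 | ⟨x, hx⟩
    · simp [h0]
    have hx0 := (mem_rts hf.1).1 hx
    have hint : IsIntegral ℤ x := ⟨f, hf.1, by rwa [← aeval_def]⟩
    obtain ⟨k, hk⟩ := minpoly.isIntegrallyClosed_dvd hint hx0
    have hg := minpoly.monic hint
    have hkm : k.Monic := hg.of_mul_monic_left (hk ▸ hf.1)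
    have hne : (minpoly ℤ x).map (Int.castRingHom ℝ) * k.map (Int.castRingHom ℝ) ≠ 0 :=
      mul_ne_zero (hg.map _).ne_zero (hkm.map _).ne_zero
    have hs : ((minpoly ℤ x).map (Int.castRingHom ℝ) * k.map (Int.castRingHom ℝ)).Splits := by
      rw [← Polynomial.map_mul, ← hk]; exact hf.2
    have hs' := (splits_mul_iff (hg.map _).ne_zero (hkm.map _).ne_zero).1 hs
    have hr : rts f = rts (minpoly ℤ x) + rts k := by
      conv_lhs => rw [hk]
      rw [rts, Polynomial.map_mul, roots_mul hne]; rfl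
    have hd : k.natDegree < n := by
      have := minpoly.natDegree_pos hint
      rw [← hn, hk, hg.natDegree_mul hkm]; omega
    rw [hr, Multiset.map_add, Multiset.sum_add]
    rw [hr] at hS
    exact add_nonneg (H _ ⟨hg, hs'.1⟩ (minpoly.irreducible hint) fun y hy => hS y (by simp [hy]))
      (ih _ hd k rfl ⟨hkm, hs'.2⟩ fun y hy => hS y (by simp [hy]))

lemma dvd_of_root {g q : ℤ[X]} (hg : g.Monic) (hi : Irreducible g) {x : ℝ} (hx : x ∈ rts g)
    (hq : aeval x q = 0) : g ∣ q := by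
  have hx0 := (mem_rts hg).1 hx
  have hint : IsIntegral ℤ x := ⟨g, hg, by rwa [← aeval_def]⟩
  have h1 := minpoly.isIntegrallyClosed_dvd hint hx0
  have h2 := minpoly.isIntegrallyClosed_dvd hint hq
  exact (((minpoly.irreducible hint).associated_of_dvd hi h1).symm.dvd).trans h2

lemma log_prod (R : Multiset ℝ) (h : ∀ x ∈ R, x ≠ 0) :
    (R.map Real.log).sum = Real.log R.prod := by
  induction R using Multiset.induction_on with
  | empty => simp
  | cons a R ih =>
    have h1 : ∀ x ∈ R, x ≠ 0 := fun x hx => h x (by simp [hx])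
    rw [Multiset.map_cons, Multiset.sum_cons, Multiset.prod_cons, ih h1,
      Real.log_mul (h a (by simp)) (Multiset.prod_ne_zero fun h0 => h1 0 h0 rfl)]

lemma log_nonneg_of_ne {g : ℤ[X]} (hg : TR g) (q : ℤ[X]) (h : ∀ x ∈ rts g, aeval x q ≠ 0) :
    0 ≤ ((rts g).map fun x => Real.log (aeval x q)).sum := by
  have h1 := resultant_eq_prod_eval (g.map (Int.castRingHom ℝ)) (q.map (Int.castRingHom ℝ))
    q.natDegree natDegree_map_le hg.2
  rw [resultant_map_map, (hg.1.map _).leadingCoeff, one_pow, one_mul] at h1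
  have h2 : (g.map (Int.castRingHom ℝ)).roots.map (q.map (Int.castRingHom ℝ)).eval =
      (rts g).map fun x => aeval x q := by
    refine Multiset.map_congr rfl fun x _ => ?_
    rw [eval_map, aeval_def]; rfl
  have h3 := log_prod ((rts g).map fun x => aeval x q) (by
    intro y hy
    obtain ⟨x, hx, rfl⟩ := Multiset.mem_map.1 hy
    exact h x hx)
  rw [Multiset.map_map] at h3
  rw [h2] at h1
  rw [show (fun x => Real.log (aeval x q)) = Real.log ∘ fun x => aeval x q from rfl, h3, ← h1]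
  exact Real.log_intCast_nonneg _

lemma log_nonneg {f : ℤ[X]} (hf : TR f) (q : ℤ[X]) :
    0 ≤ ((rts f).map fun x => Real.log (aeval x q)).sum := by
  refine sum_nonneg _ Set.univ ?_ _ f rfl hf (by simp)
  intro g hg hi _
  by_cases hd : g ∣ q
  · refine Multiset.sum_nonneg fun y hy => ?_
    obtain ⟨x, hx, rfl⟩ := Multiset.mem_map.1 hy
    obtain ⟨k, rfl⟩ := hd
    simp [(mem_rts hg.1).1 hx]
  · exact log_nonneg_of_ne hg q fun x hx h0 => hd (dvd_of_root hg.1 hi hx h0)

/-- the data extracted from a graph of maximum degree at most `D + 1` -/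
structure Mom (D : ℕ) (R : Multiset ℝ) : Prop where
  pos : 0 < R.card
  bd : ∀ x ∈ R, |x| ≤ (D : ℝ) + 1
  m1 : R.sum = 0
  m2 : (R.map fun x : ℝ => x ^ 2 - D - 1).sum ≤ 0
  m4 : (R.map fun x : ℝ => (x ^ 2 - D) * (((D : ℝ) + 1) ^ 2 - x ^ 2)).sum ≤ 0

/-- the conclusion wanted for `D` -/
def Good (D : ℕ) : Prop := ∀ f : ℤ[X], TR f → Mom D (rts f) →
  2 * ((rts f).filter fun x => x < -√(D : ℝ)).card < (rts f).card

end Pool.Agent.H27.Med
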