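import Pool.Agent.H27.MedChk

set_option autoImplicit false

namespace Pool.Agent.H27.Med

open Polynomial

noncomputable def toP (l : List ℤ) : ℤ[X] := evR l X

lemma map_evR {R S : Type} [CommRing R] [CommRing S] (φ : R →+* S) (x : R) :
    ∀ l : List ℤ, φ (evR l x) = evR l (φ x)
  | [] => by simp [evR]
  | a :: l => by simp [evR, map_evR φ x l]

lemma aeval_toP (x : ℝ) (l : List ℤ) : aeval x (toP l) = evR l x := by
  simpa [toP] using map_evR (aeval x : ℤ[X] →ₐ[ℤ] ℝ).toRingHom X l

lemma coeff_evR {R : Type} [CommRing R] : ∀ (l : List ℤ) (i : ℕ),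
    (evR l (X : R[X])).coeff i = (l.getD i 0 : ℤ)
  | [], i => by simp [evR]
  | a :: l, 0 => by simp [evR]
  | a :: l, i + 1 => by
    have : ((a : R[X])).coeff (i + 1) = 0 := by rw [← C_eq_intCast, coeff_C]; simp
    simp [evR, coeff_evR l i, this]

lemma degree_evR {R : Type} [CommRing R] (l : List ℤ) : (evR l (X : R[X])).degree < l.length := by
  rw [degree_lt_iff_coeff_zero]
  intro i hi
  rw [coeff_evR, List.getD_eq_default _ _ hi, Int.cast_zero]

def stepR (h l : List ℤ) : List ℤ := (fun t => List.zipWith (fun a b => a - t * b) l h) (l.getLastD 0)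

def remL (h : List ℤ) : List ℤ → List ℤ
  | [] => h.map fun _ => 0
  | c :: q => stepR h (c :: remL h q)

lemma evR_zip {R : Type} [CommRing R] (x : R) (t : ℤ) : ∀ (h l : List ℤ), l.length = h.length + 1 →
    evR (List.zipWith (fun a b => a - t * b) l h) x =
      evR l x - t * evR h x - x ^ h.length * (l.getLastD 0 : ℤ)
  | [], [a], _ => by simp [evR]
  | b :: h, a :: c :: l, H => by
    have := evR_zip x t h (c :: l) (by simpa using H)
    simp only [List.zipWith_cons_cons, evR, List.length_cons] at this ⊢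
    rw [this]
    simp only [List.getLastD_cons]
    push_cast
    ring

lemma length_remL (h : List ℤ) : ∀ q : List ℤ, (remL h q).length = h.length
  | [] => by simp [remL]
  | c :: q => by simp [remL, stepR, length_remL h q]

lemma evR_zero {R : Type} [CommRing R] (x : R) : ∀ h : List ℤ, evR (h.map fun _ => 0) x = 0
  | [] => rfl
  | _ :: h => by simp only [List.map_cons, evR, evR_zero x h]; simp

lemma evR_remL {R : Type} [CommRing R] (x : R) (h : List ℤ) (H : evR h x + x ^ h.length = 0) :
    ∀ q : List ℤ, evR (remL h q) x = evR q x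
  | [] => evR_zero x h
  | c :: q => by
    rw [remL, stepR, evR_zip x _ h _ (by simp [length_remL]), evR, evR_remL x h H q, evR]
    linear_combination (-(((c :: remL h q).getLastD 0 : ℤ) : R)) * H

def allB (p : ℕ) : ℕ → (List ℤ → Bool) → Bool
  | 0, P => P []
  | m + 1, P => (List.range p).all fun a => allB p m fun v => P ((a : ℤ) :: v)

lemma allB_spec (p : ℕ) : ∀ (l : List ℤ) (P : List ℤ → Bool), allB p l.length P = true →
    (∀ a ∈ l, 0 ≤ a ∧ a < p) → P l = true
  | [], _, h, _ => h
  | a :: l, P, h, H => by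
    simp only [List.length_cons, allB, List.all_eq_true, List.mem_range] at h
    obtain ⟨h1, h2⟩ := H a (by simp)
    have := allB_spec p l _ (h a.toNat (by omega)) fun b hb => H b (by simp [hb])
    rwa [Int.toNat_of_nonneg h1] at this

def noFac (q : List ℤ) (m p : ℕ) : Bool :=
  allB p m fun h => (remL h q).any fun c => decide (c % p ≠ 0)

lemma noFac_spec {q : List ℤ} {p : ℕ} (hp : 1 < p) {g : ℤ[X]} (hg : g.Monic) (hd : g ∣ toP q) :
    noFac q g.natDegree p ≠ true := by
  intro H
  haveI : Fact (1 < p) := ⟨hp⟩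
  set h : List ℤ := (List.range g.natDegree).map fun i => g.coeff i % p with hh
  have hl : h.length = g.natDegree := by simp [hh]
  rw [noFac, ← hl] at H
  have H2 := allB_spec p h _ H (by
    intro a ha
    obtain ⟨i, -, rfl⟩ := List.mem_map.1 ha
    exact ⟨Int.emod_nonneg _ (by omega), Int.emod_lt_of_pos _ (by omega)⟩)
  set g' := g.map (Int.castRingHom (ZMod p)) with hg'
  have hm : g'.Monic := hg.map _
  have e1 : evR h X + X ^ h.length = g' := by
    ext i
    rw [coeff_add, coeff_evR, coeff_X_pow, hg', coeff_map, hl]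
    rcases lt_trichotomy i g.natDegree with hi | rfl | hi
    · simp [hh, List.getD_eq_getElem?_getD, hi, hi.ne]
    · rw [List.getD_eq_default _ _ hl.le]; simp [hg.coeff_natDegree]
    · rw [List.getD_eq_default _ _ (hl.le.trans hi.le), coeff_eq_zero_of_natDegree_lt hi]
      simp [hi.ne']
  have e2 := evR_remL (AdjoinRoot.mk g' X) h (by
    rw [← map_evR, ← map_pow, ← map_add, e1, AdjoinRoot.mk_self]) q
  rw [← map_evR, ← map_evR] at e2
  have e3 : AdjoinRoot.mk g' (evR q X) = 0 := by
    rw [AdjoinRoot.mk_eq_zero]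
    have := Polynomial.map_dvd (Int.castRingHom (ZMod p)) hd
    rwa [toP, ← coe_mapRingHom, map_evR, coe_mapRingHom, map_X] at this
  rw [e3, AdjoinRoot.mk_eq_zero] at e2
  have e4 : evR (remL h q) (X : (ZMod p)[X]) = 0 := by
    by_contra h0
    refine hm.not_dvd_of_degree_lt h0 ?_ e2
    have := degree_evR (R := ZMod p) (remL h q)
    rwa [length_remL, hl, ← hg.natDegree_map (Int.castRingHom (ZMod p)),
      ← degree_eq_natDegree hm.ne_zero] at this
  obtain ⟨c, hc, h0⟩ := List.any_eq_true.1 H2
  obtain ⟨i, hi, rfl⟩ := List.getElem_of_mem hc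
  have := coeff_evR (R := ZMod p) (remL h q) i
  rw [e4, coeff_zero, List.getD_eq_getElem _ _ hi, eq_comm, ZMod.intCast_zmod_eq_zero_iff_dvd] at this
  simp [Int.emod_eq_zero_of_dvd this] at h0

def noFacs (q : List ℤ) (k : ℕ) : Bool :=
  (List.range k).all fun i => [2, 3, 5, 7, 11, 13].any fun p => noFac q (i + 1) p

lemma noFacs_spec {q : List ℤ} {k : ℕ} (H : noFacs q k = true) {g : ℤ[X]} (hg : g.Monic)
    (hi : Irreducible g) (hd : g ∣ toP q) : k < g.natDegree := by
  by_contra h
  have h1 : 0 < g.natDegree := hg.natDegree_pos.2 hi.ne_one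
  simp only [noFacs, List.all_eq_true, List.mem_range, List.any_eq_true] at H
  obtain ⟨p, hp, h2⟩ := H (g.natDegree - 1) (by omega)
  rw [Nat.sub_add_cancel h1] at h2
  refine noFac_spec ?_ hg hd h2
  simp only [List.mem_cons, List.not_mem_nil, or_false] at hp
  omega

end Pool.Agent.H27.Med
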