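import Mathlib

set_option autoImplicit false

namespace Pool.Agent.H27.MengerPoset

inductive Q : Type
  | lo (t : ℝ) : Q
  | mid (p : LowerSet ℝ) : Q
  | hi (t : ℝ) : Q

open Q

def le' : Q → Q → Prop
  | lo s, lo t => s = t
  | lo s, mid p => s ∈ p
  | lo s, hi t => s < t
  | mid _, lo _ => False
  | mid p, mid q => p ≤ q
  | mid p, hi t => t ∉ p
  | hi _, lo _ => False
  | hi _, mid _ => False
  | hi s, hi t => s = t

instance : PartialOrder Q where
  le := le'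
  le_refl := by
    intro a
    cases a <;> simp [le']
  le_trans := by
    intro a b c h1 h2
    cases a <;> cases b <;> cases c <;> simp only [le'] at h1 h2 ⊢
    · exact h1.trans h2
    · exact h1 ▸ h2
    · exact h1 ▸ h2
    · exact h2 h1
    · rename_i s p t
      by_contra h
      exact h2 (p.lower (not_lt.1 h) h1)
    · exact h2 ▸ h1
    · exact h1.trans h2
    · exact fun h => h2 (h1 h)
    · exact h2 ▸ h1
    · exact h1.trans h2
  le_antisymm := by
    intro a b h1 h2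
    cases a <;> cases b <;> simp only [le'] at h1 h2 ⊢
    · rw [h1]
    · rw [le_antisymm h1 h2]
    · rw [h1]

lemma le_def (a b : Q) : a ≤ b ↔ le' a b := Iff.rfl

lemma le_hi_of {a : Q} {t : ℝ} (h : a ≤ hi t ∨ hi t ≤ a) : a ≤ hi t := by
  rcases h with h | h
  · exact h
  · cases a
    · exact h.elim
    · exact h.elim
    · exact (show t = _ from h) ▸ le_rfl

lemma lo_le_of {a : Q} {t : ℝ} (h : lo t ≤ a ∨ a ≤ lo t) : lo t ≤ a := by
  rcases h with h | h
  · exact h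
  · cases a
    · exact (show _ = t from h) ▸ le_rfl
    · exact h.elim
    · exact h.elim

lemma sup_part (C : Set Q) (hC : IsChain (· ≤ ·) C) (hne : C.Nonempty) : ∃ a, IsLUB C a := by
  by_cases h1 : ∃ t, hi t ∈ C
  · obtain ⟨t, ht⟩ := h1
    exact ⟨hi t, fun c hc => le_hi_of (hC.total hc ht), fun u hu => hu ht⟩
  by_cases h2 : ∃ p, mid p ∈ C
  · obtain ⟨p0, h0⟩ := h2
    let S : Set (LowerSet ℝ) := {p | mid p ∈ C}
    refine ⟨mid (sSup S), fun c hc => ?_, fun u hu => ?_⟩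
    · cases c with
      | lo s => exact (lo_le_of (hC.total hc h0)).trans (show p0 ≤ sSup S from le_sSup h0)
      | mid p => exact (show p ≤ sSup S from le_sSup hc)
      | hi t => exact absurd ⟨t, hc⟩ h1
    · cases u with
      | lo s => exact (hu h0).elim
      | mid p => exact (show sSup S ≤ p from sSup_le fun q hq => hu hq)
      | hi t =>
        intro hx
        obtain ⟨q, hq, hxq⟩ := LowerSet.mem_sSup_iff.1 hx
        exact hu hq hxq
  · obtain ⟨a, ha⟩ := hne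
    refine ⟨a, fun c hc => ?_, fun u hu => hu ha⟩
    cases a with
    | lo s =>
      cases c with
      | lo s' => exact lo_le_of (hC.total hc ha)
      | mid p => exact absurd ⟨p, hc⟩ h2
      | hi t => exact absurd ⟨t, hc⟩ h1
    | mid p => exact absurd ⟨p, ha⟩ h2
    | hi t => exact absurd ⟨t, ha⟩ h1

lemma inf_part (C : Set Q) (hC : IsChain (· ≤ ·) C) (hne : C.Nonempty) : ∃ a, IsGLB C a := by
  by_cases h1 : ∃ t, lo t ∈ C
  · obtain ⟨t, ht⟩ := h1
    exact ⟨lo t, fun c hc => lo_le_of (hC.total ht hc), fun u hu => hu ht⟩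
  by_cases h2 : ∃ p, mid p ∈ C
  · obtain ⟨p0, h0⟩ := h2
    let S : Set (LowerSet ℝ) := {p | mid p ∈ C}
    refine ⟨mid (sInf S), fun c hc => ?_, fun u hu => ?_⟩
    · cases c with
      | hi s =>
        exact le_trans (show mid (sInf S) ≤ mid p0 from (show sInf S ≤ p0 from sInf_le h0))
          (le_hi_of (hC.total h0 hc))
      | mid p => exact (show sInf S ≤ p from sInf_le hc)
      | lo t => exact absurd ⟨t, hc⟩ h1
    · cases u with
      | hi s => exact (hu h0).elim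
      | mid p => exact (show p ≤ sInf S from le_sInf fun q hq => hu hq)
      | lo t => exact LowerSet.mem_sInf_iff.2 fun q hq => hu hq
  · obtain ⟨a, ha⟩ := hne
    refine ⟨a, fun c hc => ?_, fun u hu => hu ha⟩
    cases a with
    | hi s =>
      cases c with
      | hi s' => exact le_hi_of (hC.total ha hc)
      | mid p => exact absurd ⟨p, hc⟩ h2
      | lo t => exact absurd ⟨t, hc⟩ h1
    | mid p => exact absurd ⟨p, ha⟩ h2
    | lo t => exact absurd ⟨t, ha⟩ h1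

lemma mem_of_comp {C : Set Q} (hC : IsMaxChain (· ≤ ·) C) (w : Q)
    (h : ∀ c ∈ C, w ≤ c ∨ c ≤ w) : w ∈ C := by
  have h1 : IsChain (· ≤ ·) (insert w C) := hC.1.insert (fun c hc _ => h c hc)
  rw [hC.2 h1 (Set.subset_insert _ _)]
  exact Set.mem_insert _ _

lemma interval {C : Set Q} (hC : IsMaxChain (· ≤ ·) C) :
    ∃ l u : ℝ, l < u ∧ ∀ q : LowerSet ℝ, l ∈ q → u ∉ q → mid q ∈ C := by
  have key : ∃ l u : ℝ, l < u ∧ (∀ s, lo s ∈ C → s = l) ∧ (∀ t, hi t ∈ C → t = u) := by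
    by_cases h1 : ∃ s, lo s ∈ C <;> by_cases h2 : ∃ t, hi t ∈ C
    · obtain ⟨s, hs⟩ := h1
      obtain ⟨t, ht⟩ := h2
      exact ⟨s, t, lo_le_of (hC.1.total hs ht), fun s' h => lo_le_of (hC.1.total h hs),
        fun t' h => le_hi_of (hC.1.total h ht)⟩
    · obtain ⟨s, hs⟩ := h1
      exact ⟨s, s + 1, by linarith, fun s' h => lo_le_of (hC.1.total h hs),
        fun t' h => absurd ⟨t', h⟩ h2⟩
    · obtain ⟨t, ht⟩ := h2
      exact ⟨t - 1, t, by linarith, fun s' h => absurd ⟨s', h⟩ h1,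
        fun t' h => le_hi_of (hC.1.total h ht)⟩
    · exact ⟨0, 1, one_pos, fun s' h => absurd ⟨s', h⟩ h1, fun t' h => absurd ⟨t', h⟩ h2⟩
  obtain ⟨l, u, hlu, hl, hu⟩ := key
  refine ⟨l, u, hlu, fun q h1 h2 => mem_of_comp hC _ fun c hc => ?_⟩
  cases c with
  | lo s => exact Or.inr (show s ∈ q from hl s hc ▸ h1)
  | mid p => exact le_total q p
  | hi t => exact Or.inl (show t ∉ q from hu t hc ▸ h2)

lemma pick {S : Set ℝ} (hS : S.Countable) {a b : ℝ} (hab : a < b) : ∃ x, a < x ∧ x < b ∧ x ∉ S := by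
  obtain ⟨x, hx, h⟩ := (hS.dense_compl ℝ).exists_between hab
  exact ⟨x, h.1, h.2, hx⟩

theorem main : ¬ (∀ (P : Type) [PartialOrder P] [Nonempty P],
      (∀ c : Set P, IsChain (· ≤ ·) c → c.Nonempty →
        (∃ a : P, IsLUB c a) ∧ (∃ a : P, IsGLB c a)) →
      ∃ (F : Set (Set P)) (A : Set P),
        (∀ C ∈ F, IsMaxChain (· ≤ ·) C) ∧
        F.PairwiseDisjoint id ∧
        (∀ C : Set P, IsMaxChain (· ≤ ·) C → (A ∩ C).Nonempty) ∧
        (∀ a ∈ A, ∃! C : Set P, C ∈ F ∧ a ∈ C) ∧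
        (∀ C ∈ F, ∃! a : P, a ∈ A ∧ a ∈ C)) := by
  intro h
  haveI : Nonempty Q := ⟨lo 0⟩
  obtain ⟨F, A, hF, hD, hA, h1, h2⟩ := h Q (fun c hc hn => ⟨sup_part c hc hn, inf_part c hc hn⟩)
  have hq : ∀ C ∈ F, ∃ r : ℚ, mid (LowerSet.Iic (r : ℝ)) ∈ C := by
    intro C hC
    obtain ⟨l, u, hlu, hi⟩ := interval (hF C hC)
    obtain ⟨r, hr1, hr2⟩ := exists_rat_btwn hlu
    exact ⟨r, hi _ (LowerSet.mem_Iic_iff.2 hr1.le)
      (fun h => absurd (LowerSet.mem_Iic_iff.1 h) (not_le.2 hr2))⟩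
  have hAc : A.Countable := by
    have hsub : A ⊆ ⋃ r : ℚ, {a | a ∈ A ∧ ∃ C ∈ F, a ∈ C ∧ mid (LowerSet.Iic (r : ℝ)) ∈ C} := by
      intro a ha
      obtain ⟨C, ⟨hC, haC⟩, -⟩ := h1 a ha
      obtain ⟨r, hr⟩ := hq C hC
      exact Set.mem_iUnion.2 ⟨r, ha, C, hC, haC, hr⟩
    refine Set.Countable.mono hsub (Set.countable_iUnion fun r => Set.Subsingleton.countable ?_)
    rintro a ⟨ha, C, hC, haC, hr⟩ b ⟨hb, C', hC', hbC, hr'⟩
    have e : C = C' := by
      by_contra hne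
      exact Set.disjoint_left.1 (hD hC hC' hne) hr hr'
    subst e
    exact (h2 C hC).unique ⟨ha, haC⟩ ⟨hb, hbC⟩
  have hfree : ∃ l u : ℝ, l < u ∧ ∀ q : LowerSet ℝ, l ∈ q → u ∉ q → mid q ∉ A := by
    by_cases hm : ∃ p, mid p ∈ A
    · obtain ⟨p, hp⟩ := hm
      obtain ⟨C, ⟨hC, hpC⟩, -⟩ := h1 _ hp
      obtain ⟨l, u, hlu, hi⟩ := interval (hF C hC)
      have hu : ∀ q : LowerSet ℝ, l ∈ q → u ∉ q → mid q ∈ A → q = p := fun q a b c =>
        mid.inj ((h2 C hC).unique ⟨c, hi q a b⟩ ⟨hp, hpC⟩)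
      obtain ⟨t, ht1, ht2⟩ := exists_between hlu
      by_cases htp : t ∈ p
      · refine ⟨l, t, ht1, fun q a b c => ?_⟩
        have := hu q a (fun h => b (q.lower ht2.le h)) c
        subst this
        exact b htp
      · refine ⟨t, u, ht2, fun q a b c => ?_⟩
        have := hu q (q.lower ht1.le a) b c
        subst this
        exact htp a
    · exact ⟨0, 1, one_pos, fun q _ _ c => hm ⟨q, c⟩⟩
  obtain ⟨l, u, hlu, hfree⟩ := hfree
  have c1 : (lo ⁻¹' A).Countable := hAc.preimage (fun _ _ h => lo.inj h)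
  have c2 : (hi ⁻¹' A).Countable := hAc.preimage (fun _ _ h => hi.inj h)
  obtain ⟨s, hs1, hs2, hs⟩ := pick c1 hlu
  obtain ⟨t, ht1, ht2, ht⟩ := pick c2 hs2
  have hch : IsChain (· ≤ ·) ({lo s, hi t} : Set Q) := by
    apply IsChain.insert IsChain.singleton
    rintro b rfl _
    exact Or.inl ht1
  obtain ⟨M, hM, hsub⟩ := hch.exists_maxChain
  have m1 : lo s ∈ M := hsub (by simp)
  have m2 : hi t ∈ M := hsub (by simp)
  obtain ⟨w, hwA, hwM⟩ := hA M hM
  have a1 := lo_le_of (hM.1.total m1 hwM)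
  have a2 := le_hi_of (hM.1.total hwM m2)
  cases w with
  | lo s' => exact hs ((show s = s' from a1) ▸ hwA)
  | hi t' => exact ht ((show t' = t from a2) ▸ hwA)
  | mid q => exact hfree q (q.lower hs1.le a1) (fun h => a2 (q.lower ht2.le h)) hwA

end Pool.Agent.H27.MengerPoset
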