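import Mathlib
import Pool.Agent.H27.MetDim

set_option autoImplicit false

namespace Pool.Agent.H27.MetDim

open Finset SimpleGraph

variable {V : Type} {G : SimpleGraph V}

lemma const (hc : G.Connected) {b y : V} (hy : G.Adj b y)
    (H : ∀ r, r ≠ b → ∀ x y, G.Adj b x → G.Adj b y → G.dist r x ≤ G.dist r b →
      G.dist r y ≤ G.dist r b → x = y) {r r' : V} (h : G.Adj r r') (h1 : r ≠ b) (h2 : r' ≠ b)
    (h3 : G.dist r y ≤ G.dist r b) : G.dist r' y ≤ G.dist r' b := by
  obtain ⟨x, hx, hx'⟩ := step hc h1
  obtain ⟨x', hz, hz'⟩ := step hc h2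
  have e := H r h1 x y hx hy (by omega) h3
  subst e
  have a1 := adj_le hc x h
  have a2 := adj_le hc x' h.symm
  rw [dist_comm (u := x), dist_comm (u := x)] at a1
  rw [dist_comm (u := x'), dist_comm (u := x')] at a2
  by_cases hh : G.dist r b ≤ G.dist r' b
  · omega
  · have e := H r h1 x' x hz hy (by omega) h3
    subst e
    omega

lemma root [Fintype V] [DecidableEq V] [DecidableRel G.Adj] (hc : G.Connected)
    (h2 : ∀ v, 2 ≤ G.degree v) (h3 : ∃ v, 3 ≤ G.degree v) :
    ∃ r b, 3 ≤ G.degree b ∧ r ≠ b ∧ ∃ x y, G.Adj b x ∧ G.Adj b y ∧ G.dist r x ≤ G.dist r b ∧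
      G.dist r y ≤ G.dist r b ∧ x ≠ y := by
  by_contra hcon
  push Not at hcon
  obtain ⟨r, hr⟩ := h3
  let R : ℕ → V → V → Prop := fun k => Relation.ReflTransGen
    (fun u v => G.Adj u v ∧ k ≤ G.dist r u ∧ k ≤ G.dist r v)
  have mono : ∀ k y z, R (k + 1) y z → R k y z := by
    intro k y z h
    induction h with
    | refl => exact .refl
    | tail _ h ih => exact .tail ih ⟨h.1, by omega, by omega⟩
  have ex : ∃ k, ∃ y z, y ≠ z ∧ G.dist r y = k ∧ G.dist r z = k ∧ R k y z := by
    obtain ⟨w, hw, -⟩ := exists_sink hc r r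
    obtain ⟨y, hy, z, hz, hyz⟩ := Finset.one_lt_card.mp (show 1 < (G.neighborFinset w).card from h2 w)
    rw [mem_neighborFinset] at hy hz
    have a1 := hw y hy
    have a2 := hw z hz
    have a3 := adj_le hc r hy.symm
    have a4 := adj_le hc r hz.symm
    by_cases e1 : G.dist r y = G.dist r w
    · exact ⟨_, w, y, hy.ne, rfl, e1, .single ⟨hy, le_rfl, by omega⟩⟩
    by_cases e2 : G.dist r z = G.dist r w
    · exact ⟨_, w, z, hz.ne, rfl, e2, .single ⟨hz, le_rfl, by omega⟩⟩
    exact ⟨_, y, z, hyz, rfl, by omega,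
      .tail (.single ⟨hy.symm, le_rfl, by omega⟩) ⟨hz, by omega, by omega⟩⟩
  classical
  obtain ⟨y, z, hyz, e1, e2, hR⟩ := Nat.find_spec ex
  have hmin := fun k => Nat.find_min ex (m := k)
  generalize Nat.find ex = k at *
  have hry : r ≠ y := by
    rintro rfl
    have := hc.pos_dist_of_ne hyz
    rw [dist_self] at e1; omega
  have hrz : r ≠ z := by
    rintro rfl
    have := hc.pos_dist_of_ne hyz.symm
    rw [dist_self] at e2; omega
  obtain ⟨b, hb, hb'⟩ := step hc hry
  obtain ⟨c, hc1, hc'⟩ := step hc hrz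
  obtain ⟨k, rfl⟩ : ∃ j, k = j + 1 := ⟨k - 1, by omega⟩
  have hbc : b = c := by
    by_contra hbc
    refine hmin k (by omega) ⟨b, c, hbc, by omega, by omega, ?_⟩
    exact .tail (.head ⟨hb.symm, by omega, by omega⟩ (mono k y z hR)) ⟨hc1, by omega, by omega⟩
  subst hbc
  have hdeg : 3 ≤ G.degree b := by
    by_cases hrb : r = b
    · exact hrb ▸ hr
    obtain ⟨a, ha, ha'⟩ := step hc hrb
    refine Finset.two_lt_card_iff.mpr ⟨a, y, z, by simpa using ha, by simpa using hb.symm,
      by simpa using hc1.symm, ?_, ?_, hyz⟩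
    · rintro rfl; omega
    · rintro rfl; omega
  have H := fun r' hr' => hcon r' b hdeg hr'
  have key : ∀ t, R (k + 1) y t → G.dist t y ≤ G.dist t b := by
    intro t ht
    induction ht with
    | refl => simp
    | tail _ h ih =>
      refine const hc hb.symm H h.1 ?_ ?_ ih
      · rintro rfl; omega
      · rintro rfl; omega
  exact hyz (H z hc1.ne y z hb.symm hc1.symm (key z hR) (by simp))

section count
variable [Fintype V] [DecidableEq V] [DecidableRel G.Adj]

/-- upper neighbours -/
noncomputable def up (G : SimpleGraph V) [DecidableRel G.Adj] (r v : V) : Finset V :=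
  univ.filter fun x => G.Adj v x ∧ G.dist r x + 1 = G.dist r v
/-- neighbours on the same level -/
noncomputable def hor (G : SimpleGraph V) [DecidableRel G.Adj] (r v : V) : Finset V :=
  univ.filter fun x => G.Adj v x ∧ G.dist r x = G.dist r v
/-- lower neighbours -/
noncomputable def down (G : SimpleGraph V) [DecidableRel G.Adj] (r v : V) : Finset V :=
  univ.filter fun x => G.Adj v x ∧ G.dist r v + 1 = G.dist r x

lemma deg_eq (hc : G.Connected) (r v : V) :
    G.degree v = (up G r v).card + (hor G r v).card + (down G r v).card := by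
  rw [← card_neighborFinset_eq_degree, ← card_union_of_disjoint, ← card_union_of_disjoint]
  · congr 1
    ext x
    simp only [mem_neighborFinset, up, hor, down, mem_union, mem_filter, mem_univ, true_and]
    constructor
    · intro h
      have := adj_le hc r h
      have := adj_le hc r h.symm
      simp only [h, true_and]; omega
    · rintro ((h | h) | h) <;> exact h.1
  · simp only [Finset.disjoint_left, up, hor, down, mem_union, mem_filter, mem_univ, true_and]
    omega
  · simp only [Finset.disjoint_left, up, hor, mem_filter, mem_univ, true_and]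
    omega

lemma sum_down (r : V) : ∑ v, (down G r v).card = ∑ v, (up G r v).card := by
  simp only [up, down, card_filter]
  rw [sum_comm]
  simp only [G.adj_comm]

lemma up_pos (hc : G.Connected) {r v : V} (h : r ≠ v) : (up G r v).Nonempty := by
  obtain ⟨x, h1, h2⟩ := step hc h
  exact ⟨x, by simp [up, h1, h2]⟩

lemma sum_up (hc : G.Connected) (r : V) :
    ∑ v, ((up G r v).card - 1) + Fintype.card V = ∑ v, (up G r v).card + 1 := by
  have : ∀ v, (up G r v).card - 1 + 1 = (up G r v).card + if v = r then 1 else 0 := by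
    intro v
    split_ifs with h
    · subst h; simp [up]
    · have := (up_pos hc (Ne.symm h)).card_pos; omega
  have h := sum_congr (s₁ := univ) rfl fun v _ => this v
  simpa [sum_add_distrib] using h

lemma exists_U (r a : V) : ∃ U : Finset V, U.card ≤ ∑ v, ((up G r v).card - 1) ∧
    UpOK G r U ∧ ∀ w x y, x ∈ up G r w → y ∈ up G r w → Below G r a x → ¬ Below G r a y →
      y ∈ U := by
  classical
  have : ∀ w, ∃ p, ((up G r w).Nonempty → p ∈ up G r w) ∧
      ((∃ x ∈ up G r w, Below G r a x) → Below G r a p) := by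
    intro w
    by_cases h : ∃ x ∈ up G r w, Below G r a x
    · obtain ⟨x, h1, h2⟩ := h
      exact ⟨x, fun _ => h1, fun _ => h2⟩
    by_cases h' : (up G r w).Nonempty
    · obtain ⟨x, hx⟩ := h'
      exact ⟨x, fun _ => hx, fun k => absurd k h⟩
    · exact ⟨w, fun k => absurd k h', fun k => absurd k h⟩
  choose p hp hp' using this
  refine ⟨univ.biUnion fun w => (up G r w).erase (p w), ?_, ?_, ?_⟩
  · refine card_biUnion_le.trans (sum_le_sum fun w _ => ?_)
    by_cases h : (up G r w).Nonempty
    · rw [card_erase_of_mem (hp w h)]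
    · rw [not_nonempty_iff_eq_empty.mp h]; simp
  · intro w x y h1 h2 h3 h4 h5
    by_cases h : x = p w
    · right
      simp only [coe_biUnion, Set.mem_iUnion, mem_coe, mem_erase]
      exact ⟨w, by simp, by rw [← h]; exact h5.symm, by simp [up, h2, h4]⟩
    · left
      simp only [coe_biUnion, Set.mem_iUnion, mem_coe, mem_erase]
      exact ⟨w, by simp, h, by simp [up, h1, h3]⟩
  · intro w x y h1 h2 h3 h4
    rw [mem_biUnion]
    refine ⟨w, mem_univ _, mem_erase.mpr ⟨?_, h2⟩⟩
    rintro rfl
    exact h4 (hp' w ⟨x, h1, h3⟩)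

lemma sink_iff (hc : G.Connected) (r s : V) : Sink G r s ↔ (down G r s).card = 0 := by
  simp only [Sink, down, card_eq_zero, filter_eq_empty_iff, mem_univ, true_imp_iff, not_and]
  refine forall_congr' fun x => imp_congr_right fun h => ?_
  have := adj_le hc r h
  omega

theorem main (hc : G.Connected) (h2 : ∀ v, 2 ≤ G.degree v) (h3 : ∃ v, 3 ≤ G.degree v) :
    ∃ r, ∃ S : Finset V, S.card + 2 * Fintype.card V ≤ 2 * G.edgeFinset.card + 1 ∧
      (∀ s, Sink G r s → s ∈ (S : Set V)) ∧ UpOK G r S ∧ HorOK G r S := by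
  classical
  obtain ⟨r, b, hb, hrb, x, y, hx, hy, hx', hy', hxy⟩ := root hc h2 h3
  have hph : 2 ≤ (up G r b).card + (hor G r b).card := by
    rw [← card_union_of_disjoint]
    · have := adj_le hc r hx.symm
      have := adj_le hc r hy.symm
      refine Finset.one_lt_card.mpr ⟨x, ?_, y, ?_, hxy⟩ <;> simp [up, hor, *] <;> omega
    · simp only [Finset.disjoint_left, up, hor, mem_filter, mem_univ, true_and]
      omega
  let A : Prop := (hor G r b).card = 1 ∧ (down G r b).card ≠ 0
  obtain ⟨a, ha⟩ : ∃ a, A → hor G r b = {a} := by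
    by_cases h : A
    · obtain ⟨a, ha⟩ := card_eq_one.mp h.1
      exact ⟨a, fun _ => ha⟩
    · exact ⟨r, fun k => absurd k h⟩
  obtain ⟨U, hU1, hU2, hU3⟩ := exists_U (G := G) r a
  let T : Finset V := univ.filter fun v =>
    ((down G r v).card = 0 ∨ (hor G r v).card ≠ 0) ∧ ¬ (v = b ∧ A)
  have hT : T.card < ∑ v, ((up G r v).card - 1 + (hor G r v).card) := by
    rw [card_filter]
    refine sum_lt_sum (fun v _ => ?_) ⟨b, mem_univ _, ?_⟩
    · have e := deg_eq hc r v
      have := h2 v
      split_ifs with h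
      · by_cases hv : r = v
        · subst hv
          have e1 : up G r r = ∅ := by simp [up]
          rw [e1] at e ⊢
          simp only [card_empty] at e ⊢
          omega
        · have := (up_pos hc hv).card_pos
          omega
      · omega
    · have e := deg_eq hc r b
      have := (up_pos hc hrb).card_pos
      split_ifs with h
      · simp only [A, true_and] at h
        omega
      · omega
  have hsink : ∀ s, Sink G r s → s ∈ ((U ∪ T : Finset V) : Set V) := by
    intro s hs
    rw [sink_iff hc] at hs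
    simp only [coe_union, Set.mem_union, mem_coe, T, mem_filter, mem_univ, true_and]
    refine Or.inr ⟨Or.inl hs, ?_⟩
    rintro ⟨rfl, h⟩
    exact h.2 hs
  have hhor : ∀ v w, G.Adj v w → G.dist r v = G.dist r w → ¬ (w = b ∧ A) →
      w ∈ ((U ∪ T : Finset V) : Set V) := by
    intro v w h1 h2 h3
    simp only [coe_union, Set.mem_union, mem_coe, T, mem_filter, mem_univ, true_and]
    refine Or.inr ⟨Or.inr (card_ne_zero.mpr ⟨v, ?_⟩), h3⟩
    simp [hor, h1.symm, h2]
  refine ⟨r, U ∪ T, ?_, hsink, ?_, ?_⟩
  · have e1 := G.sum_degrees_eq_twice_card_edges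
    have e2 := sum_congr (s₁ := univ) rfl fun v _ => deg_eq hc r v
    have e3 := sum_down (G := G) r
    have e4 := sum_up hc r
    have e5 := card_union_le U T
    simp only [sum_add_distrib] at e2 hT
    omega
  · intro w x y a1 a2 a3 a4 a5
    rcases hU2 w x y a1 a2 a3 a4 a5 with h | h
    · exact Or.inl (by simp [mem_coe.mp h])
    · exact Or.inr (by simp [mem_coe.mp h])
  · intro c d h1 h4 h5
    have hd : d = b ∧ A := by
      by_contra h
      exact h5 (hhor c d h1 h4 h)
    obtain ⟨rfl, hA⟩ := hd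
    have hca : c = a := by
      have : c ∈ hor G r d := by simp [hor, h1.symm, h4]
      rwa [ha hA, mem_singleton] at this
    subst hca
    refine ⟨hhor d c h1.symm h4.symm fun h => h1.ne h.1, fun z k1 k2 k3 => hhor c z k1 k2
      fun h => k3 h.1, ?_⟩
    obtain ⟨s, k1, k2⟩ := exists_sink hc r d
    by_cases k3 : Below G r c s
    · obtain ⟨w, x, y, a1, a2, a3, a4, a5, a6, a7, a8⟩ := meet hc r h1.ne h4 k3 k2
      have := hU3 w x y (by simp [up, a1, a3]) (by simp [up, a2, a4]) a5 a8
      exact ⟨y, by simp [this], a7, a8⟩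
    · exact ⟨s, hsink s k1, k2, k3⟩

end count

end Pool.Agent.H27.MetDim
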