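import Mathlib
import Pool.Agent.H27.MetDim2

set_option autoImplicit false

namespace Pool.Agent.H27.MetDim

open Finset SimpleGraph

variable {V : Type} {G : SimpleGraph V}

/-- some element of `S` lies below `u` -/
def Good (G : SimpleGraph V) (r : V) (S : Set V) (u : V) : Prop := ∃ s ∈ S, Below G r u s

lemma mixed (hc : G.Connected) {r : V} {S : Set V} (hr : r ∈ S) (hH : HorOK G r S) (v : V)
    {c d : V} (hcd : G.Adj c d) (h1 : G.dist r c ≤ G.dist r d) (hd : Good G r S d) :
    ∃ s ∈ S, G.dist s v ≠ min (G.dist s c) (G.dist s d) := by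
  by_cases h2 : G.dist r v = G.dist r c
  swap
  · exact ⟨r, hr, by omega⟩
  rcases h1.lt_or_eq with h1 | h1
  · obtain ⟨s, k1, k2⟩ := hd
    rw [below_iff] at k2
    have := tri hc r v s
    exact ⟨s, k1, by omega⟩
  have key : ∀ c d, G.Adj c d → G.dist r c = G.dist r d → G.dist r v = G.dist r c → c ∈ S →
      ∃ s ∈ S, G.dist s v ≠ min (G.dist s c) (G.dist s d) := by
    intro c d hcd h1 h2 hcS
    by_cases hv : c = v
    swap
    · have := hc.pos_dist_of_ne hv
      exact ⟨c, hcS, by rw [dist_self]; omega⟩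
    subst hv
    by_cases hdS : d ∈ S
    · have := hc.pos_dist_of_ne hcd.ne'
      exact ⟨d, hdS, by rw [dist_self]; omega⟩
    obtain ⟨-, -, s, k1, k2, k3⟩ := hH c d hcd h1 hdS
    rw [below_iff] at k2 k3
    have := tri hc r c s
    exact ⟨s, k1, by omega⟩
  by_cases hcS : c ∈ S
  · exact key c d hcd h1 h2 hcS
  · have := key d c hcd.symm h1.symm (by omega) (hH d c hcd.symm h1.symm hcS).1
    simpa only [min_comm (G.dist _ d)] using this

lemma sep2 [Finite V] (hc : G.Connected) (r : V) {S : Set V}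
    (hU : UpOK G r S) {u v : V} (huv : u ≠ v) (hl : G.dist r u = G.dist r v) (hu : Good G r S u) :
    ∃ s ∈ S, ¬ (Below G r u s ↔ Below G r v s) := by
  by_contra hcon
  push Not at hcon
  obtain ⟨s, h1, h2⟩ := hu
  obtain ⟨w, x, y, a1, a2, a3, a4, a5, a6, a7, a8⟩ := meet hc r huv hl h2 ((hcon s h1).mp h2)
  rcases hU w x y a1 a2 a3 a4 (by rintro rfl; exact a6 a7) with h | h
  · exact a6 ((hcon x h).mp a5)
  · exact a8 ((hcon y h).mpr a7)

lemma Good.up (hc : G.Connected) {r : V} {S : Set V} {u x : V} (h : G.Adj u x)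
    (hl : G.dist r u + 1 = G.dist r x) (hx : Good G r S x) : Good G r S u := by
  obtain ⟨s, k1, k2⟩ := hx
  refine ⟨s, k1, ?_⟩
  rw [below_iff] at k2 ⊢
  have := tri hc r u s
  have := adj_le hc s h.symm
  omega

lemma good_hor {r : V} {S : Set V} (hH : HorOK G r S) {u x : V} (h : G.Adj u x)
    (hl : G.dist r u = G.dist r x) : Good G r S x := by
  by_cases hx : x ∈ S
  · exact ⟨x, hx, by simp [Below]⟩
  · obtain ⟨-, -, s, k1, k2, -⟩ := hH u x h hl hx
    exact ⟨s, k1, k2⟩

/-- the vertices with nothing of `S` below them form pendant paths -/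
def BadOK (G : SimpleGraph V) (r : V) (S : Set V) : Prop :=
  (∀ u x y, ¬ Good G r S u → G.Adj u x → G.Adj u y → G.dist r x + 1 = G.dist r u →
    G.dist r y + 1 = G.dist r u → x = y) ∧
  ∀ w x y, ¬ Good G r S x → ¬ Good G r S y → G.Adj w x → G.Adj w y →
    G.dist r w + 1 = G.dist r x → G.dist r w + 1 = G.dist r y → x = y

lemma bad_dist [Finite V] (hc : G.Connected) {r : V} {S : Set V} (hH : HorOK G r S)
    (hB : BadOK G r S) {s : V} (hs : s ∈ S) (u : V) : ¬ Good G r S u → ∀ x, G.Adj u x →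
      G.dist r x + 1 = G.dist r u → G.dist s u = G.dist s x + 1 := by
  by_contra hcon
  obtain ⟨u, hu, hmax⟩ := Set.exists_max_image {u | ¬ (¬ Good G r S u → ∀ x, G.Adj u x →
      G.dist r x + 1 = G.dist r u → G.dist s u = G.dist s x + 1)} (G.dist r) (Set.toFinite _)
    ⟨u, hcon⟩
  refine hu fun hb x hx hl => ?_
  have hsu : s ≠ u := by
    rintro rfl
    exact hb ⟨s, hs, by simp [Below]⟩
  obtain ⟨y, hy, hy'⟩ := step hc hsu
  have a1 := adj_le hc r hy
  have a2 := adj_le hc r hy.symm
  rcases lt_trichotomy (G.dist r y) (G.dist r u) with h | h | h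
  · rw [hB.1 u x y hb hx hy hl (by omega)]; omega
  · exact absurd (good_hor hH hy.symm h) hb
  · exfalso
    have : ¬ ¬ (¬ Good G r S y → ∀ x, G.Adj y x →
      G.dist r x + 1 = G.dist r y → G.dist s y = G.dist s x + 1) := fun k => by
        have := hmax y k; omega
    have := not_not.mp this (fun k => hb (k.up hc hy (by omega))) u hy.symm (by omega)
    omega

lemma vert2 [Finite V] (hc : G.Connected) {r : V} {S : Set V} (hr : r ∈ S) (hU : UpOK G r S)
    (hH : HorOK G r S) (hB : BadOK G r S) (u v : V) (huv : u ≠ v) :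
    ∃ s ∈ S, G.dist s u ≠ G.dist s v := by
  generalize hk : G.dist r u = k
  induction k generalizing u v with
  | zero => exact ⟨r, hr, by
      rw [hc.dist_eq_zero_iff] at hk
      subst hk
      have := hc.pos_dist_of_ne huv
      rw [dist_self]; omega⟩
  | succ k ih =>
    by_cases h : G.dist r u = G.dist r v
    swap
    · exact ⟨r, hr, h⟩
    by_cases hu : Good G r S u
    · obtain ⟨s, h1, h2⟩ := sep2 hc r hU huv h hu
      rw [below_iff, below_iff] at h2
      exact ⟨s, h1, by omega⟩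
    by_cases hv : Good G r S v
    · obtain ⟨s, h1, h2⟩ := sep2 hc r hU huv.symm h.symm hv
      rw [below_iff, below_iff] at h2
      exact ⟨s, h1, by omega⟩
    obtain ⟨x, hx, hx'⟩ := step hc (u := r) (w := u) (by rintro rfl; simp at hk)
    obtain ⟨y, hy, hy'⟩ := step hc (u := r) (w := v) (by rintro rfl; rw [dist_self] at h; omega)
    have hxy : x ≠ y := by
      rintro rfl
      exact huv (hB.2 x u v hu hv hx.symm hy.symm hx' hy')
    obtain ⟨s, h1, h2⟩ := ih x y hxy (by omega)
    have := bad_dist hc hH hB h1 u hu x hx hx'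
    have := bad_dist hc hH hB h1 v hv y hy hy'
    exact ⟨s, h1, by omega⟩

lemma edge2 [Finite V] (hc : G.Connected) {r : V} {S : Set V} (hr : r ∈ S) (hU : UpOK G r S)
    (hH : HorOK G r S) (hB : BadOK G r S) (a b c d : V)
    (hab : G.Adj a b) (hcd : G.Adj c d) (hne : s(a, b) ≠ s(c, d)) :
    ∃ s ∈ S, min (G.dist s a) (G.dist s b) ≠ min (G.dist s c) (G.dist s d) := by
  wlog h1 : G.dist r a ≤ G.dist r b generalizing a b
  · have := this b a hab.symm (by rwa [Sym2.eq_swap (a := b)]) (by omega)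
    simpa only [min_comm (G.dist _ b)] using this
  wlog h2 : G.dist r c ≤ G.dist r d generalizing c d
  · have := this d c hcd.symm (by rwa [Sym2.eq_swap (a := d)]) (by omega)
    simpa only [min_comm (G.dist _ d)] using this
  have bad : ∀ a b, G.Adj a b → G.dist r a ≤ G.dist r b → ¬ Good G r S b →
      G.dist r a + 1 = G.dist r b ∧ ∀ s ∈ S, min (G.dist s a) (G.dist s b) = G.dist s a := by
    intro a b hab h1 hb
    have e1 := adj_le hc r hab
    have e2 : G.dist r a ≠ G.dist r b := fun k => hb (good_hor hH hab k)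
    refine ⟨by omega, fun s hs => ?_⟩
    have := bad_dist hc hH hB hs b hb a hab.symm (by omega)
    omega
  by_cases hb : Good G r S b
  swap
  · obtain ⟨e1, e2⟩ := bad a b hab h1 hb
    by_cases hd : Good G r S d
    · obtain ⟨s, k1, k2⟩ := mixed hc hr hH a hcd h2 hd
      exact ⟨s, k1, by rwa [e2 s k1]⟩
    · obtain ⟨e3, e4⟩ := bad c d hcd h2 hd
      have hac : a ≠ c := by
        rintro rfl
        exact hne (by rw [hB.2 a b d hb hd hab hcd e1 e3])
      obtain ⟨s, k1, k2⟩ := vert2 hc hr hU hH hB a c hac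
      exact ⟨s, k1, by rwa [e2 s k1, e4 s k1]⟩
  by_cases hd : Good G r S d
  swap
  · obtain ⟨e3, e4⟩ := bad c d hcd h2 hd
    obtain ⟨s, k1, k2⟩ := mixed hc hr hH c hab h1 hb
    exact ⟨s, k1, by rw [e4 s k1]; exact k2.symm⟩
  wlog h3 : G.dist r d ≤ G.dist r b generalizing a b c d
  · obtain ⟨s, h, h'⟩ := this c d hcd h2 a b hab hne.symm h1 hd hb (by omega)
    exact ⟨s, h, h'.symm⟩
  rcases h3.lt_or_eq with h3 | h3
  · obtain ⟨s, k1, k2⟩ := hb
    rw [below_iff] at k2
    have := tri hc r c s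
    have := tri hc r d s
    exact ⟨s, k1, by omega⟩
  have hor : ∀ a b c d, G.Adj a b → G.Adj c d → s(a, b) ≠ s(c, d) → G.dist r a = G.dist r b →
      G.dist r c ≤ G.dist r a → G.dist r d ≤ G.dist r a →
      ∃ s ∈ S, min (G.dist s a) (G.dist s b) ≠ min (G.dist s c) (G.dist s d) := by
    intro a b c d hab hcd hne e1 e2 e3
    by_cases ha : a ∈ S
    · exact edge_hor hc r hH hab hcd hne e1 e2 e3 ha
    · have := edge_hor hc r hH hab.symm hcd (by rwa [Sym2.eq_swap (a := b)]) e1.symm (by omega)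
        (by omega) (hH b a hab.symm e1.symm ha).1
      simpa only [min_comm (G.dist _ b)] using this
  rcases h1.lt_or_eq with h1 | h1
  swap
  · exact hor a b c d hab hcd hne h1 (by omega) (by omega)
  rcases h2.lt_or_eq with h2 | h2
  swap
  · obtain ⟨s, h, h'⟩ := hor c d a b hcd hab hne.symm h2 (by omega) (by omega)
    exact ⟨s, h, h'.symm⟩
  have e1 := adj_le hc r hab
  have e2 := adj_le hc r hcd
  by_cases hbd : b = d
  · subst hbd
    have hac : a ≠ c := by rintro rfl; exact hne rfl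
    rcases hU b a c hab.symm hcd.symm (by omega) (by omega) hac with h | h
    · exact ⟨a, h, zero_sep hc hac hab.ne⟩
    · exact ⟨c, h, (zero_sep hc hac.symm hcd.ne).symm⟩
  · obtain ⟨s, k1, k2⟩ := sep2 hc r hU hbd h3.symm hb
    rw [below_iff, below_iff] at k2
    have := tri hc r a s
    have := tri hc r b s
    have := tri hc r c s
    have := tri hc r d s
    exact ⟨s, k1, by omega⟩

lemma HorOK.insert {r : V} {S : Set V} (hH : HorOK G r S) (t : V) : HorOK G r (insert t S) := by
  intro a b h1 h2 h3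
  obtain ⟨k1, k2, s, k3, k4⟩ := hH a b h1 h2 fun k => h3 (Or.inr k)
  exact ⟨Or.inr k1, fun z a1 a2 a3 => Or.inr (k2 z a1 a2 a3), s, Or.inr k3, k4⟩

end Pool.Agent.H27.MetDim
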