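import Mathlib
import Pool.Agent.H27.MetDim3

set_option autoImplicit false

namespace Pool.Agent.H27.MetDim

open Finset SimpleGraph

variable {V : Type} {G : SimpleGraph V}

lemma core [Fintype V] [DecidableEq V] [DecidableRel G.Adj]
    (h : Fintype.card V + 1 ≤ G.edgeFinset.card) :
    ∃ K : Finset V, (∀ v ∈ K, 2 ≤ (K.filter (G.Adj v)).card) ∧
      ∃ v ∈ K, 3 ≤ (K.filter (G.Adj v)).card := by
  obtain ⟨K, hK, hmin⟩ := Set.exists_min_image
    {K : Finset V | 2 * K.card + 2 ≤ ∑ v ∈ K, (K.filter (G.Adj v)).card} Finset.card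
    (Set.toFinite _) ⟨univ, by
      have e1 := G.sum_degrees_eq_twice_card_edges
      have e2 : ∀ v, (univ.filter (G.Adj v)).card = G.degree v := fun v => by
        rw [← card_neighborFinset_eq_degree, neighborFinset_eq_filter]
      simp only [Set.mem_setOf_eq, e2, e1, card_univ]
      omega⟩
  rw [Set.mem_setOf_eq] at hK
  refine ⟨K, fun v hv => ?_, ?_⟩
  · by_contra hlt
    have e1 : ∀ w ∈ K.erase v, (K.filter (G.Adj w)).card =
        ((K.erase v).filter (G.Adj w)).card + if G.Adj v w then 1 else 0 := by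
      intro w _
      rw [filter_erase]
      split_ifs with h
      · rw [card_erase_add_one (mem_filter.mpr ⟨hv, h.symm⟩)]
      · rw [erase_eq_of_notMem (fun k => h (mem_filter.mp k).2.symm), add_zero]
    have e2 := add_sum_erase K (fun w => (K.filter (G.Adj w)).card) hv
    rw [sum_congr rfl e1, sum_add_distrib, ← card_filter] at e2
    have e5 : ((K.erase v).filter fun i => G.Adj v i).card =
      ((K.erase v).filter (G.Adj v)).card := rfl
    have e3 : ((K.erase v).filter (G.Adj v)).card ≤ (K.filter (G.Adj v)).card :=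
      card_le_card (filter_subset_filter _ (erase_subset _ _))
    have e4 := card_erase_add_one hv
    have := hmin (K.erase v) (by rw [Set.mem_setOf_eq]; omega)
    omega
  · by_contra hcon
    push Not at hcon
    have := sum_le_card_nsmul K _ 2 fun v hv => Nat.lt_succ_iff.mp (hcon v hv)
    rw [smul_eq_mul] at this
    omega

/-- `b` has two neighbours that are not further from the root -/
def Two (G : SimpleGraph V) (r b : V) : Prop :=
  ∃ x y, G.Adj b x ∧ G.Adj b y ∧ G.dist r x ≤ G.dist r b ∧ G.dist r y ≤ G.dist r b ∧ x ≠ y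

lemma two_below [Fintype V] [DecidableEq V] [DecidableRel G.Adj] (hc : G.Connected) (r : V)
    {K : Finset V} (hK : ∀ v ∈ K, 2 ≤ (K.filter (G.Adj v)).card) {b z : V} (hz : z ∈ K)
    (hzb : z ≠ b) (h : Below G r b z) : ∃ w, w ≠ b ∧ Below G r b w ∧ Two G r w := by
  obtain ⟨w, ⟨h1, h2⟩, hmax⟩ := Set.exists_max_image {w | w ∈ K ∧ Below G r b w} (G.dist r)
    (Set.toFinite _) ⟨z, hz, h⟩
  have key : ∀ x ∈ K.filter (G.Adj w), G.dist r x ≤ G.dist r w := by
    intro x hx
    rw [mem_filter] at hx
    by_contra hlt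
    have a1 := adj_le hc r hx.2
    have a2 := adj_le hc b hx.2
    have a3 := hc.dist_triangle (u := r) (v := b) (w := x)
    have := hmax x ⟨hx.1, by unfold Below at *; omega⟩
    omega
  obtain ⟨x, hx, y, hy, hxy⟩ := Finset.one_lt_card.mp (hK w h1)
  refine ⟨w, ?_, h2, x, y, (mem_filter.mp hx).2, (mem_filter.mp hy).2, key x hx, key y hy, hxy⟩
  rintro rfl
  have := hmax z ⟨hz, h⟩
  have := hc.pos_dist_of_ne hzb.symm
  unfold Below at h
  omega

lemma root2 [Fintype V] [DecidableEq V] [DecidableRel G.Adj] (hc : G.Connected)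
    (h : Fintype.card V + 1 ≤ G.edgeFinset.card) :
    ∃ r b, r ≠ b ∧ Two G r b ∧ (3 ≤ (up G r b).card + (hor G r b).card ∨
      ∃ w, w ≠ b ∧ Below G r b w ∧ Two G r w) := by
  obtain ⟨K, hK, r, hrK, hr⟩ := core h
  let R : ℕ → V → V → Prop := fun k => Relation.ReflTransGen
    (fun u v => G.Adj u v ∧ k ≤ G.dist r u ∧ k ≤ G.dist r v)
  have mono : ∀ k y z, R (k + 1) y z → R k y z := by
    intro k y z h
    induction h with
    | refl => exact .refl
    | tail _ h ih => exact .tail ih ⟨h.1, by omega, by omega⟩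
  have ex : ∃ k, ∃ y z, y ≠ z ∧ G.dist r y = k ∧ G.dist r z = k ∧ R k y z := by
    obtain ⟨z, hz⟩ := card_pos.mp (show 0 < (K.filter (G.Adj r)).card by omega)
    rw [mem_filter] at hz
    obtain ⟨w, -, -, y, z, hy, hz, a1, a2, hyz⟩ := two_below hc r hK hz.1 hz.2.ne' (by simp [Below])
    have a3 := adj_le hc r hy.symm
    have a4 := adj_le hc r hz.symm
    by_cases e1 : G.dist r y = G.dist r w
    · exact ⟨_, w, y, hy.ne, rfl, e1, .single ⟨hy, le_rfl, by omega⟩⟩
    by_cases e2 : G.dist r z = G.dist r w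
    · exact ⟨_, w, z, hz.ne, rfl, e2, .single ⟨hz, le_rfl, by omega⟩⟩
    exact ⟨_, y, z, hyz, rfl, by omega,
      .tail (.single ⟨hy.symm, le_rfl, by omega⟩) ⟨hz, by omega, by omega⟩⟩
  classical
  obtain ⟨y, z, hyz, e1, e2, hR⟩ := Nat.find_spec ex
  have hmin := fun k => Nat.find_min ex (m := k)
  generalize Nat.find ex = k at *
  have hry : r ≠ y := by
    rintro rfl
    have := hc.pos_dist_of_ne hyz
    rw [dist_self] at e1; omega
  obtain ⟨b, hb, hb'⟩ := step hc hry
  obtain ⟨k, rfl⟩ : ∃ j, k = j + 1 := ⟨k - 1, by omega⟩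
  have thru : ∀ j t, G.dist r t = k + 1 + j → R (k + 1) y t →
      G.dist r t = G.dist r b + G.dist b t := by
    intro j
    induction j with
    | zero =>
      intro t h1 h2
      obtain ⟨c, hc1, hc'⟩ := step hc (u := r) (w := t) (by rintro rfl; simp at h1)
      have hbc : b = c := by
        by_contra hbc
        refine hmin k (by omega) ⟨b, c, hbc, by omega, by omega, ?_⟩
        exact .tail (.head ⟨hb.symm, by omega, by omega⟩ (mono k y t h2)) ⟨hc1, by omega, by omega⟩
      subst hbc
      rw [dist_eq_one_iff_adj.mpr hc1.symm]; omega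
    | succ j ih =>
      intro t h1 h2
      obtain ⟨c, hc1, hc'⟩ := step hc (u := r) (w := t) (by rintro rfl; simp at h1)
      have := ih c (by omega) (.tail h2 ⟨hc1, by omega, by omega⟩)
      have := adj_le hc b hc1.symm
      have := hc.dist_triangle (u := r) (v := b) (w := t)
      omega
  have hz : G.Adj b z := by
    have := thru 0 z e2 hR
    exact dist_eq_one_iff_adj.mp (by omega)
  have lev : ∀ t, R (k + 1) y t → k + 1 ≤ G.dist r t := by
    intro t ht
    induction ht with
    | refl => omega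
    | tail _ h _ => exact h.2.2
  obtain ⟨t, ht, hT⟩ : ∃ t, R (k + 1) y t ∧ Two G t b := by
    by_contra hcon
    have H : ∀ t, R (k + 1) y t → ∀ x y, G.Adj b x → G.Adj b y → G.dist t x ≤ G.dist t b →
        G.dist t y ≤ G.dist t b → x = y := fun t ht x y a1 a2 a3 a4 => by
      by_contra k
      exact hcon ⟨t, ht, x, y, a1, a2, a3, a4, k⟩
    have key : ∀ t, R (k + 1) y t → G.dist t y ≤ G.dist t b := by
      intro t ht
      induction ht with
      | refl => simp
      | @tail u v hu h ih =>
        have h1 : u ≠ b := by rintro rfl; omega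
        have h2 : v ≠ b := by rintro rfl; omega
        obtain ⟨x, hx, hx'⟩ := step hc h1
        obtain ⟨x', hz, hz'⟩ := step hc h2
        have e := H u hu x y hx hb.symm (by omega) ih
        subst e
        have a1 := adj_le hc x h.1
        have a2 := adj_le hc x' h.1.symm
        rw [dist_comm (u := x), dist_comm (u := x)] at a1
        rw [dist_comm (u := x'), dist_comm (u := x')] at a2
        by_cases hh : G.dist u b ≤ G.dist v b
        · omega
        · have e := H u hu x' x hz hb.symm (by omega) ih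
          subst e
          omega
    exact hyz (H z hR y z hb.symm hz (key z hR) (by simp))
  have l1 := lev t ht
  refine ⟨t, b, by rintro rfl; omega, hT, ?_⟩
  by_cases hrb : r = b
  · subst hrb
    by_cases hall : ∀ x ∈ K.filter (G.Adj r), G.dist t x ≤ G.dist t r
    · left
      refine hr.trans ((card_le_card fun x hx => ?_).trans (card_union_le _ _))
      have := hall x hx
      have h1 := (mem_filter.mp hx).2
      have := adj_le hc t h1.symm
      simp only [up, hor, mem_union, mem_filter, mem_univ, true_and, h1]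
      omega
    · push Not at hall
      obtain ⟨x, hx, hx'⟩ := hall
      rw [mem_filter] at hx
      have := adj_le hc t hx.2
      exact Or.inr (two_below hc t hK hx.1 hx.2.ne' (by
        unfold Below; rw [dist_eq_one_iff_adj.mpr hx.2]; omega))
  · refine Or.inr (two_below hc t hK hrK hrb ?_)
    have := thru (G.dist r t - (k + 1)) t (by omega) ht
    unfold Below
    have := dist_comm (G := G) (u := t) (v := b)
    have := dist_comm (G := G) (u := b) (v := r)
    have := dist_comm (G := G) (u := t) (v := r)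
    omega

/-- the leaves ending a leg at `v` -/
def legs [Fintype V] [DecidableRel G.Adj] (v : V) : Set V :=
  {u : V | G.degree u = 1 ∧ ∃ p : G.Walk v u, p.IsPath ∧
    ∀ w ∈ p.support, w ≠ v → w ≠ u → G.degree w = 2}

lemma leg_of_bad [Fintype V] [DecidableEq V] [DecidableRel G.Adj] (hc : G.Connected) {r : V}
    {S : Set V} (hr : r ∈ S)
    (h1 : ∀ u, ¬ Good G r S u → (up G r u).card + (hor G r u).card ≤ 1) {k : ℕ}
    (h2 : ∀ w x y, k < G.dist r w → ¬ Good G r S x → ¬ Good G r S y → G.Adj w x → G.Adj w y →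
      G.dist r w + 1 = G.dist r x → G.dist r w + 1 = G.dist r y → x = y) (u : V) :
    ¬ Good G r S u → ∀ w, k ≤ G.dist r w → G.Adj w u → G.dist r w + 1 = G.dist r u →
      ∃ l, Below G r u l ∧ G.degree l = 1 ∧ ∃ p : G.Walk w l,
        G.dist r w + p.length = G.dist r l ∧ ∀ x ∈ p.support, x ≠ w → x ≠ l → G.degree x = 2 := by
  by_contra hcon
  obtain ⟨u, hu, hmax⟩ := Set.exists_max_image {u | ¬ (¬ Good G r S u → ∀ w, k ≤ G.dist r w →
    G.Adj w u → G.dist r w + 1 = G.dist r u →
      ∃ l, Below G r u l ∧ G.degree l = 1 ∧ ∃ p : G.Walk w l, G.dist r w + p.length = G.dist r l ∧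
        ∀ x ∈ p.support, x ≠ w → x ≠ l → G.degree x = 2)} (G.dist r) (Set.toFinite _) ⟨u, hcon⟩
  refine hu fun hb w hk hw hl => ?_
  have e := deg_eq hc r u
  have e1 := h1 u hb
  have e2 : 0 < (up G r u).card := card_pos.mpr ⟨w, by simp [up, hw.symm, hl]⟩
  rcases (down G r u).eq_empty_or_nonempty with h | ⟨v, hv⟩
  · rw [h, card_empty] at e
    refine ⟨u, by simp [Below], by omega, .cons hw .nil, by simpa using hl, ?_⟩
    intro x hx a1 a2
    simp [a1, a2] at hx
  · have bad : ∀ v ∈ down G r u, ¬ Good G r S v := fun v hv k => by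
      simp only [down, mem_filter, mem_univ, true_and] at hv
      exact hb (k.up hc hv.1 hv.2)
    have e3 : (down G r u).card ≤ 1 := card_le_one.mpr fun x hx y hy => by
      have a1 := bad x hx
      have a2 := bad y hy
      simp only [down, mem_filter, mem_univ, true_and] at hx hy
      exact h2 u x y (by omega) a1 a2 hx.1 hy.1 hx.2 hy.2
    have e4 := card_pos.mpr ⟨v, hv⟩
    have a1 := bad v hv
    simp only [down, mem_filter, mem_univ, true_and] at hv
    obtain ⟨l, b1, b2, p, b3, b4⟩ := not_not.mp (fun k => by have := hmax v k; omega :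
      ¬ ¬ (¬ Good G r S v → ∀ w, k ≤ G.dist r w → G.Adj w v → G.dist r w + 1 = G.dist r v →
      ∃ l, Below G r v l ∧ G.degree l = 1 ∧ ∃ p : G.Walk w l, G.dist r w + p.length = G.dist r l ∧
        ∀ x ∈ p.support, x ≠ w → x ≠ l → G.degree x = 2)) a1 u (by omega) hv.1 hv.2
    refine ⟨l, ?_, b2, .cons hw p, by rw [Walk.length_cons]; omega, ?_⟩
    · have := dist_le p
      have := hc.dist_triangle (u := r) (v := u) (w := l)
      unfold Below; omega
    · intro x hx a1 a2
      rw [Walk.support_cons, List.mem_cons] at hx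
      by_cases hxu : x = u
      · rw [hxu]; omega
      · exact b4 x (hx.resolve_left a1) hxu a2

theorem main2 [Fintype V] [DecidableEq V] [DecidableRel G.Adj] (hc : G.Connected)
    (h : Fintype.card V + 1 ≤ G.edgeFinset.card) :
    ∃ r, ∃ S : Finset V, S.card + 2 * Fintype.card V ≤ 2 * G.edgeFinset.card + 2 +
      ∑ v ∈ univ.filter (fun v => 3 ≤ G.degree v), ((legs (G := G) v).ncard - 1) ∧
      r ∈ (S : Set V) ∧ UpOK G r S ∧ HorOK G r S ∧ BadOK G r S := by
  classical
  obtain ⟨r, b, hrb, hT, hb⟩ := root2 hc h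
  have two : ∀ v, Two G r v → 2 ≤ (up G r v).card + (hor G r v).card := by
    rintro b ⟨x, y, hx, hy, hx', hy', hxy⟩
    rw [← card_union_of_disjoint]
    · have := adj_le hc r hx.symm
      have := adj_le hc r hy.symm
      refine Finset.one_lt_card.mpr ⟨x, ?_, y, ?_, hxy⟩ <;> simp [up, hor, *] <;> omega
    · simp only [Finset.disjoint_left, up, hor, mem_filter, mem_univ, true_and]
      omega
  have hph := two b hT
  let A : Prop := (up G r b).card + (hor G r b).card = 2
  have hup := (up_pos hc hrb).card_pos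
  obtain ⟨a, ha⟩ : ∃ a, A → ∀ c ∈ hor G r b, c = a := by
    by_cases h : A
    · have : Nonempty V := ⟨r⟩
      obtain ⟨a, ha⟩ := card_le_one_iff_subset_singleton.mp
        (show (hor G r b).card ≤ 1 by simp only [A] at h; omega)
      exact ⟨a, fun _ c hc => mem_singleton.mp (ha hc)⟩
    · exact ⟨r, fun k => absurd k h⟩
  obtain ⟨U, hU1, hU2, hU3⟩ := exists_U (G := G) r a
  let T : Finset V := univ.filter fun v =>
    2 ≤ (up G r v).card + (hor G r v).card ∧ ¬ (v = b ∧ A)
  have hr0 : (up G r r).card + (hor G r r).card = 0 := by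
    have : hor G r r = ∅ := by
      simp only [hor, filter_eq_empty_iff, mem_univ, true_imp_iff, not_and, dist_self]
      exact fun x hx k => hx.ne (hc.dist_eq_zero_iff.mp k)
    simp [up, this]
  have hT : T.card < ∑ v, ((up G r v).card - 1 + (hor G r v).card) := by
    rw [card_filter]
    refine sum_lt_sum (fun v _ => ?_) ⟨b, mem_univ _, ?_⟩
    · split_ifs with h
      · by_cases hv : r = v
        · subst hv; omega
        · have := (up_pos hc hv).card_pos
          omega
      · omega
    · split_ifs with h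
      · simp only [A, true_and] at h
        omega
      · omega
  have : ∀ v, ∃ F : Finset V, F.card ≤ (legs (G := G) v).ncard - 1 ∧
      ∀ x ∈ legs (G := G) v, ∀ y ∈ legs (G := G) v, x ≠ y → x ∈ F ∨ y ∈ F := by
    intro v
    rcases (legs (G := G) v).eq_empty_or_nonempty with h | ⟨o, ho⟩
    · exact ⟨∅, by simp, by simp [h]⟩
    · refine ⟨(legs (G := G) v).toFinset.erase o, ?_, fun x hx y hy hxy => ?_⟩
      · rw [card_erase_of_mem (by simpa using ho), Set.ncard_eq_toFinset_card']
      · by_cases h : x = o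
        · exact Or.inr (by simp [hy, ← h, hxy.symm])
        · exact Or.inl (by simp [hx, h])
  choose F hF1 hF2 using this
  let L := (univ.filter fun v => 3 ≤ G.degree v).biUnion F
  have hL : L.card ≤ ∑ v ∈ univ.filter (fun v => 3 ≤ G.degree v), ((legs (G := G) v).ncard - 1) :=
    card_biUnion_le.trans (sum_le_sum fun v _ => hF1 v)
  let S : Finset V := insert r (U ∪ T ∪ L)
  have hTS : ∀ v, 2 ≤ (up G r v).card + (hor G r v).card → ¬ (v = b ∧ A) → v ∈ (S : Set V) :=
    fun v h1 h2 => by simp only [S, T, coe_insert, coe_union, Set.mem_insert_iff, Set.mem_union,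
      mem_coe, mem_filter, mem_univ, true_and]; tauto
  have hUS : ∀ v ∈ U, v ∈ (S : Set V) := fun v hv => by simp [S, hv]
  have hw : A → ∃ w ∈ (S : Set V), Below G r b w := by
    intro hA
    obtain ⟨w, a1, a2, a3⟩ := hb.resolve_left (by simp only [A] at hA; omega)
    exact ⟨w, hTS w (two w a3) fun k => a1 k.1, a2⟩
  have hhor : ∀ v w, G.Adj v w → G.dist r v = G.dist r w → ¬ (w = b ∧ A) → w ∈ (S : Set V) := by
    intro v w h1 h2 h3
    refine hTS w ?_ h3
    have : 0 < (hor G r w).card := card_pos.mpr ⟨v, by simp [hor, h1.symm, h2]⟩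
    by_cases hv : r = w
    · subst hv; omega
    · have := (up_pos hc hv).card_pos
      omega
  have hUp : UpOK G r S := fun w x y a1 a2 a3 a4 a5 =>
    (hU2 w x y a1 a2 a3 a4 a5).imp (hUS x) (hUS y)
  have bad1 : ∀ u, ¬ Good G r S u → (up G r u).card + (hor G r u).card ≤ 1 := by
    intro u hu
    by_contra k
    by_cases h3 : u = b ∧ A
    · exact hu (h3.1 ▸ hw h3.2)
    · exact hu ⟨u, hTS u (by omega) h3, by simp [Below]⟩
  have hrS : r ∈ (S : Set V) := by simp [S]
  have gb : Good G r S b := by
    by_contra k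
    have := bad1 b k
    omega
  refine ⟨r, S, ?_, hrS, hUp, ?_, ?_, ?_⟩
  · have e1 := G.sum_degrees_eq_twice_card_edges
    have e2 := sum_congr (s₁ := univ) rfl fun v _ => deg_eq hc r v
    have e3 := sum_down (G := G) r
    have e4 := sum_up hc r
    have e5 := card_union_le U T
    have e6 := card_union_le (U ∪ T) L
    have e7 : S.card ≤ _ := card_insert_le r (U ∪ T ∪ L)
    simp only [sum_add_distrib] at e2 hT
    omega
  · intro c d h1 h4 h5
    have hd : d = b ∧ A := by
      by_contra h
      exact h5 (hhor c d h1 h4 h)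
    obtain ⟨rfl, hA⟩ := hd
    have hca : c = a := ha hA c (by simp [hor, h1.symm, h4])
    subst hca
    refine ⟨hhor d c h1.symm h4.symm fun h => h1.ne h.1, fun z k1 k2 k3 => hhor c z k1 k2
      fun h => k3 h.1, ?_⟩
    obtain ⟨s, k1, k2⟩ := hw hA
    by_cases k3 : Below G r c s
    · obtain ⟨w, x, y, a1, a2, a3, a4, a5, a6, a7, a8⟩ := meet hc r h1.ne h4 k3 k2
      exact ⟨y, hUS y (hU3 w x y (by simp [up, a1, a3]) (by simp [up, a2, a4]) a5 a8), a7, a8⟩
    · exact ⟨s, k1, k2, k3⟩
  · intro u x y hu a1 a2 a3 a4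
    have := bad1 u hu
    exact card_le_one.mp (show (up G r u).card ≤ 1 by omega) x (by simp [up, a1, a3]) y
      (by simp [up, a2, a4])
  · intro w
    by_contra hcon
    obtain ⟨w, hw, hmax⟩ := Set.exists_max_image {w | ¬ ∀ x y, ¬ Good G r S x → ¬ Good G r S y →
      G.Adj w x → G.Adj w y → G.dist r w + 1 = G.dist r x → G.dist r w + 1 = G.dist r y → x = y}
      (G.dist r) (Set.toFinite _) ⟨w, hcon⟩
    refine hw fun x y hx hy a1 a2 a3 a4 => ?_
    by_contra hxy
    have h2 : ∀ w' x y, G.dist r w < G.dist r w' → ¬ Good G r S x → ¬ Good G r S y →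
        G.Adj w' x → G.Adj w' y → G.dist r w' + 1 = G.dist r x → G.dist r w' + 1 = G.dist r y →
        x = y := fun w' x y k => by
      by_contra k'
      have := hmax w' fun k'' => k' (k'' x y)
      omega
    obtain ⟨l, b1, b2, p, b3, b4⟩ := leg_of_bad hc hrS bad1 h2 x hx w le_rfl a1 a3
    obtain ⟨l', c1, c2, p', c3, c4⟩ := leg_of_bad hc hrS bad1 h2 y hy w le_rfl a2 a4
    have hl : l ≠ l' := by
      rintro rfl
      obtain ⟨w', x', y', d1, d2, d3, d4, d5, d6, d7, d8⟩ := meet hc r hxy (by omega) b1 c1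
      rcases hUp w' x' y' d1 d2 d3 d4 (by rintro rfl; exact d6 d7) with k | k
      · exact hx ⟨x', k, d5⟩
      · exact hy ⟨y', k, d7⟩
    have path : ∀ l (p : G.Walk w l), G.dist r w + p.length = G.dist r l → p.IsPath := by
      intro l p hp
      have := dist_le p
      have := hc.dist_triangle (u := r) (v := w) (w := l)
      exact p.isPath_of_length_eq_dist (by omega)
    have hdeg : 3 ≤ G.degree w := by
      obtain ⟨z, hz, hzx, hzy⟩ : ∃ z, G.Adj w z ∧ z ≠ x ∧ z ≠ y := by
        by_cases hrw : r = w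
        · subst hrw
          obtain ⟨z, hz, hz'⟩ := step hc hrb.symm
          obtain ⟨s, k1, k2⟩ := gb
          have g : Good G r S z := by
            refine ⟨s, k1, ?_⟩
            have := hc.dist_triangle (u := z) (v := b) (w := s)
            have := hc.dist_triangle (u := r) (v := z) (w := s)
            unfold Below at *
            rw [dist_eq_one_iff_adj.mpr hz] at *
            rw [dist_comm (u := b), dist_comm (u := b)] at hz'
            omega
          exact ⟨z, hz, fun k => hx (k ▸ g), fun k => hy (k ▸ g)⟩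
        · obtain ⟨z, hz, hz'⟩ := step hc hrw
          exact ⟨z, hz, by rintro rfl; omega, by rintro rfl; omega⟩
      exact Finset.two_lt_card_iff.mpr ⟨z, x, y, by simpa using hz, by simpa using a1,
        by simpa using a2, hzx, hzy, hxy⟩
    have hLS : ∀ v ∈ F w, v ∈ (S : Set V) := fun v hv => by
      have : v ∈ L := mem_biUnion.mpr ⟨w, by simpa using hdeg, hv⟩
      simp [S, this]
    rcases hF2 w l ⟨b2, p, path l p b3, b4⟩ l' ⟨c2, p', path l' p' c3, c4⟩ hl with k | k
    · exact hx ⟨l, hLS l k, b1⟩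
    · exact hy ⟨l', hLS l' k, c1⟩

end Pool.Agent.H27.MetDim
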