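import Mathlib

namespace Pool.Agent.H27.Mihok

def P {V : Type} (t : Bool) (G : SimpleGraph V) (S : Set V) : Prop :=
  ∃ f : V → Fin 3, Set.InjOn f S ∧ (t = true → ∀ a ∈ S, f a ≠ 2) ∧
    (t = false → ∀ a ∈ S, ∀ b ∈ S, ¬ G.Adj a b)

def CS {V : Type} (G : SimpleGraph V) (S : Set V) : Prop := ∃ t, P t G S

def ES {V : Type} (G : SimpleGraph V) (S : Set V) : Prop :=
  ∃ t, ∃ T : Set V, P t G (S ∩ T) ∧ P t G (S \ T)

def Pull {V W : Type} (G' : SimpleGraph V) (S' : Set V) (G : SimpleGraph W) (S : Set W) : Prop :=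
  ∃ φ : S' → W, Function.Injective φ ∧ (∀ x, φ x ∈ S) ∧
    ∀ x y : S', G'.Adj x.1 y.1 → G.Adj (φ x) (φ y)

lemma P_pull {V W : Type} {t : Bool} {G' : SimpleGraph V} {S' : Set V} {G : SimpleGraph W}
    {S : Set W} (hp : Pull G' S' G S) (h : P t G S) : P t G' S' := by
  classical
  obtain ⟨φ, hi, hm, ha⟩ := hp
  obtain ⟨f, f1, f2, f3⟩ := h
  refine ⟨fun v => if h : v ∈ S' then f (φ ⟨v, h⟩) else 0, ?_, ?_, ?_⟩
  · intro a ha' b hb' e
    simp only [dif_pos ha', dif_pos hb'] at e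
    exact congrArg Subtype.val (hi (f1 (hm _) (hm _) e))
  · intro ht a ha'
    simp only [dif_pos ha']
    exact f2 ht _ (hm _)
  · intro ht a ha' b hb' hab
    exact f3 ht _ (hm ⟨a, ha'⟩) _ (hm ⟨b, hb'⟩) (ha ⟨a, ha'⟩ ⟨b, hb'⟩ hab)

lemma P_mono {V : Type} {t : Bool} {G : SimpleGraph V} {S S' : Set V} (hs : S' ⊆ S)
    (h : P t G S) : P t G S' :=
  P_pull ⟨Subtype.val, Subtype.val_injective, fun x => hs x.2, fun _ _ h => h⟩ h

lemma CS_pull {V W : Type} {G' : SimpleGraph V} {S' : Set V} {G : SimpleGraph W}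
    {S : Set W} (hp : Pull G' S' G S) (h : CS G S) : CS G' S' := by
  obtain ⟨t, h⟩ := h
  exact ⟨t, P_pull hp h⟩

lemma ES_pull {V W : Type} {G' : SimpleGraph V} {S' : Set V} {G : SimpleGraph W}
    {S : Set W} (hp : Pull G' S' G S) (h : ES G S) : ES G' S' := by
  obtain ⟨t, T, h1, h2⟩ := h
  obtain ⟨φ, hi, hm, ha⟩ := hp
  refine ⟨t, {v | ∃ h : v ∈ S', φ ⟨v, h⟩ ∈ T}, P_pull ?_ h1, P_pull ?_ h2⟩
  · refine ⟨fun x => φ ⟨x.1, x.2.1⟩, fun x y e => Subtype.ext (congrArg Subtype.val (hi e) :), ?_,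
      fun x y h => ha ⟨x.1, x.2.1⟩ ⟨y.1, y.2.1⟩ h⟩
    intro x
    obtain ⟨_, h⟩ := x.2.2
    exact ⟨hm _, h⟩
  · refine ⟨fun x => φ ⟨x.1, x.2.1⟩, fun x y e => Subtype.ext (congrArg Subtype.val (hi e) :), ?_,
      fun x y h => ha ⟨x.1, x.2.1⟩ ⟨y.1, y.2.1⟩ h⟩
    intro x
    exact ⟨hm _, fun h => x.2.2 ⟨x.2.1, h⟩⟩

abbrev Prp : Type := (n : ℕ) → SimpleGraph (Fin n) → Prop

def Her (A : Prp) : Prop :=
  ∀ (a b : ℕ) (G : SimpleGraph (Fin a)) (H : SimpleGraph (Fin b)) (f : H →g G),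
    Function.Injective f → A a G → A b H

def Ind (A : Prp) {n : ℕ} (G : SimpleGraph (Fin n)) (S : Set (Fin n)) : Prop :=
  ∃ (r : ℕ) (K : SimpleGraph (Fin r)), A r K ∧ Nonempty (G.induce S ≃g K)

lemma ex_iso {n : ℕ} (G : SimpleGraph (Fin n)) (S : Set (Fin n)) :
    ∃ (r : ℕ) (K : SimpleGraph (Fin r)), Nonempty (G.induce S ≃g K) := by
  classical
  exact ⟨Fintype.card S, (G.induce S).comap (Fintype.equivFin S).symm,
    ⟨(SimpleGraph.Iso.comap (Fintype.equivFin S).symm (G.induce S)).symm⟩⟩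

lemma Ind_pull {A : Prp} (hA : Her A) {m n : ℕ} {G' : SimpleGraph (Fin m)} {S' : Set (Fin m)}
    {G : SimpleGraph (Fin n)} {S : Set (Fin n)} (hp : Pull G' S' G S) (h : Ind A G S) :
    Ind A G' S' := by
  obtain ⟨r, K, hK, ⟨e⟩⟩ := h
  obtain ⟨r', K', ⟨e'⟩⟩ := ex_iso G' S'
  obtain ⟨φ, hi, hm, ha⟩ := hp
  refine ⟨r', K', hA r r' K K' ⟨fun x => e ⟨φ (e'.symm x), hm _⟩, ?_⟩ ?_ hK, ⟨e'⟩⟩
  · intro x y hxy
    exact e.map_rel_iff.2 (ha _ _ (e'.symm.map_rel_iff.2 hxy))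
  · intro x y hxy
    exact e'.symm.injective (hi (congrArg Subtype.val (e.injective hxy) :))

lemma Ind_one {A : Prp} (h : A 1 ⊥) : Ind A (⊥ : SimpleGraph (Fin 1)) Set.univ :=
  ⟨1, ⊥, h, ⟨SimpleGraph.induceUnivIso _⟩⟩

lemma bridge (X : ∀ {V : Type}, SimpleGraph V → Set V → Prop)
    (hX : ∀ {V W : Type} {G' : SimpleGraph V} {S' : Set V} {G : SimpleGraph W} {S : Set W},
      Pull G' S' G S → X G S → X G' S') {n : ℕ} (G : SimpleGraph (Fin n)) (S : Set (Fin n)) :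
    Ind (fun _ K => X K Set.univ) G S ↔ X G S := by
  constructor
  · rintro ⟨r, K, hK, ⟨e⟩⟩
    exact hX ⟨e, e.injective, fun _ => Set.mem_univ _, fun x y h => e.map_rel_iff.2 h⟩ hK
  · intro h
    obtain ⟨r, K, ⟨e⟩⟩ := ex_iso G S
    refine ⟨r, K, hX ⟨fun x => (e.symm x.1).1, ?_, fun x => (e.symm x.1).2, ?_⟩ h, ⟨e⟩⟩
    · intro x y hxy
      exact Subtype.ext (e.symm.injective (Subtype.ext hxy))
    · intro x y hxy
      exact e.symm.map_rel_iff.2 hxy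

lemma her (X : ∀ {V : Type}, SimpleGraph V → Set V → Prop)
    (hX : ∀ {V W : Type} {G' : SimpleGraph V} {S' : Set V} {G : SimpleGraph W} {S : Set W},
      Pull G' S' G S → X G S → X G' S') : Her (fun _ K => X K Set.univ) := by
  intro a b G H f hf h
  exact hX ⟨fun x => f x.1, fun x y e => Subtype.ext (hf e), fun _ => Set.mem_univ _,
    fun x y h => f.map_rel h⟩ h

def Fac (X A B : Prp) : Prop :=
  ∀ (n : ℕ) (G : SimpleGraph (Fin n)), X n G ↔ ∃ S : Set (Fin n), Ind A G S ∧ Ind B G Sᶜ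

lemma Fac_symm {X A B : Prp} (h : Fac X A B) : Fac X B A := by
  intro n G
  rw [h n G]
  exact ⟨fun ⟨S, h1, h2⟩ => ⟨Sᶜ, h2, by rwa [compl_compl]⟩,
    fun ⟨S, h1, h2⟩ => ⟨Sᶜ, h2, by rwa [compl_compl]⟩⟩

lemma grow {X A B : Prp} (hA : Her A) (hB : Her B) (h : Fac X A B) (b1 : B 1 ⊥) {N : ℕ}
    {G : SimpleGraph (Fin N)} {S : Set (Fin N)} (hS : ∀ v, v ∈ S) (hG : Ind A G S) :
    X (N + 1) ⊥ := by
  refine (h (N + 1) ⊥).2 ⟨{v | v.val < N}, Ind_pull hA ⟨fun x => ⟨x.1.val, x.2⟩, ?_,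
    fun _ => hS _, fun _ _ h => h.elim⟩ hG, Ind_pull hB ⟨fun _ => 0, ?_,
    fun _ => Set.mem_univ _, fun _ _ h => h.elim⟩ (Ind_one b1)⟩
  · intro x y e
    exact Subtype.ext (Fin.ext (congrArg Fin.val e :))
  · intro x y _
    have h1 : ¬ x.1.val < N := x.2
    have h2 : ¬ y.1.val < N := y.2
    have h3 := x.1.isLt
    have h4 := y.1.isLt
    exact Subtype.ext (Fin.ext (by omega))

def joinG {n : ℕ} (G : SimpleGraph (Fin n)) (S : Set (Fin n)) : SimpleGraph (Fin n) where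
  Adj a b := G.Adj a b ∨ (a ∈ S ∧ b ∉ S) ∨ (a ∉ S ∧ b ∈ S)
  symm := ⟨fun _ _ h => h.elim (fun h => Or.inl h.symm)
    (fun h => Or.inr (h.elim (fun h => Or.inr ⟨h.2, h.1⟩) (fun h => Or.inl ⟨h.2, h.1⟩)))⟩
  loopless := ⟨fun _ h => h.elim (fun h => h.ne rfl)
    (fun h => h.elim (fun h => h.2 h.1) (fun h => h.1 h.2))⟩

lemma join_mem {X A B : Prp} (hA : Her A) (hB : Her B) (h : Fac X A B) {n : ℕ}
    {G : SimpleGraph (Fin n)} {S : Set (Fin n)} (h1 : Ind A G S) (h2 : Ind B G Sᶜ) :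
    X n (joinG G S) := by
  refine (h n _).2 ⟨S, Ind_pull hA ⟨Subtype.val, Subtype.val_injective, fun x => x.2, ?_⟩ h1,
    Ind_pull hB ⟨Subtype.val, Subtype.val_injective, fun x => x.2, ?_⟩ h2⟩
  · intro x y hxy
    rcases hxy with h | h | h
    · exact h
    · exact absurd y.2 h.2
    · exact absurd x.2 h.1
  · intro x y hxy
    rcases hxy with h | h | h
    · exact h
    · exact absurd h.1 x.2
    · exact absurd h.2 y.2

def CC : Prp := fun _ K => CS K Set.univ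

def EE : Prp := fun _ K => ES K Set.univ

lemma CC_le {n : ℕ} {G : SimpleGraph (Fin n)} (h : CC n G) : n ≤ 3 := by
  obtain ⟨_, f, hf, _⟩ := h
  simpa using Fintype.card_le_of_injective f (Set.injOn_univ.1 hf)

lemma CC_irr (A B : Prp) (hA : Her A) (hB : Her B) (a1 : A 1 ⊥) (b1 : B 1 ⊥) : ¬ Fac CC A B := by
  intro h
  have h3 : CC 3 ⊥ := ⟨false, id, Set.injOn_id _, (fun h => Bool.noConfusion h), fun _ _ _ _ _ h => h⟩
  obtain ⟨S, h1, h2⟩ := (h 3 ⊥).1 h3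
  by_cases c1 : ∀ v, v ∈ S
  · exact absurd (CC_le (grow hA hB h b1 c1 h1)) (by omega)
  by_cases c2 : ∀ v, v ∈ Sᶜ
  · exact absurd (CC_le (grow hB hA (Fac_symm h) a1 c2 h2)) (by omega)
  obtain ⟨b, hb⟩ := not_forall.1 c1
  obtain ⟨a, ha⟩ := not_forall.1 c2
  obtain ⟨t, f, f1, f2, f3⟩ := join_mem hA hB h h1 h2
  cases t
  · exact f3 rfl a (Set.mem_univ _) b (Set.mem_univ _)
      (Or.inr (Or.inl ⟨not_not.1 ha, hb⟩))
  · obtain ⟨x, hx⟩ := (Finite.injective_iff_surjective.1 (Set.injOn_univ.1 f1)) 2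
    exact f2 rfl x (Set.mem_univ _) hx

lemma EE_le {n : ℕ} {G : SimpleGraph (Fin n)} {t : Bool} {T : Set (Fin n)}
    (h1 : P t G (Set.univ ∩ T)) (h2 : P t G (Set.univ \ T)) : n ≤ 6 ∧ (t = true → n ≤ 4) := by
  classical
  obtain ⟨f, f1, f2, _⟩ := h1
  obtain ⟨g, g1, g2, _⟩ := h2
  have hinj : Function.Injective
      (fun v => if v ∈ T then ((true, f v) : Bool × Fin 3) else (false, g v)) := by
    intro a b e
    by_cases ha : a ∈ T <;> by_cases hb : b ∈ T <;> simp only [ha, hb, if_true, if_false] at e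
    · exact f1 ⟨Set.mem_univ _, ha⟩ ⟨Set.mem_univ _, hb⟩ (congrArg Prod.snd e)
    · exact absurd (congrArg Prod.fst e) (by simp)
    · exact absurd (congrArg Prod.fst e) (by simp)
    · exact g1 ⟨Set.mem_univ _, ha⟩ ⟨Set.mem_univ _, hb⟩ (congrArg Prod.snd e)
  refine ⟨by simpa using Fintype.card_le_of_injective _ hinj, fun ht => ?_⟩
  have hc : Fintype.card {x : Bool × Fin 3 // x.2 ≠ 2} = 4 := by decide
  have := Fintype.card_le_of_injective (β := {x : Bool × Fin 3 // x.2 ≠ 2})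
    (fun v => ⟨if v ∈ T then ((true, f v) : Bool × Fin 3) else (false, g v), by
      by_cases hv : v ∈ T
      · rw [if_pos hv]
        exact f2 ht v ⟨Set.mem_univ _, hv⟩
      · rw [if_neg hv]
        exact g2 ht v ⟨Set.mem_univ _, hv⟩⟩)
    (fun a b e => hinj (congrArg Subtype.val e :))
  rw [hc, Fintype.card_fin] at this
  exact this

lemma EE_indep {n : ℕ} {G : SimpleGraph (Fin n)} (h : EE n G) (hn : 4 < n) :
    ∃ T : Set (Fin n), ∀ a b, G.Adj a b → ¬ (a ∈ T ↔ b ∈ T) := by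
  obtain ⟨t, T, h1, h2⟩ := h
  cases t
  · obtain ⟨_, _, _, f3⟩ := h1
    obtain ⟨_, _, _, g3⟩ := h2
    refine ⟨T, fun a b hab e => ?_⟩
    by_cases ha : a ∈ T
    · exact f3 rfl a ⟨Set.mem_univ _, ha⟩ b ⟨Set.mem_univ _, e.1 ha⟩ hab
    · exact g3 rfl a ⟨Set.mem_univ _, ha⟩ b ⟨Set.mem_univ _, fun hb => ha (e.2 hb)⟩ hab
  · exact absurd ((EE_le h1 h2).2 rfl) (by omega)

def G5 : SimpleGraph (Fin 5) where
  Adj a b := a ≠ b ∧ a.val < 2 ∧ b.val < 2
  symm := ⟨fun _ _ h => ⟨h.1.symm, h.2.2, h.2.1⟩⟩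
  loopless := ⟨fun _ h => h.1 rfl⟩

lemma L2 {A B : Prp} (hA : Her A) (hB : Her B) (h : Fac EE A B)
    (k2 : Ind A (⊤ : SimpleGraph (Fin 2)) Set.univ)
    (o3 : Ind B (⊥ : SimpleGraph (Fin 3)) Set.univ) : False := by
  have h1 : Ind A G5 {v | v.val < 2} := Ind_pull hA ⟨fun x => ⟨x.1.val, x.2⟩,
    fun x y e => Subtype.ext (Fin.ext (congrArg Fin.val e :)), fun _ => Set.mem_univ _,
    fun x y hxy => (SimpleGraph.top_adj _ _).2 (fun e => hxy.1 (Fin.ext (by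
      have e' := congrArg Fin.val e
      exact e')))⟩ k2
  have h2 : Ind B G5 {v | v.val < 2}ᶜ := by
    refine Ind_pull hB ⟨fun x => ⟨x.1.val - 2, by have := x.1.isLt; omega⟩, ?_,
      fun _ => Set.mem_univ _, fun x y hxy => absurd hxy.2.1 x.2⟩ o3
    intro x y e
    have e' : x.1.val - 2 = y.1.val - 2 := congrArg Fin.val e
    have h1 : ¬ x.1.val < 2 := x.2
    have h2 : ¬ y.1.val < 2 := y.2
    exact Subtype.ext (Fin.ext (by omega))
  obtain ⟨T, hT⟩ := EE_indep (join_mem hA hB h h1 h2) (by omega)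
  have a := hT 0 1 (Or.inl ⟨by decide, by decide, by decide⟩)
  have b := hT 0 2 (Or.inr (Or.inl ⟨show (0 : Fin 5).val < 2 by decide,
    show ¬ (2 : Fin 5).val < 2 by decide⟩))
  have c := hT 1 2 (Or.inr (Or.inl ⟨show (1 : Fin 5).val < 2 by decide,
    show ¬ (2 : Fin 5).val < 2 by decide⟩))
  tauto

def G6 : SimpleGraph (Fin 6) := joinG ⊥ {v | v.val < 3}

lemma getO {A : Prp} (hA : Her A) {G : SimpleGraph (Fin 6)} {S : Set (Fin 6)} (h : Ind A G S)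
    (k : ℕ) (hk : k ≤ 3) (hS : ∀ v : Fin 6, k ≤ v.val → v.val < k + 3 → v ∈ S) :
    Ind A (⊥ : SimpleGraph (Fin 3)) Set.univ := by
  refine Ind_pull hA ⟨fun x => ⟨k + x.1.val, by have := x.1.isLt; omega⟩, ?_, ?_,
    fun _ _ h => h.elim⟩ h
  · intro x y e
    have e' : k + x.1.val = k + y.1.val := congrArg Fin.val e
    exact Subtype.ext (Fin.ext (by omega))
  · intro x
    have := x.1.isLt
    exact hS _ (by show k ≤ k + x.1.val; omega) (by show k + x.1.val < k + 3; omega)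

lemma getK {A : Prp} (hA : Her A) {S : Set (Fin 3)} (h : Ind A ⊤ S) (a b : Fin 3) (hab : a ≠ b)
    (ha : a ∈ S) (hb : b ∈ S) : Ind A (⊤ : SimpleGraph (Fin 2)) Set.univ := by
  have hi : Function.Injective (![a, b] : Fin 2 → Fin 3) := by
    intro x y e
    fin_cases x <;> fin_cases y
    · rfl
    · exact absurd e hab
    · exact absurd e hab.symm
    · rfl
  refine Ind_pull hA ⟨fun x => ![a, b] x.1, fun x y e => Subtype.ext (hi e), ?_,
    fun x y hxy e => hxy (hi e)⟩ h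
  rintro ⟨x, _⟩
  fin_cases x
  · exact ha
  · exact hb

lemma EE_irr (A B : Prp) (hA : Her A) (hB : Her B) (a1 : A 1 ⊥) (b1 : B 1 ⊥) : ¬ Fac EE A B := by
  intro h
  have h6 : EE 6 G6 := by
    refine ⟨false, {v | v.val < 3}, ⟨fun v => ⟨v.val % 3, by omega⟩, ?_, (fun h => Bool.noConfusion h), ?_⟩,
      ⟨fun v => ⟨v.val % 3, by omega⟩, ?_, (fun h => Bool.noConfusion h), ?_⟩⟩
    · intro x hx y hy e
      have e' : x.val % 3 = y.val % 3 := congrArg Fin.val e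
      have h1 : x.val < 3 := hx.2
      have h2 : y.val < 3 := hy.2
      exact Fin.ext (by omega)
    · rintro _ x hx y hy (h | h | h)
      · exact h
      · exact h.2 hy.2
      · exact h.1 hx.2
    · intro x hx y hy e
      have e' : x.val % 3 = y.val % 3 := congrArg Fin.val e
      have h1 : ¬ x.val < 3 := hx.2
      have h2 : ¬ y.val < 3 := hy.2
      have := x.isLt
      have := y.isLt
      exact Fin.ext (by omega)
    · rintro _ x hx y hy (h | h | h)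
      · exact h
      · exact hx.2 h.1
      · exact hy.2 h.2
  have h7 : ¬ EE 7 ⊥ := fun ⟨_, _, h1, h2⟩ => absurd (EE_le h1 h2).1 (by omega)
  obtain ⟨S, h1, h2⟩ := (h 6 G6).1 h6
  obtain ⟨T, hT⟩ := EE_indep (join_mem hA hB h h1 h2) (by omega)
  have cross : ∀ a b : Fin 6, a.val < 3 → ¬ b.val < 3 → ¬ (a ∈ T ↔ b ∈ T) :=
    fun a b ha hb => hT a b (Or.inl (Or.inr (Or.inl ⟨ha, hb⟩)))
  have same : ∀ a b : Fin 6, (a ∈ T ↔ b ∈ T) → (a ∈ S ↔ b ∈ S) := by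
    intro a b e
    by_contra hc
    refine hT a b (Or.inr ?_) e
    tauto
  have lo : ∀ v : Fin 6, v.val < 3 → (v ∈ S ↔ 0 ∈ S) := by
    intro v hv
    have a := cross v 3 hv (by decide)
    have b := cross 0 3 (by decide) (by decide)
    exact same v 0 (by tauto)
  have hi : ∀ v : Fin 6, ¬ v.val < 3 → (v ∈ S ↔ 3 ∈ S) := by
    intro v hv
    have a := cross 0 v (by decide) hv
    have b := cross 0 3 (by decide) (by decide)
    exact same v 3 (by tauto)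
  have oo : Ind A (⊥ : SimpleGraph (Fin 3)) Set.univ ∧
      Ind B (⊥ : SimpleGraph (Fin 3)) Set.univ := by
    by_cases c0 : (0 : Fin 6) ∈ S <;> by_cases c3 : (3 : Fin 6) ∈ S
    · refine absurd (grow hA hB h b1 (fun v => ?_) h1) h7
      by_cases hv : v.val < 3
      · exact (lo v hv).2 c0
      · exact (hi v hv).2 c3
    · exact ⟨getO hA h1 0 (by omega) (fun v _ hv => (lo v (by omega)).2 c0),
        getO hB h2 3 (by omega) (fun v hv _ hs => c3 ((hi v (by omega)).1 hs))⟩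
    · exact ⟨getO hA h1 3 (by omega) (fun v hv _ => (hi v (by omega)).2 c3),
        getO hB h2 0 (by omega) (fun v _ hv hs => c0 ((lo v (by omega)).1 hs))⟩
    · refine absurd (grow hB hA (Fac_symm h) a1 (fun v hs => ?_) h2) h7
      by_cases hv : v.val < 3
      · exact c0 ((lo v hv).1 hs)
      · exact c3 ((hi v hv).1 hs)
  have h3 : EE 3 ⊤ := by
    refine ⟨true, {v | v ≠ 2}, ⟨id, Set.injOn_id _, fun _ a ha => ha.2, (fun h => Bool.noConfusion h)⟩,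
      ⟨fun _ => 0, ?_, (fun _ _ _ => show (0 : Fin 3) ≠ 2 by decide), (fun h => Bool.noConfusion h)⟩⟩
    intro x hx y hy _
    have h1 : x = 2 := not_not.1 hx.2
    have h2 : y = 2 := not_not.1 hy.2
    rw [h1, h2]
  obtain ⟨U, u1, u2⟩ := (h 3 ⊤).1 h3
  have kA := fun a b hab ha hb => L2 hA hB h (getK hA u1 a b hab ha hb) oo.2
  have kB := fun a b hab ha hb => L2 hB hA (Fac_symm h) (getK hB u2 a b hab ha hb) oo.1
  by_cases c0 : (0 : Fin 3) ∈ U <;> by_cases c1 : (1 : Fin 3) ∈ U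
  · exact kA 0 1 (by decide) c0 c1
  · by_cases c2 : (2 : Fin 3) ∈ U
    · exact kA 0 2 (by decide) c0 c2
    · exact kB 1 2 (by decide) c1 c2
  · by_cases c2 : (2 : Fin 3) ∈ U
    · exact kA 1 2 (by decide) c1 c2
    · exact kB 0 2 (by decide) c0 c2
  · exact kB 0 1 (by decide) c0 c1

lemma merge {n : ℕ} (G : SimpleGraph (Fin n)) (c : Fin n → Fin 3) (l i j : Fin 3)
    (hc : ∀ x : Fin 3, x ≠ l → x ≠ i → x = j) (t : Bool) (hl : CS G {v | c v = l})
    (hi : P t G {v | c v = i}) (hj : P t G {v | c v = j}) :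
    ∃ c' : Fin n → Fin 2, CS G {v | c' v = 0} ∧ ES G {v | c' v = 1} := by
  refine ⟨fun v => if c v = l then 0 else 1, ?_, t, {v | c v = i}, P_mono (fun v hv => hv.2) hi,
    P_mono (fun v hv => hc _ ?_ hv.2) hj⟩
  · obtain ⟨s, hs⟩ := hl
    refine ⟨s, P_mono (fun v hv => ?_) hs⟩
    by_contra hn
    have hv' : (if c v = l then (0 : Fin 2) else 1) = 0 := hv
    rw [if_neg (show ¬ c v = l from hn)] at hv'
    exact absurd hv' (by decide)
  · intro hn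
    have hv' : (if c v = l then (0 : Fin 2) else 1) = 1 := hv.1
    rw [if_pos hn] at hv'
    exact absurd hv' (by decide)

lemma prod_iff {n : ℕ} (G : SimpleGraph (Fin n)) :
    (∃ c : Fin n → Fin 3, ∀ i, CS G {v | c v = i}) ↔
      ∃ c : Fin n → Fin 2, CS G {v | c v = 0} ∧ ES G {v | c v = 1} := by
  classical
  constructor
  · rintro ⟨c, hc⟩
    obtain ⟨t0, h0⟩ := hc 0
    obtain ⟨t1, h1⟩ := hc 1
    obtain ⟨t2, h2⟩ := hc 2
    by_cases e1 : t0 = t1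
    · exact merge G c 2 0 1 (by decide) t0 (hc 2) h0 (e1 ▸ h1)
    · by_cases e2 : t0 = t2
      · exact merge G c 1 0 2 (by decide) t0 (hc 1) h0 (e2 ▸ h2)
      · have e3 : t1 = t2 := by
          revert e1 e2
          cases t0 <;> cases t1 <;> cases t2 <;> decide
        exact merge G c 0 1 2 (by decide) t1 (hc 0) h1 (e3 ▸ h2)
  · rintro ⟨c, ⟨s, h0⟩, t, T, h1, h2⟩
    have two : ∀ x : Fin 2, x ≠ 0 → x = 1 := by decide
    refine ⟨fun v => if c v = 0 then 0 else if v ∈ T then 1 else 2, fun i => ?_⟩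
    fin_cases i
    · refine ⟨s, P_mono (fun v hv => ?_) h0⟩
      have hv' : (if c v = 0 then (0 : Fin 3) else if v ∈ T then 1 else 2) = 0 := hv
      by_contra hn
      rw [if_neg (show ¬ c v = 0 from hn)] at hv'
      split_ifs at hv' <;> exact absurd hv' (by decide)
    · refine ⟨t, P_mono (fun v hv => ?_) h1⟩
      have hv' : (if c v = 0 then (0 : Fin 3) else if v ∈ T then 1 else 2) = 1 := hv
      split_ifs at hv' with a b
      · exact absurd hv' (by decide)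
      · exact ⟨two _ a, b⟩
      · exact absurd hv' (by decide)
    · refine ⟨t, P_mono (fun v hv => ?_) h2⟩
      have hv' : (if c v = 0 then (0 : Fin 3) else if v ∈ T then 1 else 2) = 2 := hv
      split_ifs at hv' with a b
      · exact absurd hv' (by decide)
      · exact absurd hv' (by decide)
      · exact ⟨two _ a, b⟩

lemma P_one (S : Set (Fin 1)) : P true (⊥ : SimpleGraph (Fin 1)) S :=
  ⟨fun _ => 0, fun _ _ _ _ _ => Subsingleton.elim _ _, (fun _ _ _ => show (0 : Fin 3) ≠ 2 by decide), (fun h => Bool.noConfusion h)⟩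

theorem main : ¬ (∀ (m k : ℕ) (Ps : Fin m → Prp) (Qs : Fin k → Prp),
    (∀ i : Fin m, Her (Ps i) ∧ Ps i 1 ⊥ ∧
      ∀ A B : Prp, Her A → Her B → A 1 ⊥ → B 1 ⊥ → ¬ Fac (Ps i) A B) →
    (∀ j : Fin k, Her (Qs j) ∧ Qs j 1 ⊥ ∧
      ∀ A B : Prp, Her A → Her B → A 1 ⊥ → B 1 ⊥ → ¬ Fac (Qs j) A B) →
    (∀ (n : ℕ) (G : SimpleGraph (Fin n)),
      (∃ c : Fin n → Fin m, ∀ i : Fin m, Ind (Ps i) G {v | c v = i}) ↔
      (∃ c : Fin n → Fin k, ∀ j : Fin k, Ind (Qs j) G {v | c v = j})) →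
    ∃ σ : Fin m ≃ Fin k, ∀ (i : Fin m) (n : ℕ) (G : SimpleGraph (Fin n)),
      (Ps i n G ↔ Qs (σ i) n G)) := by
  intro h
  have hC : Her CC ∧ CC 1 ⊥ ∧ ∀ A B : Prp, Her A → Her B → A 1 ⊥ → B 1 ⊥ → ¬ Fac CC A B :=
    ⟨her (fun G S => CS G S) CS_pull, ⟨true, P_one _⟩, CC_irr⟩
  have hE : Her EE ∧ EE 1 ⊥ ∧ ∀ A B : Prp, Her A → Her B → A 1 ⊥ → B 1 ⊥ → ¬ Fac EE A B :=
    ⟨her (fun G S => ES G S) ES_pull, ⟨true, Set.univ, P_one _, P_one _⟩, EE_irr⟩
  obtain ⟨σ, _⟩ := h 3 2 (fun _ => CC) ![CC, EE] (fun _ => hC)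
    (Fin.forall_fin_two.2 ⟨hC, hE⟩) (by
      intro n G
      have b1 : ∀ S : Set (Fin n), Ind CC G S ↔ CS G S :=
        fun S => bridge (fun G S => CS G S) CS_pull G S
      have b2 : ∀ S : Set (Fin n), Ind EE G S ↔ ES G S :=
        fun S => bridge (fun G S => ES G S) ES_pull G S
      constructor
      · rintro ⟨c, hc⟩
        obtain ⟨c', h0, h1⟩ := (prod_iff G).1 ⟨c, fun i => (b1 _).1 (hc i)⟩
        exact ⟨c', Fin.forall_fin_two.2 ⟨(b1 _).2 h0, (b2 _).2 h1⟩⟩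
      · rintro ⟨c, hc⟩
        obtain ⟨c', h0⟩ := (prod_iff G).2 ⟨c, (b1 _).1 (hc 0), (b2 _).1 (hc 1)⟩
        exact ⟨c', fun i => (b1 _).2 (h0 i)⟩)
  have := Fintype.card_congr σ
  simp at this

end Pool.Agent.H27.Mihok
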