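import Mathlib

set_option autoImplicit false

namespace Pool.Agent.H27.Minimax

open Matrix

/-- Thue–Morse sequence. -/
def t (n : ℕ) : ℕ := (Nat.digits 2 n).sum % 2

lemma t_lt (n : ℕ) : t n < 2 := Nat.mod_lt _ (by norm_num)

lemma t_even (n : ℕ) : t (2 * n) = t n := by
  rcases Nat.eq_zero_or_pos n with rfl | h
  · rfl
  · unfold t
    rw [Nat.digits_def' (by norm_num) (by omega)]
    simp

lemma t_odd (n : ℕ) : t (2 * n + 1) = 1 - t n := by
  unfold t
  rw [Nat.digits_def' (by norm_num) (by omega)]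
  have h1 : (2 * n + 1) % 2 = 1 := by omega
  have h2 : (2 * n + 1) / 2 = n := by omega
  rw [h1, h2, List.sum_cons]
  omega

lemma t_step (n : ℕ) (h : n % 2 = 0) : t (n + 1) = 1 - t n := by
  obtain ⟨m, rfl⟩ : ∃ m, n = 2 * m := ⟨n / 2, by omega⟩
  rw [t_odd, t_even]

lemma no_overlap (p : ℕ) : 0 < p → ∀ i, ¬ ∀ m ≤ p, t (i + m + p) = t (i + m) := by
  induction p using Nat.strong_induction_on with
  | _ p ih =>
    intro hp i h
    rcases Nat.even_or_odd' p with ⟨q, rfl | rfl⟩
    · rcases Nat.even_or_odd' i with ⟨j, rfl | rfl⟩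
      · refine ih q (by omega) (by omega) j fun m hm => ?_
        have := h (2 * m) (by omega)
        rwa [show 2 * j + 2 * m + 2 * q = 2 * (j + m + q) by ring,
          show 2 * j + 2 * m = 2 * (j + m) by ring, t_even, t_even] at this
      · refine ih q (by omega) (by omega) j fun m hm => ?_
        have := h (2 * m) (by omega)
        rw [show 2 * j + 1 + 2 * m + 2 * q = 2 * (j + m + q) + 1 by ring,
          show 2 * j + 1 + 2 * m = 2 * (j + m) + 1 by ring, t_odd, t_odd] at this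
        have h1 := t_lt (j + m + q)
        have h2 := t_lt (j + m)
        omega
    · have alt : ∀ m ≤ 2 * q + 1, (t (i + m) + m) % 2 = t i := by
        intro m hm
        induction m with
        | zero => have := t_lt i; simp only [add_zero]; omega
        | succ m ihm =>
          have h0 := ihm (by omega)
          have h1 := h m (by omega)
          have h2 := h (m + 1) hm
          have h3 := t_lt (i + m)
          have h4 := t_lt (i + m + (2 * q + 1))
          rcases Nat.mod_two_eq_zero_or_one (i + m) with he | ho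
          · have := t_step (i + m) he
            rw [show i + (m + 1) = i + m + 1 by ring]
            omega
          · have := t_step (i + m + (2 * q + 1)) (by omega)
            rw [show i + (m + 1) + (2 * q + 1) = i + m + (2 * q + 1) + 1 by ring] at h2
            omega
      have h1 := alt (2 * q + 1) le_rfl
      have h2 := h 0 (by omega)
      simp only [add_zero] at h2
      have := t_lt i
      omega

def d (n : ℕ) : ℕ := 1 + t n + 2 * t (n + 1)

lemma d_bd (n : ℕ) : 1 ≤ d n ∧ d n ≤ 4 := by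
  have := t_lt n; have := t_lt (n + 1); unfold d; omega

def f (i : ℕ) : ℕ → ℕ
  | 0 => 0
  | l + 1 => 5 * f i l + d (i + l)

lemma f_inj (i j : ℕ) : ∀ l m, f i l = f j m → l = m ∧ ∀ k < l, d (i + k) = d (j + k) := by
  intro l
  induction l with
  | zero =>
    intro m h
    rcases m with _ | m
    · simp
    · have := d_bd (j + m); simp only [f] at h; omega
  | succ l ih =>
    intro m h
    rcases m with _ | m
    · have := d_bd (i + l); simp only [f] at h; omega
    · simp only [f] at h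
      have h1 := d_bd (i + l)
      have h2 := d_bd (j + m)
      obtain ⟨rfl, h3⟩ := ih m (by omega)
      refine ⟨rfl, fun k hk => ?_⟩
      rcases Nat.lt_succ_iff_lt_or_eq.mp hk with hk | rfl
      · exact h3 k hk
      · omega

lemma f_ne (i l m : ℕ) : f i l ≠ f (i + l) (m + 1) := by
  intro h
  obtain ⟨rfl, h2⟩ := f_inj _ _ _ _ h
  refine no_overlap (m + 1) (by omega) i fun k hk => ?_
  rcases Nat.lt_or_eq_of_le hk with hk | rfl
  · have h3 := h2 k hk
    have := t_lt (i + k); have := t_lt (i + (m + 1) + k)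
    unfold d at h3
    rw [show i + k + (m + 1) = i + (m + 1) + k by ring]
    omega
  · have h3 := h2 m (by omega)
    have := t_lt (i + m); have := t_lt (i + (m + 1) + m)
    unfold d at h3
    rw [show i + (m + 1) + (m + 1) = i + (m + 1) + m + 1 by ring,
      show i + (m + 1) = i + m + 1 by ring] at *
    omega

abbrev Mat := Matrix (Fin 5) (Fin 5) ℝ

def M (s v : ℝ) : Mat := !![s, v, 0, 0, 0; 0, 1, 0, 0, 0; 0, 0, 1, 0, 0; 0, 0, 0, s, v; 0, 0, 0, 0, 1]
def Bs : Mat := !![0, 0, 0, 0, 0; 0, 0, 1, -1, 0; 1, 0, 0, 0, 0; 0, 0, 0, 0, 0; 0, 1, 0, 0, 0]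

lemma M_mul (s v s' v' : ℝ) : M s v * M s' v' = M (s * s') (s * v' + v) := by
  ext i j
  fin_cases i <;> fin_cases j <;> simp [M, Matrix.mul_apply, Fin.sum_univ_five]

lemma nil (s v : ℝ) : (M s v * Bs) ^ 5 = 0 := by
  have h1 : M s v * Bs =
      !![0, 0, v, -v, 0; 0, 0, 1, -1, 0; 1, 0, 0, 0, 0; 0, v, 0, 0, 0; 0, 1, 0, 0, 0] := by
    ext i j
    fin_cases i <;> fin_cases j <;> simp [M, Bs, Matrix.mul_apply, Fin.sum_univ_five]
  have h2 : (M s v * Bs) * (M s v * Bs) =
      !![v, -v * v, 0, 0, 0; 1, -v, 0, 0, 0; 0, 0, v, -v, 0; 0, 0, v, -v, 0; 0, 0, 1, -1, 0] := by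
    rw [h1]
    ext i j
    fin_cases i <;> fin_cases j <;> simp [Matrix.mul_apply, Fin.sum_univ_five]
  have h3 : (M s v * Bs) * (M s v * Bs) * ((M s v * Bs) * (M s v * Bs)) = 0 := by
    rw [h2]
    ext i j
    fin_cases i <;> fin_cases j <;> simp [Matrix.mul_apply, Fin.sum_univ_five]
    ring
  calc (M s v * Bs) ^ 5 = (M s v * Bs) * (M s v * Bs) * ((M s v * Bs) * (M s v * Bs)) *
        (M s v * Bs) := by noncomm_ring
    _ = 0 := by rw [h3, zero_mul]

lemma Mv (s v a b c e g : ℝ) : M s v *ᵥ ![a, b, c, e, g] = ![s * a + v * b, b, c, s * e + v * g, g] := by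
  ext i
  fin_cases i <;> simp [M, Matrix.mulVec, dotProduct, Fin.sum_univ_five]

lemma Bv (a b c e g : ℝ) : Bs *ᵥ ![a, b, c, e, g] = ![0, c - e, a, 0, b] := by
  ext i
  fin_cases i <;> simp [Bs, Matrix.mulVec, dotProduct, Fin.sum_univ_five, sub_eq_add_neg]

def Inv (n : ℕ) (w : Fin 5 → ℝ) : Prop :=
  ∃ h : ℤ, h ≠ 0 ∧ ((∃ i l, i + l = n ∧ w = ![(h : ℝ) * f i l, h, 0, 0, 0]) ∨
    (∃ i l m, i + l + (m + 1) = n ∧ w = ![0, 0, (h : ℝ) * f i l, h * f (i + l) (m + 1), h]))

lemma inv_step (n : ℕ) (w : Fin 5 → ℝ) (B : Mat) (hB : B = 1 ∨ B = Bs) (hw : Inv n w) :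
    Inv (n + 1) ((M 5 (d n) * B) *ᵥ w) := by
  rw [← Matrix.mulVec_mulVec]
  obtain ⟨h, h0, ⟨i, l, rfl, rfl⟩ | ⟨i, l, m, rfl, rfl⟩⟩ := hw
  · rcases hB with rfl | rfl
    · refine ⟨h, h0, Or.inl ⟨i, l + 1, rfl, ?_⟩⟩
      rw [Matrix.one_mulVec, Mv]
      simp only [f]; push_cast
      congr 1
      · ring
      · simp
    · refine ⟨h, h0, Or.inr ⟨i, l, 0, rfl, ?_⟩⟩
      rw [Bv, Mv]
      simp [f, mul_comm]
  · rcases hB with rfl | rfl
    · refine ⟨h, h0, Or.inr ⟨i, l, m + 1, rfl, ?_⟩⟩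
      rw [Matrix.one_mulVec, Mv]
      simp only [f, mul_zero, add_zero]; push_cast
      congr 4
      ring
    · refine ⟨h * (f i l - f (i + l) (m + 1)), mul_ne_zero h0 ?_, Or.inl ⟨i + l + (m + 1), 1, rfl, ?_⟩⟩
      · rw [sub_ne_zero]; exact_mod_cast f_ne i l m
      · rw [Bv, Mv]
        have : f (i + l + (m + 1)) 1 = d (i + l + (m + 1)) := by simp [f]
        rw [this]
        push_cast
        simp only [mul_zero, add_zero, zero_add]
        congr 1
        · ring
        · congr 1; ring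

def W : Type := Mat
noncomputable instance : AddCommGroup W := inferInstanceAs (AddCommGroup Mat)
noncomputable instance : Module ℝ W := inferInstanceAs (Module ℝ Mat)
instance : Module.Finite ℝ W := inferInstanceAs (Module.Finite ℝ Mat)

lemma norm_bd (ν : Seminorm ℝ W) (hν : ∀ X, ν X = 0 → X = 0) :
    ∃ c : ℝ, 0 < c ∧ ∀ (X : Mat) (i : Fin 5), c * |X i 1| ≤ ν X := by
  let g : AddGroupNorm W := { ν.toAddGroupSeminorm with eq_zero_of_map_eq_zero' := hν }
  letI : NormedAddCommGroup W := g.toNormedAddCommGroup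
  letI : NormedSpace ℝ W := ⟨fun c X => le_of_eq (map_smul_eq_mul ν c X)⟩
  let L : W →ₗ[ℝ] (Fin 5 → ℝ) :=
    { toFun := fun X i => (show Mat from X) i 1, map_add' := fun _ _ => rfl,
      map_smul' := fun _ _ => rfl }
  obtain ⟨C, hC, h⟩ := (LinearMap.toContinuousLinearMap L).bound
  refine ⟨C⁻¹, inv_pos.mpr hC, fun X i => ?_⟩
  have h1 := h X
  have h2 : |X i 1| ≤ ‖(LinearMap.toContinuousLinearMap L) X‖ :=
    norm_le_pi_norm ((LinearMap.toContinuousLinearMap L) X) i
  rw [inv_mul_le_iff₀ hC]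
  exact h2.trans h1

end Pool.Agent.H27.Minimax
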