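import Pool.Agent.H27.NB1

set_option autoImplicit false

namespace Pool.Agent.H27.NB

open Finset Real

noncomputable def ent (p q r : ℝ) : ℝ :=
  (p + q - r) / 2 * (log p + log q - 2 * log ((p + q - r) / 2)) +
  (p + r - q) / 2 * (log p + log r - 2 * log ((p + r - q) / 2)) +
  (q + r - p) / 2 * (log q + log r - 2 * log ((q + r - p) / 2))

lemma ent1 (p q r : ℝ) : ent p q r = ent q p r := by
  simp only [ent, add_comm p q, add_comm (log p) (log q)]; ring

lemma ent2 (p q r : ℝ) : ent p q r = ent p r q := by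
  simp only [ent, add_comm q r, add_comm (log q) (log r)]; ring

lemma ent3 (p : ℝ) (hp : 0 < p) : ent p p p = 3 * p * log 2 := by
  simp only [ent, add_sub_cancel_right, log_div hp.ne' two_ne_zero]; ring

section
variable {x : ℝ} (hx : x ^ 3 - x - 2 = 0)
include hx

lemma x_bd : 1.5213 < x ∧ x < 1.5214 := by
  constructor
  · by_contra! h
    nlinarith [sq_nonneg (x + 1.5213 / 2), mul_nonneg (sub_nonneg.2 h) (sq_nonneg (x + 1.5213 / 2))]
  · by_contra! h
    nlinarith [mul_nonneg (sub_nonneg.2 h) (sq_nonneg (x + 1.5214 / 2))]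

lemma L_bd : 0.419 < log x ∧ log x < 0.4203 := by
  obtain ⟨h1, h2⟩ := x_bd hx
  have h0 : 0 < x := by linarith
  have l1 := log_two_gt_d9
  have l2 := log_two_lt_d9
  have e : x ^ 5 = x ^ 2 * (x + 2) := by linear_combination x ^ 2 * hx
  have b1 : 8.149 < x ^ 5 := by rw [e]; nlinarith
  have b2 : x ^ 5 < 8.152 := by rw [e]; nlinarith
  have h8 : log 8 = 3 * log 2 := by
    rw [show (8 : ℝ) = 2 ^ 3 by norm_num, log_pow]; norm_num
  have u := log_le_sub_one_of_pos (show 0 < x ^ 5 / 8 by positivity)
  have l := log_le_sub_one_of_pos (show 0 < 8 / x ^ 5 by positivity)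
  rw [log_div (by positivity) (by positivity), log_pow, h8] at u l
  have : 8 / x ^ 5 < 0.9818 := by rw [div_lt_iff₀ (by positivity)]; linarith
  push_cast at u l
  constructor <;> linarith

lemma vertex {p q r : ℝ} {i j k : Prop} [Decidable i] [Decidable j] [Decidable k]
    (hp : p = if i then 2 * x ^ 2 - 2 else x ^ 2) (hq : q = if j then 2 * x ^ 2 - 2 else x ^ 2)
    (hr : r = if k then 2 * x ^ 2 - 2 else x ^ 2) :
    log x * (p + q + r) + (2 * log x * x ^ 2 + 1 / 8) - 1 / 16 * ((if i then 0 else 1) +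
      (if j then 0 else 1) + if k then 0 else 1) ≤ ent p q r := by
  obtain ⟨h1, h2⟩ := x_bd hx
  obtain ⟨h3, h4⟩ := L_bd hx
  have h0 : 0 < x := by linarith
  have l1 := log_two_gt_d9
  have l2 := log_two_lt_d9
  have b1 : 2.3143 < x ^ 2 := by nlinarith
  have b2 : x ^ 2 < 2.3147 := by nlinarith
  have la : log (2 * x ^ 2 - 2) = 2 * log 2 - log x := by
    rw [show 2 * x ^ 2 - 2 = 2 ^ 2 / x by field_simp; linarith, log_div (by norm_num) h0.ne', log_pow]
    norm_num
  have lb : log (x ^ 2) = 2 * log x := by rw [log_pow]; norm_num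
  set a := 2 * x ^ 2 - 2 with ha
  set b := x ^ 2 with hb
  have ha0 : 0 < a := by linarith
  have hb0 : 0 < b := by linarith
  have e3 := ent3 a ha0
  have e0 := ent3 b hb0
  have e1 : ent a b b = log x * (a + 4 * b) := by
    simp only [ent, add_sub_cancel_right, log_div ha0.ne' two_ne_zero, la, lb,
      show (b + b - a) / 2 = 1 by linarith, log_one]
    linear_combination (log x) * ha
  have e2 : log x * (2 * a + 3 * b) + 1 / 16 ≤ ent a a b := by
    have u := log_le_sub_one_of_pos (show 0 < (a + a - b) / 2 / x from div_pos (by linarith) h0)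
    rw [log_div (by linarith) h0.ne'] at u
    have : (a + a - b) / 2 / x < 0.9678 := by rw [div_lt_iff₀ h0]; linarith
    simp only [ent, show a + b - a = b by ring, log_div hb0.ne' two_ne_zero, la, lb]
    nlinarith
  have f1 := ent1 a b b
  have f2 := ent2 b a b
  have f3 := ent2 a a b
  have f4 := ent1 a b a
  subst hp hq hr
  split_ifs <;> nlinarith

variable {V : Type} [Fintype V] [DecidableEq V] (G : SimpleGraph V) [DecidableRel G.Adj]

theorem growth [Nonempty V] (hd : ∀ v, G.degree v = 2 ∨ G.degree v = 3)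
    (hh : 2 * (univ.filter fun v => G.degree v = 2).card = Fintype.card V) (r : ℕ) :
    ∃ u v, G.Adj v u ∧ x ^ r ≤ N G r u v := by
  obtain ⟨h1, h2⟩ := x_bd hx
  have h0 : 0 < x := by linarith
  have b1 : 2.3143 < x ^ 2 := by nlinarith
  have b2 : x ^ 2 < 2.3147 := by nlinarith
  have d2 : ∀ v, 2 ≤ G.degree v := fun v => by have := hd v; omega
  let p : V → V → ℝ := fun u v =>
    if G.degree u = 3 ∧ G.degree v = 3 then 2 * x ^ 2 - 2 else x ^ 2
  have p0 : ∀ u v, x ^ 2 ≤ p u v ∧ p u v ≤ 2 * x ^ 2 - 2 := fun u v => by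
    simp only [p]; split_ifs <;> constructor <;> linarith
  have p2 : ∀ v, G.degree v = 2 → ∀ u, p v u = x ^ 2 := fun v h u => if_neg (by omega)
  let F : V → V → V → ℝ := fun v u w => p v u + p v w - (∑ z ∈ G.neighborFinset v, p v z) / 2
  have S2 : ∀ v, G.degree v = 2 → ∑ z ∈ G.neighborFinset v, p v z = 2 * x ^ 2 := fun v h => by
    simp [p2 v h, h]
  have key := entropy G d2 p F (fun u v => by simp only [p, and_comm])
    (fun v u w => by simp only [F, add_comm]) (fun v u w _ _ => ?_) (fun v u h => ?_) r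
  · let c : V → V → ℝ := fun v u => if G.degree v = 3 ∧ G.degree u = 2 then 1 else 0
    have h3 : ∀ v, log x * ∑ z ∈ G.neighborFinset v, p v z + (2 * log x * x ^ 2 + 1 / 8) *
        (1 - 2 * if G.degree v = 2 then 1 else 0) + 1 / 16 * (∑ u ∈ G.neighborFinset v, c u v -
          ∑ u ∈ G.neighborFinset v, c v u) ≤ ∑ u ∈ G.neighborFinset v,
          ∑ w ∈ (G.neighborFinset v).erase u, F v u w * (log (p v u) - log (F v u w)) := by
      intro v
      rcases hd v with h | h
      · have e1 : ∀ u w, F v u w = p v u := fun u w => by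
          simp only [F]; rw [S2 v h, p2 v h, p2 v h]; ring
        have e2 : ∑ u ∈ G.neighborFinset v, c v u = 0 := sum_eq_zero fun u _ => if_neg (by omega)
        have e3 : ∑ u ∈ G.neighborFinset v, c u v ≤ 2 := by
          refine (sum_le_card_nsmul _ _ 1 fun u _ => ?_).trans (by simp [h])
          simp only [c]; split_ifs <;> norm_num
        simp only [e1, sub_self, mul_zero, sum_const_zero, S2 v h, if_pos h, e2]
        linarith
      · obtain ⟨u1, u2, u3, n1, n2, n3, e⟩ := card_eq_three.1 h
        have e2 : ∑ u ∈ G.neighborFinset v, c u v = 0 := sum_eq_zero fun u _ => if_neg (by omega)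
        have e3 : ∀ u, c v u = if G.degree v = 3 ∧ G.degree u = 3 then 0 else 1 := fun u => by
          rcases hd u with h' | h' <;> simp [c, h, h']
        have s3 : ∀ f : V → ℝ, ∑ u ∈ ({u1, u2, u3} : Finset V), f u = f u1 + f u2 + f u3 :=
          fun f => by rw [sum_insert (by simp [n1, n2]), sum_pair n3, add_assoc]
        have := vertex hx (p := p v u1) (q := p v u2) (r := p v u3) rfl rfl rfl
        rw [e2, if_neg (by omega)]
        simp only [F, e, s3, e3]
        rw [erase_insert (by simp [n1, n2]), show ({u1, u2, u3} : Finset V).erase u2 = {u1, u3} by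
          rw [insert_comm, erase_insert (by simp [n1.symm, n3])],
          show ({u1, u2, u3} : Finset V).erase u3 = {u1, u2} by
          rw [pair_comm u2, insert_comm, erase_insert (by simp [n2.symm, n3.symm])],
          sum_pair n1, sum_pair n2, sum_pair n3]
        generalize p v u1 = p1 at *
        generalize p v u2 = p2 at *
        generalize p v u3 = p3 at *
        rw [show p1 + p2 - (p1 + p2 + p3) / 2 = (p1 + p2 - p3) / 2 by ring,
          show p1 + p3 - (p1 + p2 + p3) / 2 = (p1 + p3 - p2) / 2 by ring,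
          show p2 + p1 - (p1 + p2 + p3) / 2 = (p1 + p2 - p3) / 2 by ring,
          show p2 + p3 - (p1 + p2 + p3) / 2 = (p2 + p3 - p1) / 2 by ring,
          show p3 + p1 - (p1 + p2 + p3) / 2 = (p1 + p3 - p2) / 2 by ring,
          show p3 + p2 - (p1 + p2 + p3) / 2 = (p2 + p3 - p1) / 2 by ring]
        simp only [ent] at this
        linarith
    have h4 := sum_le_sum fun v (_ : v ∈ univ) => h3 v
    have h5 : ∑ v, (1 - 2 * if G.degree v = 2 then 1 else 0 : ℝ) = 0 := by
      rw [sum_sub_distrib, ← mul_sum, sum_boole, sum_const, card_univ, ← hh]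
      simp
    rw [sum_add_distrib, sum_add_distrib, ← mul_sum, ← mul_sum, ← mul_sum, h5, sum_sub_distrib,
      swap1 G c, sub_self, mul_zero, mul_zero, add_zero, add_zero] at h4
    by_contra! hc
    have h6 : ∑ v, ∑ u ∈ G.neighborFinset v, p v u * log (N G r u v) <
        ∑ v, ∑ u ∈ G.neighborFinset v, p v u * (r * log x) := by
      refine sum_lt_sum_of_nonempty univ_nonempty fun v _ => sum_lt_sum_of_nonempty
        ((ne_erase G d2 v v).mono (erase_subset _ _)) fun u hu => ?_
      refine mul_lt_mul_of_pos_left ?_ (by linarith [(p0 v u).1])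
      rw [← log_pow]
      exact log_lt_log (by exact_mod_cast N_pos G d2 r u v)
        (hc u v ((G.mem_neighborFinset _ _).1 hu))
    simp only [← sum_mul] at h6
    have := mul_le_mul_of_nonneg_left h4 (Nat.cast_nonneg r)
    linarith
  · have : ∑ z ∈ G.neighborFinset v, p v z ≤ 3 * (2 * x ^ 2 - 2) := by
      refine (sum_le_card_nsmul _ _ _ fun u _ => (p0 v u).2).trans ?_
      have : (G.degree v : ℝ) ≤ 3 := by exact_mod_cast (by have := hd v; omega)
      rw [nsmul_eq_mul, SimpleGraph.card_neighborFinset_eq_degree]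
      nlinarith
    simp only [F]
    linarith [(p0 v u).1, (p0 v w).1]
  · have hu := (G.mem_neighborFinset _ _).2 h
    simp only [F, sum_sub_distrib, sum_add_distrib, sum_const, card_erase_of_mem hu,
      SimpleGraph.card_neighborFinset_eq_degree, nsmul_eq_mul, sum_erase_eq_sub hu]
    rcases hd v with h' | h'
    · rw [S2 v h', p2 v h', h']; norm_num; ring
    · rw [h']; norm_num; ring

theorem moore (ε : ℝ) (hε : 0 < ε) : ∃ g₀ : ℕ, ∀ g : ℕ, g₀ ≤ g →
    ∀ (V : Type) [Fintype V] [DecidableEq V] (G : SimpleGraph V) [DecidableRel G.Adj],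
    G.Connected → (∀ v, G.degree v = 2 ∨ G.degree v = 3) →
    2 * (Finset.univ.filter (fun v => G.degree v = 2)).card = Fintype.card V →
    (g : ℕ∞) ≤ G.egirth → x ^ ((1 - ε) * (g : ℝ) / 2) ≤ (Fintype.card V : ℝ) := by
  refine ⟨⌈4 / ε⌉₊ + 3, fun g hg V _ _ G _ hc hd hh he => ?_⟩
  have := hc.nonempty
  obtain ⟨u, v, h, h1⟩ := growth hx G hd hh ((g - 3) / 2)
  have h2 := N_le G (r := (g - 3) / 2) (fun a c hc => by
    have : g ≤ c.length := by exact_mod_cast he.trans (SimpleGraph.egirth_le_length hc)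
    omega) h
  refine le_trans ?_ (h1.trans (by exact_mod_cast h2))
  rw [← rpow_natCast]
  refine rpow_le_rpow_of_exponent_le (by linarith [(x_bd hx).1]) ?_
  have h3 : (g : ℝ) ≤ 2 * ((g - 3) / 2 : ℕ) + 4 := by exact_mod_cast (by omega)
  have h4 : 4 / ε ≤ g := (Nat.le_ceil _).trans (by exact_mod_cast (by omega))
  rw [div_le_iff₀ hε] at h4
  linarith

end

end Pool.Agent.H27.NB
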