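import Mathlib

set_option autoImplicit false

namespace Pool.Agent.H27.Page

open Finset Classical

/-- A deterministic paging rule: from the current memory contents, the current time and the
visible part of the request sequence it names the page to evict. -/
structure Alg (α : Type) where
  ev : Finset α → ℕ → List α → α
  mem : ∀ C t v, C.Nonempty → ev C t v ∈ C

variable {α : Type}

/-- Memory contents before request number `t`, for the rule `A` run with lookahead `i`. -/
noncomputable def cache (i : ℕ) (A : Alg α) (C0 : Finset α) (σ : List α) : ℕ → Finset α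
  | 0 => C0
  | t + 1 =>
    match σ[t]? with
    | none => cache i A C0 σ t
    | some p =>
      if p ∈ cache i A C0 σ t then cache i A C0 σ t
      else insert p ((cache i A C0 σ t).erase (A.ev (cache i A C0 σ t) t (σ.take (t + 1 + i))))

/-- Request number `t` is a fault. -/
def fault (i : ℕ) (A : Alg α) (C0 : Finset α) (σ : List α) (t : ℕ) : Prop :=
  ∃ p, σ[t]? = some p ∧ p ∉ cache i A C0 σ t

/-- Number of faults. -/
noncomputable def cost (i : ℕ) (A : Alg α) (C0 : Finset α) (σ : List α) : ℕ :=
  ((range σ.length).filter (fault i A C0 σ)).card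

/-- `r(A,B)` for `A` with lookahead `i` and `B` with lookahead `l`. -/
noncomputable def ratio (C0 : Finset α) (i : ℕ) (A : Alg α) (l : ℕ) (B : Alg α) : EReal :=
  ⨅ (c : ℝ) (_ : ∃ b : ℝ, ∀ σ : List α, (cost i A C0 σ : ℝ) ≤ c * (cost l B C0 σ : ℝ) + b),
    (c : EReal)

/-- The comparative ratio `c(L_i, L_l)`. -/
noncomputable def comp (C0 : Finset α) (i l : ℕ) : EReal :=
  ⨆ B : Alg α, ⨅ A : Alg α, ratio C0 i A l B

lemma cost_eq (i : ℕ) (A : Alg α) (C0 : Finset α) (σ : List α) :
    cost i A C0 σ = Nat.count (fault i A C0 σ) σ.length := by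
  rw [Nat.count_eq_card_filter_range]; rfl

section basic
variable {i : ℕ} {A : Alg α} {C0 : Finset α} {σ : List α} {t : ℕ} {p : α}

lemma cache_none (h : σ[t]? = none) : cache i A C0 σ (t + 1) = cache i A C0 σ t := by
  rw [cache, h]

lemma cache_hit (h : σ[t]? = some p) (hp : p ∈ cache i A C0 σ t) :
    cache i A C0 σ (t + 1) = cache i A C0 σ t := by
  rw [cache, h]; simp only [hp, if_true]

lemma cache_miss (h : σ[t]? = some p) (hp : p ∉ cache i A C0 σ t) :
    cache i A C0 σ (t + 1) =
      insert p ((cache i A C0 σ t).erase (A.ev (cache i A C0 σ t) t (σ.take (t + 1 + i)))) := by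
  rw [cache, h]; simp only [hp, if_false]

lemma req_mem (h : σ[t]? = some p) : p ∈ cache i A C0 σ (t + 1) := by
  by_cases hp : p ∈ cache i A C0 σ t
  · rw [cache_hit h hp]; exact hp
  · rw [cache_miss h hp]; exact mem_insert_self _ _

lemma fault_iff (h : σ[t]? = some p) : fault i A C0 σ t ↔ p ∉ cache i A C0 σ t := by
  constructor
  · rintro ⟨q, h1, h2⟩
    rw [h] at h1
    rwa [Option.some_inj.mp h1]
  · exact fun h' => ⟨p, h, h'⟩

lemma cache_card (hC : C0.Nonempty) (t : ℕ) : (cache i A C0 σ t).card = C0.card := by
  induction t with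
  | zero => rfl
  | succ t ih =>
    cases h : σ[t]? with
    | none => rw [cache_none h, ih]
    | some p =>
      by_cases hp : p ∈ cache i A C0 σ t
      · rw [cache_hit h hp, ih]
      · have h0 := card_pos.mpr hC
        have hne : (cache i A C0 σ t).Nonempty := card_pos.mp (by omega)
        rw [cache_miss h hp, card_insert_of_notMem (fun h' => hp (mem_of_mem_erase h')),
          card_erase_of_mem (A.mem _ _ _ hne), ih]
        omega

lemma cache_ne (hC : C0.Nonempty) (t : ℕ) : (cache i A C0 σ t).Nonempty :=
  card_pos.mp (by rw [cache_card hC]; exact card_pos.mpr hC)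

lemma cache_step (x : α) (hx : x ∈ cache i A C0 σ (t + 1)) :
    x ∈ cache i A C0 σ t ∨ σ[t]? = some x := by
  cases h : σ[t]? with
  | none => rw [cache_none h] at hx; exact Or.inl hx
  | some p =>
    by_cases hp : p ∈ cache i A C0 σ t
    · rw [cache_hit h hp] at hx; exact Or.inl hx
    · rw [cache_miss h hp, mem_insert] at hx
      rcases hx with rfl | hx
      · exact Or.inr rfl
      · exact Or.inl (mem_of_mem_erase hx)

lemma cache_take (n t : ℕ) (h : t = 0 ∨ t + i ≤ n) :
    cache i A C0 (σ.take n) t = cache i A C0 σ t := by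
  induction t with
  | zero => rfl
  | succ t ih =>
    have h1 : t + 1 + i ≤ n := by omega
    have h2 := ih (Or.inr (by omega))
    have h3 : (σ.take n)[t]? = σ[t]? := by rw [List.getElem?_take, if_pos (by omega)]
    rw [cache, cache, h2, h3, List.take_take, min_eq_left h1]

end basic

/-- evict a page of largest score -/
noncomputable def best (a0 : α) (sc : Finset α → ℕ → List α → α → ℕ) : Alg α where
  ev C t v := if h : C.Nonempty then Classical.choose (C.exists_max_image (sc C t v) h) else a0
  mem C t v h := by
    rw [dif_pos h]; exact (Classical.choose_spec (C.exists_max_image (sc C t v) h)).1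

lemma best_max (a0 : α) (sc : Finset α → ℕ → List α → α → ℕ) (C : Finset α) (t : ℕ) (v : List α)
    (y : α) (hy : y ∈ C) : sc C t v y ≤ sc C t v ((best a0 sc).ev C t v) := by
  have h : C.Nonempty := ⟨y, hy⟩
  simp only [best, dif_pos h]
  exact (Classical.choose_spec (C.exists_max_image (sc C t v) h)).2 y hy

/-! ### the marking rule is `k`-competitive -/

noncomputable def marks (k : ℕ) (σ : List α) : ℕ → Finset α
  | 0 => ∅
  | t + 1 =>
    match σ[t]? with
    | none => marks k σ t
    | some p => if p ∈ marks k σ t then marks k σ t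
        else if (marks k σ t).card < k then insert p (marks k σ t) else {p}

lemma marks_take (k : ℕ) (σ : List α) (n t : ℕ) (h : t ≤ n) :
    marks k (σ.take n) t = marks k σ t := by
  induction t with
  | zero => rfl
  | succ t ih =>
    have h3 : (σ.take n)[t]? = σ[t]? := by rw [List.getElem?_take, if_pos (by omega)]
    rw [marks, marks, ih (by omega), h3]

noncomputable def markAlg (a0 : α) (k : ℕ) : Alg α :=
  best a0 (fun _ t v z => if z ∈ marks k v (t + 1) then 0 else 1)

lemma mark_bound (a0 : α) (C0 : Finset α) (hC : C0.Nonempty) (i l : ℕ) (B : Alg α) (σ : List α)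
    (t : ℕ) :
    marks C0.card σ t ⊆ cache i (markAlg a0 C0.card) C0 σ t ∧
    Nat.count (fault i (markAlg a0 C0.card) C0 σ) t + (C0.card - (marks C0.card σ t).card) +
      (if marks C0.card σ t ⊆ cache l B C0 σ t then 0 else C0.card) ≤
      C0.card * Nat.count (fault l B C0 σ) t + C0.card := by
  set k := C0.card with hk
  set A := markAlg a0 k with hA
  have hk0 : 0 < k := card_pos.mpr hC
  induction t with
  | zero => simp [marks]
  | succ t ih =>
    obtain ⟨ih1, ih2⟩ := ih
    rw [Nat.count_succ, Nat.count_succ]
    have hcA : (cache i A C0 σ t).card = k := cache_card hC t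
    have hcB : (cache l B C0 σ t).card = k := cache_card hC t
    have hm : (marks k σ t).card ≤ k := (card_le_card ih1).trans hcA.le
    cases h : σ[t]? with
    | none =>
      have h1 : marks k σ (t + 1) = marks k σ t := by rw [marks, h]
      have h2 : ¬ fault i A C0 σ t := by rintro ⟨p, hp, _⟩; rw [h] at hp; cases hp
      rw [h1, cache_none h, cache_none h, if_neg h2]
      exact ⟨ih1, by rw [mul_add]; omega⟩
    | some p =>
      rw [fault_iff h, fault_iff h]
      have hpB : p ∈ cache l B C0 σ (t + 1) := req_mem h
      by_cases hpm : p ∈ marks k σ t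
      · have h1 : marks k σ (t + 1) = marks k σ t := by rw [marks, h]; simp only [hpm, if_true]
        rw [h1, cache_hit h (ih1 hpm), if_neg (not_not.mpr (ih1 hpm))]
        refine ⟨ih1, ?_⟩
        by_cases hs : marks k σ t ⊆ cache l B C0 σ t
        · rw [cache_hit h (hs hpm), if_neg (not_not.mpr (hs hpm))]; omega
        · rw [if_neg hs] at ih2
          rw [mul_add]
          split_ifs <;> omega
      · have hsub : marks k σ (t + 1) ⊆ insert p (marks k σ t) ∧
            ((marks k σ (t + 1)).erase p).card < k := by
          rw [marks, h]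
          simp only [hpm, if_false]
          split_ifs with h1
          · exact ⟨subset_rfl, by rw [erase_insert hpm]; exact h1⟩
          · exact ⟨by simp, by simpa using hk0⟩
        constructor
        · by_cases hpA : p ∈ cache i A C0 σ t
          · rw [cache_hit h hpA]
            exact hsub.1.trans (insert_subset hpA ih1)
          · rw [cache_miss h hpA]
            obtain ⟨y, hy1, hy2⟩ := exists_mem_notMem_of_card_lt_card
              (s := (marks k σ (t + 1)).erase p) (t := cache i A C0 σ t) (by omega)
            have hy3 : y ∉ marks k σ (t + 1) := fun h' =>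
              hy2 (mem_erase.mpr ⟨fun e => hpA (e ▸ hy1), h'⟩)
            have h5 := best_max a0 (fun _ t v z => if z ∈ marks k v (t + 1) then 0 else 1)
              (cache i A C0 σ t) t (σ.take (t + 1 + i)) y hy1
            simp only [marks_take k σ (t + 1 + i) (t + 1) (by omega), hy3, if_false] at h5
            have h6 : A.ev (cache i A C0 σ t) t (σ.take (t + 1 + i)) ∉ marks k σ (t + 1) := by
              intro h7
              rw [if_pos (by exact h7)] at h5
              omega
            intro x hx
            rcases mem_insert.mp (hsub.1 hx) with rfl | hx'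
            · exact mem_insert_self _ _
            · exact mem_insert_of_mem (mem_erase.mpr ⟨fun e => h6 (e ▸ hx), ih1 hx'⟩)
        · by_cases h1 : (marks k σ t).card < k
          · have h2 : marks k σ (t + 1) = insert p (marks k σ t) := by
              rw [marks, h]; simp only [hpm, h1, if_false, if_true]
            rw [h2, card_insert_of_notMem hpm, mul_add]
            by_cases hpB' : p ∈ cache l B C0 σ t
            · rw [cache_hit h hpB']
              simp only [insert_subset_iff, hpB', true_and, not_true, if_false]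
              split_ifs at ih2 ⊢ <;> omega
            · rw [if_pos hpB']
              split_ifs at ih2 ⊢ <;> omega
          · have h2 : marks k σ (t + 1) = {p} := by
              rw [marks, h]; simp only [hpm, h1, if_false]
            rw [h2, if_pos (singleton_subset_iff.mpr hpB), card_singleton, mul_add]
            by_cases hs : marks k σ t ⊆ cache l B C0 σ t
            · have h3 : marks k σ t = cache l B C0 σ t := eq_of_subset_of_card_le hs (by omega)
              rw [if_pos (show p ∉ cache l B C0 σ t from h3 ▸ hpm)]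
              split_ifs at ih2 ⊢ <;> omega
            · rw [if_neg hs] at ih2
              split_ifs <;> omega

lemma upper_k (a0 : α) (C0 : Finset α) (hC : C0.Nonempty) (i l : ℕ) (B : Alg α) :
    ∃ A : Alg α, ∀ σ, cost i A C0 σ ≤ C0.card * cost l B C0 σ + C0.card := by
  refine ⟨markAlg a0 C0.card, fun σ => ?_⟩
  have := (mark_bound a0 C0 hC i l B σ σ.length).2
  rw [cost_eq, cost_eq]
  omega

/-! ### the lower bound -/

def blocks (i : ℕ) (p : ℕ → α) (N : ℕ) : List α :=
  (List.range (N * (i + 1))).map (fun j => p (j / (i + 1)))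

lemma blocks_length (i : ℕ) (p : ℕ → α) (N : ℕ) : (blocks i p N).length = N * (i + 1) := by
  simp [blocks]

lemma blocks_get (i : ℕ) (p : ℕ → α) (N j : ℕ) (h : j < N * (i + 1)) :
    (blocks i p N)[j]? = some (p (j / (i + 1))) := by
  simp [blocks, h]

lemma blocks_get' (i : ℕ) (p : ℕ → α) (N j : ℕ) (x : α) (h : (blocks i p N)[j]? = some x) :
    j < N * (i + 1) ∧ x = p (j / (i + 1)) := by
  have h1 : j < N * (i + 1) := by
    rw [← blocks_length i p N]; exact (List.getElem?_eq_some_iff.mp h).1
  rw [blocks_get i p N j h1] at h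
  exact ⟨h1, (Option.some_inj.mp h).symm⟩

lemma fault_start (i l : ℕ) (A : Alg α) (C0 : Finset α) (p : ℕ → α) (N t : ℕ)
    (h : fault l A C0 (blocks i p N) t) : ∃ n, n < N ∧ t = n * (i + 1) := by
  obtain ⟨x, hx, hx'⟩ := h
  obtain ⟨h1, rfl⟩ := blocks_get' i p N t x hx
  refine ⟨t / (i + 1), (Nat.div_lt_iff_lt_mul (by omega)).mpr h1, ?_⟩
  by_contra hne
  cases t with
  | zero => simp at hne
  | succ s =>
    apply hx'
    have h2 : (s + 1) / (i + 1) = s / (i + 1) := by
      apply Nat.succ_div_of_not_dvd
      intro hd
      exact hne (Nat.div_mul_cancel hd).symm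
    rw [h2]
    exact req_mem (blocks_get i p N s (by omega))

lemma cache_sub {l : ℕ} {A : Alg α} {C0 P : Finset α} {σ : List α} (h0 : C0 ⊆ P)
    (h : ∀ (j : ℕ) (x : α), σ[j]? = some x → x ∈ P) (t : ℕ) : cache l A C0 σ t ⊆ P := by
  induction t with
  | zero => exact h0
  | succ t ih =>
    intro x hx
    rcases cache_step x hx with h1 | h1
    · exact ih h1
    · exact h t x h1

lemma adversary (i : ℕ) (A : Alg α) (C0 : Finset α) (hC : C0.Nonempty) (p0 : α) (hp0 : p0 ∉ C0)
    (N : ℕ) : ∃ p : ℕ → α, (∀ n, p n ∈ insert p0 C0) ∧ N ≤ cost i A C0 (blocks i p N) := by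
  induction N with
  | zero => exact ⟨fun _ => p0, fun _ => mem_insert_self _ _, Nat.zero_le _⟩
  | succ N ih =>
    obtain ⟨p, hp, hN⟩ := ih
    obtain ⟨h, hh1, hh2⟩ := exists_mem_notMem_of_card_lt_card
      (s := cache i A C0 (blocks i p N) (N * (i + 1))) (t := insert p0 C0)
      (by rw [cache_card hC, card_insert_of_notMem hp0]; omega)
    set p' := Function.update p N h with hp'
    have hget : ∀ j, j < N * (i + 1) → (blocks i p' (N + 1))[j]? = (blocks i p N)[j]? := by
      intro j hj
      rw [blocks_get i p' (N + 1) j (by rw [add_mul]; omega), blocks_get i p N j hj, hp',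
        Function.update_of_ne ((Nat.div_lt_iff_lt_mul (by omega)).mpr hj).ne]
    have hcache : ∀ t, t ≤ N * (i + 1) →
        cache i A C0 (blocks i p' (N + 1)) t = cache i A C0 (blocks i p N) t := by
      intro t
      induction t with
      | zero => intro _; rfl
      | succ t iht =>
        intro ht
        have h1 := iht (by omega)
        have h2 := blocks_get i p N t (by omega)
        have h3 := (hget t (by omega)).trans h2
        by_cases hx : p (t / (i + 1)) ∈ cache i A C0 (blocks i p N) t
        · rw [cache_hit h2 hx, cache_hit h3 (h1 ▸ hx), h1]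
        · rw [cache_miss h2 hx, cache_miss h3 (h1 ▸ hx), h1]
          obtain ⟨n, hn, rfl⟩ := fault_start i i A C0 p N t ⟨_, h2, hx⟩
          have h4 : (n + 1) * (i + 1) ≤ N * (i + 1) := Nat.mul_le_mul_right _ hn
          have h5 : (blocks i p' (N + 1)).take (n * (i + 1) + 1 + i) =
              (blocks i p N).take (n * (i + 1) + 1 + i) := by
            apply List.ext_getElem?
            intro j
            rw [List.getElem?_take, List.getElem?_take]
            split_ifs with hj
            · exact hget j (by rw [add_mul] at h4; omega)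
            · rfl
          rw [h5]
    refine ⟨p', fun n => ?_, ?_⟩
    · rw [hp', Function.update_apply]
      split_ifs
      · exact hh1
      · exact hp n
    · have h1 : insert (N * (i + 1)) ((range (blocks i p N).length).filter
          (fault i A C0 (blocks i p N))) ⊆
          (range (blocks i p' (N + 1)).length).filter (fault i A C0 (blocks i p' (N + 1))) := by
        intro t ht
        rw [mem_filter, mem_range, blocks_length, add_mul]
        rcases mem_insert.mp ht with rfl | ht
        · refine ⟨by omega, h, ?_, by rw [hcache _ le_rfl]; exact hh2⟩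
          rw [blocks_get i p' (N + 1) _ (by rw [add_mul]; omega), Nat.mul_div_cancel _ (by omega),
            hp', Function.update_self]
        · rw [mem_filter, mem_range, blocks_length] at ht
          rw [fault, hget t ht.1, hcache t ht.1.le]
          exact ⟨by omega, ht.2⟩
      have h2 := card_le_card h1
      rw [card_insert_of_notMem (by simp [blocks_length])] at h2
      exact le_trans (Nat.succ_le_succ hN) h2

noncomputable def seer (a0 : α) (L : ℕ) : Alg α :=
  best a0 (fun _ t v z => if ∃ j, t < j ∧ j ≤ t + L ∧ v[j]? = some z then 0 else 1)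

lemma seer_bound (i l R : ℕ) (C0 : Finset α) (hC : C0.Nonempty) (p0 : α) (hp0 : p0 ∉ C0)
    (hR : R + 1 ≤ C0.card) (hl : R * (i + 1) ≤ l) (p : ℕ → α) (hp : ∀ n, p n ∈ insert p0 C0)
    (N : ℕ) : cost l (seer p0 (R * (i + 1))) C0 (blocks i p N) ≤ N / (R + 1) + 1 := by
  set B := seer p0 (R * (i + 1)) with hB
  set σ := blocks i p N with hσ
  have hP : ∀ (j : ℕ) (x : α), σ[j]? = some x → x ∈ insert p0 C0 := by
    intro j x h
    rw [(blocks_get' i p N j x h).2]; exact hp _
  have key : ∀ n, fault l B C0 σ (n * (i + 1)) → ∀ j, n * (i + 1) < j →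
      j ≤ n * (i + 1) + R * (i + 1) → ¬ fault l B C0 σ j := by
    rintro n ⟨x, hx, hx'⟩
    set t := n * (i + 1) with ht
    have hxn : x = p n := by
      rw [(blocks_get' i p N t x hx).2, ht, Nat.mul_div_cancel _ (by omega)]
    set z := B.ev (cache l B C0 σ t) t (σ.take (t + 1 + l)) with hz
    have hzC : z ∈ cache l B C0 σ t := B.mem _ _ _ (cache_ne hC t)
    have hzfar : ∀ j, t < j → j ≤ t + R * (i + 1) → σ[j]? ≠ some z := by
      obtain ⟨y, hy1, hy2⟩ := exists_mem_notMem_of_card_lt_card
        (s := (Ioc n (n + R)).image p) (t := cache l B C0 σ t)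
        (lt_of_le_of_lt card_image_le (by rw [cache_card hC, Nat.card_Ioc]; omega))
      have h5 := best_max p0
        (fun _ t v z => if ∃ j, t < j ∧ j ≤ t + R * (i + 1) ∧ v[j]? = some z then 0 else 1)
        (cache l B C0 σ t) t (σ.take (t + 1 + l)) y hy1
      have h6 : ¬ ∃ j, t < j ∧ j ≤ t + R * (i + 1) ∧ (σ.take (t + 1 + l))[j]? = some y := by
        rintro ⟨j, h1, h2, h3⟩
        rw [List.getElem?_take, if_pos (by omega)] at h3
        have h4 := (blocks_get' i p N j y h3).2
        have h7 : n ≤ j / (i + 1) := (Nat.le_div_iff_mul_le (by omega)).mpr h1.le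
        have h8 : j / (i + 1) < n + R + 1 := by
          rw [Nat.div_lt_iff_lt_mul (by omega), add_mul, add_mul]; omega
        rcases h7.eq_or_lt with h9 | h9
        · rw [← h9, ← hxn] at h4
          exact hx' (h4 ▸ hy1)
        · exact hy2 (mem_image.mpr ⟨_, mem_Ioc.mpr ⟨h9, by omega⟩, h4.symm⟩)
      simp only [h6, if_false] at h5
      intro j h1 h2 h3
      rw [if_pos ⟨j, h1, h2, by rw [List.getElem?_take, if_pos (by omega)]; exact h3⟩] at h5
      omega
    have hc1 : cache l B C0 σ (t + 1) = (insert p0 C0).erase z := by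
      apply eq_of_subset_of_card_le
      · intro y hy
        refine mem_erase.mpr ⟨?_, cache_sub (subset_insert _ _) hP _ hy⟩
        rintro rfl
        rw [cache_miss hx hx', mem_insert] at hy
        rcases hy with h | h
        · exact hx' (h ▸ hzC)
        · exact notMem_erase _ _ h
      · rw [cache_card hC, card_erase_of_mem (cache_sub (subset_insert _ _) hP _ hzC),
          card_insert_of_notMem hp0]
        omega
    have hc2 : ∀ j, t + 1 ≤ j → j ≤ t + 1 + R * (i + 1) →
        cache l B C0 σ j = (insert p0 C0).erase z := by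
      intro j hj
      induction j, hj using Nat.le_induction with
      | base => intro _; exact hc1
      | succ j hj ih =>
        intro h1
        have h2 := ih (by omega)
        cases h : σ[j]? with
        | none => rw [cache_none h, h2]
        | some y =>
          rw [cache_hit h, h2]
          rw [h2]
          exact mem_erase.mpr ⟨fun e => hzfar j (by omega) (by omega) (e ▸ h), hP j y h⟩
    rintro j h1 h2 ⟨y, hy, hy'⟩
    apply hy'
    rw [hc2 j (by omega) (by omega)]
    exact mem_erase.mpr ⟨fun e => hzfar j h1 h2 (e ▸ hy), hP j y hy⟩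
  rw [← card_range (N / (R + 1) + 1)]
  refine card_le_card_of_injOn (fun t => t / (i + 1) / (R + 1)) (fun t ht => ?_) ?_
  · obtain ⟨n, hn, rfl⟩ := fault_start i l B C0 p N t (mem_filter.mp ht).2
    simp only [coe_range, Set.mem_Iio]
    rw [Nat.mul_div_cancel _ (by omega)]
    exact Nat.lt_succ_of_le (Nat.div_le_div_right hn.le)
  · have aux : ∀ n n', fault l B C0 σ (n * (i + 1)) → fault l B C0 σ (n' * (i + 1)) → n < n' →
        n / (R + 1) < n' / (R + 1) := by
      intro n n' h h' hlt
      have h1 : n * (i + 1) < n' * (i + 1) := Nat.mul_lt_mul_of_pos_right hlt (by omega)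
      have h2 : (n + R) * (i + 1) < n' * (i + 1) := by
        by_contra h3
        exact key n h _ h1 (by rw [add_mul] at h3; omega) h'
      have h3 : n + R < n' := lt_of_mul_lt_mul_right h2 (Nat.zero_le _)
      calc n / (R + 1) < (n + (R + 1)) / (R + 1) := by rw [Nat.add_div_right _ (by omega)]; omega
        _ ≤ n' / (R + 1) := Nat.div_le_div_right (by omega)
    intro t ht t' ht' h
    have f1 : fault l B C0 σ t := (mem_filter.mp ht).2
    have f2 : fault l B C0 σ t' := (mem_filter.mp ht').2
    obtain ⟨n, _, rfl⟩ := fault_start i l B C0 p N t f1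
    obtain ⟨n', _, rfl⟩ := fault_start i l B C0 p N t' f2
    simp only [Nat.mul_div_cancel _ (show 0 < i + 1 by omega)] at h
    rcases lt_trichotomy n n' with h1 | h1 | h1
    · exact absurd h (aux n n' f1 f2 h1).ne
    · rw [h1]
    · exact absurd h (aux n' n f2 f1 h1).ne'

lemma lower (i l R : ℕ) (C0 : Finset α) (hC : C0.Nonempty) (p0 : α) (hp0 : p0 ∉ C0)
    (hR : R + 1 ≤ C0.card) (hl : R * (i + 1) ≤ l) : (((R + 1 : ℕ) : ℝ) : EReal) ≤ comp C0 i l := by
  refine le_iSup_of_le (seer p0 (R * (i + 1))) (le_iInf fun A => le_iInf fun c => le_iInf ?_)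
  rintro ⟨b, hb⟩
  rw [EReal.coe_le_coe_iff]
  by_contra hlt
  push Not at hlt
  set c' := max c 0 with hc'
  have hR0 : (0 : ℝ) < (R + 1 : ℕ) := by positivity
  have h1 : c' < (R + 1 : ℕ) := max_lt hlt hR0
  have h0 : 0 ≤ c' := le_max_right _ _
  obtain ⟨N, hN⟩ := exists_nat_gt ((c' + b) * (R + 1 : ℕ) / ((R + 1 : ℕ) - c'))
  obtain ⟨p, hp, hA⟩ := adversary i A C0 hC p0 hp0 N
  have hB := seer_bound i l R C0 hC p0 hp0 hR hl p hp N
  have h2 := hb (blocks i p N)
  have h3 : (N : ℝ) ≤ cost i A C0 (blocks i p N) := by exact_mod_cast hA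
  have h4 : (cost l (seer p0 (R * (i + 1))) C0 (blocks i p N) : ℝ) ≤ N / (R + 1 : ℕ) + 1 := by
    have h5 : (cost l (seer p0 (R * (i + 1))) C0 (blocks i p N) : ℝ) ≤ (N / (R + 1) : ℕ) + 1 := by
      exact_mod_cast hB
    have h6 : ((N / (R + 1) : ℕ) : ℝ) ≤ N / (R + 1 : ℕ) := Nat.cast_div_le
    linarith
  have h5 : c * (cost l (seer p0 (R * (i + 1))) C0 (blocks i p N) : ℝ) ≤
      c' * (N / (R + 1 : ℕ) + 1) :=
    mul_le_mul (le_max_left _ _) h4 (Nat.cast_nonneg _) h0
  have h6 : (N : ℝ) ≤ c' * (N / (R + 1 : ℕ) + 1) + b := by linarith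
  rw [div_lt_iff₀ (by linarith)] at hN
  generalize ((R + 1 : ℕ) : ℝ) = r at *
  have h7 : (N : ℝ) * r ≤ (c' * (N / r + 1) + b) * r := mul_le_mul_of_nonneg_right h6 hR0.le
  have h8 : (c' * (N / r + 1) + b) * r = c' * N + (c' + b) * r := by field_simp; ring
  nlinarith

end Pool.Agent.H27.Page
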