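import Pool.Agent.H27.PageA

set_option autoImplicit false

namespace Pool.Agent.H27.Page

open Finset Classical

variable {α : Type}

lemma nxt_ex (σ : List α) (s cap : ℕ) (z : α) :
    ∃ j, s ≤ j ∧ (σ[j]? = some z ∨ cap ≤ j) := ⟨max s cap, le_max_left _ _, Or.inr (le_max_right _ _)⟩

noncomputable def nxt (σ : List α) (s cap : ℕ) (z : α) : ℕ := Nat.find (nxt_ex σ s cap z)

lemma nxt_spec (σ : List α) (s cap : ℕ) (z : α) :
    s ≤ nxt σ s cap z ∧ (σ[nxt σ s cap z]? = some z ∨ cap ≤ nxt σ s cap z) :=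
  Nat.find_spec (nxt_ex σ s cap z)

lemma nxt_le (σ : List α) (s cap : ℕ) (z : α) (j : ℕ) (h1 : s ≤ j)
    (h2 : σ[j]? = some z ∨ cap ≤ j) : nxt σ s cap z ≤ j :=
  Nat.find_min' (nxt_ex σ s cap z) ⟨h1, h2⟩

lemma nxt_succ (σ : List α) (s cap : ℕ) (z : α) (hs : s < cap) (h : σ[s]? ≠ some z) :
    nxt σ (s + 1) cap z = nxt σ s cap z := by
  apply le_antisymm
  · have h1 := nxt_spec σ s cap z
    refine nxt_le _ _ _ _ _ ?_ h1.2
    rcases h1.1.eq_or_lt with h2 | h2
    · rw [← h2] at h1
      rcases h1.2 with h3 | h3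
      · exact absurd h3 h
      · omega
    · exact h2
  · have h1 := nxt_spec σ (s + 1) cap z
    exact nxt_le _ _ _ _ _ (by omega) h1.2

lemma nxt_view (σ : List α) (s i cap : ℕ) (z : α) (hc : s + i < cap) :
    nxt (σ.take (s + 1 + i)) s (s + i + 1) z = min (nxt σ s cap z) (s + i + 1) := by
  apply le_antisymm
  · refine le_min ?_ (nxt_le _ _ _ _ _ (by omega) (Or.inr le_rfl))
    have h1 := nxt_spec σ s cap z
    refine nxt_le _ _ _ _ _ h1.1 ?_
    by_cases h2 : nxt σ s cap z < s + 1 + i
    · rcases h1.2 with h3 | h3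
      · left; rw [List.getElem?_take, if_pos h2]; exact h3
      · omega
    · right; omega
  · have h1 := nxt_spec (σ.take (s + 1 + i)) s (s + i + 1) z
    rcases h1.2 with h3 | h3
    · rw [List.getElem?_take] at h3
      split_ifs at h3
      exact (min_le_left _ _).trans (nxt_le _ _ _ _ _ h1.1 (Or.inl h3))
    · exact (min_le_right _ _).trans h3

def known (l d : ℕ) (B : Alg α) (C0 : Finset α) (v : List α) (t : ℕ) (z : α) : Prop :=
  z ∉ cache l B C0 v (t + 1 - d) ∧ ∀ j, t + 1 - d ≤ j → j ≤ t → v[j]? ≠ some z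

lemma known_view (i d : ℕ) (B : Alg α) (C0 : Finset α) (σ : List α) (t : ℕ) (z : α) :
    known (i + d) d B C0 (σ.take (t + 1 + i)) t z ↔ known (i + d) d B C0 σ t z := by
  unfold known
  rw [cache_take (t + 1 + i) (t + 1 - d) (by omega)]
  refine and_congr_right (fun _ => forall_congr' fun j => forall_congr' fun _ =>
    forall_congr' fun h => ?_)
  rw [List.getElem?_take, if_pos (by omega)]

lemma known_not (l d : ℕ) (B : Alg α) (C0 : Finset α) (σ : List α) (t : ℕ) (z : α)
    (h : known l d B C0 σ t z) : z ∉ cache l B C0 σ (t + 1) := by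
  have : ∀ τ, t + 1 - d ≤ τ → τ ≤ t + 1 → z ∉ cache l B C0 σ τ := by
    intro τ h1
    induction τ, h1 using Nat.le_induction with
    | base => intro _; exact h.1
    | succ τ h1 ih =>
      intro h2 h3
      rcases cache_step z h3 with h4 | h4
      · exact ih (by omega) h4
      · exact h.2 τ h1 (by omega) h4
  exact this (t + 1) (by omega) le_rfl

noncomputable def simAlg (a0 : α) (i d : ℕ) (B : Alg α) (C0 : Finset α) : Alg α :=
  best a0 (fun _ t v z => 2 * nxt v t (t + i + 1) z + if known (i + d) d B C0 v t z then 1 else 0)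

noncomputable def gam (l : ℕ) (B : Alg α) (C0 : Finset α) (σ : List α) (s : ℕ) (y : α) : ℕ :=
  Nat.findGreatest (fun τ => y ∈ cache l B C0 σ τ) s

lemma gam_le (l : ℕ) (B : Alg α) (C0 : Finset α) (σ : List α) (s : ℕ) (y : α) :
    gam l B C0 σ s y ≤ s := Nat.findGreatest_le s

lemma gam_succ (l : ℕ) (B : Alg α) (C0 : Finset α) (σ : List α) (s : ℕ) (y : α)
    (h : y ∉ cache l B C0 σ (s + 1)) : gam l B C0 σ (s + 1) y = gam l B C0 σ s y := by
  unfold gam
  rw [Nat.findGreatest_succ, if_neg h]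

lemma gam_known (l d : ℕ) (hd : 0 < d) (B : Alg α) (C0 : Finset α) (σ : List α) (s : ℕ) (y : α)
    (h : gam l B C0 σ s y + d ≤ s) (hs : σ[s]? ≠ some y) : known l d B C0 σ s y := by
  refine ⟨Nat.findGreatest_is_greatest (P := fun τ => y ∈ cache l B C0 σ τ) (n := s)
    (by unfold gam at h; omega) (by omega), fun j h1 h2 h3 => ?_⟩
  rcases h2.eq_or_lt with rfl | h2
  · exact hs h3
  · exact Nat.findGreatest_is_greatest (P := fun τ => y ∈ cache l B C0 σ τ) (n := s) (k := j + 1)
      (by unfold gam at h; omega) (by omega) (req_mem h3)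

def wv (i τ β : ℕ) : ℕ := (β - τ + i) / (i + 1)

lemma wv_mono (i : ℕ) {τ τ' β β' : ℕ} (h1 : τ ≤ τ') (h2 : β' ≤ β) : wv i τ' β' ≤ wv i τ β :=
  Nat.div_le_div_right (by omega)

lemma wv_step (i : ℕ) {s τ β : ℕ} (h1 : s + i + 1 ≤ τ) (h2 : s < β) :
    1 + wv i τ β ≤ wv i s β := by
  unfold wv
  rw [add_comm 1, ← Nat.add_div_right _ (show 0 < i + 1 by omega)]
  by_cases h : τ ≤ β
  · exact Nat.div_le_div_right (by omega)
  · have h3 : β - τ + i + (i + 1) < 2 * (i + 1) := by omega
    have h4 : (β - τ + i + (i + 1)) / (i + 1) < 2 := (Nat.div_lt_iff_lt_mul (by omega)).mpr h3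
    have h5 : 1 ≤ (β - s + i) / (i + 1) := (Nat.le_div_iff_mul_le (by omega)).mpr (by omega)
    omega

lemma wv_top (i d s : ℕ) : wv i s (s + d) = (i + d) / (i + 1) := by
  unfold wv; congr 1; omega

noncomputable def pc (i d : ℕ) (B : Alg α) (C0 : Finset α) (σ : List α) (s : ℕ) (x y : α) : ℕ :=
  if nxt σ s (σ.length + i) y ≤ s + i ∧ nxt σ s (σ.length + i) y < nxt σ s (σ.length + i) x then 0
  else 1 + wv i (nxt σ s (σ.length + i) x) (gam (i + d) B C0 σ s y + d)

lemma sum_step (M M' R : Finset α) (f g : α → ℕ) (x : α) (hR : R ⊆ M)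
    (h : ∀ u ∈ M', u ≠ x → u ∈ M ∧ u ∉ R ∧ g u ≤ f u) :
    ∑ u ∈ M'.erase x, g u + ∑ u ∈ R, f u ≤ ∑ u ∈ M, f u := by
  have h1 : ∑ u ∈ M'.erase x, g u ≤ ∑ u ∈ M'.erase x, f u :=
    sum_le_sum (fun u hu => (h u (mem_of_mem_erase hu) (ne_of_mem_erase hu)).2.2)
  have h2 : M'.erase x ⊆ M \ R := fun u hu =>
    mem_sdiff.mpr ⟨(h u (mem_of_mem_erase hu) (ne_of_mem_erase hu)).1,
      (h u (mem_of_mem_erase hu) (ne_of_mem_erase hu)).2.1⟩
  have h3 := sum_le_sum_of_subset (f := f) h2
  have h4 := sum_sdiff (f := f) hR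
  omega

lemma sim_bound (a0 : α) (C0 : Finset α) (hC : C0.Nonempty) (i d : ℕ) (hd : 0 < d) (B : Alg α)
    (σ : List α) (s : ℕ) (hs : s ≤ σ.length) :
    ∃ μ : α → α,
      (∀ x ∈ cache (i + d) B C0 σ s \ cache i (simAlg a0 i d B C0) C0 σ s,
        μ x ∈ cache i (simAlg a0 i d B C0) C0 σ s \ cache (i + d) B C0 σ s) ∧
      Set.InjOn μ (cache (i + d) B C0 σ s \ cache i (simAlg a0 i d B C0) C0 σ s : Finset α) ∧
      Nat.count (fault i (simAlg a0 i d B C0) C0 σ) s +
        ∑ x ∈ cache (i + d) B C0 σ s \ cache i (simAlg a0 i d B C0) C0 σ s,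
          pc i d B C0 σ s x (μ x) ≤
        ((i + d) / (i + 1) + 1) * Nat.count (fault (i + d) B C0 σ) s := by
  set A := simAlg a0 i d B C0 with hA
  generalize hm : (i + d) / (i + 1) = m
  induction s with
  | zero => exact ⟨id, by simp [cache], by simp [cache], by simp [cache]⟩
  | succ s ih =>
    obtain ⟨μ, hμ, hinj, hsum⟩ := ih (by omega)
    have hlt : s < σ.length := hs
    obtain ⟨p, hp⟩ : ∃ p, σ[s]? = some p := ⟨σ[s], List.getElem?_eq_getElem hlt⟩
    rw [Nat.count_succ, Nat.count_succ]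
    simp only [fault_iff hp]
    have hpA : p ∈ cache i A C0 σ (s + 1) := req_mem hp
    have hpB : p ∈ cache (i + d) B C0 σ (s + 1) := req_mem hp
    have hcard : (cache (i + d) B C0 σ (s + 1) \ cache i A C0 σ (s + 1)).card =
        (cache i A C0 σ (s + 1) \ cache (i + d) B C0 σ (s + 1)).card :=
      card_sdiff_comm (by rw [cache_card hC, cache_card hC])
    have hAs : ∀ x, x ∈ cache i A C0 σ (s + 1) → x ≠ p → x ∈ cache i A C0 σ s := by
      intro x hx hne
      rcases cache_step x hx with h | h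
      · exact h
      · rw [hp] at h; exact absurd (Option.some_inj.mp h).symm hne
    have hBs : ∀ x, x ∈ cache (i + d) B C0 σ (s + 1) → x ≠ p → x ∈ cache (i + d) B C0 σ s := by
      intro x hx hne
      rcases cache_step x hx with h | h
      · exact h
      · rw [hp] at h; exact absurd (Option.some_inj.mp h).symm hne
    have hAhit : p ∈ cache i A C0 σ s → cache i A C0 σ (s + 1) = cache i A C0 σ s := cache_hit hp
    have hBhit : p ∈ cache (i + d) B C0 σ s →
        cache (i + d) B C0 σ (s + 1) = cache (i + d) B C0 σ s := cache_hit hp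
    set z := A.ev (cache i A C0 σ s) s (σ.take (s + 1 + i)) with hz
    have hzA : z ∈ cache i A C0 σ s := A.mem _ _ _ (cache_ne hC s)
    have hAmiss : p ∉ cache i A C0 σ s →
        cache i A C0 σ (s + 1) = insert p ((cache i A C0 σ s).erase z) := cache_miss hp
    have hnx : ∀ x, x ≠ p → nxt σ (s + 1) (σ.length + i) x = nxt σ s (σ.length + i) x := by
      intro x hx
      refine nxt_succ _ _ _ _ (by omega) ?_
      rw [hp]; exact fun h => hx (Option.some_inj.mp h).symm
    have hge : ∀ x, s ≤ nxt σ s (σ.length + i) x := fun x => (nxt_spec _ _ _ _).1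
    have hscore : ∀ y ∈ cache i A C0 σ s,
        2 * min (nxt σ s (σ.length + i) y) (s + i + 1) +
          (if known (i + d) d B C0 σ s y then 1 else 0) ≤
        2 * min (nxt σ s (σ.length + i) z) (s + i + 1) +
          (if known (i + d) d B C0 σ s z then 1 else 0) := by
      intro y hy
      have := best_max a0 (fun _ t v z => 2 * nxt v t (t + i + 1) z +
        if known (i + d) d B C0 v t z then 1 else 0) _ s (σ.take (s + 1 + i)) y hy
      simp only [nxt_view σ s i (σ.length + i) _ (by omega), known_view] at this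
      exact this
    have F1 : nxt σ s (σ.length + i) z ≤ s + i → ∀ y ∈ cache i A C0 σ s, y ≠ z →
        nxt σ s (σ.length + i) y < nxt σ s (σ.length + i) z := by
      intro h y hy hne
      have h1 := hscore y hy
      have h2 : nxt σ s (σ.length + i) y ≤ nxt σ s (σ.length + i) z := by
        split_ifs at h1 <;> omega
      refine lt_of_le_of_ne h2 (fun h3 => ?_)
      rcases (nxt_spec σ s (σ.length + i) y).2 with h4 | h4
      · rcases (nxt_spec σ s (σ.length + i) z).2 with h5 | h5
        · rw [h3, h5] at h4; exact hne (Option.some_inj.mp h4).symm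
        · omega
      · omega
    have F2 : ¬ known (i + d) d B C0 σ s z → ∀ y ∈ cache i A C0 σ s,
        known (i + d) d B C0 σ s y → nxt σ s (σ.length + i) y ≤ s + i := by
      intro h y hy hk
      have h1 := hscore y hy
      rw [if_pos hk, if_neg h] at h1
      omega
    have pc0 : ∀ x y, x ≠ p → y ≠ p → nxt σ s (σ.length + i) y ≤ s + i →
        nxt σ s (σ.length + i) y < nxt σ s (σ.length + i) x → pc i d B C0 σ (s + 1) x y = 0 := by
      intro x y hx hy h1 h2
      unfold pc
      rw [hnx x hx, hnx y hy, if_pos ⟨by omega, h2⟩]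
    have pc1 : ∀ x y, x ≠ p → y ∉ cache (i + d) B C0 σ (s + 1) → pc i d B C0 σ (s + 1) x y ≤
        1 + wv i (nxt σ s (σ.length + i) x) (gam (i + d) B C0 σ s y + d) := by
      intro x y hx hy
      unfold pc
      rw [hnx x hx, gam_succ _ _ _ _ _ _ hy]
      split_ifs <;> omega
    have pcm : ∀ x y, x ≠ p → y ∉ cache (i + d) B C0 σ (s + 1) →
        pc i d B C0 σ (s + 1) x y ≤ pc i d B C0 σ s x y := by
      intro x y hx hy
      have hyp : y ≠ p := fun h => hy (h ▸ hpB)
      by_cases h : nxt σ s (σ.length + i) y ≤ s + i ∧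
          nxt σ s (σ.length + i) y < nxt σ s (σ.length + i) x
      · rw [pc0 x y hx hyp h.1 h.2]; exact Nat.zero_le _
      · refine (pc1 x y hx hy).trans (le_of_eq ?_)
        unfold pc; rw [if_neg h]
    have pcz : ∀ x y, pc i d B C0 σ s x y = 0 → nxt σ s (σ.length + i) y ≤ s + i ∧
          nxt σ s (σ.length + i) y < nxt σ s (σ.length + i) x := by
      intro x y h
      by_contra h1
      unfold pc at h
      rw [if_neg h1] at h
      omega
    have pcp : ∀ y, pc i d B C0 σ s p y = 1 + wv i s (gam (i + d) B C0 σ s y + d) := by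
      intro y
      have h1 : nxt σ s (σ.length + i) p = s :=
        le_antisymm (nxt_le _ _ _ _ _ le_rfl (Or.inl hp)) (hge p)
      have h2 := hge y
      unfold pc
      rw [h1, if_neg (by omega)]
    have hwm : ∀ x y, wv i (nxt σ s (σ.length + i) x) (gam (i + d) B C0 σ s y + d) ≤ m := by
      intro x y
      rw [← hm, ← wv_top i d s]
      exact wv_mono i (hge x) (by have := gam_le (i + d) B C0 σ s y; omega)
    generalize hA0 : cache i A C0 σ s = A0 at *
    generalize hA1 : cache i A C0 σ (s + 1) = A1 at *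
    generalize hB0 : cache (i + d) B C0 σ s = B0 at *
    have hkn : known (i + d) d B C0 σ s z → z ∉ cache (i + d) B C0 σ (s + 1) :=
      known_not _ _ _ _ _ _ _
    generalize hB1 : cache (i + d) B C0 σ (s + 1) = B1 at *
    have hMp : ∀ u ∈ B1 \ A1, u ≠ p := fun u hu h => (mem_sdiff.mp hu).2 (h ▸ hpA)
    have hHp : ∀ u ∈ A1 \ B1, u ≠ p := fun u hu h => (mem_sdiff.mp hu).2 (h ▸ hpB)
    have hbroken : ∀ u ∈ B1 \ A1, ¬ (u ∈ B0 \ A0 ∧ μ u ∈ A1 \ B1) →
        (p ∉ A0 ∧ u = z) ∨ (p ∉ A0 ∧ u ∈ B0 \ A0 ∧ μ u = z) ∨ (p ∈ A0 ∧ u ∈ B0 \ A0 ∧ μ u = p) := by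
      intro u hu h
      have hu1 := mem_sdiff.mp hu
      have hu2 := hBs u hu1.1 (hMp u hu)
      by_cases hpA0 : p ∈ A0
      · right; right
        rw [hAhit hpA0] at hu1 h
        have hu3 : u ∈ B0 \ A0 := mem_sdiff.mpr ⟨hu2, hu1.2⟩
        refine ⟨hpA0, hu3, ?_⟩
        by_contra hne
        have h1 := mem_sdiff.mp (hμ u hu3)
        exact h ⟨hu3, mem_sdiff.mpr ⟨h1.1, fun h2 => h1.2 (hBs _ h2 hne)⟩⟩
      · by_cases huz : u = z
        · exact Or.inl ⟨hpA0, huz⟩
        · right; left
          have hu3 : u ∈ B0 \ A0 := mem_sdiff.mpr ⟨hu2, fun h1 => hu1.2 (by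
            rw [hAmiss hpA0]; exact mem_insert_of_mem (mem_erase.mpr ⟨huz, h1⟩))⟩
          refine ⟨hpA0, hu3, ?_⟩
          by_contra hne
          have h1 := mem_sdiff.mp (hμ u hu3)
          refine h ⟨hu3, mem_sdiff.mpr ⟨?_, fun h2 => h1.2 (hBs _ h2 (fun e => hpA0 (e ▸ h1.1)))⟩⟩
          rw [hAmiss hpA0]; exact mem_insert_of_mem (mem_erase.mpr ⟨hne, h1.1⟩)
    by_cases hD : ∀ u ∈ B1 \ A1, u ∈ B0 \ A0 ∧ μ u ∈ A1 \ B1
    · refine ⟨μ, fun x hx => (hD x hx).2,
        hinj.mono (fun x hx => mem_coe.mpr (hD x (mem_coe.mp hx)).1), ?_⟩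
      have hnm : p ∉ B1 \ A1 := fun h => hMp p h rfl
      by_cases hc : p ∈ B0 \ A0
      · have h1 := sum_step (B0 \ A0) (B1 \ A1) {p} (fun x => pc i d B C0 σ s x (μ x))
          (fun x => pc i d B C0 σ (s + 1) x (μ x)) p (singleton_subset_iff.mpr hc)
          (fun u hu hne => ⟨(hD u hu).1, by simpa using hne,
            pcm u _ hne (mem_sdiff.mp (hD u hu).2).2⟩)
        rw [erase_eq_of_notMem hnm, sum_singleton, pcp] at h1
        rw [mul_add]
        split_ifs <;> omega
      · have h1 := sum_step (B0 \ A0) (B1 \ A1) ∅ (fun x => pc i d B C0 σ s x (μ x))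
          (fun x => pc i d B C0 σ (s + 1) x (μ x)) p (empty_subset _)
          (fun u hu hne => ⟨(hD u hu).1, by simp, pcm u _ hne (mem_sdiff.mp (hD u hu).2).2⟩)
        rw [erase_eq_of_notMem hnm, sum_empty] at h1
        rw [mul_add]
        by_cases h2 : p ∈ A0
        · rw [if_neg (not_not.mpr h2)]; omega
        · have h3 : p ∉ B0 := fun h3 => hc (mem_sdiff.mpr ⟨h3, h2⟩)
          rw [if_pos h2, if_pos h3]; omega
    · push Not at hD
      obtain ⟨x, hx, hxb⟩ := hD
      have hb := hbroken x hx (fun h => hxb h.1 h.2)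
      have hxp := hMp x hx
      have huniq : ∀ u ∈ B1 \ A1, u ≠ x → u ∈ B0 \ A0 ∧ μ u ∈ A1 \ B1 := by
        intro u hu hne
        by_contra h
        have hb' := hbroken u hu h
        rcases hb with ⟨h1, h2⟩ | ⟨h1, h2, h3⟩ | ⟨h1, h2, h3⟩ <;>
        rcases hb' with ⟨k1, k2⟩ | ⟨k1, k2, k3⟩ | ⟨k1, k2, k3⟩
        · exact hne (k2.trans h2.symm)
        · exact (mem_sdiff.mp (hμ u k2)).2 (k3 ▸ h2 ▸ hBs x (mem_sdiff.mp hx).1 hxp)
        · exact h1 k1
        · exact (mem_sdiff.mp (hμ x h2)).2 (h3 ▸ k2 ▸ hBs u (mem_sdiff.mp hu).1 (hMp u hu))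
        · exact hne (hinj (mem_coe.mpr k2) (mem_coe.mpr h2) (k3.trans h3.symm))
        · exact h1 k1
        · exact k1 h1
        · exact k1 h1
        · exact hne (hinj (mem_coe.mpr k2) (mem_coe.mpr h2) (k3.trans h3.symm))
      have hy : ∃ y ∈ A1 \ B1, (∀ u ∈ B1 \ A1, u ≠ x → μ u ≠ y) ∧ (p ∈ B0 → y = μ p) := by
        by_cases hpB0 : p ∈ B0
        · have hpA0 : p ∉ A0 := by
            rcases hb with h | h | ⟨_, h2, h3⟩
            · exact h.1
            · exact h.1
            · exact absurd (h3 ▸ hpB0) (mem_sdiff.mp (hμ x h2)).2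
          have hpM : p ∈ B0 \ A0 := mem_sdiff.mpr ⟨hpB0, hpA0⟩
          have h1 := mem_sdiff.mp (hμ p hpM)
          refine ⟨μ p, mem_sdiff.mpr ⟨?_, by rw [hBhit hpB0]; exact h1.2⟩, fun u hu hne h => ?_,
            fun _ => rfl⟩
          · rw [hAmiss hpA0]
            refine mem_insert_of_mem (mem_erase.mpr ⟨fun e => ?_, h1.1⟩)
            rcases hb with ⟨_, h2⟩ | ⟨_, h2, h3⟩ | ⟨h2, _⟩
            · exact h1.2 (e ▸ h2 ▸ hBs x (mem_sdiff.mp hx).1 hxp)
            · exact hxp (hinj (mem_coe.mpr h2) (mem_coe.mpr hpM) (h3.trans e.symm))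
            · exact hpA0 h2
          · exact hMp u hu (hinj (mem_coe.mpr (huniq u hu hne).1) (mem_coe.mpr hpM) h)
        · obtain ⟨y, hy1, hy2⟩ := exists_mem_notMem_of_card_lt_card
            (s := ((B1 \ A1).erase x).image μ) (t := A1 \ B1)
            (lt_of_le_of_lt card_image_le (by rw [← hcard]; exact card_erase_lt_of_mem hx))
          exact ⟨y, hy1, fun u hu hne h => hy2 (mem_image.mpr ⟨u, mem_erase.mpr ⟨hne, hu⟩, h⟩),
            fun h => absurd h hpB0⟩
      obtain ⟨y, hyH, hyn, hyp⟩ := hy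
      have hyB := (mem_sdiff.mp hyH).2
      have hyp' := hHp y hyH
      have hyA0 : y ∈ A0 := hAs y (mem_sdiff.mp hyH).1 hyp'
      have hyz : p ∉ A0 → y ≠ z := by
        intro h e
        have h1 := (mem_sdiff.mp hyH).1
        rw [hAmiss h, mem_insert] at h1
        rcases h1 with h1 | h1
        · exact hyp' h1
        · exact ne_of_mem_erase h1 e
      refine ⟨Function.update μ x y, fun u hu => ?_, fun u hu v hv h => ?_, ?_⟩
      · rw [Function.update_apply]
        split_ifs with h
        · exact hyH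
        · exact (huniq u hu h).2
      · rw [Function.update_apply, Function.update_apply] at h
        have hu' := mem_coe.mp hu
        have hv' := mem_coe.mp hv
        split_ifs at h with h1 h2 h2
        · rw [h1, h2]
        · exact absurd h.symm (hyn v hv' h2)
        · exact absurd h (hyn u hu' h1)
        · exact hinj (mem_coe.mpr (huniq u hu' h1).1) (mem_coe.mpr (huniq v hv' h2).1) h
      · rw [← add_sum_erase _ _ hx, Function.update_self]
        have hst : ∀ R : Finset α, R ⊆ B0 \ A0 → (∀ u ∈ R, u = x ∨ u = p) →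
            ∑ u ∈ (B1 \ A1).erase x, pc i d B C0 σ (s + 1) u (Function.update μ x y u) +
              ∑ u ∈ R, pc i d B C0 σ s u (μ u) ≤ ∑ u ∈ B0 \ A0, pc i d B C0 σ s u (μ u) := by
          intro R hR hR'
          refine sum_step _ _ R _ _ x hR (fun u hu hne => ⟨(huniq u hu hne).1, fun h => ?_, ?_⟩)
          · rcases hR' u h with h1 | h1
            · exact hne h1
            · exact hMp u hu h1
          · rw [Function.update_of_ne hne]
            exact pcm u _ (hMp u hu) (mem_sdiff.mp (huniq u hu hne).2).2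
        have e1 := pc1 x y hxp hyB
        have e2 := hwm x y
        have e3 := wv_mono i (hge x) (le_refl (gam (i + d) B C0 σ s y + d))
        rw [mul_add]
        rcases hb with ⟨h1, h2⟩ | ⟨h1, h2, h3⟩ | ⟨h1, h2, h3⟩
        · subst h2
          by_cases hnear : nxt σ s (σ.length + i) z ≤ s + i
          · have k1 := F1 hnear y hyA0 (hyz h1)
            have k2 := pc0 z y hxp hyp' (by omega) k1
            by_cases hpB0 : p ∈ B0
            · have k3 := hst {p} (singleton_subset_iff.mpr (mem_sdiff.mpr ⟨hpB0, h1⟩)) (by simp)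
              rw [sum_singleton, pcp] at k3
              split_ifs <;> omega
            · have k3 := hst ∅ (empty_subset _) (by simp)
              rw [if_pos h1, if_pos hpB0]; omega
          · by_cases hpB0 : p ∈ B0
            · have k3 := hst {p} (singleton_subset_iff.mpr (mem_sdiff.mpr ⟨hpB0, h1⟩)) (by simp)
              rw [sum_singleton, pcp, ← hyp hpB0] at k3
              by_cases hg : gam (i + d) B C0 σ s y + d ≤ s
              · have k4 := F2 (fun h => hkn h (mem_sdiff.mp hx).1) y hyA0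
                  (gam_known _ d hd _ _ _ _ _ hg
                    (by rw [hp]; exact fun h => hyp' (Option.some_inj.mp h).symm))
                have k2 := pc0 z y hxp hyp' k4 (by omega)
                split_ifs <;> omega
              · have k4 := wv_step i (s := s) (τ := nxt σ s (σ.length + i) z)
                  (β := gam (i + d) B C0 σ s y + d) (by omega) (by omega)
                split_ifs <;> omega
            · have k3 := hst ∅ (empty_subset _) (by simp)
              have k4 := wv_step i (s := s) (τ := nxt σ s (σ.length + i) z)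
                  (β := s + d) (by omega) (by omega)
              have k5 := wv_mono i (le_refl (nxt σ s (σ.length + i) z))
                (show gam (i + d) B C0 σ s y + d ≤ s + d by
                  have := gam_le (i + d) B C0 σ s y; omega)
              rw [wv_top, hm] at k4
              rw [if_pos h1, if_pos hpB0]; omega
        · have k0 : pc i d B C0 σ s x (μ x) = 0 → pc i d B C0 σ (s + 1) x y = 0 := by
            intro h
            rw [h3] at h
            have k1 := pcz x z h
            have k2 := F1 k1.1 y hyA0 (hyz h1)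
            exact pc0 x y hxp hyp' (by omega) (by omega)
          by_cases hpB0 : p ∈ B0
          · have k3 := hst {x, p} (insert_subset h2
              (singleton_subset_iff.mpr (mem_sdiff.mpr ⟨hpB0, h1⟩))) (by simp)
            rw [sum_pair hxp, pcp, ← hyp hpB0] at k3
            split_ifs <;> omega
          · have k3 := hst {x} (singleton_subset_iff.mpr h2) (by simp)
            rw [sum_singleton] at k3
            rw [if_pos h1, if_pos hpB0]; omega
        · have hpB0 : p ∉ B0 := h3 ▸ (mem_sdiff.mp (hμ x h2)).2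
          have k3 := hst ∅ (empty_subset _) (by simp)
          rw [if_neg (not_not.mpr h1), if_pos hpB0]; omega

lemma upper_of (C0 : Finset α) (i l R b : ℕ)
    (h : ∀ B : Alg α, ∃ A : Alg α, ∀ σ, cost i A C0 σ ≤ R * cost l B C0 σ + b) :
    comp C0 i l ≤ ((R : ℝ) : EReal) := by
  refine iSup_le fun B => ?_
  obtain ⟨A, hA⟩ := h B
  refine iInf_le_of_le A (iInf_le_of_le (R : ℝ) (iInf_le_of_le ⟨b, fun σ => ?_⟩ le_rfl))
  exact_mod_cast hA σ

theorem comp_eq (C0 : Finset α) (hC : C0.Nonempty) (p0 : α) (hp0 : p0 ∉ C0) (i l : ℕ)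
    (hil : i < l) : comp C0 i l = (((min C0.card (l / (i + 1) + 1) : ℕ) : ℝ) : EReal) := by
  have hk := card_pos.mpr hC
  apply le_antisymm
  · rcases le_total C0.card (l / (i + 1) + 1) with h | h
    · rw [min_eq_left h]
      exact upper_of C0 i l _ C0.card (fun B => upper_k p0 C0 hC i l B)
    · rw [min_eq_right h]
      obtain ⟨d, rfl⟩ : ∃ d, l = i + d := ⟨l - i, by omega⟩
      refine upper_of C0 i (i + d) _ 0 (fun B => ⟨simAlg p0 i d B C0, fun σ => ?_⟩)
      obtain ⟨μ, _, _, h1⟩ := sim_bound p0 C0 hC i d (by omega) B σ σ.length le_rfl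
      rw [cost_eq, cost_eq]
      omega
  · have h1 : min C0.card (l / (i + 1) + 1) = min (C0.card - 1) (l / (i + 1)) + 1 := by
      generalize l / (i + 1) = q; omega
    rw [h1]
    refine lower i l _ C0 hC p0 hp0 ?_ ?_
    · generalize l / (i + 1) = q; omega
    · exact (Nat.mul_le_mul_right _ (min_le_right _ _)).trans (Nat.div_mul_le_self _ _)

end Pool.Agent.H27.Page
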