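import Mathlib

set_option autoImplicit false
set_option synthInstance.maxSize 100000

namespace Pool.Agent.H27.Paint

open Finset

abbrev V := {s : Finset (Fin 7) // s.card = 1 ∨ s.card = 3}

def G : SimpleGraph V where
  Adj s t := s.1 ⊂ t.1 ∨ t.1 ⊂ s.1
  symm := ⟨fun _ _ h => h.symm⟩
  loopless := ⟨fun _ h => h.elim (ssubset_irrefl _) (ssubset_irrefl _)⟩

instance : DecidableRel G.Adj := fun s t => inferInstanceAs (Decidable (s.1 ⊂ t.1 ∨ t.1 ⊂ s.1))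

def act (σ : Equiv.Perm (Fin 7)) : G ≃g G where
  toEquiv := (σ.finsetCongr).subtypeEquiv fun s => by simp
  map_rel_iff' := by intro s t; simp [G]

def pt (i : Fin 7) : V := ⟨{i}, Or.inl rfl⟩

lemma key (a b c : Finset (Fin 7)) (ha : a.card ≤ 3) (hb : b.card ≤ 3) (hc : c.card ≤ 3) :
    ∃ σ : Equiv.Perm (Fin 7), (∃ i, σ i ≠ i) ∧ (∀ i, σ.symm i ∈ c ↔ i ∈ c) ∧
      ((∀ i, σ.symm i ∈ a ↔ i ∈ a) ∧ (∀ i, σ.symm i ∈ b ↔ i ∈ b) ∨
        (∀ i, σ.symm i ∈ a ↔ i ∈ b) ∧ (∀ i, σ.symm i ∈ b ↔ i ∈ a)) := by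
  let f : Fin 7 → Bool × Bool × Bool := fun i => (i ∈ a, i ∈ b, i ∈ c)
  by_cases hf : Function.Injective f
  · let w : Bool × Bool × Bool → ℕ := fun x => x.1.toNat + x.2.1.toNat + x.2.2.toNat
    have h1 : ∀ s : Finset (Fin 7), ∑ i, (decide (i ∈ s)).toNat = s.card := by decide +kernel
    have h2 : ∑ x ∈ univ.image f, w x ≤ 9 := by
      rw [sum_image hf.injOn]
      simp only [w, f, sum_add_distrib, h1]; omega
    have h3 : (univ.image f).card = 7 := by rw [card_image_of_injective _ hf]; simp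
    have h4 : ∀ I : Finset (Bool × Bool × Bool), I.card = 7 → ∑ x ∈ I, w x ≤ 9 →
        (true, false, false) ∈ I ∧ ∀ x ∈ I, (x.2.1, x.1, x.2.2) ∈ I := by decide +kernel
    obtain ⟨h5, h6⟩ := h4 _ h3 h2
    have h7 : ∀ i, ∃ j, f j = ((f i).2.1, (f i).1, (f i).2.2) := fun i => by
      simpa using h6 _ (mem_image_of_mem f (mem_univ i))
    choose g hg using h7
    have h8 : Function.Involutive g := fun i => hf (by rw [hg, hg])
    obtain ⟨i, -, hi⟩ := mem_image.mp h5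
    refine ⟨h8.toPerm, ⟨i, fun h => ?_⟩, fun j => ?_, Or.inr ⟨fun j => ?_, fun j => ?_⟩⟩
    · have := hg i
      rw [show g i = i from h, hi] at this
      simp at this
    · simpa [f] using congrArg (·.2.2) (hg j)
    · simpa [f] using congrArg (·.1) (hg j)
    · simpa [f] using congrArg (·.2.1) (hg j)
  · obtain ⟨x, y, h, hxy⟩ := Function.not_injective_iff.mp hf
    simp only [f, Prod.mk.injEq, decide_eq_decide] at h
    have : ∀ s : Finset (Fin 7), (x ∈ s ↔ y ∈ s) → ∀ i, (Equiv.swap x y).symm i ∈ s ↔ i ∈ s := by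
      intro s hs i
      rw [Equiv.symm_swap, Equiv.swap_apply_def]
      split_ifs with h1 h2
      · rw [h1, hs]
      · rw [h2, hs]
      · rfl
    exact ⟨Equiv.swap x y, ⟨x, by simpa using hxy.symm⟩, this c h.2.2,
      Or.inl ⟨this a h.1, this b h.2.1⟩⟩

lemma low (a b c : V) : ∃ φ : G ≃g G, (∃ v, φ v ≠ v) ∧ φ c = c ∧
    (φ a = a ∧ φ b = b ∨ φ a = b ∧ φ b = a) := by
  obtain ⟨σ, ⟨i, hi⟩, h1, h2⟩ := key a.1 b.1 c.1 (by have := a.2; omega) (by have := b.2; omega)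
    (by have := c.2; omega)
  have : ∀ s t : V, (∀ i, σ.symm i ∈ s.1 ↔ i ∈ t.1) → act σ s = t := fun s t h => by
    apply Subtype.ext
    ext j
    simp [act, ← h]
  refine ⟨act σ, ⟨pt i, fun h => hi ?_⟩, this _ _ h1, h2.imp (fun h => ⟨this _ _ h.1, this _ _ h.2⟩)
    fun h => ⟨this _ _ h.1, this _ _ h.2⟩⟩
  simpa [act, pt] using congrArg Subtype.val h

lemma deg : ∀ v : V, G.degree v = if v.1.card = 1 then 15 else 3 := by decide +kernel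

lemma adj_pt : ∀ (i : Fin 7) (t : V), G.Adj (pt i) t ↔ t.1.card = 3 ∧ i ∈ t.1 := by decide +kernel

lemma struct (φ : G ≃g G) : ∃ σ : Fin 7 → Fin 7, (∀ i, φ (pt i) = pt (σ i)) ∧
    ∀ t : V, t.1.card = 3 → (φ t).1.card = 3 ∧ ∀ i, σ i ∈ (φ t).1 ↔ i ∈ t.1 := by
  have hd : ∀ v, (φ v).1.card = v.1.card := fun v => by
    have h := φ.degree_eq v
    rw [deg, deg] at h
    have := v.2
    have := (φ v).2
    split_ifs at h <;> omega
  have h1 : ∀ i, ∃ j, φ (pt i) = pt j := fun i => by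
    obtain ⟨j, hj⟩ := card_eq_one.mp (hd (pt i))
    exact ⟨j, Subtype.ext hj⟩
  choose σ hσ using h1
  refine ⟨σ, hσ, fun t ht => ⟨(hd t).trans ht, fun i => ?_⟩⟩
  have := φ.map_adj_iff (v := pt i) (w := t)
  rw [hσ, adj_pt, adj_pt, hd] at this
  simpa [ht] using this

lemma fin (φ : G ≃g G) (h : ∀ i, φ (pt i) = pt i) (v : V) : φ v = v := by
  obtain ⟨σ, h1, h2⟩ := struct φ
  have h3 : ∀ i, σ i = i := fun i => by
    simpa [pt] using congrArg Subtype.val ((h1 i).symm.trans (h i))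
  rcases v.2 with hv | hv
  · obtain ⟨j, hj⟩ := card_eq_one.mp hv
    rw [show v = pt j from Subtype.ext hj, h]
  · apply Subtype.ext
    ext i
    simpa [h3] using (h2 v hv).2 i

def S4 : Finset V := {⟨{0, 1, 2}, Or.inr rfl⟩, ⟨{0, 1, 3}, Or.inr rfl⟩, ⟨{0, 2, 4}, Or.inr rfl⟩,
  ⟨{1, 4, 5}, Or.inr rfl⟩}

def T : Fin 3 → V := ![⟨{0, 1, 3}, Or.inr rfl⟩, ⟨{0, 2, 4}, Or.inr rfl⟩, ⟨{1, 2, 5}, Or.inr rfl⟩]

lemma up4 (φ : G ≃g G) (h : ∀ v ∈ S4, φ v ∈ S4) (v : V) : φ v = v := by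
  obtain ⟨σ, h1, h2⟩ := struct φ
  have k : ∀ a ∈ S4, ∀ b ∈ S4, ∀ c ∈ S4, ∀ d ∈ S4, (∀ i : Fin 7, ∃ j : Fin 7,
      (j ∈ a.1 ↔ i ∈ ({0, 1, 2} : Finset _)) ∧ (j ∈ b.1 ↔ i ∈ ({0, 1, 3} : Finset _)) ∧
      (j ∈ c.1 ↔ i ∈ ({0, 2, 4} : Finset _)) ∧ (j ∈ d.1 ↔ i ∈ ({1, 4, 5} : Finset _))) →
      ∀ i j : Fin 7, (j ∈ a.1 ↔ i ∈ ({0, 1, 2} : Finset _)) ∧ (j ∈ b.1 ↔ i ∈ ({0, 1, 3} : Finset _)) ∧
      (j ∈ c.1 ↔ i ∈ ({0, 2, 4} : Finset _)) ∧ (j ∈ d.1 ↔ i ∈ ({1, 4, 5} : Finset _)) → j = i := by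
    decide +kernel
  have m := fun i => And.intro ((h2 ⟨{0, 1, 2}, Or.inr rfl⟩ rfl).2 i)
    (And.intro ((h2 ⟨{0, 1, 3}, Or.inr rfl⟩ rfl).2 i) (And.intro ((h2 ⟨{0, 2, 4}, Or.inr rfl⟩ rfl).2 i)
    ((h2 ⟨{1, 4, 5}, Or.inr rfl⟩ rfl).2 i)))
  refine fin φ (fun i => ?_) v
  rw [h1, k _ (h _ (by decide)) _ (h _ (by decide)) _ (h _ (by decide)) _ (h _ (by decide))
    (fun i => ⟨σ i, m i⟩) i (σ i) (m i)]

lemma up3 (φ : G ≃g G) (h : ∀ k, φ (T k) = T k) (v : V) : φ v = v := by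
  obtain ⟨σ, h1, h2⟩ := struct φ
  have k : ∀ i j : Fin 7, (∀ k, j ∈ (T k).1 ↔ i ∈ (T k).1) → j = i := by decide +kernel
  refine fin φ (fun i => ?_) v
  rw [h1, k i (σ i) fun k => ?_]
  have := (h2 (T k) (by revert k; decide)).2 i
  rwa [h] at this

end Pool.Agent.H27.Paint
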