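import Pool.Agent.H27.RainDef

set_option autoImplicit false

namespace Pool.Agent.H27.Rain

open Finset

variable {P : Type}

def G (P : Type) : SimpleGraph (ZMod 3 × P) := SimpleGraph.comap Prod.fst ⊤

theorem G_adj (u v : ZMod 3 × P) : (G P).Adj u v ↔ u.1 ≠ v.1 := Iff.rfl

def B {L : Type} (l0 : L) : SimpleGraph (Bool ⊕ L) :=
  SimpleGraph.fromRel fun a b => (a = .inl false ∧ ∃ l, b = .inr l) ∨ (a = .inr l0 ∧ b = .inl true)

theorem B_edge {L : Type} (l0 : L) (e : Sym2 (Bool ⊕ L)) : e ∈ (B l0).edgeSet ↔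
    (∃ l, e = s(.inl false, .inr l)) ∨ e = s(.inr l0, .inl true) := by
  induction e using Sym2.ind with | _ a b => ?_
  simp only [B, SimpleGraph.mem_edgeSet, SimpleGraph.fromRel_adj, Sym2.eq_iff]
  rcases a with (_ | _) | a <;> rcases b with (_ | _) | b <;> simp

theorem B_conn {L : Type} (l0 : L) : (B l0).Connected := by
  have h1 : ∀ l, (B l0).Adj (.inl false) (.inr l) := fun l =>
    (B_edge l0 s(_, _)).2 (Or.inl ⟨l, rfl⟩)
  have h2 : (B l0).Adj (.inr l0) (.inl true) := (B_edge l0 s(_, _)).2 (Or.inr rfl)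
  refine (SimpleGraph.connected_iff_exists_forall_reachable _).2 ⟨.inl false, ?_⟩
  rintro ((_ | _) | l)
  · rfl
  · exact (h1 l0).reachable.trans h2.reachable
  · exact (h1 l).reachable

theorem pr_inj {V : Type} {K : SimpleGraph V} {c : Sym2 V → ℕ} (hc : Proper K c) {v a b : V}
    (ha : K.Adj v a) (hb : K.Adj v b) (h : c s(v, a) = c s(v, b)) : a = b := by
  by_contra hne
  exact hc _ ha _ hb (fun e => hne (Sym2.congr_right.1 e)) ⟨v, by simp, by simp⟩ h

theorem pr_of {V C : Type} [Encodable C] (K : SimpleGraph V) (f : V → V → C)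
    (hs : ∀ u v, f u v = f v u)
    (hi : ∀ v a b, K.Adj v a → K.Adj v b → f v a = f v b → a = b) :
    Proper K fun e => Encodable.encode (Sym2.lift ⟨f, hs⟩ e) := by
  rintro e he g hg hne ⟨v, h1, h2⟩ h
  obtain ⟨a, rfl⟩ := Sym2.mem_iff_exists.1 h1
  obtain ⟨b, rfl⟩ := Sym2.mem_iff_exists.1 h2
  exact hne (by rw [hi v a b he hg (Encodable.encode_injective h)])

variable [Fintype P] [DecidableEq P]

theorem cardN (i : ZMod 3) : Fintype.card {z : ZMod 3 × P // i ≠ z.1} = 2 * Fintype.card P := by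
  rw [Fintype.card_subtype, show (univ.filter fun z : ZMod 3 × P => i ≠ z.1) =
    (univ.erase i) ×ˢ univ by ext z; simp [eq_comm]]
  simp

theorem lemA {L : Type} [Fintype L] (l0 : L) (hL : Fintype.card L = 2 * Fintype.card P)
    (c : Sym2 (ZMod 3 × P) → ℕ) (hc : Proper (G P) c) (hn : ¬ Rainbow (B l0) (G P) c)
    (v w u : ZMod 3 × P) (h1 : v.1 = w.1) (h2 : w.1 ≠ u.1) :
    ∃ z, v.1 ≠ z.1 ∧ c s(v, z) = c s(w, u) := by
  by_cases hvw : v = w
  · exact ⟨u, h1 ▸ h2, by rw [hvw]⟩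
  by_contra hz
  push Not at hz
  classical
  let e := (Fintype.equivOfCardEq (hL.trans (cardN v.1).symm)).setValue l0 ⟨u, h1 ▸ h2⟩
  have e0 : (e l0).1 = u := by simp [e]
  let φ : Bool ⊕ L → ZMod 3 × P := Sum.elim (fun b => if b then w else v) fun l => (e l).1
  refine hn ⟨⟨φ, fun {a b} hab => ?_⟩, ?_, ?_⟩
  · have : s(φ a, φ b) ∈ (G P).edgeSet := by
      rw [← Sym2.map_mk]
      rcases (B_edge l0 s(a, b)).1 hab with ⟨l, h⟩ | h <;> rw [h]
      · exact (e l).2
      · show (e l0).1.1 ≠ w.1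
        rw [e0]; exact h2.symm
    exact this
  · rintro ((_ | _) | a) ((_ | _) | b) h
    all_goals first
      | rfl
      | exact absurd h hvw
      | exact absurd h.symm hvw
      | exact absurd (congrArg Prod.fst h) (e b).2
      | exact absurd (congrArg Prod.fst h).symm (e a).2
      | exact absurd (h1.trans (congrArg Prod.fst h)) (e b).2
      | exact absurd (h1.trans (congrArg Prod.fst h).symm) (e a).2
      | exact congrArg _ (e.injective (Subtype.ext h))
  · intro x hx y hy h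
    have k : c s((e l0).1, w) = c s(w, u) := by rw [e0, Sym2.eq_swap]
    rcases (B_edge l0 x).1 hx with ⟨a, rfl⟩ | rfl <;> rcases (B_edge l0 y).1 hy with ⟨b, rfl⟩ | rfl
    · rw [e.injective (Subtype.ext (pr_inj hc (e a).2 (e b).2 h))]
    · exact absurd (h.trans k) (hz _ (e a).2)
    · exact absurd (h.symm.trans k) (hz _ (e b).2)
    · rfl

theorem lemC (ho : Odd (Fintype.card P)) (c : Sym2 (ZMod 3 × P) → ℕ) (hc : Proper (G P) c)
    (h : ∀ v w u : ZMod 3 × P, v.1 = w.1 → w.1 ≠ u.1 → ∃ z, v.1 ≠ z.1 ∧ c s(v, z) = c s(w, u)) :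
    3 * Fintype.card P ≤ (c '' (G P).edgeSet).ncard := by
  obtain ⟨p⟩ : Nonempty P := Fintype.card_pos_iff.1 ho.pos
  let A : ZMod 3 → Finset ℕ := fun i =>
    univ.image fun z : {z : ZMod 3 × P // i ≠ z.1} => c s((i, p), z.1)
  have cA : ∀ i, (A i).card = 2 * Fintype.card P := fun i =>
    (card_image_of_injective _ fun (a b : {z : ZMod 3 × P // i ≠ z.1}) e =>
      Subtype.ext (pr_inj hc (v := (i, p)) ((G_adj _ _).2 a.2) ((G_adj _ _).2 b.2) e)).trans (card_univ.trans (cardN i))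
  have sub : ∀ S : Finset ℕ, (∀ γ ∈ S, ∃ i, γ ∈ A i) → S.card ≤ (c '' (G P).edgeSet).ncard := by
    intro S hS
    rw [← Set.ncard_coe_finset]
    refine Set.ncard_le_ncard (fun γ hγ => ?_) (Set.toFinite _)
    obtain ⟨i, hi⟩ := hS γ hγ
    obtain ⟨z, -, rfl⟩ := mem_image.1 hi
    exact ⟨_, z.2, rfl⟩
  have dj : Disjoint (A 0 ∩ A 1) (A 2) := by
    refine disjoint_left.2 fun γ h1 h2 => ?_
    have h3 : ∀ v : ZMod 3 × P, ∃ z, v.1 ≠ z.1 ∧ c s(v, z) = γ := by
      intro v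
      have : γ ∈ A v.1 := by
        obtain e | e | e : v.1 = 0 ∨ v.1 = 1 ∨ v.1 = 2 := by generalize v.1 = i; revert i; decide
        · exact e ▸ (mem_inter.1 h1).1
        · exact e ▸ (mem_inter.1 h1).2
        · exact e ▸ h2
      obtain ⟨z, -, rfl⟩ := mem_image.1 this
      exact h v (v.1, p) z rfl z.2
    choose f hf1 hf2 using h3
    have h4 : ∑ _v : ZMod 3 × P, (1 : ZMod 2) = 0 :=
      sum_involution (fun v _ => f v) (fun _ _ => rfl)
        (fun v _ _ e => hf1 v (by rw [e])) (fun _ _ => mem_univ _)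
        fun v _ => pr_inj hc (hf1 (f v)) (hf1 v).symm (by rw [hf2, Sym2.eq_swap, hf2])
    rw [sum_const, card_univ, nsmul_eq_mul, mul_one, ZMod.natCast_eq_zero_iff_even,
      Fintype.card_prod, ZMod.card] at h4
    exact Nat.not_even_iff_odd.2 (Odd.mul (by decide) ho) h4
  have s1 := sub (A 0 ∪ A 1) fun γ hγ => by rcases mem_union.1 hγ with h | h <;> exact ⟨_, h⟩
  have s2 := sub (A 0 ∩ A 1 ∪ A 2) fun γ hγ => by
    rcases mem_union.1 hγ with h | h
    exacts [⟨_, (mem_inter.1 h).1⟩, ⟨_, h⟩]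
  rw [card_union_of_disjoint dj, cA] at s2
  have := card_union_add_card_inter (A 0) (A 1)
  rw [cA, cA] at this
  omega

theorem lemB [AddCommGroup P] [Encodable (ZMod 3 × P)] {L : Type} [Fintype L] (l0 : L)
    (hL : Fintype.card L = 2 * Fintype.card P) :
    ∃ c, Proper (G P) c ∧ ¬ Rainbow (B l0) (G P) c := by
  refine ⟨_, pr_of (G P) (· + ·) add_comm fun v a b _ _ e => add_left_cancel e, ?_⟩
  rintro ⟨φ, h1, h2⟩
  have a1 : ∀ l, (B l0).Adj (.inl false) (.inr l) := fun l =>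
    (B_edge l0 s(_, _)).2 (Or.inl ⟨l, rfl⟩)
  have a2 : (B l0).Adj (.inr l0) (.inl true) := (B_edge l0 s(_, _)).2 (Or.inr rfl)
  let g : L → {z : ZMod 3 × P // (φ (.inl false)).1 ≠ z.1} := fun l => ⟨φ (.inr l), φ.map_adj (a1 l)⟩
  have hg : Function.Surjective g := ((Fintype.bijective_iff_injective_and_card g).2
    ⟨fun a b e => Sum.inr_injective (h1 (congrArg Subtype.val e)), hL.trans (cardN _).symm⟩).2
  have hw : (φ (.inl false)).1 = (φ (.inl true)).1 := by
    by_contra hh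
    obtain ⟨l, e⟩ := hg ⟨_, hh⟩
    exact absurd (h1 (congrArg Subtype.val e)) (by simp)
  obtain ⟨l, e⟩ := hg ⟨φ (.inr l0) + φ (.inl true) - φ (.inl false), by
    simpa [hw] using (G_adj _ _).1 (φ.map_adj a2).symm⟩
  have e' : φ (.inr l) = _ := congrArg Subtype.val e
  have := h2 (x₁ := s(.inl false, .inr l)) (a1 l) (x₂ := s(.inr l0, .inl true)) a2 (by
    simp [e'])
  simp at this

end Pool.Agent.H27.Rain
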