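import Mathlib

set_option autoImplicit false

namespace Pool.Agent.H27.Rain

variable {V W : Type}

/-- proper edge colouring (only the values on edges of `G` matter) -/
def Proper (G : SimpleGraph V) (c : Sym2 V → ℕ) : Prop :=
  ∀ e ∈ G.edgeSet, ∀ f ∈ G.edgeSet, e ≠ f → (∃ v, v ∈ e ∧ v ∈ f) → c e ≠ c f

/-- the chromatic index -/
noncomputable def chi (G : SimpleGraph V) : ℕ :=
  sInf {m | ∃ c, Proper G c ∧ (c '' G.edgeSet).ncard = m}

/-- `c` has a rainbow copy of `H` -/
def Rainbow (H : SimpleGraph W) (G : SimpleGraph V) (c : Sym2 V → ℕ) : Prop :=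
  ∃ φ : H →g G, Function.Injective φ ∧ Set.InjOn (fun e => c (e.map φ)) H.edgeSet

/-- `G` is a non-monotone witness for `H` -/
def Witness (H : SimpleGraph W) (G : SimpleGraph V) : Prop :=
  (∀ c, Proper G c → (c '' G.edgeSet).ncard = chi G → Rainbow H G c) ∧
    ∃ c, Proper G c ∧ ¬ Rainbow H G c

end Pool.Agent.H27.Rain
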