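import Mathlib

set_option autoImplicit false

namespace Pool.Agent.H27.Rapid

open Finset FreeGroup
open scoped Pointwise

abbrev G := FreeGroup ℕ
abbrev Lt := ℕ × Bool

def occ (i : ℕ) (w : G) : ℕ := w.toWord.countP (fun p => p.1 = i)

def fl (p : Lt) : Lt := (p.1, !p.2)

lemma occ_mul (i : ℕ) (u v : G) : occ i (u * v) ≤ occ i u + occ i v := by
  unfold occ
  rw [← List.countP_append]
  exact (toWord_mul_sublist u v).countP_le

lemma occ_inv (i : ℕ) (u : G) : occ i u⁻¹ = occ i u := by
  unfold occ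
  rw [toWord_inv, invRev, List.countP_reverse, List.countP_map]
  rfl

lemma tw_mul {u v : G} (h : IsReduced (u.toWord ++ v.toWord)) :
    (u * v).toWord = u.toWord ++ v.toWord := by
  rw [toWord_mul, h.reduce_eq]

lemma red_append (u v : G) (h : ∀ b ∈ v.toWord.head?, u.toWord.getLast? ≠ some (fl b)) :
    IsReduced (u.toWord ++ v.toWord) := by
  unfold FreeGroup.IsReduced
  rw [List.isChain_append]
  refine ⟨isReduced_toWord, isReduced_toWord, fun a ha b hb h1 => ?_⟩
  by_contra h2
  apply h b hb
  rw [Option.mem_def.mp ha]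
  congr 1
  refine Prod.ext h1 ?_
  simp only [fl]
  cases ha2 : a.2 <;> cases hb2 : b.2 <;> simp_all

lemma norm_cancel (u : G) (y : Lt) (h : u.toWord.getLast? = some y) :
    norm (u * mk [fl y]) + 1 ≤ norm u := by
  obtain ⟨l, hl⟩ := List.getLast?_eq_some_iff.mp h
  have h1 : u * mk [fl y] = mk l := by
    rw [← mk_toWord (x := u), hl, ← mul_mk, mul_assoc]
    have : (mk [y] : G) * mk [fl y] = 1 := by
      rw [mul_eq_one_iff_eq_inv', inv_mk]; simp [invRev, fl]
    rw [this, mul_one]
  rw [h1]
  have h2 : norm (mk l : G) ≤ l.length := norm_mk_le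
  have h3 : norm u = l.length + 1 := by rw [FreeGroup.norm, hl]; simp
  omega

lemma centroid (S : Finset G) : ∃ g : G, ∀ y : Lt,
    2 * #{s ∈ S | (s * g).toWord.getLast? = some y} ≤ #S := by
  obtain ⟨g, hg⟩ : ∃ g : G, ∀ h : G, ∑ s ∈ S, norm (s * g) ≤ ∑ s ∈ S, norm (s * h) := by
    have := exists_minimalFor_of_wellFoundedLT (fun _ : G => True)
      (fun g => ∑ s ∈ S, norm (s * g)) ⟨1, trivial⟩
    obtain ⟨g, hg⟩ := this
    exact ⟨g, fun h => hg.le trivial⟩
  refine ⟨g, fun y => ?_⟩
  have h1 := hg (g * mk [fl y])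
  have h2 : ∀ s ∈ S, norm (s * (g * mk [fl y])) +
      2 * (if (s * g).toWord.getLast? = some y then 1 else 0) ≤ norm (s * g) + 1 := by
    intro s _
    rw [← mul_assoc]
    split_ifs with h
    · have := norm_cancel _ y h; omega
    · have h3 := norm_mul_le (s * g) (mk [fl y])
      have h4 : norm (mk [fl y] : G) ≤ 1 := norm_mk_le
      omega
  have h3 := sum_le_sum h2
  rw [sum_add_distrib, sum_add_distrib, ← mul_sum, ← card_filter] at h3
  simp only [sum_const, smul_eq_mul, mul_one] at h3
  omega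

lemma cnt (l : List Lt) (y : Lt) :
    #{k ∈ range l.length | l[k]? = some y} ≤ l.countP (fun p => p.1 = y.1) := by
  induction l using List.reverseRecOn with
  | nil => simp
  | append_singleton l a ih =>
    rw [List.length_append, List.length_singleton, range_add_one, filter_insert,
      List.countP_append]
    have h1 : {k ∈ range l.length | (l ++ [a])[k]? = some y} =
        {k ∈ range l.length | l[k]? = some y} := by
      refine filter_congr (fun k hk => ?_)
      rw [List.getElem?_append_left (mem_range.mp hk)]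
    rw [h1]
    split_ifs with h
    · have h2 : a = y := by simpa using h
      subst h2
      have := card_insert_le l.length {k ∈ range l.length | l[k]? = some a}
      simp only [List.countP_singleton, decide_true, if_true]
      omega
    · omega

lemma split_lt {α : Type} {a b c d : List α} (h : a ++ b = c ++ d) (hl : a.length < c.length) :
    ∃ y, b.head? = some y ∧ a ++ [y] <+: c := by
  rcases List.append_eq_append_iff.mp h with ⟨e, rfl, rfl⟩ | ⟨e, rfl, _⟩
  · cases e with
    | nil => simp at hl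
    | cons y e => exact ⟨y, rfl, ⟨e, by simp⟩⟩
  · simp at hl

variable [DecidableEq G]

lemma forest (S : Finset G) (Y : Finset (G × Option Lt))
    (hY : ∀ q ∈ Y, q.1 ∈ S ∧ ∃ y, q.2 = some y ∧ ∃ s' ∈ S, q.1.toWord ++ [y] <+: s'.toWord) :
    #Y ≤ #S := by
  have h1 : ∀ q ∈ Y, ∃ s' ∈ S, ∃ y, q.2 = some y ∧ q.1.toWord ++ [y] <+: s'.toWord ∧
      ∀ s'' ∈ S, q.1.toWord ++ [y] <+: s''.toWord → s'.toWord.length ≤ s''.toWord.length := by
    intro q hq
    obtain ⟨_, y, hy, s', hs', hp⟩ := hY q hq
    obtain ⟨s, hs, hmin⟩ := exists_min_image {s ∈ S | q.1.toWord ++ [y] <+: s.toWord}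
      (fun s => s.toWord.length) ⟨s', mem_filter.mpr ⟨hs', hp⟩⟩
    rw [mem_filter] at hs
    exact ⟨s, hs.1, y, hy, hs.2, fun s'' h h' => hmin s'' (mem_filter.mpr ⟨h, h'⟩)⟩
  choose! f hfS hf using h1
  refine card_le_card_of_injOn f (fun q hq => hfS q hq) ?_
  have aux : ∀ q ∈ Y, ∀ q' ∈ Y, f q = f q' → ¬ q.1.toWord.length < q'.1.toWord.length := by
    intro q hq q' hq' h hlt
    obtain ⟨y, _, hp, hmin⟩ := hf q hq
    obtain ⟨y', _, hp', _⟩ := hf q' hq'
    rw [← h] at hp'
    have h2 : q'.1.toWord <+: (f q).toWord := (List.prefix_append _ _).trans hp'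
    have h3 : q.1.toWord ++ [y] <+: q'.1.toWord :=
      List.prefix_of_prefix_length_le hp h2 (by simpa using hlt)
    have h4 := hmin q'.1 (hY q' hq').1 h3
    have h5 := hp'.length_le
    simp at h5
    omega
  intro q hq q' hq' h
  have h2 := aux q hq q' hq' h
  have h3 := aux q' hq' q hq h.symm
  obtain ⟨y, hy, hp, _⟩ := hf q hq
  obtain ⟨y', hy', hp', _⟩ := hf q' hq'
  rw [← h] at hp'
  have h4 : q.1.toWord ++ [y] = q'.1.toWord ++ [y'] :=
    (List.prefix_of_prefix_length_le hp hp' (by simp; omega)).eq_of_length (by simp; omega)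
  have h5 := List.append_inj' h4 rfl
  refine Prod.ext (toWord_injective h5.1) ?_
  rw [hy, hy']
  simpa using h5.2

theorem core (S X : Finset G) (R : ℕ)
    (H1 : ∀ y : Lt, 2 * #{s ∈ S | s.toWord.getLast? = some y} ≤ #S)
    (H2 : ∀ s ∈ S, ∀ s' ∈ S, ∀ i, occ i (s * s'⁻¹) ≤ R) :
    #S * #X ≤ (4 + 12 * R) * #(S * X) := by
  classical
  have H3 : ∀ s ∈ S, ∀ i, occ i s ≤ R := by
    intro s hs i
    cases hl : s.toWord.getLast? with
    | none =>
      rw [List.getLast?_eq_none_iff] at hl
      simp [occ, hl]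
    | some y =>
      have h1 := H1 y
      have h2 : 0 < #S := card_pos.mpr ⟨s, hs⟩
      obtain ⟨s', hs', hne⟩ := exists_mem_notMem_of_card_lt_card
        (s := {s ∈ S | s.toWord.getLast? = some y}) (t := S) (by omega)
      have h3 : IsReduced (s.toWord ++ s'⁻¹.toWord) := by
        refine red_append _ _ (fun b hb h => hne ?_)
        rw [mem_filter]
        refine ⟨hs', ?_⟩
        rw [hl] at h
        rw [toWord_inv, invRev, List.head?_reverse, List.getLast?_map, Option.mem_def,
          Option.map_eq_some_iff] at hb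
        obtain ⟨a, ha, rfl⟩ := hb
        rw [ha, h]; simp [fl]
      have h4 := H2 s hs s' hs' i
      unfold occ at h4 ⊢
      rw [tw_mul h3, List.countP_append] at h4
      omega
  set P := {p ∈ S ×ˢ X | IsReduced (p.1.toWord ++ p.2.toWord)} with hP
  have hPcard : #S * #X ≤ 2 * #P := by
    have h1 : #P = ∑ x ∈ X, #{s ∈ S | IsReduced (s.toWord ++ x.toWord)} := by
      rw [hP, card_filter, sum_product_right]
      simp only [card_filter]
    have h2 : ∀ x ∈ X, #S ≤ 2 * #{s ∈ S | IsReduced (s.toWord ++ x.toWord)} := by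
      intro x _
      have h3 := card_filter_add_card_filter_not (s := S)
        (fun s => IsReduced (s.toWord ++ x.toWord))
      cases hb : x.toWord.head? with
      | none =>
        have : {s ∈ S | ¬ IsReduced (s.toWord ++ x.toWord)} = ∅ := by
          rw [filter_eq_empty_iff]
          intro s _
          exact not_not.mpr (red_append _ _ (by simp [hb]))
        rw [this] at h3
        simp only [card_empty] at h3
        omega
      | some b =>
        have h4 := H1 (fl b)
        have : {s ∈ S | ¬ IsReduced (s.toWord ++ x.toWord)} ⊆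
            {s ∈ S | s.toWord.getLast? = some (fl b)} := by
          intro s hs
          rw [mem_filter] at hs ⊢
          refine ⟨hs.1, ?_⟩
          by_contra hne
          refine hs.2 (red_append _ _ (fun b' hb' => ?_))
          rw [hb, Option.mem_def, Option.some_inj] at hb'
          rwa [← hb']
        have := card_le_card this
        omega
    have h3 := sum_le_sum h2
    rw [← mul_sum, ← h1] at h3
    simpa [mul_comm] using h3
  have hPw : ∀ p ∈ P, (p.1 * p.2).toWord = p.1.toWord ++ p.2.toWord :=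
    fun p hp => tw_mul (mem_filter.mp hp).2
  have hPS : ∀ p ∈ P, p.1 ∈ S ∧ p.2 ∈ X := fun p hp => mem_product.mp (mem_filter.mp hp).1
  have hPinj : ∀ p ∈ P, ∀ q ∈ P, p.1 * p.2 = q.1 * q.2 →
      p.1.toWord.length = q.1.toWord.length → p = q := by
    intro p hp q hq h hl
    have h1 : p.1.toWord ++ p.2.toWord = q.1.toWord ++ q.2.toWord := by
      rw [← hPw p hp, ← hPw q hq, h]
    have h2 := List.append_inj h1 hl
    exact Prod.ext (toWord_injective h2.1) (toWord_injective h2.2)
  set nt : G × G → Prop := fun p =>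
    ∃ q ∈ P, p.1 * p.2 = q.1 * q.2 ∧ p.1.toWord.length < q.1.toWord.length with hnt
  have htop : #{p ∈ P | ¬ nt p} ≤ #(S * X) := by
    refine card_le_card_of_injOn (fun p => p.1 * p.2) (fun p hp => ?_) ?_
    · have := hPS p (mem_filter.mp hp).1
      exact mul_mem_mul this.1 this.2
    · intro p hp q hq h
      have hp' := mem_filter.mp hp
      have hq' := mem_filter.mp hq
      refine hPinj p hp'.1 q hq'.1 h ?_
      rcases lt_trichotomy p.1.toWord.length q.1.toWord.length with h1 | h1 | h1
      · exact absurd ⟨q, hq'.1, h, h1⟩ hp'.2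
      · exact h1
      · exact absurd ⟨p, hp'.1, h.symm, h1⟩ hq'.2
  set NT := {p ∈ P | nt p} with hNT
  set f : Option Lt → ℕ := fun o => #{x ∈ X | x.toWord.head? = o} with hf
  have hlight : #{p ∈ NT | 4 * f p.2.toWord.head? ≤ #X} ≤ (#X / 4) * #S := by
    refine (card_le_mul_card_image (f := fun p : G × G => (p.1, p.2.toWord.head?)) _ (#X / 4)
      ?_).trans (Nat.mul_le_mul_left _ (forest S _ ?_))
    · intro q hq
      obtain ⟨p, hp, rfl⟩ := mem_image.mp hq
      have h1 := (mem_filter.mp hp).2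
      refine le_trans ?_ (show f p.2.toWord.head? ≤ #X / 4 by omega)
      refine card_le_card_of_injOn (fun p => p.2) (fun p' hp' => ?_) ?_
      · have h2 := mem_filter.mp hp'
        have h3 := (hPS p' (mem_filter.mp (mem_filter.mp h2.1).1).1).2
        exact mem_filter.mpr ⟨h3, (Prod.ext_iff.mp h2.2).2⟩
      · intro p1 h1 p2 h2 h
        have e1 := (Prod.ext_iff.mp (mem_filter.mp h1).2).1
        have e2 := (Prod.ext_iff.mp (mem_filter.mp h2).2).1
        exact Prod.ext (e1.trans e2.symm) h
    · intro q hq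
      obtain ⟨p, hp, rfl⟩ := mem_image.mp hq
      obtain ⟨hpP, q, hqP, h1, h2⟩ := mem_filter.mp (mem_filter.mp hp).1
      refine ⟨(hPS p hpP).1, ?_⟩
      obtain ⟨y, hy, hpre⟩ := split_lt (by rw [← hPw p hpP, ← hPw q hqP, h1]) h2
      exact ⟨y, hy, q.1, (hPS q hqP).1, hpre⟩
  set H := {o ∈ X.image (fun x => x.toWord.head?) | ¬ 4 * f o ≤ #X} with hH
  have hHc : #H ≤ 3 := by
    have h1 : #X = ∑ o ∈ X.image (fun x => x.toWord.head?), f o := card_eq_sum_card_image _ _
    have h2 : ∑ o ∈ H, f o ≤ #X := by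
      rw [h1]; exact sum_le_sum_of_subset (filter_subset _ _)
    have h3 := card_nsmul_le_sum H (fun o => 4 * f o) (#X + 1)
      (fun o ho => by have := (mem_filter.mp ho).2; omega)
    rw [← mul_sum, smul_eq_mul] at h3
    by_contra h4
    have : 4 * (#X + 1) ≤ #H * (#X + 1) := Nat.mul_le_mul_right _ (by omega)
    omega
  have hheavy : #{p ∈ NT | ¬ 4 * f p.2.toWord.head? ≤ #X} ≤ R * #((S * X) ×ˢ H) := by
    refine card_le_mul_card_image_of_maps_to
      (f := fun p : G × G => (p.1 * p.2, p.2.toWord.head?)) ?_ R ?_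
    · intro p hp
      have h1 := mem_filter.mp hp
      have h2 := hPS p (mem_filter.mp h1.1).1
      exact mem_product.mpr ⟨mul_mem_mul h2.1 h2.2,
        mem_filter.mpr ⟨mem_image_of_mem _ h2.2, h1.2⟩⟩
    · intro b _
      set K := {a ∈ {p ∈ NT | ¬ 4 * f p.2.toWord.head? ≤ #X} |
        (a.1 * a.2, a.2.toWord.head?) = b} with hK
      rcases K.eq_empty_or_nonempty with h0 | hne
      · rw [h0]; simp
      · obtain ⟨p0, hp0, hmax⟩ := exists_max_image K (fun p => p.1.toWord.length) hne
        have hKP : ∀ p ∈ K, p ∈ P ∧ nt p ∧ p.1 * p.2 = b.1 ∧ p.2.toWord.head? = b.2 := by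
          intro p hp
          have h1 := mem_filter.mp hp
          have h2 := mem_filter.mp (mem_filter.mp h1.1).1
          exact ⟨h2.1, h2.2, (Prod.ext_iff.mp h1.2).1, (Prod.ext_iff.mp h1.2).2⟩
        obtain ⟨hp0P, ⟨q, hqP, hq1, hq2⟩, hb1, hb2⟩ := hKP p0 hp0
        obtain ⟨y, hy, _⟩ := split_lt (by rw [← hPw p0 hp0P, ← hPw q hqP, hq1]) hq2
        refine le_trans ?_ ((cnt q.1.toWord y).trans (H3 q.1 (hPS q hqP).1 y.1))
        refine card_le_card_of_injOn (fun p => p.1.toWord.length) (fun p hp => ?_) ?_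
        · obtain ⟨hpP, _, e1, e2⟩ := hKP p hp
          have h1 := hmax p hp
          have h2 : p.1.toWord.length < q.1.toWord.length := lt_of_le_of_lt h1 hq2
          obtain ⟨y', hy', e, he⟩ := split_lt
            (by rw [← hPw p hpP, ← hPw q hqP, ← hq1, e1, hb1]) h2
          have h3 : y' = y := by
            rw [e2, ← hb2, hy] at hy'; exact (Option.some_inj.mp hy').symm
          refine mem_filter.mpr ⟨mem_range.mpr h2, ?_⟩
          rw [← he, h3]; simp
        · intro p hp p' hp' h
          obtain ⟨hpP, _, e1, _⟩ := hKP p hp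
          obtain ⟨hpP', _, e1', _⟩ := hKP p' hp'
          exact hPinj p hpP p' hpP' (e1.trans e1'.symm) h
  have e1 := card_filter_add_card_filter_not (s := P) nt
  have e2 := card_filter_add_card_filter_not (s := NT) (fun p => 4 * f p.2.toWord.head? ≤ #X)
  rw [card_product] at hheavy
  have e3 : R * (#(S * X) * #H) ≤ R * (#(S * X) * 3) :=
    Nat.mul_le_mul_left _ (Nat.mul_le_mul_left _ hHc)
  have e4 : 4 * (#X / 4 * #S) ≤ #S * #X := by
    rw [← mul_assoc, mul_comm (#S)]
    exact Nat.mul_le_mul_right _ (Nat.mul_div_le _ _)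
  have e5 : (4 + 12 * R) * #(S * X) = 4 * #(S * X) + 4 * (R * (#(S * X) * 3)) := by ring
  rw [← hNT] at e1
  omega

theorem expansion (S X : Finset G) (r : ℕ) (h : ∀ s ∈ S, ∀ i, occ i s ≤ r) :
    #S * #X ≤ (4 + 24 * r) * #(S * X) := by
  obtain ⟨g, hg⟩ := centroid S
  have h1 := core (S.image (· * g)) (X.image (g⁻¹ * ·)) (2 * r) (by
    intro y
    rw [filter_image, card_image_of_injective _ (mul_left_injective g),
      card_image_of_injective _ (mul_left_injective g)]
    exact hg y) (by
    intro s hs s' hs' i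
    obtain ⟨a, ha, rfl⟩ := mem_image.mp hs
    obtain ⟨b, hb, rfl⟩ := mem_image.mp hs'
    have : a * g * (b * g)⁻¹ = a * b⁻¹ := by group
    rw [this]
    have h2 := occ_mul i a b⁻¹
    rw [occ_inv] at h2
    have := h a ha i
    have := h b hb i
    omega)
  have h2 : S.image (· * g) * X.image (g⁻¹ * ·) = S * X := by
    ext t
    simp only [mem_mul, mem_image]
    constructor
    · rintro ⟨_, ⟨a, ha, rfl⟩, _, ⟨b, hb, rfl⟩, rfl⟩
      exact ⟨a, ha, b, hb, by group⟩
    · rintro ⟨a, ha, b, hb, rfl⟩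
      exact ⟨_, ⟨a, ha, rfl⟩, _, ⟨b, hb, rfl⟩, by group⟩
  rw [h2, card_image_of_injective _ (mul_left_injective g),
    card_image_of_injective _ (mul_right_injective g⁻¹)] at h1
  calc _ ≤ _ := h1
    _ = _ := by ring

end Pool.Agent.H27.Rapid
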