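import Pool.Agent.H27.RapidA

set_option autoImplicit false

namespace Pool.Agent.H27.Rapid

open Finset FreeGroup Filter
open scoped Pointwise

/-- weight of a generator -/
def wt (i : ℕ) : ℕ := Nat.log 2 i + 1

/-- the length function: largest weighted number of occurrences of a generator -/
def Ln (w : G) : ℕ := w.toWord.toFinset.sup (fun p => wt p.1 * occ p.1 w)

lemma le_Ln (i : ℕ) (w : G) : wt i * occ i w ≤ Ln w := by
  rcases Nat.eq_zero_or_pos (occ i w) with h | h
  · simp [h]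
  · obtain ⟨p, hp, h1⟩ := List.countP_pos_iff.mp h
    have h2 : p.1 = i := by simpa using h1
    subst h2
    exact le_sup (f := fun p : Lt => wt p.1 * occ p.1 w) (List.mem_toFinset.mpr hp)

lemma Ln_le (w : G) (K : ℕ) (h : ∀ i, wt i * occ i w ≤ K) : Ln w ≤ K :=
  Finset.sup_le (fun p _ => h p.1)

lemma Ln_one : Ln 1 = 0 := by simp [Ln]

lemma Ln_inv (w : G) : Ln w⁻¹ = Ln w := by
  apply le_antisymm
  · exact Ln_le _ _ (fun i => by rw [occ_inv]; exact le_Ln i w)
  · exact Ln_le _ _ (fun i => by rw [← occ_inv]; exact le_Ln i w⁻¹)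

lemma Ln_mul (u v : G) : Ln (u * v) ≤ Ln u + Ln v := by
  refine Ln_le _ _ (fun i => ?_)
  calc wt i * occ i (u * v) ≤ wt i * (occ i u + occ i v) := Nat.mul_le_mul_left _ (occ_mul i u v)
    _ = wt i * occ i u + wt i * occ i v := by ring
    _ ≤ _ := add_le_add (le_Ln i u) (le_Ln i v)

lemma occ_le_Ln (i : ℕ) (w : G) : occ i w ≤ Ln w :=
  (Nat.le_mul_of_pos_left _ (Nat.succ_pos _)).trans (le_Ln i w)

lemma fin_lists {α : Type} (s : Set α) (hs : s.Finite) (n : ℕ) :
    {l : List α | l.length ≤ n ∧ ∀ p ∈ l, p ∈ s}.Finite := by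
  induction n with
  | zero =>
    refine (Set.finite_singleton []).subset ?_
    rintro l ⟨h, _⟩
    exact List.length_eq_zero_iff.mp (by omega)
  | succ n ih =>
    refine ((hs.image2 List.cons ih).insert []).subset ?_
    rintro l ⟨h1, h2⟩
    cases l with
    | nil => simp
    | cons a l =>
      right
      exact ⟨a, h2 a (by simp), l, ⟨by simpa using h1, fun p hp => h2 p (by simp [hp])⟩, rfl⟩

lemma length_le_sum (l : List Lt) (M : ℕ) (h : ∀ p ∈ l, p.1 < M) :
    l.length = ∑ i ∈ range M, l.countP (fun p => p.1 = i) := by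
  induction l with
  | nil => simp
  | cons a l ih =>
    simp only [List.length_cons, List.countP_cons, sum_add_distrib, decide_eq_true_eq]
    rw [← ih (fun p hp => h p (by simp [hp])), sum_ite_eq, if_pos (mem_range.mpr (h a (by simp)))]

lemma Ln_proper (r : ℕ) : {w : G | Ln w ≤ r}.Finite := by
  have h1 := fin_lists ((Set.Iio (2 ^ r)) ×ˢ (Set.univ : Set Bool))
    ((Set.finite_Iio _).prod Set.finite_univ) (2 ^ r * r)
  refine (h1.preimage toWord_injective.injOn).subset ?_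
  intro w hw
  have hw' : Ln w ≤ r := hw
  have h2 : ∀ p ∈ w.toWord, p.1 < 2 ^ r := by
    intro p hp
    have h3 : 0 < occ p.1 w := List.countP_pos_iff.mpr ⟨p, hp, by simp⟩
    have h4 : wt p.1 ≤ r := (Nat.le_mul_of_pos_right _ h3).trans ((le_Ln _ _).trans hw')
    exact Nat.lt_pow_of_log_lt (by norm_num) h4
  refine ⟨?_, fun p hp => ⟨h2 p hp, trivial⟩⟩
  rw [length_le_sum _ _ h2]
  have := sum_le_card_nsmul (range (2 ^ r)) (fun i => occ i w) r
    (fun i _ => (occ_le_Ln i w).trans hw')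
  simpa [occ] using this

def wd : (N : ℕ) → (Fin N → Bool) → List Lt
  | 0, _ => []
  | N + 1, σ => (2 * N + (σ 0).toNat, true) :: wd N (Fin.tail σ)

lemma wd_mem (N : ℕ) : ∀ σ, ∀ p ∈ wd N σ, p.1 < 2 * N ∧ p.2 = true := by
  induction N with
  | zero => intro σ p hp; simp [wd] at hp
  | succ N ih =>
    intro σ p hp
    rw [wd, List.mem_cons] at hp
    rcases hp with rfl | hp
    · have := Bool.toNat_le (σ 0)
      exact ⟨by simp only; omega, rfl⟩
    · have := ih _ p hp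
      exact ⟨by omega, this.2⟩

lemma wd_count (N : ℕ) : ∀ σ i, (wd N σ).countP (fun p => p.1 = i) ≤ 1 := by
  induction N with
  | zero => intro σ i; simp [wd]
  | succ N ih =>
    intro σ i
    rw [wd, List.countP_cons]
    split_ifs with h
    · have h1 : 2 * N + (σ 0).toNat = i := by simpa using h
      have : (wd N (Fin.tail σ)).countP (fun p => p.1 = i) = 0 := by
        rw [List.countP_eq_zero]
        intro p hp
        have := (wd_mem N _ p hp).1
        simp only [decide_eq_true_eq]; omega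
      omega
    · exact ih _ i

lemma wd_inj (N : ℕ) : Function.Injective (wd N) := by
  induction N with
  | zero => intro σ τ _; exact Subsingleton.elim _ _
  | succ N ih =>
    intro σ τ h
    simp only [wd, List.cons.injEq, Prod.mk.injEq, and_true] at h
    have h1 : σ 0 = τ 0 := by
      have := h.1
      cases h2 : σ 0 <;> cases h3 : τ 0 <;> simp_all
    rw [← Fin.cons_self_tail σ, ← Fin.cons_self_tail τ, h1, ih h.2]

def el (N : ℕ) (σ : Fin N → Bool) : G := mk (wd N σ)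

lemma el_word (N : ℕ) (σ : Fin N → Bool) : (el N σ).toWord = wd N σ := by
  rw [el, toWord_mk]
  apply FreeGroup.IsReduced.reduce_eq
  unfold FreeGroup.IsReduced
  refine List.Pairwise.isChain (List.pairwise_of_forall_mem_list (fun a ha b hb _ => ?_))
  rw [(wd_mem N σ a ha).2, (wd_mem N σ b hb).2]

lemma el_inj (N : ℕ) : Function.Injective (el N) := fun σ τ h =>
  wd_inj N (by rw [← el_word, ← el_word, h])

def ge (N : ℕ) (β : Bool) : G := mk [(2 * N + β.toNat, true)]

lemma el_cons (N : ℕ) (β : Bool) (σ : Fin N → Bool) :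
    el (N + 1) (Fin.cons β σ) = ge N β * el N σ := by
  simp [el, wd, mul_mk, ge]

lemma el_Ln (k : ℕ) (σ : Fin (2 ^ k) → Bool) : Ln (el _ σ) ≤ k + 1 := by
  refine Ln_le _ _ (fun i => ?_)
  rcases Nat.eq_zero_or_pos (occ i (el _ σ)) with h | h
  · simp [h]
  · have h1 : occ i (el _ σ) ≤ 1 := by unfold occ; rw [el_word]; exact wd_count _ _ _
    obtain ⟨p, hp, h2⟩ := List.countP_pos_iff.mp h
    have h3 : p.1 = i := by simpa using h2
    rw [el_word] at hp
    have h4 := (wd_mem _ _ p hp).1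
    rw [h3, ← pow_succ'] at h4
    have h5 : Nat.log 2 i < k + 1 := Nat.log_lt_of_lt_pow' (by omega) h4
    have h6 : occ i (el _ σ) = 1 := by omega
    rw [h6, wt]; omega

lemma sum_cons (N : ℕ) (F : (Fin (N + 1) → Bool) → ℕ) :
    ∑ σ, F σ = ∑ σ, F (Fin.cons true σ) + ∑ σ, F (Fin.cons false σ) := by
  rw [← (Fin.consEquiv (fun _ : Fin (N + 1) => Bool)).sum_comp, Fintype.sum_prod_type,
    Fintype.sum_bool]
  rfl

variable [DecidableEq G]

def FF (N : ℕ) (x y x' y' : G) : ℕ := ∑ σ, ∑ τ, ∑ σ', ∑ τ',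
  if x * el N σ * (y * el N τ)⁻¹ = x' * el N σ' * (y' * el N τ')⁻¹ then 1 else 0

lemma FF_same (N : ℕ) (x y : G) : FF N x y x y = FF N 1 1 1 1 := by
  unfold FF
  refine sum_congr rfl fun σ _ => sum_congr rfl fun τ _ => sum_congr rfl fun σ' _ =>
    sum_congr rfl fun τ' _ => ?_
  congr 1
  simp only [mul_inv_rev, one_mul, inv_one, mul_one, ← mul_assoc, mul_left_inj]
  simp only [mul_assoc, mul_right_inj]

lemma FF_diag (N : ℕ) (x x' : G) : 4 ^ N ≤ FF N x x x' x' := by
  have h1 : 4 ^ N = ∑ _σ : Fin N → Bool, ∑ _σ' : Fin N → Bool, 1 := by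
    simp [← mul_pow]
  rw [h1]
  refine sum_le_sum fun σ _ => le_trans ?_ (single_le_sum (fun _ _ => Nat.zero_le _) (mem_univ σ))
  refine sum_le_sum fun σ' _ => le_trans ?_
    (single_le_sum (fun _ _ => Nat.zero_le _) (mem_univ σ'))
  simp

lemma FF_ge (N : ℕ) : N * 4 ^ N ≤ 2 * FF N 1 1 1 1 := by
  induction N with
  | zero => simp
  | succ N ih =>
    obtain ⟨a, ha⟩ : ∃ a, a = ge N true := ⟨_, rfl⟩
    obtain ⟨b, hb⟩ : ∃ b, b = ge N false := ⟨_, rfl⟩
    have h1 : FF N a a a a + FF N a b a b + FF N b a b a + FF N b b b b + FF N a a b b +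
        FF N b b a a ≤ FF (N + 1) 1 1 1 1 := by
      unfold FF
      simp only [sum_cons N, el_cons, sum_add_distrib, one_mul, ← ha, ← hb]
      omega
    rw [FF_same, FF_same N a b, FF_same N b a, FF_same N b b] at h1
    have h2 := FF_diag N a b
    have h3 := FF_diag N b a
    rw [pow_succ]
    nlinarith

lemma energy_ge (N : ℕ) : N * 4 ^ N ≤
    2 * mulEnergy (univ.image (el N)) (univ.image (fun τ => (el N τ)⁻¹)) := by
  refine (FF_ge N).trans (Nat.mul_le_mul_left _ ?_)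
  have h1 : FF N 1 1 1 1 = #{q : (Fin N → Bool) × (Fin N → Bool) × (Fin N → Bool) × (Fin N → Bool) |
      el N q.1 * (el N q.2.1)⁻¹ = el N q.2.2.1 * (el N q.2.2.2)⁻¹} := by
    rw [card_filter]
    simp only [FF, Fintype.sum_prod_type, one_mul]
  rw [h1, mulEnergy]
  refine card_le_card_of_injOn
    (fun q => ((el N q.1, el N q.2.2.1), ((el N q.2.1)⁻¹, (el N q.2.2.2)⁻¹))) (fun q hq => ?_) ?_
  · have := (mem_filter.mp hq).2
    simp [this]
  · intro q _ q' _ h
    simp only [Prod.mk.injEq, inv_inj, (el_inj N).eq_iff] at h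
    exact Prod.ext h.1.1 (Prod.ext h.2.1 (Prod.ext h.1.2 h.2.2))

theorem has_RE : ∃ C : ℝ, 0 < C ∧ ∃ d : ℕ, ∀ r : ℝ, 0 ≤ r → ∀ S X : Finset G,
    (∀ s ∈ S, (Ln s : ℝ) ≤ r) →
      (S.card : ℝ) * (X.card : ℝ) ≤ C * (1 + r) ^ d * ((S * X).card : ℝ) := by
  refine ⟨24, by norm_num, 1, fun r hr S X h => ?_⟩
  have h1 := expansion S X ⌊r⌋₊ (fun s hs i => (occ_le_Ln i s).trans (Nat.le_floor (h s hs)))
  have h2 : (#S : ℝ) * #X ≤ (4 + 24 * ⌊r⌋₊) * #(S * X) := by exact_mod_cast h1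
  have h3 := Nat.floor_le hr
  refine h2.trans (mul_le_mul_of_nonneg_right ?_ (Nat.cast_nonneg _))
  linarith

theorem not_RD : ¬ ∃ C : ℝ, 0 < C ∧ ∃ d : ℕ, ∀ r : ℝ, 0 ≤ r →
        ∀ (A B : Finset G) (f g : G → ℂ), (∀ y ∈ A, (Ln y : ℝ) ≤ r) →
          ∑ x ∈ A * B, ‖∑ p ∈ (A ×ˢ B).filter (fun p => p.1 * p.2 = x), f p.1 * g p.2‖ ^ 2
            ≤ (C * (1 + r) ^ d) ^ 2 * (∑ y ∈ A, ‖f y‖ ^ 2) * (∑ z ∈ B, ‖g z‖ ^ 2) := by
  rintro ⟨C, hC, d, h⟩
  have ht := (tendsto_pow_const_div_const_pow_of_one_lt (2 * d) (r := 2) (by norm_num)).comp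
    (tendsto_add_atTop_nat 2)
  obtain ⟨k, hk⟩ := (ht.eventually (gt_mem_nhds (show (0 : ℝ) < 1 / (8 * C ^ 2) by positivity))).exists
  simp only [Function.comp] at hk
  set N := 2 ^ k with hN
  have h1 := h (k + 1) (by positivity) (univ.image (el N)) (univ.image (fun τ => (el N τ)⁻¹))
    (fun _ => 1) (fun _ => 1) (by
      intro y hy
      obtain ⟨σ, _, rfl⟩ := mem_image.mp hy
      exact_mod_cast el_Ln k σ)
  have h2 := energy_ge N
  rw [mulEnergy_eq_sum_sq'] at h2
  simp only [mul_one, sum_const, nsmul_eq_mul, NormOneClass.norm_one, one_pow, Complex.norm_natCast] at h1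
  have h3 : ((N : ℝ)) * 4 ^ N ≤ 2 * ((C * (1 + (k + 1)) ^ d) ^ 2 * #(univ.image (el N)) *
      #(univ.image (fun τ => (el N τ)⁻¹))) := by
    refine le_trans ?_ (mul_le_mul_of_nonneg_left h1 (by norm_num))
    exact_mod_cast h2
  have hinj : Function.Injective (fun τ => (el N τ)⁻¹) := fun a b h => el_inj N (inv_injective h)
  rw [card_image_of_injective _ (el_inj N), card_image_of_injective _ hinj] at h3
  simp only [card_univ, Fintype.card_fun, Fintype.card_bool, Fintype.card_fin] at h3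
  have h4 : ((2 ^ N : ℕ) : ℝ) * (2 ^ N : ℕ) = 4 ^ N := by
    push_cast; rw [← mul_pow]; norm_num
  rw [mul_assoc, h4, ← mul_assoc] at h3
  have h5 : (N : ℝ) ≤ 2 * (C * (1 + (k + 1)) ^ d) ^ 2 := le_of_mul_le_mul_right h3 (by positivity)
  rw [div_lt_div_iff₀ (by positivity) (by positivity)] at hk
  have h6 : (N : ℝ) = 2 ^ k := by rw [hN]; push_cast; rfl
  have h7 : (C * (1 + (k + 1)) ^ d) ^ 2 = C ^ 2 * ((k + 2 : ℕ) : ℝ) ^ (2 * d) := by
    push_cast; rw [mul_pow, ← pow_mul, mul_comm d 2]; congr 2; ring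
  rw [h6, h7] at h5
  rw [pow_add] at hk
  nlinarith

end Pool.Agent.H27.Rapid
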