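import Pool.Agent.H27.SkewDef

set_option autoImplicit false

namespace Pool.Agent.H27.Skew

variable {A R : Type*} [Ring A] [Ring R] {φ : RingAut A} {c : R →+ (ℤ → A)}

theorem zp (φ : RingAut A) (m n : ℤ) (a : A) : (φ ^ m) ((φ ^ n) a) = (φ ^ (m + n)) a := by
  rw [zpow_add]; rfl

theorem zp0 (φ : RingAut A) (a : A) : (φ ^ (0 : ℤ)) a = a := rfl

namespace IsSkewLaurent

variable (h : IsSkewLaurent φ c)
include h

theorem mono (m : ℤ) (a : A) : ∃ u : R, c u = Pi.single m a ∧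
    (∀ g n, c (u * g) n = a * (φ ^ m) (c g (n - m))) ∧
    ∀ g n, c (g * u) n = c g (n - m) * (φ ^ (n - m)) a := by
  obtain ⟨u, hu⟩ := h.surj (Pi.single m a) ⟨m, fun n hn => Pi.single_eq_of_ne hn.ne _⟩
  refine ⟨u, hu, fun g n => ?_, fun g n => ?_⟩
  · rw [h.mul, finsum_eq_single _ m fun i hi => by simp [hu, hi], hu, Pi.single_eq_same]
  · rw [h.mul, finsum_eq_single _ (n - m) fun i hi => by
      rw [hu, Pi.single_eq_of_ne (by omega), map_zero, mul_zero], hu, sub_sub_cancel,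
      Pi.single_eq_same]

theorem reg (hR : ∀ r : R, ∃ s, r * s * r = r) (a : A) : ∃ y, a * y * a = a := by
  obtain ⟨u, h1, h2, h3⟩ := h.mono 0 a
  obtain ⟨s, hs⟩ := hR u
  have := congrFun (congrArg c hs) 0
  rw [h3, h2, h1] at this
  exact ⟨_, by simpa using this⟩

theorem seq (hR : ∀ r : R, ∃ s, r * s * r = r) (G : A → A → Prop) (E0 F0 : A) (h0 : G E0 F0)
    (st : ∀ E F, G E F → ∀ N : ℤ, ∃ n > N, ∃ a s t, G (s * E) (F * t) ∧
      E * a * (φ ^ n) F ≠ 0 ∧ s * E * a = 0 ∧ a * (φ ^ n) (F * t) = 0) : False := by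
  choose n hn a s t hG h1 h2 h3 using st
  let S := {p : A × A × ℤ // G p.1 p.2.1}
  let nx : S → S := fun p => ⟨(_, _, n _ _ p.2 p.1.2.2), hG _ _ p.2 p.1.2.2⟩
  let q : ℕ → S := fun j => nx^[j] ⟨(E0, F0, 0), h0⟩
  have hq : ∀ j, q (j + 1) = nx (q j) := fun j => Function.iterate_succ_apply' _ _ _
  let m : ℕ → ℤ := fun j => n _ _ (q j).2 (q j).1.2.2
  let b : ℕ → A := fun j => a _ _ (q j).2 (q j).1.2.2
  have hm : StrictMono m := strictMono_nat_of_lt_succ fun j => by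
    have := hn _ _ (q (j + 1)).2 (q (j + 1)).1.2.2
    exact (show (q (j + 1)).1.2.2 = m j by rw [hq]).symm.trans_lt this
  have hk : ∀ i j, i < j → (q j).1.1 * b i = 0 ∧ b i * (φ ^ m i) (q j).1.2.1 = 0 := by
    intro i j hij
    induction j, hij using Nat.le_induction with
    | base => rw [hq]; exact ⟨h2 _ _ _ _, h3 _ _ _ _⟩
    | succ j _ ih =>
      rw [hq]
      exact ⟨(mul_assoc _ _ _).trans (by rw [ih.1, mul_zero]),
        by rw [map_mul, ← mul_assoc, ih.2, zero_mul]⟩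
  have hc : ∀ i, Function.extend m b 0 i = 0 ∨ ∃ k, i = m k ∧ Function.extend m b 0 i = b k :=
    fun i => by
      by_cases e : ∃ k, m k = i
      · obtain ⟨k, rfl⟩ := e
        exact Or.inr ⟨k, rfl, hm.injective.extend_apply _ _ _⟩
      · exact Or.inl (Function.extend_apply' _ _ _ e)
  obtain ⟨f, hf⟩ := h.surj (Function.extend m b 0) ⟨m 0, fun i hi =>
    (hc i).resolve_right fun ⟨k, e, _⟩ => by have := hm.monotone (Nat.zero_le k); omega⟩
  obtain ⟨g, hg⟩ := hR f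
  obtain ⟨N, hN⟩ := h.bdd g
  obtain ⟨j, hj⟩ : ∃ j, -N < m j := ⟨(-N - m 0).toNat + 1, by
    have : ∀ j : ℕ, m 0 + j ≤ m j := fun j => by
      induction j with
      | zero => simp
      | succ j ih => have : m j < m (j + 1) := hm (Nat.lt_succ_self j); push_cast; omega
    have := this ((-N - m 0).toNat + 1)
    omega⟩
  apply h1 _ _ (q j).2 (q j).1.2.2
  change _ * b j * (φ ^ m j) _ = 0
  rw [← hm.injective.extend_apply b 0 j, ← hf, ← hg, h.mul]
  refine finsum_induction (fun x => (q j).1.1 * x * (φ ^ m j) (q j).1.2.1 = 0) (by simp)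
    (fun x y hx hy => by rw [mul_add, add_mul, hx, hy, add_zero]) fun p => ?_
  rw [hf]
  rcases hc (m j - p) with e | ⟨k, e1, e⟩
  · simp [e]
  rw [e]
  rcases lt_or_ge k j with hkj | hkj
  · rw [show m j = p + m k by omega, ← zp, mul_assoc, mul_assoc, ← map_mul, (hk k j hkj).2]
    simp
  · rw [← mul_assoc, show (q j).1.1 * c (f * g) p = 0 from ?_, zero_mul, zero_mul]
    rw [h.mul]
    refine finsum_induction (fun x => (q j).1.1 * x = 0) (by simp)
      (fun x y hx hy => by rw [mul_add, hx, hy, add_zero]) fun i => ?_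
    rw [hf]
    rcases hc i with e | ⟨l, e2, e⟩
    · simp [e]
    rw [e]
    rcases lt_or_ge l j with hlj | hlj
    · rw [← mul_assoc, (hk l j hlj).1, zero_mul]
    · have := hm.monotone hkj
      have := hm.monotone hlj
      rw [hN _ (by omega)]; simp

theorem ident (hR : ∀ r : R, ∃ s, r * s * r = r) (T : AddSubgroup A)
    (hl : ∀ s, ∀ t ∈ T, s * t ∈ T) (hr : ∀ s, ∀ t ∈ T, t * s ∈ T)
    (hφ : ∀ n : ℤ, ∀ t ∈ T, (φ ^ n) t ∈ T) : ∃ γ ∈ T, ∀ t ∈ T, γ * t = t := by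
  by_contra hn
  push Not at hn
  refine h.seq hR (fun E F => 1 - E ∈ T ∧ 1 - F ∈ T) 1 1 (by simp) fun E F ⟨hE, hF⟩ N => ?_
  set F' := (φ ^ (N + 1)) F with hF'
  have h1 : 1 - F' ∈ T := by simpa using hφ (N + 1) _ hF
  obtain ⟨a, ha, h2⟩ : ∃ a ∈ T, E * a * F' ≠ 0 := by
    by_contra h2
    push Not at h2
    obtain ⟨t, ht, h3⟩ := hn (1 - F' * E) (by
      have := T.add_mem h1 (hl F' _ hE)
      rwa [show 1 - F' + F' * (1 - E) = 1 - F' * E by noncomm_ring] at this)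
    obtain ⟨y, hy⟩ := h.reg hR (F' * E * t)
    apply h3
    rw [sub_mul, one_mul, ← hy, show F' * E * t * y * (F' * E * t) =
      F' * (E * (t * y) * F') * (E * t) by noncomm_ring, h2 _ (hr y t ht)]
    simp
  obtain ⟨y, hy⟩ := h.reg hR (E * a)
  obtain ⟨z, hz⟩ := h.reg hR ((φ ^ (-(N + 1))) a * F)
  refine ⟨N + 1, by omega, a, 1 - E * a * y, 1 - z * ((φ ^ (-(N + 1))) a * F), ⟨?_, ?_⟩, h2, ?_, ?_⟩
  · have := T.add_mem hE (hr (y * E) _ (hl E a ha))
    rwa [show 1 - E + E * a * (y * E) = 1 - (1 - E * a * y) * E by noncomm_ring] at this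
  · have := T.add_mem hF (hl (F * z) _ (hr F _ (hφ (-(N + 1)) a ha)))
    rwa [show ∀ b : A, 1 - F + F * z * (b * F) = 1 - F * (1 - z * (b * F)) from
      fun b => by noncomm_ring] at this
  · rw [mul_assoc, sub_mul, one_mul, hy, sub_self]
  · have e : a = (φ ^ (N + 1)) ((φ ^ (-(N + 1))) a) := by rw [zp, add_neg_cancel, zp0]
    generalize (φ ^ (-(N + 1))) a = b at e hz
    rw [e, ← map_mul, ← mul_assoc, mul_sub, mul_one, ← mul_assoc, hz, sub_self, map_zero]

end IsSkewLaurent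

end Pool.Agent.H27.Skew
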