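import Pool.Agent.H27.Skew1

set_option autoImplicit false

namespace Pool.Agent.H27.Skew

open Submodule

variable {A R : Type*} [Ring A] [Ring R] {φ : RingAut A} {c : R →+ (ℤ → A)}

theorem noe_map {σ : A →+* A} [RingHomSurjective σ] (f : A →ₛₗ[σ] A) {t : A}
    (h : IsNoetherian A (span A {t})) : IsNoetherian A (span A {f t}) := by
  have := isNoetherian_map (s := span A {t}) f
  rwa [map_span, Set.image_singleton] at this

def Noe (A : Type*) [Ring A] : AddSubgroup A where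
  carrier := {t | IsNoetherian A (span A {t})}
  add_mem' {a b} ha hb := by
    have := @isNoetherian_sup _ _ _ _ _ (span A {a}) (span A {b}) ha hb
    exact isNoetherian_of_le (t := span A {a} ⊔ span A {b}) ((span_singleton_le_iff_mem _ _).2
      (add_mem_sup (mem_span_singleton_self a) (mem_span_singleton_self b)))
  zero_mem' := isNoetherian_submodule.2 fun s hs => by
    rw [span_zero_singleton, le_bot_iff] at hs; rw [hs]; exact fg_bot
  neg_mem' {a} ha := noe_map (-LinearMap.id : A →ₗ[A] A) ha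

namespace IsSkewLaurent

variable (h : IsSkewLaurent φ c)
include h

theorem noeth (hR : ∀ r : R, ∃ s, r * s * r = r) : IsNoetherian A A := by
  have hl : ∀ s, ∀ t ∈ Noe A, s * t ∈ Noe A := fun s t (ht : IsNoetherian _ _) =>
    isNoetherian_of_le (t := span A {t}) ((span_singleton_le_iff_mem _ _).2
      (smul_mem _ s (mem_span_singleton_self t)))
  obtain ⟨γ, hγ, h1⟩ := h.ident hR (Noe A) hl
    (fun s t ht => noe_map (LinearMap.toSpanSingleton A A s) ht) fun n t ht =>
      haveI : RingHomSurjective ((φ ^ n : RingAut A) : A →+* A) := ⟨(φ ^ n).surjective⟩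
      noe_map ((φ ^ n : RingAut A) : A →+* A).toSemilinearMap ht
  by_contra hn
  refine h.seq hR (fun E F => (∀ t ∈ Noe A, E * t = 0) ∧ ∃ (n : ℤ) (s : A),
    E * s * (φ ^ n) F ≠ 0) (1 - γ) 1 ⟨fun t ht => by rw [sub_mul, h1 t ht, one_mul, sub_self],
      0, 1, fun e => hn ?_⟩ fun E F ⟨hE, n0, s0, h0⟩ N => ?_
  · rw [map_one, mul_one, mul_one, sub_eq_zero] at e
    subst e
    have : IsNoetherian A (span A {(1 : A)}) := hγ
    rwa [show span A {(1 : A)} = ⊤ from Ideal.span_singleton_one, isNoetherian_top_iff] at this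
  obtain ⟨n, hn, s, h2⟩ : ∃ n > N, ∃ s, E * s * (φ ^ n) F ≠ 0 := by
    by_contra h2
    push Not at h2
    let T := AddSubgroup.closure {x | ∃ (n : ℤ) (s s' : A), x = s * (φ ^ n) F * s'}
    have cl : ∀ f : A →+ A, (∀ (n : ℤ) (s s' : A), ∃ (n' : ℤ) (r r' : A),
        f (s * (φ ^ n) F * s') = r * (φ ^ n') F * r') → ∀ t ∈ T, f t ∈ T := fun f hf t ht =>
      (AddSubgroup.closure_le (T.comap f)).2 (by
        rintro _ ⟨n, s, s', rfl⟩
        exact AddSubgroup.subset_closure (hf n s s')) ht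
    have hφ : ∀ m : ℤ, ∀ t ∈ T, (φ ^ m) t ∈ T := fun m =>
      cl ((φ ^ m : RingAut A) : A →+ A) fun n s s' => ⟨m + n, (φ ^ m) s, (φ ^ m) s', by
        simp [zp]⟩
    obtain ⟨δ, hδ, h3⟩ := h.ident hR T
      (fun r => cl (AddMonoidHom.mulLeft r) fun n s s' => ⟨n, r * s, s', by simp [mul_assoc]⟩)
      (fun r => cl (AddMonoidHom.mulRight r) fun n s s' => ⟨n, s, s' * r, by simp [mul_assoc]⟩) hφ
    obtain ⟨m, hm⟩ : ∃ m : ℤ, ∀ k ≥ m, E * (φ ^ k) δ = 0 := by
      clear h3
      induction hδ using AddSubgroup.closure_induction with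
      | mem x hx =>
        obtain ⟨n, s, s', rfl⟩ := hx
        exact ⟨N + 1 - n, fun k hk => by
          rw [map_mul, map_mul, zp, ← mul_assoc, ← mul_assoc, h2 _ (by omega), zero_mul]⟩
      | zero => exact ⟨0, by simp⟩
      | add x y _ _ h1 h2 =>
        obtain ⟨a, ha⟩ := h1
        obtain ⟨b, hb⟩ := h2
        exact ⟨max a b, fun k hk => by
          rw [map_add, mul_add, ha k (by omega), hb k (by omega), add_zero]⟩
      | neg x _ h1 =>
        obtain ⟨a, ha⟩ := h1
        exact ⟨a, fun k hk => by rw [map_neg, mul_neg, ha k hk, neg_zero]⟩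
    have := congrArg (fun x => E * (φ ^ m) x) (h3 _ (hφ (-m) (s0 * (φ ^ n0) F * 1)
      (AddSubgroup.subset_closure ⟨_, _, _, rfl⟩)))
    simp only [map_mul (φ ^ m) δ, zp, add_neg_cancel, zp0] at this
    rw [← mul_assoc, hm m le_rfl, zero_mul, mul_one, ← mul_assoc] at this
    exact h0 this.symm
  obtain ⟨y, hy⟩ := h.reg hR (E * s * (φ ^ n) F)
  set F' := (φ ^ n) F with hF'
  set a := E * s * F' with ha
  obtain ⟨w, h3, hw, h4⟩ : ∃ w ∈ span A {y * a}, w ≠ 0 ∧ y * a ∉ span A {w} := by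
    by_contra h3
    push Not at h3
    have : y * a ∈ Noe A := isNoetherian_submodule.2 fun I hI => by
      by_cases e : I = ⊥
      · rw [e]; exact fg_bot
      obtain ⟨w, h4, hw⟩ := I.ne_bot_iff.1 e
      rw [le_antisymm hI ((span_singleton_le_iff_mem _ _).2
        ((span_singleton_le_iff_mem _ _).2 h4 (h3 w (hI h4) hw)))]
      exact fg_span_singleton _
    apply h2
    rw [← hy, mul_assoc, ha, mul_assoc, mul_assoc]
    exact hE _ (hl _ _ (hl _ _ this))
  obtain ⟨z, hz⟩ := h.reg hR w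
  have hv : y * a * (y * a) = y * a := by rw [← mul_assoc, mul_assoc y, mul_assoc y, hy]
  have hwv : w * (y * a) = w := by
    obtain ⟨r, rfl⟩ := mem_span_singleton.1 h3
    rw [smul_eq_mul, mul_assoc, hv]
  set v := y * a with hv'
  have e1 : v * z * w * v = v * z * w := by rw [mul_assoc, hwv]
  have e2 : v * (v * z * w) = v * z * w := by rw [← mul_assoc, ← mul_assoc, hv]
  have e0 : w * (v * z * w) = w := by rw [← mul_assoc, ← mul_assoc, hwv, hz]
  have e3 : v * z * w * (v * z * w) = v * z * w := by rw [mul_assoc, e0]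
  have e4 : v - v * z * w ≠ 0 := fun e =>
    h4 (mem_span_singleton.2 ⟨v * z, (sub_eq_zero.1 e).symm⟩)
  have e5 : v * z * w ≠ 0 := fun e => hw (by rw [← e0, e, mul_zero])
  generalize v * z * w = u at e1 e2 e3 e4 e5
  have e6 : (φ ^ n) (F * (φ ^ (-n)) (v - u)) = F' * (v - u) := by
    rw [map_mul, zp, add_neg_cancel, zp0]
  refine ⟨n, hn, s * F' * u * y * E * s, (v - u) * y, (φ ^ (-n)) (v - u),
    ⟨fun t ht => by rw [mul_assoc, hE t ht, mul_zero], n, s, ?_⟩, fun e => e5 ?_, ?_, ?_⟩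
  · rw [e6, show (v - u) * y * E * s * (F' * (v - u)) = (v - u) * v * (v - u) by
      rw [hv', ha]; noncomm_ring, sub_mul, hv, e1, mul_sub, sub_mul, sub_mul, hv, e1, e2, e3,
      sub_self, sub_zero]
    exact e4
  · rw [← e1, ← e2, show v * u * v = y * (E * (s * F' * u * y * E * s) * F') by
      rw [hv', ha]; noncomm_ring, e, mul_zero]
  · rw [show (v - u) * y * E * (s * F' * u * y * E * s) = (v - u) * (v * u) * (y * E * s) by
      rw [hv', ha]; noncomm_ring, e2, sub_mul, e2, e3, sub_self, zero_mul]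
  · rw [e6, show s * F' * u * y * E * s * (F' * (v - u)) = s * F' * (u * v * (v - u)) by
      rw [hv', ha]; noncomm_ring, e1, mul_sub, e1, e3, sub_self, mul_zero]

def lam (L : Ideal R) : Ideal A where
  carrier := {a | ∃ f ∈ L, (∀ n < 0, c f n = 0) ∧ c f 0 = a}
  add_mem' := by
    rintro _ _ ⟨f, h1, h2, rfl⟩ ⟨g, h3, h4, rfl⟩
    exact ⟨f + g, L.add_mem h1 h3, fun n hn => by simp [h2 n hn, h4 n hn], by simp⟩
  zero_mem' := ⟨0, L.zero_mem, by simp, by simp⟩
  smul_mem' := by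
    rintro s _ ⟨f, h1, h2, rfl⟩
    obtain ⟨u, -, h3, -⟩ := h.mono 0 s
    exact ⟨u * f, L.mul_mem_left u h1, fun n hn => by simp [h3, h2 n hn], by simp [h3]⟩

theorem le_of_lam (e : R) (he : e * e = e) (L : Ideal R) (h1 : e ∈ L)
    (h2 : h.lam L ≤ h.lam (span R {e})) : ∀ f ∈ L, f * e = f := by
  intro f hf
  obtain ⟨N, hN⟩ := h.bdd f
  have key : ∀ m, N ≤ m → ∃ g ∈ span R {e}, ∀ n < m, c (f - g) n = 0 := by
    intro m hm
    induction m, hm using Int.le_induction with
    | base => exact ⟨0, zero_mem _, by simpa using hN⟩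
    | succ m _ ih =>
      obtain ⟨g, hg, h3⟩ := ih
      obtain ⟨u, -, hu, -⟩ := h.mono (-m) 1
      obtain ⟨v, -, hv, -⟩ := h.mono m 1
      obtain ⟨k, h4, h5, h6⟩ := h2 ⟨u * (f - g), L.mul_mem_left _ (L.sub_mem hf
        ((span_singleton_le_iff_mem _ _).2 h1 hg)), fun n hn => by
          rw [hu, h3 _ (by omega), map_zero, mul_zero], rfl⟩
      refine ⟨g + v * k, add_mem hg (smul_mem _ v h4), fun n hn => ?_⟩
      rw [← sub_sub, map_sub, Pi.sub_apply, hv]
      rcases (show n < m ∨ n = m by omega) with hn | rfl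
      · rw [h3 n hn, h5 _ (by omega)]; simp
      · rw [sub_self, h6, hu, one_mul, one_mul, zp, add_neg_cancel, zp0, zero_sub, neg_neg,
          sub_self]
  obtain ⟨M, hM⟩ := h.bdd (1 - e)
  have : f * (1 - e) = 0 := h.inj (funext fun n => by
    obtain ⟨g, hg, h3⟩ := key (max N (n - M + 1)) (le_max_left _ _)
    obtain ⟨r, rfl⟩ := mem_span_singleton.1 hg
    rw [show f * (1 - e) = (f - r • e) * (1 - e) by
      rw [smul_eq_mul, sub_mul, mul_assoc, mul_sub e, mul_one, he]; simp, h.mul, map_zero]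
    refine finsum_eq_zero_of_forall_eq_zero fun i => ?_
    by_cases hi : i < max N (n - M + 1)
    · rw [h3 i hi, zero_mul]
    · rw [hM _ (by omega), map_zero, mul_zero])
  rw [mul_sub, mul_one, sub_eq_zero] at this
  exact this.symm

theorem semi (hR : ∀ r : R, ∃ s, r * s * r = r) : IsSemisimpleRing R := by
  refine (isSemisimpleModule_iff _ _).2 ⟨fun I => ?_⟩
  obtain ⟨_, ⟨e, ⟨he, h1⟩, rfl⟩, h2⟩ := set_has_maximal_iff_noetherian.2 (h.noeth hR)
    ((fun e => h.lam (span R {e})) '' {e | e * e = e ∧ e ∈ I}) ⟨_, 0, ⟨by simp, I.zero_mem⟩, rfl⟩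
  have h3 : ∀ f ∈ I, f * e = f := fun f hf => by
    obtain ⟨y, hy⟩ := hR (f * (1 - e))
    have e0 : (1 - e) * e = 0 := by rw [sub_mul, one_mul, he, sub_self]
    have e1 : e * (1 - e) = 0 := by rw [mul_sub, mul_one, he, sub_self]
    obtain ⟨b, hb⟩ : ∃ b, b = f * (1 - e) := ⟨_, rfl⟩
    rw [← hb] at hy
    have e2 : f * ((1 - e) * y * b) = b := by rw [← mul_assoc, ← mul_assoc, ← hb, hy]
    have e3 : e * ((1 - e) * y * b) = 0 := by rw [← mul_assoc, ← mul_assoc, e1]; simp
    have e4 : (1 - e) * y * b * e = 0 := by rw [mul_assoc, hb, mul_assoc f, e0]; simp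
    have e5 : (1 - e) * y * b * ((1 - e) * y * b) = (1 - e) * y * b := by
      have : b * (1 - e) = b := by rw [mul_sub, mul_one, hb, mul_assoc, e0]; simp
      rw [mul_assoc, ← mul_assoc b, ← mul_assoc b, this, hy]
    have e6 : (1 - e) * y * b ∈ I := I.smul_mem _ (by
      rw [hb, mul_sub, mul_one]; exact I.sub_mem hf (I.smul_mem f h1))
    generalize (1 - e) * y * b = u at e2 e3 e4 e5 e6
    have h4 : e ∈ span R {e + u} := mem_span_singleton.2 ⟨e, by simp [mul_add, he, e3]⟩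
    refine h.le_of_lam e he _ h4 (eq_of_le_of_not_lt ?_ (h2 _ ⟨e + u, ⟨?_, I.add_mem h1 e6⟩,
      rfl⟩)).ge f (mem_span_singleton.2 ⟨f, ?_⟩)
    · rintro _ ⟨g, hg, h5⟩
      exact ⟨g, (span_singleton_le_iff_mem _ _).2 h4 hg, h5⟩
    · simp [mul_add, add_mul, he, e3, e4, e5]
    · rw [smul_eq_mul, mul_add, e2, hb]; noncomm_ring
  refine ⟨span R {1 - e}, disjoint_def.2 fun x hx hx' => ?_, codisjoint_iff.2
    ((Ideal.eq_top_iff_one _).2 ?_)⟩
  · obtain ⟨r, rfl⟩ := mem_span_singleton.1 hx'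
    rw [← h3 _ hx, smul_eq_mul, mul_assoc, sub_mul, one_mul, he, sub_self, mul_zero]
  · simpa using add_mem_sup h1 (mem_span_singleton_self (1 - e))

end IsSkewLaurent

end Pool.Agent.H27.Skew
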