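import Pool.Agent.H27.Skew1

set_option autoImplicit false

namespace Pool.Agent.H27.Skew

variable {A R : Type*} [Ring A] [Ring R] {φ : RingAut A} {c : R →+ (ℤ → A)}

def SL (φ : RingAut A) : Subring (HahnSeries ℤ (Module.End ℤ A)) where
  carrier := {F | ∀ n v, F.coeff n v = F.coeff n 1 * (φ ^ n) v}
  add_mem' {F G} hF hG n v := by
    change F.coeff n v + G.coeff n v = (F.coeff n 1 + G.coeff n 1) * _
    rw [hF, hG n v, add_mul]
  zero_mem' n v := (zero_mul _).symm
  neg_mem' {F} hF n v := by
    change -F.coeff n v = -F.coeff n 1 * _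
    rw [hF, neg_mul]
  one_mem' n v := by
    rw [HahnSeries.coeff_one]
    split_ifs with h
    · subst h; exact (one_mul v).symm
    · exact (zero_mul _).symm
  mul_mem' {F G} hF hG n v := by
    rw [HahnSeries.coeff_mul, LinearMap.sum_apply, LinearMap.sum_apply,
      Finset.sum_mul]
    refine Finset.sum_congr rfl fun p hp => ?_
    change F.coeff _ (G.coeff _ v) = F.coeff _ (G.coeff _ 1) * _
    rw [hF, hF _ (G.coeff _ 1), hG, map_mul, zp, (Finset.mem_antidiagonal.1 hp).2.2, mul_assoc]

theorem exists_SL {A : Type} [Ring A] (φ : RingAut A) :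
    ∃ (R : Type) (_ : Ring R) (c : R →+ (ℤ → A)), IsSkewLaurent φ c := by
  refine ⟨SL φ, inferInstance, AddMonoidHom.mk' (fun F n => F.1.coeff n 1) fun _ _ => rfl,
    fun F G e => Subtype.ext (HahnSeries.ext (funext fun n => LinearMap.ext fun v => ?_)),
    fun F => ⟨F.1.order, fun n hn => ?_⟩, fun a ⟨N, hN⟩ => ?_, fun F G n => ?_⟩
  · exact (F.2 n v).trans ((congrArg (· * _) (congrFun e n)).trans (G.2 n v).symm)
  · change F.1.coeff n 1 = 0
    rw [HahnSeries.coeff_eq_zero_of_lt_order hn]; rfl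
  · refine ⟨⟨⟨fun n => ((AddMonoidHom.mulLeft (a n)).comp
      ((φ ^ n : RingAut A) : A →+ A)).toIntLinearMap, (BddBelow.isWF ⟨N, fun n hn =>
        not_lt.1 fun h => Function.mem_support.1 hn ?_⟩).isPWO⟩, fun n v => ?_⟩, ?_⟩
    · exact LinearMap.ext fun v => by simp [hN n h]
    · change a n * _ = a n * (φ ^ n) 1 * _
      rw [map_one, mul_one]; rfl
    · funext n
      change a n * (φ ^ n) 1 = _
      rw [map_one, mul_one]
  · change (F.1 * G.1).coeff n 1 = ∑ᶠ i, F.1.coeff i 1 * (φ ^ i) (G.1.coeff (n - i) 1)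
    rw [HahnSeries.coeff_mul, LinearMap.sum_apply, finsum_eq_sum_of_support_subset
      (s := (Finset.antidiagonal F.1.isPWO_support G.1.isPWO_support n).image Prod.fst),
      Finset.sum_image]
    · refine Finset.sum_congr rfl fun p hp => ?_
      rw [← (Finset.mem_antidiagonal.1 hp).2.2, add_sub_cancel_left]
      exact F.2 _ _
    · intro p hp q hq e
      have h1 := (Finset.mem_antidiagonal.1 hp).2.2
      have h2 := (Finset.mem_antidiagonal.1 hq).2.2
      exact Prod.ext e (by omega)
    · intro i hi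
      refine Finset.mem_coe.2 (Finset.mem_image.2 ⟨(i, n - i), Finset.mem_antidiagonal.2
        ⟨fun e => hi ?_, fun e => hi ?_, by simp⟩, rfl⟩)
      · exact (congrArg (fun f : Module.End ℤ A => f 1 * _) e).trans (zero_mul _)
      · simp only at e ⊢
        rw [e]
        exact (congrArg _ (map_zero _)).trans (mul_zero _)

def geo (φ : RingAut A) (a : ℤ → A) (n : ℕ) : A :=
  (if n = 0 then 1 else 0) + ∑ i : Fin n, geo φ a i * (φ ^ (i : ℤ)) (a (n - i))
termination_by n
decreasing_by exact i.2

namespace IsSkewLaurent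

variable (h : IsSkewLaurent φ c)
include h

theorem one : c 1 = Pi.single 0 1 := by
  obtain ⟨u, h1, h2, -⟩ := h.mono 0 1
  rw [← h1]
  funext n
  simpa using (h2 1 n).symm

theorem pos (H : R) (hH : ∀ n ≤ 0, c H n = 0) : ∃ U, U * (1 - H) = 1 := by
  obtain ⟨U, hU⟩ := h.surj (fun n => if 0 ≤ n then geo φ (c H) n.toNat else 0)
    ⟨0, fun n hn => if_neg (by omega)⟩
  refine ⟨U, h.inj (funext fun n => ?_)⟩
  rw [mul_sub, mul_one, map_sub, Pi.sub_apply, h.mul, h.one, finsum_eq_sum_of_support_subset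
    (s := (Finset.range n.toNat).image (↑)), Finset.sum_image (by simp), Finset.sum_range, hU]
  · rcases lt_or_ge n 0 with hn | hn
    · rw [Int.toNat_eq_zero.2 hn.le]
      simp [hn.ne, hn.not_ge]
    · lift n to ℕ using hn
      simp only [Int.toNat_natCast, Nat.cast_nonneg, if_true]
      rw [geo, add_sub_cancel_right, Pi.single_apply]
      simp
  · intro i hi
    have h1 : 0 ≤ i := by by_contra e; simp [hU, e] at hi
    have h2 : i < n := by by_contra e; simp [hH (n - i) (by omega)] at hi
    exact Finset.mem_coe.2 (Finset.mem_image.2 ⟨i.toNat, by simp; omega, by omega⟩)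

end IsSkewLaurent

end Pool.Agent.H27.Skew
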