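import Pool.Agent.H27.Skew3

set_option autoImplicit false

namespace Pool.Agent.H27.Skew

open PowerSeries Filter

abbrev O := PowerSeries (ZMod 2)

def AA : Subring (ℤ → O) where
  carrier := {a | ∃ k : ZMod 2, (∀ i, constantCoeff (a i) = k) ∧ ∀ᶠ i in cofinite, a i = C k}
  add_mem' := by
    rintro a b ⟨k, h1, h2⟩ ⟨l, h3, h4⟩
    exact ⟨k + l, fun i => by simp [h1, h3], (h2.and h4).mono fun i h => by simp [h.1, h.2]⟩
  mul_mem' := by
    rintro a b ⟨k, h1, h2⟩ ⟨l, h3, h4⟩
    exact ⟨k * l, fun i => by simp [h1, h3], (h2.and h4).mono fun i h => by simp [h.1, h.2]⟩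
  zero_mem' := ⟨0, by simp, by simp⟩
  one_mem' := ⟨1, by simp, by simp⟩
  neg_mem' := by
    rintro a ⟨k, h1, h2⟩
    exact ⟨-k, fun i => by simp [h1], h2.mono fun i h => by rw [Pi.neg_apply, h, map_neg]⟩

def sf (n : ℤ) (a : AA) : AA := ⟨fun i => a.1 (i - n), by
  obtain ⟨k, h1, h2⟩ := a.2
  exact ⟨k, fun i => h1 _, (sub_left_injective (b := n)).tendsto_cofinite.eventually h2⟩⟩

def sh : RingAut AA where
  toFun := sf 1
  invFun := sf (-1)
  left_inv a := Subtype.ext (funext fun i => by simp [sf])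
  right_inv a := Subtype.ext (funext fun i => by simp [sf])
  map_mul' _ _ := rfl
  map_add' _ _ := rfl

theorem sh_pow (n : ℤ) : ∀ (a : AA) (i : ℤ), ((sh ^ n) a).1 i = a.1 (i - n) := by
  induction n using Int.induction_on with
  | zero => intro a i; simp
  | succ n ih =>
    intro a i
    rw [zpow_add_one, RingAut.mul_apply, ih]
    exact congrArg a.1 (by ring)
  | pred n ih =>
    intro a i
    rw [zpow_sub_one, RingAut.mul_apply, ih]
    exact congrArg a.1 (by ring)

def sg (j : ℤ) (x : O) (hx : constantCoeff x = 0) : AA := ⟨Pi.single j x, 0, fun i => by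
  by_cases h : i = j <;> simp [h, hx], (eventually_cofinite_ne j).mono fun i h => by simp [h]⟩

theorem unitO (x : O) (hx : constantCoeff x = 1) : ∃ u, u * x = 1 :=
  (isUnit_iff_constantCoeff.2 (hx ▸ isUnit_one)).exists_left_inv

variable {R : Type*} [Ring R] {c : R →+ (ℤ → AA)}

def Col (c : R →+ (ℤ → AA)) (G : R) (S : Set ℤ) : Prop :=
  ∀ n i, constantCoeff ((c G n).1 i) = 0 ∧ (i - n ∉ S → (c G n).1 i = 0)

namespace IsSkewLaurent

variable (h : IsSkewLaurent sh c)
include h

theorem col {G : R} {S : Set ℤ} (hG : Col c G S) (H : R) : Col c (H * G) S := fun n i => by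
  rw [h.mul]
  refine finsum_induction (fun x : AA => constantCoeff (x.1 i) = 0 ∧ (i - n ∉ S → x.1 i = 0))
    (by simp) (fun x y hx hy => ⟨by simp [hx.1, hy.1], fun e => by simp [hx.2 e, hy.2 e]⟩)
    fun p => ⟨by simp [sh_pow, (hG _ _).1], fun e => ?_⟩
  simp [sh_pow, (hG (n - p) (i - p)).2 (by simpa using e)]

theorem fin (S : Finset ℤ) : ∀ G, Col c G S → ∃ U, U * (1 - G) = 1 := by
  induction S using Finset.induction_on with
  | empty =>
    intro G hG
    obtain rfl : G = 0 := h.inj (funext fun n => Subtype.ext (funext fun i => by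
      simpa using (hG n i).2 (by simp)))
    exact ⟨1, by simp⟩
  | insert s S _ ih =>
    intro G hG
    obtain ⟨N, hN⟩ := h.bdd G
    have ex : ∀ w : O, ∃ g, ∀ n i, (c g n).1 i = if i - n = s then w * (c G n).1 i else 0 := by
      intro w
      obtain ⟨g, hg⟩ := h.surj (fun n => sg (s + n) (w * (c G n).1 (s + n)) (by simp [(hG _ _).1]))
        ⟨N, fun n hn => Subtype.ext (by simp [sg, hN n hn])⟩
      refine ⟨g, fun n i => ?_⟩
      rw [hg]
      by_cases e : i = s + n
      · simp [sg, e]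
      · simp [sg, e, show i - n ≠ s by omega]
    obtain ⟨u, hu⟩ := unitO (1 - (c G 0).1 s) (by simp [(hG _ _).1])
    obtain ⟨g, hg⟩ := ex 1
    obtain ⟨g', hg'⟩ := ex u
    have e1 : g' * g = g' - g := h.inj (funext fun n => Subtype.ext (funext fun i => by
      rw [h.mul, finsum_eq_single _ n fun p hp => Subtype.ext (funext fun i => ?_)]
      · simp only [map_sub, Subring.coe_mul, Pi.mul_apply, sh_pow, hg, hg', Pi.sub_apply,
          AddSubgroupClass.coe_sub, sub_self, sub_zero]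
        split_ifs with e
        · rw [e]; linear_combination -(c G n).1 i * hu
        · simp
      · simp only [Subring.coe_mul, Pi.mul_apply, sh_pow, hg, hg']
        split_ifs <;> first | omega | simp))
    obtain ⟨U, hU⟩ := ih _ (h.col (G := G - g) (fun n i => by
      simp only [map_sub, Pi.sub_apply, AddSubgroupClass.coe_sub, hg]
      split_ifs with e
      · simp
      · exact ⟨by simp [(hG _ _).1], fun e' => by simpa using (hG n i).2 (by simp [e, e'])⟩) (1 + g'))
    refine ⟨U * (1 + g'), ?_⟩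
    rw [mul_assoc, show (1 + g') * (1 - G) = 1 - (1 + g') * (G - g) by
      rw [mul_sub, mul_sub, add_mul _ _ g, e1]; noncomm_ring, hU]

theorem loc (f : R) (hf : ¬ Col c f Set.univ) : ∃ U, U * f = 1 := by
  obtain ⟨N, hN⟩ := h.bdd f
  obtain ⟨m, ⟨j, hj⟩, hm⟩ := Int.exists_least_of_bdd
    (P := fun n => ∃ i, constantCoeff ((c f n).1 i) ≠ 0)
    ⟨N, fun n ⟨i, hi⟩ => not_lt.1 fun e => hi (by simp [hN n e])⟩ (by
      by_contra e
      push Not at e
      exact hf fun n i => ⟨e n i, by simp⟩)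
  obtain ⟨x, -, hx', -⟩ := h.mono (-m) 1
  have hx : ∀ n i, (c (x * f) n).1 i = (c f (n + m)).1 (i + m) := fun n i => by
    rw [hx', one_mul, sh_pow, sub_neg_eq_add, sub_neg_eq_add]
  obtain ⟨H, hH⟩ := h.surj (fun n => if 0 < n then -c (x * f) n else 0)
    ⟨0, fun n hn => if_neg (by omega)⟩
  obtain ⟨U, hU⟩ := h.pos H fun n hn => by rw [hH]; exact if_neg (by omega)
  have h1 : ∀ n i, constantCoeff ((c (1 - H - x * f) n).1 i) = 0 := fun n i => by
    simp only [map_sub, h.one, hH, Pi.sub_apply, AddSubgroupClass.coe_sub]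
    rcases lt_trichotomy n 0 with e | rfl | e
    · have : constantCoeff ((c f (n + m)).1 (i + m)) = 0 := by
        by_contra e'
        have := hm _ ⟨_, e'⟩
        omega
      simp [e.ne, e.not_gt, hx, this]
    · obtain ⟨k, h1, -⟩ := (c f m).2
      rw [h1] at hj
      have : ∀ k : ZMod 2, k ≠ 0 → 1 - k = 0 := by decide
      simpa [hx, h1] using this k hj
    · simp [e.ne', e]
  have h2 : ∀ n, {i | (c (1 - H - x * f) n).1 i ≠ 0}.Finite := fun n => by
    obtain ⟨k, h2, h3⟩ := (c (1 - H - x * f) n).2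
    rw [← h2 0, h1, map_zero] at h3
    exact h3
  obtain ⟨M, hM⟩ := h.bdd (1 - H - x * f)
  obtain ⟨V, hV⟩ := h.fin ((Finset.Icc M 0).biUnion fun n => (h2 n).toFinset.image (· - n)) _
    (h.col (G := 1 - H - x * f) (fun n i => ⟨h1 n i, fun e => by
      by_contra e'
      refine e (Finset.mem_biUnion.2 ⟨n, Finset.mem_Icc.2 ⟨not_lt.1 fun e => e' (by simp [hM n e]),
        not_lt.1 fun e => e' (by simp [h.one, hH, e, e.ne'])⟩,
          Finset.mem_image.2 ⟨i, by simpa using e', rfl⟩⟩)⟩) U)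
  exact ⟨V * U * x, by rw [← hV, mul_sub U, hU]; noncomm_ring⟩

theorem jac {f : R} (hf : Col c f Set.univ) : f ∈ Ring.jacobson R := by
  rw [← Ideal.jacobson_bot, Ideal.mem_jacobson_iff]
  intro y
  obtain ⟨U, hU⟩ := h.loc (y * f + 1) fun e => by
    simpa [h.one, (h.col hf y 0 0).1] using (e 0 0).1
  exact ⟨U, by rw [← hU]; simp [mul_add, mul_assoc]⟩

theorem semiloc : IsSemisimpleRing (R ⧸ Ring.jacobson R) := by
  refine (isSemisimpleModule_iff _ _).2 ⟨fun I => ?_⟩
  by_cases e : I = ⊥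
  · exact ⟨⊤, e ▸ isCompl_bot_top⟩
  obtain ⟨x, h1, h2⟩ := I.ne_bot_iff.1 e
  obtain ⟨f, rfl⟩ := Ideal.Quotient.mk_surjective x
  obtain ⟨U, hU⟩ := h.loc f fun e => h2 (Ideal.Quotient.eq_zero_iff_mem.2 (h.jac e))
  have := I.smul_mem (Ideal.Quotient.mk _ U) h1
  rw [smul_eq_mul, ← map_mul, hU, map_one, ← Ideal.eq_top_iff_one] at this
  exact ⟨⊥, this ▸ isCompl_top_bot⟩

end IsSkewLaurent

theorem notnil : ∃ a ∈ Ring.jacobson AA, ¬ IsNilpotent a := by
  refine ⟨sg 0 X constantCoeff_X, ?_, fun ⟨n, hn⟩ => ?_⟩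
  · rw [← Ideal.jacobson_bot, Ideal.mem_jacobson_iff]
    intro y
    obtain ⟨u, hu⟩ := unitO (y.1 0 * X + 1) (by simp)
    refine ⟨1 + sg 0 (u - 1) (by simpa [sub_eq_zero] using congrArg constantCoeff hu),
      Subtype.ext (funext fun i => ?_)⟩
    by_cases e : i = 0
    · subst e; simp [sg]; linear_combination hu
    · simp [sg, e]
  · simpa [sg] using congrFun (congrArg Subtype.val hn) 0

end Pool.Agent.H27.Skew
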