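import Mathlib

set_option autoImplicit false

namespace Pool.Agent.H27.Skew

/-- `c` sends each element of the ring `R` to its coefficient sequence and exhibits `R` as the
skew Laurent series ring `A((x, φ))`, with `x a = φ(a) x` -/
structure IsSkewLaurent {A R : Type*} [Ring A] [Ring R] (φ : RingAut A) (c : R →+ (ℤ → A)) :
    Prop where
  inj : Function.Injective c
  bdd : ∀ f, ∃ N, ∀ n < N, c f n = 0
  surj : ∀ a : ℤ → A, (∃ N, ∀ n < N, a n = 0) → ∃ f, c f = a
  mul : ∀ f g n, c (f * g) n = ∑ᶠ i, c f i * (φ ^ i) (c g (n - i))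

end Pool.Agent.H27.Skew
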