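import Mathlib

set_option autoImplicit false

namespace Pool.Agent.H27.T3

open Finset

section bil
variable {Y Z : Type} [DecidableEq Y] [DecidableEq Z]

lemma fiber_le (G : Finset Y) (a : Y → ℤ) (I : Finset ℤ) (g : Y → ℝ) :
    ∑ j ∈ I, ∑ y ∈ G.filter (fun y => a y = j), g y ^ 2 ≤ ∑ y ∈ G, g y ^ 2 := by
  rw [sum_fiberwise_eq_sum_filter]
  exact sum_le_sum_of_subset_of_nonneg (filter_subset _ _) fun _ _ _ => sq_nonneg _

lemma diag (G : Finset Y) (H : Finset Z) (w : Y → Z → ℝ) (hw : ∀ y z, 0 ≤ w y z) (κ : ℝ)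
    (hκ : 0 ≤ κ) (hB : ∀ B C : Finset _, ∑ y ∈ B, ∑ z ∈ C, w y z ≤ κ * √(B.card * C.card))
    (g : Y → ℝ) (h : Z → ℝ) (a : Y → ℤ) (b : Z → ℤ) (u v : ℤ → ℝ) (hu : ∀ j, 0 ≤ u j)
    (hv : ∀ j, 0 ≤ v j) (hg : ∀ y ∈ G, u (a y) ≤ g y ∧ g y ≤ 2 * u (a y))
    (hh : ∀ z ∈ H, v (b z) ≤ h z ∧ h z ≤ 2 * v (b z)) :
    ∑ y ∈ G, ∑ z ∈ H, (if b z = a y then w y z * (g y * h z) else 0) ≤
      2 * κ * (∑ y ∈ G, g y ^ 2 + ∑ z ∈ H, h z ^ 2) := by
  rw [← sum_fiberwise_of_maps_to (g := a) (t := G.image a) fun y hy => mem_image_of_mem a hy]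
  have key : ∀ j ∈ G.image a, ∑ y ∈ G.filter (fun y => a y = j), ∑ z ∈ H,
      (if b z = a y then w y z * (g y * h z) else 0) ≤
      2 * κ * (∑ y ∈ G.filter (fun y => a y = j), g y ^ 2 +
        ∑ z ∈ H.filter (fun z => b z = j), h z ^ 2) := by
    intro j _
    set B := G.filter (fun y => a y = j)
    set C := H.filter (fun z => b z = j)
    have e1 : ∑ y ∈ B, ∑ z ∈ H, (if b z = a y then w y z * (g y * h z) else 0) ≤
        4 * u j * v j * ∑ y ∈ B, ∑ z ∈ C, w y z := by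
      rw [mul_sum]
      refine sum_le_sum fun y hy => ?_
      replace hy := mem_filter.mp hy
      obtain ⟨hy, rfl⟩ := hy
      rw [← sum_filter, mul_sum]
      refine sum_le_sum fun z hz => ?_
      obtain ⟨hz, e⟩ := mem_filter.mp hz
      have h1 := hg y hy
      have h2 := hh z hz
      rw [e] at h2
      have h3 := hu (a y)
      have h4 := hv (a y)
      have : g y * h z ≤ 2 * u (a y) * (2 * v (a y)) :=
        mul_le_mul h1.2 h2.2 (h4.trans h2.1) (by positivity)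
      nlinarith [hw y z]
    have e2 : (B.card : ℝ) * u j ^ 2 ≤ ∑ y ∈ B, g y ^ 2 := by
      rw [← nsmul_eq_mul]
      refine card_nsmul_le_sum _ _ _ fun y hy => ?_
      replace hy := mem_filter.mp hy
      obtain ⟨hy, rfl⟩ := hy
      exact pow_le_pow_left₀ (hu _) (hg y hy).1 2
    have e3 : (C.card : ℝ) * v j ^ 2 ≤ ∑ z ∈ C, h z ^ 2 := by
      rw [← nsmul_eq_mul]
      refine card_nsmul_le_sum _ _ _ fun z hz => ?_
      replace hz := mem_filter.mp hz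
      obtain ⟨hz, rfl⟩ := hz
      exact pow_le_pow_left₀ (hv _) (hh z hz).1 2
    have e4 := hB B C
    rw [Real.sqrt_mul (Nat.cast_nonneg _)] at e4
    have s1 := Real.sq_sqrt (Nat.cast_nonneg (α := ℝ) B.card)
    have s2 := Real.sq_sqrt (Nat.cast_nonneg (α := ℝ) C.card)
    have e5 : 2 * (u j * v j * (√(B.card : ℝ) * √(C.card : ℝ))) ≤
        B.card * u j ^ 2 + C.card * v j ^ 2 := by
      nlinarith [sq_nonneg (u j * √(B.card : ℝ) - v j * √(C.card : ℝ))]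
    have e6 := mul_le_mul_of_nonneg_left e4 (mul_nonneg (hu j) (hv j))
    have e7 := mul_le_mul_of_nonneg_left (e5.trans (add_le_add e2 e3)) hκ
    nlinarith
  refine (sum_le_sum key).trans ?_
  rw [← mul_sum, sum_add_distrib]
  exact mul_le_mul_of_nonneg_left (add_le_add (fiber_le _ _ _ _) (fiber_le _ _ _ _))
    (by positivity)

lemma lev {t : ℝ} (ht : 0 < t) : (2 : ℝ) ^ Int.log 2 t ≤ t ∧ t ≤ 2 * (2 : ℝ) ^ Int.log 2 t := by
  have h1 := Int.zpow_log_le_self (b := 2) (by norm_num) ht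
  have h2 := Int.lt_zpow_succ_log_self (b := 2) (by norm_num) t
  rw [zpow_add_one₀ (by norm_num)] at h2
  push_cast at h1 h2
  exact ⟨h1, by linarith⟩

lemma far {s t : ℝ} (hs : 0 < s) (ht : 0 < t) (J : ℕ) (h : Int.log 2 s + J < Int.log 2 t) :
    2 ^ J * (s * t) ≤ t ^ 2 := by
  have h1 := (lev hs).2
  have h2 := (lev ht).1
  have h3 : (2 : ℝ) ^ (Int.log 2 s + J + 1) ≤ 2 ^ Int.log 2 t :=
    zpow_le_zpow_right₀ (by norm_num) h
  rw [zpow_add_one₀ (by norm_num), zpow_add₀ (by norm_num), zpow_natCast] at h3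
  have h4 : (2 : ℝ) ^ J * s ≤ t := by
    have : (0 : ℝ) < 2 ^ J := by positivity
    nlinarith
  nlinarith

lemma bil (G : Finset Y) (H : Finset Z) (w : Y → Z → ℝ) (hw : ∀ y z, 0 ≤ w y z) (κ : ℝ)
    (hκ : 0 ≤ κ) (hB : ∀ B C : Finset _, ∑ y ∈ B, ∑ z ∈ C, w y z ≤ κ * √(B.card * C.card))
    (J : ℕ) (h1 : ∀ y, ∑ z ∈ H, w y z ≤ 2 ^ J) (h2 : ∀ z, ∑ y ∈ G, w y z ≤ 2 ^ J)
    (g : Y → ℝ) (h : Z → ℝ) (hg : ∀ y, 0 ≤ g y) (hh : ∀ z, 0 ≤ h z) :
    ∑ y ∈ G, ∑ z ∈ H, w y z * (g y * h z) ≤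
      (2 * κ * (2 * J + 1) + 1) * (∑ y ∈ G, g y ^ 2 + ∑ z ∈ H, h z ^ 2) := by
  set G' := G.filter fun y => 0 < g y
  set H' := H.filter fun z => 0 < h z
  have e0 : ∑ y ∈ G, ∑ z ∈ H, w y z * (g y * h z) = ∑ y ∈ G', ∑ z ∈ H', w y z * (g y * h z) := by
    rw [sum_filter]
    refine sum_congr rfl fun y _ => ?_
    split_ifs with k
    · rw [sum_filter]
      refine sum_congr rfl fun z _ => ?_
      split_ifs with k'
      · rfl
      · rw [le_antisymm (not_lt.mp k') (hh z)]; simp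
    · rw [le_antisymm (not_lt.mp k) (hg y)]; simp
  have p2 : (0 : ℝ) < 2 ^ J := by positivity
  have e1 : ∀ y ∈ G', ∀ z ∈ H', w y z * (g y * h z) ≤
      ∑ d ∈ Icc (-J : ℤ) J, (if Int.log 2 (h z) - d = Int.log 2 (g y) then w y z * (g y * h z)
        else 0) + (w y z * g y ^ 2 + w y z * h z ^ 2) / 2 ^ J := by
    intro y hy z hz
    have a1 := (mem_filter.mp hy).2
    have a2 := (mem_filter.mp hz).2
    have a3 := hw y z
    have n1 : ∀ d ∈ Icc (-J : ℤ) J, 0 ≤ (if Int.log 2 (h z) - d = Int.log 2 (g y) then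
        w y z * (g y * h z) else 0) := fun d _ => by split_ifs <;> positivity
    by_cases k : Int.log 2 (h z) - Int.log 2 (g y) ∈ Icc (-J : ℤ) J
    · have := single_le_sum n1 k
      simp only [sub_sub_cancel, if_true] at this
      have : 0 ≤ (w y z * g y ^ 2 + w y z * h z ^ 2) / 2 ^ J := by positivity
      linarith
    · have n2 := sum_nonneg n1
      have : w y z * (g y * h z) ≤ (w y z * g y ^ 2 + w y z * h z ^ 2) / 2 ^ J := by
        rw [le_div_iff₀ p2]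
        rw [mem_Icc, not_and_or] at k
        rcases k with k | k
        · have := mul_le_mul_of_nonneg_left (far a2 a1 J (by omega)) a3
          nlinarith [mul_nonneg a3 (sq_nonneg (h z))]
        · have := mul_le_mul_of_nonneg_left (far a1 a2 J (by omega)) a3
          nlinarith [mul_nonneg a3 (sq_nonneg (g y))]
      linarith
  have sg : ∑ y ∈ G', g y ^ 2 ≤ ∑ y ∈ G, g y ^ 2 :=
    sum_le_sum_of_subset_of_nonneg (filter_subset _ _) fun _ _ _ => sq_nonneg _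
  have sh : ∑ z ∈ H', h z ^ 2 ≤ ∑ z ∈ H, h z ^ 2 :=
    sum_le_sum_of_subset_of_nonneg (filter_subset _ _) fun _ _ _ => sq_nonneg _
  have e2 : ∑ y ∈ G', ∑ z ∈ H', ∑ d ∈ Icc (-J : ℤ) J, (if Int.log 2 (h z) - d = Int.log 2 (g y)
      then w y z * (g y * h z) else 0) ≤
      (2 * J + 1) * (2 * κ * (∑ y ∈ G, g y ^ 2 + ∑ z ∈ H, h z ^ 2)) := by
    rw [sum_congr rfl fun y _ => sum_comm, sum_comm]
    refine (sum_le_card_nsmul _ _ _ fun d _ => (diag G' H' w hw κ hκ hB g h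
      (fun y => Int.log 2 (g y)) (fun z => Int.log 2 (h z) - d) (fun j => 2 ^ j)
      (fun j => 2 ^ (j + d)) (fun j => by positivity) (fun j => by positivity)
      (fun y hy => lev (mem_filter.mp hy).2) (fun z hz => by
        simpa using lev (mem_filter.mp hz).2)).trans
      (mul_le_mul_of_nonneg_left (add_le_add sg sh) (by positivity))).trans (le_of_eq ?_)
    rw [nsmul_eq_mul, Int.card_Icc]
    congr 1
    rw [show (J : ℤ) + 1 - -J = (2 * J + 1 : ℕ) by push_cast; ring, Int.toNat_natCast]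
    push_cast; rfl
  have e3 : ∑ y ∈ G', ∑ z ∈ H', (w y z * g y ^ 2 + w y z * h z ^ 2) / 2 ^ J ≤
      ∑ y ∈ G, g y ^ 2 + ∑ z ∈ H, h z ^ 2 := by
    simp only [← sum_div, sum_add_distrib]
    rw [div_le_iff₀ p2, add_mul, sum_comm (s := G') (t := H') (f := fun y z => w y z * h z ^ 2)]
    refine add_le_add ((?_ : _ ≤ (∑ y ∈ G', g y ^ 2) * 2 ^ J).trans (by gcongr))
      ((?_ : _ ≤ (∑ z ∈ H', h z ^ 2) * 2 ^ J).trans (by gcongr))
    · rw [sum_mul]
      refine sum_le_sum fun y _ => ?_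
      rw [← sum_mul, mul_comm]
      exact mul_le_mul_of_nonneg_left ((sum_le_sum_of_subset_of_nonneg (filter_subset _ _)
        fun _ _ _ => hw _ _).trans (h1 y)) (sq_nonneg _)
    · rw [sum_mul]
      refine sum_le_sum fun z _ => ?_
      rw [← sum_mul, mul_comm]
      exact mul_le_mul_of_nonneg_left ((sum_le_sum_of_subset_of_nonneg (filter_subset _ _)
        fun _ _ _ => hw _ _).trans (h2 z)) (sq_nonneg _)
  rw [e0]
  refine (sum_le_sum fun y hy => sum_le_sum fun z hz => e1 y hy z hz).trans ?_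
  simp only [sum_add_distrib]
  linarith

end bil

lemma layer (M t : ℝ) (hM : 0 ≤ M) (ht : t ≤ M) (J : ℕ) :
    t ≤ ∑ i ∈ range J, (if M / 2 ^ (i + 1) < t then M / 2 ^ i else 0) + M / 2 ^ J := by
  induction J with
  | zero => simpa using ht
  | succ J ih =>
    rw [sum_range_succ]
    have : 0 ≤ ∑ i ∈ range J, (if M / 2 ^ (i + 1) < t then M / 2 ^ i else 0) :=
      sum_nonneg fun i _ => by split_ifs <;> positivity
    have : 0 ≤ M / 2 ^ (J + 1) := by positivity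
    split_ifs with h
    · linarith
    · linarith

variable {Γ : Type} [Group Γ] [DecidableEq Γ]

lemma count (A B C : Finset Γ) :
    (((A ×ˢ B ×ˢ C).filter (fun t => t.1 * t.2.1 * t.2.2 = 1)).card : ℝ) =
      ∑ y ∈ B, ∑ z ∈ C, ∑ x ∈ A, if x * y * z = 1 then (1 : ℝ) else 0 := by
  rw [card_filter, sum_product, sum_congr rfl fun x _ => sum_product .., sum_comm]
  push_cast
  exact sum_congr rfl fun y _ => sum_comm

lemma ind (A G H : Finset Γ) (κ : ℝ) (hκ : 0 ≤ κ) (J : ℕ) (hA : A.card ≤ 2 ^ J)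
    (hB : ∀ B C : Finset Γ, (((A ×ˢ B ×ˢ C).filter (fun t => t.1 * t.2.1 * t.2.2 = 1)).card : ℝ)
      ≤ κ * √(B.card * C.card)) (g h : Γ → ℝ) (hg : ∀ y, 0 ≤ g y) (hh : ∀ z, 0 ≤ h z) :
    ∑ x ∈ A, ∑ y ∈ G, ∑ z ∈ H, (if x * y * z = 1 then g y * h z else 0) ≤
      (2 * κ * (2 * J + 1) + 1) * (∑ y ∈ G, g y ^ 2 + ∑ z ∈ H, h z ^ 2) := by
  have hA' : (A.card : ℝ) ≤ 2 ^ J := by exact_mod_cast hA
  refine le_trans (le_of_eq ?_) (bil G H (fun y z => ∑ x ∈ A, if x * y * z = 1 then 1 else 0)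
    (fun y z => sum_nonneg fun x _ => by split_ifs <;> norm_num) κ hκ
    (fun B C => count A B C ▸ hB B C) J (fun y => ?_) (fun z => ?_) g h hg hh)
  · rw [sum_comm]
    refine sum_congr rfl fun y _ => ?_
    rw [sum_comm]
    simp only [sum_mul, ite_mul, one_mul, zero_mul]
  · rw [sum_comm]
    refine (sum_le_card_nsmul _ _ 1 fun x _ => ?_).trans (by simpa using hA')
    simp only [mul_eq_one_iff_inv_eq, sum_ite_eq]
    split_ifs <;> norm_num
  · rw [sum_comm]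
    refine (sum_le_card_nsmul _ _ 1 fun x _ => ?_).trans (by simpa using hA')
    have : ∀ y, x * y * z = 1 ↔ x⁻¹ * z⁻¹ = y := fun y => by
      rw [mul_eq_one_iff_eq_inv, inv_mul_eq_iff_eq_mul, eq_comm]
    simp only [this, sum_ite_eq]
    split_ifs <;> norm_num

lemma tri (F G H : Finset Γ) (K : ℝ) (hK : 0 ≤ K) (J : ℕ) (hF : F.card ≤ 2 ^ J)
    (hT : ∀ A ⊆ F, ∀ B C : Finset Γ,
      (((A ×ˢ B ×ˢ C).filter (fun t => t.1 * t.2.1 * t.2.2 = 1)).card : ℝ)
        ≤ K * √(A.card * B.card * C.card))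
    (f g h : Γ → ℝ) (hg : ∀ y, 0 ≤ g y) (hh : ∀ z, 0 ≤ h z) :
    ∑ x ∈ F, ∑ y ∈ G, ∑ z ∈ H, (if x * y * z = 1 then f x * g y * h z else 0) ≤
      (J * (4 * K * (2 * J + 1) + 1) + 1) * √(∑ x ∈ F, f x ^ 2) *
        (∑ y ∈ G, g y ^ 2 + ∑ z ∈ H, h z ^ 2) := by
  set M := √(∑ x ∈ F, f x ^ 2)
  set Q := ∑ y ∈ G, g y ^ 2 + ∑ z ∈ H, h z ^ 2
  set c : Γ → ℝ := fun x => ∑ y ∈ G, ∑ z ∈ H, (if x * y * z = 1 then g y * h z else 0)
  have hM : 0 ≤ M := Real.sqrt_nonneg _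
  have hM2 : M ^ 2 = ∑ x ∈ F, f x ^ 2 := Real.sq_sqrt (sum_nonneg fun _ _ => sq_nonneg _)
  have hQ : 0 ≤ Q := by positivity
  have hc : ∀ x, 0 ≤ c x := fun x => sum_nonneg fun y _ => sum_nonneg fun z _ => by
    split_ifs
    · exact mul_nonneg (hg y) (hh z)
    · rfl
  have e0 : ∑ x ∈ F, ∑ y ∈ G, ∑ z ∈ H, (if x * y * z = 1 then f x * g y * h z else 0) =
      ∑ x ∈ F, f x * c x := by
    simp only [c, mul_sum, mul_ite, mul_zero, mul_assoc]
  have c1 : ∀ x, c x ≤ Q := by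
    intro x
    have := ind {x} G H 0 le_rfl 0 (by simp)
    have e : c x ≤ ∑ y ∈ G, ∑ z ∈ H, ((if (x * y)⁻¹ = z then g y ^ 2 else 0) +
        (if x⁻¹ * z⁻¹ = y then h z ^ 2 else 0)) := by
      refine sum_le_sum fun y _ => sum_le_sum fun z _ => ?_
      by_cases k : x * y * z = 1
      · rw [if_pos k, if_pos (mul_eq_one_iff_inv_eq.mp k), if_pos (by
          rw [inv_mul_eq_iff_eq_mul, eq_comm, ← mul_eq_one_iff_eq_inv, k])]
        nlinarith [sq_nonneg (g y - h z), mul_nonneg (hg y) (hh z)]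
      · rw [if_neg k]
        refine add_nonneg ?_ ?_ <;> split_ifs <;> positivity
    refine e.trans ?_
    simp only [sum_add_distrib]
    rw [sum_comm (s := G) (t := H) (f := fun y z => if x⁻¹ * z⁻¹ = y then h z ^ 2 else 0)]
    simp only [sum_ite_eq]
    refine add_le_add (sum_le_sum fun y _ => ?_) (sum_le_sum fun y _ => ?_) <;> split_ifs <;>
      first | rfl | positivity
  have e1 : ∀ x ∈ F, f x * c x ≤ ∑ i ∈ range J, (if M / 2 ^ (i + 1) < f x then M / 2 ^ i * c x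
      else 0) + M / 2 ^ J * Q := by
    intro x hx
    have : f x ≤ M := Real.le_sqrt_of_sq_le (single_le_sum (f := fun x => f x ^ 2)
      (fun _ _ => sq_nonneg _) hx)
    have := mul_le_mul_of_nonneg_right (layer M (f x) hM this J) (hc x)
    rw [add_mul, sum_mul] at this
    simp only [ite_mul, zero_mul] at this
    have : M / 2 ^ J * c x ≤ M / 2 ^ J * Q := mul_le_mul_of_nonneg_left (c1 x) (by positivity)
    linarith
  have e2 : ∀ i ∈ range J, ∑ x ∈ F, (if M / 2 ^ (i + 1) < f x then M / 2 ^ i * c x else 0) ≤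
      (4 * K * (2 * J + 1) + 1) * M * Q := by
    intro i _
    rw [← sum_filter, ← mul_sum]
    set A := F.filter fun x => M / 2 ^ (i + 1) < f x
    have a1 := ind A G H (K * √A.card) (by positivity) J ((card_filter_le _ _).trans hF)
      (fun B C => by
        have := hT A (filter_subset _ _) B C
        rwa [mul_assoc (A.card : ℝ), Real.sqrt_mul (Nat.cast_nonneg _), ← mul_assoc] at this)
      g h hg hh
    have a2 : (A.card : ℝ) * (M / 2 ^ (i + 1)) ^ 2 ≤ M ^ 2 := by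
      rw [← nsmul_eq_mul, hM2]
      refine (card_nsmul_le_sum _ (fun x => f x ^ 2) _ fun x hx => ?_).trans
        (sum_le_sum_of_subset_of_nonneg (filter_subset _ _) fun _ _ _ => sq_nonneg _)
      exact pow_le_pow_left₀ (by positivity) (mem_filter.mp hx).2.le 2
    have a3 : √(A.card : ℝ) * (M / 2 ^ (i + 1)) ≤ M := by
      refine (pow_le_pow_iff_left₀ (by positivity) hM two_ne_zero).mp ?_
      rwa [mul_pow, Real.sq_sqrt (Nat.cast_nonneg _)]
    have a4 : M / 2 ^ i = 2 * (M / 2 ^ (i + 1)) := by rw [pow_succ]; field_simp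
    have a5 : M / 2 ^ i ≤ M := div_le_self hM (one_le_pow₀ (by norm_num))
    refine (mul_le_mul_of_nonneg_left a1 (by positivity)).trans ?_
    rw [← mul_assoc]
    refine mul_le_mul_of_nonneg_right ?_ hQ
    have a6 := mul_le_mul_of_nonneg_left a3 (show 0 ≤ 4 * K * (2 * J + 1) by positivity)
    rw [mul_add, mul_one]
    nth_rewrite 1 [a4]
    nlinarith
  rw [e0]
  refine (sum_le_sum e1).trans ?_
  rw [sum_add_distrib, sum_comm]
  have e3 := sum_le_card_nsmul _ _ _ e2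
  rw [card_range, nsmul_eq_mul] at e3
  have e4 : ∑ x ∈ F, M / 2 ^ J * Q ≤ M * Q := by
    rw [sum_const, nsmul_eq_mul, ← mul_assoc]
    refine mul_le_mul_of_nonneg_right ?_ hQ
    have : (F.card : ℝ) ≤ 2 ^ J := by exact_mod_cast hF
    rw [mul_div_assoc', div_le_iff₀ (by positivity)]
    nlinarith
  nlinarith

theorem core (F G H : Finset Γ) (K : ℝ) (hK : 0 ≤ K) (J : ℕ) (hF : F.card ≤ 2 ^ J)
    (hT : ∀ A ⊆ F, ∀ B C : Finset Γ,
      (((A ×ˢ B ×ˢ C).filter (fun t => t.1 * t.2.1 * t.2.2 = 1)).card : ℝ)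
        ≤ K * √(A.card * B.card * C.card)) (f g h : Γ → ℂ) :
    ‖∑ x ∈ F, ∑ y ∈ G, ∑ z ∈ H, (if x * y * z = 1 then f x * g y * h z else 0)‖ ≤
      2 * (J * (4 * K * (2 * J + 1) + 1) + 1) *
        (√(∑ x ∈ F, ‖f x‖ ^ 2) * √(∑ y ∈ G, ‖g y‖ ^ 2) * √(∑ z ∈ H, ‖h z‖ ^ 2)) := by
  set a := √(∑ y ∈ G, ‖g y‖ ^ 2)
  set b := √(∑ z ∈ H, ‖h z‖ ^ 2)
  have ha : a ^ 2 = ∑ y ∈ G, ‖g y‖ ^ 2 := Real.sq_sqrt (sum_nonneg fun _ _ => sq_nonneg _)
  have hb : b ^ 2 = ∑ y ∈ H, ‖h y‖ ^ 2 := Real.sq_sqrt (sum_nonneg fun _ _ => sq_nonneg _)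
  have e : ‖∑ x ∈ F, ∑ y ∈ G, ∑ z ∈ H, (if x * y * z = 1 then f x * g y * h z else 0)‖ ≤
      ∑ x ∈ F, ∑ y ∈ G, ∑ z ∈ H, (if x * y * z = 1 then ‖f x‖ * ‖g y‖ * ‖h z‖ else 0) := by
    refine norm_sum_le_of_le _ fun x _ => norm_sum_le_of_le _ fun y _ =>
      norm_sum_le_of_le _ fun z _ => ?_
    split_ifs <;> simp
  refine e.trans ?_
  rcases (show 0 ≤ a from Real.sqrt_nonneg _).eq_or_lt with a0 | a0
  · have : ∀ y ∈ G, ‖g y‖ = 0 := fun y hy => pow_eq_zero_iff (two_ne_zero) |>.mp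
      ((sum_eq_zero_iff_of_nonneg (f := fun y => ‖g y‖ ^ 2) fun _ _ => sq_nonneg _).mp
        (by rw [← ha, ← a0]; simp) y hy)
    rw [← a0, sum_eq_zero fun x _ => sum_eq_zero fun y hy => by simp [this y hy]]
    simp
  rcases (show 0 ≤ b from Real.sqrt_nonneg _).eq_or_lt with b0 | b0
  · have : ∀ y ∈ H, ‖h y‖ = 0 := fun y hy => pow_eq_zero_iff (two_ne_zero) |>.mp
      ((sum_eq_zero_iff_of_nonneg (f := fun y => ‖h y‖ ^ 2) fun _ _ => sq_nonneg _).mp
        (by rw [← hb, ← b0]; simp) y hy)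
    rw [← b0, sum_eq_zero fun x _ => sum_eq_zero fun y _ => sum_eq_zero fun z hz => by
      simp [this z hz]]
    simp
  have := tri F G H K hK J hF hT (fun x => ‖f x‖) (fun y => ‖g y‖ / a) (fun z => ‖h z‖ / b)
    (fun y => by positivity) (fun z => by positivity)
  simp only [div_pow, ← sum_div, ← ha, ← hb, div_self (pow_pos a0 2).ne',
    div_self (pow_pos b0 2).ne'] at this
  have e2 : ∑ x ∈ F, ∑ y ∈ G, ∑ z ∈ H, (if x * y * z = 1 then ‖f x‖ * ‖g y‖ * ‖h z‖ else 0) =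
      (∑ x ∈ F, ∑ y ∈ G, ∑ z ∈ H, (if x * y * z = 1 then ‖f x‖ * (‖g y‖ / a) * (‖h z‖ / b)
        else 0)) * (a * b) := by
    simp only [sum_mul]
    refine sum_congr rfl fun x _ => sum_congr rfl fun y _ => sum_congr rfl fun z _ => ?_
    split_ifs
    · field_simp
    · simp
  rw [e2]
  refine (mul_le_mul_of_nonneg_right this (by positivity)).trans (le_of_eq (by ring))

end Pool.Agent.H27.T3
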