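import Mathlib

set_option autoImplicit false

namespace Pool.Agent.H27.Tr

open Finset Equiv

theorem blockperm {α ι : Type*} [Fintype α] [Fintype ι] [DecidableEq α] [DecidableEq ι]
    (f : α → ι) (μ : ι → ℚ) : ∑ σ : Perm α, ∏ a, (if f (σ a) = f a then μ (f a) else 0) =
      ∏ i, ((Fintype.card {a // f a = i}).factorial * μ i ^ Fintype.card {a // f a = i}) := by
  simp only [Fintype.prod_ite_zero]
  rw [← sum_filter, sum_const, prod_mul_distrib, nsmul_eq_mul]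
  congr 1
  · rw [← Nat.cast_prod, ← DomMulAct.stabilizer_card, Fintype.card_subtype]
    simp only [funext_iff, Function.comp]
  · rw [← prod_fiberwise' univ f]
    simp [Fintype.card_subtype]

theorem count {E α β : Type*} [Finite E] [Fintype α] [Fintype β] [DecidableEq α] [DecidableEq β]
    (l : E → α) (r : E → β) :
    Nat.card {S : Set E // (∀ a, ∃! s, s ∈ S ∧ l s = a) ∧ ∀ b, ∃! s, s ∈ S ∧ r s = b} =
      ∑ π : α ≃ β, ∏ a, Nat.card {g // l g = a ∧ r g = π a} := by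
  simp only [← Nat.card_pi]
  rw [← Nat.card_sigma]
  refine (Nat.card_congr (Equiv.ofBijective (fun p => ⟨Set.range fun a => (p.2 a).1,
    fun a => ⟨_, ⟨⟨a, rfl⟩, (p.2 a).2.1⟩, by
      rintro _ ⟨⟨a', rfl⟩, h⟩
      obtain rfl := (p.2 a').2.1.symm.trans h
      rfl⟩, fun b => ⟨_, ⟨⟨p.1.symm b, rfl⟩, by simp [(p.2 _).2.2]⟩, by
      rintro _ ⟨⟨a', rfl⟩, h⟩
      obtain rfl := (p.2 a').2.2.symm.trans h
      rw [p.1.symm_apply_apply]⟩⟩) ⟨?_, ?_⟩)).symm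
  · rintro ⟨π, f⟩ ⟨π', f'⟩ h
    have h1 : ∀ a, (f a).1 = (f' a).1 := fun a => by
      obtain ⟨a', h2⟩ : (f a).1 ∈ Set.range fun a => (f' a).1 :=
        (Set.ext_iff.1 (congrArg Subtype.val h) _).1 ⟨a, rfl⟩
      obtain rfl : a' = a := (f' a').2.1.symm.trans ((congrArg l h2).trans (f a).2.1)
      exact h2.symm
    obtain rfl : π = π' := Equiv.ext fun a =>
      (f a).2.2.symm.trans ((congrArg r (h1 a)).trans (f' a).2.2)
    obtain rfl : f = f' := funext fun a => Subtype.ext (h1 a)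
    rfl
  · rintro ⟨S, h1, h2⟩
    have h1' := h1
    choose f hf hf' using h1'
    refine ⟨⟨Equiv.ofBijective (fun a => r (f a)) ⟨fun a a' h => ?_, fun b => ?_⟩,
      fun a => ⟨f a, (hf a).2, rfl⟩⟩, Subtype.ext (Set.ext fun s => ⟨?_, fun hs => ?_⟩)⟩
    · rw [← (hf a).2, (h2 _).unique ⟨(hf a).1, h⟩ ⟨(hf a').1, rfl⟩, (hf a').2]
    · obtain ⟨s, h3, -⟩ := h2 b
      exact ⟨l s, by rw [← h3.2]; exact congrArg r (hf' _ s ⟨h3.1, rfl⟩).symm⟩
    · rintro ⟨a, rfl⟩; exact (hf a).1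
    · exact ⟨l s, (hf' _ s ⟨hs, rfl⟩).symm⟩

noncomputable def F (t : ℕ) : ℚ := t.factorial * (1 / t) ^ t

theorem F_le (t : ℕ) : 0 ≤ F t ∧ F t ≤ 1 ∧ (6 ≤ t → F t ≤ 5 / 324) := by
  have st : ∀ t, F (t + 1) ≤ F t := fun t => by
    unfold F
    rcases t.eq_zero_or_pos with rfl | ht
    · simp
    have : (0 : ℚ) < t := by exact_mod_cast ht
    rw [Nat.factorial_succ, pow_succ]
    push_cast
    calc _ = (t.factorial : ℚ) * (1 / (t + 1)) ^ t := by field_simp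
      _ ≤ _ := by gcongr; linarith
  have an : Antitone F := antitone_nat_of_succ_le st
  refine ⟨by unfold F; positivity, (an t.zero_le).trans (by simp [F]), fun h => (an h).trans ?_⟩
  norm_num [F, Nat.factorial]

theorem arith {ι : Type*} [Fintype ι] (T : ι → ℕ) (h0 : ∀ i, 0 < T i)
    (h : ∏ i, F (T i) = 12 / 625) : (∀ i, T i = 1 ∨ T i = 2 ∨ T i = 5) ∧
      #{i | T i = 2} = 1 ∧ #{i | T i = 5} = 1 := by
  classical
  have h5 : ∀ i ∈ univ, T i ∈ Icc 1 5 := fun i hi => mem_Icc.2 ⟨h0 i, by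
    by_contra e
    have h1 := (F_le (T i)).2.2 (by omega)
    rw [← mul_prod_erase _ _ hi] at h
    have h2 : ∏ x ∈ univ.erase i, F (T x) ≤ 1 :=
      prod_le_one (fun _ _ => (F_le _).1) fun _ _ => (F_le _).2.1
    nlinarith [(F_le (T i)).1]⟩
  rw [← prod_fiberwise_of_maps_to' h5, show Icc 1 5 = {1, 2, 3, 4, 5} by decide] at h
  simp only [prod_const] at h
  have key : ∀ a b c d : ℕ, (1 / 2 : ℚ) ^ a * ((2 / 9) ^ b * ((3 / 32) ^ c * (24 / 625) ^ d)) =
      12 / 625 → a = 1 ∧ b = 0 ∧ c = 0 ∧ d = 1 := fun a b c d e => by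
    have bd : ∀ (x y : ℚ) (n m : ℕ), 0 ≤ x → x ≤ 1 → y ≤ 1 → x ^ n * y = 12 / 625 →
        x ^ m < 12 / 625 → n < m := fun x y n m h1 h2 h3 h4 h5 => by
      by_contra e
      have := pow_le_pow_of_le_one h1 h2 (not_lt.1 e)
      nlinarith [pow_nonneg h1 n]
    have p : ∀ (x : ℚ) (n : ℕ), 0 ≤ x → x ≤ 1 → 0 ≤ x ^ n ∧ x ^ n ≤ 1 :=
      fun x n h1 h2 => ⟨pow_nonneg h1 n, pow_le_one₀ h1 h2⟩
    obtain ⟨a1, a2⟩ := p (1 / 2) a (by norm_num) (by norm_num)
    obtain ⟨b1, b2⟩ := p (2 / 9) b (by norm_num) (by norm_num)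
    obtain ⟨c1, c2⟩ := p (3 / 32) c (by norm_num) (by norm_num)
    obtain ⟨d1, d2⟩ := p (24 / 625) d (by norm_num) (by norm_num)
    have ha := bd (1 / 2) _ a 6 (by norm_num) (by norm_num)
      (mul_le_one₀ b2 (mul_nonneg c1 d1) (mul_le_one₀ c2 d1 d2)) e (by norm_num)
    have hb := bd (2 / 9) _ b 3 (by norm_num) (by norm_num)
      (mul_le_one₀ a2 (mul_nonneg c1 d1) (mul_le_one₀ c2 d1 d2)) (by rw [← e]; ring) (by norm_num)
    have hc := bd (3 / 32) _ c 2 (by norm_num) (by norm_num)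
      (mul_le_one₀ a2 (mul_nonneg b1 d1) (mul_le_one₀ b2 d1 d2)) (by rw [← e]; ring) (by norm_num)
    have hd := bd (24 / 625) _ d 2 (by norm_num) (by norm_num)
      (mul_le_one₀ a2 (mul_nonneg b1 c1) (mul_le_one₀ b2 c1 c2)) (by rw [← e]; ring) (by norm_num)
    clear a1 a2 b1 b2 c1 c2 d1 d2
    interval_cases a <;> interval_cases b <;> interval_cases c <;> interval_cases d <;>
      revert e <;> norm_num
  obtain ⟨h1, h2, h3, h4⟩ := key #{i | T i = 2} #{i | T i = 3} #{i | T i = 4} #{i | T i = 5} (by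
    rw [← h]; norm_num [F, Nat.factorial])
  refine ⟨fun i => ?_, h1, h4⟩
  have := mem_Icc.1 (h5 i (mem_univ i))
  have h6 : T i ≠ 3 := by simpa using Finset.ext_iff.1 (card_eq_zero.1 h2) i
  have h7 : T i ≠ 4 := by simpa using Finset.ext_iff.1 (card_eq_zero.1 h3) i
  omega

end Pool.Agent.H27.Tr
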