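import Pool.Agent.H27.Tr1

set_option autoImplicit false

namespace Pool.Agent.H27.Tr

open Finset MulAction Subgroup

universe u

variable {G : Type u} [Group G] [Finite G]

theorem sym {X Y : Subgroup G} (h : Nat.card X = Nat.card Y) : X.relIndex Y = Y.relIndex X := by
  have e : X.index = Y.index := Nat.eq_of_mul_eq_mul_left (Nat.card_pos (α := X)) (by
    rw [card_mul_index, h, card_mul_index])
  refine Nat.eq_of_mul_eq_mul_right (Nat.pos_of_ne_zero Y.index_ne_zero_of_finite) ?_
  rw [← inf_relIndex_right, relIndex_mul_index inf_le_right, ← e, ← inf_relIndex_left,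
    relIndex_mul_index inf_le_left]

theorem chain (A B C D : Subgroup G) : ∃ x y, 0 < x ∧ 0 < y ∧ x ≤ C.relIndex B ∧
    y ≤ D.relIndex C ∧ D.relIndex A ∣ y * (x * B.relIndex A) := by
  refine ⟨C.relIndex (B ⊓ A), D.relIndex (C ⊓ B ⊓ A), Nat.pos_of_ne_zero index_ne_zero_of_finite,
    Nat.pos_of_ne_zero index_ne_zero_of_finite,
    relIndex_le_of_le_right inf_le_left index_ne_zero_of_finite,
    relIndex_le_of_le_right (inf_le_left.trans inf_le_left) index_ne_zero_of_finite, ?_⟩
  rw [relIndex_inf_mul_relIndex, relIndex_inf_mul_relIndex]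
  exact relIndex_dvd_of_le_left _ inf_le_left

theorem blk (H K : Subgroup G) (h : Nat.card H = Nat.card K) (m : ℕ)
    (hm : ∀ (a : G ⧸ H) (x y z : ℕ), 0 < x → 0 < y → 0 < z → x ≤ m → y ≤ m → z ≤ m →
      (stabilizer G a).relIndex K ∣ x * (y * z) → (stabilizer G a).relIndex K ≤ m) :
    IsBlock G {a : G ⧸ H | (stabilizer G a).relIndex K ≤ m} := by
  have key : ∀ (g : G) (a b : G ⧸ H), (stabilizer G a).relIndex K ≤ m →
      (stabilizer G (g • a)).relIndex K ≤ m → (stabilizer G b).relIndex K ≤ m →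
      (stabilizer G (g • b)).relIndex K ≤ m := fun g a b h1 h2 h3 => by
    obtain ⟨x, y, h4, h5, h6, h7, h8⟩ := chain K (stabilizer G (g • a))
      (K.map (MulAut.conj g).toMonoidHom) (stabilizer G (g • b))
    rw [stabilizer_smul_eq_stabilizer_map_conj,
      relIndex_map_map_of_injective _ _ (MulAut.conj g).injective] at h6 h7
    rw [← sym (by
      refine Nat.eq_of_mul_eq_mul_right (Nat.pos_of_ne_zero H.index_ne_zero_of_finite) ?_
      rw [← h, card_mul_index, H.index_eq_card, ← index_stabilizer_of_transitive G a,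
        card_mul_index])] at h6
    exact hm _ _ _ _ h5 h4 (Nat.pos_of_ne_zero index_ne_zero_of_finite) (h7.trans h3)
      (h6.trans h1) h2 h8
  refine isBlock_iff_smul_eq_of_mem.2 fun g a h1 h2 => Set.ext fun b => ⟨?_, fun hb => ?_⟩
  · rintro ⟨b, hb, rfl⟩
    exact key g a b h1 h2 hb
  · exact ⟨g⁻¹ • b, key g⁻¹ (g • a) b h2 (by rwa [inv_smul_smul]) hb, smul_inv_smul g b⟩

theorem formula (H K : Subgroup G) (h : Nat.card H = Nat.card K) :
    ∃ (ι : Type u) (_ : Fintype ι) (c : G ⧸ H → ι), Function.Surjective c ∧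
      (∀ a, Nat.card {a' // c a' = c a} = (stabilizer G a).relIndex K) ∧
      (Nat.card {S : Set G // (∀ g, ∃! s, s ∈ S ∧ g⁻¹ * s ∈ H) ∧
        ∀ g, ∃! s, s ∈ S ∧ s * g⁻¹ ∈ K} : ℚ) / Nat.card H ^ H.index =
        ∏ i, F (Nat.card {a // c a = i}) := by
  classical
  have := Fintype.ofFinite (G ⧸ H)
  have := Fintype.ofFinite (orbitRel.Quotient K (G ⧸ H))
  have := Fintype.ofFinite (Quotient (QuotientGroup.rightRel K))
  let c : G ⧸ H → orbitRel.Quotient K (G ⧸ H) := Quotient.mk _
  let r : G → Quotient (QuotientGroup.rightRel K) := Quotient.mk _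
  have hr : ∀ x y, r x = r y ↔ x * y⁻¹ ∈ K := fun x y => by
    rw [eq_comm, Quotient.eq, QuotientGroup.rightRel_apply]
  let d : Quotient (QuotientGroup.rightRel K) → orbitRel.Quotient K (G ⧸ H) :=
    Quotient.lift (fun g => c g) fun x y e => Quotient.sound
      ⟨⟨_, (hr x y).1 (Quotient.sound e)⟩, congrArg QuotientGroup.mk (inv_mul_cancel_right x y)⟩
  have h1 : ∀ a, Nat.card {a' // c a' = c a} = (stabilizer K a).index := fun a => by
    rw [index_stabilizer, ← Nat.card_coe_set_eq]
    exact Nat.card_congr (Equiv.subtypeEquivRight fun _ => Quotient.eq)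
  have h2 : ∀ (a : G ⧸ H) b, Nat.card {g : G // (g : G ⧸ H) = a ∧ r g = b} =
      if d b = c a then Nat.card (stabilizer K a) else 0 := fun a b => by
    split_ifs with e
    · obtain ⟨x, rfl⟩ := Quotient.mk_surjective b
      obtain ⟨k, rfl⟩ := Quotient.exact e.symm
      refine Nat.card_congr ⟨fun g => ⟨⟨g.1 * (k * x)⁻¹, by
        simpa [mul_assoc] using K.mul_mem ((hr _ _).1 g.2.2) (K.inv_mem k.2)⟩,
        (congrArg QuotientGroup.mk (inv_mul_cancel_right g.1 (k * x))).trans g.2.1⟩,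
        fun g => ⟨g.1 * (k * x), g.2, (hr _ _).2 (by simpa [mul_assoc] using (g.1 * k).2)⟩,
        fun g => by simp [mul_assoc], fun g => by simp [mul_assoc]⟩
    · exact Nat.card_eq_zero.2 (Or.inl ⟨fun ⟨g, h1, h2⟩ => e (by rw [← h1, ← h2]; rfl)⟩)
  have h3 : ∀ a, Nat.card {a' // c a' = c a} * Nat.card (stabilizer K a) = Nat.card H :=
    fun a => by rw [h1, h, index_mul_card]
  have h4 : ∀ i, Fintype.card {a // c a = i} = Fintype.card {b // d b = i} := fun i => by
    obtain ⟨a, rfl⟩ := Quotient.mk_surjective i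
    refine Nat.eq_of_mul_eq_mul_right (Nat.card_pos (α := stabilizer K a)) ?_
    have e : (Σ b, {g : G // (g : G ⧸ H) = a ∧ r g = b}) ≃ (QuotientGroup.mk ⁻¹' {a} : Set G) :=
      ⟨fun p => ⟨p.2.1, p.2.2.1⟩, fun g => ⟨r g, g.1, g.2, rfl⟩,
        by rintro ⟨_, g, h, rfl⟩; rfl, fun _ => rfl⟩
    have := Nat.card_congr e
    rw [QuotientGroup.card_preimage_mk, Nat.card_sigma] at this
    simp only [h2, ← sum_filter, sum_const, smul_eq_mul, Nat.card_unique, mul_one] at this
    rw [← Nat.card_eq_fintype_card, h3, Fintype.card_subtype, ← this]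
  let π := Equiv.ofFiberEquiv fun i => Fintype.equivOfCardEq (h4 i)
  have hπ : ∀ a, d (π a) = c a := Equiv.ofFiberEquiv_map _
  refine ⟨_, inferInstance, c, Quotient.mk_surjective, fun a => (h1 a).trans ?_, ?_⟩
  · rfl
  have e := count (fun g : G => (g : G ⧸ H)) r
  rw [← Equiv.sum_comp ((Equiv.refl _).equivCongr π)] at e
  rw [Nat.card_congr (Equiv.subtypeEquivRight (q := fun S : Set G =>
    (∀ a, ∃! s, s ∈ S ∧ (s : G ⧸ H) = a) ∧ ∀ b, ∃! s, s ∈ S ∧ r s = b) fun S => and_congr
      (by simp only [QuotientGroup.forall_mk, eq_comm (b := (_ : G ⧸ H)), QuotientGroup.eq])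
      (by simp only [Quotient.forall, ← hr]; rfl)), e]
  simp only [F, Nat.card_eq_fintype_card (α := {a // c a = _})]
  rw [← blockperm c, Nat.cast_sum, sum_div]
  refine sum_congr rfl fun σ _ => ?_
  rw [Nat.cast_prod, H.index_eq_card, Nat.card_eq_fintype_card (α := G ⧸ H), ← card_univ,
    ← prod_const, ← prod_div_distrib]
  refine prod_congr rfl fun a _ => ?_
  simp only [h2, Equiv.equivCongr_apply_apply, hπ, Equiv.refl_symm, Equiv.refl_apply]
  split_ifs
  · have h5 : (Nat.card (stabilizer K a) : ℚ) ≠ 0 := by exact_mod_cast Nat.card_pos.ne'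
    rw [← h3 a, Nat.card_eq_fintype_card (α := {a' // c a' = _})]
    push_cast
    rw [mul_comm, ← div_div, div_self h5]
  · simp

theorem main (H K : Subgroup G) (h : Nat.card H = Nat.card K) :
    (Nat.card {S : Set G // (∀ g, ∃! s, s ∈ S ∧ g⁻¹ * s ∈ H) ∧
        ∀ g, ∃! s, s ∈ S ∧ s * g⁻¹ ∈ K} : ℚ) / Nat.card H ^ H.index ≠ 12 / 625 := by
  classical
  obtain ⟨ι, _, c, hc, h1, h2⟩ := formula H K h
  have := Fintype.ofFinite (G ⧸ H)
  rw [h2]
  intro e
  set T := fun i => Nat.card {a // c a = i}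
  obtain ⟨h3, h4, h5⟩ := arith T (fun i => by
    obtain ⟨a, rfl⟩ := hc i
    exact Nat.card_pos_iff.2 ⟨⟨⟨a, rfl⟩⟩, inferInstance⟩) e
  have cnt : ∀ m, {a : G ⧸ H | (stabilizer G a).relIndex K ≤ m}.ncard =
      #{i | T i = 1} * (if 1 ≤ m then 1 else 0) + ((if 2 ≤ m then 2 else 0) +
        if 5 ≤ m then 5 else 0) := fun m => by
    rw [Set.ncard_eq_toFinset_card', card_eq_sum_card_fiberwise (f := c) (t := univ) (by simp),
      sum_congr rfl (g := fun i => if T i ≤ m then T i else 0) fun i _ => ?_,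
      ← sum_fiberwise_of_maps_to' (g := T) (t := {1, 2, 5}) (fun i _ => by simpa using h3 i)
        fun t => if t ≤ m then t else 0]
    · simp [h4, h5]
    · obtain ⟨a, rfl⟩ := hc i
      have : ∀ x, c x = c a → (stabilizer G x).relIndex K = T (c a) := fun x e => by
        rw [← h1, e]
      split_ifs with e
      · simp only [T, Nat.card_eq_fintype_card, Fintype.card_subtype]
        congr 1
        ext x
        simpa using fun e' => (this x e').trans_le e
      · simpa using fun x e' e'' => e ((this x e'').ge.trans e')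
  have h6 : ∀ a : G ⧸ H, (stabilizer G a).relIndex K = 1 ∨ (stabilizer G a).relIndex K = 2 ∨
      (stabilizer G a).relIndex K = 5 := fun a => h1 a ▸ h3 (c a)
  have h7 : Nat.card (G ⧸ H) = #{i | T i = 1} + 7 := by
    have := cnt 5
    rw [Set.eq_univ_of_forall (s := {a : G ⧸ H | _}) fun a => by
      have := h6 a; simp only [Set.mem_setOf_eq]; omega, Set.ncard_univ] at this
    simpa using this
  have b1 := (blk H K h 1 fun a x y z _ _ _ _ _ _ e => by
    obtain rfl : x = 1 := by omega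
    obtain rfl : y = 1 := by omega
    obtain rfl : z = 1 := by omega
    exact Nat.le_of_dvd one_pos e).ncard_dvd_card
  have b2 := (blk H K h 2 fun a x y z _ _ _ _ _ _ e => by
    rcases h6 a with e' | e' | e' <;> rw [e'] at e ⊢ <;> try norm_num
    interval_cases x <;> interval_cases y <;> interval_cases z <;> norm_num at e).ncard_dvd_card
  rw [← Set.ncard_pos, cnt, h7] at b1 b2
  generalize #{i | T i = 1} = n at b1 b2
  norm_num at b1 b2
  have := (Nat.dvd_add_right dvd_rfl).1 (show n + 2 ∣ n + 2 + 5 from b2)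
  have := Nat.le_of_dvd (by norm_num) this
  have : n ≤ 3 := by omega
  interval_cases n <;> revert b1 b2 <;> decide

end Pool.Agent.H27.Tr
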