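import Mathlib

set_option autoImplicit false

namespace Pool.Agent.H27.Wobble

open Set Function Topology Filter

lemma cont_eval {Y V B : Type} [TopologicalSpace Y] [TopologicalSpace V] [DiscreteTopology V]
    [TopologicalSpace B] {p : Y → V} {y : Y → V → B} (hp : Continuous p) (hy : Continuous y) :
    Continuous fun k => y k (p k) :=
  continuous_iff_continuousAt.mpr fun k =>
    ((continuous_apply (p k)).comp hy).continuousAt.congr (by
      filter_upwards [hp.continuousAt.eventually (show ∀ᶠ v in 𝓝 (p k), v = p k by simp)] with x hx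
      simp [hx])

theorem general {G : Type} [Group G] {d : ℕ} (S : Finset G) (hS : Subgroup.closure (S : Set G) = ⊤)
    (f : G → Fin d → ℤ) (hf : Injective f) (hL : ∀ g, ∃ L : ℤ, ∀ h i, |f (h * g) i - f h i| ≤ L) :
    ∃ (A : Type) (_ : Finite A) (_ : TopologicalSpace A) (_ : DiscreteTopology A)
      (X : Set ((Fin d → ℤ) → A)), X.Nonempty ∧ IsClosed X ∧
      (∀ u, (fun x v => x (u + v)) '' X = X) ∧ ∃ φ : G →* (X ≃ₜ X), Injective φ ∧
        ∀ g u (x x' : X), (∀ v, x'.1 v = x.1 (u + v)) → ∀ v, (φ g x').1 v = (φ g x).1 (u + v) := by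
  classical
  choose L hL using hL
  let V := Fin d → ℤ
  let B : G → Set V := fun g => Icc (fun _ => -L g) fun _ => L g
  have hB : ∀ g, (B g).Finite := fun g => finite_Icc _ _
  let K : Set ((G → V → V) × (V → Bool)) := {k | (∀ v, k.1 1 v = 0) ∧
    (∀ g h v, k.1 (g * h) v = k.1 g v + k.1 h (v + k.1 g v)) ∧ ∀ g v, k.1 g v ∈ B g}
  have c1 : ∀ g v, Continuous fun k : (G → V → V) × (V → Bool) => k.1 g v := fun g v => by fun_prop
  have hK : IsCompact K := by
    refine IsCompact.of_isClosed_subset (((isCompact_univ_pi fun g => isCompact_univ_pi fun _ : V =>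
      (hB g).isCompact)).prod isCompact_univ) ?_ fun k hk => ⟨fun g _ v _ => hk.2.2 g v, trivial⟩
    simp only [K, setOf_and, setOf_forall]
    refine (isClosed_iInter fun v => isClosed_eq (c1 _ _) continuous_const).inter
      ((isClosed_iInter fun g => isClosed_iInter fun h => isClosed_iInter fun v =>
        isClosed_eq (c1 _ _) ((c1 _ _).add (cont_eval (continuous_const.add (c1 _ _))
          (by fun_prop)))).inter
        (isClosed_iInter fun g => isClosed_iInter fun v => (isClosed_discrete _).preimage (c1 _ _)))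
  have : CompactSpace K := isCompact_iff_compactSpace.mp hK
  have : ∀ g, Finite (B g) := fun g => hB g
  let E : K → V → ((s : S) → B s) × Bool := fun k v => (fun s => ⟨k.1.1 s v, k.2.2.2 s v⟩, k.1.2 v)
  have Ec : Continuous E := by fun_prop
  have Ei : Injective E := fun k k' h => by
    refine Subtype.ext (Prod.ext (funext fun g => ?_) (funext fun v => congrArg (fun x => (x v).2) h))
    have hg : g ∈ Subgroup.closure (S : Set G) := hS ▸ Subgroup.mem_top g
    induction hg using Subgroup.closure_induction with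
    | mem s hs => exact funext fun v => congrArg (fun x => ((x v).1 ⟨s, hs⟩).1) h
    | one => exact funext fun v => (k.2.1 v).trans (k'.2.1 v).symm
    | mul g g' _ _ h1 h2 => exact funext fun v => by rw [k.2.2.1, k'.2.2.1, h1, h2]
    | inv g _ h1 =>
      funext v
      have a1 := k.2.2.1 g⁻¹ g v
      have a2 := k'.2.2.1 g g⁻¹ (v + k.1.1 g⁻¹ v)
      rw [inv_mul_cancel, k.2.1] at a1
      rw [mul_inv_cancel, k'.2.1, ← h1, add_assoc, ← a1, add_zero] at a2
      exact add_right_cancel (a1.symm.trans (a2.trans (add_comm _ _)))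
  let e : K ≃ₜ range E := (Ec.isClosedEmbedding Ei).isEmbedding.toHomeomorph
  let T : G → K → K := fun g k => ⟨(k.1.1, fun v => k.1.2 (v + k.1.1 g v)), k.2⟩
  have Tc : ∀ g, Continuous (T g) := fun g => Continuous.subtype_mk ((by fun_prop : Continuous _).prodMk
    (continuous_pi fun v => cont_eval (continuous_const.add ((c1 g v).comp continuous_subtype_val))
      (by fun_prop))) _
  have T1 : ∀ k, T 1 k = k := fun k => Subtype.ext (Prod.ext rfl (funext fun v => by simp [T, k.2.1]))
  have Tm : ∀ g h k, T (g * h) k = T g (T h k) := fun g h k =>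
    Subtype.ext (Prod.ext rfl (funext fun v => by simp [T, k.2.2.1, add_assoc]))
  let σ : V → K → K := fun u k => ⟨(fun g v => k.1.1 g (u + v), fun v => k.1.2 (u + v)),
    fun v => k.2.1 _, fun g h v => by simp only [k.2.2.1, add_assoc], fun g v => k.2.2.2 _ _⟩
  have hσ : ∀ u k, E (σ u k) = fun v => E k (u + v) := fun _ _ => rfl
  let ψ : G → K ≃ₜ K := fun g => ⟨⟨T g, T g⁻¹, fun k => by rw [← Tm, inv_mul_cancel, T1],
    fun k => by rw [← Tm, mul_inv_cancel, T1]⟩, Tc g, Tc g⁻¹⟩
  let c : G → V → V := fun g v => if h : ∃ x, f x = v then f (h.choose * g) - v else 0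
  have hc : ∀ g x, c g (f x) = f (x * g) - f x := fun g x => by
    have h : ∃ y, f y = f x := ⟨x, rfl⟩
    simp only [c, dif_pos h, hf h.choose_spec]
  have hc' : ∀ g v, (¬∃ x, f x = v) → c g v = 0 := fun g v h => dif_neg h
  have cK : ∀ y, (c, y) ∈ K := fun y => by
    refine ⟨fun v => ?_, fun g h v => ?_, fun g v => ?_⟩ <;> by_cases h : ∃ x, f x = v
    · obtain ⟨x, rfl⟩ := h; simp [hc]
    · exact hc' _ _ h
    · obtain ⟨x, rfl⟩ := h; simp [hc, mul_assoc]
    · simp [hc' _ _ h]
    · obtain ⟨x, rfl⟩ := h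
      simp only [hc]
      exact ⟨fun i => (abs_le.mp (hL g x i)).1, fun i => (abs_le.mp (hL g x i)).2⟩
    · simp only [hc' _ _ h]
      exact ⟨fun i => neg_nonpos.mpr ((abs_nonneg _).trans (hL g 1 i)),
        fun i => (abs_nonneg _).trans (hL g 1 i)⟩
  refine ⟨_, inferInstance, inferInstance, inferInstance, range E, ⟨_, ⟨⟨_, cK fun _ => true⟩, rfl⟩⟩,
    (isCompact_range Ec).isClosed, fun u => ?_,
    MonoidHom.mk' (fun g => (e.symm.trans (ψ g)).trans e) fun g h => ?_, ?_, ?_⟩
  · ext x
    constructor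
    · rintro ⟨_, ⟨k, rfl⟩, rfl⟩; exact ⟨σ u k, rfl⟩
    · rintro ⟨k, rfl⟩; exact ⟨_, ⟨σ (-u) k, rfl⟩, funext fun v => congrArg (E k) (neg_add_cancel_left u v)⟩
  · ext1 x; simp [ψ, Tm]
  · refine (injective_iff_map_eq_one _).mpr fun g hg => ?_
    have h1 := DFunLike.congr_fun hg (e ⟨_, cK fun v => decide (v = f 1)⟩)
    simp only [MonoidHom.mk'_apply, Homeomorph.trans_apply, Homeomorph.symm_apply_apply] at h1
    have h2 := congrArg (fun k : K => k.1.2 (f 1)) (e.injective h1)
    simpa [ψ, T, hc, hf.eq_iff] using h2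
  · intro g u x x' h v
    obtain ⟨k, rfl⟩ := e.surjective x
    obtain ⟨k', rfl⟩ := e.surjective x'
    obtain rfl : k' = σ u k := Ei (funext h)
    simp only [MonoidHom.mk'_apply, Homeomorph.trans_apply, Homeomorph.symm_apply_apply]
    change E (T g (σ u k)) v = E (T g k) (u + v)
    simp [E, T, σ, add_assoc]

end Pool.Agent.H27.Wobble
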